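import Mathlib

set_option autoImplicit false

open MeasureTheory Filter
open scoped ENNReal

namespace Pool.Agent.Lib.helper16.AR

/-- position `X_k = ζ_1 ⋯ ζ_k` of the walk with increments `ω 0, ω 1, …` -/
def walk {G : Type} [Monoid G] (ω : ℕ → G) (k : ℕ) : G := ((List.range k).map ω).prod

/-- the subsemigroup `S_n` generated by `X_n, X_{n+1}, …` -/
def Sg {G : Type} [Monoid G] (ω : ℕ → G) (n : ℕ) : Subsemigroup G :=
  Subsemigroup.closure (Set.range fun k : ℕ => walk ω (n + k))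

/-- law of an i.i.d. sequence with distribution `μ` -/
noncomputable def law {G : Type} [MeasurableSpace G] (μ : PMF G) : Measure (ℕ → G) :=
  Measure.infinitePi fun _ : ℕ => μ.toMeasure

/-- `(G, μ)` is algebraically recurrent: for every `n ≥ 1`, `S_n = G` almost surely -/
def IsAR {G : Type} [Group G] [MeasurableSpace G] (μ : PMF G) : Prop :=
  ∀ n : ℕ, 1 ≤ n → ∀ᵐ ω ∂(law μ), Sg ω n = ⊤

/-- `μ` is symmetric and its support generates `G` as a group -/
def Adm {G : Type} [Group G] (μ : PMF G) : Prop :=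
  (∀ g : G, μ g⁻¹ = μ g) ∧ Subgroup.closure μ.support = ⊤

lemma walk_zero {G : Type} [Monoid G] (ω : ℕ → G) : walk ω 0 = 1 := rfl

lemma walk_succ {G : Type} [Monoid G] (ω : ℕ → G) (k : ℕ) : walk ω (k + 1) = walk ω k * ω k := by
  simp [walk, List.range_succ]

lemma map_walk {G H : Type} [Monoid G] [Monoid H] (f : G →* H) (ω : ℕ → G) (k : ℕ) :
    f (walk ω k) = walk (fun i => f (ω i)) k := by
  induction k with
  | zero => simp [walk_zero]
  | succ k ih => rw [walk_succ, walk_succ, map_mul, ih]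

lemma walk_mem {G : Type} [Monoid G] (ω : ℕ → G) (n m : ℕ) (h : n ≤ m) : walk ω m ∈ Sg ω n :=
  Subsemigroup.subset_closure ⟨m - n, by simp only; rw [Nat.add_sub_cancel' h]⟩

instance {G : Type} [MeasurableSpace G] (μ : PMF G) : IsProbabilityMeasure (law μ) := by
  unfold law; infer_instance

lemma law_all {G : Type} [MeasurableSpace G] [DiscreteMeasurableSpace G] (μ : PMF G)
    (s : Finset ℕ) (A : Set G) : law μ {ω | ∀ k ∈ s, ω k ∈ A} = μ.toMeasure A ^ s.card := by
  have := Measure.infinitePi_pi (fun _ : ℕ => μ.toMeasure) (s := s) (t := fun _ => A)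
    (fun _ _ => MeasurableSet.of_discrete)
  rw [Finset.prod_const] at this
  exact this

lemma law_map {J G : Type} [MeasurableSpace J] [DiscreteMeasurableSpace J] [MeasurableSpace G]
    (ρ : PMF J) (f : J → G) : law (ρ.map f) = (law ρ).map fun ω i => f (ω i) := by
  unfold law
  rw [Measure.infinitePi_map_pi _ (f := fun _ => f) fun _ => Measurable.of_discrete,
    PMF.toMeasure_map f ρ Measurable.of_discrete]

lemma lt_one {G : Type} [MeasurableSpace G] [DiscreteMeasurableSpace G] (μ : PMF G) (A : Set G)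
    (a : G) (ha : a ∉ A) (h : μ a ≠ 0) : μ.toMeasure A < 1 := by
  refine lt_of_le_of_ne prob_le_one fun e => ?_
  rw [PMF.toMeasure_apply_eq_one_iff _ MeasurableSet.of_discrete] at e
  exact ha (e h)

/-- every point of the support occurs after any time -/
lemma ae_occurs {G : Type} [Countable G] [MeasurableSpace G] [DiscreteMeasurableSpace G]
    (μ : PMF G) : ∀ᵐ ω ∂(law μ), ∀ a, μ a ≠ 0 → ∀ n, ∃ k, n ≤ k ∧ ω k = a := by
  rw [ae_all_iff]
  intro a
  by_cases h : μ a = 0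
  · simp [h]
  simp only [ne_eq, h, not_false_eq_true, forall_const]
  rw [ae_all_iff]
  intro n
  rw [ae_iff]
  have h1 := lt_one μ {a}ᶜ a (by simp) h
  apply le_antisymm _ zero_le
  apply ge_of_tendsto' (ENNReal.tendsto_pow_atTop_nhds_zero_of_lt_one h1)
  intro m
  have := law_all μ (Finset.Ico n (n + m)) {a}ᶜ
  rw [Nat.card_Ico, Nat.add_sub_cancel_left] at this
  rw [← this]
  apply measure_mono
  intro ω hω k hk e
  exact hω ⟨k, (Finset.mem_Ico.1 hk).1, e⟩

/-- level distribution times a fair sign -/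
noncomputable def sym (p : PMF ℕ) : PMF (ℕ × Bool) :=
  ⟨fun x => p x.1 / 2, ENNReal.summable.hasSum_iff.2 (by
    rw [ENNReal.tsum_prod']
    simp only [tsum_fintype, Fintype.sum_bool, ENNReal.add_halves, PMF.tsum_coe])⟩

lemma sym_apply (p : PMF ℕ) (x : ℕ × Bool) : sym p x = p x.1 / 2 := rfl

lemma sym_level (p : PMF ℕ) (A : Set ℕ) : (sym p).toMeasure (Prod.fst ⁻¹' A) = p.toMeasure A := by
  rw [PMF.toMeasure_apply _ MeasurableSet.of_discrete,
    PMF.toMeasure_apply _ MeasurableSet.of_discrete, ENNReal.tsum_prod']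
  refine tsum_congr fun j => ?_
  by_cases h : j ∈ A <;> simp [tsum_fintype, Set.indicator, h, sym_apply, two_mul]

lemma sym_all (p : PMF ℕ) (s : Finset ℕ) (A : Set ℕ) :
    law (sym p) {ω | ∀ k ∈ s, (ω k).1 ∈ A} = p.toMeasure A ^ s.card := by
  rw [← sym_level, ← law_all]; rfl

lemma sym_flip (p : PMF ℕ) (δ : ℕ → Bool) :
    (sym p).map (fun x => (x.1, xor (δ x.1) x.2)) = sym p := by
  ext ⟨j, σ⟩
  rw [PMF.map_apply, tsum_eq_single (j, xor (δ j) σ)]
  · simp [sym_apply]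
  · rintro ⟨i, τ⟩ h
    rw [if_neg]
    intro e
    simp only [Prod.mk.injEq] at e
    obtain ⟨rfl, rfl⟩ := e
    simp at h

def step {G : Type} [Group G] (g : ℕ → G) (x : ℕ × Bool) : G := if x.2 then g x.1 else (g x.1)⁻¹

lemma adm_step {G : Type} [Group G] (g : ℕ → G) (hg : Subgroup.closure (Set.range g) = ⊤)
    (p : PMF ℕ) (hp : ∀ j, p j ≠ 0) : Adm ((sym p).map (step g)) := by
  constructor
  · intro a
    have h1 : ((sym p).map (step g)).map (fun x => x⁻¹) = (sym p).map (step g) := by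
      conv_rhs => rw [← sym_flip p fun _ => true]
      rw [PMF.map_comp, PMF.map_comp]
      congr 1
      ext ⟨j, σ⟩
      cases σ <;> simp [step]
    conv_rhs => rw [← h1]
    rw [PMF.map_apply (fun x => x⁻¹), tsum_eq_single a⁻¹]
    · simp
    · intro b hb
      rw [if_neg]
      rintro rfl
      simp at hb
  · rw [eq_top_iff, ← hg]
    apply Subgroup.closure_mono
    rintro _ ⟨j, rfl⟩
    rw [PMF.support_map]
    refine ⟨(j, true), ?_, rfl⟩
    rw [PMF.mem_support_iff, sym_apply]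
    simp [hp j]

noncomputable def geo : PMF ℕ :=
  ⟨fun b => 2⁻¹ ^ (b + 1), ENNReal.summable.hasSum_iff.2 (by
    rw [ENNReal.tsum_geometric_add_one, ENNReal.one_sub_inv_two, inv_inv]
    exact ENNReal.inv_mul_cancel (by norm_num) (by norm_num))⟩

lemma geo_apply (b : ℕ) : geo b = 2⁻¹ ^ (b + 1) := rfl

def Good (τ : ℕ → ℕ) (ω : ℕ → ℕ × Bool) : Prop :=
  ∃ ε : ℕ → Bool, ∀ n, 1 ≤ n → ∃ k0 < n, (ω k0).2 = ε (ω k0).1 ∧ 2 ≤ (ω k0).1 ∧
    n ≤ τ (ω k0).1 ∧ ∀ k < n, k ≠ k0 → (ω k).1 < (ω k0).1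

lemma ex_block (S : ℕ → ℕ) (h0 : S 0 = 0) (hS : ∀ b, S b < S (b + 1)) (j : ℕ) :
    ∃ b, b ≤ j ∧ S b ≤ j ∧ j < S (b + 1) := by
  induction j with
  | zero => exact ⟨0, le_rfl, h0.le, by have := hS 0; omega⟩
  | succ j ih =>
    obtain ⟨b, h1, h2, h3⟩ := ih
    by_cases h : j + 1 < S (b + 1)
    · exact ⟨b, by omega, by omega, h⟩
    · exact ⟨b + 1, by omega, by omega, by have := hS (b + 1); omega⟩

theorem records : ∃ (p : PMF ℕ) (τ : ℕ → ℕ), (∀ j, p j ≠ 0) ∧
    ¬ ∀ᵐ ω ∂(law (sym p)), ¬ Good τ ω := by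
  have hT : ∀ b : ℕ, ∃ T : ℕ, geo.toMeasure (Set.Iic b) ^ T ≤ 2⁻¹ ^ (b + 4) := by
    intro b
    have h1 := lt_one geo (Set.Iic b) (b + 1) (by simp) (by simp [geo_apply])
    have h2 := (ENNReal.tendsto_pow_atTop_nhds_zero_of_lt_one h1).eventually
      (ge_mem_nhds (a := (2⁻¹ : ℝ≥0∞) ^ (b + 4)) (ENNReal.pow_pos (by simp) _))
    exact h2.exists
  choose T hT using hT
  let N : ℕ → ℕ := fun b => T b ^ 2 * 2 ^ (b + 4) + 2
  let S : ℕ → ℕ := fun b => ∑ i ∈ Finset.range b, N i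
  have hS1 : ∀ b, S (b + 1) = S b + N b := fun b => Finset.sum_range_succ _ _
  have hN : ∀ b, 2 ≤ N b := fun b => Nat.le_add_left _ _
  have hS : ∀ b, S b < S (b + 1) := fun b => by rw [hS1]; have := hN b; omega
  have hmono : StrictMono S := strictMono_nat_of_lt_succ hS
  let p : PMF ℕ := geo.bind fun b =>
    PMF.uniformOfFinset (Finset.Ico (S b) (S (b + 1))) ⟨S b, by simp [hS b]⟩
  have p1 : ∀ b j, j ∈ Finset.Ico (S b) (S (b + 1)) → p j ≤ (N b : ℝ≥0∞)⁻¹ := by
    intro b j hj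
    rw [PMF.bind_apply]
    calc _ ≤ ∑' a, geo a * (N b : ℝ≥0∞)⁻¹ := by
          refine ENNReal.tsum_le_tsum fun a => ?_
          gcongr
          rw [PMF.uniformOfFinset_apply]
          split_ifs with h
          · have : a = b := by
              rw [Finset.mem_Ico] at hj h
              have h1 := hmono.lt_iff_lt.1 (h.1.trans_lt hj.2)
              have h2 := hmono.lt_iff_lt.1 (hj.1.trans_lt h.2)
              omega
            subst this
            rw [Nat.card_Ico, hS1, Nat.add_sub_cancel_left]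
          · exact zero_le
      _ = _ := by rw [ENNReal.tsum_mul_right, PMF.tsum_coe, one_mul]
  have p2 : ∀ b, p.toMeasure (Set.Iio (S (b + 1))) ≤ geo.toMeasure (Set.Iic b) := by
    intro b
    rw [PMF.toMeasure_bind_apply _ _ _ MeasurableSet.of_discrete,
      PMF.toMeasure_apply _ MeasurableSet.of_discrete]
    refine ENNReal.tsum_le_tsum fun a => ?_
    by_cases h : a ≤ b
    · rw [Set.indicator_of_mem (by simpa using h)]
      exact mul_le_of_le_one_right zero_le prob_le_one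
    · rw [(PMF.toMeasure_apply_eq_zero_iff _ MeasurableSet.of_discrete).2]
      · simp
      · rw [PMF.support_uniformOfFinset, Set.disjoint_left]
        intro j hj hj'
        have h1 : S (b + 1) ≤ S a := hmono.monotone (by omega)
        simp only [Finset.coe_Ico, Set.mem_Ico, Set.mem_Iio] at hj hj'
        omega
  refine ⟨p, fun j => (Finset.range (j + 1)).sup T, fun j => ?_, fun h => ?_⟩
  · obtain ⟨b, -, h2, h3⟩ := ex_block S rfl hS j
    rw [← PMF.mem_support_iff, PMF.mem_support_bind_iff]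
    exact ⟨b, by simp [PMF.mem_support_iff, geo_apply], by simp [h2, h3]⟩
  let B0 : Set (ℕ → ℕ × Bool) := {ω | ∀ k ∈ ({0} : Finset ℕ), (ω k).1 ∈ Set.Iio (S 1)}
  let B1 : ℕ → Set (ℕ → ℕ × Bool) := fun b =>
    {ω | ∀ k ∈ Finset.range (T b), (ω k).1 ∈ Set.Iio (S (b + 1))}
  let B2 : ℕ → Set (ℕ → ℕ × Bool) := fun b =>
    ⋃ x ∈ (Finset.range (T b)).offDiag ×ˢ Finset.Ico (S b) (S (b + 1)),
      {ω | ∀ k ∈ ({x.1.1, x.1.2} : Finset ℕ), (ω k).1 ∈ ({x.2} : Set ℕ)}
  have m0 : law (sym p) B0 ≤ 2⁻¹ := by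
    rw [sym_all, Finset.card_singleton, pow_one]
    refine (p2 0).trans (le_of_eq ?_)
    rw [show Set.Iic (0 : ℕ) = {0} by ext; simp,
      PMF.toMeasure_apply_singleton _ _ MeasurableSet.of_discrete, geo_apply]
    simp
  have m1 : ∀ b, law (sym p) (B1 b) ≤ 2⁻¹ ^ (b + 4) := by
    intro b
    rw [sym_all, Finset.card_range]
    exact (pow_le_pow_left' (p2 b) _).trans (hT b)
  have m2 : ∀ b, law (sym p) (B2 b) ≤ 2⁻¹ ^ (b + 4) := by
    intro b
    refine (measure_biUnion_finset_le _ _).trans ?_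
    refine (Finset.sum_le_card_nsmul _ _ ((N b : ℝ≥0∞)⁻¹ ^ 2) ?_).trans ?_
    · intro x hx
      rw [Finset.mem_product, Finset.mem_offDiag] at hx
      rw [sym_all, Finset.card_pair hx.1.2.2,
        PMF.toMeasure_apply_singleton _ _ MeasurableSet.of_discrete]
      exact pow_le_pow_left' (p1 b _ hx.2) _
    · rw [Finset.card_product, Nat.card_Ico, hS1, Nat.add_sub_cancel_left, nsmul_eq_mul,
        Finset.offDiag_card, Finset.card_range]
      have hN0 : (N b : ℝ≥0∞) ≠ 0 := by have := hN b; exact Nat.cast_ne_zero.2 (by omega)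
      have e : (((T b * T b - T b) * N b : ℕ) : ℝ≥0∞) * (N b : ℝ≥0∞)⁻¹ ^ 2 =
          ((T b * T b - T b : ℕ) : ℝ≥0∞) * (N b : ℝ≥0∞)⁻¹ := by
        rw [Nat.cast_mul, pow_two, mul_assoc, ← mul_assoc (N b : ℝ≥0∞),
          ENNReal.mul_inv_cancel hN0 (by simp), one_mul]
      rw [e, ← div_eq_mul_inv, ENNReal.div_le_iff hN0 (by simp), ← ENNReal.inv_pow,
        mul_comm ((2 : ℝ≥0∞) ^ (b + 4))⁻¹, ← div_eq_mul_inv,
        ENNReal.le_div_iff_mul_le (by simp) (by simp)]
      have : (T b * T b - T b) * 2 ^ (b + 4) ≤ N b := by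
        simp only [N]
        have : T b * T b - T b ≤ T b ^ 2 := by rw [pow_two]; omega
        have := Nat.mul_le_mul_right (2 ^ (b + 4)) this
        omega
      exact_mod_cast this
  have hcov : ∀ ω, ¬ Good (fun j => (Finset.range (j + 1)).sup T) ω →
      ω ∈ B0 ∪ ⋃ b, (B1 b ∪ B2 b) := by
    intro ω hω
    by_contra hc
    simp only [Set.mem_union, Set.mem_iUnion, not_or, not_exists] at hc
    apply hω
    classical
    refine ⟨fun j => if h : ∃ k, (ω k).1 = j then (ω (Nat.find h)).2 else true, fun n hn => ?_⟩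
    obtain ⟨k0, hk0, hmax⟩ := Finset.exists_max_image (Finset.range n) (fun k => (ω k).1)
      ⟨0, by simp; omega⟩
    simp only [Finset.mem_range] at hk0 hmax
    obtain ⟨b, hb1, hb2, hb3⟩ := ex_block S rfl hS (ω k0).1
    have hnT : n ≤ T b := by
      by_contra hlt
      apply (hc.2 b).1
      intro k hk
      rw [Finset.mem_range] at hk
      exact (hmax k (by omega)).trans_lt hb3
    have huniq : ∀ k < n, k ≠ k0 → (ω k).1 < (ω k0).1 := by
      intro k hk hne
      refine lt_of_le_of_ne (hmax k hk) fun e => (hc.2 b).2 ?_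
      simp only [B2, Set.mem_iUnion]
      refine ⟨((k, k0), (ω k0).1), ?_, ?_⟩
      · simp only [Finset.mem_product, Finset.mem_offDiag, Finset.mem_range, Finset.mem_Ico]
        exact ⟨⟨by omega, by omega, hne⟩, hb2, hb3⟩
      · simp [e]
    refine ⟨k0, hk0, ?_, ?_, hnT.trans (Finset.le_sup (f := T) (by simp; omega)), huniq⟩
    · have hex : ∃ k, (ω k).1 = (ω k0).1 := ⟨k0, rfl⟩
      simp only [dif_pos hex]
      have : Nat.find hex = k0 := by
        rw [Nat.find_eq_iff]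
        exact ⟨rfl, fun k hk => (huniq k (by omega) hk.ne).ne⟩
      rw [this]
    · have h1 : ¬ (ω 0).1 < S 1 := fun h => hc.1 (by simpa [B0] using h)
      have h2 := hmax 0 (by omega)
      have h3 : S 1 = S 0 + N 0 := hS1 0
      have h4 := hN 0
      omega
  have h1 : law (sym p) Set.univ ≤ law (sym p) (B0 ∪ ⋃ b, (B1 b ∪ B2 b)) := by
    apply measure_mono_ae
    filter_upwards [h] with ω hω _ using hcov ω hω
  have h2 : law (sym p) (B0 ∪ ⋃ b, (B1 b ∪ B2 b)) ≤ 2⁻¹ + ∑' b : ℕ, 2⁻¹ ^ (b + 1) * 2⁻¹ ^ 2 := by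
    refine (measure_union_le _ _).trans (add_le_add m0 ((measure_iUnion_le _).trans
      (ENNReal.tsum_le_tsum fun b => (measure_union_le _ _).trans ?_)))
    refine (add_le_add (m1 b) (m2 b)).trans (le_of_eq ?_)
    rw [← pow_add, show b + 4 = (b + 1 + 2) + 1 by ring, pow_succ, ← mul_add,
      ENNReal.inv_two_add_inv_two, mul_one]
  rw [ENNReal.tsum_mul_right] at h2
  have h3 : ∑' b : ℕ, (2⁻¹ : ℝ≥0∞) ^ (b + 1) = 1 := geo.tsum_coe
  rw [h3, one_mul] at h2
  rw [measure_univ] at h1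
  have h4 : (2⁻¹ : ℝ≥0∞) + 2⁻¹ ^ 2 < 2⁻¹ + 2⁻¹ := by
    apply ENNReal.add_lt_add_left (by simp)
    rw [pow_two]
    calc (2⁻¹ : ℝ≥0∞) * 2⁻¹ < 2⁻¹ * 1 :=
          (ENNReal.mul_lt_mul_iff_right (by simp) (by simp)).2 (by simp)
      _ = _ := mul_one _
  rw [ENNReal.inv_two_add_inv_two] at h4
  exact absurd (h1.trans h2) (not_le.2 h4)

theorem nonAR {G : Type} [Group G] [MeasurableSpace G] [DiscreteMeasurableSpace G]
    (g : (ℕ → ℕ) → ℕ → G) (hg : ∀ τ, Subgroup.closure (Set.range (g τ)) = ⊤)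
    (h : ∀ τ ω, Good τ ω → 1 ∉ Sg (fun i => step (g τ) (ω i)) 1) :
    ∃ μ : PMF G, Adm μ ∧ ¬ ∀ᵐ ω ∂(law μ), Sg ω 1 = ⊤ := by
  obtain ⟨p, τ, hp, hr⟩ := records
  refine ⟨(sym p).map (step (g τ)), adm_step _ (hg τ) p hp, fun hc => hr ?_⟩
  rw [law_map] at hc
  have := ae_of_ae_map (Measurable.aemeasurable (by fun_prop)) hc
  filter_upwards [this] with ω hω hgood
  apply h τ ω hgood
  rw [hω]
  trivial

end Pool.Agent.Lib.helper16.AR
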