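import Pool.Agent.Lib.helper16.AR

set_option autoImplicit false

open MeasureTheory Filter LaurentPolynomial
open scoped ENNReal

namespace Pool.Agent.Lib.helper16.AR

def W (τ : ℕ → ℕ) : ℕ → ℕ
  | 0 => 1
  | j + 1 => (3 * τ (j + 1) * 49 ^ τ (j + 1) + 1) * W τ j

lemma W_pos (τ : ℕ → ℕ) (j : ℕ) : 0 < W τ j := by
  induction j with
  | zero => exact one_pos
  | succ j ih => exact Nat.mul_pos (by omega) ih

lemma W_mono (τ : ℕ → ℕ) : Monotone (W τ) :=
  monotone_nat_of_le_succ fun j => Nat.le_mul_of_pos_left _ (by omega)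

lemma cone {G : Type} [Group G] (g : ℕ → G) (τ : ℕ → ℕ) (ω : ℕ → ℕ × Bool) (hω : Good τ ω)
    (h : ∀ ε : ℕ → Bool, ∃ c m : G → ℝ, (∀ x y, c (x * y) = c x + m x * c y) ∧
      (∀ x y, m (x * y) = m x * m y) ∧ (∀ x, 0 < m x) ∧
      (∀ x, 7⁻¹ ≤ m (step g x) ∧ m (step g x) ≤ 7) ∧ (∀ x, |c (step g x)| ≤ 3 * W τ x.1) ∧
      ∀ j, 2 ≤ j → W τ j ≤ c (step g (j, ε j))) :
    1 ∉ Sg (fun i => step g (ω i)) 1 := by
  obtain ⟨ε, hε⟩ := hω
  obtain ⟨c, m, hc, hm, hpos, hm7, hc3, hcW⟩ := h ε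
  set ζ : ℕ → G := fun i => step g (ω i) with hζ
  have m1 : m 1 = 1 := by
    have h1 := hm 1 1
    rw [mul_one] at h1
    exact (mul_eq_left₀ (hpos 1).ne').1 h1.symm
  have c1 : c 1 = 0 := by
    have h1 := hc 1 1
    rw [mul_one, m1] at h1
    linarith
  have hmb : ∀ n, 7⁻¹ ^ n ≤ m (walk ζ n) ∧ m (walk ζ n) ≤ 7 ^ n := by
    intro n
    induction n with
    | zero => simp [walk_zero, m1]
    | succ n ih =>
      rw [walk_succ, hm, pow_succ, pow_succ]
      exact ⟨mul_le_mul ih.1 (hm7 _).1 (by positivity) (hpos _).le,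
        mul_le_mul ih.2 (hm7 _).2 (hpos _).le (by positivity)⟩
  have hcs : ∀ n, c (walk ζ n) = ∑ k ∈ Finset.range n, m (walk ζ k) * c (ζ k) := by
    intro n
    induction n with
    | zero => simp [walk_zero, c1]
    | succ n ih => rw [walk_succ, hc, ih, Finset.sum_range_succ]
  have hX : ∀ n, 1 ≤ n → 0 < c (walk ζ n) := by
    intro n hn
    obtain ⟨k0, hk0, h1, h2, h3, h4⟩ := hε n hn
    obtain ⟨j, hj⟩ : ∃ j, (ω k0).1 = j + 1 := ⟨(ω k0).1 - 1, by omega⟩
    rw [hj] at h3 h4
    set t := τ (j + 1) with ht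
    have hw : (0 : ℝ) < W τ j := by exact_mod_cast W_pos τ j
    rw [hcs, ← Finset.add_sum_erase _ _ (Finset.mem_range.2 hk0)]
    have a1 : 7⁻¹ ^ t * (W τ (j + 1) : ℝ) ≤ m (walk ζ k0) * c (ζ k0) := by
      apply mul_le_mul _ _ (by positivity) (hpos _).le
      · exact (pow_le_pow_of_le_one (by norm_num) (by norm_num) (by omega)).trans (hmb k0).1
      · have := hcW _ h2
        rw [← h1, hj] at this
        rw [hζ, ← hj]
        rw [← hj] at this
        exact this
    have a2 : ∀ k ∈ (Finset.range n).erase k0,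
        -(7 ^ t * (3 * W τ j) : ℝ) ≤ m (walk ζ k) * c (ζ k) := by
      intro k hk
      rw [Finset.mem_erase, Finset.mem_range] at hk
      apply neg_le_of_abs_le
      rw [abs_mul, abs_of_pos (hpos _)]
      apply mul_le_mul _ _ (abs_nonneg _) (by positivity)
      · exact (hmb k).2.trans (pow_le_pow_right₀ (by norm_num) (by omega))
      · refine (hc3 _).trans ?_
        have : W τ (ω k).1 ≤ W τ j := W_mono τ (by have := h4 k hk.2 hk.1; omega)
        exact_mod_cast Nat.mul_le_mul_left 3 this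
    have a3 := Finset.card_nsmul_le_sum _ _ _ a2
    rw [nsmul_eq_mul] at a3
    have a4 : (((Finset.range n).erase k0).card : ℝ) ≤ t := by
      have := Finset.card_erase_le (s := Finset.range n) (a := k0)
      rw [Finset.card_range] at this
      exact_mod_cast this.trans h3
    have a5 : (t : ℝ) * -(7 ^ t * (3 * W τ j)) ≤
        (((Finset.range n).erase k0).card : ℝ) * -(7 ^ t * (3 * W τ j)) :=
      mul_le_mul_of_nonpos_right a4 (by simp)
    have a6 : 7⁻¹ ^ t * (W τ (j + 1) : ℝ) = t * (7 ^ t * (3 * W τ j)) + 7⁻¹ ^ t * W τ j := by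
      rw [W, ← ht]
      push_cast
      have : (49 : ℝ) ^ t = 7 ^ t * 7 ^ t := by rw [← mul_pow]; norm_num
      rw [this, inv_pow]
      field_simp
    have a7 : (0 : ℝ) < 7⁻¹ ^ t * W τ j := by positivity
    linarith
  have : ∀ x ∈ Sg ζ 1, 0 < c x := by
    intro x hx
    induction hx using Subsemigroup.closure_induction with
    | mem x hx => obtain ⟨k, rfl⟩ := hx; exact hX _ (by omega)
    | mul x y _ _ hx hy => rw [hc]; have := hpos x; positivity
  intro h1
  have := this 1 h1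
  rw [c1] at this
  exact lt_irrefl _ this

theorem nonAR_free {G ι : Type} [Group G] [MeasurableSpace G] [DiscreteMeasurableSpace G]
    (e : ℕ ≃ ι) (ψ : G ≃* Multiplicative (ι →₀ ℤ)) :
    ∃ μ : PMF G, Adm μ ∧ ¬ ∀ᵐ ω ∂(law μ), Sg ω 1 = ⊤ := by
  apply nonAR (fun _ j => ψ.symm (Multiplicative.ofAdd (Finsupp.single (e j) 1)))
  · intro _
    rw [eq_top_iff]
    intro x _
    obtain ⟨y, rfl⟩ := ψ.symm.surjective x
    obtain ⟨y, rfl⟩ := Multiplicative.ofAdd.surjective y
    induction y using Finsupp.induction_linear with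
    | zero => simp
    | add f g hf hg => rw [ofAdd_add, map_mul]; exact Subgroup.mul_mem _ (hf trivial) (hg trivial)
    | single i n =>
      obtain ⟨j, rfl⟩ := e.surjective i
      have : Finsupp.single (e j) n = n • Finsupp.single (e j) (1 : ℤ) := by simp
      rw [this, ofAdd_zsmul, map_zpow]
      exact Subgroup.zpow_mem _ (Subgroup.subset_closure (Set.mem_range_self j)) _
  · intro τ ω hω
    apply cone _ τ ω hω
    intro ε
    let w : ι → ℝ := fun i => if ε (e.symm i) then W τ (e.symm i) else -W τ (e.symm i)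
    let φ : (ι →₀ ℤ) →ₗ[ℤ] ℝ := Finsupp.linearCombination ℤ w
    refine ⟨fun x => φ (Multiplicative.toAdd (ψ x)), fun _ => 1, by simp, by simp, by simp,
      fun _ => by norm_num, ?_, ?_⟩
    · rintro ⟨j, σ⟩
      have hw : (0 : ℝ) ≤ W τ j := Nat.cast_nonneg _
      cases σ <;> cases h : ε j <;> simp [step, φ, w, h] <;> linarith
    · intro j _
      cases h : ε j <;> simp [step, φ, w, h]

lemma top_of_inv {G : Type} [Group G] (μ : PMF G) (hμ : Subgroup.closure μ.support = ⊤)
    (ω : ℕ → G) (n : ℕ) (hocc : ∀ a, μ a ≠ 0 → ∃ k, n ≤ k ∧ ω k = a)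
    (hinv : ∀ m, n ≤ m → (walk ω m)⁻¹ ∈ Sg ω n) : Sg ω n = ⊤ := by
  let K : Subgroup G :=
    { carrier := Sg ω n
      mul_mem' := fun ha hb => (Sg ω n).mul_mem ha hb
      one_mem' := by
        have := (Sg ω n).mul_mem (walk_mem ω n n le_rfl) (hinv n le_rfl)
        simpa using this
      inv_mem' := by
        intro x hx
        induction hx using Subsemigroup.closure_induction with
        | mem x hx => obtain ⟨k, rfl⟩ := hx; exact hinv _ (by omega)
        | mul x y _ _ hx hy => rw [mul_inv_rev]; exact (Sg ω n).mul_mem hy hx }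
  have : Subgroup.closure μ.support ≤ K := by
    rw [Subgroup.closure_le]
    intro a ha
    obtain ⟨k, hk, rfl⟩ := hocc a ha
    have := (Sg ω n).mul_mem (hinv k hk) (walk_mem ω n (k + 1) (by omega))
    rw [walk_succ, inv_mul_cancel_left] at this
    exact this
  rw [hμ] at this
  rw [eq_top_iff]
  exact fun x _ => this (Subgroup.mem_top x)

lemma no_gain (M c B : ℝ) (hc : 0 < c) (hc1 : c ≤ 1)
    (h : ∀ η > 0, ∃ u : ℕ → ℝ, (∀ i, |u i| ≤ B) ∧ M - (u 1 - u 0) < η ∧
      ∀ i, c * (M - (u (i + 2) - u (i + 1))) ≤ M - (u (i + 1) - u i)) : M ≤ 0 := by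
  by_contra hM
  push Not at hM
  obtain ⟨N, hN⟩ := exists_nat_gt (4 * B / M)
  obtain ⟨u, h1, h2, h3⟩ := h (c ^ N * (M / 2)) (by positivity)
  have h4 : ∀ i, c ^ i * (M - (u (i + 1) - u i)) ≤ c ^ N * (M / 2) := by
    intro i
    induction i with
    | zero => simpa using h2.le
    | succ i ih =>
      rw [pow_succ, mul_assoc]
      exact (mul_le_mul_of_nonneg_left (h3 i) (by positivity)).trans ih
  have h5 : ∀ i ≤ N, u 0 + i * (M / 2) ≤ u i := by
    intro i hi
    induction i with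
    | zero => simp
    | succ i ih =>
      have h6 := ih (by omega)
      have h7 : c ^ N * (M / 2) ≤ c ^ i * (M / 2) :=
        mul_le_mul_of_nonneg_right (pow_le_pow_of_le_one hc.le hc1 (by omega)) (by positivity)
      have h8 := le_of_mul_le_mul_left ((h4 i).trans h7) (by positivity)
      push_cast
      linarith
  have h6 := h5 N le_rfl
  have h7 := abs_le.1 (h1 N)
  have h8 := abs_le.1 (h1 0)
  rw [div_lt_iff₀ hM] at hN
  linarith

/-- Choquet–Deny -/
theorem choquet_deny {G : Type} [CommGroup G] (μ : PMF G) (hμ : Subgroup.closure μ.support = ⊤)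
    (f : G → ℝ) (B : ℝ) (hB : ∀ g, |f g| ≤ B) (hf : ∀ g, f g = ∑' h, (μ h).toReal * f (g * h))
    (x y : G) : f x = f y := by
  have hs : Summable fun h => (μ h).toReal := ENNReal.summable_toReal μ.tsum_coe_ne_top
  have h1 : ∑' h, (μ h).toReal = 1 := by
    rw [← ENNReal.tsum_toReal_eq μ.apply_ne_top, μ.tsum_coe]; rfl
  have key : ∀ (f : G → ℝ), (∀ g, |f g| ≤ B) → (∀ g, f g = ∑' h, (μ h).toReal * f (g * h)) →
      ∀ s, μ s ≠ 0 → ∀ g, f (g * s) ≤ f g := by
    intro f hB hf s hs0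
    have hsum : ∀ g, Summable fun h => (μ h).toReal * f (g * h) := fun g =>
      Summable.of_norm_bounded (hs.mul_right B) fun h => by
        rw [norm_mul, Real.norm_of_nonneg ENNReal.toReal_nonneg]
        exact mul_le_mul_of_nonneg_left (hB _) ENNReal.toReal_nonneg
    let D : G → ℝ := fun g => f (g * s) - f g
    have hb : BddAbove (Set.range D) := ⟨2 * B, by
      rintro _ ⟨g, rfl⟩
      have := abs_le.1 (hB (g * s))
      have := abs_le.1 (hB g)
      simp only [D]; linarith⟩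
    set M := ⨆ g, D g with hM
    have hle : ∀ g, D g ≤ M := fun g => le_ciSup hb g
    have hD : ∀ g, (μ s).toReal * (M - D (g * s)) ≤ M - D g := by
      intro g
      have e : ∀ h, (μ h).toReal * (M - D (g * h)) = (μ h).toReal * M -
          ((μ h).toReal * f (g * s * h) - (μ h).toReal * f (g * h)) := by
        intro h
        simp only [D]
        rw [mul_right_comm g h s]; ring
      have hs2 : Summable fun h => (μ h).toReal * (M - D (g * h)) := by
        simp only [e]
        exact (hs.mul_right M).sub ((hsum _).sub (hsum _))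
      have h2 := hs2.le_tsum s fun h _ => mul_nonneg ENNReal.toReal_nonneg (sub_nonneg.2 (hle _))
      refine h2.trans (le_of_eq ?_)
      simp only [e]
      rw [(hs.mul_right M).tsum_sub ((hsum _).sub (hsum _)), (hsum _).tsum_sub (hsum _),
        tsum_mul_right, h1, ← hf, ← hf, one_mul]
    have hM0 : M ≤ 0 := by
      apply no_gain M (μ s).toReal B (ENNReal.toReal_pos hs0 (μ.apply_ne_top s))
        (ENNReal.toReal_le_of_le_ofReal zero_le_one (by simpa using μ.coe_le_one s))
      intro η hη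
      obtain ⟨g, hg⟩ := exists_lt_of_lt_ciSup (show M - η < ⨆ g, D g by linarith)
      refine ⟨fun i => f (g * s ^ i), fun i => hB _, by simp only [D] at hg; simp; linarith,
        fun i => ?_⟩
      have := hD (g * s ^ i)
      simpa only [D, mul_assoc, ← pow_succ] using this
    intro g
    have := hle g
    simp only [D] at this
    linarith
  have key2 : ∀ s, μ s ≠ 0 → ∀ g, f (g * s) = f g := by
    intro s hs0 g
    apply le_antisymm (key f hB hf s hs0 g)
    have := key (fun g => -f g) (fun g => by rw [abs_neg]; exact hB g)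
      (fun g => by simp only [mul_neg, tsum_neg]; rw [← hf]) s hs0 g
    linarith
  have key3 : ∀ s ∈ Subgroup.closure μ.support, ∀ g, f (g * s) = f g := by
    intro s hs
    induction hs using Subgroup.closure_induction with
    | mem s hs => exact key2 s hs
    | one => simp
    | mul a b _ _ ha hb => intro g; rw [← mul_assoc, hb, ha]
    | inv a _ ha => intro g; rw [← ha]; simp
  rw [← key3 (x⁻¹ * y) (by rw [hμ]; trivial) x]
  simp

/-- the wreath product `ℤ ≀ ℤ = ℤ[T,T⁻¹] ⋊ ℤ` -/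
@[ext] structure LZ where
  f : ℤ[T;T⁻¹]
  p : ℤ

noncomputable instance : Mul LZ := ⟨fun x y => ⟨x.f + T x.p * y.f, x.p + y.p⟩⟩
noncomputable instance : One LZ := ⟨⟨0, 0⟩⟩
noncomputable instance : Inv LZ := ⟨fun x => ⟨-(T (-x.p) * x.f), -x.p⟩⟩

@[simp] lemma LZ.mul_f (x y : LZ) : (x * y).f = x.f + T x.p * y.f := rfl
@[simp] lemma LZ.mul_p (x y : LZ) : (x * y).p = x.p + y.p := rfl
@[simp] lemma LZ.one_f : (1 : LZ).f = 0 := rfl
@[simp] lemma LZ.one_p : (1 : LZ).p = 0 := rfl
@[simp] lemma LZ.inv_f (x : LZ) : x⁻¹.f = -(T (-x.p) * x.f) := rfl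
@[simp] lemma LZ.inv_p (x : LZ) : x⁻¹.p = -x.p := rfl

noncomputable instance : Group LZ := Group.ofLeftAxioms
  (fun x y z => by
    apply LZ.ext
    · simp only [LZ.mul_f, LZ.mul_p, T_add]; ring
    · simp only [LZ.mul_p]; ring)
  (fun x => by apply LZ.ext <;> simp)
  (fun x => by apply LZ.ext <;> simp)

instance : Countable LZ := by
  have : Countable ℤ[T;T⁻¹] :=
    Function.Injective.countable (f := fun q : ℤ[T;T⁻¹] => q.coeff) fun a b h =>
      LaurentPolynomial.ext fun n => by simp only at h; rw [h]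
  exact Function.Injective.countable (f := fun x : LZ => (x.f, x.p)) fun a b h => by
    simp only [Prod.mk.injEq] at h
    exact LZ.ext h.1 h.2

noncomputable def LZ.a : LZ := ⟨1, 0⟩
noncomputable def LZ.t : LZ := ⟨0, 1⟩

lemma LZ.t_zpow (k : ℤ) : LZ.t ^ k = ⟨0, k⟩ := by
  induction k using Int.induction_on with
  | zero => rfl
  | succ k ih => rw [zpow_add_one, ih]; apply LZ.ext <;> simp [LZ.t]
  | pred k ih => rw [zpow_sub_one, ih]; apply LZ.ext <;> simp [LZ.t, sub_eq_add_neg]

lemma LZ.ind (P : ℤ[T;T⁻¹] → Prop) (h0 : P 0) (h : ∀ f k, P (f + T k) ↔ P f) (f : ℤ[T;T⁻¹]) :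
    P f := by
  have : ∀ g : ℤ[T;T⁻¹], ∀ f, P (f + g) ↔ P f := by
    intro g
    induction g using LaurentPolynomial.induction_on' with
    | add p q hp hq => intro f; rw [← add_assoc, hq, hp]
    | C_mul_T n a =>
      induction a using Int.induction_on with
      | zero => simp
      | succ a ih => intro f; rw [map_add, map_one, add_mul, one_mul, ← add_assoc, h, ih]
      | pred a ih =>
        intro f
        rw [← h _ n, map_sub, map_one, sub_mul, one_mul, add_assoc, sub_add_cancel, ih]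
  simpa using (this f 0).2 h0

lemma LZ.gen : Subgroup.closure {LZ.a, LZ.t} = ⊤ := by
  set K := Subgroup.closure {LZ.a, LZ.t}
  have ha : LZ.a ∈ K := Subgroup.subset_closure (by simp)
  have ht : ∀ k : ℤ, (⟨0, k⟩ : LZ) ∈ K := fun k =>
    LZ.t_zpow k ▸ K.zpow_mem (Subgroup.subset_closure (by simp)) k
  have h1 : ∀ f, (⟨f, 0⟩ : LZ) ∈ K := by
    apply LZ.ind
    · exact K.one_mem
    · intro f k
      have e : (⟨f + T k, 0⟩ : LZ) = ⟨f, 0⟩ * (⟨0, k⟩ * LZ.a * ⟨0, -k⟩) := by
        apply LZ.ext <;> simp [LZ.a]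
      rw [e]
      exact K.mul_mem_cancel_right (K.mul_mem (K.mul_mem (ht _) ha) (ht _))
  rw [eq_top_iff]
  rintro ⟨f, p⟩ _
  have e : (⟨f, p⟩ : LZ) = ⟨f, 0⟩ * ⟨0, p⟩ := by apply LZ.ext <;> simp
  rw [e]
  exact K.mul_mem (h1 f) (ht p)

lemma ex_point (ε : ℕ → Bool) : ∃ y : ℝ, ∀ j, |(fun x : ℝ => x ^ 2 - 6)^[j] y| ≤ 3 ∧
    1 ≤ if ε j then (fun x : ℝ => x ^ 2 - 6)^[j] y else -(fun x : ℝ => x ^ 2 - 6)^[j] y := by
  set q : ℝ → ℝ := fun x : ℝ => x ^ 2 - 6 with hq
  have hc : ∀ j, Continuous q^[j] := fun j => Continuous.iterate (by fun_prop) j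
  let K : (ℕ → Bool) → ℕ → Set ℝ := fun ε N =>
    {y | ∀ j ≤ N, |q^[j] y| ≤ 3 ∧ 1 ≤ if ε j then q^[j] y else -q^[j] y}
  have hne : ∀ N ε, (K ε N).Nonempty := by
    intro N
    induction N with
    | zero =>
      intro ε
      refine ⟨if ε 0 then 1 else -1, fun j hj => ?_⟩
      obtain rfl : j = 0 := by omega
      cases ε 0 <;> simp
    | succ N ih =>
      intro ε
      obtain ⟨y, hy⟩ := ih fun j => ε (j + 1)
      have h0 := abs_le.1 (hy 0 (by omega)).1
      simp only [Function.iterate_zero, id] at h0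
      have h1 : 1 ≤ √(6 + y) := Real.le_sqrt_of_sq_le (by linarith)
      have h3 : √(6 + y) ≤ 3 := Real.sqrt_le_iff.2 ⟨by norm_num, by linarith⟩
      have h2 : √(6 + y) ^ 2 = 6 + y := Real.sq_sqrt (by linarith)
      refine ⟨if ε 0 then √(6 + y) else -√(6 + y), fun j hj => ?_⟩
      cases j with
      | zero =>
        cases ε 0 <;> simp [abs_of_nonneg (Real.sqrt_nonneg _), h1, h3]
      | succ j =>
        have e : q (if ε 0 then √(6 + y) else -√(6 + y)) = y := by
          cases ε 0 <;> simp [hq, h2]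
        rw [Function.iterate_succ_apply, e]
        exact hy j (by omega)
  have hcl : ∀ N, IsClosed (K ε N) := by
    intro N
    simp only [K, Set.ofPred_forall]
    refine isClosed_iInter fun j => isClosed_iInter fun _ => IsClosed.inter
      (isClosed_le (hc j).abs continuous_const) ?_
    cases ε j
    · exact isClosed_le continuous_const (hc j).neg
    · exact isClosed_le continuous_const (hc j)
  obtain ⟨y, hy⟩ := IsCompact.nonempty_iInter_of_sequence_nonempty_isCompact_isClosed (K ε)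
    (fun N y hy j hj => hy j (by omega)) (fun N => hne N ε)
    ((isCompact_Icc (a := -3) (b := 3)).of_isClosed_subset (hcl 0)
      fun y hy => abs_le.1 (hy 0 le_rfl).1) hcl
  exact ⟨y, fun j => Set.mem_iInter.1 hy j j le_rfl⟩

noncomputable def Qp : ℕ → ℤ[T;T⁻¹]
  | 0 => T 1 - 4
  | j + 1 => Qp j ^ 2 - 6

theorem nonAR_LZ {G : Type} [Group G] [MeasurableSpace G] [DiscreteMeasurableSpace G]
    (π : G →* LZ) (a t : G) (ha : π a = LZ.a) (ht : π t = LZ.t)
    (hg : Subgroup.closure {a, t} = ⊤) :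
    ∃ μ : PMF G, Adm μ ∧ ¬ ∀ᵐ ω ∂(law μ), Sg ω 1 = ⊤ := by
  have hs : Function.Surjective π := by
    rw [← MonoidHom.range_eq_top, eq_top_iff, ← LZ.gen, Subgroup.closure_le]
    rintro _ (rfl | rfl)
    · exact ⟨a, ha⟩
    · exact ⟨t, ht⟩
  choose s hs using hs
  let g : (ℕ → ℕ) → ℕ → G := fun τ j =>
    if j = 0 then a else if j = 1 then t else s ⟨(W τ j : ℤ[T;T⁻¹]) * Qp j, 0⟩
  apply nonAR g
  · intro τ
    rw [eq_top_iff, ← hg]
    apply Subgroup.closure_mono
    rintro _ (rfl | rfl)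
    · exact ⟨0, rfl⟩
    · exact ⟨1, rfl⟩
  · intro τ ω hω
    apply cone _ τ ω hω
    intro ε
    obtain ⟨y, hy⟩ := ex_point ε
    have h0 := abs_le.1 (hy 0).1
    simp only [Function.iterate_zero, id] at h0
    have hl : 0 < y + 4 := by linarith
    let u : ℝˣ := Units.mk0 (y + 4) hl.ne'
    let ev := LaurentPolynomial.eval₂ (Int.castRingHom ℝ) u
    have evT : ∀ k, ev (T k) = (y + 4) ^ k := fun k => by simp [ev, u]
    have evQ : ∀ j, ev (Qp j) = (fun x : ℝ => x ^ 2 - 6)^[j] y := by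
      intro j
      induction j with
      | zero => rw [Qp, map_sub, evT, map_ofNat]; simp
      | succ j ih => rw [Qp, map_sub, map_pow, ih, map_ofNat, Function.iterate_succ_apply']
    have i7 : 7⁻¹ ≤ (y + 4)⁻¹ := inv_anti₀ hl (by linarith)
    have i1 : (y + 4)⁻¹ ≤ 1 := inv_le_one_of_one_le₀ (by linarith)
    refine ⟨fun x => ev (π x).f, fun x => (y + 4) ^ (π x).p, fun x z => by simp only [map_mul, LZ.mul_f, map_add, evT],
      fun x z => by simp [zpow_add₀ hl.ne'], fun x => zpow_pos hl _, ?_, ?_, ?_⟩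
    · rintro ⟨j, σ⟩
      simp only [step, g]
      split_ifs <;> simp [ha, ht, hs, LZ.a, LZ.t] <;> first | norm_num | skip
      all_goals constructor <;> linarith
    · rintro ⟨j, σ⟩
      have hw : (1 : ℝ) ≤ W τ j := by exact_mod_cast W_pos τ j
      have hb := (hy j).1
      rw [← evQ] at hb
      have hw2 : (W τ j : ℝ) * |ev (Qp j)| ≤ 3 * W τ j := by nlinarith
      simp only [step, g]
      split_ifs <;> simp [ha, ht, hs, LZ.a, LZ.t, abs_mul] <;> linarith
    · intro j hj
      have hw : (0 : ℝ) ≤ W τ j := Nat.cast_nonneg _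
      have hb := (hy j).2
      rw [← evQ] at hb
      have e0 : j ≠ 0 := by omega
      have e1 : j ≠ 1 := by omega
      cases h : ε j <;> simp [step, g, e0, e1, hs, h] at hb ⊢ <;> nlinarith

lemma convex_const (H : ℤ → ℝ) (B : ℝ) (hB : ∀ p, |H p| ≤ B)
    (h : ∀ p, 2 * H p ≤ H (p + 1) + H (p - 1)) (p q : ℤ) : H p = H q := by
  have key : ∀ H : ℤ → ℝ, (∀ p, |H p| ≤ B) → (∀ p, 2 * H p ≤ H (p + 1) + H (p - 1)) →
      ∀ p, H (p + 1) ≤ H p := by
    intro H hB h p
    by_contra hc
    push Not at hc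
    have h1 : ∀ n : ℕ, H (p + 1) - H p ≤ H (p + n + 1) - H (p + n) ∧
        H p + n * (H (p + 1) - H p) ≤ H (p + n) := by
      intro n
      induction n with
      | zero => simp
      | succ n ih =>
        have := h (p + n + 1)
        rw [add_sub_cancel_right] at this
        push_cast
        rw [← add_assoc]
        constructor <;> linarith [ih.1, ih.2]
    obtain ⟨N, hN⟩ := exists_nat_gt (2 * B / (H (p + 1) - H p))
    rw [div_lt_iff₀ (by linarith)] at hN
    have := abs_le.1 (hB p)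
    have := abs_le.1 (hB (p + N))
    linarith [(h1 N).2]
  have k2 : ∀ p, H (p + 1) = H p := by
    intro p
    apply le_antisymm (key H hB h p)
    have := key (fun p => H (-p)) (fun p => hB _) (fun p => by
      have := h (-p)
      rw [show -(p + 1) = -p - 1 by ring, show -(p - 1) = -p + 1 by ring]
      linarith) (-(p + 1))
    simpa using this
  have k3 : ∀ p, H p = H 0 := by
    intro p
    induction p using Int.induction_on with
    | zero => rfl
    | succ k ih => rw [k2, ih]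
    | pred k ih => rw [← ih, ← k2, sub_add_cancel]
  rw [k3 p, k3 q]

theorem LZ.liouville (F : LZ → ℝ) (B : ℝ) (hB : ∀ x, |F x| ≤ B)
    (hF : ∀ x, 4 * F x = F (x * LZ.a) + F (x * LZ.a⁻¹) + F (x * LZ.t) + F (x * LZ.t⁻¹))
    (x y : LZ) : F x = F y := by
  have key : ∀ F : LZ → ℝ, (∀ x, |F x| ≤ B) →
      (∀ x, 4 * F x = F (x * LZ.a) + F (x * LZ.a⁻¹) + F (x * LZ.t) + F (x * LZ.t⁻¹)) →
      ∀ k x, F (⟨T k, 0⟩ * x) ≤ F x := by
    intro F hB hF k
    let D : LZ → ℝ := fun x => F (⟨T k, 0⟩ * x) - F x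
    have hD : ∀ x, 4 * D x = D (x * LZ.a) + D (x * LZ.a⁻¹) + D (x * LZ.t) + D (x * LZ.t⁻¹) := by
      intro x
      have h1 := hF x
      have h2 := hF (⟨T k, 0⟩ * x)
      simp only [D, ← mul_assoc]
      linarith
    have hDB : ∀ x, |D x| ≤ 2 * B := fun x => by
      have := abs_le.1 (hB (⟨T k, 0⟩ * x))
      have := abs_le.1 (hB x)
      rw [abs_le]; simp only [D]; constructor <;> linarith
    let H : ℤ → ℝ := fun p => ⨆ f, D ⟨f, p⟩
    have hb : ∀ p, BddAbove (Set.range fun f => D ⟨f, p⟩) := fun p =>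
      ⟨2 * B, by rintro _ ⟨f, rfl⟩; exact (abs_le.1 (hDB _)).2⟩
    have hle : ∀ x, D x ≤ H x.p := fun x => le_ciSup (hb x.p) x.f
    have hH := convex_const H (2 * B) (fun p => abs_le.2
      ⟨(abs_le.1 (hDB ⟨0, p⟩)).1.trans (hle ⟨0, p⟩), ciSup_le fun f => (abs_le.1 (hDB _)).2⟩)
      (fun p => by
        have : H p ≤ (2 * H p + H (p + 1) + H (p - 1)) / 4 := by
          apply ciSup_le
          intro f
          have h1 := hD ⟨f, p⟩
          have h2 := hle (⟨f, p⟩ * LZ.a)
          have h3 := hle (⟨f, p⟩ * LZ.a⁻¹)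
          have h4 := hle (⟨f, p⟩ * LZ.t)
          have h5 := hle (⟨f, p⟩ * LZ.t⁻¹)
          simp only [LZ.mul_p, LZ.inv_p, LZ.a, LZ.t, add_zero, neg_zero, ← sub_eq_add_neg]
            at h1 h2 h3 h4 h5
          linarith
        linarith)
    have hle' : ∀ x, D x ≤ H k := fun x => (hle x).trans (hH _ _).le
    have hM : H k ≤ 0 := by
      apply no_gain (H k) (1 / 4) B (by norm_num) (by norm_num)
      intro η hη
      obtain ⟨f, hf⟩ := exists_lt_of_lt_ciSup (show H k - η < ⨆ f, D ⟨f, k⟩ by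
        show H k - η < H k
        linarith)
      have hp : ∀ i : ℕ, ((⟨f, k⟩ : LZ) * LZ.a ^ i).p = k := by
        intro i
        induction i with
        | zero => simp
        | succ i ih => rw [pow_succ, ← mul_assoc, LZ.mul_p, ih]; simp [LZ.a]
      have e : ∀ i : ℕ, D (⟨f, k⟩ * LZ.a ^ i) =
          F (⟨f, k⟩ * LZ.a ^ (i + 1)) - F (⟨f, k⟩ * LZ.a ^ i) := by
        intro i
        have := hp i
        rw [pow_succ, ← mul_assoc]
        generalize (⟨f, k⟩ : LZ) * LZ.a ^ i = z at this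
        simp only [D]
        congr 2
        apply LZ.ext <;> simp [LZ.a, this, add_comm]
      refine ⟨fun i => F (⟨f, k⟩ * LZ.a ^ i), fun i => hB _, ?_, fun i => ?_⟩
      · have := e 0
        rw [pow_zero, mul_one] at this
        simp only [pow_zero, mul_one]
        rw [zero_add] at this
        linarith
      · simp only
        rw [← e, ← e]
        have h1 := hD (⟨f, k⟩ * LZ.a ^ i)
        rw [mul_assoc, ← pow_succ] at h1
        linarith [hle' (⟨f, k⟩ * LZ.a ^ i * LZ.a⁻¹), hle' (⟨f, k⟩ * LZ.a ^ i * LZ.t),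
          hle' (⟨f, k⟩ * LZ.a ^ i * LZ.t⁻¹)]
    intro x
    have := hle' x
    simp only [D] at this
    linarith
  have k2 : ∀ k x, F (⟨T k, 0⟩ * x) = F x := by
    intro k x
    apply le_antisymm (key F hB hF k x)
    have := key (fun x => -F x) (fun x => by rw [abs_neg]; exact hB x)
      (fun x => by linarith [hF x]) k x
    linarith
  have k3 : ∀ p f, F ⟨f, p⟩ = F ⟨0, p⟩ := by
    intro p
    apply LZ.ind
    · rfl
    · intro f k
      rw [← k2 k ⟨f, p⟩]
      have : (⟨T k, 0⟩ * ⟨f, p⟩ : LZ) = ⟨f + T k, p⟩ := by apply LZ.ext <;> simp [add_comm]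
      rw [this]
  have k4 : ∀ x : LZ, F x = F ⟨0, x.p⟩ := fun x => k3 x.p x.f
  rw [k4 x, k4 y]
  apply convex_const (fun p => F ⟨0, p⟩) B (fun p => hB _)
  intro p
  have h1 := hF ⟨0, p⟩
  rw [k4 (_ * LZ.a), k4 (_ * LZ.a⁻¹), k4 (_ * LZ.t), k4 (_ * LZ.t⁻¹)] at h1
  simp only [LZ.mul_p, LZ.inv_p, LZ.a, LZ.t, add_zero, neg_zero, ← sub_eq_add_neg] at h1
  linarith

end Pool.Agent.Lib.helper16.AR
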