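import Pool.Agent.Lib.helper16.AR2

set_option autoImplicit false

open MeasureTheory Filter
open scoped ENNReal

namespace Pool.Agent.Lib.helper16.AR

lemma mem_Sg {G : Type} [Monoid G] (ω : ℕ → G) (n : ℕ) (x : G) :
    x ∈ Sg ω n ↔ ∃ l : List ℕ, l ≠ [] ∧ (l.map fun k => walk ω (n + k)).prod = x := by
  constructor
  · intro hx
    induction hx using Subsemigroup.closure_induction with
    | mem x hx => obtain ⟨k, rfl⟩ := hx; exact ⟨[k], by simp, by simp⟩
    | mul x y _ _ hx hy =>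
      obtain ⟨l, h1, rfl⟩ := hx
      obtain ⟨l', _, rfl⟩ := hy
      exact ⟨l ++ l', by simp [h1], by simp⟩
  · rintro ⟨l, h1, rfl⟩
    induction l with
    | nil => exact absurd rfl h1
    | cons a l ih =>
      by_cases h : l = []
      · subst h; simpa using walk_mem ω n (n + a) (by omega)
      · rw [List.map_cons, List.prod_cons]
        exact (Sg ω n).mul_mem (walk_mem ω n (n + a) (by omega)) (ih h)

lemma meas_Sg {G : Type} [Group G] [Countable G] [MeasurableSpace G] [DiscreteMeasurableSpace G]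
    (n : ℕ) : MeasurableSet {ω : ℕ → G | Sg ω n = ⊤} := by
  have h1 : ∀ k, Measurable fun ω : ℕ → G => walk ω k := by
    intro k
    induction k with
    | zero => exact measurable_const
    | succ k ih => simp only [walk_succ]; exact ih.mul (measurable_pi_apply k)
  have h2 : ∀ l : List ℕ, Measurable fun ω : ℕ → G => (l.map fun k => walk ω (n + k)).prod := by
    intro l
    induction l with
    | nil => exact measurable_const
    | cons a l ih => simp only [List.map_cons, List.prod_cons]; exact (h1 _).mul ih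
  have e : {ω : ℕ → G | Sg ω n = ⊤} = ⋂ x : G, ⋃ l : List ℕ, ⋃ _ : l ≠ [],
      (fun ω : ℕ → G => (l.map fun k => walk ω (n + k)).prod) ⁻¹' {x} := by
    ext ω
    simp [Subsemigroup.eq_top_iff', mem_Sg]
  rw [e]
  exact MeasurableSet.iInter fun x => MeasurableSet.iUnion fun l => MeasurableSet.iUnion fun _ =>
    h2 l MeasurableSet.of_discrete

lemma sum_half : ∑' k : ℕ, (2⁻¹ : ℝ≥0∞) ^ k ≠ ∞ := by
  rw [ENNReal.tsum_geometric]; simp

lemma small (r : ℝ≥0∞) (hr : r < 1) (c k : ℕ) : ∃ D : ℕ, c * r ^ D ≤ 2⁻¹ ^ k := by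
  have h1 := ENNReal.Tendsto.const_mul (a := (c : ℝ≥0∞))
    (ENNReal.tendsto_pow_atTop_nhds_zero_of_lt_one hr) (Or.inr (by simp))
  rw [mul_zero] at h1
  exact (h1.eventually (ge_mem_nhds (a := (2⁻¹ : ℝ≥0∞) ^ k) (ENNReal.pow_pos (by simp) _))).exists

lemma geo_Ici (u : ℕ) : geo.toMeasure (Set.Ici u) ≤ 2⁻¹ ^ u := by
  rw [PMF.toMeasure_apply _ MeasurableSet.of_discrete,
    ← Summable.sum_add_tsum_nat_add' (k := u) ENNReal.summable, Finset.sum_eq_zero, zero_add]
  · have : ∀ i, (Set.Ici u).indicator geo (i + u) = 2⁻¹ ^ u * geo i := by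
      intro i
      rw [Set.indicator_of_mem (by simp), geo_apply, geo_apply, ← pow_add]
      congr 1; ring
    simp only [this]
    rw [ENNReal.tsum_mul_left, PMF.tsum_coe, mul_one]
  · intro i hi
    rw [Set.indicator_of_notMem (by simpa using hi)]

lemma geo_compl (b u : ℕ) (h : b ≤ u) : geo.toMeasure {b}ᶜ ≤ 1 - 2⁻¹ ^ (u + 1) := by
  rw [prob_compl_eq_one_sub MeasurableSet.of_discrete,
    PMF.toMeasure_apply_singleton _ _ MeasurableSet.of_discrete, geo_apply]
  exact tsub_le_tsub_left (pow_le_pow_right_of_le_one' (by simp) (by omega)) _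

theorem windows : ∃ (p : PMF ℕ) (T : ℕ → ℕ), (∀ j, p j ≠ 0) ∧ StrictMono T ∧
    ∀ᵐ ω ∂(law (sym p)), ∀ᶠ k in atTop, (∀ i < T k, (ω i).1 < k) ∧
      ∀ j ≤ k, ∃ i, T k ≤ i ∧ i < T (k + 1) ∧ (ω i).1 = j := by
  have hstep : ∀ k u t : ℕ, ∃ x : ℕ × ℕ, u < x.1 ∧ t < x.2 ∧
      ((k + 1 : ℕ) : ℝ≥0∞) * (1 - 2⁻¹ ^ (u + 1)) ^ (x.2 - t) ≤ 2⁻¹ ^ k ∧
      (x.2 : ℝ≥0∞) * 2⁻¹ ^ x.1 ≤ 2⁻¹ ^ (k + 1) := by
    intro k u t
    have hr : (1 : ℝ≥0∞) - 2⁻¹ ^ (u + 1) < 1 :=
      ENNReal.sub_lt_self (by simp) (by simp) (by simp)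
    obtain ⟨D, hD⟩ := small _ hr (k + 1) k
    obtain ⟨E, hE⟩ := small 2⁻¹ (by simp) (t + D + 1) (k + 1)
    refine ⟨(E + u + 1, t + D + 1), by omega, by omega, le_trans ?_ hD, le_trans ?_ hE⟩
    · exact mul_le_mul' le_rfl (pow_le_pow_right_of_le_one' hr.le (by omega))
    · exact mul_le_mul' le_rfl (pow_le_pow_right_of_le_one' (by simp) (by omega))
  choose F hF using hstep
  let s : ℕ → ℕ × ℕ := fun k => Nat.rec (0, 0) (fun k x => F k x.1 x.2) k
  have hs : ∀ k, s (k + 1) = F k (s k).1 (s k).2 := fun _ => rfl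
  let u : ℕ → ℕ := fun k => (s k).1
  let T : ℕ → ℕ := fun k => (s k).2
  have hu : ∀ k, u k < u (k + 1) := fun k => (hF k _ _).1
  have hT : ∀ k, T k < T (k + 1) := fun k => (hF k _ _).2.1
  have hum : StrictMono u := strictMono_nat_of_lt_succ hu
  choose f _ hf1 hf2 using ex_block u rfl hu
  have hfu : ∀ j, f (u j) = j := by
    intro j
    have h1 := hum.le_iff_le.1 (hf1 (u j))
    have h2 : j < f (u j) + 1 := hum.lt_iff_lt.1 (hf2 (u j))
    omega
  refine ⟨geo.map f, T, fun j => ?_, strictMono_nat_of_lt_succ hT, ?_⟩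
  · rw [← PMF.mem_support_iff, PMF.mem_support_map_iff]
    exact ⟨u j, by simp [PMF.mem_support_iff, geo_apply], hfu j⟩
  have a1 : ∀ k, law (sym (geo.map f)) {ω | ¬ ∀ i < T k, (ω i).1 < k} ≤ 2⁻¹ ^ k := by
    intro k
    cases k with
    | zero => simpa using prob_le_one
    | succ k =>
      have : {ω : ℕ → ℕ × Bool | ¬ ∀ i < T (k + 1), (ω i).1 < k + 1} ⊆
          ⋃ i ∈ Finset.range (T (k + 1)),
            {ω | ∀ i' ∈ ({i} : Finset ℕ), (ω i').1 ∈ Set.Ici (k + 1)} := by
        intro ω hω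
        simp only [Set.mem_ofPred_eq, not_forall, not_lt] at hω
        obtain ⟨i, h1, h2⟩ := hω
        simp only [Set.mem_iUnion]
        exact ⟨i, Finset.mem_range.2 h1, by simpa using h2⟩
      refine (measure_mono this).trans ((measure_biUnion_finset_le _ _).trans ?_)
      refine (Finset.sum_le_card_nsmul _ _ (2⁻¹ ^ u (k + 1)) fun i _ => ?_).trans ?_
      · rw [sym_all, Finset.card_singleton, pow_one,
          PMF.toMeasure_map_apply _ _ _ Measurable.of_discrete MeasurableSet.of_discrete]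
        refine (measure_mono fun b hb => ?_).trans (geo_Ici _)
        exact (hum.monotone hb).trans (hf1 b)
      · rw [Finset.card_range, nsmul_eq_mul]
        exact (hF k _ _).2.2.2
  have a2 : ∀ k, law (sym (geo.map f))
      {ω | ¬ ∀ j ≤ k, ∃ i, T k ≤ i ∧ i < T (k + 1) ∧ (ω i).1 = j} ≤ 2⁻¹ ^ k := by
    intro k
    have : {ω : ℕ → ℕ × Bool | ¬ ∀ j ≤ k, ∃ i, T k ≤ i ∧ i < T (k + 1) ∧ (ω i).1 = j} ⊆
        ⋃ j ∈ Finset.range (k + 1),
          {ω | ∀ i ∈ Finset.Ico (T k) (T (k + 1)), (ω i).1 ∈ ({j}ᶜ : Set ℕ)} := by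
      intro ω hω
      simp only [Set.mem_ofPred_eq, not_forall, not_exists, not_and] at hω
      obtain ⟨j, h1, h2⟩ := hω
      simp only [Set.mem_iUnion]
      exact ⟨j, Finset.mem_range.2 (by omega), fun i hi =>
        h2 i (Finset.mem_Ico.1 hi).1 (Finset.mem_Ico.1 hi).2⟩
    refine (measure_mono this).trans ((measure_biUnion_finset_le _ _).trans ?_)
    refine (Finset.sum_le_card_nsmul _ _ ((1 - 2⁻¹ ^ (u k + 1)) ^ (T (k + 1) - T k))
      fun j hj => ?_).trans ?_
    · rw [sym_all, Nat.card_Ico,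
        PMF.toMeasure_map_apply _ _ _ Measurable.of_discrete MeasurableSet.of_discrete]
      apply pow_le_pow_left'
      refine (measure_mono fun b hb => ?_).trans
        (geo_compl (u j) _ (hum.monotone (by have := Finset.mem_range.1 hj; omega)))
      rintro rfl
      exact hb (hfu j)
    · rw [Finset.card_range, nsmul_eq_mul]
      exact (hF k _ _).2.2.1
  filter_upwards [ae_eventually_notMem (ne_top_of_le_ne_top sum_half (ENNReal.tsum_le_tsum a1)),
    ae_eventually_notMem (ne_top_of_le_ne_top sum_half (ENNReal.tsum_le_tsum a2))] with ω h1 h2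
  filter_upwards [h1, h2] with k h1 h2
  exact ⟨not_not.1 h1, not_not.1 h2⟩

def First (ω : ℕ → ℕ × Bool) (k : ℕ) (b : Bool) : Prop :=
  ∃ i, ω i = (k, b) ∧ ∀ i' < i, (ω i').1 ≠ k

lemma signs (p : PMF ℕ) (K : Finset ℕ) :
    law (sym p) {ω | ∀ k ∈ K, First ω k true} ≤ 2⁻¹ ^ K.card := by
  let E : Finset ℕ → Set (ℕ → ℕ × Bool) := fun S => {ω | ∀ k ∈ K, First ω k (decide (k ∉ S))}
  have hm : ∀ S, MeasurableSet (E S) := by
    intro S
    simp only [E, First]
    measurability
  have he : ∀ S, law (sym p) (E S) = law (sym p) {ω | ∀ k ∈ K, First ω k true} := by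
    intro S
    conv_lhs => rw [← sym_flip p fun k => decide (k ∈ S), law_map]
    have hmeas : Measurable fun (ω : ℕ → ℕ × Bool) i =>
        ((ω i).1, xor (decide ((ω i).1 ∈ S)) (ω i).2) := measurable_pi_lambda _ fun i =>
      (Measurable.of_discrete (f := fun x : ℕ × Bool => (x.1, xor (decide (x.1 ∈ S)) x.2))).comp
        (measurable_pi_apply i)
    rw [Measure.map_apply hmeas (hm S)]
    congr 1
    ext ω
    simp only [E, First, Set.mem_preimage, Set.mem_ofPred_eq]
    refine forall₂_congr fun k _ => exists_congr fun i => and_congr_left' ?_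
    rcases ω i with ⟨j, σ⟩
    simp only [Prod.mk.injEq]
    refine and_congr_right fun h => ?_
    subst h
    by_cases h : j ∈ S <;> cases σ <;> simp [h]
  have hd : (K.powerset : Set (Finset ℕ)).PairwiseDisjoint E := by
    intro S hS S' hS' hne
    rw [Function.onFun, Set.disjoint_left]
    intro ω h1 h2
    apply hne
    ext k
    by_cases hk : k ∈ K
    · obtain ⟨i, hi, hi2⟩ := h1 k hk
      obtain ⟨i', hi', hi2'⟩ := h2 k hk
      have : i = i' := by
        rcases lt_trichotomy i i' with h | h | h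
        · exact absurd (by rw [hi]) (hi2' i h)
        · exact h
        · exact absurd (by rw [hi']) (hi2 i' h)
      subst this
      rw [hi] at hi'
      simpa [not_iff_not] using hi'
    · have h3 := Finset.mem_powerset.1 hS
      have h4 := Finset.mem_powerset.1 hS'
      exact ⟨fun h => absurd (h3 h) hk, fun h => absurd (h4 h) hk⟩
  have h1 := measure_biUnion_finset (μ := law (sym p)) hd fun S _ => hm S
  simp only [he, Finset.sum_const, Finset.card_powerset, nsmul_eq_mul] at h1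
  have h2 : ((2 ^ K.card : ℕ) : ℝ≥0∞) * law (sym p) {ω | ∀ k ∈ K, First ω k true} ≤ 1 :=
    h1 ▸ prob_le_one
  rw [← ENNReal.inv_pow, ← one_div, ENNReal.le_div_iff_mul_le (by simp) (by simp), mul_comm]
  exact_mod_cast h2

theorem schedule (T : ℕ → ℕ) : ∃ (A ph : ℕ → ℕ) (cand : ℕ → ℕ × (ℕ → ℕ × Bool))
    (𝒦 : ℕ → Finset (Finset ℕ)), StrictMono A ∧ (∀ k d, A d ≤ k → k < A (d + 1) → ph k = d) ∧
    (∀ d k, A d ≤ k → k + 1 < A (d + 1) → ∀ i < T (A d), ((cand k).2 i).1 < A d) ∧
    (∀ d, ∀ K ∈ 𝒦 d, (𝒦 d).card + d ≤ K.card) ∧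
    ∀ d n (h : ℕ → ℕ × Bool), n ≤ T (A d) → (∀ i < T (A d), (h i).1 < A d) → ∃ K ∈ 𝒦 d,
      ∀ k ∈ K, A d ≤ k ∧ k + 1 < A (d + 1) ∧ (cand k).1 = n ∧
        ∀ i < T (A d), (cand k).2 i = h i := by
  let C : ℕ → Type := fun a => Fin (T a + 1) × (Fin (T a) → Fin a × Bool)
  haveI iC : ∀ a, Fintype (C a) := fun a =>
    inferInstanceAs (Fintype (Fin (T a + 1) × (Fin (T a) → Fin a × Bool)))
  let L : ℕ → ℕ := fun a => Fintype.card (C a)
  let ext : ∀ a, C a → ℕ × (ℕ → ℕ × Bool) := fun a c =>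
    (c.1, fun i => if h : i < T a then ((c.2 ⟨i, h⟩).1, (c.2 ⟨i, h⟩).2) else (0, true))
  let F : ℕ → ℕ → ℕ × (ℕ → ℕ × Bool) := fun a r =>
    if h : r < L a then ext a ((Fintype.equivFin (C a)).symm ⟨r, h⟩) else (0, fun _ => (0, true))
  let A : ℕ → ℕ := fun d => Nat.rec 0 (fun d a => a + L a * (L a + d) + 1) d
  have hA : ∀ d, A (d + 1) = A d + L (A d) * (L (A d) + d) + 1 := fun _ => rfl
  have hA1 : ∀ d, A d < A (d + 1) := fun d => by rw [hA]; omega
  have hm : StrictMono A := strictMono_nat_of_lt_succ hA1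
  choose ph _ h1 h2 using ex_block A rfl hA1
  have hph : ∀ k d, A d ≤ k → k < A (d + 1) → ph k = d := by
    intro k d h3 h4
    have h5 : ph k < d + 1 := hm.lt_iff_lt.1 ((h1 k).trans_lt h4)
    have h6 : d < ph k + 1 := hm.lt_iff_lt.1 (h3.trans_lt (h2 k))
    omega
  refine ⟨A, ph, fun k => F (A (ph k)) ((k - A (ph k)) % L (A (ph k))),
    fun d => (Finset.range (L (A d))).image fun r =>
      (Finset.range (L (A d) + d)).image fun s => A d + (r + L (A d) * s), hm, hph, ?_, ?_, ?_⟩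
  · intro d k h3 h4 i hi
    beta_reduce
    rw [hph k d h3 (by omega)]
    have hL : 0 < L (A d) := by
      rw [hA] at h4
      rcases Nat.eq_zero_or_pos (L (A d)) with h | h
      · rw [h] at h4; omega
      · exact h
    simp only [F, dif_pos (Nat.mod_lt _ hL), ext, dif_pos hi]
    exact Fin.is_lt _
  · intro d K hK
    obtain ⟨r, hr, rfl⟩ := Finset.mem_image.1 hK
    rw [Finset.mem_range] at hr
    rw [Finset.card_image_of_injective (Finset.range (L (A d) + d)), Finset.card_range]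
    · have := Finset.card_image_le (s := Finset.range (L (A d))) (f := fun r =>
        (Finset.range (L (A d) + d)).image fun s => A d + (r + L (A d) * s))
      rw [Finset.card_range] at this
      exact Nat.add_le_add_right this d
    · intro s s' h
      simp only [add_right_inj] at h
      exact Nat.eq_of_mul_eq_mul_left (by omega) h
  · intro d n h hn hh
    let c : C (A d) := (⟨n, by omega⟩, fun i => (⟨(h i).1, hh i i.2⟩, (h i).2))
    let r := Fintype.equivFin (C (A d)) c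
    have hr : (r : ℕ) < L (A d) := r.2
    refine ⟨_, Finset.mem_image_of_mem _ (Finset.mem_range.2 hr), fun k hk => ?_⟩
    obtain ⟨s, hs, rfl⟩ := Finset.mem_image.1 hk
    rw [Finset.mem_range] at hs
    have h3 : A d + (r + L (A d) * s) + 1 < A (d + 1) := by
      rw [hA]
      have : L (A d) * (s + 1) ≤ L (A d) * (L (A d) + d) := Nat.mul_le_mul_left _ hs
      rw [mul_add] at this
      omega
    beta_reduce
    rw [hph (A d + (r + L (A d) * s)) d (by omega) (by omega), Nat.add_sub_cancel_left, Nat.add_mul_mod_self_left,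
      Nat.mod_eq_of_lt hr]
    have e : F (A d) r = ext (A d) c := by
      simp only [F, dif_pos hr, Fin.eta, r, Equiv.symm_apply_apply]
    rw [e]
    exact ⟨by omega, h3, rfl, fun i hi => by simp only [ext, dif_pos hi, c]⟩

lemma walk_congr {G : Type} [Monoid G] (ζ ζ' : ℕ → G) (m : ℕ) (h : ∀ i < m, ζ i = ζ' i) :
    walk ζ m = walk ζ' m := by
  induction m with
  | zero => rfl
  | succ m ih => rw [walk_succ, walk_succ, ih fun i hi => h i (by omega), h m (by omega)]

lemma walk_mem_sub {G : Type} [Group G] (H : Subgroup G) (ζ : ℕ → G) (m : ℕ)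
    (h : ∀ i < m, ζ i ∈ H) : walk ζ m ∈ H := by
  induction m with
  | zero => exact H.one_mem
  | succ m ih => rw [walk_succ]; exact H.mul_mem (ih fun i hi => h i (by omega)) (h m (by omega))

lemma step_mem {G : Type} [Group G] (H : Subgroup G) (g : ℕ → G) (x : ℕ × Bool) :
    step g x ∈ H ↔ g x.1 ∈ H := by
  unfold step; split_ifs <;> simp

lemma reach {G : Type} [Group G] (γ : ℕ → G) (k N : ℕ) : ∃ F : Set G, F.Finite ∧
    ∀ (η : ℕ → ℕ × Bool) (m : ℕ), m ≤ N → (∀ i < m, (η i).1 < k) →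
      walk (fun i => step γ (η i)) m ∈ F := by
  induction N with
  | zero =>
    refine ⟨{1}, Set.finite_singleton _, fun η m hm _ => ?_⟩
    obtain rfl : m = 0 := by omega
    rfl
  | succ N ih =>
    obtain ⟨F, hF, h⟩ := ih
    refine ⟨F ∪ Set.image2 (· * ·) F (step γ '' (Set.Iio k ×ˢ Set.univ)),
      hF.union (hF.image2 _ (((Set.finite_Iio k).prod Set.finite_univ).image _)), ?_⟩
    intro η m hm hη
    by_cases e : m ≤ N
    · exact Or.inl (h η m e hη)
    · obtain rfl : m = N + 1 := by omega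
      right
      rw [walk_succ]
      exact Set.mem_image2_of_mem (h η N le_rfl fun i hi => hη i (by omega))
        ⟨η N, ⟨hη N (by omega), trivial⟩, rfl⟩

lemma absorb {G : Type} [CommGroup G] (Y : Finset G) (F : Set G) (hF : F.Finite) :
    ∃ x ∈ Subgroup.closure (Y : Set G), ∀ h ∈ F, h ∈ Subgroup.closure (Y : Set G) →
      x * h⁻¹ * (∏ y ∈ Y, y)⁻¹ ∈ Submonoid.closure (Y : Set G) := by
  classical
  set σ := ∏ y ∈ Y, y with hσ
  set C := Submonoid.closure (Y : Set G)
  have hσC : σ ∈ C := Submonoid.prod_mem _ fun y hy => Submonoid.subset_closure hy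
  have key : ∀ h ∈ Subgroup.closure (Y : Set G), ∃ M : ℕ, σ ^ M * h ∈ C ∧ σ ^ M * h⁻¹ ∈ C := by
    intro h hh
    induction hh using Subgroup.closure_induction with
    | mem y hy =>
      refine ⟨1, by rw [pow_one]; exact C.mul_mem hσC (Submonoid.subset_closure hy), ?_⟩
      rw [pow_one, hσ, ← Finset.prod_erase_mul Y _ hy, mul_inv_cancel_right]
      exact Submonoid.prod_mem _ fun z hz => Submonoid.subset_closure (Finset.mem_of_mem_erase hz)
    | one => exact ⟨0, by simp, by simp⟩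
    | mul a b _ _ ha hb =>
      obtain ⟨M, h1, h2⟩ := ha
      obtain ⟨M', h3, h4⟩ := hb
      refine ⟨M + M', ?_, ?_⟩
      · rw [pow_add, mul_mul_mul_comm]; exact C.mul_mem h1 h3
      · rw [pow_add, mul_inv, mul_mul_mul_comm]; exact C.mul_mem h2 h4
    | inv a _ ha => obtain ⟨M, h1, h2⟩ := ha; exact ⟨M, h2, by rw [inv_inv]; exact h1⟩
  choose! M hM using key
  obtain ⟨N, hN⟩ := (hF.image M).bddAbove
  refine ⟨σ ^ (N + 1), Subgroup.pow_mem _
    (Subgroup.prod_mem _ fun y hy => Subgroup.subset_closure hy) _, fun h hh hY => ?_⟩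
  have h1 : M h ≤ N := hN ⟨h, hh, rfl⟩
  have e : σ ^ (N + 1) * h⁻¹ * σ⁻¹ = σ ^ (N - M h) * (σ ^ M h * h⁻¹) := by
    rw [← mul_assoc, ← pow_add, Nat.sub_add_cancel h1, pow_succ, mul_right_comm,
      mul_inv_cancel_right]
  rw [e]
  exact C.mul_mem (C.pow_mem hσC _) (hM h hY).2

lemma ex_rec {G : Type} [One G] (P : ℕ → (ℕ → G) → G → Prop) (h : ∀ k γ, ∃ x, P k γ x) :
    ∃ g : ℕ → G, ∀ k, P k (fun j => if j < k then g j else 1) (g k) := by
  choose F hF using h
  let g : ℕ → G := fun k => Nat.strongRecOn k fun k f => F k fun j => if h : j < k then f j h else 1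
  refine ⟨g, fun k => ?_⟩
  have : g k = F k fun j => if j < k then g j else 1 := by
    simp only [g]
    rw [Nat.strongRecOn_eq]
    rfl
  rw [this]
  exact hF _ _

/-- every countable abelian group carries an admissible algebraically recurrent measure -/
theorem exists_AR {G : Type} [CommGroup G] [Countable G] [MeasurableSpace G]
    [DiscreteMeasurableSpace G] : ∃ μ : PMF G, Adm μ ∧ ∀ n, ∀ᵐ ω ∂(law μ), Sg ω n = ⊤ := by
  classical
  obtain ⟨e, he⟩ := exists_surjective_nat G
  obtain ⟨p, T, hp, hT, hw⟩ := windows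
  obtain ⟨A, ph, cand, 𝒦, hA, hph, hc, hK, hs⟩ := schedule T
  let Y : ℕ → (ℕ → G) → Finset G := fun k γ =>
    (Finset.Icc (cand k).1 (T (A (ph k)))).image (walk fun i => step γ ((cand k).2 i))
  obtain ⟨g, hg⟩ := ex_rec (G := G) (fun k γ x => (k + 1 = A (ph k + 1) → x = e (ph k)) ∧
    (k + 1 ≠ A (ph k + 1) → x ∈ Subgroup.closure (Y k γ : Set G) ∧
      ∀ (η : ℕ → ℕ × Bool) (m : ℕ), m ≤ T (k + 1) → (∀ i < m, (η i).1 < k) →
        walk (fun i => step γ (η i)) m ∈ Subgroup.closure (Y k γ : Set G) →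
        x * (walk (fun i => step γ (η i)) m)⁻¹ * (∏ y ∈ Y k γ, y)⁻¹ ∈
          Submonoid.closure (Y k γ : Set G))) (by
      intro k γ
      by_cases h : k + 1 = A (ph k + 1)
      · exact ⟨_, fun _ => rfl, fun h' => absurd h h'⟩
      · obtain ⟨F, hF, h2⟩ := reach γ k (T (k + 1))
        obtain ⟨x, hx, h3⟩ := absorb (Y k γ) F hF
        exact ⟨x, fun h' => absurd h' h, fun _ => ⟨hx, fun η m hm hη => h3 _ (h2 η m hm hη)⟩⟩)
  have hgen : Subgroup.closure (Set.range g) = ⊤ := by
    rw [eq_top_iff]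
    intro x _
    obtain ⟨d, rfl⟩ := he x
    have h1 := hA (Nat.lt_succ_self d)
    have h2 := hph (A (d + 1) - 1) d (by simp only [Nat.succ_eq_add_one] at h1; omega)
      (by simp only [Nat.succ_eq_add_one] at h1; omega)
    have h3 := (hg (A (d + 1) - 1)).1 (by rw [h2]; simp only [Nat.succ_eq_add_one] at h1; omega)
    rw [h2] at h3
    exact Subgroup.subset_closure ⟨_, h3⟩
  have tr : ∀ k (η : ℕ → ℕ × Bool) m, (∀ i < m, (η i).1 < k) →
      walk (fun i => step (fun j => if j < k then g j else 1) (η i)) m =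
        walk (fun i => step g (η i)) m := fun k η m h =>
    walk_congr _ _ _ fun i hi => by simp only [step, if_pos (h i hi)]
  have hadm := adm_step g hgen p hp
  refine ⟨_, hadm, fun n => ?_⟩
  have hocc := ae_occurs ((sym p).map (step g))
  rw [law_map] at hocc ⊢
  rw [ae_map_iff (Measurable.aemeasurable (by fun_prop)) (meas_Sg n)]
  have b1 : ∀ d, law (sym p) {ω | ∃ K ∈ 𝒦 d, ∀ k ∈ K, First ω k true} ≤ 2⁻¹ ^ d := by
    intro d
    have : {ω | ∃ K ∈ 𝒦 d, ∀ k ∈ K, First ω k true} =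
        ⋃ K ∈ 𝒦 d, {ω | ∀ k ∈ K, First ω k true} := by ext; simp
    rw [this]
    refine (measure_biUnion_finset_le _ _).trans ?_
    refine (Finset.sum_le_card_nsmul _ _ (2⁻¹ ^ ((𝒦 d).card + d)) fun K h =>
      (signs p K).trans (pow_le_pow_right_of_le_one' (by simp) (hK d K h))).trans ?_
    rw [nsmul_eq_mul, pow_add, ← mul_assoc]
    apply mul_le_of_le_one_left zero_le
    rw [← ENNReal.inv_pow, ← div_eq_mul_inv, ENNReal.div_le_iff (by simp) (by simp), one_mul]
    exact_mod_cast Nat.lt_two_pow_self.le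
  filter_upwards [ae_of_ae_map (Measurable.aemeasurable (by fun_prop)) hocc, hw,
    ae_eventually_notMem (ne_top_of_le_ne_top sum_half (ENNReal.tsum_le_tsum b1))]
    with ω h1 h2 h3
  apply top_of_inv _ hadm.2 _ n fun a ha => h1 a ha n
  intro m hm
  set X := walk fun i => step g (ω i) with hX
  obtain ⟨k1, h2⟩ := eventually_atTop.1 h2
  obtain ⟨d1, h3⟩ := eventually_atTop.1 h3
  set d := k1 + d1 + m + 1 with hd
  have hAd : d ≤ A d := hA.le_apply
  obtain ⟨a', ha'⟩ : ∃ a', A d = a' + 1 := ⟨A d - 1, by omega⟩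
  have hTa' : a' ≤ T a' := hT.le_apply
  have hTa : T a' < T (A d) := hT (by omega)
  obtain ⟨K, hKm, hK2⟩ := hs d n ω (by omega) (h2 (A d) (by omega)).1
  have h4 := h3 d (by omega)
  simp only [Set.mem_ofPred_eq, not_exists, not_and, not_forall] at h4
  obtain ⟨k, hk, hfirst⟩ := h4 K hKm
  obtain ⟨k2, k3, k4, k5⟩ := hK2 k hk
  have hpk : ph k = d := hph k d k2 (by omega)
  have hex : ∃ i, (ω i).1 = k := by
    obtain ⟨i, -, -, hi⟩ := (h2 k (by omega)).2 k le_rfl
    exact ⟨i, hi⟩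
  set i0 := Nat.find hex with hi0
  have i1 : i0 < T (k + 1) := by
    obtain ⟨i, -, hi', hi⟩ := (h2 k (by omega)).2 k le_rfl
    exact (Nat.find_min' hex hi).trans_lt hi'
  have i2 : (ω i0).1 = k := Nat.find_spec hex
  have i3 : ∀ i < i0, (ω i).1 < k := fun i hi =>
    lt_of_le_of_ne (Nat.le_of_lt_succ ((h2 (k + 1) (by omega)).1 i (by omega))) (Nat.find_min hex hi)
  have i4 : (ω i0).2 = false := by
    by_contra hcon
    exact hfirst ⟨i0, Prod.ext i2 (by simpa using hcon), fun i hi => (i3 i hi).ne⟩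
  have i5 : T k ≤ i0 := by
    by_contra hcon
    exact absurd i2 ((h2 k (by omega)).1 i0 (by omega)).ne
  have i6 : T (A d) ≤ T k := hT.monotone k2
  set Y0 := (Finset.Icc n (T (A d))).image X with hY0
  have eY : Y k (fun j => if j < k then g j else 1) = Y0 := by
    simp only [Y, hpk, k4]
    refine Finset.image_congr fun i hi => ?_
    have hi' := (Finset.mem_Icc.1 hi).2
    rw [tr k _ i fun j hj => (hc d k k2 k3 j (by omega)).trans_le k2]
    exact walk_congr _ _ _ fun j hj => by rw [k5 j (by omega)]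
  set H := Subgroup.closure (Y0 : Set G) with hH
  have hXH : ∀ i, n ≤ i → i ≤ T (A d) → X i ∈ H := fun i h h' =>
    Subgroup.subset_closure (Finset.mem_image_of_mem _ (Finset.mem_Icc.2 ⟨h, h'⟩))
  have g1 : ∀ j < A d, g j ∈ H := by
    intro j hj
    obtain ⟨i, t1, t2, rfl⟩ := (h2 a' (by omega)).2 j (by omega)
    rw [← ha'] at t2
    have := H.mul_mem (H.inv_mem (hXH i (by omega) (by omega))) (hXH (i + 1) (by omega) (by omega))
    rw [hX, walk_succ, inv_mul_cancel_left, step_mem] at this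
    exact this
  have g2 : ∀ j < k, g j ∈ H := by
    intro j hj
    by_cases h : j < A d
    · exact g1 j h
    have hpj : ph j = d := hph j d (by omega) (by omega)
    refine (Subgroup.closure_le H).2 ?_ ((hg j).2 (by rw [hpj]; omega)).1
    intro y hy
    simp only [Y, hpj, Finset.coe_image] at hy
    obtain ⟨i, hi, rfl⟩ := hy
    have hi' := (Finset.mem_Icc.1 hi).2
    have hl : ∀ l < i, ((cand j).2 l).1 < A d := fun l hl =>
      hc d j (by omega) (by omega) l (by omega)
    rw [tr j _ i fun l h' => (hl l h').trans_le (by omega)]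
    exact walk_mem_sub H _ _ fun l h' => (step_mem _ _ _).2 (g1 _ (hl l h'))
  have h5 := ((hg k).2 (by rw [hpk]; omega)).2 ω i0 i1.le i3
  rw [eY, tr k ω i0 i3] at h5
  have h6 := h5 (walk_mem_sub H _ _ fun l h' => (step_mem _ _ _).2 (g2 _ (i3 l h')))
  have hYS : ∀ c ∈ Submonoid.closure (Y0 : Set G), ∀ s ∈ Sg (fun i => step g (ω i)) n,
      s * c ∈ Sg (fun i => step g (ω i)) n := by
    intro c hc
    induction hc using Submonoid.closure_induction with
    | mem y hy =>
      intro s hs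
      obtain ⟨i, hi, rfl⟩ := Finset.mem_image.1 hy
      exact Subsemigroup.mul_mem _ hs (walk_mem _ _ _ (Finset.mem_Icc.1 hi).1)
    | one => intro s hs; rwa [mul_one]
    | mul a b _ _ ha hb => intro s hs; rw [← mul_assoc]; exact hb _ (ha _ hs)
  have hm0 : X m ∈ Y0 := Finset.mem_image_of_mem _ (Finset.mem_Icc.2 ⟨hm, by omega⟩)
  have h7 := hYS _ h6 _ (hYS (∏ y ∈ Y0.erase (X m), y) (Submonoid.prod_mem _ fun z hz =>
    Submonoid.subset_closure (Finset.mem_of_mem_erase hz)) _
      (walk_mem _ n (i0 + 1) (by omega)))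
  rw [walk_succ, ← Finset.prod_erase_mul Y0 _ hm0] at h7
  convert h7 using 1
  simp only [step, i4, i2, ← hX, Bool.false_eq_true, if_false]
  apply Additive.ofMul.injective
  simp only [ofMul_mul, ofMul_inv]
  abel

end Pool.Agent.Lib.helper16.AR
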