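import Mathlib

set_option autoImplicit false
open Filter Topology Set

namespace Pool.Agent.Lib.helper16.Indep

noncomputable def ps (c : ℕ → ℝ) (t : ℝ) : ℝ := ∑' k, c k * t ^ k

lemma ps_series (c : ℕ → ℝ) (B : ℝ) (hB : ∀ k, |c k| ≤ B) :
    HasFPowerSeriesOnBall (ps c) (FormalMultilinearSeries.ofScalars ℝ c) 0 1 := by
  have hr : (1 : ENNReal) ≤ (FormalMultilinearSeries.ofScalars ℝ c).radius := by
    have := (FormalMultilinearSeries.ofScalars ℝ c).le_radius_of_bound B (r := 1) fun n => by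
      simpa [FormalMultilinearSeries.ofScalars_norm] using hB n
    simpa using this
  have := ((FormalMultilinearSeries.ofScalars ℝ c).hasFPowerSeriesOnBall
    (lt_of_lt_of_le one_pos hr)).mono one_pos hr
  convert this using 1
  funext t
  simp [ps, FormalMultilinearSeries.sum, mul_comm]

lemma ps_analytic (c : ℕ → ℝ) (B : ℝ) (hB : ∀ k, |c k| ≤ B) (p : ℝ) (hp : |p| < 1) :
    AnalyticAt ℝ (ps c) p := by
  refine (ps_series c B hB).analyticOnNhd p ?_
  rw [← ENNReal.ofReal_one, Metric.eball_ofReal]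
  simpa using hp

lemma ps_zero (c : ℕ → ℝ) (B : ℝ) (hB : ∀ k, |c k| ≤ B) (p : ℝ) (hp : |p| < 1)
    (h : ∀ᶠ t in 𝓝 p, ps c t = 0) : c = 0 := by
  have ha : AnalyticOnNhd ℝ (ps c) (Metric.ball 0 1) := fun t ht =>
    ps_analytic c B hB t (by simpa using ht)
  have h1 := ha.eqOn_zero_of_preconnected_of_eventuallyEq_zero (convex_ball 0 1).isPreconnected
    (z₀ := p) (by simpa using hp) h
  have h2 : ps c =ᶠ[𝓝 0] 0 := eventually_of_mem (Metric.ball_mem_nhds 0 one_pos) h1
  have h3 := (ps_series c B hB).hasFPowerSeriesAt.eq_zero_of_eventually h2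
  funext k
  have := congrArg (fun q : FormalMultilinearSeries ℝ ℝ ℝ => q k fun _ => 1) h3
  simpa using this

lemma ps_summable (c : ℕ → ℝ) (B : ℝ) (hB : ∀ k, |c k| ≤ B) (t : ℝ) (ht : |t| < 1) :
    Summable fun k => c k * t ^ k := by
  refine Summable.of_norm_bounded ((summable_geometric_of_lt_one (abs_nonneg t) ht).mul_left B)
    fun k => ?_
  rw [Real.norm_eq_abs, abs_mul, abs_pow]
  exact mul_le_mul_of_nonneg_right (hB k) (by positivity)

theorem indep {κ : Type} [Fintype κ] [DecidableEq κ] {Z : Type} [AddCommGroup Z] [Module ℝ Z]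
    (W : Set Z)
    (hW : ∀ (σ : Type) [Finite σ] (φ : σ → Z →ₗ[ℝ] ℝ), ∃ z ∈ W, z ≠ 0 ∧ ∀ j, φ j z = 0)
    (G : κ → Z → ℝ → ℝ) (p : κ → ℝ)
    (han : ∀ r z, AnalyticAt ℝ (G r z) (p r))
    (hadd : ∀ r z z', G r (z + z') =ᶠ[𝓝 (p r)] G r z + G r z')
    (hsmul : ∀ r (a : ℝ) z, G r (a • z) = a • G r z)
    (hne : ∀ r z, z ≠ 0 → ¬ ∀ᶠ t in 𝓝 (p r), G r z t = 0)
    {ι : Type*} (U : Ultrafilter ι) (l : ι → κ → ℝ)
    (hl : ∀ r, Tendsto (fun i => l i r) U (𝓝 (p r)))
    (hl0 : ∀ r, ∀ᶠ i in U, l i r ≠ p r)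
    (hsep : ∀ r q, r ≠ q → ∀ (M : ℕ) (ε : ℝ), 0 < ε → ∀ᶠ i in U,
      |l i q - p q| ≤ ε * |l i r - p r| ^ M ∨ |l i r - p r| ≤ ε * |l i q - p q| ^ M) :
    ∀ᶠ i in U, ∀ s : κ → ℝ, (∀ z ∈ W, ∑ r, s r * G r z (l i r) = 0) → s = 0 := by
  let d : ι → κ → ℝ := fun i r => l i r - p r
  have hd : ∀ r, Tendsto (fun i => d i r) U (𝓝 0) := fun r => by
    simpa using (hl r).sub_const (p r)
  let lt : κ → κ → Prop := fun r q => ∀ᶠ i in U, |d i r| < |d i q|
  haveI : IsTrans κ lt := ⟨fun a b c h1 h2 => by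
    filter_upwards [h1, h2] with i h1 h2 using h1.trans h2⟩
  haveI : Std.Irrefl lt := ⟨fun a h => by
    obtain ⟨i, hi⟩ := h.exists
    exact lt_irrefl _ hi⟩
  have wf : WellFounded lt := Finite.wellFounded_of_trans_of_irrefl lt
  let D : κ → ℕ → Z →ₗ[ℝ] ℝ := fun r j =>
    { toFun := fun z => iteratedDeriv j (G r z) (p r)
      map_add' := fun z z' => by
        rw [(hadd r z z').iteratedDeriv_eq, iteratedDeriv_add (han r z).contDiffAt
          (han r z').contDiffAt]
      map_smul' := fun a z => by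
        rw [hsmul, iteratedDeriv_const_smul (han r z).contDiffAt]; rfl }
  have step : ∀ (q : κ) (prev : (r : κ) → lt r q → Z × ℕ), ∃ w : Z × ℕ, w.1 ∈ W ∧
      (∃ h, AnalyticAt ℝ h (p q) ∧ h (p q) ≠ 0 ∧
        ∀ᶠ t in 𝓝 (p q), G q w.1 t = (t - p q) ^ w.2 • h t) ∧
      ∀ r (hr : lt r q), ∃ h, AnalyticAt ℝ h (p r) ∧
        ∀ᶠ t in 𝓝 (p r), G r w.1 t = (t - p r) ^ ((prev r hr).2 + 1) • h t := by
    intro q prev
    obtain ⟨z, hzW, hz0, hz⟩ := hW (Σ r : {r // lt r q}, Fin ((prev r.1 r.2).2 + 1))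
      fun x => D x.1.1 x.2
    obtain ⟨n, h, h1, h2, h3⟩ := (han q z).exists_eventuallyEq_pow_smul_nonzero_iff.mpr (hne q z hz0)
    refine ⟨(z, n), hzW, ⟨h, h1, h2, h3⟩, fun r hr => ?_⟩
    refine (natCast_le_analyticOrderAt (han r z)).mp
      ((natCast_le_analyticOrderAt_iff_iteratedDeriv_eq_zero (han r z)).mpr fun i hi => ?_)
    exact hz ⟨⟨r, hr⟩, ⟨i, hi⟩⟩
  choose F hF using step
  let w : κ → Z × ℕ := wf.fix F
  have hw : ∀ q, w q = F q fun r _ => w r := fun q => wf.fix_eq F q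
  have hw1 : ∀ q, (w q).1 ∈ W := fun q => by rw [hw]; exact (hF q _).1
  have hw2 : ∀ q, ∃ h, AnalyticAt ℝ h (p q) ∧ h (p q) ≠ 0 ∧
      ∀ᶠ t in 𝓝 (p q), G q (w q).1 t = (t - p q) ^ (w q).2 • h t := fun q => by
    rw [hw]; exact (hF q _).2.1
  have hw3 : ∀ q r, lt r q → ∃ h, AnalyticAt ℝ h (p r) ∧
      ∀ᶠ t in 𝓝 (p r), G r (w q).1 t = (t - p r) ^ ((w r).2 + 1) • h t := fun q r hr => by
    have := (hF q fun r _ => w r).2.2 r hr
    rw [← hw] at this
    exact this
  choose h hh1 hh2 hh3 using hw2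
  let B : ι → Matrix κ κ ℝ := fun i q r =>
    G r (w q).1 (l i r) * √|d i q| / (d i r ^ (w r).2 * √|d i r|)
  have hsq : ∀ r, Tendsto (fun i => √|d i r|) U (𝓝 0) := fun r => by
    simpa using (hd r).abs.sqrt
  have hB : Tendsto B U (𝓝 (Matrix.diagonal fun r => h r (p r))) := by
    refine tendsto_pi_nhds.mpr fun q => tendsto_pi_nhds.mpr fun r => ?_
    by_cases hqr : q = r
    · subst hqr
      rw [Matrix.diagonal_apply_eq]
      refine (((hh1 q).continuousAt.tendsto).comp (hl q)).congr' ?_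
      filter_upwards [(hl q).eventually (hh3 q), hl0 q] with i h1 h2
      have h3 : d i q ≠ 0 := sub_ne_zero.mpr h2
      have h4 : √|d i q| ≠ 0 := (Real.sqrt_pos.mpr (abs_pos.mpr h3)).ne'
      simp only [B, Function.comp, h1, smul_eq_mul]
      change _ = d i q ^ (w q).2 * _ * _ / _
      field_simp
    · rw [Matrix.diagonal_apply_ne _ hqr]
      by_cases hlt : lt r q
      · obtain ⟨g, g1, g2⟩ := hw3 q r hlt
        have lim := ((((g1.continuousAt.tendsto).comp (hl r)).abs.mul (hsq q)).mul (hsq r))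
        rw [mul_zero] at lim
        rw [tendsto_zero_iff_abs_tendsto_zero]
        refine lim.congr' ?_
        filter_upwards [(hl r).eventually g2, hl0 r] with i h1 h2
        have h3 : d i r ≠ 0 := sub_ne_zero.mpr h2
        have h4 : 0 < √|d i r| := Real.sqrt_pos.mpr (abs_pos.mpr h3)
        have h5 : |d i r| = √|d i r| * √|d i r| := (Real.mul_self_sqrt (abs_nonneg _)).symm
        have h6 : |d i r| ≠ 0 := (abs_pos.mpr h3).ne'
        simp only [B, Function.comp, h1, smul_eq_mul]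
        change _ = abs (d i r ^ ((w r).2 + 1) * _ * _ / _)
        rw [abs_div, abs_mul, abs_mul, abs_mul, abs_pow, abs_pow, abs_of_pos h4,
          abs_of_nonneg (Real.sqrt_nonneg _), pow_succ, eq_div_iff (by positivity)]
        linear_combination (-(|g (l i r)| * √|d i q| * |d i r| ^ (w r).2)) * h5
      · have hle : ∀ᶠ i in U, |d i q| ≤ |d i r| := by
          have := Ultrafilter.eventually_not.mpr hlt
          filter_upwards [this] with i hi using not_lt.mp hi
        have lim2 : Tendsto (fun i => |d i q| / |d i r| ^ (2 * (w r).2 + 1)) U (𝓝 0) := by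
          rw [Metric.tendsto_nhds]
          intro ε hε
          have hq1 : ∀ᶠ i in U, |d i q| < 1 := by
            have := (hd q).abs
            rw [abs_zero] at this
            exact this.eventually (gt_mem_nhds one_pos)
          filter_upwards [hsep r q (Ne.symm hqr) (2 * (w r).2 + 1) (min (ε / 2) (1 / 2))
            (by positivity), hle, hl0 r, hl0 q, hq1] with i h1 h2 h3 h4 h5
          have a3 : 0 < |d i r| := abs_pos.mpr (sub_ne_zero.mpr h3)
          have a4 : 0 < |d i q| := abs_pos.mpr (sub_ne_zero.mpr h4)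
          rw [Real.dist_eq, sub_zero, abs_of_nonneg (by positivity), div_lt_iff₀ (by positivity)]
          rcases h1 with h1 | h1
          · refine lt_of_le_of_lt h1 ?_
            have : min (ε / 2) (1 / 2) < ε := lt_of_le_of_lt (min_le_left _ _) (by linarith)
            exact mul_lt_mul_of_pos_right this (by positivity)
          · exfalso
            have b1 : |d i q| ^ (2 * (w r).2 + 1) ≤ |d i q| := by
              rw [pow_succ]
              exact mul_le_of_le_one_left a4.le (pow_le_one₀ a4.le h5.le)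
            have b2 : min (ε / 2) (1 / 2) * |d i q| ^ (2 * (w r).2 + 1) ≤ 1 / 2 * |d i q| :=
              mul_le_mul (min_le_right _ _) b1 (by positivity) (by norm_num)
            have : |d i r| ≤ 1 / 2 * |d i q| := le_trans h1 b2
            linarith
        have lim := ((((han r (w q).1).continuousAt.tendsto).comp (hl r)).abs.mul lim2.sqrt)
        rw [Real.sqrt_zero, mul_zero] at lim
        rw [tendsto_zero_iff_abs_tendsto_zero]
        refine lim.congr fun i => ?_
        simp only [B, Function.comp]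
        rw [abs_div, abs_mul, abs_mul, abs_pow, abs_of_nonneg (Real.sqrt_nonneg _),
          abs_of_nonneg (Real.sqrt_nonneg _), Real.sqrt_div (abs_nonneg _), pow_succ,
          Real.sqrt_mul (by positivity), pow_mul', Real.sqrt_sq (by positivity), mul_div_assoc]
  have hdet : Tendsto (fun i => (B i).det) U (𝓝 (Matrix.diagonal fun r => h r (p r)).det) :=
    ((continuous_id.matrix_det).tendsto _).comp hB
  have hne0 : (Matrix.diagonal fun r => h r (p r)).det ≠ 0 := by
    rw [Matrix.det_diagonal]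
    exact Finset.prod_ne_zero_iff.mpr fun r _ => hh2 r
  filter_upwards [hdet.eventually_ne hne0, eventually_all.mpr hl0] with i h1 h2 s hs
  have a3 : ∀ r, d i r ^ (w r).2 * √|d i r| ≠ 0 := fun r => by
    have h3 : d i r ≠ 0 := sub_ne_zero.mpr (h2 r)
    exact mul_ne_zero (pow_ne_zero _ h3) (Real.sqrt_pos.mpr (abs_pos.mpr h3)).ne'
  have := Matrix.eq_zero_of_mulVec_eq_zero h1 (v := fun r => s r * (d i r ^ (w r).2 * √|d i r|)) (by
    funext q
    have := hs _ (hw1 q)
    simp only [Matrix.mulVec, dotProduct, B, Pi.zero_apply]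
    calc _ = ∑ r, s r * G r (w q).1 (l i r) * √|d i q| := by
          refine Finset.sum_congr rfl fun r _ => ?_
          have := a3 r
          generalize d i r ^ (w r).2 * √|d i r| = y at this ⊢
          field_simp
      _ = 0 := by rw [← Finset.sum_mul, this, zero_mul])
  funext r
  exact (mul_eq_zero.mp (congrFun this r)).resolve_right (a3 r)

end Pool.Agent.Lib.helper16.Indep
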