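import Mathlib

set_option autoImplicit false
open Filter Topology Set

namespace Pool.Agent.Lib.helper16.Skew

noncomputable def δ : ℕ → ℝ
  | 0 => 1 / 8
  | n + 1 => δ n ^ (n + 2)

lemma δ_pos (n : ℕ) : 0 < δ n := by
  induction n with
  | zero => norm_num [δ]
  | succ n ih => exact pow_pos ih _

lemma δ_le (n : ℕ) : δ n ≤ 1 / 8 := by
  induction n with
  | zero => norm_num [δ]
  | succ n ih =>
    have h0 := δ_pos n
    calc δ (n + 1) = δ n ^ (n + 1) * δ n := pow_succ _ _
      _ ≤ 1 * (1 / 8) := by gcongr; exact pow_le_one₀ h0.le (by linarith)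
      _ = _ := one_mul _

lemma δ_succ (n : ℕ) : δ (n + 1) ≤ δ n / 4 := by
  have h0 := δ_pos n
  have h1 := δ_le n
  calc δ (n + 1) = δ n ^ n * δ n * δ n := by show δ n ^ (n + 2) = _; ring
    _ ≤ 1 * (1 / 4) * δ n := by
        gcongr
        · exact pow_le_one₀ h0.le (by linarith)
        · linarith
    _ = _ := by ring

lemma δ_add (n j : ℕ) : δ (n + j) ≤ δ n * (1 / 4) ^ j := by
  induction j with
  | zero => simp
  | succ j ih =>
    have := δ_succ (n + j)
    rw [← add_assoc, pow_succ]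
    linarith

lemma δ_anti : Antitone δ := antitone_nat_of_succ_le fun n => by
  have := δ_succ n
  have := δ_pos n
  linarith

lemma geo : HasSum (fun j : ℕ => ((1 : ℝ) / 4) ^ j) (4 / 3) := by
  have := hasSum_geometric_of_lt_one (r := (1 : ℝ) / 4) (by norm_num) (by norm_num)
  norm_num at this ⊢
  exact this

lemma δ_summable : Summable δ :=
  Summable.of_nonneg_of_le (fun n => (δ_pos n).le) (fun n => by simpa using δ_add 0 n)
    (geo.mul_left (δ 0)).summable

noncomputable def val (A : Set ℕ) : ℝ := ∑' n, A.indicator δ n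

lemma val_bound (A : Set ℕ) : |val A| ≤ 1 / 4 := by
  have : ‖val A‖ ≤ δ 0 * (4 / 3) := by
    refine (δ_summable.indicator A).hasSum.norm_le_of_bounded (geo.mul_left (δ 0)) fun n => ?_
    refine le_trans (norm_indicator_le_norm_self _ _) ?_
    rw [Real.norm_eq_abs, abs_of_pos (δ_pos n)]
    simpa using δ_add 0 n
  have h := δ_le 0
  rw [Real.norm_eq_abs] at this
  linarith

lemma val_diff (A B : Set ℕ) (h : A ≠ B) : ∃ n, ¬ (n ∈ A ↔ n ∈ B) ∧ (∀ j < n, j ∈ A ↔ j ∈ B) ∧
    δ n / 2 ≤ |val A - val B| ∧ |val A - val B| ≤ 2 * δ n := by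
  classical
  have hex : ∃ n, ¬ (n ∈ A ↔ n ∈ B) := by
    by_contra h2
    push Not at h2
    exact h (Set.ext h2)
  let n := Nat.find hex
  have hn : ¬ (n ∈ A ↔ n ∈ B) := Nat.find_spec hex
  have hlt : ∀ j < n, j ∈ A ↔ j ∈ B := fun j hj => not_not.mp (Nat.find_min hex hj)
  refine ⟨n, hn, hlt, ?_⟩
  set f : ℕ → ℝ := fun j => A.indicator δ j - B.indicator δ j with hf
  have hs : HasSum f (val A - val B) :=
    (δ_summable.indicator A).hasSum.sub (δ_summable.indicator B).hasSum
  have h1 := (hasSum_nat_add_iff' (n + 1)).mpr hs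
  have h2 : ∑ j ∈ Finset.range (n + 1), f j = f n := by
    rw [Finset.sum_range_succ, Finset.sum_eq_zero, zero_add]
    intro j hj
    have := hlt j (Finset.mem_range.mp hj)
    by_cases hA : j ∈ A
    · simp [hf, hA, this.mp hA]
    · simp [hf, hA, mt this.mpr hA]
  have h3 : |f n| = δ n := by
    by_cases hA : n ∈ A
    · have : n ∉ B := fun hB => hn ⟨fun _ => hB, fun _ => hA⟩
      simp [hf, hA, this, abs_of_pos (δ_pos n)]
    · have : n ∈ B := by
        by_contra hB
        exact hn ⟨fun h => absurd h hA, fun h => absurd h hB⟩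
      simp [hf, hA, this, abs_of_pos (δ_pos n)]
  have h4 : ‖val A - val B - ∑ j ∈ Finset.range (n + 1), f j‖ ≤ δ (n + 1) * (4 / 3) := by
    refine h1.norm_le_of_bounded (geo.mul_left _) fun j => ?_
    refine le_trans ?_ (δ_add (n + 1) j)
    rw [add_comm (n + 1) j, Real.norm_eq_abs]
    have := δ_pos (j + (n + 1))
    by_cases hA : j + (n + 1) ∈ A <;> by_cases hB : j + (n + 1) ∈ B <;>
      simp [hf, hA, hB, abs_of_pos this, this.le]
  rw [h2, Real.norm_eq_abs] at h4
  have h5 := δ_succ n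
  have h6 := δ_pos n
  have h7 := abs_sub_abs_le_abs_sub (val A - val B) (f n)
  have h8 := abs_sub_abs_le_abs_sub (f n) (val A - val B)
  rw [abs_sub_comm (f n)] at h8
  constructor <;> linarith

def code (b : ℕ → Bool) : ℕ → ℕ
  | 0 => 0
  | k + 1 => 2 * code b k + (b k).toNat + 1

lemma code_mono (b : ℕ → Bool) : StrictMono (code b) :=
  strictMono_nat_of_lt_succ fun k => by simp only [code]; omega

lemma code_eq (b b' : ℕ → Bool) : ∀ k k', code b k = code b' k' →
    k = k' ∧ (∀ j ≤ k, code b j = code b' j) ∧ ∀ j < k, b j = b' j := by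
  intro k
  induction k with
  | zero =>
    intro k' h
    cases k' with
    | zero => exact ⟨rfl, fun j hj => by rw [Nat.le_zero.mp hj]; rfl, fun j hj => absurd hj (by omega)⟩
    | succ k' => simp only [code] at h; omega
  | succ k ih =>
    intro k' h
    cases k' with
    | zero => simp only [code] at h; omega
    | succ k' =>
      have h0 := h
      simp only [code] at h
      have h1 := Bool.toNat_le (b k)
      have h2 := Bool.toNat_le (b' k')
      obtain ⟨e, h3, h4⟩ := ih k' (by omega)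
      subst e
      have h5 : b k = b' k := by
        have : (b k).toNat = (b' k).toNat := by omega
        cases hb : b k <;> cases hb' : b' k <;> simp_all
      refine ⟨rfl, fun j hj => ?_, fun j hj => ?_⟩
      · rcases hj.eq_or_lt with rfl | hj
        · exact h0
        · exact h3 j (by omega)
      · rcases (Nat.lt_succ_iff.mp hj).eq_or_lt with rfl | hj
        · exact h5
        · exact h4 j hj

def br (b : ℕ → Bool) : Set ℕ := range (code b)

lemma br_inj : Function.Injective br := by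
  intro b b' h
  funext k
  have : code b (k + 1) ∈ br b' := h ▸ mem_range_self _
  obtain ⟨k', hk⟩ := this
  exact (code_eq b b' _ _ hk.symm).2.2 k (Nat.lt_succ_self k)

lemma br_tree (b b' : ℕ → Bool) (n : ℕ) (h : n ∈ br b) (h' : n ∈ br b') :
    ∀ j < n, j ∈ br b → j ∈ br b' := by
  obtain ⟨k, rfl⟩ := h
  obtain ⟨k', hk⟩ := h'
  rintro _ hj ⟨i, rfl⟩
  exact ⟨i, ((code_eq b b' _ _ hk.symm).2.1 i ((code_mono b).lt_iff_lt.mp hj).le).symm⟩

noncomputable def lam (b : ℕ → Bool) : ℝ := val (br b)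

lemma lam_bound (b : ℕ → Bool) : |lam b| ≤ 1 / 4 := val_bound _

lemma lam_inj : Function.Injective lam := by
  intro b b' h
  by_contra hne
  obtain ⟨n, _, _, h1, _⟩ := val_diff _ _ (br_inj.ne hne)
  have := δ_pos n
  have h2 : val (br b) - val (br b') = 0 := sub_eq_zero.mpr h
  rw [h2, abs_zero] at h1
  linarith

lemma scale (M : ℕ) (ε : ℝ) (hε : 0 < ε) : ∃ N, ∀ n ≥ N, ∀ m > n, ∀ x y : ℝ,
    δ n / 2 ≤ x → y ≤ 2 * δ m → y ≤ ε * x ^ M := by
  have lim : Tendsto (fun n => 2 ^ (M + 1) * δ n) atTop (𝓝 (2 ^ (M + 1) * 0)) :=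
    δ_summable.tendsto_atTop_zero.const_mul _
  rw [mul_zero] at lim
  obtain ⟨N, hN⟩ := eventually_atTop.mp (lim.eventually (gt_mem_nhds hε))
  refine ⟨max N M, fun n hn m hm x y hx hy => ?_⟩
  have h1 := hN n (le_trans (le_max_left _ _) hn)
  have h2 : M ≤ n := le_trans (le_max_right _ _) hn
  have h3 : δ m ≤ δ n ^ (M + 1) := by
    refine le_trans (δ_anti (Nat.succ_le_of_lt hm)) ?_
    exact pow_le_pow_of_le_one (δ_pos n).le (by have := δ_le n; linarith) (by omega)
  have h0 := δ_pos n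
  calc y ≤ 2 * δ n ^ (M + 1) := by linarith
    _ = (2 ^ (M + 1) * δ n) * (δ n / 2) ^ M := by rw [div_pow]; field_simp; ring
    _ ≤ ε * x ^ M := by gcongr

theorem sep (p q : ℕ → Bool) (hpq : p ≠ q) (M : ℕ) (ε : ℝ) (hε : 0 < ε) :
    ∃ η > 0, ∀ p' q', p' ≠ p → q' ≠ q → |lam p' - lam p| < η → |lam q' - lam q| < η →
      |lam q' - lam q| ≤ ε * |lam p' - lam p| ^ M ∨ |lam p' - lam p| ≤ ε * |lam q' - lam q| ^ M := by
  obtain ⟨N, hN⟩ := scale M ε hε
  obtain ⟨n0, hn0, -⟩ := val_diff _ _ (br_inj.ne hpq)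
  refine ⟨δ (max N n0) / 2, half_pos (δ_pos _), fun p' q' hp hq h1 h2 => ?_⟩
  obtain ⟨n, a1, a2, a3, a4⟩ := val_diff _ _ (br_inj.ne hp)
  obtain ⟨m, b1, b2, b3, b4⟩ := val_diff _ _ (br_inj.ne hq)
  have hn : max N n0 < n := by
    by_contra h
    have := δ_anti (not_lt.mp h)
    unfold lam at h1
    linarith
  have hm : max N n0 < m := by
    by_contra h
    have := δ_anti (not_lt.mp h)
    unfold lam at h2
    linarith
  rcases lt_trichotomy n m with h | h | h
  · exact Or.inl (hN n (by omega) m h _ _ a3 b4)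
  · exfalso
    subst h
    have hlt : n0 < n := by omega
    obtain ⟨x, hx, hx2⟩ : ∃ x, n ∈ br x ∧ (n0 ∈ br x ↔ n0 ∈ br p) := by
      by_cases h : n ∈ br p
      · exact ⟨p, h, Iff.rfl⟩
      · refine ⟨p', ?_, a2 n0 hlt⟩
        by_contra h'
        exact a1 ⟨fun t => absurd t h', fun t => absurd t h⟩
    obtain ⟨y, hy, hy2⟩ : ∃ y, n ∈ br y ∧ (n0 ∈ br y ↔ n0 ∈ br q) := by
      by_cases h : n ∈ br q
      · exact ⟨q, h, Iff.rfl⟩
      · refine ⟨q', ?_, b2 n0 hlt⟩
        by_contra h'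
        exact b1 ⟨fun t => absurd t h', fun t => absurd t h⟩
    apply hn0
    rw [← hx2, ← hy2]
    exact ⟨br_tree x y n hx hy n0 hlt, br_tree y x n hy hx n0 hlt⟩
  · exact Or.inr (hN m (by omega) n h _ _ b3 a4)

end Pool.Agent.Lib.helper16.Skew
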