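import Pool.Agent.Lib.helper16.Rho
import Pool.Agent.Lib.helper16.Skew
import Pool.Agent.Lib.helper16.Indep

set_option autoImplicit false
open Filter Topology Set
open scoped ZeroAtInfty BoundedContinuousFunction

namespace Pool.Agent.Lib.helper16.Auer
open Indep

lemma root {ι I : Type*} [Uncountable ι] [DecidableEq I] (L : ι → Finset I) :
    ∃ (R : Finset I) (m : ℕ) (S : Set ι), ¬ S.Countable ∧
      (∀ i ∈ S, R ⊆ L i ∧ (L i \ R).card = m) ∧ ∀ b ∉ R, {i | i ∈ S ∧ b ∈ L i}.Countable := by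
  obtain ⟨n, hn⟩ : ∃ n, ¬ {i | (L i).card = n}.Countable := by
    by_contra h
    push Not at h
    exact not_countable_univ ((countable_iUnion h).mono fun i _ => mem_iUnion.mpr ⟨(L i).card, rfl⟩)
  let A : Set ℕ := {k | ∃ R : Finset I, R.card = k ∧ ¬ {i | (L i).card = n ∧ R ⊆ L i}.Countable}
  have hA : A.Nonempty := ⟨0, ∅, rfl, by simpa using hn⟩
  have hb : BddAbove A := by
    refine ⟨n, ?_⟩
    rintro _ ⟨R, rfl, hR⟩
    by_contra h
    refine hR (countable_empty.mono fun i hi => h ?_)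
    exact hi.1 ▸ Finset.card_le_card hi.2
  obtain ⟨R, hR, hR2⟩ := Nat.sSup_mem hA hb
  refine ⟨R, n - R.card, _, hR2, fun i hi => ⟨hi.2, ?_⟩, fun b hb' => ?_⟩
  · rw [Finset.card_sdiff_of_subset hi.2, hi.1]
  · by_contra h
    have : R.card + 1 ∈ A := by
      refine ⟨insert b R, Finset.card_insert_of_notMem hb', fun hc => h (hc.mono fun i hi => ?_)⟩
      exact ⟨hi.1.1, Finset.insert_subset hi.2 hi.1.2⟩
    have := le_csSup hb this
    omega

lemma condense {ι Y : Type*} [TopologicalSpace Y] [SecondCountableTopology Y] (S : Set ι)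
    (hS : ¬ S.Countable) (τ : ι → Y) :
    ∃ i0 ∈ S, ∀ V ∈ 𝓝 (τ i0), ¬ {i | i ∈ S ∧ τ i ∈ V}.Countable := by
  by_contra h
  push Not at h
  apply hS
  have hc : (⋃ V ∈ {V ∈ TopologicalSpace.countableBasis Y | {i | i ∈ S ∧ τ i ∈ V}.Countable},
      {i | i ∈ S ∧ τ i ∈ V}).Countable :=
    ((TopologicalSpace.countable_countableBasis Y).mono fun V hV => hV.1).biUnion fun V hV => hV.2
  refine hc.mono fun i hi => ?_
  obtain ⟨V, hV, hV2⟩ := h i hi
  obtain ⟨W, hW, h1, h2⟩ := (TopologicalSpace.isBasis_countableBasis Y).mem_nhds_iff.mp hV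
  simp only [mem_iUnion]
  exact ⟨W, ⟨hW, hV2.mono fun j hj => And.intro hj.1 (h2 hj.2)⟩, hi, h1⟩

lemma kill (σ : Type) [Finite σ] (φ : σ → (ℕ →₀ ℝ) →ₗ[ℝ] ℝ) : ∃ z, z ≠ 0 ∧ ∀ j, φ j z = 0 := by
  by_contra h
  push Not at h
  have hinj : Function.Injective (LinearMap.pi φ) := by
    rw [injective_iff_map_eq_zero]
    intro z hz
    by_contra h0
    obtain ⟨j, hj⟩ := h z h0
    exact hj (congrFun hz j)
  have : Module.Finite ℝ (ℕ →₀ ℝ) := Module.Finite.of_injective _ hinj
  have := (Finsupp.basisSingleOne (ι := ℕ) (R := ℝ)).linearIndependent.finite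
  exact not_finite ℕ

variable {I : Type} [LinearOrder I] [TopologicalSpace I] [DiscreteTopology I]
  (e : I → I → ℕ) (emb : I → ℕ → Bool)

open Classical in
noncomputable def coef (b : I) (x : I → ℝ) (k : ℕ) : ℝ :=
  if h : ∃ a, a < b ∧ e b a = k then x h.choose else 0

omit [TopologicalSpace I] [DiscreteTopology I] in
lemma coef_add (b : I) (x y : I → ℝ) : coef e b (x + y) = coef e b x + coef e b y := by
  funext k; simp only [coef, Pi.add_apply]; split_ifs <;> simp

omit [TopologicalSpace I] [DiscreteTopology I] in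
lemma coef_smul (b : I) (c : ℝ) (x : I → ℝ) : coef e b (c • x) = c • coef e b x := by
  funext k; simp only [coef, Pi.smul_apply]; split_ifs <;> simp

omit [LinearOrder I] [DiscreteTopology I] in
lemma abs_le_norm (x : C₀(I, ℝ)) (b : I) : |x b| ≤ ‖x‖ := x.toBCF.norm_coe_le_norm b

omit [DiscreteTopology I] in
lemma coef_le (b : I) (x : C₀(I, ℝ)) (k : ℕ) : |coef e b x k| ≤ ‖x‖ := by
  simp only [coef]; split_ifs
  · exact abs_le_norm x _
  · simp

lemma lam_lt (b : ℕ → Bool) : |Skew.lam b| < 1 := lt_of_le_of_lt (Skew.lam_bound b) (by norm_num)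

lemma ps_add (c c' : ℕ → ℝ) (B B' : ℝ) (h : ∀ k, |c k| ≤ B) (h' : ∀ k, |c' k| ≤ B') (t : ℝ)
    (ht : |t| < 1) : ps (c + c') t = ps c t + ps c' t := by
  unfold ps
  rw [← (ps_summable c B h t ht).tsum_add (ps_summable c' B' h' t ht)]
  simp [add_mul]

lemma ps_smul (a : ℝ) (c : ℕ → ℝ) (t : ℝ) : ps (a • c) t = a * ps c t := by
  unfold ps
  rw [← tsum_mul_left]
  simp [mul_assoc]

lemma ps_bound (c : ℕ → ℝ) (B : ℝ) (h : ∀ k, |c k| ≤ B) (t : ℝ) (ht : |t| ≤ 1 / 4) :
    |ps c t| ≤ B * (4 / 3) := by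
  refine (ps_summable c B h t (by linarith)).hasSum.norm_le_of_bounded (Skew.geo.mul_left B)
    fun k => ?_
  rw [Real.norm_eq_abs, abs_mul, abs_pow]
  exact mul_le_mul (h k) (pow_le_pow_left₀ (abs_nonneg t) ht k) (by positivity)
    (le_trans (abs_nonneg _) (h k))

noncomputable def φ (b : I) : C₀(I, ℝ) →ₗ[ℝ] ℝ where
  toFun x := x b + 1 / 4 * ps (coef e b x) (Skew.lam (emb b))
  map_add' x y := by
    rw [ZeroAtInftyContinuousMap.coe_add, coef_add, ps_add _ _ _ _ (coef_le e b x) (coef_le e b y) _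
      (lam_lt _), Pi.add_apply]
    ring
  map_smul' c x := by
    rw [ZeroAtInftyContinuousMap.coe_smul, coef_smul, ps_smul]
    simp; ring

omit [DiscreteTopology I] in
lemma φ_sub (b : I) (x : C₀(I, ℝ)) : |φ e emb b x - x b| ≤ ‖x‖ / 3 := by
  have := ps_bound _ _ (coef_le e b x) _ (Skew.lam_bound (emb b))
  have e1 : φ e emb b x - x b = 1 / 4 * ps (coef e b x) (Skew.lam (emb b)) := by
    simp [φ]
  rw [e1, abs_mul, abs_of_pos (by norm_num : (0 : ℝ) < 1 / 4)]
  linarith

omit [DiscreteTopology I] in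
lemma φ_le (b : I) (x : C₀(I, ℝ)) : ‖φ e emb b x‖ ≤ 2 * ‖x‖ := by
  have h1 := φ_sub e emb b x
  have h2 := abs_le_norm x b
  have h3 := abs_sub_abs_le_abs_sub (φ e emb b x) (x b)
  have := norm_nonneg x
  rw [Real.norm_eq_abs]
  linarith

noncomputable def T : C₀(I, ℝ) →ₗ[ℝ] (I →ᵇ ℝ) where
  toFun x := BoundedContinuousFunction.ofNormedAddCommGroupDiscrete (fun b => φ e emb b x)
    (2 * ‖x‖) fun b => φ_le e emb b x
  map_add' x y := by ext b; simp
  map_smul' c x := by ext b; simp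

lemma T_apply (x : C₀(I, ℝ)) (b : I) : T e emb x b = φ e emb b x := rfl

lemma φ_le_T (x : C₀(I, ℝ)) (b : I) : |φ e emb b x| ≤ ‖T e emb x‖ :=
  (T e emb x).norm_coe_le_norm b

lemma T_le (x : C₀(I, ℝ)) : ‖T e emb x‖ ≤ 2 * ‖x‖ :=
  (BoundedContinuousFunction.norm_le (by positivity)).mpr fun b => φ_le e emb b x

lemma le_T (x : C₀(I, ℝ)) : ‖x‖ ≤ 3 / 2 * ‖T e emb x‖ := by
  have : ‖x.toBCF‖ ≤ ‖T e emb x‖ + ‖x‖ / 3 := by
    refine (BoundedContinuousFunction.norm_le (by positivity)).mpr fun b => ?_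
    have h1 := φ_sub e emb b x
    have h2 := φ_le_T e emb x b
    have h3 := abs_sub_abs_le_abs_sub (x b) (φ e emb b x)
    rw [abs_sub_comm] at h3
    change |x b| ≤ _
    linarith
  rw [ZeroAtInftyContinuousMap.norm_toBCF_eq_norm] at this
  linarith

omit [LinearOrder I] in
lemma big_finite (x : C₀(I, ℝ)) (ε : ℝ) (hε : 0 < ε) : {b | ε ≤ |x b|}.Finite := by
  have := x.zero_at_infty'
  rw [cocompact_eq_cofinite] at this
  have h2 := this.abs.eventually (gt_mem_nhds (by simpa using hε : |(0 : ℝ)| < ε))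
  simpa [eventually_cofinite] using h2

omit [LinearOrder I] in
lemma supp_countable (x : C₀(I, ℝ)) : {b | x b ≠ 0}.Countable := by
  refine (countable_iUnion fun n : ℕ =>
    (big_finite x (1 / ((n : ℝ) + 1)) (by positivity)).countable).mono fun b hb => ?_
  obtain ⟨n, hn⟩ := exists_nat_one_div_lt (abs_pos.mpr hb)
  exact mem_iUnion.mpr ⟨n, hn.le⟩

lemma active (x : C₀(I, ℝ)) (hx : ‖T e emb x‖ = 1) (f : C₀(I, ℝ) →ₗ[ℝ] ℝ)
    (hf : ∀ y, f y ≤ ‖T e emb y‖) (hfx : f x = 1) :
    ∃ L : Finset I, ∀ h, (∀ b ∈ L, φ e emb b h = 0) → f h = 0 := by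
  refine ⟨(big_finite x (1 / 4) (by norm_num)).toFinset, fun h hh => ?_⟩
  have key : ∀ t : ℝ, |t| * ‖T e emb h‖ ≤ 1 / 4 → t * f h ≤ 0 := by
    intro t ht
    have h1 := hf (x + t • h)
    have h2 : ‖T e emb (x + t • h)‖ ≤ 1 := by
      refine (BoundedContinuousFunction.norm_le zero_le_one).mpr fun b => ?_
      rw [T_apply, map_add, map_smul, smul_eq_mul, Real.norm_eq_abs]
      by_cases hb : 1 / 4 ≤ |x b|
      · rw [hh b (by simpa using hb), mul_zero, add_zero, ← hx]
        exact φ_le_T e emb x b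
      · have a1 := φ_sub e emb b x
        have a2 := le_T e emb x
        have a3 := abs_sub_abs_le_abs_sub (φ e emb b x) (x b)
        have a4 : |t * φ e emb b h| ≤ |t| * ‖T e emb h‖ := by
          rw [abs_mul]; exact mul_le_mul_of_nonneg_left (φ_le_T e emb h b) (abs_nonneg t)
        have a5 := abs_add_le (φ e emb b x) (t * φ e emb b h)
        rw [hx] at a2
        push Not at hb
        linarith
    rw [map_add, map_smul, hfx, smul_eq_mul] at h1
    linarith
  have hn := norm_nonneg (T e emb h)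
  have ht : (0 : ℝ) < 1 / (4 * (‖T e emb h‖ + 1)) := by positivity
  have hb : |1 / (4 * (‖T e emb h‖ + 1))| * ‖T e emb h‖ ≤ 1 / 4 := by
    rw [abs_of_pos ht, div_mul_eq_mul_div, div_le_div_iff₀ (by positivity) (by norm_num)]
    linarith
  have k1 := key _ hb
  have k2 := key (-(1 / (4 * (‖T e emb h‖ + 1)))) (by rwa [abs_neg])
  by_contra h0
  rcases lt_or_gt_of_ne h0 with h0 | h0
  · have := mul_pos ht (neg_pos.mpr h0); linarith
  · have := mul_pos ht h0; linarith

omit [TopologicalSpace I] [DiscreteTopology I] in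
lemma bdd [Uncountable I] (hc : ∀ b : I, (Iio b).Countable) (C : Set I) (hC : C.Countable) :
    ∃ c, ∀ a ∈ C, a < c := by
  have : (⋃ a ∈ C, insert a (Iio a)).Countable := hC.biUnion fun a _ => (hc a).insert a
  obtain ⟨c, hc⟩ : ∃ c, c ∉ ⋃ a ∈ C, insert a (Iio a) := by
    by_contra h
    push Not at h
    exact not_countable_univ (this.mono fun b _ => h b)
  refine ⟨c, fun a ha => ?_⟩
  simp only [Iio_insert, mem_iUnion, mem_Iic, not_exists, not_le] at hc
  exact hc a ha

omit [TopologicalSpace I] [DiscreteTopology I] in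
lemma coef_val (b : I) (hinj : InjOn (e b) (Iio b)) (x : I → ℝ) (a : I) (ha : a < b) :
    coef e b x (e b a) = x a := by
  have h : ∃ a', a' < b ∧ e b a' = e b a := ⟨a, ha, rfl⟩
  unfold coef
  rw [dif_pos h, hinj h.choose_spec.1 ha h.choose_spec.2]

omit [TopologicalSpace I] [DiscreteTopology I] in
lemma coef_congr (b b' c : I) (hinj : InjOn (e b) (Iio b)) (hinj' : InjOn (e b') (Iio b'))
    (hb : c ≤ b) (hb' : c ≤ b') (h : ∀ a, a < c → e b a = e b' a) (x : I → ℝ)
    (hx : ∀ a, x a ≠ 0 → a < c) : coef e b x = coef e b' x := by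
  funext k
  by_cases hk : ∃ a, a < c ∧ e b a = k
  · obtain ⟨a, ha, rfl⟩ := hk
    rw [coef_val e b hinj x a (lt_of_lt_of_le ha hb), h a ha,
      coef_val e b' hinj' x a (lt_of_lt_of_le ha hb')]
  · have h1 : coef e b x k = 0 := by
      unfold coef
      split_ifs with h2
      · by_contra h3
        exact hk ⟨_, hx _ h3, h2.choose_spec.2⟩
      · rfl
    have h2 : coef e b' x k = 0 := by
      unfold coef
      split_ifs with h2
      · by_contra h3
        exact hk ⟨_, hx _ h3, (h _ (hx _ h3)).trans h2.choose_spec.2⟩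
      · rfl
    rw [h1, h2]

theorem countable_system [Uncountable I] (hc : ∀ b : I, (Iio b).Countable)
    (hemb : Function.Injective emb) (hinj : ∀ b, InjOn (e b) (Iio b))
    (hcoh : ∀ c, ∃ κ : I → ℕ, ∀ b b', c ≤ b → c ≤ b' → κ b = κ b' → ∀ a, a < c → e b a = e b' a)
    {ι : Type*} [DecidableEq ι] (x : ι → C₀(I, ℝ)) (f : ι → C₀(I, ℝ) →ₗ[ℝ] ℝ)
    (hx : ∀ i, ‖T e emb (x i)‖ = 1) (hf : ∀ i y, f i y ≤ ‖T e emb y‖)
    (hb : ∀ i j, f i (x j) = if i = j then 1 else 0) : Countable ι := by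
  by_contra hι
  haveI : Uncountable ι := not_countable_iff.mp hι
  choose L hL using fun i => active e emb (x i) (hx i) (f i) (hf i) (by simp [hb])
  obtain ⟨R, m, S, hS, hS1, hS2⟩ := root L
  have hXf : ∀ (j : ℕ → ι), Function.Injective j → ∀ (z : ℕ →₀ ℝ) n,
      f (j n) (Finsupp.linearCombination ℝ (fun n => x (j n)) z) = z n := by
    intro j hj z n
    rw [Finsupp.linearCombination_apply, Finsupp.sum, map_sum, Finset.sum_eq_single n]
    · simp [hb]
    · intro k _ hk
      simp [hb, hj.eq_iff, hk.symm]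
    · intro h
      simp [Finsupp.notMem_support_iff.mp h]
  have hT0 : {i | ∀ h, (∀ b ∈ R, φ e emb b h = 0) → f i h = 0}.Finite := by
    by_contra hinf
    let j := Set.Infinite.natEmbedding _ hinf
    have hj : Function.Injective fun n => (j n).1 := Subtype.val_injective.comp j.injective
    obtain ⟨z, hz0, hz⟩ := kill R fun b =>
      (φ e emb b).comp (Finsupp.linearCombination ℝ fun n => x (j n).1)
    apply hz0
    ext n
    rw [← hXf _ hj z n]
    exact (j n).2 _ fun b hb => hz ⟨b, hb⟩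
  let j := _root_.Infinite.natEmbedding ι
  let X := Finsupp.linearCombination ℝ fun n => x (j n)
  obtain ⟨c, hcb⟩ := bdd hc _ (countable_iUnion fun n => supp_countable (x (j n)))
  have hXs : ∀ z a, X z a ≠ 0 → a < c := by
    intro z a ha
    by_contra h
    apply ha
    have h0 : ∀ n, x (j n) a = 0 := fun n => by
      by_contra h1
      exact h (hcb a (mem_iUnion.mpr ⟨n, h1⟩))
    induction z using Finsupp.induction_linear with
    | zero => simp
    | add u v hu hv =>
      rw [map_add, ZeroAtInftyContinuousMap.coe_add, Pi.add_apply]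
      have h1 : X u a = 0 := by by_contra h2; exact h2 (hu h2)
      have h2 : X v a = 0 := by by_contra h2; exact h2 (hv h2)
      rw [h1, h2, add_zero]
    | single n r => simp [X, h0]
  obtain ⟨κ, hκ⟩ := hcoh c
  have hen : ∀ i, ∃ b : Fin m → I, i ∈ S → Function.Injective b ∧
      (∀ r, b r ∈ L i ∧ b r ∉ R) ∧ ∀ a ∈ L i, a ∈ R ∨ ∃ r, b r = a := by
    intro i
    by_cases hi : i ∈ S
    · let q := (Finset.equivFinOfCardEq (hS1 i hi).2).symm
      refine ⟨fun r => (q r).1, fun _ => ⟨Subtype.val_injective.comp q.injective, fun r =>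
        Finset.mem_sdiff.mp (q r).2, fun a ha => ?_⟩⟩
      by_cases haR : a ∈ R
      · exact Or.inl haR
      · obtain ⟨r, hr⟩ := q.surjective ⟨a, Finset.mem_sdiff.mpr ⟨ha, haR⟩⟩
        exact Or.inr ⟨r, by simp [hr]⟩
    · exact ⟨fun _ => c, fun h => absurd h hi⟩
  choose b hbS using hen
  let bad : Set ι := {i | ∀ h, (∀ b ∈ R, φ e emb b h = 0) → f i h = 0} ∪ range j ∪
    ⋃ a ∈ Iio c \ (R : Set I), {i | i ∈ S ∧ a ∈ L i}
  have hbad : bad.Countable := (hT0.countable.union (countable_range j)).union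
    (((hc c).mono sdiff_subset).biUnion fun a ha => hS2 a ha.2)
  have hS' : ¬ (S \ bad).Countable := fun h => hS ((h.union hbad).mono fun i hi => by
    by_cases h1 : i ∈ bad
    · exact Or.inr h1
    · exact Or.inl ⟨hi, h1⟩)
  have hge : ∀ i ∈ S \ bad, ∀ r, c ≤ b i r := by
    intro i hi r
    by_contra h
    exact hi.2 (Or.inr (mem_biUnion (x := b i r) ⟨not_le.mp h, ((hbS i hi.1).2.1 r).2⟩
      ⟨hi.1, ((hbS i hi.1).2.1 r).1⟩))
  let τ : ι → Fin m → ℝ × ℕ := fun i r => (Skew.lam (emb (b i r)), κ (b i r))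
  obtain ⟨i0, hi0, hcond⟩ := condense _ hS' τ
  let bad2 : Set ι := ⋃ r, {i | i ∈ S ∧ b i0 r ∈ L i}
  have hbad2 : bad2.Countable := countable_iUnion fun r => hS2 _ ((hbS i0 hi0.1).2.1 r).2
  let F : Filter ι := comap τ (𝓝 (τ i0)) ⊓ 𝓟 ((S \ bad) \ bad2)
  haveI : F.NeBot := by
    rw [inf_principal_neBot_iff]
    intro V hV
    obtain ⟨W, hW, hWV⟩ := mem_comap.mp hV
    by_contra h
    refine hcond W hW (hbad2.mono fun i hi => ?_)
    by_contra h2
    exact h ⟨i, hWV hi.2, hi.1, h2⟩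
  let U := Ultrafilter.of F
  have hU1 : Tendsto τ U (𝓝 (τ i0)) :=
    tendsto_iff_comap.mpr ((Ultrafilter.of_le F).trans inf_le_left)
  have hU2 : ∀ᶠ i in U, i ∈ (S \ bad) \ bad2 :=
    ((Ultrafilter.of_le F).trans inf_le_right) (mem_principal_self _)
  have hl : ∀ r, Tendsto (fun i => Skew.lam (emb (b i r))) U (𝓝 (Skew.lam (emb (b i0 r)))) :=
    fun r => (continuous_fst.tendsto _).comp (tendsto_pi_nhds.mp hU1 r)
  have hk : ∀ r, ∀ᶠ i in U, κ (b i r) = κ (b i0 r) := fun r => by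
    have := (continuous_snd.tendsto _).comp (tendsto_pi_nhds.mp hU1 r)
    rw [nhds_discrete, tendsto_pure] at this
    exact this
  have hne : ∀ r, ∀ᶠ i in U, emb (b i r) ≠ emb (b i0 r) := fun r => by
    filter_upwards [hU2] with i hi h
    exact hi.2 (mem_iUnion.mpr ⟨r, hi.1.1, hemb h ▸ ((hbS i hi.1.1).2.1 r).1⟩)
  have main := indep (κ := Fin m) {z | ∀ a ∈ R, φ e emb a (X z) = 0} (fun σ _ ψ => by
      obtain ⟨z, hz0, hz⟩ := kill (σ ⊕ R) (Sum.elim ψ fun a => (φ e emb a).comp X)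
      exact ⟨z, fun a ha => hz (Sum.inr ⟨a, ha⟩), hz0, fun s => hz (Sum.inl s)⟩)
    (fun r z => ps (coef e (b i0 r) (X z))) (fun r => Skew.lam (emb (b i0 r)))
    (fun r z => ps_analytic _ _ (coef_le e _ _) _ (lam_lt _))
    (fun r z z' => by
      have : ∀ᶠ t in 𝓝 (Skew.lam (emb (b i0 r))), |t| < 1 :=
        continuous_abs.continuousAt.eventually (gt_mem_nhds (lam_lt _))
      filter_upwards [this] with t ht
      rw [map_add, ZeroAtInftyContinuousMap.coe_add, coef_add,
        ps_add _ _ _ _ (coef_le e _ _) (coef_le e _ _) t ht]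
      rfl)
    (fun r a z => by
      funext t
      rw [map_smul, ZeroAtInftyContinuousMap.coe_smul, coef_smul, ps_smul]
      rfl)
    (fun r z hz h => by
      have h1 := ps_zero _ _ (coef_le e _ _) _ (lam_lt _) h
      have h2 : X z = 0 := by
        ext a
        by_contra h3
        have h4 := lt_of_lt_of_le (hXs z a h3) (hge i0 hi0 r)
        apply h3
        rw [← coef_val e _ (hinj _) (X z) a h4, h1]
        rfl
      apply hz
      ext n
      rw [← hXf j j.injective z n]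
      change f (j n) (X z) = 0
      rw [h2, map_zero])
    U (fun i r => Skew.lam (emb (b i r))) hl
    (fun r => (hne r).mono fun i hi h => hi (Skew.lam_inj h))
    (fun r q hrq M ε hε => by
      obtain ⟨η, hη, h⟩ := Skew.sep _ _ (hemb.ne ((hbS i0 hi0.1).1.ne hrq)) M ε hε
      filter_upwards [hne r, hne q, Metric.tendsto_nhds.mp (hl r) η hη,
        Metric.tendsto_nhds.mp (hl q) η hη] with i h1 h2 h3 h4
      exact h _ _ h1 h2 h3 h4)
  obtain ⟨i, hi1, hi2, hi3⟩ := (main.and (hU2.and (eventually_all.mpr hk))).exists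
  have hiS := hi2.1.1
  have hspan : f i ∈ Submodule.span ℝ (range (Sum.elim (fun a : R => φ e emb a)
      fun r : Fin m => φ e emb (b i r))) := by
    refine mem_span_of_iInf_ker_le_ker fun h hh => ?_
    rw [Submodule.mem_iInf] at hh
    refine hL i h fun a ha => ?_
    rcases (hbS i hiS).2.2 a ha with h1 | ⟨r, rfl⟩
    · exact hh (Sum.inl ⟨a, h1⟩)
    · exact hh (Sum.inr r)
  obtain ⟨s, hs⟩ := (Submodule.mem_span_range_iff_exists_fun ℝ).mp hspan
  have hval : ∀ h, (∀ a ∈ R, φ e emb a h = 0) →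
      f i h = ∑ r, s (Sum.inr r) * φ e emb (b i r) h := by
    intro h hh
    rw [← hs, Fintype.sum_sum_type, LinearMap.add_apply, LinearMap.sum_apply, LinearMap.sum_apply,
      Finset.sum_eq_zero, zero_add]
    · rfl
    · intro a _
      simp [hh a a.2]
  have h0 := hi1 (fun r => s (Sum.inr r)) fun z hz => by
    have h1 := hval (X z) hz
    have h2 : f i (X z) = 0 := by
      simp only [X]
      rw [Finsupp.linearCombination_apply, Finsupp.sum, map_sum, Finset.sum_eq_zero]
      intro n _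
      have : i ≠ j n := fun h => hi2.1.2 (Or.inl (Or.inr ⟨n, h.symm⟩))
      simp [hb, this]
    have h3 : ∀ r, φ e emb (b i r) (X z)
        = 1 / 4 * ps (coef e (b i0 r) (X z)) (Skew.lam (emb (b i r))) := by
      intro r
      have a1 : X z (b i r) = 0 := by
        by_contra h
        exact absurd (hXs z _ h) (not_lt.mpr (hge i hi2.1 r))
      rw [← coef_congr e (b i r) (b i0 r) c (hinj _) (hinj _) (hge i hi2.1 r) (hge i0 hi0 r)
        (hκ _ _ (hge i hi2.1 r) (hge i0 hi0 r) (hi3 r)) _ (hXs z)]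
      change X z (b i r) + _ = _
      rw [a1, zero_add]
    rw [h2] at h1
    simp only [h3] at h1
    have : ∑ r, s (Sum.inr r) * (1 / 4 * ps (coef e (b i0 r) (X z)) (Skew.lam (emb (b i r))))
        = 1 / 4 * ∑ r, s (Sum.inr r) * ps (coef e (b i0 r) (X z)) (Skew.lam (emb (b i r))) := by
      rw [Finset.mul_sum]
      exact Finset.sum_congr rfl fun r _ => by ring
    linarith
  refine hi2.1.2 (Or.inl (Or.inl fun h hh => ?_))
  rw [hval h hh, Finset.sum_eq_zero]
  intro r _
  rw [congrFun h0 r]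
  simp

theorem not_total [Uncountable I] (hc : ∀ b : I, (Iio b).Countable)
    {ι : Type*} [Countable ι] (x : ι → C₀(I, ℝ)) (f : ι → C₀(I, ℝ) →ₗ[ℝ] ℝ)
    (hx : ∀ i, ‖T e emb (x i)‖ = 1) (hf : ∀ i y, f i y ≤ ‖T e emb y‖)
    (hb : ∀ i, f i (x i) = 1) : ∃ y, y ≠ 0 ∧ ∀ i, f i y = 0 := by
  choose L hL using fun i => active e emb (x i) (hx i) (f i) (hf i) (hb i)
  obtain ⟨c, hcb⟩ := bdd hc _ (countable_iUnion fun i => (L i).countable_toSet)
  let y : C₀(I, ℝ) := ⟨⟨Pi.single c 1, continuous_of_discreteTopology⟩, by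
    rw [cocompact_eq_cofinite]
    refine tendsto_const_nhds.congr' ?_
    filter_upwards [(finite_singleton c).compl_mem_cofinite] with a ha
    exact (Pi.single_eq_of_ne (M := fun _ => ℝ) ha _).symm⟩
  have hy : ∀ a, y a = (Pi.single c 1 : I → ℝ) a := fun a => rfl
  refine ⟨y, fun h => ?_, fun i => hL i y fun b hb => ?_⟩
  · have := hy c
    rw [h] at this
    simp at this
  · have hbc := hcb b (mem_iUnion.mpr ⟨i, hb⟩)
    have h1 : coef e b y = 0 := by
      funext k
      unfold coef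
      split_ifs with h
      · rw [hy]
        exact Pi.single_eq_of_ne (h.choose_spec.1.trans hbc).ne _
      · rfl
    change y b + 1 / 4 * ps (coef e b y) _ = 0
    rw [h1, hy, Pi.single_eq_of_ne hbc.ne]
    simp [ps]

end Pool.Agent.Lib.helper16.Auer
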