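import Mathlib

namespace Pool.Agent.Lib.helper16.BdA

/-- lazy multiplication -/
def mz (a x : ℕ) : ℕ := cond (Nat.beq a 0) 0 (a * x)

theorem mz_eq (a x : ℕ) : mz a x = a * x := by
  unfold mz; cases a <;> simp [Nat.beq]

def E1 (a0 a1 a2 a3 a4 a5 a6 a7 a8 a9 : ℕ) : ℕ :=
  a0 * 2 + a1 * 2 + a2 * 2 + a3 * 2 + a4 * 2 + a5 * 2 + a6 * 2 + a7 * 2 + a8 * 2 + a9 * 2

def E2 (a0 a1 a2 a3 a4 a5 a6 a7 a8 a9 : ℕ) : ℕ :=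
  mz a0 (a1 * 3 + a2 * 3 + a3 * 3 + a4 * 3 + a5 * 3 + a6 * 3 + a7 * 4 + a8 * 4 + a9 * 4) + mz a1 (a2 * 3 + a3 * 3 + a4 * 3 + a5 * 4 + a6 * 4 + a7 * 3 + a8 * 3 + a9 * 4) + mz a2 (a3 * 3 + a4 * 4 + a5 * 3 + a6 * 4 + a7 * 3 + a8 * 4 + a9 * 3) + mz a3 (a4 * 4 + a5 * 4 + a6 * 3 + a7 * 4 + a8 * 3 + a9 * 3) + mz a4 (a5 * 3 + a6 * 3 + a7 * 3 + a8 * 3 + a9 * 4) + mz a5 (a6 * 3 + a7 * 3 + a8 * 4 + a9 * 3) + mz a6 (a7 * 4 + a8 * 3 + a9 * 3) + mz a7 (a8 * 3 + a9 * 3) + mz a8 (a9 * 3)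

def E3 (a0 a1 a2 a3 a4 a5 a6 a7 a8 a9 : ℕ) : ℕ :=
  mz a0 (mz a1 (a2 * 4 + a3 * 4 + a5 * 4 + a6 * 4 + a7 * 4 + a8 * 4 + a9 * 6) + mz a2 (a3 * 4 + a4 * 4 + a6 * 4 + a7 * 4 + a8 * 6 + a9 * 4) + mz a3 (a4 * 4 + a5 * 4 + a7 * 6 + a8 * 4 + a9 * 4) + mz a4 (a5 * 4 + a6 * 4 + a7 * 4 + a8 * 4 + a9 * 6) + mz a5 (a6 * 4 + a7 * 4 + a8 * 6 + a9 * 4) + mz a6 (a7 * 6 + a8 * 4 + a9 * 4) + mz a7 (a8 * 6 + a9 * 6) + mz a8 (a9 * 6)) + mz a1 (mz a2 (a3 * 4 + a4 * 4 + a5 * 4 + a6 * 6 + a8 * 4 + a9 * 4) + mz a3 (a4 * 4 + a5 * 6 + a6 * 4 + a7 * 4 + a9 * 4) + mz a4 (a5 * 4 + a6 * 4 + a7 * 4 + a8 * 4 + a9 * 6) + mz a5 (a6 * 6 + a7 * 4 + a8 * 6 + a9 * 6) + mz a6 (a7 * 6 + a8 * 4 + a9 * 6) + mz a7 (a8 * 4 + a9 * 4) + mz a8 (a9 * 4)) + mz a2 (mz a3 (a4 * 6 + a5 * 4 + a6 * 4 + a7 * 4 + a8 * 4) + mz a4 (a5 * 4 + a6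 * 6 + a7 * 4 + a8 * 6 + a9 * 6) + mz a5 (a6 * 4 + a7 * 4 + a8 * 6 + a9 * 4) + mz a6 (a7 * 6 + a8 * 6 + a9 * 4) + mz a7 (a8 * 4 + a9 * 4) + mz a8 (a9 * 4)) + mz a3 (mz a4 (a5 * 6 + a6 * 4 + a7 * 6 + a8 * 4 + a9 * 6) + mz a5 (a6 * 4 + a7 * 6 + a8 * 6 + a9 * 4) + mz a6 (a7 * 6 + a8 * 4 + a9 * 4) + mz a7 (a8 * 4 + a9 * 4) + mz a8 (a9 * 4)) + mz a4 (mz a5 (a6 * 4 + a8 * 4 + a9 * 4) + mz a6 (a7 * 4 + a9 * 4) + mz a7 (a8 * 4 + a9 * 4) + mz a8 (a9 * 4)) + mz a5 (mz a6 (a7 * 4 + a8 * 4) + mz a7 (a8 * 4 + a9 * 4) + mz a8 (a9 * 4)) + mz a6 (mz a7 (a8 * 4 + a9 * 4) + mz a8 (a9 * 4))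

def E4 (a0 a1 a2 a3 a4 a5 a6 a7 a8 a9 : ℕ) : ℕ :=
  mz a0 (mz a1 (mz a2 (a3 * 5 + a6 * 5 + a8 * 5 + a9 * 5) + mz a3 (a5 * 5 + a7 * 5 + a9 * 5) + mz a5 (a6 * 5 + a8 * 5 + a9 * 5) + mz a6 (a7 * 5 + a9 * 5) + mz a7 (a8 * 5 + a9 * 5) + mz a8 (a9 * 5)) + mz a2 (mz a3 (a4 * 5 + a7 * 5 + a8 * 5) + mz a4 (a6 * 5 + a8 * 5 + a9 * 5) + mz a6 (a7 * 5 + a8 * 5) + mz a7 (a8 * 5 + a9 * 5) + mz a8 (a9 * 5)) + mz a3 (mz a4 (a5 * 5 + a7 * 5 + a9 * 5) + mz a5 (a7 * 5 + a8 * 5) + mz a7 (a8 * 5 + a9 * 5) + mz a8 (a9 * 5)) + mz a4 (mz a5 (a6 * 5 + a8 * 5 + a9 * 5) + mz a6 (a7 * 5 + a9 * 5) + mz a7 (a8 * 5 + a9 * 5) + mz a8 (a9 * 5)) + mz a5 (mz a6 (a7 * 5 + a8 * 5) + mz a7 (a8 * 5 + a9 * 5) + mz a8 (a9 * 5)) + mz a6 (mz a7 (a8 * 5 + a9 * 5) + mz a8 (a9 * 5))) + mz a1 (mz a2 (mz a3 (a4 * 5 + a5 * 5 + a6 * 5)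 + mz a4 (a6 * 5 + a8 * 5 + a9 * 5) + mz a5 (a6 * 5 + a8 * 5 + a9 * 5) + mz a6 (a8 * 5 + a9 * 5)) + mz a3 (mz a4 (a5 * 5 + a7 * 5 + a9 * 5) + mz a5 (a6 * 5 + a7 * 5 + a9 * 5) + mz a6 (a7 * 5 + a9 * 5)) + mz a4 (mz a5 (a6 * 5 + a8 * 5 + a9 * 5) + mz a6 (a7 * 5 + a9 * 5) + mz a7 (a8 * 5 + a9 * 5) + mz a8 (a9 * 5)) + mz a5 (mz a6 (a7 * 5 + a8 * 5) + mz a7 (a8 * 5 + a9 * 5) + mz a8 (a9 * 5)) + mz a6 (mz a7 (a8 * 5 + a9 * 5) + mz a8 (a9 * 5))) + mz a2 (mz a3 (mz a4 (a5 * 5 + a6 * 5 + a7 * 5 + a8 * 5) + mz a5 (a7 * 5 + a8 * 5) + mz a6 (a7 * 5 + a8 * 5)) + mz a4 (mz a5 (a6 * 5 + a8 * 5 + a9 * 5) + mz a6 (a7 * 5 + a9 * 5) + mz a7 (a8 * 5 + a9 * 5) + mz a8 (a9 * 5)) + mz a5 (mz a6 (a7 * 5 + a8 * 5) + mz a7 (a8 * 5 + a9 * 5) + mz a8 (a9 * 5)) + mz a6 (mz a7 (a8 * 5 + a9 * 5) + mz a8 (a9 * 5))) + mz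 a3 (mz a4 (mz a5 (a6 * 5 + a8 * 5 + a9 * 5) + mz a6 (a7 * 5 + a9 * 5) + mz a7 (a8 * 5 + a9 * 5) + mz a8 (a9 * 5)) + mz a5 (mz a6 (a7 * 5 + a8 * 5) + mz a7 (a8 * 5 + a9 * 5) + mz a8 (a9 * 5)) + mz a6 (mz a7 (a8 * 5 + a9 * 5) + mz a8 (a9 * 5)))


/-- some cut of the multigraph is empty -/
def cut (a0 a1 a2 a3 a4 a5 a6 a7 a8 a9 : ℕ) : Bool :=
  Nat.beq (a0 + a1 + a2 + a3) 0 || Nat.beq (a0 + a4 + a5 + a6) 0 || Nat.beq (a1 + a2 + a3 + a4 + a5 + a6) 0 || Nat.beq (a1 + a4 + a7 + a8) 0 || Nat.beq (a0 + a2 + a3 + a4 + a7 + a8) 0 || Nat.beq (a0 + a1 + a5 + a6 + a7 + a8) 0 || Nat.beq (a2 + a3 + a5 + a6 + a7 + a8) 0 || Nat.beq (a2 + a5 + a7 + a9) 0 || Nat.beq (a0 + a1 + a3 + a5 + a7 + a9) 0 || Nat.beq (a0 + a2 + a4 + a6 + a7 + a9) 0 || Nat.beq (a1 + a3 + a4 + a6 + a7 + a9) 0 || Nat.beq (a1 + a2 + a4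 + a5 + a8 + a9) 0 || Nat.beq (a0 + a3 + a4 + a5 + a8 + a9) 0 || Nat.beq (a0 + a1 + a2 + a6 + a8 + a9) 0 || Nat.beq (a3 + a6 + a8 + a9) 0

/-- the checked inequalities, in terms of the four symmetric functions -/
def ineq (s e1 e2 e3 e4 : ℕ) : Bool :=
  (Nat.ble (e4 + 4 * e2 + 16) (2 * e3 + 8 * e1) || Nat.ble (e3 + 12 * e1) (4 * e2 + 32) ||
    Nat.ble (e2 + 24) (6 * e1) || Nat.ble e1 8) &&
    (Nat.ble 7 s || (Nat.ble (23 * e4) (15 * e3) && Nat.ble e4 60))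

def good (a0 a1 a2 a3 a4 a5 a6 a7 a8 a9 : ℕ) : Bool :=
  ineq (a0 + a1 + a2 + a3 + a4 + a5 + a6 + a7 + a8 + a9) (E1 a0 a1 a2 a3 a4 a5 a6 a7 a8 a9)
    (E2 a0 a1 a2 a3 a4 a5 a6 a7 a8 a9) (E3 a0 a1 a2 a3 a4 a5 a6 a7 a8 a9) (E4 a0 a1 a2 a3 a4 a5 a6 a7 a8 a9) &&
  (Nat.ble 1 (E4 a0 a1 a2 a3 a4 a5 a6 a7 a8 a9) || cut a0 a1 a2 a3 a4 a5 a6 a7 a8 a9)

def chk (a0 a1 : ℕ) : Bool :=
  (List.range (8 - a0 - a1)).all fun a2 =>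
  (List.range (8 - a0 - a1 - a2)).all fun a3 =>
  (List.range (8 - a0 - a1 - a2 - a3)).all fun a4 =>
  (List.range (8 - a0 - a1 - a2 - a3 - a4)).all fun a5 =>
  (List.range (8 - a0 - a1 - a2 - a3 - a4 - a5)).all fun a6 =>
  (List.range (8 - a0 - a1 - a2 - a3 - a4 - a5 - a6)).all fun a7 =>
  (List.range (8 - a0 - a1 - a2 - a3 - a4 - a5 - a6 - a7)).all fun a8 =>
  (List.range (8 - a0 - a1 - a2 - a3 - a4 - a5 - a6 - a7 - a8)).all fun a9 =>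
  good a0 a1 a2 a3 a4 a5 a6 a7 a8 a9

theorem chk00 : chk 0 0 = true := by decide +kernel
theorem chk01 : chk 0 1 = true := by decide +kernel
theorem chk02 : chk 0 2 = true := by decide +kernel
theorem chk03 : chk 0 3 = true := by decide +kernel
theorem chk04 : chk 0 4 = true := by decide +kernel
theorem chk05 : chk 0 5 = true := by decide +kernel
theorem chk06 : chk 0 6 = true := by decide +kernel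
theorem chk07 : chk 0 7 = true := by decide +kernel
theorem chk10 : chk 1 0 = true := by decide +kernel
theorem chk11 : chk 1 1 = true := by decide +kernel
theorem chk12 : chk 1 2 = true := by decide +kernel
theorem chk13 : chk 1 3 = true := by decide +kernel
theorem chk14 : chk 1 4 = true := by decide +kernel
theorem chk15 : chk 1 5 = true := by decide +kernel
theorem chk16 : chk 1 6 = true := by decide +kernel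
theorem chk20 : chk 2 0 = true := by decide +kernel
theorem chk21 : chk 2 1 = true := by decide +kernel
theorem chk22 : chk 2 2 = true := by decide +kernel
theorem chk23 : chk 2 3 = true := by decide +kernel
theorem chk24 : chk 2 4 = true := by decide +kernel
theorem chk25 : chk 2 5 = true := by decide +kernel
theorem chk30 : chk 3 0 = true := by decide +kernel
theorem chk31 : chk 3 1 = true := by decide +kernel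
theorem chk32 : chk 3 2 = true := by decide +kernel
theorem chk33 : chk 3 3 = true := by decide +kernel
theorem chk34 : chk 3 4 = true := by decide +kernel
theorem chk40 : chk 4 0 = true := by decide +kernel
theorem chk41 : chk 4 1 = true := by decide +kernel
theorem chk42 : chk 4 2 = true := by decide +kernel
theorem chk43 : chk 4 3 = true := by decide +kernel
theorem chk50 : chk 5 0 = true := by decide +kernel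
theorem chk51 : chk 5 1 = true := by decide +kernel
theorem chk52 : chk 5 2 = true := by decide +kernel
theorem chk60 : chk 6 0 = true := by decide +kernel
theorem chk61 : chk 6 1 = true := by decide +kernel
theorem chk70 : chk 7 0 = true := by decide +kernel

theorem all_good (a0 a1 a2 a3 a4 a5 a6 a7 a8 a9 : ℕ)
    (h : a0 + a1 + a2 + a3 + a4 + a5 + a6 + a7 + a8 + a9 ≤ 7) : good a0 a1 a2 a3 a4 a5 a6 a7 a8 a9 = true := by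
  have H : chk a0 a1 = true := by
    have h0 : a0 ≤ 7 := by omega
    have h1 : a1 ≤ 7 - a0 := by omega
    clear h
    interval_cases a0 <;> simp only [Nat.reduceSub] at h1 <;> interval_cases a1
    · exact chk00
    · exact chk01
    · exact chk02
    · exact chk03
    · exact chk04
    · exact chk05
    · exact chk06
    · exact chk07
    · exact chk10
    · exact chk11
    · exact chk12
    · exact chk13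
    · exact chk14
    · exact chk15
    · exact chk16
    · exact chk20
    · exact chk21
    · exact chk22
    · exact chk23
    · exact chk24
    · exact chk25
    · exact chk30
    · exact chk31
    · exact chk32
    · exact chk33
    · exact chk34
    · exact chk40
    · exact chk41
    · exact chk42
    · exact chk43
    · exact chk50
    · exact chk51
    · exact chk52
    · exact chk60
    · exact chk61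
    · exact chk70
  simp only [chk, List.all_eq_true, List.mem_range] at H
  exact H a2 (by omega) a3 (by omega) a4 (by omega) a5 (by omega)
    a6 (by omega) a7 (by omega) a8 (by omega) a9 (by omega)

theorem det5 (A : Matrix (Fin 5) (Fin 5) ℝ) : A.det =
    0 + A 0 0 * A 1 1 * A 2 2 * A 3 3 * A 4 4
    - A 0 0 * A 1 1 * A 2 2 * A 3 4 * A 4 3
    - A 0 0 * A 1 1 * A 2 3 * A 3 2 * A 4 4
    + A 0 0 * A 1 1 * A 2 3 * A 3 4 * A 4 2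
    + A 0 0 * A 1 1 * A 2 4 * A 3 2 * A 4 3
    - A 0 0 * A 1 1 * A 2 4 * A 3 3 * A 4 2
    - A 0 0 * A 1 2 * A 2 1 * A 3 3 * A 4 4
    + A 0 0 * A 1 2 * A 2 1 * A 3 4 * A 4 3
    + A 0 0 * A 1 2 * A 2 3 * A 3 1 * A 4 4
    - A 0 0 * A 1 2 * A 2 3 * A 3 4 * A 4 1
    - A 0 0 * A 1 2 * A 2 4 * A 3 1 * A 4 3
    + A 0 0 * A 1 2 * A 2 4 * A 3 3 * A 4 1
    + A 0 0 * A 1 3 * A 2 1 * A 3 2 * A 4 4
    - A 0 0 * A 1 3 * A 2 1 * A 3 4 * A 4 2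
    - A 0 0 * A 1 3 * A 2 2 * A 3 1 * A 4 4
    + A 0 0 * A 1 3 * A 2 2 * A 3 4 * A 4 1
    + A 0 0 * A 1 3 * A 2 4 * A 3 1 * A 4 2
    - A 0 0 * A 1 3 * A 2 4 * A 3 2 * A 4 1
    - A 0 0 * A 1 4 * A 2 1 * A 3 2 * A 4 3
    + A 0 0 * A 1 4 * A 2 1 * A 3 3 * A 4 2
    + A 0 0 * A 1 4 * A 2 2 * A 3 1 * A 4 3
    - A 0 0 * A 1 4 * A 2 2 * A 3 3 * A 4 1
    - A 0 0 * A 1 4 * A 2 3 * A 3 1 * A 4 2
    + A 0 0 * A 1 4 * A 2 3 * A 3 2 * A 4 1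
    - A 0 1 * A 1 0 * A 2 2 * A 3 3 * A 4 4
    + A 0 1 * A 1 0 * A 2 2 * A 3 4 * A 4 3
    + A 0 1 * A 1 0 * A 2 3 * A 3 2 * A 4 4
    - A 0 1 * A 1 0 * A 2 3 * A 3 4 * A 4 2
    - A 0 1 * A 1 0 * A 2 4 * A 3 2 * A 4 3
    + A 0 1 * A 1 0 * A 2 4 * A 3 3 * A 4 2
    + A 0 1 * A 1 2 * A 2 0 * A 3 3 * A 4 4
    - A 0 1 * A 1 2 * A 2 0 * A 3 4 * A 4 3
    - A 0 1 * A 1 2 * A 2 3 * A 3 0 * A 4 4
    + A 0 1 * A 1 2 * A 2 3 * A 3 4 * A 4 0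
    + A 0 1 * A 1 2 * A 2 4 * A 3 0 * A 4 3
    - A 0 1 * A 1 2 * A 2 4 * A 3 3 * A 4 0
    - A 0 1 * A 1 3 * A 2 0 * A 3 2 * A 4 4
    + A 0 1 * A 1 3 * A 2 0 * A 3 4 * A 4 2
    + A 0 1 * A 1 3 * A 2 2 * A 3 0 * A 4 4
    - A 0 1 * A 1 3 * A 2 2 * A 3 4 * A 4 0
    - A 0 1 * A 1 3 * A 2 4 * A 3 0 * A 4 2
    + A 0 1 * A 1 3 * A 2 4 * A 3 2 * A 4 0
    + A 0 1 * A 1 4 * A 2 0 * A 3 2 * A 4 3
    - A 0 1 * A 1 4 * A 2 0 * A 3 3 * A 4 2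
    - A 0 1 * A 1 4 * A 2 2 * A 3 0 * A 4 3
    + A 0 1 * A 1 4 * A 2 2 * A 3 3 * A 4 0
    + A 0 1 * A 1 4 * A 2 3 * A 3 0 * A 4 2
    - A 0 1 * A 1 4 * A 2 3 * A 3 2 * A 4 0
    + A 0 2 * A 1 0 * A 2 1 * A 3 3 * A 4 4
    - A 0 2 * A 1 0 * A 2 1 * A 3 4 * A 4 3
    - A 0 2 * A 1 0 * A 2 3 * A 3 1 * A 4 4
    + A 0 2 * A 1 0 * A 2 3 * A 3 4 * A 4 1
    + A 0 2 * A 1 0 * A 2 4 * A 3 1 * A 4 3
    - A 0 2 * A 1 0 * A 2 4 * A 3 3 * A 4 1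
    - A 0 2 * A 1 1 * A 2 0 * A 3 3 * A 4 4
    + A 0 2 * A 1 1 * A 2 0 * A 3 4 * A 4 3
    + A 0 2 * A 1 1 * A 2 3 * A 3 0 * A 4 4
    - A 0 2 * A 1 1 * A 2 3 * A 3 4 * A 4 0
    - A 0 2 * A 1 1 * A 2 4 * A 3 0 * A 4 3
    + A 0 2 * A 1 1 * A 2 4 * A 3 3 * A 4 0
    + A 0 2 * A 1 3 * A 2 0 * A 3 1 * A 4 4
    - A 0 2 * A 1 3 * A 2 0 * A 3 4 * A 4 1
    - A 0 2 * A 1 3 * A 2 1 * A 3 0 * A 4 4
    + A 0 2 * A 1 3 * A 2 1 * A 3 4 * A 4 0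
    + A 0 2 * A 1 3 * A 2 4 * A 3 0 * A 4 1
    - A 0 2 * A 1 3 * A 2 4 * A 3 1 * A 4 0
    - A 0 2 * A 1 4 * A 2 0 * A 3 1 * A 4 3
    + A 0 2 * A 1 4 * A 2 0 * A 3 3 * A 4 1
    + A 0 2 * A 1 4 * A 2 1 * A 3 0 * A 4 3
    - A 0 2 * A 1 4 * A 2 1 * A 3 3 * A 4 0
    - A 0 2 * A 1 4 * A 2 3 * A 3 0 * A 4 1
    + A 0 2 * A 1 4 * A 2 3 * A 3 1 * A 4 0
    - A 0 3 * A 1 0 * A 2 1 * A 3 2 * A 4 4
    + A 0 3 * A 1 0 * A 2 1 * A 3 4 * A 4 2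
    + A 0 3 * A 1 0 * A 2 2 * A 3 1 * A 4 4
    - A 0 3 * A 1 0 * A 2 2 * A 3 4 * A 4 1
    - A 0 3 * A 1 0 * A 2 4 * A 3 1 * A 4 2
    + A 0 3 * A 1 0 * A 2 4 * A 3 2 * A 4 1
    + A 0 3 * A 1 1 * A 2 0 * A 3 2 * A 4 4
    - A 0 3 * A 1 1 * A 2 0 * A 3 4 * A 4 2
    - A 0 3 * A 1 1 * A 2 2 * A 3 0 * A 4 4
    + A 0 3 * A 1 1 * A 2 2 * A 3 4 * A 4 0
    + A 0 3 * A 1 1 * A 2 4 * A 3 0 * A 4 2
    - A 0 3 * A 1 1 * A 2 4 * A 3 2 * A 4 0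
    - A 0 3 * A 1 2 * A 2 0 * A 3 1 * A 4 4
    + A 0 3 * A 1 2 * A 2 0 * A 3 4 * A 4 1
    + A 0 3 * A 1 2 * A 2 1 * A 3 0 * A 4 4
    - A 0 3 * A 1 2 * A 2 1 * A 3 4 * A 4 0
    - A 0 3 * A 1 2 * A 2 4 * A 3 0 * A 4 1
    + A 0 3 * A 1 2 * A 2 4 * A 3 1 * A 4 0
    + A 0 3 * A 1 4 * A 2 0 * A 3 1 * A 4 2
    - A 0 3 * A 1 4 * A 2 0 * A 3 2 * A 4 1
    - A 0 3 * A 1 4 * A 2 1 * A 3 0 * A 4 2
    + A 0 3 * A 1 4 * A 2 1 * A 3 2 * A 4 0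
    + A 0 3 * A 1 4 * A 2 2 * A 3 0 * A 4 1
    - A 0 3 * A 1 4 * A 2 2 * A 3 1 * A 4 0
    + A 0 4 * A 1 0 * A 2 1 * A 3 2 * A 4 3
    - A 0 4 * A 1 0 * A 2 1 * A 3 3 * A 4 2
    - A 0 4 * A 1 0 * A 2 2 * A 3 1 * A 4 3
    + A 0 4 * A 1 0 * A 2 2 * A 3 3 * A 4 1
    + A 0 4 * A 1 0 * A 2 3 * A 3 1 * A 4 2
    - A 0 4 * A 1 0 * A 2 3 * A 3 2 * A 4 1
    - A 0 4 * A 1 1 * A 2 0 * A 3 2 * A 4 3
    + A 0 4 * A 1 1 * A 2 0 * A 3 3 * A 4 2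
    + A 0 4 * A 1 1 * A 2 2 * A 3 0 * A 4 3
    - A 0 4 * A 1 1 * A 2 2 * A 3 3 * A 4 0
    - A 0 4 * A 1 1 * A 2 3 * A 3 0 * A 4 2
    + A 0 4 * A 1 1 * A 2 3 * A 3 2 * A 4 0
    + A 0 4 * A 1 2 * A 2 0 * A 3 1 * A 4 3
    - A 0 4 * A 1 2 * A 2 0 * A 3 3 * A 4 1
    - A 0 4 * A 1 2 * A 2 1 * A 3 0 * A 4 3
    + A 0 4 * A 1 2 * A 2 1 * A 3 3 * A 4 0
    + A 0 4 * A 1 2 * A 2 3 * A 3 0 * A 4 1
    - A 0 4 * A 1 2 * A 2 3 * A 3 1 * A 4 0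
    - A 0 4 * A 1 3 * A 2 0 * A 3 1 * A 4 2
    + A 0 4 * A 1 3 * A 2 0 * A 3 2 * A 4 1
    + A 0 4 * A 1 3 * A 2 1 * A 3 0 * A 4 2
    - A 0 4 * A 1 3 * A 2 1 * A 3 2 * A 4 0
    - A 0 4 * A 1 3 * A 2 2 * A 3 0 * A 4 1
    + A 0 4 * A 1 3 * A 2 2 * A 3 1 * A 4 0 := by
  simp [Matrix.det_succ_row_zero, Fin.sum_univ_succ, Fin.succAbove, Matrix.submatrix]
  ring

theorem detL (t : ℝ) (a0 a1 a2 a3 a4 a5 a6 a7 a8 a9 : ℕ) :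
    (Matrix.scalar (Fin 5) t - (2 : ℝ)⁻¹ • !![(a0 + a1 + a2 + a3 : ℝ), -a0, -a1, -a2, -a3;
      -a0, a0 + a4 + a5 + a6, -a4, -a5, -a6;
      -a1, -a4, a1 + a4 + a7 + a8, -a7, -a8;
      -a2, -a5, -a7, a2 + a5 + a7 + a9, -a9;
      -a3, -a6, -a8, -a9, a3 + a6 + a8 + a9]).det =
    t * (t ^ 4 - (E1 a0 a1 a2 a3 a4 a5 a6 a7 a8 a9 : ℝ) / 2 * t ^ 3 + (E2 a0 a1 a2 a3 a4 a5 a6 a7 a8 a9 : ℝ) / 4 * t ^ 2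
      - (E3 a0 a1 a2 a3 a4 a5 a6 a7 a8 a9 : ℝ) / 8 * t + (E4 a0 a1 a2 a3 a4 a5 a6 a7 a8 a9 : ℝ) / 16) := by
  rw [det5]
  simp [E1, E2, E3, E4, mz_eq, Matrix.scalar_apply, Matrix.diagonal_apply]
  ring

end Pool.Agent.Lib.helper16.BdA
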