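import Mathlib

namespace Pool.Agent.Lib.helper16.Covering

def Cov (n x : ℕ) : Prop :=
  (∃ p q : ℕ, p.Prime ∧ q.Prime ∧ p ≠ q ∧ p < n ∧ q < n ∧ p * q ∣ x) ∨
    (∃ p : ℕ, p.Prime ∧ 2 * p < n ∧ p ^ 2 ∣ x)

def ok2 (M n i a b : ℕ) : Bool :=
  Nat.ble 2 a && (Nat.ble 2 b && (Nat.blt a n && (Nat.blt b n &&
    (Nat.beq (Nat.mod (Nat.add (Nat.mod M (Nat.mul a b)) i) (Nat.mul a b)) 0 &&
      (Nat.beq (Nat.gcd a b) 1 || (Nat.beq a b && Nat.blt (Nat.mul 2 a) n))))))

theorem ok2_cov {M n i a b : ℕ} (h : ok2 M n i a b = true) : Cov n (M + i) := by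
  simp only [ok2, Bool.and_eq_true, Bool.or_eq_true, Nat.ble_eq, Nat.blt_eq, Nat.beq_eq,
    Nat.add_eq, Nat.mul_eq] at h
  obtain ⟨ha, hb, han, hbn, hd, hc⟩ := h
  replace hd : (M % (a * b) + i) % (a * b) = 0 := hd
  rw [Nat.mod_add_mod] at hd
  have hd' : a * b ∣ M + i := Nat.dvd_of_mod_eq_zero hd
  have pa := Nat.minFac_prime (n := a) (by omega)
  have pb := Nat.minFac_prime (n := b) (by omega)
  have la := Nat.minFac_le (n := a) (by omega)
  have lb := Nat.minFac_le (n := b) (by omega)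
  have hm : a.minFac * b.minFac ∣ M + i :=
    (Nat.mul_dvd_mul (Nat.minFac_dvd a) (Nat.minFac_dvd b)).trans hd'
  rcases hc with hc | ⟨rfl, hc⟩
  · refine Or.inl ⟨_, _, pa, pb, ?_, by omega, by omega, hm⟩
    intro e
    have h1 : a.minFac ∣ Nat.gcd a b := Nat.dvd_gcd (Nat.minFac_dvd a) (e ▸ Nat.minFac_dvd b)
    rw [hc] at h1
    exact pa.one_lt.ne' (Nat.dvd_one.mp h1)
  · exact Or.inr ⟨_, pa, by omega, by rw [pow_two]; exact hm⟩

def ok (M n i w : ℕ) : Bool := ok2 M n i (Nat.div w 131072) (Nat.mod w 131072)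

def seg (M n base C k : ℕ) : Bool :=
  Nat.rec true (fun k ih =>
    ok M n (Nat.add base k) (Nat.mod (Nat.shiftRight C (Nat.mul 34 k)) 17179869184) && ih) k

theorem seg_cov {M n base C : ℕ} : ∀ k, seg M n base C k = true →
    ∀ i, base ≤ i → i < base + k → Cov n (M + i) := by
  intro k
  induction k with
  | zero => intro _ i h1 h2; omega
  | succ k ih =>
    intro h i h1 h2
    have h' : (ok M n (base + k) (Nat.mod (Nat.shiftRight C (Nat.mul 34 k)) 17179869184) &&
      seg M n base C k) = true := h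
    rw [Bool.and_eq_true] at h'
    by_cases e : i = base + k
    · subst e; exact ok2_cov h'.1
    · exact ih h'.2 i h1 (by omega)

def chunks (M n k : ℕ) : List ℕ → ℕ → ℕ → Bool
  | [], base, hi => Nat.ble hi base
  | C :: l, base, hi => seg M n base C k && chunks M n k l (base + k) hi

theorem chunks_cov {M n k : ℕ} : ∀ (l : List ℕ) (base hi : ℕ), chunks M n k l base hi = true →
    ∀ i, base ≤ i → i < hi → Cov n (M + i) := by
  intro l
  induction l with
  | nil =>
    intro base hi h i h1 h2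
    simp only [chunks, Nat.ble_eq] at h
    omega
  | cons C l ih =>
    intro base hi h i h1 h2
    simp only [chunks, Bool.and_eq_true] at h
    by_cases e : i < base + k
    · exact seg_cov k h.1 i h1 e
    · exact ih _ _ h.2 i (by omega) h2

end Pool.Agent.Lib.helper16.Covering
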