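import Mathlib

namespace Pool.Agent.Lib.helper16.CroftA
open MeasureTheory Set
open scoped ENNReal

/-- parallelogram -/
def par (u w α β c : ℝ) : Set (ℝ × ℝ) :=
  regionBetween (fun x => α * x + β - c) (fun x => α * x + β + c) (Icc u (u + w))

lemma par_meas (u w α β c : ℝ) : MeasurableSet (par u w α β c) :=
  measurableSet_regionBetween (by fun_prop) (by fun_prop) measurableSet_Icc

lemma par_vol (u w α β c : ℝ) :
    volume (par u w α β c) = ENNReal.ofReal (2 * c) * ENNReal.ofReal w := by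
  unfold par
  rw [Measure.volume_eq_prod, volume_regionBetween_eq_lintegral' (by fun_prop) (by fun_prop)
    measurableSet_Icc]
  have : ∀ y : ℝ, ENNReal.ofReal (((fun x => α * x + β + c) - (fun x => α * x + β - c)) y)
      = ENNReal.ofReal (2 * c) := by
    intro y; congr 1; simp only [Pi.sub_apply]; ring
  simp_rw [this]
  rw [setLIntegral_const, Real.volume_Icc]
  congr 2; ring

lemma mem_par {u w α β c x y : ℝ} (hx : x ∈ Icc u (u + w)) (hy : |y - (α * x + β)| < c) :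
    (x, y) ∈ par u w α β c := by
  refine ⟨hx, ?_⟩
  rw [abs_lt] at hy
  constructor <;> simp only <;> linarith [hy.1, hy.2]

/-- truncation -/
noncomputable def tr (N : ℕ) (j : ℕ) (t : ℝ) : ℝ := (⌊t * (N : ℝ) ^ j⌋ : ℝ) / (N : ℝ) ^ j

lemma tr_le {N : ℕ} (hN : 0 < N) (j : ℕ) (t : ℝ) : tr N j t ≤ t := by
  have h : (0 : ℝ) < (N : ℝ) ^ j := by positivity
  unfold tr
  rw [div_le_iff₀ h]
  exact Int.floor_le _

lemma lt_tr {N : ℕ} (hN : 0 < N) (j : ℕ) (t : ℝ) : t - 1 / (N : ℝ) ^ j ≤ tr N j t := by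
  have h : (0 : ℝ) < (N : ℝ) ^ j := by positivity
  unfold tr
  rw [le_div_iff₀ h, sub_mul, one_div, inv_mul_cancel₀ h.ne']
  exact (Int.sub_one_lt_floor _).le

lemma tr_tr {N : ℕ} (hN : 0 < N) {j k : ℕ} (hjk : j ≤ k) (t : ℝ) :
    tr N j (tr N k t) = tr N j t := by
  obtain ⟨d, rfl⟩ := Nat.exists_eq_add_of_le hjk
  have h : (0 : ℝ) < (N : ℝ) := by positivity
  unfold tr
  congr 2
  have e1 : (⌊t * (N : ℝ) ^ (j + d)⌋ : ℝ) / (N : ℝ) ^ (j + d) * (N : ℝ) ^ j
      = (⌊t * (N : ℝ) ^ (j + d)⌋ : ℝ) / ((N ^ d : ℕ) : ℝ) := by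
    push_cast; rw [pow_add]; field_simp
  have e2 : t * (N : ℝ) ^ j = t * (N : ℝ) ^ (j + d) / ((N ^ d : ℕ) : ℝ) := by
    push_cast; rw [pow_add]; field_simp
  rw [e1, e2, Int.floor_div_natCast, Int.floor_div_natCast, Int.floor_intCast]

noncomputable def sm (N k : ℕ) (t : ℝ) : ℝ := (∑ j ∈ Finset.range k, tr N (j + 1) t) / N

lemma sm_tr {N : ℕ} (hN : 0 < N) (k : ℕ) (t : ℝ) : sm N k (tr N k t) = sm N k t := by
  unfold sm
  congr 1
  refine Finset.sum_congr rfl fun j hj => tr_tr hN ?_ t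
  exact Finset.mem_range.1 hj

/-- offset -/
noncomputable def off (N : ℕ) (t : ℝ) : ℝ := sm N N t - t

lemma tail {N : ℕ} (hN : 0 < N) {k : ℕ} (hk : k ≤ N) (t : ℝ) :
    ((N : ℝ) - k) / N * t - 1 / (N : ℝ) ^ (k + 1) ≤ sm N N t - sm N k t ∧
      sm N N t - sm N k t ≤ ((N : ℝ) - k) / N * t := by
  have h : (0 : ℝ) < (N : ℝ) := by positivity
  have h1 : (1 : ℝ) ≤ N := by exact_mod_cast hN
  have e : sm N N t - sm N k t = (∑ j ∈ Finset.Ico k N, tr N (j + 1) t) / N := by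
    unfold sm
    rw [← sub_div, Finset.sum_Ico_eq_sub _ hk]
  rw [e]
  have hc : ((Finset.Ico k N).card : ℝ) = (N : ℝ) - k := by
    rw [Nat.card_Ico, Nat.cast_sub hk]
  constructor
  · have : ∑ j ∈ Finset.Ico k N, (t - 1 / (N : ℝ) ^ (k + 1)) ≤
        ∑ j ∈ Finset.Ico k N, tr N (j + 1) t := by
      refine Finset.sum_le_sum fun j hj => le_trans ?_ (lt_tr hN _ t)
      have hj := (Finset.mem_Ico.1 hj).1
      have : (N : ℝ) ^ (k + 1) ≤ (N : ℝ) ^ (j + 1) := pow_le_pow_right₀ h1 (by omega)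
      have := one_div_le_one_div_of_le (by positivity) this
      linarith
    rw [Finset.sum_const, nsmul_eq_mul, hc] at this
    rw [le_div_iff₀ h]
    refine le_trans ?_ this
    have hp : (0 : ℝ) ≤ 1 / (N : ℝ) ^ (k + 1) := by positivity
    have hk0 : (0 : ℝ) ≤ k := by positivity
    have : (((N : ℝ) - k) / N * t - 1 / (N : ℝ) ^ (k + 1)) * N
        = ((N : ℝ) - k) * t - N * (1 / (N : ℝ) ^ (k + 1)) := by field_simp
    rw [this]
    nlinarith [mul_nonneg hk0 hp]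
  · have : ∑ j ∈ Finset.Ico k N, tr N (j + 1) t ≤ ∑ j ∈ Finset.Ico k N, t :=
      Finset.sum_le_sum fun j _ => tr_le hN _ t
    rw [Finset.sum_const, nsmul_eq_mul, hc] at this
    rw [div_le_iff₀ h]
    refine this.trans (le_of_eq ?_)
    field_simp

lemma off_bd {N : ℕ} (hN : 0 < N) (t : ℝ) : -(1 / (N : ℝ)) ≤ off N t ∧ off N t ≤ 0 := by
  have h : (0 : ℝ) < (N : ℝ) := by positivity
  have := tail hN (Nat.zero_le N) t
  have e : sm N 0 t = 0 := by simp [sm]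
  rw [e] at this
  simp only [Nat.cast_zero, sub_zero, zero_add, pow_one, div_self h.ne', one_mul] at this
  unfold off
  constructor <;> linarith [this.1, this.2]

/-- piece of the Kakeya set -/
noncomputable def kp (N : ℕ) (q : ℝ) (k : ℕ) (z : ℤ) : Set (ℝ × ℝ) :=
  par (k / N) (1 / N) (z / (N : ℝ) ^ k) (q + sm N k (z / (N : ℝ) ^ k) - z / (N : ℝ) ^ k * (k / N))
    (2 / (N : ℝ) ^ (k + 1))

noncomputable def kak (N n : ℕ) (q : ℝ) : Set (ℝ × ℝ) :=
  ⋃ k ∈ Finset.range N, ⋃ z ∈ Finset.Icc (-((n : ℤ) * (N : ℤ) ^ k)) ((n : ℤ) * (N : ℤ) ^ k), kp N q k z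

lemma kak_meas (N n : ℕ) (q : ℝ) : MeasurableSet (kak N n q) :=
  Finset.measurableSet_biUnion _ fun _ _ => Finset.measurableSet_biUnion _ fun _ _ => par_meas ..

lemma kak_vol {N : ℕ} (hN : 0 < N) (n : ℕ) (q : ℝ) :
    volume (kak N n q) ≤ ENNReal.ofReal (4 * (2 * n + 1) / N) := by
  have h : (0 : ℝ) < (N : ℝ) := by positivity
  have h1 : (1 : ℝ) ≤ N := by exact_mod_cast hN
  unfold kak
  refine (measure_biUnion_finset_le _ _).trans ?_
  have : ∀ k ∈ Finset.range N, volume (⋃ z ∈ Finset.Icc (-((n : ℤ) * (N : ℤ) ^ k))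
      ((n : ℤ) * (N : ℤ) ^ k), kp N q k z) ≤ ENNReal.ofReal (4 * (2 * n + 1) / N / N) := by
    intro k _
    refine (measure_biUnion_finset_le _ _).trans ?_
    simp only [kp, par_vol]
    rw [Finset.sum_const, nsmul_eq_mul, ← ENNReal.ofReal_mul (by positivity),
      ← ENNReal.ofReal_natCast, ← ENNReal.ofReal_mul (by positivity)]
    apply ENNReal.ofReal_le_ofReal
    have hc : (((Finset.Icc (-((n : ℤ) * (N : ℤ) ^ k)) ((n : ℤ) * (N : ℤ) ^ k)).card : ℕ) : ℝ)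
        = 2 * n * (N : ℝ) ^ k + 1 := by
      have h0 : (0 : ℤ) ≤ (n : ℤ) * (N : ℤ) ^ k := by positivity
      have := Int.card_Icc_of_le (-((n : ℤ) * (N : ℤ) ^ k)) ((n : ℤ) * (N : ℤ) ^ k) (by linarith)
      have h2 : (((Finset.Icc (-((n : ℤ) * (N : ℤ) ^ k)) ((n : ℤ) * (N : ℤ) ^ k)).card : ℤ) : ℝ)
        = (((n : ℤ) * (N : ℤ) ^ k + 1 - (-((n : ℤ) * (N : ℤ) ^ k)) : ℤ) : ℝ) := by rw [this]
      push_cast at h2
      rw [h2]; ring
    rw [hc]
    have hk : (1 : ℝ) ≤ (N : ℝ) ^ k := one_le_pow₀ h1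
    have hk0 : (0 : ℝ) < (N : ℝ) ^ k := by positivity
    have e : (2 * n * (N : ℝ) ^ k + 1) * (2 * (2 / (N : ℝ) ^ (k + 1)) * (1 / N))
        = 4 * (2 * n + 1 / (N : ℝ) ^ k) / N / N := by
      rw [pow_succ]; field_simp; ring
    rw [e]
    have : 1 / (N : ℝ) ^ k ≤ 1 := by rw [div_le_one hk0]; exact hk
    gcongr
  refine (Finset.sum_le_sum this).trans ?_
  rw [Finset.sum_const, Finset.card_range, nsmul_eq_mul, ← ENNReal.ofReal_natCast,
    ← ENNReal.ofReal_mul (by positivity)]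
  apply le_of_eq; congr 1; field_simp

lemma mem_kak {N : ℕ} (hN : 0 < N) (n : ℕ) (q t x : ℝ) (ht : |t| ≤ n) (hx : x ∈ Ico (0 : ℝ) 1) :
    (x, t * x + (q + off N t)) ∈ kak N n q := by
  have h : (0 : ℝ) < (N : ℝ) := by positivity
  set k := ⌊x * N⌋₊ with hk
  have hx0 : 0 ≤ x * N := mul_nonneg hx.1 h.le
  have hk1 : (k : ℝ) ≤ x * N := Nat.floor_le hx0
  have hk2 : x * N < k + 1 := Nat.lt_floor_add_one _
  have hkN : k < N := by
    have : (k : ℝ) < N := by nlinarith [hx.2]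
    exact_mod_cast this
  have hp : (0 : ℝ) < (N : ℝ) ^ k := by positivity
  simp only [kak, mem_iUnion]
  refine ⟨k, Finset.mem_range.2 hkN, ⌊t * (N : ℝ) ^ k⌋, ?_, ?_⟩
  · rw [Finset.mem_Icc]
    rw [abs_le] at ht
    constructor
    · apply Int.le_floor.2
      push_cast
      nlinarith [ht.1]
    · have : (⌊t * (N : ℝ) ^ k⌋ : ℝ) ≤ (((n : ℤ) * (N : ℤ) ^ k : ℤ) : ℝ) := by
        push_cast
        refine (Int.floor_le _).trans ?_
        nlinarith [ht.2]
      exact_mod_cast this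
  · have hx1 : (k : ℝ) / N ≤ x := by rw [div_le_iff₀ h]; exact hk1
    have hx2 : x ≤ (k : ℝ) / N + 1 / N := by rw [← add_div, le_div_iff₀ h]; exact hk2.le
    refine mem_par ⟨hx1, hx2⟩ ?_
    change |t * x + (q + off N t) - (tr N k t * x + (q + sm N k (tr N k t) - tr N k t * (k / N)))|
      < 2 / (N : ℝ) ^ (k + 1)
    rw [sm_tr hN]
    obtain ⟨a1, a2⟩ := tail hN hkN.le t
    have b1 := tr_le hN k t
    have b2 := lt_tr hN k t
    have e : t * x + (q + off N t) - (tr N k t * x + (q + sm N k t - tr N k t * (k / N)))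
        = (t - tr N k t) * (x - k / N) + (sm N N t - sm N k t - ((N : ℝ) - k) / N * t) := by
      unfold off; field_simp; ring
    rw [e]
    have c1 : 0 ≤ (t - tr N k t) * (x - k / N) := mul_nonneg (by linarith) (by linarith)
    have c2 : (t - tr N k t) * (x - k / N) ≤ 1 / (N : ℝ) ^ k * (1 / N) :=
      mul_le_mul (by linarith) (by linarith) (by linarith) (by positivity)
    have c3 : 1 / (N : ℝ) ^ k * (1 / N) = 1 / (N : ℝ) ^ (k + 1) := by rw [pow_succ]; field_simp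
    have c4 : 2 / (N : ℝ) ^ (k + 1) = 2 * (1 / (N : ℝ) ^ (k + 1)) := by ring
    have c5 : (0 : ℝ) < 1 / (N : ℝ) ^ (k + 1) := by positivity
    rw [abs_lt]
    constructor <;> linarith

/-- the planar set, in coordinates -/
theorem exists_set : ∃ E : Set (ℝ × ℝ), MeasurableSet E ∧ 0 < volume E ∧ volume E < ∞ ∧
    (∀ (q : ℚ) (y : ℝ), ((q : ℝ), y) ∈ E) ∧
    (∀ (q : ℚ) (n : ℕ), ∃ R : ℝ, (n : ℝ) + 1 ≤ R ∧ ∀ a b : ℝ, |b| ≤ n + 1 → (a - q) * R + b = 0 →
      ∀ x ∈ Ico R (R + 1), (x, a * x + b) ∈ E) ∧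
    (∀ (q : ℚ) (n : ℕ) (a : ℝ), |a| ≤ n → ∃ b : ℝ, (q : ℝ) - 1 / ((n : ℝ) + 1) ≤ b ∧ b ≤ q ∧
      ∀ x ∈ Ico (0 : ℝ) (0 + 1), (x, a * x + b) ∈ E) := by
  obtain ⟨e, he, hs⟩ := ENNReal.exists_pos_sum_of_countable (ε := 1) one_ne_zero (ℚ × ℕ)
  have he' : ∀ i, (0 : ℝ) < e i := fun i => he i
  let R : ℚ × ℕ → ℝ := fun i => ((i.2 : ℝ) + 1) * (1 + 4 / e i)
  let N : ℚ × ℕ → ℕ := fun i => ⌈4 * (2 * (i.2 : ℝ) + 1) / e i⌉₊ + i.2 + 1
  have hN : ∀ i, 0 < N i := fun i => Nat.succ_pos _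
  let A : ℚ × ℕ → Set (ℝ × ℝ) := fun i => par (R i) 1 i.1 0 (e i / 2)
  let K : ℚ × ℕ → Set (ℝ × ℝ) := fun i => kak (N i) i.2 i.1
  let V : Set (ℝ × ℝ) := (range ((↑) : ℚ → ℝ)) ×ˢ univ
  have hA : ∀ i, volume (A i) = e i := by
    intro i
    simp only [A, par_vol]
    rw [ENNReal.ofReal_one, mul_one, show 2 * ((e i : ℝ) / 2) = e i by ring,
      ENNReal.ofReal_coe_nnreal]
  have hK : ∀ i, volume (K i) ≤ e i := by
    intro i
    refine (kak_vol (hN i) _ _).trans ?_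
    rw [← ENNReal.ofReal_coe_nnreal]
    apply ENNReal.ofReal_le_ofReal
    have h0 : (0 : ℝ) < N i := by exact_mod_cast hN i
    rw [div_le_iff₀ h0]
    have h1 : 4 * (2 * (i.2 : ℝ) + 1) / e i ≤ N i := by
      refine (Nat.le_ceil _).trans ?_
      simp only [N]; push_cast
      have : (0 : ℝ) ≤ i.2 := by positivity
      linarith
    rw [div_le_iff₀ (he' i)] at h1
    linarith
  have hV : volume V = 0 := by
    simp only [V]
    rw [Measure.volume_eq_prod, Measure.prod_prod, (countable_range _).measure_zero, zero_mul]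
  refine ⟨V ∪ ((⋃ i, A i) ∪ ⋃ i, K i), ?_, ?_, ?_, ?_, ?_, ?_⟩
  · exact ((countable_range _).measurableSet.prod MeasurableSet.univ).union
      ((MeasurableSet.iUnion fun i => par_meas ..).union (MeasurableSet.iUnion fun i => kak_meas ..))
  · refine lt_of_lt_of_le ?_ (measure_mono (s := A (0, 0)) ?_)
    · rw [hA]; exact_mod_cast he _
    · exact fun p hp => Or.inr (Or.inl (mem_iUnion.2 ⟨_, hp⟩))
  · refine (measure_union_le _ _).trans_lt ?_
    rw [hV, zero_add]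
    refine (measure_union_le _ _).trans_lt (ENNReal.add_lt_top.2 ⟨?_, ?_⟩)
    · refine (measure_iUnion_le _).trans_lt ?_
      simp_rw [hA]; exact hs.trans ENNReal.one_lt_top
    · refine (measure_iUnion_le _).trans_lt ?_
      exact (ENNReal.tsum_le_tsum hK).trans_lt (hs.trans ENNReal.one_lt_top)
  · intro q y
    exact Or.inl ⟨⟨q, rfl⟩, trivial⟩
  · intro q n
    have hn : (0 : ℝ) < (n : ℝ) + 1 := by positivity
    have hε := he' (q, n)
    have hR : (n : ℝ) + 1 ≤ R (q, n) := by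
      simp only [R]
      have : (0 : ℝ) ≤ 4 / e (q, n) := by positivity
      nlinarith
    refine ⟨R (q, n), hR, fun a b hb hab x hx => Or.inr (Or.inl (mem_iUnion.2 ⟨(q, n), ?_⟩))⟩
    refine mem_par ⟨hx.1, hx.2.le⟩ ?_
    have e1 : a * x + b - ((q : ℝ) * x + 0) = (a - q) * (x - R (q, n)) := by linear_combination hab
    simp only
    rw [e1, abs_mul]
    have h1 : |x - R (q, n)| ≤ 1 := by rw [abs_le]; constructor <;> linarith [hx.1, hx.2]
    have h2 : |a - q| * R (q, n) ≤ n + 1 := by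
      have : (a - q) * R (q, n) = -b := by linarith
      have h3 := congrArg abs this
      rw [abs_mul, abs_neg, abs_of_pos (by linarith : (0 : ℝ) < R (q, n))] at h3
      linarith
    have h4 : |a - q| * (4 / e (q, n)) ≤ 1 := by
      simp only [R] at h2
      have := abs_nonneg (a - q)
      have h5 : ((n : ℝ) + 1) * (|a - q| * (4 / e (q, n))) ≤ ((n : ℝ) + 1) * 1 := by nlinarith
      exact le_of_mul_le_mul_left h5 hn
    rw [← mul_div_assoc, div_le_one hε] at h4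
    have := abs_nonneg (a - q)
    nlinarith
  · intro q n a ha
    obtain ⟨h1, h2⟩ := off_bd (hN (q, n)) a
    refine ⟨q + off (N (q, n)) a, ?_, by linarith, fun x hx =>
      Or.inr (Or.inr (mem_iUnion.2 ⟨(q, n), mem_kak (hN _) _ _ _ _ ha (by simpa using hx)⟩))⟩
    have : 1 / (N (q, n) : ℝ) ≤ 1 / ((n : ℝ) + 1) := by
      apply one_div_le_one_div_of_le (by positivity)
      simp only [N]; push_cast
      have : (0 : ℝ) ≤ ⌈4 * (2 * (n : ℝ) + 1) / e (q, n)⌉₊ := by positivity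
      linarith
    linarith

end Pool.Agent.Lib.helper16.CroftA
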