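import Mathlib

namespace Pool.Agent.Lib.helper16.EmA
open Finset MeasureTheory
open scoped Classical

def L1 {X : Type} (d : X → X → ℝ) : Prop :=
  ∃ (ι : Type) (_ : Fintype ι) (f : ι → X → ℝ), ∀ x y, d x y = ∑ i, |f i x - f i y|

variable {X : Type}

lemma L1.add {d e : X → X → ℝ} (hd : L1 d) (he : L1 e) : L1 fun x y => d x y + e x y := by
  obtain ⟨ι, _, f, hf⟩ := hd
  obtain ⟨κ, _, g, hg⟩ := he
  exact ⟨ι ⊕ κ, inferInstance, Sum.elim f g, fun x y => by simp [hf, hg]⟩

lemma L1.smul {d : X → X → ℝ} (hd : L1 d) {c : ℝ} (hc : 0 ≤ c) : L1 fun x y => c * d x y := by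
  obtain ⟨ι, _, f, hf⟩ := hd
  refine ⟨ι, inferInstance, fun i x => c * f i x, fun x y => ?_⟩
  simp only [hf, mul_sum, ← mul_sub, abs_mul, abs_of_nonneg hc]

lemma L1.sum {J : Type} (s : Finset J) {d : J → X → X → ℝ} (hd : ∀ j ∈ s, L1 (d j)) :
    L1 fun x y => ∑ j ∈ s, d j x y := by
  induction s using Finset.induction_on with
  | empty => exact ⟨Empty, inferInstance, fun _ _ => 0, by simp⟩
  | insert a s ha ih =>
    simp only [sum_insert ha]
    exact (hd a (mem_insert_self _ _)).add (ih fun j hj => hd j (mem_insert_of_mem hj))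

lemma L1.nonneg {d : X → X → ℝ} (hd : L1 d) (x y : X) : 0 ≤ d x y := by
  obtain ⟨ι, _, f, hf⟩ := hd
  rw [hf]; positivity

lemma L1.symm {d : X → X → ℝ} (hd : L1 d) (x y : X) : d x y = d y x := by
  obtain ⟨ι, _, f, hf⟩ := hd
  simp only [hf, abs_sub_comm]

lemma L1.tri {d : X → X → ℝ} (hd : L1 d) (x y z : X) : d x z ≤ d x y + d y z := by
  obtain ⟨ι, _, f, hf⟩ := hd
  simp only [hf, ← sum_add_distrib]
  exact sum_le_sum fun i _ => abs_sub_le _ _ _

lemma l1_tent [Fintype X] {L : Type} (h : X → L) {γ : X → ℝ} (hγ : ∀ x, 0 ≤ γ x) :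
    L1 fun x y => if h x = h y then |γ x - γ y| else γ x + γ y := by
  set cl : X → Finset X := fun x => univ.filter fun z => h z = h x with hcl
  have e : ∀ x y, cl x = cl y ↔ h x = h y := by
    intro x y
    refine ⟨fun e => ?_, fun e => by simp only [hcl, e]⟩
    have : x ∈ cl y := e ▸ by simp [hcl]
    simpa [hcl] using this
  refine ⟨Finset X, inferInstance, fun c x => if cl x = c then γ x else 0, fun x y => ?_⟩
  dsimp only
  by_cases h1 : h x = h y
  · rw [if_pos h1, sum_eq_single (cl x) (fun c _ hc => by simp [← (e x y).2 h1, hc.symm]) (by simp)]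
    simp [(e x y).2 h1]
  · have h2 : cl x ≠ cl y := fun h => h1 ((e x y).1 h)
    rw [if_neg h1, sum_eq_add (cl x) (cl y) h2 (fun c _ hc => by simp [hc.1.symm, hc.2.symm]) (by simp)
      (by simp)]
    simp [h2, h2.symm, abs_of_nonneg (hγ _)]

def Cut (d : X → X → ℝ) : Prop :=
  ∃ (ι : Type) (_ : Fintype ι) (l : ι → ℝ) (χ : ι → X → Bool), (∀ i, 0 ≤ l i) ∧
    ∀ x y, d x y = ∑ i, if χ i x = χ i y then 0 else l i

lemma cut_abs [Fintype X] (f : X → ℝ) : Cut fun x y => |f x - f y| := by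
  set S : ℝ → X → Bool := fun t x => decide (f x ≤ t) with hS
  have mS : Measurable S := measurable_pi_lambda _ fun x => measurable_to_bool (by
    have : (fun t => S t x) ⁻¹' {true} = Set.Ici (f x) := by ext t; simp [hS]
    rw [this]; exact measurableSet_Ici)
  refine ⟨X → Bool, inferInstance, fun c => volume.real (S ⁻¹' {c}), fun c x => c x,
    fun _ => measureReal_nonneg, fun x y => ?_⟩
  have e : S ⁻¹' ↑(univ.filter fun c : X → Bool => ¬ c x = c y) =
      Set.Ico (min (f x) (f y)) (max (f x) (f y)) := by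
    ext t
    simp only [hS, coe_filter, mem_univ, true_and, Set.mem_preimage, Set.mem_ofPred_eq,
      decide_eq_decide, Set.mem_Ico, min_le_iff, ← not_le, max_le_iff]
    tauto
  rw [sum_ite, sum_const_zero, zero_add, sum_measureReal_preimage_singleton _
    (fun c _ => mS (measurableSet_singleton c)) (fun c hc => ?_), e, Real.volume_real_Ico,
    max_sub_min_eq_abs', max_eq_left (abs_nonneg _)]
  refine ne_top_of_le_ne_top (b := volume (Set.Ico (min (f x) (f y)) (max (f x) (f y)))) (by simp)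
    (measure_mono ?_)
  rw [← e]
  exact Set.preimage_mono (by simpa using hc)

lemma L1.cut [Fintype X] {d : X → X → ℝ} (hd : L1 d) : Cut d := by
  obtain ⟨ι, _, f, hf⟩ := hd
  choose κ _ l χ h1 h2 using fun i => cut_abs (f i)
  refine ⟨Σ i, κ i, inferInstance, fun p => l p.1 p.2, fun p => χ p.1 p.2, fun p => h1 _ _,
    fun x y => ?_⟩
  rw [hf, Fintype.sum_sigma]
  exact sum_congr rfl fun i _ => h2 i x y

noncomputable def Pr {Ω : Type} [Fintype Ω] (w : Ω → ℝ) (p : Ω → Prop) : ℝ :=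
  ∑ ω, if p ω then w ω else 0

theorem hash [Fintype X] {d : X → X → ℝ} (hd : L1 d) {r : ℝ} (hr : 0 < r) :
    ∃ (Ω : Type) (_ : Fintype Ω) (w : Ω → ℝ) (L : Type) (h : Ω → X → L), (∀ ω, 0 ≤ w ω) ∧
      ∑ ω, w ω = 1 ∧ ∀ x y, Pr w (fun ω => h ω x ≠ h ω y) ≤ d x y / r ∧
        min (d x y / r) 1 / 2 ≤ Pr w fun ω => h ω x ≠ h ω y := by
  obtain ⟨ι, _, l, χ, h1, h2⟩ := hd.cut
  set u : ι → Bool → ℝ := fun i b => if b then 1 - Real.exp (-(l i / r)) else Real.exp (-(l i / r))
    with hu
  have u0 : ∀ i b, 0 ≤ u i b := by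
    intro i b
    have : Real.exp (-(l i / r)) ≤ 1 := Real.exp_le_one_iff.2 (by have := h1 i; simp; positivity)
    simp only [hu]; split_ifs
    · linarith
    · positivity
  have s1 : ∑ ω : ι → Bool, ∏ i, u i (ω i) = 1 := by
    rw [← Fintype.piFinset_univ, ← prod_univ_sum]; simp [hu]
  refine ⟨ι → Bool, inferInstance, fun ω => ∏ i, u i (ω i), ι → Bool, fun ω x i => ω i && χ i x,
    fun ω => prod_nonneg fun i _ => u0 _ _, s1, fun x y => ?_⟩
  have e : Pr (fun ω : ι → Bool => ∏ i, u i (ω i))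
      (fun ω => (fun i => ω i && χ i x) ≠ fun i => ω i && χ i y) = 1 - Real.exp (-(d x y / r)) := by
    have e1 : ∑ ω : ι → Bool, ∏ i, (if (ω i && χ i x) = (ω i && χ i y) then u i (ω i) else 0) =
        Real.exp (-(d x y / r)) := by
      rw [← Fintype.piFinset_univ, ← prod_univ_sum (fun _ => univ)
        fun i b => if (b && χ i x) = (b && χ i y) then u i b else 0, h2, sum_div, ← sum_neg_distrib,
        Real.exp_sum]
      refine prod_congr rfl fun i _ => ?_
      by_cases h : χ i x = χ i y <;> simp [hu, h]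
    rw [← e1, ← s1, ← sum_sub_distrib, Pr]
    refine sum_congr rfl fun ω _ => ?_
    split_ifs with h
    · obtain ⟨i, hi⟩ := Function.ne_iff.1 h
      rw [prod_eq_zero (f := fun i => if (ω i && χ i x) = (ω i && χ i y) then u i (ω i) else 0)
        (mem_univ i) (if_neg hi), sub_zero]
    · rw [eq_comm, sub_eq_zero]
      exact prod_congr rfl fun i _ => (if_pos (congrFun (not_not.1 h) i)).symm
  rw [e]
  have t0 : 0 ≤ d x y / r := div_nonneg (hd.nonneg x y) hr.le
  generalize d x y / r = t at t0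
  refine ⟨by linarith [Real.add_one_le_exp (-t)], ?_⟩
  have a1 : Real.exp (-t) * (t + 1) ≤ 1 := by
    have := mul_le_mul_of_nonneg_left (Real.add_one_le_exp t) (Real.exp_pos (-t)).le
    rwa [← Real.exp_add, neg_add_cancel, Real.exp_zero] at this
  have a2 := Real.exp_pos (-t)
  rcases le_total t 1 with h | h
  · rw [min_eq_left h]; nlinarith
  · rw [min_eq_right h]; nlinarith

end Pool.Agent.Lib.helper16.EmA
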