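import Mathlib
import Pool.Agent.Lib.helper16.EmA

namespace Pool.Agent.Lib.helper16.EmB
open Finset EmA
open scoped Classical

section
variable {Ω Ω' : Type} [Fintype Ω] [Fintype Ω'] {w : Ω → ℝ}

lemma Pr_mono (hw : ∀ ω, 0 ≤ w ω) {p q : Ω → Prop} (h : ∀ ω, p ω → q ω) : Pr w p ≤ Pr w q := by
  refine sum_le_sum fun ω _ => ?_
  by_cases hp : p ω
  · simp [hp, h ω hp]
  · rw [if_neg hp]; split_ifs; exacts [hw ω, le_rfl]

lemma Pr_true (h1 : ∑ ω, w ω = 1) {p : Ω → Prop} (h : ∀ ω, p ω) : Pr w p = 1 := by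
  simp [Pr, h, h1]

lemma Pr_le_one (hw : ∀ ω, 0 ≤ w ω) (h1 : ∑ ω, w ω = 1) (p : Ω → Prop) : Pr w p ≤ 1 :=
  (Pr_mono hw fun _ _ => trivial).trans (Pr_true h1 fun _ => trivial).le

lemma Pr_nonneg (hw : ∀ ω, 0 ≤ w ω) (p : Ω → Prop) : 0 ≤ Pr w p :=
  sum_nonneg fun ω _ => by split_ifs; exacts [hw ω, le_rfl]

lemma Pr_union {α : Type} (hw : ∀ ω, 0 ≤ w ω) (A : Finset α) (p : α → Ω → Prop) :
    Pr w (fun ω => ∃ a ∈ A, p a ω) ≤ ∑ a ∈ A, Pr w (p a) := by
  simp only [Pr]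
  rw [sum_comm]
  refine sum_le_sum fun ω _ => ?_
  have h0 : ∀ a ∈ A, 0 ≤ if p a ω then w ω else 0 := fun a _ => by
    split_ifs; exacts [hw ω, le_rfl]
  split_ifs with h
  · obtain ⟨a, ha, hp⟩ := h
    exact le_trans (by rw [if_pos hp]) (single_le_sum h0 ha)
  · exact sum_nonneg h0

lemma Pr_prod (w' : Ω' → ℝ) (p : Ω × Ω' → Prop) :
    Pr (fun x : Ω × Ω' => w x.1 * w' x.2) p = ∑ ω, w ω * Pr w' fun ω' => p (ω, ω') := by
  simp only [Pr, Fintype.sum_prod_type, mul_sum, mul_ite, mul_zero]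
end

variable {M : Type} [Fintype M]

def cost (ρ : M → M → ℝ) (A : Finset M) (σ : M → M) : ℝ := ∑ a ∈ A, ρ a (σ a)

noncomputable def emd (ρ : M → M → ℝ) (A B : Finset M) : ℝ :=
  sInf {c | ∃ σ : M → M, Set.BijOn σ A B ∧ c = cost ρ A σ}

lemma fin (ρ : M → M → ℝ) (A B : Finset M) :
    {c | ∃ σ : M → M, Set.BijOn σ A B ∧ c = cost ρ A σ}.Finite :=
  (Set.finite_range (cost ρ A)).subset fun _ ⟨σ, _, h⟩ => ⟨σ, h.symm⟩

lemma emd_le (ρ : M → M → ℝ) {A B : Finset M} {σ : M → M} (h : Set.BijOn σ A B) :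
    emd ρ A B ≤ cost ρ A σ := csInf_le (fin ρ A B).bddBelow ⟨σ, h, rfl⟩

omit [Fintype M] in
lemma bij_of_equiv {A B : Finset M} (e : A ≃ B) :
    ∃ σ : M → M, Set.BijOn σ A B ∧ ∀ a : A, σ a = e a := by
  refine ⟨fun x => if h : x ∈ A then e ⟨x, h⟩ else x, ⟨fun x hx => ?_, fun x hx y hy h => ?_,
    fun y hy => ⟨e.symm ⟨y, hy⟩, (e.symm ⟨y, hy⟩).2, by simp⟩⟩, fun a => by simp⟩
  · have hx' : x ∈ A := hx
    simp [hx']
  · have hx' : x ∈ A := hx
    have hy' : y ∈ A := hy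
    simp only [hx', hy', dite_true] at h
    simpa using e.injective (Subtype.ext h)

lemma emd_ex (ρ : M → M → ℝ) {A B : Finset M} (h : A.card = B.card) :
    ∃ σ : M → M, Set.BijOn σ A B ∧ emd ρ A B = cost ρ A σ := by
  obtain ⟨σ, hσ, -⟩ := bij_of_equiv (equivOfCardEq h)
  exact Set.Nonempty.csInf_mem (s := {c | ∃ σ : M → M, Set.BijOn σ A B ∧ c = cost ρ A σ})
    ⟨_, σ, hσ, rfl⟩ (fin ρ A B)

lemma emd_nonneg {ρ : M → M → ℝ} (hρ : L1 ρ) {A B : Finset M} (h : A.card = B.card) :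
    0 ≤ emd ρ A B := by
  obtain ⟨σ, -, h⟩ := emd_ex ρ h
  rw [h]; exact sum_nonneg fun _ _ => hρ.nonneg _ _

def Good (ρ : M → M → ℝ) (δ : Finset M → Finset M → ℝ) (k : ℕ) (C : ℝ) : Prop :=
  ∀ A B : Finset M, A.card = B.card → A.card ≤ k →
    δ A B ≤ C * emd ρ A B ∧ emd ρ A B ≤ C * δ A B

variable {L L' : Type}

def Spl (g : M → L) (A : Finset M) : Prop := ∃ a ∈ A, ∃ a' ∈ A, g a ≠ g a'

noncomputable def cl (g : M → L) (A : Finset M) (l : L) : Finset M := A.filter fun x => g x = l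

noncomputable def lab (g : M → L) (h : Finset M → L') (A : Finset M) : Option (L → ℕ × L') :=
  if Spl g A then some fun l => ((cl g A l).card, h (cl g A l)) else none

omit [Fintype M] in
lemma cl_card {g : M → L} {A : Finset M} (h : Spl g A) {k : ℕ} (hk : A.card ≤ k + 1) (l : L) :
    (cl g A l).card ≤ k := by
  obtain ⟨a, ha, b, hb, hab⟩ := h
  have : cl g A l ⊂ A := by
    refine (ssubset_iff_of_subset (filter_subset _ _)).2 ?_
    by_cases h : g a = l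
    · exact ⟨b, hb, fun h' => hab (h.trans (mem_filter.1 h').2.symm)⟩
    · exact ⟨a, ha, fun h' => h (mem_filter.1 h').2⟩
  have := card_lt_card this
  omega

variable {Ω : Type} [Fintype Ω] {w : Ω → ℝ} {h : Ω → Finset M → L'} {ρ : M → M → ℝ}
  {δ : Finset M → Finset M → ℝ} {k : ℕ} {C R : ℝ} {g : M → L} {A B : Finset M}

lemma up (hρ : L1 ρ) (hw : ∀ ω, 0 ≤ w ω) (hG : Good ρ δ k C) (hC : 0 ≤ C) (hR : 0 < R)
    (hh : ∀ x y, Pr w (fun ω => h ω x ≠ h ω y) ≤ δ x y / R) {σ : M → M}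
    (hσ : Set.BijOn σ A B) (hA : A.card ≤ k + 1) (hg : ∀ a ∈ A, g a = g (σ a)) :
    Pr w (fun ω => lab g (h ω) A ≠ lab g (h ω) B) ≤ (k + 1) * (C * cost ρ A σ / R) := by
  have c0 : 0 ≤ cost ρ A σ := sum_nonneg fun _ _ => hρ.nonneg _ _
  have b : ∀ l, Set.BijOn σ (cl g A l) (cl g B l) := by
    intro l
    refine ⟨fun x hx => ?_, hσ.injOn.mono (coe_subset.2 (filter_subset _ _)), fun y hy => ?_⟩
    · have := mem_filter.1 hx
      exact mem_filter.2 ⟨hσ.mapsTo this.1, (hg x this.1).symm.trans this.2⟩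
    · have := mem_filter.1 hy
      obtain ⟨x, hx, rfl⟩ := hσ.surjOn this.1
      exact ⟨x, mem_filter.2 ⟨hx, (hg x hx).trans this.2⟩, rfl⟩
  have s : Spl g A ↔ Spl g B := by
    constructor
    · rintro ⟨a, ha, a', ha', h⟩
      exact ⟨σ a, hσ.mapsTo ha, σ a', hσ.mapsTo ha', by rwa [← hg a ha, ← hg a' ha']⟩
    · rintro ⟨a, ha, a', ha', h⟩
      obtain ⟨x, hx, rfl⟩ := hσ.surjOn ha
      obtain ⟨y, hy, rfl⟩ := hσ.surjOn ha'
      exact ⟨x, hx, y, hy, by rwa [hg x hx, hg y hy]⟩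
  by_cases hs : Spl g A
  · refine le_trans (Pr_mono hw (q := fun ω => ∃ a ∈ A, h ω (cl g A (g a)) ≠ h ω (cl g B (g a)))
      fun ω hne => ?_) ((Pr_union hw A _).trans ?_)
    · by_contra hn
      push Not at hn
      apply hne
      simp only [lab, if_pos hs, if_pos (s.1 hs)]
      congr 1
      funext l
      rw [(b l).finsetCard_eq]
      rcases (cl g A l).eq_empty_or_nonempty with e | ⟨a, ha⟩
      · have := (b l).finsetCard_eq
        rw [e, card_empty, eq_comm, card_eq_zero] at this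
        rw [e, this]
      · obtain ⟨h1, rfl⟩ := mem_filter.1 ha
        rw [hn a h1]
    · refine (sum_le_card_nsmul _ _ (C * cost ρ A σ / R) fun a _ => (hh _ _).trans ?_).trans ?_
      · refine div_le_div_of_nonneg_right ((hG _ _ (b _).finsetCard_eq (cl_card hs hA _)).1.trans
          (mul_le_mul_of_nonneg_left ((emd_le ρ (b _)).trans ?_) hC)) hR.le
        exact sum_le_sum_of_subset_of_nonneg (filter_subset _ _) fun _ _ _ => hρ.nonneg _ _
      · rw [nsmul_eq_mul]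
        exact mul_le_mul_of_nonneg_right (by exact_mod_cast hA) (by positivity)
  · have : Pr w (fun ω => lab g (h ω) A ≠ lab g (h ω) B) = 0 := by
      simp [Pr, lab, hs, ← s]
    rw [this]; positivity

lemma low (hρ : L1 ρ) (hw : ∀ ω, 0 ≤ w ω) (h1 : ∑ ω, w ω = 1) (hG : Good ρ δ k C) (hC : 0 < C)
    (hR : 0 < R) (hh : ∀ x y, min (δ x y / R) 1 / 2 ≤ Pr w fun ω => h ω x ≠ h ω y)
    (hA : A.card ≤ k + 1) (hs : Spl g A) :
    min (emd ρ A B / ((k + 1) * C) / R) 1 / 2 ≤ Pr w fun ω => lab g (h ω) A ≠ lab g (h ω) B := by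
  by_cases hc : Spl g B ∧ ∀ l, (cl g A l).card = (cl g B l).card
  · obtain ⟨hb, hc⟩ := hc
    choose τ t1 t2 using fun l => emd_ex ρ (hc l)
    have m : ∀ a ∈ A, a ∈ cl g A (g a) := fun a ha => mem_filter.2 ⟨ha, rfl⟩
    have m2 : ∀ a ∈ A, τ (g a) a ∈ B ∧ g (τ (g a) a) = g a := fun a ha =>
      mem_filter.1 ((t1 (g a)).mapsTo (m a ha))
    have hσ : Set.BijOn (fun a => τ (g a) a) A B := by
      refine ⟨fun a ha => (m2 a ha).1, fun a ha b hb e => ?_, fun y hy => ?_⟩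
      · have e1 : g a = g b := by rw [← (m2 a ha).2, ← (m2 b hb).2]; exact congrArg g e
        have e2 : τ (g b) a = τ (g b) b := by simpa only [e1] using e
        exact (t1 (g b)).injOn (e1 ▸ m a ha) (m b hb) e2
      · obtain ⟨x, hx, e⟩ := (t1 (g y)).surjOn (mem_filter.2 ⟨hy, rfl⟩)
        obtain ⟨x1, x2⟩ := mem_filter.1 hx
        exact ⟨x, x1, by simpa only [x2] using e⟩
    obtain ⟨a0, ha0, -⟩ := id hs
    obtain ⟨a, ha, hm⟩ := A.exists_max_image (fun a => δ (cl g A (g a)) (cl g B (g a))) ⟨a0, ha0⟩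
    have d0 : 0 ≤ C * δ (cl g A (g a)) (cl g B (g a)) :=
      (emd_nonneg hρ (hc _)).trans (hG _ _ (hc _) (cl_card hs hA _)).2
    have e1 : emd ρ A B ≤ (k + 1) * C * δ (cl g A (g a)) (cl g B (g a)) := by
      refine (emd_le ρ hσ).trans ((sum_le_card_nsmul _ _ (C * δ (cl g A (g a)) (cl g B (g a)))
        fun x hx => ?_).trans ?_)
      · refine le_trans ?_ ((hG _ _ (hc (g x)) (cl_card hs hA _)).2.trans
          (mul_le_mul_of_nonneg_left (hm x hx) hC.le))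
        rw [t2]
        exact single_le_sum (f := fun a => ρ a (τ (g x) a)) (fun _ _ => hρ.nonneg _ _) (m x hx)
      · rw [nsmul_eq_mul, mul_assoc]
        exact mul_le_mul_of_nonneg_right (by exact_mod_cast hA) d0
    refine le_trans ?_ ((hh (cl g A (g a)) (cl g B (g a))).trans (Pr_mono hw fun ω hne e => hne ?_))
    · have : emd ρ A B / ((k + 1) * C) ≤ δ (cl g A (g a)) (cl g B (g a)) := by
        rw [div_le_iff₀' (by positivity)]; exact e1
      gcongr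
    · simp only [lab, if_pos hs, if_pos hb, Option.some.injEq] at e
      exact congrArg Prod.snd (congrFun e (g a))
  · rw [Pr_true h1 fun ω e => hc ?_]
    · linarith [min_le_right (emd ρ A B / ((k + 1) * C) / R) 1]
    · simp only [lab, if_pos hs] at e
      split_ifs at e with hb
      exact ⟨hb, fun l => congrArg Prod.fst (congrFun (Option.some.inj e) l)⟩

theorem lam (hρ : L1 ρ) (hδ : L1 δ) (hG : Good ρ δ k C) (hC : 0 < C) (hR : 0 < R) :
    ∃ (Ω : Type) (_ : Fintype Ω) (w : Ω → ℝ) (L : Type) (Λ : Ω → Finset M → L), (∀ ω, 0 ≤ w ω) ∧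
      ∑ ω, w ω = 1 ∧ ∀ A B : Finset M, A.card = B.card → A.card ≤ k + 1 →
        Pr w (fun ω => Λ ω A ≠ Λ ω B) ≤ (1 + (k + 1) * C) * (emd ρ A B / R) ∧
        ∀ a ∈ A, ∀ a' ∈ A, min (ρ a a' / R) 1 / 2 * (min (emd ρ A B / ((k + 1) * C) / R) 1 / 2) ≤
          Pr w fun ω => Λ ω A ≠ Λ ω B := by
  obtain ⟨Ω, _, w, L, g, w0, w1, hg⟩ := hash hρ hR
  obtain ⟨Ω', _, w', L', h, w0', w1', hh⟩ := hash hδ hR
  refine ⟨Ω × Ω', inferInstance, fun x => w x.1 * w' x.2, _, fun x => lab (g x.1) (h x.2),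
    fun x => mul_nonneg (w0 _) (w0' _), ?_, fun A B hAB hA => ⟨?_, fun a ha a' ha' => ?_⟩⟩
  · simp [Fintype.sum_prod_type, ← mul_sum, w1, w1']
  · obtain ⟨σ, hσ, e⟩ := emd_ex ρ hAB
    have c0 : 0 ≤ cost ρ A σ := sum_nonneg fun _ _ => hρ.nonneg _ _
    rw [Pr_prod, e]
    have b1 : Pr w (fun ω => ∃ a ∈ A, g ω a ≠ g ω (σ a)) ≤ cost ρ A σ / R := by
      refine (Pr_union w0 A _).trans ?_
      rw [cost, sum_div]
      exact sum_le_sum fun a _ => (hg _ _).1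
    have b2 : ∀ ω, w ω * Pr w' (fun ω' => lab (g ω) (h ω') A ≠ lab (g ω) (h ω') B) ≤
        (if ∃ a ∈ A, g ω a ≠ g ω (σ a) then w ω else 0) +
          w ω * ((k + 1) * (C * cost ρ A σ / R)) := by
      intro ω
      split_ifs with hb
      · have : 0 ≤ w ω * ((k + 1) * (C * cost ρ A σ / R)) := by have := w0 ω; positivity
        linarith [mul_le_of_le_one_right (w0 ω)
          (Pr_le_one w0' w1' fun ω' => lab (g ω) (h ω') A ≠ lab (g ω) (h ω') B)]
      · push Not at hb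
        rw [zero_add]
        exact mul_le_mul_of_nonneg_left (up hρ w0' hG hC.le hR (fun x y => (hh x y).1) hσ hA hb)
          (w0 ω)
    refine (sum_le_sum fun ω _ => b2 ω).trans ?_
    rw [sum_add_distrib, ← sum_mul, w1]
    have : (1 + (k + 1) * C) * (cost ρ A σ / R) =
      cost ρ A σ / R + 1 * ((k + 1) * (C * cost ρ A σ / R)) := by ring
    rw [this]
    refine add_le_add (le_trans (le_of_eq ?_) b1) le_rfl
    rw [Pr]
    exact sum_congr rfl fun _ _ => by congr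
  · rw [Pr_prod]
    have m0 : 0 ≤ min (emd ρ A B / ((k + 1) * C) / R) 1 / 2 := by
      have := emd_nonneg hρ hAB
      positivity
    refine (mul_le_mul_of_nonneg_right (hg a a').2 m0).trans ?_
    rw [Pr, sum_mul]
    refine sum_le_sum fun ω _ => ?_
    split_ifs with hb
    · exact mul_le_mul_of_nonneg_left (low hρ w0' w1' hG hC hR (fun x y => (hh x y).2) hA
        ⟨a, ha, a', ha', hb⟩) (w0 ω)
    · rw [zero_mul]; exact mul_nonneg (w0 ω) (Pr_nonneg w0' _)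

end Pool.Agent.Lib.helper16.EmB
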