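import Mathlib
import Pool.Agent.Lib.helper16.EmB

namespace Pool.Agent.Lib.helper16.EmC
open Finset EmA EmB
open scoped Classical

noncomputable def tent (j : ℤ) (t : ℝ) : ℝ := max 0 (2 ^ j - |t - 2 * 2 ^ j|)

lemma tent_nonneg (j : ℤ) (t : ℝ) : 0 ≤ tent j t := le_max_left _ _

lemma tent_le (j : ℤ) (t : ℝ) : tent j t ≤ 2 ^ j :=
  max_le (by positivity) (sub_le_self _ (abs_nonneg _))

lemma tent_lip (j : ℤ) (t s : ℝ) : |tent j t - tent j s| ≤ |t - s| := by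
  simp only [tent, max_comm (0 : ℝ)]
  refine (abs_max_sub_max_le_abs _ _ _).trans ?_
  rw [sub_sub_sub_cancel_left, abs_sub_comm]
  exact (abs_abs_sub_abs_le_abs_sub _ _).trans (by rw [sub_sub_sub_cancel_right])

lemma tent_ex {t : ℝ} (ht : 0 < t) : ∃ j : ℤ, 2 ^ j / 4 ≤ tent j t ∧ 2 ^ j ≤ t ∧ t ≤ 3 * 2 ^ j := by
  obtain ⟨j, h1, h2⟩ := exists_mem_Ico_zpow (x := t * 4 / 5) (y := (2 : ℝ)) (by positivity)
    one_lt_two
  rw [zpow_add_one₀ two_ne_zero] at h2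
  have : (0 : ℝ) < 2 ^ j := by positivity
  refine ⟨j, le_max_of_le_right ?_, by linarith, by linarith⟩
  have : |t - 2 * 2 ^ j| ≤ 3 / 4 * 2 ^ j := abs_le.2 ⟨by linarith, by linarith⟩
  linarith

lemma tent_sum (J : Finset ℤ) (t : ℝ) {c : ℝ} (hc : 0 ≤ c) :
    ∑ j ∈ J, (if tent j t ≠ 0 then c else 0) ≤ 2 * c := by
  have a : ∀ j, tent j t ≠ 0 → 2 ^ j < t ∧ t < 3 * 2 ^ j := by
    intro j hj
    have : 0 < 2 ^ j - |t - 2 * 2 ^ j| := lt_of_not_ge fun h => hj (max_eq_left h)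
    have := abs_lt.1 (sub_pos.1 this)
    constructor <;> linarith [this.1, this.2]
  rw [← sum_filter, sum_const, nsmul_eq_mul]
  refine mul_le_mul_of_nonneg_right ?_ hc
  rcases le_or_gt t 0 with ht | ht
  · rw [filter_eq_empty_iff.2 fun j _ hj => (a j hj).1.not_ge (ht.trans (by positivity))]; simp
  obtain ⟨k, h1, h2⟩ := exists_mem_Ico_zpow (y := (2 : ℝ)) ht one_lt_two
  have : (J.filter fun j => tent j t ≠ 0) ⊆ {k - 1, k} := by
    intro j hj
    obtain ⟨b1, b2⟩ := a j (mem_filter.1 hj).2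
    have c1 := (zpow_lt_zpow_iff_right₀ (one_lt_two (α := ℝ))).1 (b1.trans h2)
    have c2 : (2 : ℝ) ^ k < 2 ^ (j + 2) := by
      rw [zpow_add₀ two_ne_zero]
      have : (0 : ℝ) < 2 ^ j := by positivity
      norm_num; linarith
    have c3 := (zpow_lt_zpow_iff_right₀ (one_lt_two (α := ℝ))).1 c2
    simp only [mem_insert, mem_singleton]; omega
  exact_mod_cast (card_le_card this).trans card_le_two

section
variable {Ω L : Type} [Fintype Ω] {w : Ω → ℝ} (x y : Ω → L) {a b : ℝ}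

lemma ex_up (hw : ∀ ω, 0 ≤ w ω) (h1 : ∑ ω, w ω = 1) :
    ∑ ω, w ω * (if x ω = y ω then |a - b| else a + b) ≤
      |a - b| + Pr w (fun ω => x ω ≠ y ω) * (a + b) := by
  have e : |a - b| = ∑ ω, w ω * |a - b| := by rw [← sum_mul, h1, one_mul]
  refine le_trans ?_ (add_le_add e.ge le_rfl)
  rw [Pr, sum_mul, ← sum_add_distrib]
  refine sum_le_sum fun ω _ => ?_
  have := mul_nonneg (hw ω) (abs_nonneg (a - b))
  by_cases h : x ω = y ω <;> simp [h, this]

lemma ex_low (hw : ∀ ω, 0 ≤ w ω) (hb : 0 ≤ b) :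
    Pr w (fun ω => x ω ≠ y ω) * a ≤ ∑ ω, w ω * (if x ω = y ω then |a - b| else a + b) := by
  rw [Pr, sum_mul]
  refine sum_le_sum fun ω _ => ?_
  have := mul_nonneg (hw ω) (abs_nonneg (a - b))
  have := mul_nonneg (hw ω) hb
  by_cases h : x ω = y ω <;> simp [h, mul_add, *]
end

variable {M : Type} [Fintype M] {ρ : M → M → ℝ}

def Dm (ρ : M → M → ℝ) (A : Finset M) : ℝ := ∑ a ∈ A, ∑ a' ∈ A, ρ a a'

omit [Fintype M] in
lemma sum_bij' {A B : Finset M} {σ : M → M} (h : Set.BijOn σ A B) (f : M → ℝ) :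
    ∑ b ∈ B, f b = ∑ a ∈ A, f (σ a) :=
  (sum_nbij σ h.mapsTo h.injOn h.surjOn fun _ _ => rfl).symm

omit [Fintype M] in
lemma Dm_lip (hρ : L1 ρ) {A B : Finset M} {σ : M → M} (h : Set.BijOn σ A B) :
    |Dm ρ A - Dm ρ B| ≤ 2 * A.card * cost ρ A σ := by
  have e : (2 : ℝ) * A.card * cost ρ A σ = ∑ a ∈ A, ∑ a' ∈ A, (ρ a (σ a) + ρ a' (σ a')) := by
    simp only [sum_add_distrib, sum_const, nsmul_eq_mul, ← mul_sum, cost]; ring
  rw [e, Dm, Dm, sum_bij' h, ← sum_sub_distrib]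
  refine (abs_sum_le_sum_abs _ _).trans (sum_le_sum fun a _ => ?_)
  rw [sum_bij' h, ← sum_sub_distrib]
  refine (abs_sum_le_sum_abs _ _).trans (sum_le_sum fun a' _ => abs_le.2 ⟨?_, ?_⟩)
  · linarith [hρ.tri (σ a) a (σ a'), hρ.tri a a' (σ a'), hρ.symm a (σ a)]
  · linarith [hρ.tri a (σ a) a', hρ.tri (σ a) (σ a') a', hρ.symm a' (σ a')]

omit [Fintype M] in
lemma mean (hρ : L1 ρ) : ∃ μ : Finset M → Finset M → ℝ, L1 μ ∧ ∀ (A B : Finset M) (σ : M → M),
    Set.BijOn σ A B → μ A B ≤ cost ρ A σ ∧ cost ρ A σ ≤ μ A B + Dm ρ A + Dm ρ B := by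
  obtain ⟨ι, _, f, hf⟩ := id hρ
  refine ⟨fun A B => ∑ i, |∑ a ∈ A, f i a - ∑ a ∈ B, f i a|, ⟨ι, inferInstance, _, fun _ _ => rfl⟩,
    fun A B σ h => ⟨?_, ?_⟩⟩
  · simp only [cost, hf]
    rw [sum_comm]
    refine sum_le_sum fun i _ => ?_
    rw [sum_bij' h, ← sum_sub_distrib]
    exact abs_sum_le_sum_abs _ _
  · have d0 : ∀ A, 0 ≤ Dm ρ A := fun A => sum_nonneg fun _ _ => sum_nonneg fun _ _ => hρ.nonneg _ _
    have m0 : 0 ≤ ∑ i, |∑ a ∈ A, f i a - ∑ a ∈ B, f i a| := by positivity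
    rcases A.eq_empty_or_nonempty with rfl | hA
    · have := d0 ∅; have := d0 B; simp only [cost, sum_empty] at *; linarith
    have n1 : (1 : ℝ) ≤ A.card := by exact_mod_cast hA.card_pos
    have k : ∀ a ∈ A, A.card * ρ a (σ a) ≤ ∑ i, |∑ a ∈ A, f i a - ∑ a ∈ B, f i a| +
        ∑ a' ∈ A, ρ a a' + ∑ b ∈ B, ρ (σ a) b := by
      intro a _
      simp only [hf]
      rw [sum_comm (s := A), sum_comm (s := B), mul_sum, ← sum_add_distrib, ← sum_add_distrib]
      refine sum_le_sum fun i _ => ?_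
      have e : A.card * (f i a - f i (σ a)) = (∑ a ∈ A, f i a - ∑ a ∈ B, f i a) +
          ∑ a' ∈ A, (f i a - f i a') - ∑ b ∈ B, (f i (σ a) - f i b) := by
        simp only [sum_sub_distrib, sum_const, nsmul_eq_mul, ← h.finsetCard_eq]; ring
      rw [← Nat.abs_cast, ← abs_mul, e]
      refine (abs_sub _ _).trans (add_le_add ((abs_add_le _ _).trans (add_le_add le_rfl ?_)) ?_) <;>
      exact abs_sum_le_sum_abs _ _
    have k2 := sum_le_sum k
    rw [← mul_sum, sum_add_distrib, sum_add_distrib, sum_const, nsmul_eq_mul,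
      ← sum_bij' h fun b => ∑ b' ∈ B, ρ b b'] at k2
    have k3 : (A.card : ℝ) * cost ρ A σ ≤
        A.card * (∑ i, |∑ a ∈ A, f i a - ∑ a ∈ B, f i a| + Dm ρ A + Dm ρ B) := by
      have := d0 A; have := d0 B
      unfold cost Dm at *
      nlinarith
    exact le_of_mul_le_mul_left k3 (by linarith)

theorem step {δ : Finset M → Finset M → ℝ} {k : ℕ} {C : ℝ} (hρ : L1 ρ) (hδ : L1 δ)
    (hG : Good ρ δ k C) (hC : 1 ≤ C) : ∃ δ', L1 δ' ∧ Good ρ δ' (k + 1) (200 * (k + 1) ^ 3 * C) := by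
  obtain ⟨μ, hμ, m1⟩ := mean hρ
  choose Ω _ w L Λ w0 w1 hΛ using fun j : ℤ =>
    lam hρ hδ hG (one_pos.trans_le hC) (R := 2 ^ j) (by positivity)
  choose! jj j1 j2 j3 using fun (t : ℝ) (ht : 0 < t) => tent_ex ht
  set J := univ.image fun A : Finset M => jj (Dm ρ A) with hJ
  set E : ℤ → Finset M → Finset M → ℝ := fun j A B => ∑ ω, w j ω *
    (if Λ j ω A = Λ j ω B then |tent j (Dm ρ A) - tent j (Dm ρ B)|
      else tent j (Dm ρ A) + tent j (Dm ρ B)) with hE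
  have lE : ∀ j, L1 (E j) := fun j => L1.sum univ fun ω _ =>
    (l1_tent (Λ j ω) fun A => tent_nonneg j (Dm ρ A)).smul (w0 j ω)
  have lD : L1 fun A B => |Dm ρ A - Dm ρ B| := ⟨Unit, inferInstance, fun _ => Dm ρ, by simp⟩
  refine ⟨_, (hμ.add lD).add (L1.sum J fun j _ => lE j), fun A B hAB hA => ?_⟩
  obtain ⟨σ, hσ, e⟩ := emd_ex ρ hAB
  have e0 := emd_nonneg hρ hAB
  obtain ⟨m2, m3⟩ := m1 A B σ hσ
  have d1 := Dm_lip hρ hσ
  rw [← e] at m2 m3 d1
  have hA' : (A.card : ℝ) ≤ k + 1 := by exact_mod_cast hA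
  set n : ℝ := k + 1 with hn
  have n1 : 1 ≤ n := by simp [hn]
  have n3 : n ≤ n ^ 3 := le_self_pow₀ n1 (by norm_num)
  have d2 : |Dm ρ A - Dm ρ B| ≤ 2 * n * emd ρ A B := d1.trans (by gcongr)
  have μ0 := hμ.nonneg A B
  have E0 : 0 ≤ ∑ j ∈ J, E j A B := sum_nonneg fun j _ => (lE j).nonneg _ _
  have a0 := abs_nonneg (Dm ρ A - Dm ρ B)
  have nC : n ≤ n ^ 3 * C := n3.trans (le_mul_of_one_le_right (by positivity) hC)
  have nC' : n * C ≤ n ^ 3 * C := by gcongr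
  constructor
  · set c := |Dm ρ A - Dm ρ B| + 2 * (1 + n * C) * emd ρ A B with hc
    have c0 : 0 ≤ c := by positivity
    have b : ∀ j ∈ J, E j A B ≤ (if tent j (Dm ρ A) ≠ 0 then c else 0) +
        (if tent j (Dm ρ B) ≠ 0 then c else 0) := by
      intro j _
      have b1 : E j A B ≤ _ := ex_up (fun ω => Λ j ω A) (fun ω => Λ j ω B) (w0 j) (w1 j)
      have b2 : E j A B ≤ c := by
        refine b1.trans (add_le_add (tent_lip _ _ _) ((mul_le_mul (hΛ j A B hAB hA).1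
          (add_le_add (tent_le _ _) (tent_le _ _))
          (add_nonneg (tent_nonneg _ _) (tent_nonneg _ _)) (by positivity)).trans (le_of_eq ?_)))
        field_simp; ring
      by_cases h1 : tent j (Dm ρ A) = 0 <;> by_cases h2 : tent j (Dm ρ B) = 0
      · simpa [h1, h2] using b1
      · simpa [h1, h2] using b2
      · simpa [h1, h2] using b2
      · simp only [h1, h2, ne_eq, not_false_eq_true, if_true]; linarith
    have b3 := sum_le_sum b
    rw [sum_add_distrib] at b3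
    have b4 := tent_sum J (Dm ρ A) c0
    have b5 := tent_sum J (Dm ρ B) c0
    have : (9 + 10 * n + 8 * (n * C)) * emd ρ A B ≤ 200 * n ^ 3 * C * emd ρ A B :=
      mul_le_mul_of_nonneg_right (by linarith) e0
    nlinarith
  · have K2 : 2 ≤ 200 * n ^ 3 * C := by linarith
    by_cases hc : emd ρ A B ≤ 2 * (μ A B + |Dm ρ A - Dm ρ B|)
    · exact hc.trans (mul_le_mul K2 (by linarith) (by positivity) (by positivity))
    have f1 : emd ρ A B < 4 * Dm ρ A := by linarith [neg_abs_le (Dm ρ A - Dm ρ B)]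
    have f2 : 0 < Dm ρ A := by linarith
    have hne : (A ×ˢ A).Nonempty := by
      rw [nonempty_iff_ne_empty]; intro h
      rw [Dm, ← sum_product', h] at f2; simp at f2
    obtain ⟨⟨a, a'⟩, ha, hm⟩ := (A ×ˢ A).exists_max_image (fun p => ρ p.1 p.2) hne
    have f3 : Dm ρ A ≤ n ^ 2 * ρ a a' := by
      rw [Dm, ← sum_product']
      refine (sum_le_card_nsmul _ _ _ hm).trans ?_
      rw [nsmul_eq_mul, card_product, sq]
      have := hρ.nonneg a a'
      push_cast; gcongr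
    have g1 := j1 _ f2
    have g2 := j2 _ f2
    have g3 := j3 _ f2
    set j := jj (Dm ρ A)
    have R0 : (0 : ℝ) < 2 ^ j := by positivity
    have g4 := (hΛ j A B hAB hA).2 a (mem_product.1 ha).1 a' (mem_product.1 ha).2
    have g5 : _ ≤ E j A B := ex_low (fun ω => Λ j ω A) (fun ω => Λ j ω B) (w0 j) (tent_nonneg _ _)
    have g6 : E j A B ≤ ∑ j ∈ J, E j A B :=
      single_le_sum (f := fun j => E j A B) (fun j _ => (lE j).nonneg _ _)
        (mem_image_of_mem _ (mem_univ A))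
    have g7 : 1 / n ^ 2 ≤ min (ρ a a' / 2 ^ j) 1 := by
      refine le_min ?_ ?_
      · rw [div_le_div_iff₀ (by positivity) R0]; linarith
      · rw [div_le_one (by positivity)]; exact one_le_pow₀ n1
    have g8 : emd ρ A B / (12 * (n * C) * 2 ^ j) ≤ min (emd ρ A B / (n * C) / 2 ^ j) 1 := by
      have : 1 ≤ n * C := one_le_mul_of_one_le_of_one_le n1 hC
      refine le_min ?_ ?_
      · rw [div_div]
        exact div_le_div_of_nonneg_left e0 (by positivity)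
          (mul_le_mul_of_nonneg_right (by linarith) R0.le)
      · rw [div_le_one (by positivity)]; nlinarith
    have g9 : 1 / n ^ 2 / 2 * (emd ρ A B / (12 * (n * C) * 2 ^ j) / 2) * (2 ^ j / 4) ≤ E j A B := by
      refine le_trans (mul_le_mul (le_trans ?_ g4) g1 (by positivity) (Pr_nonneg (w0 j) _)) g5
      exact mul_le_mul (by linarith) (by linarith) (by positivity)
        (by linarith [show 0 ≤ 1 / n ^ 2 by positivity])
    have g10 : 1 / n ^ 2 / 2 * (emd ρ A B / (12 * (n * C) * 2 ^ j) / 2) * (2 ^ j / 4) =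
        emd ρ A B / (192 * n ^ 3 * C) := by field_simp; ring
    rw [g10, div_le_iff₀' (by positivity)] at g9
    exact g9.trans (mul_le_mul (by nlinarith) (by linarith) ((lE j).nonneg _ _) (by positivity))

theorem main (k : ℕ) : ∃ C : ℝ, 1 ≤ C ∧ ∀ (M : Type) [Fintype M] (ρ : M → M → ℝ), L1 ρ →
    ∃ δ, L1 δ ∧ Good ρ δ k C := by
  induction k with
  | zero =>
    refine ⟨1, le_rfl, fun M _ ρ hρ => ⟨fun _ _ => 0, ⟨Empty, inferInstance, fun _ _ => 0, by simp⟩,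
      fun A B hAB hA => ?_⟩⟩
    obtain ⟨σ, -, e⟩ := emd_ex ρ hAB
    rw [e, card_eq_zero.1 (Nat.le_zero.1 hA)]
    simp [cost]
  | succ k ih =>
    obtain ⟨C, hC, h⟩ := ih
    refine ⟨200 * (k + 1) ^ 3 * C, ?_, fun M _ ρ hρ => ?_⟩
    · have : (1 : ℝ) ≤ (k + 1) ^ 3 := one_le_pow₀ (by simp)
      nlinarith
    · obtain ⟨δ, h1, h2⟩ := h M ρ hρ
      exact step hρ h1 h2 hC

end Pool.Agent.Lib.helper16.EmC
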