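import Mathlib
import Pool.Agent.Lib.helper16.EmC

namespace Pool.Agent.Lib.helper16.EmD
open Finset EmA EmB
open scoped Classical

def sg (b : Bool) : ℝ := if b then 1 else -1

lemma moments (d : ℕ) (v : Fin d → ℝ) :
    ∑ ε : Fin d → Bool, (∑ i, sg (ε i) * v i) ^ 2 = 2 ^ d * ∑ i, v i ^ 2 ∧
    ∑ ε : Fin d → Bool, (∑ i, sg (ε i) * v i) ^ 4 ≤ 3 * 2 ^ d * (∑ i, v i ^ 2) ^ 2 := by
  induction d with
  | zero => simp
  | succ d ih =>
    obtain ⟨h2, h4⟩ := ih fun i => v i.succ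
    have e : ∀ g : ℝ → ℝ, ∑ ε : Fin (d + 1) → Bool, g (∑ i, sg (ε i) * v i) =
        ∑ ε : Fin d → Bool, (g (v 0 + ∑ i, sg (ε i) * v i.succ) +
          g (-v 0 + ∑ i, sg (ε i) * v i.succ)) := by
      intro g
      rw [← (Fin.consEquiv fun _ => Bool).sum_comp, Fintype.sum_prod_type, sum_add_distrib]
      simp [Fin.sum_univ_succ, Fin.consEquiv, sg]
    rw [e (· ^ 2), e (· ^ 4), Fin.sum_univ_succ]
    have e2 : ∀ x : ℝ, (v 0 + x) ^ 2 + (-v 0 + x) ^ 2 = 2 * v 0 ^ 2 + 2 * x ^ 2 := fun x => by ring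
    have e4 : ∀ x : ℝ, (v 0 + x) ^ 4 + (-v 0 + x) ^ 4 =
      2 * v 0 ^ 4 + 12 * v 0 ^ 2 * x ^ 2 + 2 * x ^ 4 := fun x => by ring
    simp only [e2, e4, sum_add_distrib, ← mul_sum, sum_const, card_univ, Fintype.card_fun,
      Fintype.card_bool, Fintype.card_fin, nsmul_eq_mul, h2]
    push_cast
    refine ⟨by ring, ?_⟩
    have : (0 : ℝ) ≤ 2 ^ d * v 0 ^ 4 := by positivity
    rw [pow_succ (2 : ℝ) d]
    nlinarith

lemma khin (d : ℕ) (v : Fin d → ℝ) :
    (2 ^ d)⁻¹ * ∑ ε : Fin d → Bool, |∑ i, sg (ε i) * v i| ≤ √(∑ i, v i ^ 2) ∧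
    √(∑ i, v i ^ 2) ≤ 4 * ((2 ^ d)⁻¹ * ∑ ε : Fin d → Bool, |∑ i, sg (ε i) * v i|) := by
  obtain ⟨h2, h4⟩ := moments d v
  have s0 : 0 ≤ ∑ i, v i ^ 2 := by positivity
  rw [← Real.sq_sqrt s0] at h2 h4
  have p : (0 : ℝ) < 2 ^ d := by positivity
  rcases (Real.sqrt_nonneg (∑ i, v i ^ 2)).eq_or_lt with h | h
  · rw [← h] at h2 ⊢
    have : ∀ ε : Fin d → Bool, |∑ i, sg (ε i) * v i| = 0 := fun ε => by
      simpa using (sum_eq_zero_iff_of_nonneg fun _ _ => sq_nonneg _).1 (h2.trans (by simp)) ε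
        (mem_univ _)
    simp [this]
  generalize √(∑ i, v i ^ 2) = s at *
  constructor
  · have : ∑ ε : Fin d → Bool, 2 * s * |∑ i, sg (ε i) * v i| ≤
        ∑ ε : Fin d → Bool, ((∑ i, sg (ε i) * v i) ^ 2 + s ^ 2) :=
      sum_le_sum fun ε _ => by
        nlinarith [sq_nonneg (|∑ i, sg (ε i) * v i| - s), sq_abs (∑ i, sg (ε i) * v i)]
    simp only [sum_add_distrib, ← mul_sum, h2, sum_const, card_univ, Fintype.card_fun,
      Fintype.card_bool, Fintype.card_fin, nsmul_eq_mul] at this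
    push_cast at this
    rw [inv_mul_le_iff₀ p]
    nlinarith
  · have : ∑ ε : Fin d → Bool, (4 * s ^ 2 * (∑ i, sg (ε i) * v i) ^ 2 - (∑ i, sg (ε i) * v i) ^ 4) ≤
        ∑ ε : Fin d → Bool, 4 * s ^ 3 * |∑ i, sg (ε i) * v i| :=
      sum_le_sum fun ε _ => by
        rw [← sq_abs (∑ i, sg (ε i) * v i), ← Even.pow_abs (by norm_num : Even 4)]
        have := abs_nonneg (∑ i, sg (ε i) * v i)
        generalize |∑ i, sg (ε i) * v i| = u at *
        have k : 0 ≤ 4 * s ^ 3 - 4 * s ^ 2 * u + u ^ 3 := by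
          nlinarith [mul_nonneg (add_nonneg this (by positivity : 0 ≤ 2 * s)) (sq_nonneg (u - s)),
            mul_nonneg h.le (sq_nonneg (u - s)), mul_nonneg h.le (sq_nonneg (u - 2 * s)),
            mul_nonneg this (sq_nonneg (u - s)), mul_nonneg this (sq_nonneg (2 * u - 3 * s))]
        nlinarith [mul_nonneg this k]
    simp only [sum_sub_distrib, ← mul_sum, h2] at this
    rw [← mul_assoc, mul_comm 4, mul_assoc, le_inv_mul_iff₀ p]
    have s3 : 0 < s ^ 3 := by positivity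
    nlinarith

variable {M : Type} [Fintype M]

lemma birk (ρ : M → M → ℝ) {S T : Finset M} (hc : S.card = T.card)
    (hS : 0 < S.card) {π : M → M → ℝ} (p0 : ∀ x y, 0 ≤ π x y)
    (p1 : ∀ x, ∑ y, π x y = if x ∈ S then 1 / (S.card : ℝ) else 0)
    (p2 : ∀ y, ∑ x, π x y = if y ∈ T then 1 / (T.card : ℝ) else 0) :
    emd ρ S T ≤ S.card * ∑ x, ∑ y, π x y * ρ x y := by
  set e := equivOfCardEq hc
  have s0 : (S.card : ℝ) ≠ 0 := by exact_mod_cast hS.ne'
  have z1 : ∀ x y, x ∉ S → π x y = 0 := fun x y h =>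
    (sum_eq_zero_iff_of_nonneg fun _ _ => p0 _ _).1 ((p1 x).trans (if_neg h)) y (mem_univ _)
  have z2 : ∀ x y, y ∉ T → π x y = 0 := fun x y h =>
    (sum_eq_zero_iff_of_nonneg fun _ _ => p0 _ _).1 ((p2 y).trans (if_neg h)) x (mem_univ _)
  have t1 : ∀ g : M → ℝ, (∀ x ∉ S, g x = 0) → ∑ a : S, g a = ∑ x, g x := fun g hg => by
    rw [sum_coe_sort S g]; exact sum_subset (subset_univ _) fun x _ => hg x
  have t2 : ∀ g : M → ℝ, (∀ x ∉ T, g x = 0) → ∑ a : S, g (e a) = ∑ x, g x := fun g hg => by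
    rw [e.sum_comp fun b : T => g b, sum_coe_sort T g]
    exact sum_subset (subset_univ _) fun x _ => hg x
  obtain ⟨w, w0, w1, hw⟩ := exists_eq_sum_perm_of_mem_doublyStochastic (R := ℝ)
    (M := Matrix.of fun a b : S => S.card * π a (e b)) (mem_doublyStochastic_iff_sum.2
      ⟨fun a b => mul_nonneg (by positivity) (p0 _ _), fun a => by
        simp only [Matrix.of_apply, ← mul_sum]
        rw [t2 (π a) (z2 a), p1, if_pos a.2]; field_simp, fun b => by
        simp only [Matrix.of_apply, ← mul_sum]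
        rw [t1 (π · (e b)) fun x => z1 x _, p2, if_pos (e b).2, ← hc]; field_simp⟩)
  have k : ∀ a b : S, S.card * π a (e b) = ∑ τ, if τ a = b then w τ else 0 := by
    intro a b
    have := congrFun (congrFun hw a) b
    simp only [Matrix.of_apply, Matrix.sum_apply] at this
    rw [← this]
    refine sum_congr rfl fun τ _ => ?_
    simp [Equiv.Perm.permMatrix, PEquiv.toMatrix_apply, Equiv.toPEquiv_apply]
  have e1 : S.card * ∑ x, ∑ y, π x y * ρ x y = ∑ τ, w τ * ∑ a : S, ρ a (e (τ a)) := by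
    rw [← t1 (fun x => ∑ y, π x y * ρ x y) fun x hx => by simp [z1 x _ hx], mul_sum]
    simp only [mul_sum]
    rw [sum_comm (γ := Equiv.Perm S)]
    refine sum_congr rfl fun a _ => ?_
    rw [← t2 (fun y => S.card * (π a y * ρ a y)) fun y hy => by simp [z2 _ y hy]]
    simp only [← mul_assoc, k, sum_mul]
    rw [sum_comm]
    simp
  rw [e1, ← one_mul (emd ρ S T), ← w1, sum_mul]
  refine sum_le_sum fun τ _ => mul_le_mul_of_nonneg_left ?_ (w0 τ)
  obtain ⟨σ, h1, h2⟩ := bij_of_equiv (τ.trans e)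
  refine (emd_le ρ h1).trans (le_of_eq ?_)
  rw [cost, ← sum_coe_sort]
  exact sum_congr rfl fun a _ => by rw [h2]; rfl

lemma coup (ρ : M → M → ℝ) {S T : Finset M} {σ : M → M} (h : Set.BijOn σ S T) :
    ∃ π : M → M → ℝ, (∀ x y, 0 ≤ π x y) ∧
      (∀ x, ∑ y, π x y = if x ∈ S then 1 / (S.card : ℝ) else 0) ∧
      (∀ y, ∑ x, π x y = if y ∈ T then 1 / (T.card : ℝ) else 0) ∧
      ∑ x, ∑ y, π x y * ρ x y = cost ρ S σ / S.card := by
  refine ⟨fun x y => if σ x = y then if x ∈ S then 1 / (S.card : ℝ) else 0 else 0,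
    fun x y => by positivity, fun x => by simp, fun y => ?_, ?_⟩
  · dsimp only
    by_cases hy : y ∈ T <;> simp only [hy, if_true, if_false]
    · obtain ⟨x, hx, rfl⟩ := h.surjOn hy
      rw [sum_eq_single x (fun z _ hz => ?_) (by simp), if_pos rfl, if_pos (mem_coe.1 hx),
        h.finsetCard_eq]
      split_ifs with h1 h2
      exacts [(hz (h.injOn h2 hx h1)).elim, rfl, rfl]
    · refine sum_eq_zero fun x _ => ?_
      split_ifs with h1 h2
      exacts [(hy (h1 ▸ h.mapsTo h2)).elim, rfl, rfl]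
  · simp only [ite_mul, zero_mul, sum_ite_eq, mem_univ, if_true, sum_ite_mem, univ_inter, cost,
      sum_div]
    exact sum_congr rfl fun _ _ => by ring

end Pool.Agent.Lib.helper16.EmD
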