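import Mathlib

/-! A locally nilpotent, hyperabelian matrix group over `F₂[e₀,e₁,…]/(eᵢ²)` with a bounded Engel
involution `x` such that no element congruent to `x` generates a subnormal subgroup. -/

namespace Pool.Agent.Lib.helper16.EngA

open Matrix MvPolynomial

noncomputable section

def I0 : Ideal (MvPolynomial ℕ (ZMod 2)) :=
  Ideal.span ((fun s => monomial s 1) '' Set.range (fun i : ℕ => Finsupp.single i 2))

def R : Type := MvPolynomial ℕ (ZMod 2) ⧸ I0

instance : CommRing R := inferInstanceAs (CommRing (MvPolynomial ℕ (ZMod 2) ⧸ I0))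

def mk0 : MvPolynomial ℕ (ZMod 2) →+* R := Ideal.Quotient.mk I0

lemma mk0_zero {p : MvPolynomial ℕ (ZMod 2)} : mk0 p = 0 ↔ p ∈ I0 := Ideal.Quotient.eq_zero_iff_mem

lemma X_sq (i : ℕ) : (X i : MvPolynomial ℕ (ZMod 2)) ^ 2 ∈ I0 :=
  Ideal.subset_span ⟨_, ⟨i, rfl⟩, (X_pow_eq_monomial).symm⟩

def ρ : R →+* ZMod 2 := Ideal.Quotient.lift I0 constantCoeff (fun a ha => by
  refine (Ideal.span_le (I := RingHom.ker constantCoeff)).2 ?_ ha
  rintro _ ⟨_, ⟨i, rfl⟩, rfl⟩
  simp [← X_pow_eq_monomial])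

def ι : ZMod 2 →+* R := mk0.comp C

def e (i : ℕ) : R := mk0 (X i)

lemma ρι (c : ZMod 2) : ρ (ι c) = c := by
  show constantCoeff (C c : MvPolynomial ℕ (ZMod 2)) = c
  simp

lemma ρe (i : ℕ) : ρ (e i) = 0 := by
  show constantCoeff (X i : MvPolynomial ℕ (ZMod 2)) = 0
  simp

lemma two : (2 : R) = 0 := by
  rw [← map_ofNat ι 2]
  exact map_zero ι

lemma ee (i : ℕ) : e i * e i = 0 := by
  rw [e, ← map_mul, mk0_zero, ← sq]
  exact X_sq i

lemma dev_mem (r : R) : r - ι (ρ r) ∈ Ideal.span (Set.range e) := by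
  obtain ⟨p, rfl⟩ : ∃ p, mk0 p = r := Ideal.Quotient.mk_surjective r
  induction p using MvPolynomial.induction_on with
  | C a =>
    have : mk0 (C a) = ι a := rfl
    simp [this, ρι]
  | add p q hp hq =>
    convert add_mem hp hq using 1
    simp only [map_add]
    ring
  | mul_X p i _ =>
    have : mk0 (p * X i) = mk0 p * e i := rfl
    rw [this, map_mul, ρe, mul_zero, map_zero, sub_zero]
    exact Ideal.mul_mem_left _ _ (Ideal.subset_span ⟨i, rfl⟩)

lemma ker_le {r : R} (h : ρ r = 0) : r ∈ Ideal.span (Set.range e) := by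
  simpa [h] using dev_mem r

lemma sq0 {r : R} (h : ρ r = 0) : r * r = 0 := by
  have := ker_le h
  clear h
  induction this using Submodule.span_induction with
  | mem x hx => obtain ⟨i, rfl⟩ := hx; exact ee i
  | zero => simp
  | add x y _ _ hx hy => linear_combination hx + hy + x * y * two
  | smul a x _ hx => rw [smul_eq_mul]; linear_combination a * a * hx

lemma prod_ne (A : Finset ℕ) : ∏ i ∈ A, e i ≠ 0 := by
  intro h
  simp only [e] at h
  rw [← map_prod, mk0_zero] at h
  have e1 : ∏ i ∈ A, (X i : MvPolynomial ℕ (ZMod 2)) =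
      monomial (∑ i ∈ A, Finsupp.single i 1) 1 := by
    rw [monomial_sum_one]; rfl
  rw [e1, I0, mem_ideal_span_monomial_image] at h
  obtain ⟨_, ⟨i, rfl⟩, hi⟩ := h (∑ i ∈ A, Finsupp.single i 1) (by simp)
  have := hi i
  simp [Finsupp.finsetSum_apply, Finsupp.single_apply] at this
  split_ifs at this <;> omega

lemma span_pow (s : Finset R) (hs : ∀ r ∈ s, ρ r = 0) :
    Ideal.span (s : Set R) ^ (2 * s.card + 1) = ⊥ := by
  classical
  induction s using Finset.induction_on with
  | empty => simp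
  | insert a s ha ih =>
    rw [Finset.card_insert_of_notMem ha, Finset.coe_insert, Ideal.span_insert, eq_bot_iff,
      show 2 * (s.card + 1) + 1 = 2 + (2 * s.card + 1) by ring]
    refine Ideal.sup_pow_add_le_pow_sup_pow.trans ?_
    rw [ih (fun r hr => hs r (Finset.mem_insert_of_mem hr)), Ideal.span_singleton_pow, sq,
      sq0 (hs a (Finset.mem_insert_self _ _))]
    simp

abbrev M (S : Type) := Matrix (Fin 3) (Fin 3) S

def X0 (S : Type) [CommRing S] : M S := !![1, 0, 1; 0, 1, 0; 0, 0, 1]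
def Q0 (S : Type) [CommRing S] : M S := !![0, 0, 1; 0, 1, 0; 1, 0, 1]

lemma map_X0 {S T : Type} [CommRing S] [CommRing T] (f : S →+* T) :
    f.mapMatrix (X0 S) = X0 T := by
  ext i j; fin_cases i <;> fin_cases j <;> simp [X0]

lemma XX : X0 R * X0 R = 1 := by
  ext i j; fin_cases i <;> fin_cases j <;> simp [X0, mul_apply, Fin.sum_univ_three]
  linear_combination two

def xu : (M R)ˣ := ⟨X0 R, X0 R, XX, XX⟩

/-- Units congruent to `1` or `X0` under `f`. -/
def Cg {S : Type} [CommRing S] (f : R →+* S) : Subgroup (M R)ˣ where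
  carrier := {g | f.mapMatrix g.1 = 1 ∨ f.mapMatrix g.1 = f.mapMatrix (X0 R)}
  one_mem' := Or.inl (map_one _)
  mul_mem' := by
    rintro a b (ha | ha) (hb | hb) <;>
      simp only [Set.mem_ofPred_eq, Units.val_mul, map_mul, ha, hb, one_mul, mul_one, true_or,
        or_true]
    rw [← map_mul, XX, map_one]
    exact Or.inl rfl
  inv_mem' := by
    have e : ∀ a : (M R)ˣ, f.mapMatrix a⁻¹.1 * f.mapMatrix a.1 = 1 := fun a => by
      rw [← map_mul, Units.inv_mul, map_one]
    rintro a (ha | ha)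
    · exact Or.inl (by rw [← e a, ha, mul_one])
    · refine Or.inr ?_
      rw [← mul_one (f.mapMatrix a⁻¹.1), ← map_one f.mapMatrix, ← XX, map_mul, ← mul_assoc,
        ← ha, e, one_mul]

def Og : Subgroup (M R)ˣ where
  carrier := {g | g.1ᵀ * Q0 R * g.1 = Q0 R}
  one_mem' := by simp
  mul_mem' := by
    intro a b ha hb
    simp only [Set.mem_ofPred_eq, Units.val_mul, transpose_mul] at *
    calc _ = b.1ᵀ * (a.1ᵀ * Q0 R * a.1) * b.1 := by simp only [mul_assoc]
      _ = _ := by rw [ha, hb]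
  inv_mem' := by
    intro a ha
    simp only [Set.mem_ofPred_eq] at *
    calc _ = (a.1 * a⁻¹.1)ᵀ * Q0 R * (a.1 * a⁻¹.1) := by
          conv_lhs => rw [← ha]
          simp only [mul_assoc, transpose_mul]
      _ = _ := by simp

def GG : Subgroup (M R)ˣ := Og ⊓ Cg ρ

abbrev G := ↥GG

def x : G := ⟨xu, by
  show (X0 R)ᵀ * Q0 R * X0 R = Q0 R
  ext i j; fin_cases i <;> fin_cases j <;> simp [X0, Q0, mul_apply, Fin.sum_univ_three]
  all_goals linear_combination two, Or.inr rfl⟩

/-! ### Nilpotency -/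

def F (J : Ideal R) (k : ℕ) (A : M R) : Prop := ∀ i j : Fin 3, A i j ∈ J ^ ((k + i + 2 - j) / 3)

lemma F_mul {J : Ideal R} {k l : ℕ} {A B : M R} (hA : F J k A) (hB : F J l B) :
    F J (k + l) (A * B) := by
  intro i j
  rw [mul_apply]
  refine Ideal.sum_mem _ fun t _ => ?_
  have := Ideal.mul_mem_mul (hA i t) (hB t j)
  rw [← pow_add] at this
  refine Ideal.pow_le_pow_right ?_ this
  omega

lemma F_one {J : Ideal R} {g : (M R)ˣ} (hg : g ∈ Cg (Ideal.Quotient.mk J)) : F J 1 (g.1 - 1) := by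
  intro i j
  by_cases h : i < j
  · rw [show (1 + i + 2 - j : ℕ) / 3 = 0 by omega]; simp
  rw [show (1 + i + 2 - j : ℕ) / 3 = 1 by omega, pow_one, ← Ideal.Quotient.eq_zero_iff_mem]
  have : Ideal.Quotient.mk J ((g.1 - 1) i j) =
    ((Ideal.Quotient.mk J).mapMatrix (g.1 - 1)) i j := rfl
  rw [this, map_sub, map_one]
  rcases hg with hg | hg <;> rw [hg]
  · simp
  · rw [map_X0]
    fin_cases i <;> fin_cases j <;> simp [X0] at h ⊢

lemma F_zero {J : Ideal R} {g : (M R)ˣ} (hg : g ∈ Cg (Ideal.Quotient.mk J)) : F J 0 g.1 := by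
  intro i j
  have : g.1 i j = (g.1 - 1) i j + (1 : M R) i j := by simp
  rw [this]
  refine add_mem (Ideal.pow_le_pow_right (by omega) (F_one hg i j)) ?_
  by_cases h : i = j
  · rw [h, show (0 + j + 2 - j : ℕ) / 3 = 0 by omega]; simp
  · simp [h]

lemma F_comm {J : Ideal R} {g h : (M R)ˣ} {k : ℕ} (hg : g ∈ Cg (Ideal.Quotient.mk J))
    (hh : h ∈ Cg (Ideal.Quotient.mk J)) (H : F J k (g.1 - 1)) :
    F J (k + 1) ((g⁻¹ * h⁻¹ * g * h).1 - 1) := by
  have e : (g⁻¹ * h⁻¹ * g * h).1 - 1 =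
      (g⁻¹ * h⁻¹).1 * ((g.1 - 1) * (h.1 - 1) - (h.1 - 1) * (g.1 - 1)) := by
    have : (1 : M R) = (g⁻¹ * h⁻¹).1 * (h.1 * g.1) := by
      rw [← Units.val_mul, ← Units.val_mul]; simp
    conv_lhs => rw [this]
    simp only [Units.val_mul]
    noncomm_ring
  rw [e, ← zero_add (k + 1)]
  refine F_mul (F_zero (mul_mem (inv_mem hg) (inv_mem hh))) fun i j => sub_mem
    (F_mul H (F_one hh) i j) ?_
  rw [add_comm k]
  exact F_mul (F_one hh) H i j

lemma fold_F (J : Ideal R) (hs : List G) : ∀ (g : G) (k : ℕ), g.1 ∈ Cg (Ideal.Quotient.mk J) →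
    (∀ h ∈ hs, h.1 ∈ Cg (Ideal.Quotient.mk J)) → F J k (g.1.1 - 1) →
    F J (k + hs.length) ((hs.foldl (fun a b : G => a⁻¹ * b⁻¹ * a * b) g).1.1 - 1) := by
  induction hs with
  | nil => exact fun g k _ _ h => h
  | cons h hs ih =>
    intro g k hg H hF
    have hh := H h (by simp)
    rw [List.length_cons, List.foldl_cons, add_comm hs.length, ← add_assoc]
    exact ih _ _ (mul_mem (mul_mem (mul_mem (inv_mem hg) (inv_mem hh)) hg) hh)
      (fun u hu => H u (by simp [hu])) (F_comm hg hh hF)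

open Classical in
def ent (g : G) : Finset R :=
  Finset.univ.image (fun p : Fin 3 × Fin 3 => g.1.1 p.1 p.2 - ι (ρ (g.1.1 p.1 p.2)))

lemma ent_ker (g : G) : ∀ r ∈ ent g, ρ r = 0 := by
  intro r hr
  simp only [ent, Finset.mem_image] at hr
  obtain ⟨p, -, rfl⟩ := hr
  simp [ρι]

lemma ent_card (g : G) : (ent g).card ≤ 9 := by
  classical
  unfold ent
  convert Finset.card_image_le
  simp

lemma ent_mem (g : G) {J : Ideal R} (h : (ent g : Set R) ⊆ J) :
    g.1 ∈ Cg (Ideal.Quotient.mk J) := by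
  have : (Ideal.Quotient.mk J).mapMatrix g.1.1 =
      (Ideal.Quotient.mk J).mapMatrix (ι.mapMatrix (ρ.mapMatrix g.1.1)) := by
    ext i j
    exact Ideal.Quotient.eq.2 (h (by
      simp only [ent, Finset.coe_image]; exact ⟨(i, j), by simp, rfl⟩))
  rcases g.2.2 with e | e
  · exact Or.inl (by rw [this, e, map_one, map_one])
  · exact Or.inr (by rw [this, e, map_X0, map_X0])

/-- Finitely generated subgroups are nilpotent, with an explicit bound. -/
lemma nilp (s : Finset G) (g : G) (hg : g ∈ Subgroup.closure (s : Set G)) (hs : List G)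
    (hl : 3 * (2 * (s.card * 9) + 1) ≤ hs.length) (H : ∀ b ∈ hs, b ∈ Subgroup.closure (s : Set G)) :
    hs.foldl (fun a b : G => a⁻¹ * b⁻¹ * a * b) g = 1 := by
  classical
  let J := Ideal.span ((s.biUnion ent : Finset R) : Set R)
  have hJ : J ^ (2 * (s.biUnion ent).card + 1) = ⊥ := span_pow _ fun r hr => by
    obtain ⟨g, -, hg⟩ := Finset.mem_biUnion.1 hr
    exact ent_ker g r hg
  have hc : (s.biUnion ent).card ≤ s.card * 9 :=
    Finset.card_biUnion_le_card_mul _ _ _ fun g _ => ent_card g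
  have : Subgroup.closure (s : Set G) ≤ (Cg (Ideal.Quotient.mk J)).subgroupOf GG :=
    (Subgroup.closure_le _).2 fun g hg => ent_mem g fun r hr =>
      Ideal.subset_span (Finset.mem_biUnion.2 ⟨g, hg, hr⟩)
  have := fold_F J hs g 1 (this hg) (fun h hh => this (H h hh)) (F_one (this hg))
  refine Subtype.ext (Units.ext (sub_eq_zero.1 (Matrix.ext fun i j => ?_)))
  have h2 := Ideal.pow_le_pow_right (I := J) (show 2 * (s.biUnion ent).card + 1 ≤
    (1 + hs.length + i + 2 - j) / 3 by omega) (this i j)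
  rwa [hJ] at h2

lemma engel (a b : G) : (fun y : G => y⁻¹ * b⁻¹ * y * b)^[111] a = 1 := by
  classical
  have : ∀ n a, (fun y : G => y⁻¹ * b⁻¹ * y * b)^[n] a =
      (List.replicate n b).foldl (fun a b : G => a⁻¹ * b⁻¹ * a * b) a := by
    intro n
    induction n with
    | zero => exact fun _ => rfl
    | succ n ih => exact fun a => ih _
  rw [this]
  have hc : ({a, b} : Finset G).card ≤ 2 := Finset.card_le_two
  refine nilp {a, b} a (Subgroup.subset_closure (by simp)) _ (by simp; omega) fun u hu => ?_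
  rw [List.eq_of_mem_replicate hu]
  exact Subgroup.subset_closure (by simp)

end

end Pool.Agent.Lib.helper16.EngA
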