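import Pool.Agent.Lib.helper16.EngA

namespace Pool.Agent.Lib.helper16.EngA

open Matrix

noncomputable section

def W (H : Subgroup G) (k : ℕ) (Y : M (ZMod 2)) : Prop :=
  ∀ A : Finset ℕ, k ≤ A.card → ∃ N : M R, ρ.mapMatrix N = Y ∧
    ∃ h ∈ H, h.1.1 = 1 + (∏ i ∈ A, e i) • N

lemma rr {A : Finset ℕ} (h : 1 ≤ A.card) : ρ (∏ i ∈ A, e i) = 0 := by
  obtain ⟨i, hi⟩ := Finset.card_pos.1 h
  rw [map_prod]
  exact Finset.prod_eq_zero hi (ρe i)

lemma inv_val {h : G} {r : R} {N : M R} (hr : r * r = 0) (e : h.1.1 = 1 + r • N) :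
    h⁻¹.1.1 = 1 - r • N := by
  refine Units.inv_eq_of_mul_eq_one_right ?_
  rw [e]
  have : r • N * r • N = 0 := by rw [smul_mul_smul_comm, hr, zero_smul]
  generalize r • N = a at this
  calc _ = 1 - a * a := by noncomm_ring
    _ = 1 := by rw [this, sub_zero]

lemma inv_X {y : G} (hy : ρ.mapMatrix y.1.1 = X0 _) : ρ.mapMatrix y⁻¹.1.1 = X0 _ := by
  have e : ρ.mapMatrix y⁻¹.1.1 * ρ.mapMatrix y.1.1 = 1 := by
    rw [← map_mul]
    exact (congrArg _ (Units.inv_mul y.1)).trans (map_one _)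
  have e2 : X0 (ZMod 2) * X0 (ZMod 2) = 1 := by decide
  rw [← mul_one (ρ.mapMatrix _), ← e2, ← mul_assoc]
  nth_rewrite 1 [← hy]
  rw [e, one_mul]

lemma comm_val {h y : G} {r : R} {N : M R} (hr : r * r = 0) (e : h.1.1 = 1 + r • N) :
    (h⁻¹ * y⁻¹ * h * y).1.1 = 1 + r • (y⁻¹.1.1 * N * y.1.1 - N) := by
  have e1 : y⁻¹.1.1 * y.1.1 = 1 := Units.inv_mul y.1
  have e2 : ∀ B : M R, r • N * (r • B) = 0 := fun B => by rw [smul_mul_smul_comm, hr, zero_smul]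
  show h⁻¹.1.1 * y⁻¹.1.1 * h.1.1 * y.1.1 = _
  rw [inv_val hr e, e]
  calc _ = (1 - r • N) * (y⁻¹.1.1 * y.1.1 + r • (y⁻¹.1.1 * N * y.1.1)) := by
        simp only [mul_assoc, add_mul, mul_add, one_mul, smul_mul_assoc, mul_smul_comm]
    _ = _ := by rw [e1, sub_mul, one_mul, mul_add, e2, mul_one, smul_sub]; abel

lemma W1 {H H' : Subgroup G} (hn : ∀ a ∈ H, ∀ b ∈ H', a * b * a⁻¹ ∈ H') {y : G} (hy : y ∈ H')
    (hX : ρ.mapMatrix y.1.1 = X0 _) {k : ℕ} (hk : 1 ≤ k) {Y : M (ZMod 2)} (h : W H k Y) :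
    W H' k (X0 _ * Y * X0 _ - Y) := by
  intro A hA
  obtain ⟨N, hN, h, hh, e⟩ := h A hA
  refine ⟨_, ?_, _, ?_, comm_val (y := y) (sq0 (rr (hk.trans hA))) e⟩
  · rw [map_sub, map_mul, map_mul, hN, hX, inv_X hX]
  · exact mul_mem (by simpa using hn _ (inv_mem hh) _ (inv_mem hy)) hy

lemma W2 {H H' : Subgroup G} (hn : ∀ a ∈ H, ∀ b ∈ H', a * b * a⁻¹ ∈ H') {k l : ℕ} (hk : 1 ≤ k)
    (hl : 1 ≤ l) {Y Z : M (ZMod 2)} (h : W H' k Y) (h' : W H l Z) :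
    W H' (k + l) (Y * Z - Z * Y) := by
  classical
  intro A hA
  obtain ⟨B, hB, hc⟩ := Finset.exists_subset_card_eq (show k ≤ A.card by omega)
  have hd : l ≤ (A \ B).card := by rw [Finset.card_sdiff_of_subset hB]; omega
  obtain ⟨N, hN, g, hg, e1⟩ := h B hc.ge
  obtain ⟨P, hP, u, hu, e2⟩ := h' _ hd
  have r1 := sq0 (rr (hk.trans hc.ge))
  have r2 := sq0 (rr (hl.trans hd))
  refine ⟨N * P - P * N, by rw [map_sub, map_mul, map_mul, hN, hP], g * (u * g⁻¹ * u⁻¹),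
    mul_mem hg (hn _ hu _ (inv_mem hg)), ?_⟩
  show g.1.1 * (u.1.1 * g⁻¹.1.1 * u⁻¹.1.1) = _
  rw [inv_val r1 e1, inv_val r2 e2, e1, e2, ← Finset.prod_sdiff hB]
  generalize ∏ i ∈ B, e i = r at r1 ⊢
  generalize ∏ i ∈ A \ B, e i = s at r2 ⊢
  have a2 : s * (r * s) = 0 := by linear_combination r * r2
  have a4 : r * (r * s) = 0 := by linear_combination s * r1
  simp only [mul_add, add_mul, mul_sub, sub_mul, one_mul, mul_one, smul_mul_assoc, mul_smul_comm,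
    smul_smul, smul_add, smul_sub, r1, r2, mul_comm s r, zero_smul, mul_zero,
    mul_assoc, a2, a4]
  abel

def Y1 : M (ZMod 2) := !![0, 1, 0; 1, 0, 0; 0, 1, 0]
def Y2 : M (ZMod 2) := !![1, 0, 1; 0, 0, 0; 0, 0, 1]
def Y3 : M (ZMod 2) := !![0, 1, 0; 0, 0, 1; 0, 0, 0]
def Y4 : M (ZMod 2) := !![0, 0, 0; 1, 0, 1; 0, 1, 0]

lemma W3 {H H' : Subgroup G} (hn : ∀ a ∈ H, ∀ b ∈ H', a * b * a⁻¹ ∈ H') {y : G} (hy : y ∈ H')
    (hX : ρ.mapMatrix y.1.1 = X0 _) {k : ℕ} (hk : 1 ≤ k) (h : W H k Y1 ∧ W H k Y4) :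
    W H' (3 * k) Y1 ∧ W H' (3 * k) Y4 := by
  have a := W1 hn hy hX hk h.1
  rw [show X0 _ * Y1 * X0 _ - Y1 = Y3 by decide] at a
  have b := W2 hn hk hk a h.1
  rw [show Y3 * Y1 - Y1 * Y3 = Y2 by decide] at b
  have c := W2 hn (by omega) hk b h.1
  have d := W2 hn (by omega) hk b h.2
  rw [show Y2 * Y1 - Y1 * Y2 = Y4 by decide] at c
  rw [show Y2 * Y4 - Y4 * Y2 = Y1 by decide] at d
  rw [show 3 * k = k + k + k by ring]
  exact ⟨d, c⟩

lemma W_top (Y : M (ZMod 2)) (hY : Yᵀ * Q0 _ + Q0 _ * Y = 0) : W ⊤ 1 Y := by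
  intro A hA
  have hr := rr hA
  have r2 := sq0 hr
  generalize ∏ i ∈ A, e i = r at hr r2
  have e2 : ∀ B C : M R, r • B * (r • C) = 0 := fun B C => by
    rw [smul_mul_smul_comm, r2, zero_smul]
  have hQ : ι.mapMatrix (Q0 _) = Q0 R := by
    ext i j; fin_cases i <;> fin_cases j <;> simp [Q0]
  have hN : (ι.mapMatrix Y)ᵀ * Q0 R + Q0 R * ι.mapMatrix Y = 0 := by
    have := congrArg ι.mapMatrix hY
    rw [map_add, map_mul, map_mul, hQ, map_zero] at this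
    exact this
  refine ⟨ι.mapMatrix Y, by ext i j; simp [ρι], ⟨⟨1 + r • ι.mapMatrix Y, 1 - r • ι.mapMatrix Y,
    ?_, ?_⟩, ?_, Or.inl ?_⟩, trivial, rfl⟩
  · rw [add_mul, mul_sub, mul_sub, e2]; simp
  · rw [sub_mul, mul_add, mul_add, e2]; simp
  · show (1 + r • ι.mapMatrix Y)ᵀ * Q0 R * (1 + r • ι.mapMatrix Y) = Q0 R
    rw [transpose_add, transpose_one, transpose_smul, add_mul, add_mul, one_mul, mul_add, mul_add,
      smul_mul_assoc r _ (Q0 R), e2, mul_one, mul_one, mul_smul_comm, add_zero, add_assoc,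
      ← smul_add, add_comm (Q0 R * _), hN, smul_zero, add_zero]
  · ext i j
    simp [hr, one_apply]

/-- No element congruent to `x` generates a subnormal subgroup. -/
lemma not_subnormal {y : G} (hX : ρ.mapMatrix y.1.1 = X0 _) (n : ℕ) (K : ℕ → Subgroup G)
    (h0 : K 0 = Subgroup.zpowers y) (hn : W (K n) 3 Y1 ∧ W (K n) 3 Y4)
    (H : ∀ i < n, K i ≤ K (i + 1) ∧ ∀ a ∈ K (i + 1), ∀ b ∈ K i, a * b * a⁻¹ ∈ K i) : False := by
  have hy : ∀ i ≤ n, y ∈ K i := by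
    intro i
    induction i with
    | zero => exact fun _ => h0 ▸ Subgroup.mem_zpowers y
    | succ i ih => exact fun hi => (H i hi).1 (ih (by omega))
  have : ∀ j i, i + j = n → W (K i) (3 ^ (j + 1)) Y1 ∧ W (K i) (3 ^ (j + 1)) Y4 := by
    intro j
    induction j with
    | zero => rintro i rfl; exact hn
    | succ j ih =>
      intro i hi
      rw [pow_succ']
      exact W3 (H i (by omega)).2 (hy i (by omega)) hX (Nat.one_le_pow _ _ (by norm_num))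
        (ih (i + 1) (by omega))
  obtain ⟨N, hN, h, hh, e⟩ := (this n 0 (by simp)).1 (Finset.range (3 ^ (n + 1))) (by simp)
  have hr := rr (A := Finset.range (3 ^ (n + 1))) (by simpa using Nat.one_le_pow _ _ (by norm_num))
  have c := comm_val (y := y) (sq0 hr) e
  rw [h0] at hh
  obtain ⟨k, rfl⟩ := Subgroup.mem_zpowers_iff.1 hh
  rw [show (y ^ k)⁻¹ * y⁻¹ * y ^ k * y = 1 by group] at c
  have c2 : _ * (y⁻¹.1.1 * N * y.1.1 - N) 0 1 = 0 := congrFun (congrFun (left_eq_add.1 c) 0) 1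
  have c3 : ρ.mapMatrix (y⁻¹.1.1 * N * y.1.1 - N) = Y3 := by
    rw [map_sub, map_mul, map_mul, hN, hX, inv_X hX]; decide
  have c4 : ρ ((y⁻¹.1.1 * N * y.1.1 - N) 0 1 - 1) = 0 := by
    rw [map_sub, map_one, sub_eq_zero]
    exact congrFun (congrFun c3 0) 1
  have c5 := sq0 c4
  apply prod_ne (Finset.range (3 ^ (n + 1)))
  generalize (y⁻¹.1.1 * N * y.1.1 - N) 0 1 = u at c2 c5
  linear_combination (∏ i ∈ Finset.range (3 ^ (n + 1)), EngA.e i) * c5 + (2 - u) * c2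

lemma W_norm {H : Subgroup G} [hH : H.Normal] (hx : x ∈ H) : W H 3 Y1 ∧ W H 3 Y4 :=
  W3 (H := ⊤) (fun a _ b hb => hH.conj_mem b hb a) hx (map_X0 _) le_rfl
    ⟨W_top _ (by decide), W_top _ (by decide)⟩

/-- The congruence subgroups. -/
def Kr {S : Type} [CommRing S] (f : R →+* S) : Subgroup G :=
  (f.mapMatrix.toMonoidHom.comp ((Units.coeHom (M R)).comp GG.subtype)).ker

instance {S : Type} [CommRing S] (f : R →+* S) : (Kr f).Normal := MonoidHom.normal_ker _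

lemma x_not_baer : x ∉ Subgroup.closure {y : G | ∃ n : ℕ, ∃ K : ℕ → Subgroup G,
    K 0 = Subgroup.zpowers y ∧ K n = ⊤ ∧ ∀ i : ℕ, i < n → (K i ≤ K (i + 1) ∧
      ∀ a : G, a ∈ K (i + 1) → ∀ b : G, b ∈ K i → a * b * a⁻¹ ∈ K i)} := by
  intro h
  have : x ∈ Kr ρ := by
    refine (Subgroup.closure_le _).2 ?_ h
    rintro y ⟨n, K, h0, hn, H⟩
    rcases y.2.2 with e | e
    · exact e
    · exact (not_subnormal (e.trans (map_X0 _)) n K h0 (hn ▸ W_norm trivial) H).elim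
  have : ρ.mapMatrix (X0 R) = 1 := this
  rw [map_X0] at this
  exact absurd this (by decide)

lemma mem_Kr {J : Ideal R} {g : G} :
    g ∈ Kr (Ideal.Quotient.mk J) ↔ ∀ i j, (g.1.1 - 1) i j ∈ J := by
  show (Ideal.Quotient.mk J).mapMatrix g.1.1 = 1 ↔ _
  rw [← map_one (Ideal.Quotient.mk J).mapMatrix, ← Matrix.ext_iff]
  exact forall₂_congr fun i j => Ideal.Quotient.eq

lemma Kr_comm {I J : Ideal R} (h : J * J ≤ I) {a b : G} (ha : a ∈ Kr (Ideal.Quotient.mk J))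
    (hb : b ∈ Kr (Ideal.Quotient.mk J)) : a * b * a⁻¹ * b⁻¹ ∈ Kr (Ideal.Quotient.mk I) := by
  have z : ∀ u v : G, u ∈ Kr (Ideal.Quotient.mk J) → v ∈ Kr (Ideal.Quotient.mk J) →
      (Ideal.Quotient.mk I).mapMatrix ((u.1.1 - 1) * (v.1.1 - 1)) = 0 := by
    intro u v hu hv
    ext i j
    refine Ideal.Quotient.eq_zero_iff_mem.2 ?_
    rw [mul_apply]
    exact Ideal.sum_mem _ fun t _ => h (Ideal.mul_mem_mul (mem_Kr.1 hu _ _) (mem_Kr.1 hv _ _))
  have z1 := z a b ha hb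
  have z2 := z b a hb ha
  have : ∀ f : G →* M (R ⧸ I), f a * f b = f b * f a → f (a * b * a⁻¹ * b⁻¹) = 1 := by
    intro f hf
    rw [map_mul, map_mul, map_mul, hf, ← map_mul, ← map_mul, ← map_mul]
    simp
  apply this
  show (Ideal.Quotient.mk I).mapMatrix a.1.1 * (Ideal.Quotient.mk I).mapMatrix b.1.1 =
    (Ideal.Quotient.mk I).mapMatrix b.1.1 * (Ideal.Quotient.mk I).mapMatrix a.1.1
  simp only [map_mul, map_sub, map_one] at z1 z2
  generalize (Ideal.Quotient.mk I).mapMatrix a.1.1 = p at z1 z2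
  generalize (Ideal.Quotient.mk I).mapMatrix b.1.1 = q at z1 z2
  calc p * q = (p - 1) * (q - 1) - (q - 1) * (p - 1) + q * p := by noncomm_ring
    _ = _ := by rw [z1, z2]; simp

lemma top_comm (a b : G) :
    a * b * a⁻¹ * b⁻¹ ∈ Kr (Ideal.Quotient.mk (Ideal.span (Set.range e))) := by
  have : a * b * a⁻¹ * b⁻¹ ∈ Kr ρ := by
    have e1 : ∀ u : G, ρ.mapMatrix u.1.1 = 1 ∨ ρ.mapMatrix u.1.1 = X0 _ := fun u =>
      u.2.2.imp id fun h => h.trans (map_X0 _)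
    have e2 : ∀ u : G, ρ.mapMatrix u⁻¹.1.1 = ρ.mapMatrix u.1.1 := fun u => by
      rcases e1 u with h | h
      · rw [h]; exact (Kr ρ).inv_mem h
      · rw [h, inv_X h]
    show ρ.mapMatrix (a.1.1 * b.1.1 * a⁻¹.1.1 * b⁻¹.1.1) = 1
    rw [map_mul, map_mul, map_mul, e2, e2]
    rcases e1 a with h | h <;> rcases e1 b with h' | h' <;> rw [h, h'] <;> decide
  refine mem_Kr.2 fun i j => ker_le ?_
  have h : ρ.mapMatrix ((a * b * a⁻¹ * b⁻¹).1.1 - 1) = 0 := by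
    rw [map_sub, map_one, sub_eq_zero]; exact this
  exact congrFun (congrFun h i) j

end

end Pool.Agent.Lib.helper16.EngA
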