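import Pool.Agent.Lib.helper16.EngB

/-! The involution `x` is a right 5-Engel element: a computation in the universal ring. -/

namespace Pool.Agent.Lib.helper16.EngA

open Matrix

def tm : ℕ → ℕ → ℕ → ℕ
  | 0, a, b => a % 2 * (b % 2)
  | k + 1, a, b => bif Nat.beq a 0 || Nat.beq b 0 then 0 else
      tm k (a % 2 ^ 2 ^ k) (b % 2 ^ 2 ^ k) % 2 ^ 2 ^ k + 2 ^ 2 ^ k *
        (tm k (a % 2 ^ 2 ^ k) (b / 2 ^ 2 ^ k) ^^^ tm k (a / 2 ^ 2 ^ k) (b % 2 ^ 2 ^ k))

def tf (a : ℕ) (f : ℕ → Bool) : Bool := @Nat.rec (fun _ => Bool) (f 0) (fun m _ => f (m + 1)) a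

lemma tf_eq (a : ℕ) (f : ℕ → Bool) : tf a f = f a := by cases a <;> rfl

noncomputable def ev (v : ℕ → R) : ℕ → ℕ → R
  | 0, a => (a % 2 : ℕ)
  | k + 1, a => ev v k (a % 2 ^ 2 ^ k) + v k * ev v k (a / 2 ^ 2 ^ k)

variable {v : ℕ → R}

lemma ev_z : ∀ k, ev v k 0 = 0
  | 0 => by simp [ev]
  | k + 1 => by simp [ev, ev_z k]

lemma ev_mod : ∀ k a, ev v k (a % 2 ^ 2 ^ k) = ev v k a
  | 0, a => by simp [ev]
  | k + 1, a => by
    rw [ev, ev, pow_succ 2 k, pow_mul, sq, Nat.mod_mul_right_mod, Nat.mod_mul_right_div_self,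
      ev_mod k (a / _)]

lemma ev_a : ∀ k a b, ev v k (a ^^^ b) = ev v k a + ev v k b
  | 0, a, b => by
    have := Nat.xor_mod_two_pow (a := a) (b := b) (n := 1)
    simp only [ev, pow_one] at this ⊢
    rw [this]
    rcases Nat.mod_two_eq_zero_or_one a with h | h <;>
      rcases Nat.mod_two_eq_zero_or_one b with h' | h' <;> simp [h, h']
    linear_combination -two
  | k + 1, a, b => by
    simp only [ev, Nat.xor_mod_two_pow, Nat.xor_div_two_pow, ev_a k]; ring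

lemma ev_m (hv : ∀ j, v j * v j = 0) : ∀ k a b, ev v k (tm k a b) = ev v k a * ev v k b
  | 0, a, b => by
    simp only [ev, tm]
    rcases Nat.mod_two_eq_zero_or_one a with h | h <;> simp [h]
  | k + 1, a, b => by
    rw [tm]
    cases h : Nat.beq a 0 || Nat.beq b 0
    · have p : 0 < 2 ^ 2 ^ k := by positivity
      rw [cond_false, ev, ev, ev, Nat.add_mul_mod_self_left, Nat.mod_mod, ev_mod,
        Nat.add_mul_div_left _ _ p, Nat.mod_div_self, zero_add, ev_a, ev_m hv k, ev_m hv k,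
        ev_m hv k]
      linear_combination (-(ev v k (a / 2 ^ 2 ^ k) * ev v k (b / 2 ^ 2 ^ k))) * hv k
    · rcases Bool.or_eq_true_iff.1 h with h | h <;> simp [Nat.eq_of_beq_eq_true h, ev_z]

lemma ev_o : ev v 6 1 = 1 := by simp [ev]
lemma ev_0 : ev v 6 2 = v 0 := by simp [ev]
lemma ev_1 : ev v 6 4 = v 1 := by simp [ev]
lemma ev_2 : ev v 6 16 = v 2 := by simp [ev]
lemma ev_3 : ev v 6 256 = v 3 := by simp [ev]
lemma ev_4 : ev v 6 65536 = v 4 := by simp [ev]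
lemma ev_5 : ev v 6 4294967296 = v 5 := by simp [ev]

structure Mx where
  (a b c d e f g h i : ℕ)

def dot (a b c d e f : ℕ) : ℕ := tm 6 a b ^^^ tm 6 c d ^^^ tm 6 e f

def mx (A B : Mx) : Mx :=
  ⟨dot A.a B.a A.b B.d A.c B.g, dot A.a B.b A.b B.e A.c B.h, dot A.a B.c A.b B.f A.c B.i,
   dot A.d B.a A.e B.d A.f B.g, dot A.d B.b A.e B.e A.f B.h, dot A.d B.c A.e B.f A.f B.i,
   dot A.g B.a A.h B.d A.i B.g, dot A.g B.b A.h B.e A.i B.h, dot A.g B.c A.h B.f A.i B.i⟩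

def ax (A : Mx) : Mx :=
  ⟨A.g ^^^ A.i, A.d ^^^ A.f, A.a ^^^ A.c ^^^ A.g ^^^ A.i, A.h, A.e, A.b ^^^ A.h,
    A.g, A.d, A.a ^^^ A.g⟩

def fx (A : Mx) (k : Mx → Bool) : Bool :=
  tf A.a fun a => tf A.b fun b => tf A.c fun c => tf A.d fun d => tf A.e fun e =>
    tf A.f fun f => tf A.g fun g => tf A.h fun h => tf A.i fun i =>
      k ⟨a, b, c, d, e, f, g, h, i⟩

def chk (Y Y' : Mx) : ℕ → Mx → Bool
  | 0, Z => Nat.beq Z.a 1 && Nat.beq Z.b 0 && Nat.beq Z.c 0 && Nat.beq Z.d 0 && Nat.beq Z.e 1 &&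
      Nat.beq Z.f 0 && Nat.beq Z.g 0 && Nat.beq Z.h 0 && Nat.beq Z.i 1
  | n + 1, Z => fx (ax Z) fun W => fx (mx W Y') fun P => fx (mx P Z) fun S => fx (mx S Y) fun U =>
      chk Y Y' n U

noncomputable def eM (v : ℕ → R) (A : Mx) : M R :=
  !![ev v 6 A.a, ev v 6 A.b, ev v 6 A.c; ev v 6 A.d, ev v 6 A.e, ev v 6 A.f;
    ev v 6 A.g, ev v 6 A.h, ev v 6 A.i]

lemma fx_eq (A : Mx) (k : Mx → Bool) : fx A k = k A := by simp only [fx, tf_eq]

lemma eM_mx (hv : ∀ j, v j * v j = 0) (A B : Mx) : eM v (mx A B) = eM v A * eM v B := by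
  simp only [eM, mx, dot, ev_a, ev_m hv, mul_fin_three]

lemma eM_ax {g : G} {A : Mx} (h : g.1.1 = eM v A) : g⁻¹.1.1 = eM v (ax A) := by
  have e : g.1.1ᵀ * Q0 R * g.1.1 = Q0 R := g.2.1
  have q : (!![1, 0, 1; 0, 1, 0; 1, 0, 0] : M R) * Q0 R = 1 := by
    ext i j; fin_cases i <;> fin_cases j <;> simp [Q0, mul_apply, Fin.sum_univ_three]
    linear_combination two
  refine Units.inv_eq_of_mul_eq_one_left ?_
  rw [← q, ← e, ← mul_assoc]
  congr 1
  rw [h]
  ext i j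
  fin_cases i <;> fin_cases j <;> simp [eM, ax, ev_a, Q0, mul_apply, Fin.sum_univ_three]
  all_goals ring

lemma chk_ok (hv : ∀ j, v j * v j = 0) {y : G} {Y : Mx} (hy : y.1.1 = eM v Y) :
    ∀ (n : ℕ) (z : G) (Z : Mx), z.1.1 = eM v Z → chk Y (ax Y) n Z = true →
      (fun z : G => z⁻¹ * y⁻¹ * z * y)^[n] z = 1 := by
  intro n
  induction n with
  | zero =>
    intro z Z hz h
    simp only [chk, Bool.and_eq_true, Nat.beq_eq] at h
    obtain ⟨⟨⟨⟨⟨⟨⟨⟨a, b⟩, c⟩, d⟩, e⟩, f⟩, g⟩, h⟩, i⟩ := h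
    refine Subtype.ext (Units.ext (hz.trans ?_))
    simp only [eM, a, b, c, d, e, f, g, h, i, ev_o, ev_z]
    exact one_fin_three.symm
  | succ n ih =>
    intro z Z hz h
    simp only [chk, fx_eq] at h
    refine ih _ _ ?_ h
    rw [eM_mx hv, eM_mx hv, eM_mx hv, ← eM_ax hz, ← eM_ax hy, ← hz, ← hy]
    rfl

def XU : Mx := ⟨1, 0, 1, 0, 1, 0, 0, 0, 1⟩

def KU : Mx :=
  let E := 16 ^^^ 1; let I := 4294967296 ^^^ 1
  let A := tm 6 (tm 6 I (1 ^^^ tm 6 256 4)) (1 ^^^ dot 2 65536 2 I (tm 6 2 4) (tm 6 256 65536))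
  ⟨A, 4, 65536, tm 6 E (dot A 256 2 4 2 256), E, tm 6 E (dot 4 I 256 65536 256 I), 2, 256, I⟩

lemma c1 : fx KU (fun Y => fx (ax Y) fun Y' => chk Y Y' 5 XU) = true := by decide +kernel

lemma c2 : fx KU (fun K => fx (mx XU K) fun Y => fx (ax Y) fun Y' => chk Y Y' 5 XU) = true := by
  decide +kernel

lemma eX : x.1.1 = eM v XU := by simp only [eM, XU, ev_o, ev_z]; rfl

lemma param {k : G} (hk : ρ.mapMatrix k.1.1 = 1) :
    ∃ v : ℕ → R, (∀ j, v j * v j = 0) ∧ k.1.1 = eM v KU := by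
  have e : k.1.1ᵀ * Q0 R * k.1.1 = Q0 R := k.2.1
  generalize k.1.1 = N at hk e
  have r : ∀ i j, (N i j - (1 : M R) i j) * (N i j - (1 : M R) i j) = 0 := fun i j => sq0 (by
    have : ρ.mapMatrix (N - 1) = 0 := by rw [map_sub, map_one, hk, sub_self]
    exact congrFun (congrFun this i) j)
  have e12 := congrFun (congrFun e 0) 1
  have e13 := congrFun (congrFun e 0) 2
  have e23 := congrFun (congrFun e 1) 2
  have hc := r 2 0
  have hd := r 0 1
  have hE := r 1 1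
  have hf := r 2 1
  have hg := r 0 2
  have hI := r 2 2
  simp [Q0, mul_apply, Fin.sum_univ_three] at e12 e13 e23 hc hd hE hf hg hI
  refine ⟨fun j => [N 2 0, N 0 1, N 1 1 - 1, N 2 1, N 0 2, N 2 2 - 1].getD j 0, fun j => ?_, ?_⟩
  · rcases j with _ | _ | _ | _ | _ | _ | j <;> simp [*]
  have hv : ∀ j, [N 2 0, N 0 1, N 1 1 - 1, N 2 1, N 0 2, N 2 2 - 1].getD j 0 *
      [N 2 0, N 0 1, N 1 1 - 1, N 2 1, N 0 2, N 2 2 - 1].getD j 0 = 0 := fun j => by
    rcases j with _ | _ | _ | _ | _ | _ | j <;> simp [*]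
  simp only [eM, KU, dot, ev_a, ev_m hv, ev_o, ev_0, ev_1, ev_2, ev_3, ev_4, ev_5,
    List.getD_cons_zero, List.getD_cons_succ, sub_add_cancel]
  conv_lhs => rw [eta_fin_three N]
  generalize N 0 0 = A, N 0 1 = d, N 0 2 = g, N 1 0 = b, N 1 1 = E, N 1 2 = h, N 2 0 = c,
    N 2 1 = f, N 2 2 = I at *
  have hE : E * E = 1 := by linear_combination hE + (E - 1) * two
  have hI : I * I = 1 := by linear_combination hI + (I - 1) * two
  have hh : h = E * (d * I + f * g + f * I) := by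
    linear_combination (-h) * hE + E * e23 - E * (d * I + f * g + f * I) * two
  have hb : b = E * (A * f + c * d + c * f) := by
    linear_combination (-b) * hE + E * e12 - E * (A * f + c * d + c * f) * two
  have bh : b * h = A * f * d * I + c * d * f * g := by
    rw [hb, hh]
    linear_combination (A * f + c * d + c * f) * (d * I + f * g + f * I) * hE +
      (A * g + A * I + c * g + c * I) * hf + c * I * hd + c * d * f * I * two
  have t : A * I * (1 + f * d) = 1 + (c * g + c * I + c * d * (f * g)) := by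
    linear_combination e13 - bh - (c * g + c * I + c * d * (f * g)) * two
  have hA : A = I * (1 + f * d) * (1 + (c * g + c * I + c * d * (f * g))) := by
    rw [← t]
    linear_combination (-A * (1 + f * d) ^ 2) * hI - A * f * d * two - A * d * d * hf
  rw [← hA, ← hb, ← hh]

lemma engel5 (y : G) : (fun z : G => z⁻¹ * y⁻¹ * z * y)^[5] x = 1 := by
  rcases y.2.2 with e | e
  · obtain ⟨v, hv, h⟩ := param e
    exact chk_ok hv h 5 x XU eX (by simpa only [fx_eq] using c1)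
  · have : ρ.mapMatrix (x * y).1.1 = 1 := by
      show ρ.mapMatrix (X0 R * y.1.1) = 1
      rw [map_mul, e, ← map_mul, XX, map_one]
    obtain ⟨v, hv, h⟩ := param this
    refine chk_ok (Y := mx XU KU) hv ?_ 5 x XU eX (by simpa only [fx_eq] using c2)
    rw [eM_mx hv, ← h, ← eX]
    show _ = X0 R * (X0 R * y.1.1)
    rw [← mul_assoc, XX, one_mul]

end Pool.Agent.Lib.helper16.EngA
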