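import Mathlib

namespace Pool.Agent.Lib.helper16.Gap

/-- The primes indexed from zero. -/
noncomputable def pr (i : ℕ) : ℕ := Nat.nth Nat.Prime i

/-- The `n`-th prime gap. -/
noncomputable def gap (n : ℕ) : ℤ := (pr n : ℤ) - (pr (n - 1) : ℤ)

/-- The up/down score. -/
noncomputable def score (n : ℕ) : ℤ := ∑ k ∈ Finset.Icc 2 n, Int.sign (gap k - gap (k - 1))

def Inv (x p g c : ℕ) : Prop :=
  ∃ n : ℕ, 1 ≤ n ∧ pr n = p ∧ x < pr (n + 1) ∧ p ≤ x ∧ (g : ℤ) = gap n ∧
    (c : ℤ) = n * 2097152 + score n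

def force (n : ℕ) (f : ℕ → Bool) : Bool := Nat.rec (f 0) (fun m _ => f (Nat.succ m)) n

theorem force_eq (n : ℕ) (f : ℕ → Bool) : force n f = f n := by cases n <;> rfl

def wt (d g : ℕ) : ℕ := bif Nat.beq d g then 2097152 else bif Nat.ble d g then 2097151 else 2097153

theorem wt_eq (d g : ℕ) : (wt d g : ℤ) = 2097152 + Int.sign ((d : ℤ) - g) := by
  unfold wt
  rcases lt_trichotomy d g with h | h | h
  · have h1 : Nat.beq d g = false := by
      rw [Bool.eq_false_iff]; intro e; have := Nat.eq_of_beq_eq_true e; omega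
    have h2 : Nat.ble d g = true := Nat.ble_eq.mpr h.le
    rw [h1, h2, Int.sign_eq_neg_one_of_neg (by omega)]
    simp
  · subst h; simp
  · have h1 : Nat.beq d g = false := by
      rw [Bool.eq_false_iff]; intro e; have := Nat.eq_of_beq_eq_true e; omega
    have h2 : Nat.ble d g = false := by
      rw [Bool.eq_false_iff]; intro e; have := Nat.le_of_ble_eq_true e; omega
    rw [h1, h2, Int.sign_eq_one_of_pos (by omega)]
    simp

def loop (P hi p' g' c' : ℕ) (k : ℕ) : ℕ → ℕ → ℕ → Bool :=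
  Nat.rec (fun p g c => Nat.beq p p' && (Nat.beq g g' && Nat.beq c c'))
    (fun k ih p g c =>
      bif Nat.beq (Nat.gcd (Nat.sub hi (Nat.mul 2 k)) P) 1 then
        force (Nat.add c (wt (Nat.sub (Nat.sub hi (Nat.mul 2 k)) p) g))
          (ih (Nat.sub hi (Nat.mul 2 k)) (Nat.sub (Nat.sub hi (Nat.mul 2 k)) p))
      else ih p g c) k

theorem step_no {x p g c : ℕ} (h : Inv x p g c) (hx : x % 2 = 1) (hx3 : 3 ≤ x)
    (hp : ¬ (x + 2).Prime) : Inv (x + 2) p g c := by
  obtain ⟨n, h1, h2, h3, h4, h5, h6⟩ := h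
  refine ⟨n, h1, h2, ?_, by omega, h5, h6⟩
  have hq : (pr (n + 1)).Prime := Nat.prime_nth_prime _
  have := hq.eq_two_or_odd
  by_contra hc
  have e : pr (n + 1) = x + 2 := by omega
  exact hp (e ▸ hq)

theorem step_yes {x p g c : ℕ} (h : Inv x p g c) (hx : x % 2 = 1) (hx3 : 3 ≤ x)
    (hp : (x + 2).Prime) : Inv (x + 2) (x + 2) (x + 2 - p) (c + wt (x + 2 - p) g) := by
  obtain ⟨n, h1, h2, h3, h4, h5, h6⟩ := h
  have hq : (pr (n + 1)).Prime := Nat.prime_nth_prime _
  have ho := hq.eq_two_or_odd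
  have hle : pr (n + 1) ≤ x + 2 := by
    by_contra hc
    have := Nat.le_nth_of_lt_nth_succ (p := Nat.Prime) (k := n) (a := x + 2)
      (by unfold pr at hc; omega) hp
    unfold pr at h2
    omega
  have e : pr (n + 1) = x + 2 := by omega
  have hg : ((x + 2 - p : ℕ) : ℤ) = gap (n + 1) := by
    unfold gap
    rw [Nat.add_sub_cancel, e, h2]
    omega
  refine ⟨n + 1, by omega, e, ?_, le_rfl, hg, ?_⟩
  · rw [← e]
    exact Nat.nth_strictMono Nat.infinite_setOf_prime (Nat.lt_succ_self _)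
  · unfold score
    rw [Finset.sum_Icc_succ_top (by omega), Nat.add_sub_cancel, ← hg, ← h5]
    push_cast
    rw [wt_eq, h6]
    unfold score
    ring

def Good (B P : ℕ) : Prop := ∀ x, B < x → x ≤ B * B → (x.Prime ↔ Nat.gcd x P = 1)

theorem good_of (B P : ℕ) (h1 : Nat.factorial B % P = 0)
    (h2 : (List.range (B + 1)).all (fun d => Nat.ble d 1 || !Nat.beq (Nat.gcd d P) 1) = true) :
    Good B P := by
  intro x hx hx2
  constructor
  · intro hp
    refine (Nat.Prime.coprime_iff_not_dvd hp).mpr ?_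
    intro hd
    have := (Nat.Prime.dvd_factorial hp).mp (hd.trans (Nat.dvd_of_mod_eq_zero h1))
    omega
  · intro hg
    by_contra hp
    have hx1 : x ≠ 1 := by
      rintro rfl
      have : B = 0 := by omega
      subst this
      omega
    have hq := Nat.minFac_prime hx1
    have hs := Nat.minFac_sq_le_self (by omega) hp
    have hB : x.minFac ≤ B := by
      by_contra hc
      push Not at hc
      nlinarith
    rw [List.all_eq_true] at h2
    have h3 := h2 x.minFac (List.mem_range.mpr (by omega))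
    have h4 : Nat.gcd x.minFac P = 1 := Nat.Coprime.coprime_dvd_left (Nat.minFac_dvd x) hg
    have h5 := hq.two_le
    simp [h4] at h3
    omega

theorem loop_ok {B P hi p' g' c' : ℕ} (hG : Good B P) (hhi : hi ≤ B * B) (ho : hi % 2 = 1)
    (hB : 3 ≤ B) : ∀ k p g c, B + 2 * k ≤ hi → Inv (hi - 2 * k) p g c →
      loop P hi p' g' c' k p g c = true → Inv hi p' g' c' := by
  intro k
  induction k with
  | zero =>
    intro p g c _ h e
    have e' : (Nat.beq p p' && (Nat.beq g g' && Nat.beq c c')) = true := e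
    simp only [Bool.and_eq_true, Nat.beq_eq] at e'
    obtain ⟨rfl, rfl, rfl⟩ := e'
    exact h
  | succ k ih =>
    intro p g c hk h e
    have e' : (bif Nat.beq (Nat.gcd (hi - 2 * k) P) 1 then
        force (c + wt (hi - 2 * k - p) g)
          (loop P hi p' g' c' k (hi - 2 * k) (hi - 2 * k - p))
      else loop P hi p' g' c' k p g c) = true := e
    have hx : hi - 2 * (k + 1) + 2 = hi - 2 * k := by omega
    have hg := hG (hi - 2 * k) (by omega) (by omega)
    by_cases hp : (hi - 2 * k).Prime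
    · rw [hg.mp hp, force_eq] at e'
      have := step_yes h (by omega) (by omega) (hx ▸ hp)
      rw [hx] at this
      exact ih _ _ _ (by omega) this e'
    · have h1 : Nat.beq (Nat.gcd (hi - 2 * k) P) 1 = false := by
        rw [Bool.eq_false_iff]; intro e; exact hp (hg.mpr (Nat.eq_of_beq_eq_true e))
      rw [h1] at e'
      have := step_no h (by omega) (by omega) (hx ▸ hp)
      rw [hx] at this
      exact ih _ _ _ (by omega) this e'

/-- Check a chain of segments of `k` odd numbers each, ending in the state `(p', g', c')`. -/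
def chain (P k : ℕ) : List (ℕ × ℕ × ℕ × ℕ) → ℕ → ℕ → ℕ → ℕ → ℕ → ℕ → ℕ → ℕ → Bool
  | [], x, p, g, c, x', p', g', c' =>
      Nat.beq x x' && (Nat.beq p p' && (Nat.beq g g' && Nat.beq c c'))
  | (x1, p1, g1, c1) :: l, x, p, g, c, x', p', g', c' =>
      Nat.beq x1 (x + 2 * k) && (Nat.ble x1 x' &&
        (loop P x1 p1 g1 c1 k p g c && chain P k l x1 p1 g1 c1 x' p' g' c'))

theorem chain_ok {B P k x' p' g' c' : ℕ} (hG : Good B P) (hB : 3 ≤ B) (hx' : x' ≤ B * B) :
    ∀ (l : List (ℕ × ℕ × ℕ × ℕ)) (x p g c : ℕ), B ≤ x → x % 2 = 1 → Inv x p g c →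
      chain P k l x p g c x' p' g' c' = true → Inv x' p' g' c' := by
  intro l
  induction l with
  | nil =>
    intro x p g c _ _ h e
    simp only [chain, Bool.and_eq_true, Nat.beq_eq] at e
    obtain ⟨rfl, rfl, rfl, rfl⟩ := e
    exact h
  | cons a l ih =>
    obtain ⟨x1, p1, g1, c1⟩ := a
    intro x p g c hx ho h e
    simp only [chain, Bool.and_eq_true, Nat.beq_eq, Nat.ble_eq] at e
    obtain ⟨e1, e2, e3, e4⟩ := e
    have h1 : Inv x1 p1 g1 c1 := by
      refine loop_ok hG (by omega) (by omega) hB k p g c (by omega) ?_ e3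
      have : x1 - 2 * k = x := by omega
      rwa [this]
    exact ih x1 p1 g1 c1 (by omega) (by omega) h1 e4

theorem inv7 : Inv 7 7 2 6291457 := by
  refine ⟨3, by norm_num, Nat.nth_prime_three_eq_seven, ?_, le_rfl, ?_, ?_⟩
  · unfold pr; rw [Nat.nth_prime_four_eq_eleven]; norm_num
  · simp [gap, pr]
  · have : Finset.Icc 2 3 = {2, 3} := by decide
    simp [score, this, gap, pr]

theorem abs_score (n : ℕ) : |score n| ≤ n := by
  unfold score
  refine (Finset.abs_sum_le_sum_abs _ _).trans ?_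
  refine (Finset.sum_le_card_nsmul _ _ 1 ?_).trans ?_
  · intro k _
    rcases lt_trichotomy (gap k - gap (k - 1)) 0 with h | h | h
    · rw [Int.sign_eq_neg_one_of_neg h]; simp
    · rw [h]; simp
    · rw [Int.sign_eq_one_of_pos h]; simp
  · simp only [Nat.card_Icc, nsmul_eq_mul, mul_one]
    omega

end Pool.Agent.Lib.helper16.Gap
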