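import Pool.Agent.Lib.helper16.GapA

namespace Pool.Agent.Lib.helper16.Gap

def bigP : ℕ := 330299814997665459752503875936311543658654867563977165754682006007076789023726298028755353475271999414453764134871401945863424316247498974525140884502213619463897242701793280976314619522940952707678656355866315555813453709146270396483864711972590100553162544989477344756108882470964672146103057849578011704570100638149372613055636349494040526380005363336573870322107486828807474961912982325253455883323020690855949007426633568611938908672810913185726817817735856245280443222830596087494005801000571579740438132076783124492309104396505888935213078665394872422903777412625904361394221872967927700481448076066485794738700362833072432132949703400435636025207134810624436376055618005498163855585536582182713434179261367383522239622181965584795602707040077669355630046755401445847804541645846120576194385396822416810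

theorem good7 : Good 7 210 := good_of _ _ (by decide +kernel) (by decide +kernel)
theorem good47 : Good 47 614889782588491410 := good_of _ _ (by decide +kernel) (by decide +kernel)
theorem goodBig : Good 1915 bigP := good_of _ _ (by decide +kernel) (by decide +kernel)

theorem a1 : chain 210 21 [
    (49, 47, 4, 29360130)]
    7 7 2 6291457 49 47 4 29360130 = true := by decide +kernel
theorem a2 : chain 614889782588491410 1080 [
    (2209, 2207, 4, 687865867)]
    49 47 4 29360130 2209 2207 4 687865867 = true := by decide +kernel

theorem inv2209 : Inv 2209 2207 4 687865867 :=
  chain_ok good47 (by norm_num) (by norm_num) _ _ _ _ _ (by norm_num) (by norm_num)
    (chain_ok good7 (by norm_num) (by norm_num) _ _ _ _ _ (by norm_num) (by norm_num) inv7 a1) a2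

end Pool.Agent.Lib.helper16.Gap
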