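import Mathlib

namespace Pool.Agent.Lib.helper16.Gf2

/-- evaluation at `x` of the polynomial over `F_2` whose coefficients are the bits of `n`. -/
def ev {S : Type} [CommRing S] (x : S) (n : ℕ) : S :=
  Nat.binaryRec 0 (fun b _ r => (if b then 1 else 0) + x * r) n

variable {S : Type} [CommRing S]

lemma ev_zero (x : S) : ev x 0 = 0 := by simp [ev]

lemma ev_bit (x : S) (b : Bool) (n : ℕ) :
    ev x (Nat.bit b n) = (if b then 1 else 0) + x * ev x n := by
  unfold ev
  rw [Nat.binaryRec_eq]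
  left; simp

lemma ev_one (x : S) : ev x 1 = 1 := by
  have := ev_bit x true 0
  simpa [ev_zero, Nat.bit] using this

lemma ev_two_mul (x : S) (n : ℕ) : ev x (2 * n) = x * ev x n := by
  have := ev_bit x false n
  simpa [Nat.bit] using this

lemma ev_two (x : S) : ev x 2 = x := by
  have := ev_two_mul x 1
  simpa [ev_one] using this

lemma ev_xor (h2 : (2 : S) = 0) (x : S) (a b : ℕ) : ev x (a ^^^ b) = ev x a + ev x b := by
  induction a using Nat.binaryRec generalizing b with
  | zero => simp [ev_zero]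
  | bit c a ih =>
    induction b using Nat.binaryRec with
    | zero => simp [ev_zero]
    | bit d b _ =>
      rw [Nat.xor_bit, ev_bit, ev_bit, ev_bit, ih]
      cases c <;> cases d <;> simp <;> first | ring1 | linear_combination (-1 : S) * h2

noncomputable def force (n : ℕ) (g : ℕ → ℕ) : ℕ :=
  Nat.rec (motive := fun _ => ℕ) (g 0) (fun k _ => g (Nat.succ k)) n

theorem force_eq (n : ℕ) (g : ℕ → ℕ) : force n g = g n := by
  cases n <;> rfl

/-- Horner product of `a` with the low `k` bits of `b`, reduced by `f` of degree `d + 1`. -/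
noncomputable def mmAux (f d a b : ℕ) (k : ℕ) : ℕ → ℕ :=
  Nat.rec (motive := fun _ => ℕ → ℕ) (fun r => r)
    (fun k g r => force (Nat.xor (Nat.xor (Nat.mul 2 r)
      (Nat.mul f (Nat.land (Nat.shiftRight r d) 1)))
      (Nat.mul a (Nat.land (Nat.shiftRight b k) 1))) g) k

lemma land_one (n : ℕ) : Nat.land n 1 = n % 2 := Nat.and_one_is_mod n

lemma ev_mul_bit (x : S) (a t : ℕ) :
    ev x (a * (t % 2)) = ev x a * (if t % 2 = 1 then 1 else 0) := by
  rcases Nat.mod_two_eq_zero_or_one t with h | h <;> simp [h, ev_zero]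

lemma ev_split (x : S) (n : ℕ) :
    ev x n = (if n % 2 = 1 then 1 else 0) + x * ev x (n / 2) := by
  have h := ev_bit x (decide (n % 2 = 1)) (n / 2)
  have e : Nat.bit (decide (n % 2 = 1)) (n / 2) = n := by
    rcases Nat.mod_two_eq_zero_or_one n with h | h <;> simp [Nat.bit, h] <;> omega
  rw [e] at h
  simpa using h

lemma mmAux_spec (h2 : (2 : S) = 0) (x : S) (f d a b : ℕ) (hf : ev x f = 0) (k : ℕ) :
    ∀ r, ev x r = ev x a * ev x (b >>> k) → ev x (mmAux f d a b k r) = ev x a * ev x b := by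
  induction k with
  | zero => intro r hr; simpa [mmAux] using hr
  | succ k ih =>
    intro r hr
    show ev x (force _ (mmAux f d a b k)) = _
    rw [force_eq]
    apply ih
    show ev x (((2 * r) ^^^ (f * (Nat.land (r >>> d) 1))) ^^^ (a * (Nat.land (b >>> k) 1))) = _
    rw [land_one, land_one, ev_xor h2, ev_xor h2, ev_two_mul, ev_mul_bit, ev_mul_bit, hf, hr,
      ev_split x (b >>> k), Nat.shiftRight_succ]
    ring

/-- product modulo `f`, valid when `b < 2 ^ k`. -/
noncomputable def mm (f d k a b : ℕ) : ℕ := mmAux f d a b k 0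

lemma mm_spec (h2 : (2 : S) = 0) (x : S) {f d k a b : ℕ} (hf : ev x f = 0) (hb : b < 2 ^ k) :
    ev x (mm f d k a b) = ev x a * ev x b := by
  apply mmAux_spec h2 x f d a b hf
  rw [Nat.shiftRight_eq_div_pow, Nat.div_eq_of_lt hb, ev_zero, mul_zero]

/-- plain product of polynomials; `0` is returned when `b` is too large. -/
noncomputable def cl (a b : ℕ) : ℕ := mm 0 0 (Nat.succ (Nat.log2 b)) a b

lemma cl_spec (h2 : (2 : S) = 0) (x : S) (a b : ℕ) : ev x (cl a b) = ev x a * ev x b :=
  mm_spec h2 x (ev_zero x) Nat.lt_log2_self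

/-- xor of `c` with the selected values among `W 0, …, W (k-1)`. -/
def xl (W : ℕ → ℕ) (t : ℕ → Bool) : ℕ → ℕ → ℕ
  | 0, c => c
  | k + 1, c => xl W t k (if t k then c ^^^ W k else c)

lemma xl_spec {M : Type} [AddCommMonoid M] (h : ℕ → M) (hx : ∀ a b, h (a ^^^ b) = h a + h b)
    (W : ℕ → ℕ) (t : ℕ → Bool) (k : ℕ) :
    ∀ c, h (xl W t k c) = h c + ∑ i ∈ Finset.range k, if t i then h (W i) else 0 := by
  induction k with
  | zero => intro c; simp [xl]
  | succ k ih =>
    intro c
    rw [xl, ih, Finset.sum_range_succ]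
    cases t k <;> simp [hx]
    abel

/-- run `leaf` over all xor combinations. -/
noncomputable def allx (W : ℕ → ℕ) (leaf : ℕ → ℕ → ℕ) (k : ℕ) : ℕ → ℕ → ℕ :=
  Nat.rec (motive := fun _ => ℕ → ℕ → ℕ) leaf
    (fun k g c p => force (g c p) (fun p' => force (Nat.xor c (W k)) (fun c' => g c' p'))) k

lemma allx_spec (W : ℕ → ℕ) (leaf : ℕ → ℕ → ℕ) (U Q : ℕ → Prop)
    (hl : ∀ c p, U (leaf c p) → U p ∧ Q c) (k : ℕ) :
    ∀ c p, U (allx W leaf k c p) → U p ∧ ∀ t, Q (xl W t k c) := by
  induction k with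
  | zero => intro c p h; exact ⟨(hl c p h).1, fun _ => (hl c p h).2⟩
  | succ k ih =>
    intro c p h
    have h' : U (allx W leaf k (c ^^^ W k) (allx W leaf k c p)) := by
      have : allx W leaf (k + 1) c p = force (allx W leaf k c p)
        (fun p' => force (Nat.xor c (W k)) (fun c' => allx W leaf k c' p')) := rfl
      rw [this, force_eq, force_eq] at h
      exact h
    obtain ⟨h1, h2⟩ := ih _ _ h'
    obtain ⟨h3, h4⟩ := ih _ _ h1
    refine ⟨h3, fun t => ?_⟩
    rw [xl]
    cases t k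
    · exact h4 t
    · exact h2 t

end Pool.Agent.Lib.helper16.Gf2
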