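import Mathlib

namespace Pool.Agent.Lib.helper16.KcA
open MeasureTheory Set Metric
open scoped ENNReal

noncomputable def fval (A : Finset ℕ) : ℝ := ∑ j ∈ A, 2 / (3 : ℝ) ^ (j + 1)

lemma fval_nonneg (A : Finset ℕ) : 0 ≤ fval A := Finset.sum_nonneg fun _ _ => by positivity

lemma fval_Ico (m k : ℕ) : fval (Finset.Ico m (m + k)) = 1 / 3 ^ m - 1 / 3 ^ (m + k) := by
  induction k with
  | zero => simp [fval]
  | succ k ih =>
    unfold fval at ih ⊢
    rw [← add_assoc, Finset.sum_Ico_succ_top (by omega), ih, pow_succ]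
    field_simp; ring

lemma fval_le {A : Finset ℕ} {m : ℕ} (h : ∀ j ∈ A, m ≤ j) : fval A ≤ 1 / 3 ^ m := by
  have hs : A ⊆ Finset.Ico m (m + (A.sup id + 1)) := by
    intro j hj
    have : j ≤ A.sup id := Finset.le_sup (f := id) hj
    exact Finset.mem_Ico.2 ⟨h j hj, by omega⟩
  have h1 : fval A ≤ fval (Finset.Ico m (m + (A.sup id + 1))) :=
    Finset.sum_le_sum_of_subset_of_nonneg hs fun _ _ _ => by positivity
  rw [fval_Ico] at h1
  have : (0 : ℝ) ≤ 1 / 3 ^ (m + (A.sup id + 1)) := by positivity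
  linarith

lemma fval_insert {A : Finset ℕ} {m : ℕ} (h : m ∉ A) :
    fval (insert m A) = 2 / 3 ^ (m + 1) + fval A := Finset.sum_insert h

/-- random line pattern -/
structure RP where
  Ω : Type
  mΩ : MeasurableSpace Ω
  μ : Measure Ω
  prob : IsProbabilityMeasure μ
  ι : Type
  fι : Fintype ι
  dg : ι → Finset ℕ
  B : ι → Ω → Set ℝ
  closed : ∀ i ω, IsClosed (B i ω)
  meas : ∀ i, MeasurableSet {p : Ω × ℝ | p.2 ∈ B i p.1}

attribute [instance] RP.mΩ RP.prob RP.fι

def RP.cov (R : RP) (x y : ℝ) : Set R.Ω := {ω | ∃ i, y - fval (R.dg i) * x ∈ R.B i ω}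

noncomputable def RP.q (R : RP) (x y : ℝ) : ℝ := R.μ.real (R.cov x y)

def RP.Lev (R : RP) (m : ℕ) : Prop := ∀ i, ∀ j ∈ R.dg i, m ≤ j

lemma RP.joint (R : RP) : MeasurableSet {p : R.Ω × (ℝ × ℝ) | p.1 ∈ R.cov p.2.1 p.2.2} := by
  have : {p : R.Ω × (ℝ × ℝ) | p.1 ∈ R.cov p.2.1 p.2.2} = ⋃ i,
      (fun p : R.Ω × (ℝ × ℝ) => (p.1, p.2.2 - fval (R.dg i) * p.2.1)) ⁻¹'
        {p : R.Ω × ℝ | p.2 ∈ R.B i p.1} := by
    ext p; simp [RP.cov]
  rw [this]
  exact MeasurableSet.iUnion fun i => (R.meas i).preimage (by fun_prop)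

lemma RP.cov_meas (R : RP) (x y : ℝ) : MeasurableSet (R.cov x y) :=
  R.joint.preimage (f := fun ω => (ω, (x, y))) (by fun_prop)

lemma RP.q_nonneg (R : RP) (x y : ℝ) : 0 ≤ R.q x y := measureReal_nonneg
lemma RP.q_le (R : RP) (x y : ℝ) : R.q x y ≤ 1 := measureReal_le_one

noncomputable def base : RP where
  Ω := Unit
  mΩ := inferInstance
  μ := Measure.dirac ()
  prob := inferInstance
  ι := Unit
  fι := inferInstance
  dg := fun _ => ∅
  B := fun _ _ => univ
  closed := fun _ _ => isClosed_univ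
  meas := fun _ => by simp

lemma base_q (x y : ℝ) : base.q x y = 1 := by
  have : base.cov x y = univ := by
    ext ω; simp only [RP.cov, mem_ofPred_eq, mem_univ, iff_true]; exact ⟨(), trivial⟩
  rw [RP.q, this, probReal_univ]

noncomputable def empt : RP where
  Ω := Unit
  mΩ := inferInstance
  μ := Measure.dirac ()
  prob := inferInstance
  ι := Empty
  fι := inferInstance
  dg := fun _ => ∅
  B := fun _ _ => univ
  closed := fun _ _ => isClosed_univ
  meas := fun _ => by simp

lemma empt_q (x y : ℝ) : empt.q x y = 0 := by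
  have : empt.cov x y = ∅ := by
    ext ω; simp only [RP.cov, mem_ofPred_eq, mem_empty_iff_false, iff_false]
    rintro ⟨i, _⟩; exact i.elim
  rw [RP.q, this, measureReal_empty]

noncomputable def uni (R S : RP) : RP where
  Ω := R.Ω × S.Ω
  mΩ := inferInstance
  μ := R.μ.prod S.μ
  prob := inferInstance
  ι := R.ι ⊕ S.ι
  fι := inferInstance
  dg := Sum.elim R.dg S.dg
  B := Sum.elim (fun i ω => R.B i ω.1) (fun i ω => S.B i ω.2)
  closed := by rintro (i | i) ω; exacts [R.closed _ _, S.closed _ _]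
  meas := by
    rintro (i | i)
    · exact (R.meas i).preimage (f := fun p : (R.Ω × S.Ω) × ℝ => (p.1.1, p.2)) (by fun_prop)
    · exact (S.meas i).preimage (f := fun p : (R.Ω × S.Ω) × ℝ => (p.1.2, p.2)) (by fun_prop)

lemma uni_q (R S : RP) (x y : ℝ) :
    (uni R S).q x y = R.q x y + S.q x y - R.q x y * S.q x y := by
  have : (uni R S).cov x y = (R.cov x y ×ˢ univ) ∪ (univ ×ˢ S.cov x y) := by
    ext ω
    constructor
    · rintro ⟨i | i, h⟩
      · exact Or.inl ⟨⟨i, h⟩, trivial⟩
      · exact Or.inr ⟨trivial, ⟨i, h⟩⟩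
    · rintro (⟨⟨i, h⟩, _⟩ | ⟨_, ⟨i, h⟩⟩)
      · exact ⟨Sum.inl i, h⟩
      · exact ⟨Sum.inr i, h⟩
  have h2 := measureReal_union_add_inter (μ := R.μ.prod S.μ) (s := R.cov x y ×ˢ univ)
    (MeasurableSet.univ.prod (S.cov_meas x y))
  rw [prod_inter_prod, inter_univ, univ_inter] at h2
  simp only [measureReal_prod_prod, probReal_univ, mul_one, one_mul] at h2
  change (R.μ.prod S.μ).real ((uni R S).cov x y) = _
  rw [this]
  unfold RP.q
  linarith

lemma uni_lev {R S : RP} {m : ℕ} (hR : R.Lev m) (hS : S.Lev m) : (uni R S).Lev m := by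
  rintro (i | i); exacts [hR i, hS i]

abbrev Ci := AddCircle (1 : ℝ)

instance : IsProbabilityMeasure (volume : Measure Ci) := ⟨by simp⟩

lemma ci_dist (a b : ℝ) : dist (a : Ci) (b : Ci) ≤ |a - b| := by
  rw [dist_eq_norm, ← AddCircle.coe_sub]
  exact QuotientAddGroup.norm_mk_le_norm

lemma ci_vol (z : Ci) {r : ℝ} (h : 0 ≤ r) : (volume : Measure Ci).real (closedBall z r) = min 1 (2 * r) := by
  rw [measureReal_def, AddCircle.volume_closedBall, ENNReal.toReal_ofReal (by positivity)]

lemma two {Ω : Type} [MeasurableSpace Ω] (μ : Measure Ω) [IsProbabilityMeasure μ]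
    {M1 M2 : Set Ci} {C1 C2 : Set Ω} (h2 : MeasurableSet M2) (k2 : MeasurableSet C2) :
    ((volume : Measure Ci).prod (μ.prod μ)).real ((M1 ×ˢ (C1 ×ˢ univ)) ∪ (M2 ×ˢ (univ ×ˢ C2))) =
      volume.real M1 * μ.real C1 + volume.real M2 * μ.real C2
        - volume.real (M1 ∩ M2) * (μ.real C1 * μ.real C2) := by
  have h := measureReal_union_add_inter (μ := (volume : Measure Ci).prod (μ.prod μ))
    (s := M1 ×ˢ (C1 ×ˢ univ)) (h2.prod (MeasurableSet.univ.prod k2))
  rw [prod_inter_prod, prod_inter_prod, inter_univ, univ_inter] at h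
  simp only [measureReal_prod_prod, probReal_univ, mul_one, one_mul] at h
  linarith

noncomputable def br (R : RP) (m : ℕ) (c p D : ℝ) : RP where
  Ω := Ci × (R.Ω × R.Ω)
  mΩ := inferInstance
  μ := (volume : Measure Ci).prod (R.μ.prod R.μ)
  prob := inferInstance
  ι := R.ι ⊕ R.ι
  fι := inferInstance
  dg := Sum.elim R.dg (fun i => insert m (R.dg i))
  B := Sum.elim (fun i ω => {b | b ∈ R.B i ω.2.1 ∧ dist ((b / D : ℝ) : Ci) ω.1 ≤ 1 / 4})
    (fun i ω => {b | b + c * p ∈ R.B i ω.2.2 ∧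
      dist (((b + c * p) / D + 1 / 2 : ℝ) : Ci) ω.1 ≤ 1 / 4})
  closed := by
    have hc : Continuous (fun t : ℝ => (t : Ci)) := continuous_quotient_mk'
    rintro (i | i) ω
    · exact (R.closed _ _).inter (isClosed_le
        ((hc.comp (continuous_id.div_const D)).dist continuous_const) continuous_const)
    · exact ((R.closed i ω.2.2).preimage (f := fun b => b + c * p) (by fun_prop)).inter
        (isClosed_le ((hc.comp (((continuous_id.add continuous_const).div_const D).add
          continuous_const)).dist continuous_const) continuous_const)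
  meas := by
    have hc : Measurable (fun t : ℝ => (t : Ci)) := AddCircle.measurable_mk'
    rintro (i | i)
    · exact ((R.meas i).preimage (f := fun p : (Ci × (R.Ω × R.Ω)) × ℝ => (p.1.2.1, p.2))
        (by fun_prop)).inter (measurableSet_le
          ((hc.comp (measurable_snd.div_const D)).dist measurable_fst.fst) measurable_const)
    · exact ((R.meas i).preimage (f := fun z : (Ci × (R.Ω × R.Ω)) × ℝ => (z.1.2.2, z.2 + c * p))
        (by fun_prop)).inter (measurableSet_le
          ((hc.comp (((measurable_snd.add_const _).div_const D).add_const _)).dist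
            measurable_fst.fst) measurable_const)

lemma br_lev {R : RP} {m : ℕ} (c p D : ℝ) (h : R.Lev (m + 1)) : (br R m c p D).Lev m := by
  rintro (i | i) j hj
  · exact (Nat.le_succ m).trans (h i j hj)
  · rcases Finset.mem_insert.1 hj with rfl | hj
    · exact le_rfl
    · exact (Nat.le_succ m).trans (h i j hj)

lemma br_q {R : RP} {m m' : ℕ} {p D e x y : ℝ} (hm : m < m') (h : R.Lev m') (hD : 0 < D)
    (he : 0 < e) (he' : e ≤ 1 / 4) (hσ : 2 / 3 ^ m' ≤ e * D) (hx : |x| ≤ 2) {s : ℝ}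
    (hs : s = 2 / 3 ^ (m + 1) * (x - p) / D) (hs0 : 0 ≤ s) (hs1 : s ≤ 1 / 4) {L U : ℝ}
    (hL : 0 ≤ L) (hU : U ≤ 1) (hq : ∀ y, L ≤ R.q x y ∧ R.q x y ≤ U) :
    L - 2 * s * L ^ 2 - 4 * e ≤ (br R m (2 / 3 ^ (m + 1)) p D).q x y ∧
      (br R m (2 / 3 ^ (m + 1)) p D).q x y ≤ U - s * U ^ 2 + 4 * e := by
  set c : ℝ := 2 / 3 ^ (m + 1) with hc
  set y' := y - c * (x - p) with hy'
  set z1 : Ci := ((y / D : ℝ) : Ci) with hz1
  set z2 : Ci := ((y' / D + 1 / 2 : ℝ) : Ci) with hz2
  have hy'D : y' / D = y / D - s := by rw [hs, hy']; ring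
  have hnot : ∀ i, m ∉ R.dg i := fun i hi => by have := h i m hi; omega
  have hsl : ∀ i, |fval (R.dg i) * x / D| ≤ e := by
    intro i
    rw [abs_div, abs_mul, abs_of_pos hD, abs_of_nonneg (fval_nonneg _), div_le_iff₀ hD]
    have h1 := fval_le (h i)
    have h2 := fval_nonneg (R.dg i)
    have : fval (R.dg i) * |x| ≤ 1 / 3 ^ m' * 2 := mul_le_mul h1 hx (abs_nonneg _) (by positivity)
    have e2 : (1 : ℝ) / 3 ^ m' * 2 = 2 / 3 ^ m' := by ring
    linarith
  have d1 : ∀ i, dist (((y - fval (R.dg i) * x) / D : ℝ) : Ci) z1 ≤ e := fun i =>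
    (ci_dist _ _).trans (by
      rw [show (y - fval (R.dg i) * x) / D - y / D = -(fval (R.dg i) * x / D) by ring, abs_neg]
      exact hsl i)
  have d2 : ∀ i, dist (((y' - fval (R.dg i) * x) / D + 1 / 2 : ℝ) : Ci) z2 ≤ e := fun i =>
    (ci_dist _ _).trans (by
      rw [show (y' - fval (R.dg i) * x) / D + 1 / 2 - (y' / D + 1 / 2)
        = -(fval (R.dg i) * x / D) by ring, abs_neg]
      exact hsl i)
  have e2 : ∀ i, y - fval (insert m (R.dg i)) * x + c * p = y' - fval (R.dg i) * x := by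
    intro i; rw [fval_insert (hnot i), hy']; ring
  obtain ⟨a1, a2⟩ := hq y
  obtain ⟨b1, b2⟩ := hq y'
  have a3 := R.q_le x y
  have b3 := R.q_le x y'
  have a0 := R.q_nonneg x y
  have b0 := R.q_nonneg x y'
  constructor
  · have hsub : (closedBall z1 (1 / 4 - e) ×ˢ (R.cov x y ×ˢ univ)) ∪
        (closedBall z2 (1 / 4 - e) ×ˢ (univ ×ˢ R.cov x y')) ⊆ (br R m c p D).cov x y := by
      rintro ω (⟨h1, ⟨i, hi⟩, _⟩ | ⟨h1, _, ⟨i, hi⟩⟩)
      · refine ⟨Sum.inl i, hi, ?_⟩
        have := dist_triangle_right (((y - fval (R.dg i) * x) / D : ℝ) : Ci) ω.1 z1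
        have h3 := d1 i
        rw [mem_closedBall] at h1
        change dist (((y - fval (R.dg i) * x) / D : ℝ) : Ci) ω.1 ≤ 1 / 4
        linarith
      · refine ⟨Sum.inr i, ?_⟩
        change y - fval (insert m (R.dg i)) * x + c * p ∈ R.B i ω.2.2 ∧
          dist (((y - fval (insert m (R.dg i)) * x + c * p) / D + 1 / 2 : ℝ) : Ci) ω.1 ≤ 1 / 4
        rw [e2]
        refine ⟨hi, ?_⟩
        have := dist_triangle_right (((y' - fval (R.dg i) * x) / D + 1 / 2 : ℝ) : Ci) ω.1 z2
        have h3 := d2 i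
        rw [mem_closedBall] at h1
        linarith
    have h1 := measureReal_mono (μ := (volume : Measure Ci).prod (R.μ.prod R.μ)) hsub
    rw [two R.μ measurableSet_closedBall (R.cov_meas _ _), ci_vol _ (by linarith),
      ci_vol _ (by linarith), min_eq_right (by linarith)] at h1
    set k := (volume : Measure Ci).real (closedBall z1 (1 / 4 - e) ∩ closedBall z2 (1 / 4 - e))
      with hk
    have k0 : 0 ≤ k := measureReal_nonneg
    have k1 : k ≤ 2 * (1 / 4 - e) := by
      have := measureReal_mono (μ := (volume : Measure Ci))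
        (inter_subset_left (s := closedBall z1 (1 / 4 - e)) (t := closedBall z2 (1 / 4 - e)))
      rwa [ci_vol _ (by linarith), min_eq_right (by linarith)] at this
    have k2 : k ≤ 2 * s := by
      set z3 : Ci := ((y / D + 1 / 2 : ℝ) : Ci) with hz3
      have d13 : dist z1 z3 = 1 / 2 := by
        rw [dist_comm, dist_eq_norm, hz3, hz1, ← AddCircle.coe_sub, add_sub_cancel_left]
        have := AddCircle.norm_half_period_eq (1 : ℝ)
        simpa using this
      have d23 : dist z2 z3 ≤ s := (ci_dist _ _).trans (by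
        rw [hy'D, show y / D - s + 1 / 2 - (y / D + 1 / 2) = -s by ring, abs_neg, abs_of_nonneg hs0])
      have hs2 : closedBall z1 (1 / 4 - e) ∩ closedBall z2 (1 / 4 - e) ⊆
          closedBall z3 (1 / 4 + s) \ closedBall z3 (1 / 4) := by
        rintro w ⟨w1, w2⟩
        rw [mem_closedBall] at w1 w2
        refine ⟨?_, fun w3 => ?_⟩
        · rw [mem_closedBall]; linarith [dist_triangle w z2 z3]
        · rw [mem_closedBall] at w3; linarith [dist_triangle_left z1 z3 w]
      have := measureReal_mono (μ := (volume : Measure Ci)) hs2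
      rw [measureReal_sdiff (closedBall_subset_closedBall (by linarith)) measurableSet_closedBall,
        ci_vol _ (by linarith), ci_vol _ (by norm_num), min_eq_right (by linarith),
        min_eq_right (by norm_num)] at this
      linarith
    refine le_trans ?_ h1
    change _ ≤ 2 * (1 / 4 - e) * R.q x y + 2 * (1 / 4 - e) * R.q x y' - k * (R.q x y * R.q x y')
    have hL1 : L ≤ 1 := a1.trans a3
    have f1 : R.q x y * R.q x y' - L ^ 2 ≤ (R.q x y - L) + (R.q x y' - L) := by nlinarith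
    have f2 : k * (R.q x y * R.q x y' - L ^ 2) ≤ 2 * (1 / 4 - e) * ((R.q x y - L) + (R.q x y' - L)) :=
      (mul_le_mul_of_nonneg_left f1 k0).trans (mul_le_mul_of_nonneg_right k1 (by linarith))
    have f3 : k * L ^ 2 ≤ 2 * s * L ^ 2 := mul_le_mul_of_nonneg_right k2 (by positivity)
    nlinarith
  · have hsub : (br R m c p D).cov x y ⊆ (closedBall z1 (1 / 4 + e) ×ˢ (R.cov x y ×ˢ univ)) ∪
        (closedBall z2 (1 / 4 + e) ×ˢ (univ ×ˢ R.cov x y')) := by
      rintro ω ⟨i | i, hi⟩
      · refine Or.inl ⟨?_, ⟨i, hi.1⟩, trivial⟩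
        have h2 : dist (((y - fval (R.dg i) * x) / D : ℝ) : Ci) ω.1 ≤ 1 / 4 := hi.2
        have := dist_triangle_left ω.1 z1 (((y - fval (R.dg i) * x) / D : ℝ) : Ci)
        have h3 := d1 i
        rw [mem_closedBall]; linarith
      · change y - fval (insert m (R.dg i)) * x + c * p ∈ R.B i ω.2.2 ∧
          dist (((y - fval (insert m (R.dg i)) * x + c * p) / D + 1 / 2 : ℝ) : Ci) ω.1 ≤ 1 / 4 at hi
        rw [e2] at hi
        refine Or.inr ⟨?_, trivial, ⟨i, hi.1⟩⟩
        have := dist_triangle_left ω.1 z2 (((y' - fval (R.dg i) * x) / D + 1 / 2 : ℝ) : Ci)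
        have h3 := d2 i
        rw [mem_closedBall]; linarith [hi.2]
    have h1 := (measureReal_mono (μ := (volume : Measure Ci).prod (R.μ.prod R.μ)) hsub).trans_eq
      (two R.μ measurableSet_closedBall (R.cov_meas _ _))
    rw [ci_vol _ (by linarith), ci_vol _ (by linarith), min_eq_right (by linarith)] at h1
    set k := (volume : Measure Ci).real (closedBall z1 (1 / 4 + e) ∩ closedBall z2 (1 / 4 + e))
      with hk
    have k0 : 0 ≤ k := measureReal_nonneg
    have k1 : k ≤ 2 * (1 / 4 + e) := by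
      have := measureReal_mono (μ := (volume : Measure Ci))
        (inter_subset_left (s := closedBall z1 (1 / 4 + e)) (t := closedBall z2 (1 / 4 + e)))
      rwa [ci_vol _ (by linarith), min_eq_right (by linarith)] at this
    have k2 : s ≤ k := by
      set z3 : Ci := ((y / D + (1 / 4 - s / 2) : ℝ) : Ci) with hz3
      have d13 : dist z3 z1 ≤ 1 / 4 - s / 2 := (ci_dist _ _).trans (by
        rw [add_sub_cancel_left, abs_of_nonneg (by linarith)])
      have d23 : dist z3 z2 ≤ 1 / 4 - s / 2 := (ci_dist _ _).trans (by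
        rw [hy'D, show y / D + (1 / 4 - s / 2) - (y / D - s + 1 / 2) = -(1 / 4 - s / 2) by ring,
          abs_neg, abs_of_nonneg (by linarith)])
      have hs2 : closedBall z3 (s / 2) ⊆ closedBall z1 (1 / 4 + e) ∩ closedBall z2 (1 / 4 + e) := by
        intro w hw
        rw [mem_closedBall] at hw
        constructor
        · rw [mem_closedBall]; linarith [dist_triangle w z3 z1]
        · rw [mem_closedBall]; linarith [dist_triangle w z3 z2]
      have := measureReal_mono (μ := (volume : Measure Ci)) hs2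
      rw [ci_vol _ (by linarith), min_eq_right (by linarith)] at this
      linarith
    refine le_trans h1 ?_
    change 2 * (1 / 4 + e) * R.q x y + 2 * (1 / 4 + e) * R.q x y' - k * (R.q x y * R.q x y') ≤ _
    have hU0 : 0 ≤ U := a0.trans a2
    have f1 : U ^ 2 - R.q x y * R.q x y' ≤ (U - R.q x y) + (U - R.q x y') := by nlinarith
    have f2 : k * (U ^ 2 - R.q x y * R.q x y') ≤ 2 * (1 / 4 + e) * ((U - R.q x y) + (U - R.q x y')) :=
      (mul_le_mul_of_nonneg_left f1 k0).trans (mul_le_mul_of_nonneg_right k1 (by linarith))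
    have f3 : s * U ^ 2 ≤ k * U ^ 2 := mul_le_mul_of_nonneg_right k2 (by positivity)
    nlinarith

end Pool.Agent.Lib.helper16.KcA
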