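import Pool.Agent.Lib.helper16.KcA

namespace Pool.Agent.Lib.helper16.KcB
open MeasureTheory Set Metric Pool.Agent.Lib.helper16.KcA
open scoped ENNReal

lemma level (p e : ℝ) (he : 0 < e) (he' : e ≤ 1 / 4) (n : ℕ) : ∀ m : ℕ, ∃ R : RP, R.Lev m ∧
    ∀ x y : ℝ, |x| ≤ 2 → p ≤ x → x ≤ p + 2 →
      1 / (1 + n * ((x - p) / 2)) - 4 * n * e ≤ R.q x y ∧
        R.q x y ≤ 1 / (1 + n * ((x - p) / 8)) + 4 * n * e := by
  induction n with
  | zero =>
    intro m
    refine ⟨base, fun i j hj => absurd hj (Finset.notMem_empty _), fun x y _ _ _ => ?_⟩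
    rw [base_q]; simp
  | succ n ih =>
    intro m
    have hc : (0 : ℝ) < 2 / 3 ^ (m + 1) := by positivity
    set c : ℝ := 2 / 3 ^ (m + 1) with hcd
    obtain ⟨k, hk⟩ := exists_pow_lt_of_lt_one (show 0 < e * (8 * c) / 2 by positivity)
      (show (1 / 3 : ℝ) < 1 by norm_num)
    obtain ⟨R, hR, hq⟩ := ih (k + m + 1)
    refine ⟨br R m c p (8 * c), br_lev _ _ _ fun i j hj => le_trans (by omega) (hR i j hj),
      fun x y hx h1 h2 => ?_⟩
    have hσ : (2 : ℝ) / 3 ^ (k + m + 1) ≤ e * (8 * c) := by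
      have : (1 / 3 : ℝ) ^ (k + m + 1) ≤ (1 / 3) ^ k :=
        pow_le_pow_of_le_one (by norm_num) (by norm_num) (by omega)
      rw [one_div_pow] at this
      have e1 : (2 : ℝ) / 3 ^ (k + m + 1) = 2 * (1 / 3 ^ (k + m + 1)) := by ring
      linarith
    set s := (x - p) / 8 with hs
    have hs0 : 0 ≤ s := by rw [hs]; linarith
    have hs1 : s ≤ 1 / 4 := by rw [hs]; linarith
    have e4 : (x - p) / 2 = 4 * s := by rw [hs]; ring
    have hn : (0 : ℝ) ≤ n := by positivity
    set l : ℝ := 1 / (1 + n * (4 * s)) with hl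
    set u : ℝ := 1 / (1 + n * s) with hu
    have hl0 : 0 < l := by positivity
    have hu0 : 0 < u := by positivity
    have hl1 : l ≤ 1 := by rw [hl, div_le_one (by positivity)]; nlinarith
    have hu1 : u ≤ 1 := by rw [hu, div_le_one (by positivity)]; nlinarith
    have hη : 0 ≤ 4 * n * e := by positivity
    have key := br_q (R := R) (m := m) (m' := k + m + 1) (p := p) (D := 8 * c) (e := e) (x := x)
      (y := y) (by omega) hR (by positivity) he he' hσ hx (s := s)
      (by rw [hs, ← hcd]; field_simp) hs0 hs1 (L := max 0 (l - 4 * n * e))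
      (U := min 1 (u + 4 * n * e)) (le_max_left _ _) (min_le_left _ _) (fun y => by
        obtain ⟨a, b⟩ := hq x y hx h1 h2
        rw [e4] at a
        exact ⟨max_le (R.q_nonneg _ _) a, le_min (R.q_le _ _) b⟩)
    obtain ⟨k1, k2⟩ := key
    rw [e4]
    push_cast
    constructor
    · refine le_trans ?_ k1
      set L := max 0 (l - 4 * n * e) with hL
      have L0 : 0 ≤ L := le_max_left _ _
      have L1 : l - 4 * n * e ≤ L := le_max_right _ _
      have L2 : L ≤ l := max_le hl0.le (by linarith)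
      have f1 : 1 / (1 + (n + 1) * (4 * s)) ≤ l - 2 * s * l ^ 2 := by
        have e1 : 1 / (1 + (n + 1) * (4 * s)) = l / (1 + 4 * s * l) := by
          rw [hl]; field_simp; ring
        rw [e1, div_le_iff₀ (by positivity)]
        have : 0 ≤ s * l := by positivity
        have h3 : s * l ≤ 1 / 4 := by nlinarith
        nlinarith [mul_nonneg (mul_nonneg this hl0.le) (sub_nonneg.2 h3)]
      have f2 : 2 * s * L ^ 2 ≤ 2 * s * l ^ 2 :=
        mul_le_mul_of_nonneg_left (pow_le_pow_left₀ L0 L2 2) (by positivity)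
      nlinarith
    · refine le_trans k2 ?_
      set U := min 1 (u + 4 * n * e) with hU
      have U1 : U ≤ u + 4 * n * e := min_le_right _ _
      have U2 : u ≤ U := le_min hu1 (by linarith)
      have f1 : u - s * u ^ 2 ≤ 1 / (1 + (n + 1) * s) := by
        have e1 : 1 / (1 + (n + 1) * s) = u / (1 + s * u) := by
          rw [hu]; field_simp; ring
        rw [e1, le_div_iff₀ (by positivity)]
        have : 0 ≤ s * u := by positivity
        nlinarith [mul_nonneg (mul_nonneg this this) hu0.le]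
      have f2 : s * u ^ 2 ≤ s * U ^ 2 :=
        mul_le_mul_of_nonneg_left (pow_le_pow_left₀ hu0.le U2 2) hs0
      nlinarith

lemma many (m : ℕ) (lo : ℕ → ℝ → ℝ) (U : ℝ) (X Y : Set ℝ)
    (h : ∀ k, ∃ R : RP, R.Lev m ∧ (∀ x ∈ X, ∀ y, lo k x ≤ R.q x y) ∧ ∀ x ∈ Y, ∀ y, R.q x y ≤ U)
    (s : Finset ℕ) : ∃ R : RP, R.Lev m ∧
      (∀ x ∈ X, ∀ y, 1 - R.q x y ≤ Real.exp (-∑ k ∈ s, lo k x)) ∧
      ∀ x ∈ Y, ∀ y, R.q x y ≤ s.card * U := by
  induction s using Finset.induction_on with
  | empty => exact ⟨empt, fun i => i.elim, fun x _ y => by simp [empt_q], fun x _ y => by simp [empt_q]⟩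
  | insert k s hk ih =>
    obtain ⟨R, h1, h2, h3⟩ := ih
    obtain ⟨S, k1, k2, k3⟩ := h k
    refine ⟨uni S R, uni_lev k1 h1, fun x hx y => ?_, fun x hx y => ?_⟩
    · rw [uni_q, Finset.sum_insert hk, neg_add, Real.exp_add]
      have e : 1 - (S.q x y + R.q x y - S.q x y * R.q x y) = (1 - S.q x y) * (1 - R.q x y) := by ring
      rw [e]
      refine mul_le_mul ?_ (h2 x hx y) (sub_nonneg.2 (R.q_le _ _)) (Real.exp_pos _).le
      have := Real.add_one_le_exp (-lo k x)
      linarith [k2 x hx y]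
    · rw [uni_q, Finset.card_insert_of_notMem hk]
      push_cast
      nlinarith [h3 x hx y, k3 x hx y, mul_nonneg (S.q_nonneg x y) (R.q_nonneg x y)]

lemma multi (ε : ℝ) (hε : 0 < ε) (m : ℕ) : ∃ R : RP, R.Lev m ∧
    (∀ x ∈ Icc (0 : ℝ) (1 / 6), ∀ y, 1 - R.q x y ≤ ε) ∧
    ∀ x ∈ Icc (1 / 3 : ℝ) (4 / 3), ∀ y, R.q x y ≤ ε := by
  obtain ⟨ρ, hρ⟩ := exists_nat_ge (max 1 (24 / ε))
  have hρ1 : (1 : ℝ) ≤ ρ := (le_max_left _ _).trans hρ
  have hρ2 : 24 ≤ ρ * ε := by
    have := (le_max_right _ _).trans hρ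
    rwa [div_le_iff₀ hε] at this
  obtain ⟨K, hK1, hK⟩ : ∃ K : ℕ, 1 ≤ K ∧
      2 * ρ * (1 / ε + 1) ≤ ∑ j ∈ Finset.range K, 1 / ((j : ℝ) + 1) := by
    obtain ⟨K, hK⟩ := ((Filter.eventually_ge_atTop 1).and
      (Real.tendsto_sum_range_one_div_nat_succ_atTop.eventually_ge_atTop
        (2 * ρ * (1 / ε + 1)))).exists
    exact ⟨K, hK⟩
  have hK0 : (1 : ℝ) ≤ K := by exact_mod_cast hK1
  set n : ℕ := 12 * ρ * K with hn
  have hn' : (n : ℝ) = 12 * ρ * K := by rw [hn]; push_cast; ring
  have hn0 : (0 : ℝ) < n := by rw [hn']; positivity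
  set h : ℝ := 1 / (6 * K) with hh
  have hh0 : 0 < h := by positivity
  have hKh : K * h = 1 / 6 := by rw [hh]; field_simp
  set e : ℝ := min (ε / 2) 1 / (12 * K * n) with he
  have hmin : 0 < min (ε / 2) 1 := lt_min (by linarith) one_pos
  have he0 : 0 < e := by positivity
  have he1 : 3 * K * (4 * n * e) = min (ε / 2) 1 := by rw [he]; field_simp; ring
  have he2 : e ≤ 1 / 4 := by
    have h1 : (1 : ℝ) ≤ n := by rw [hn']; nlinarith
    have h2 := min_le_right (ε / 2) 1
    rw [he, div_le_iff₀ (by positivity)]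
    nlinarith
  let p : ℕ → ℝ := fun k => ((min k (2 * K) : ℕ) - K : ℝ) * h
  have hp : ∀ k, -(1 / 6) ≤ p k ∧ p k ≤ 1 / 6 := by
    intro k
    have h1 : (0 : ℝ) ≤ (min k (2 * K) : ℕ) := by positivity
    have h2 : ((min k (2 * K) : ℕ) : ℝ) ≤ 2 * K := by exact_mod_cast min_le_right k (2 * K)
    simp only [p]
    constructor <;> nlinarith
  let lo : ℕ → ℝ → ℝ := fun k x =>
    if p k ≤ x then max 0 (1 / (1 + n * ((x - p k) / 2)) - 4 * n * e) else 0
  obtain ⟨R, h1, h2, h3⟩ := many m lo (48 / n + 4 * n * e) (Icc (0 : ℝ) (1 / 6))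
    (Icc (1 / 3 : ℝ) (4 / 3)) (fun k => by
      obtain ⟨R, r1, r2⟩ := level (p k) e he0 he2 n m
      obtain ⟨p1, p2⟩ := hp k
      refine ⟨R, r1, fun x hx y => ?_, fun x hx y => ?_⟩
      · simp only [lo]
        split_ifs with hpx
        · exact max_le (R.q_nonneg _ _) (r2 x y (by rw [abs_le]; constructor <;> linarith [hx.1, hx.2])
            hpx (by linarith [hx.2])).1
        · exact R.q_nonneg _ _
      · refine (r2 x y (by rw [abs_le]; constructor <;> linarith [hx.1, hx.2])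
            (by linarith [hx.1]) (by linarith [hx.2])).2.trans ?_
        have : 1 / (1 + n * ((x - p k) / 8)) ≤ 48 / n := by
          have h4 : 1 / 48 ≤ (x - p k) / 8 := by linarith [hx.1]
          rw [div_le_div_iff₀ (by nlinarith) hn0]
          nlinarith
        linarith) (Finset.range (2 * K + 1))
  refine ⟨R, h1, fun x hx y => (h2 x hx y).trans ?_, fun x hx y => (h3 x hx y).trans ?_⟩
  · have lo0 : ∀ k, 0 ≤ lo k x := fun k => by
      simp only [lo]; split_ifs; exacts [le_max_left _ _, le_rfl]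
    set k0 := ⌊x / h⌋₊ with hk0
    have a1 : (k0 : ℝ) * h ≤ x := by
      rw [← le_div_iff₀ hh0]; exact Nat.floor_le (div_nonneg hx.1 hh0.le)
    have a2 : x ≤ (k0 + 1) * h := by
      rw [← div_le_iff₀ hh0]; exact (Nat.lt_floor_add_one _).le
    have a3 : k0 ≤ K := by
      have : (k0 : ℝ) * h ≤ K * h := by rw [hKh]; linarith [hx.2]
      exact_mod_cast le_of_mul_le_mul_right this hh0
    have b1 : ∑ j ∈ Finset.range K, lo (k0 + K - j) x ≤ ∑ k ∈ Finset.range (2 * K + 1), lo k x := by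
      rw [← Finset.sum_image (s := Finset.range K) (g := fun j => k0 + K - j) (f := fun k => lo k x)]
      · refine Finset.sum_le_sum_of_subset_of_nonneg ?_ fun k _ _ => lo0 k
        intro k hk
        obtain ⟨j, hj, rfl⟩ := Finset.mem_image.1 hk
        exact Finset.mem_range.2 (by omega)
      · intro i hi j hj hij
        have hi := Finset.mem_range.1 hi
        have hj := Finset.mem_range.1 hj
        simp only at hij
        omega
    have b2 : ∀ j ∈ Finset.range K, 1 / (2 * ρ) * (1 / ((j : ℝ) + 1)) - 4 * n * e ≤ lo (k0 + K - j) x := by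
      intro j hj
      have hj := Finset.mem_range.1 hj
      have hj0 : (0 : ℝ) ≤ j := by positivity
      have e1 : p (k0 + K - j) = (k0 - j : ℝ) * h := by
        simp only [p]
        rw [min_eq_left (by omega), Nat.cast_sub (by omega)]
        push_cast; ring
      have c1 : p (k0 + K - j) ≤ x := by rw [e1]; nlinarith
      simp only [lo, if_pos c1]
      refine le_trans ?_ (le_max_right _ _)
      have c2 : n * ((x - p (k0 + K - j)) / 2) ≤ ρ * (j + 1) := by
        have c3 : x - p (k0 + K - j) ≤ (j + 1) * h := by rw [e1]; linarith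
        have c4 : (n : ℝ) * h = 2 * ρ := by rw [hn', hh]; field_simp; ring
        nlinarith
      have c5 : 1 / (2 * ρ) * (1 / ((j : ℝ) + 1)) ≤ 1 / (1 + n * ((x - p (k0 + K - j)) / 2)) := by
        rw [one_div_mul_one_div]
        apply one_div_le_one_div_of_le (by have := sub_nonneg.2 c1; positivity)
        nlinarith
      linarith
    have b3 := (Finset.sum_le_sum b2).trans b1
    rw [Finset.sum_sub_distrib, ← Finset.mul_sum, Finset.sum_const, Finset.card_range,
      nsmul_eq_mul] at b3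
    have b4 : 1 / ε + 1 ≤ 1 / (2 * ρ) * ∑ j ∈ Finset.range K, 1 / ((j : ℝ) + 1) := by
      rw [one_div_mul_eq_div, le_div_iff₀ (by positivity)]; linarith
    have b5 : K * (4 * n * e) ≤ 1 := by
      have := min_le_right (ε / 2) 1
      have h0 : 0 ≤ K * (4 * n * e) := by positivity
      linarith
    have b6 : 1 / ε ≤ ∑ k ∈ Finset.range (2 * K + 1), lo k x := by linarith
    rw [Real.exp_neg, inv_le_comm₀ (Real.exp_pos _) hε]
    have := Real.add_one_le_exp (∑ k ∈ Finset.range (2 * K + 1), lo k x)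
    rw [← one_div]; linarith
  · rw [Finset.card_range]
    have c1 : ((2 * K + 1 : ℕ) : ℝ) ≤ 3 * K := by push_cast; linarith
    have c2 : 3 * K * (48 / n : ℝ) ≤ ε / 2 := by
      rw [hn', show 3 * K * (48 / (12 * ρ * K) : ℝ) = 12 / ρ by field_simp; ring,
        div_le_iff₀ (by positivity)]
      linarith
    have c3 := min_le_left (ε / 2) 1
    have c4 : (0 : ℝ) ≤ 48 / n + 4 * n * e := by positivity
    nlinarith

end Pool.Agent.Lib.helper16.KcB
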