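import Pool.Agent.Lib.helper16.KcB

namespace Pool.Agent.Lib.helper16.KcC
open MeasureTheory Set Metric Pool.Agent.Lib.helper16.KcA Pool.Agent.Lib.helper16.KcB
open scoped ENNReal Topology

lemma derand (R : RP) (ε w : ℝ) (hw : 0 < w) (hw1 : w ≤ 1)
    (h1 : ∀ x ∈ Icc (0 : ℝ) (1 / 6), ∀ y, 1 - R.q x y ≤ ε)
    (h2 : ∀ x ∈ Icc (1 / 3 : ℝ) (4 / 3), ∀ y, R.q x y ≤ ε) : ∃ ω : R.Ω,
    volume {z : ℝ × ℝ | z.1 ∈ Icc (0 : ℝ) (1 / 6) ∧ z.2 ∈ Icc 0 w ∧ ω ∉ R.cov z.1 z.2}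
      ≤ ENNReal.ofReal ε * 8 ∧
    volume {z : ℝ × ℝ | z.1 ∈ Icc (1 / 3 : ℝ) (4 / 3) ∧ z.2 ∈ Icc (-w) (3 * w) ∧ ω ∈ R.cov z.1 z.2}
      ≤ ENNReal.ofReal ε * 8 := by
  set Q : Set (ℝ × ℝ) := Icc (0 : ℝ) 2 ×ˢ Icc (-1 : ℝ) 3 with hQ
  have hQm : MeasurableSet Q := measurableSet_Icc.prod measurableSet_Icc
  set Bad : Set (R.Ω × (ℝ × ℝ)) := {p | p.2 ∈ Q ∧ ((p.2.1 ∈ Icc (0 : ℝ) (1 / 6) ∧
    ¬ p.1 ∈ R.cov p.2.1 p.2.2) ∨ (p.2.1 ∈ Icc (1 / 3 : ℝ) (4 / 3) ∧ p.1 ∈ R.cov p.2.1 p.2.2))} with hB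
  have hBm : MeasurableSet Bad :=
    (hQm.preimage measurable_snd).inter
      (((measurableSet_Icc.preimage measurable_snd.fst).inter R.joint.compl).union
        ((measurableSet_Icc.preimage measurable_snd.fst).inter R.joint))
  have hvol : (R.μ.prod volume) Bad ≤ ENNReal.ofReal ε * 8 := by
    rw [Measure.prod_apply_symm hBm]
    have : ∀ z : ℝ × ℝ, R.μ ((fun ω => (ω, z)) ⁻¹' Bad) ≤ Q.indicator (fun _ => ENNReal.ofReal ε) z := by
      intro z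
      by_cases hz : z ∈ Q
      · rw [indicator_of_mem hz]
        by_cases hx : z.1 ∈ Icc (0 : ℝ) (1 / 6)
        · have hs : (fun ω => (ω, z)) ⁻¹' Bad ⊆ (R.cov z.1 z.2)ᶜ := by
            rintro ω ⟨_, h | h⟩
            · exact h.2
            · exfalso; linarith [hx.2, h.1.1]
          refine (measure_mono hs).trans ?_
          rw [← ofReal_measureReal, probReal_compl_eq_one_sub (R.cov_meas _ _)]
          exact ENNReal.ofReal_le_ofReal (h1 _ hx _)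
        · by_cases hx2 : z.1 ∈ Icc (1 / 3 : ℝ) (4 / 3)
          · have hs : (fun ω => (ω, z)) ⁻¹' Bad ⊆ R.cov z.1 z.2 := by
              rintro ω ⟨_, h | h⟩
              · exact absurd h.1 hx
              · exact h.2
            refine (measure_mono hs).trans ?_
            rw [← ofReal_measureReal]
            exact ENNReal.ofReal_le_ofReal (h2 _ hx2 _)
          · have hs : (fun ω => (ω, z)) ⁻¹' Bad ⊆ ∅ := by
              rintro ω ⟨_, h | h⟩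
              · exact absurd h.1 hx
              · exact absurd h.1 hx2
            refine (measure_mono hs).trans ?_
            simp
      · have hs : (fun ω => (ω, z)) ⁻¹' Bad ⊆ ∅ := fun ω h => absurd h.1 hz
        refine (measure_mono hs).trans ?_
        simp
    refine (lintegral_mono this).trans ?_
    rw [lintegral_indicator hQm, setLIntegral_const, hQ, Measure.volume_eq_prod, Measure.prod_prod,
      Real.volume_Icc, Real.volume_Icc, ← ENNReal.ofReal_mul (by norm_num)]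
    norm_num
  rw [Measure.prod_apply hBm] at hvol
  obtain ⟨ω, hω⟩ := exists_le_lintegral (μ := R.μ)
    (measurable_measure_prodMk_left (ν := (volume : Measure (ℝ × ℝ))) hBm).aemeasurable
  refine ⟨ω, le_trans (measure_mono ?_) (hω.trans hvol), le_trans (measure_mono ?_) (hω.trans hvol)⟩
  · rintro z ⟨a, b, c⟩
    exact ⟨⟨⟨a.1, by linarith [a.2]⟩, ⟨by linarith [b.1], by linarith [b.2]⟩⟩, Or.inl ⟨a, c⟩⟩
  · rintro z ⟨a, b, c⟩
    exact ⟨⟨⟨by linarith [a.1], by linarith [a.2]⟩, ⟨by linarith [b.1], by linarith [b.2]⟩⟩,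
      Or.inr ⟨a, c⟩⟩

def bad1 (I : Finset (Finset ℕ × ℝ)) (w w' : ℝ) : Set (ℝ × ℝ) :=
  {z | z.1 ∈ Icc (0 : ℝ) (1 / 6) ∧ z.2 ∈ Icc 0 w ∧ ∀ p ∈ I, z.2 - fval p.1 * z.1 - p.2 ∉ Icc 0 w'}

def bad2 (I : Finset (Finset ℕ × ℝ)) (w' : ℝ) : Set (ℝ × ℝ) :=
  {z | z.1 ∈ Icc (1 / 3 : ℝ) (4 / 3) ∧ ∃ p ∈ I, |z.2 - fval p.1 * z.1 - p.2| ≤ 10 * w'}

theorem block (M : ℕ) (w ε : ℝ) : ∃ (I : Finset (Finset ℕ × ℝ)) (M' : ℕ) (w' : ℝ),
    0 < w → w ≤ 1 → 1 / 3 ^ M ≤ w → 0 < ε →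
    M < M' ∧ 0 < w' ∧ w' ≤ w / 10 ∧ 1 / 3 ^ M' ≤ w' ∧
    (∀ p ∈ I, (∀ j ∈ p.1, M ≤ j ∧ j < M') ∧ |p.2| ≤ 2 * w) ∧
    (∀ p ∈ I, ∀ q ∈ I, p.1 = q.1 → p = q) ∧
    volume (bad1 I w w') ≤ ENNReal.ofReal ε ∧ volume (bad2 I w') ≤ ENNReal.ofReal ε := by
  classical
  by_cases H : 0 < w ∧ w ≤ 1 ∧ 1 / 3 ^ M ≤ w ∧ 0 < ε
  swap
  · exact ⟨∅, 0, 0, fun a b c d => absurd ⟨a, b, c, d⟩ H⟩
  obtain ⟨hw, hw1, hM, hε⟩ := H
  obtain ⟨R, hR, h1, h2⟩ := multi (ε / 16) (by positivity) M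
  obtain ⟨ω, v1, v2⟩ := derand R _ w hw hw1 h1 h2
  have e8 : ENNReal.ofReal (ε / 16) * 8 = ENNReal.ofReal (ε / 2) := by
    rw [show (8 : ℝ≥0∞) = ENNReal.ofReal 8 by simp, ← ENNReal.ofReal_mul (by positivity)]
    congr 1; ring
  rw [e8] at v1 v2
  have ha : ∀ i, 0 ≤ fval (R.dg i) ∧ fval (R.dg i) ≤ w := fun i =>
    ⟨fval_nonneg _, (fval_le (hR i)).trans hM⟩
  let B' : R.ι → Set ℝ := fun i => R.B i ω ∩ Icc (-w) w
  have hB' : ∀ i, IsCompact (B' i) := fun i => isCompact_Icc.inter_left (R.closed i ω)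
  let N : Set (ℝ × ℝ) := ⋃ i, (fun z : ℝ × ℝ => (z.1, fval (R.dg i) * z.1 + z.2)) ''
    (Icc (1 / 3 : ℝ) (4 / 3) ×ˢ B' i)
  have hN : IsCompact N := isCompact_iUnion fun i => (isCompact_Icc.prod (hB' i)).image (by fun_prop)
  have hNv : volume N < ENNReal.ofReal ε := by
    refine lt_of_le_of_lt (le_trans (measure_mono ?_) v2)
      ((ENNReal.ofReal_lt_ofReal_iff hε).2 (by linarith))
    intro z hz
    obtain ⟨i, ⟨x, b⟩, ⟨hx, hb, hb2⟩, rfl⟩ := mem_iUnion.1 hz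
    obtain ⟨a0, a1⟩ := ha i
    have hx1 : 1 / 3 ≤ x := hx.1
    have hx2 : x ≤ 4 / 3 := hx.2
    have hb3 : -w ≤ b := hb2.1
    have hb4 : b ≤ w := hb2.2
    refine ⟨hx, ⟨?_, ?_⟩, ⟨i, ?_⟩⟩
    · simp only; nlinarith
    · simp only; nlinarith
    · simpa using hb
  obtain ⟨r, hr0, hr⟩ : ∃ r > 0, volume (cthickening r N) < ENNReal.ofReal ε := by
    have := (tendsto_measure_cthickening_of_isCompact (μ := volume) hN).eventually (gt_mem_nhds hNv)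
    obtain ⟨δ, hδ, h⟩ := Metric.eventually_nhds_iff.1 this
    exact ⟨δ / 2, by positivity, h (by rw [dist_zero_right, Real.norm_of_nonneg (by positivity)]; linarith)⟩
  set w' := min (w / 10) (r / 13) with hw'
  have hw'0 : 0 < w' := lt_min (by positivity) (by positivity)
  have hw'1 : w' ≤ w / 10 := min_le_left _ _
  have hw'2 : w' ≤ r / 13 := min_le_right _ _
  choose t ht1 ht2 ht3 using fun i => finite_cover_balls_of_compact (hB' i)
    (show 0 < w' / 4 by positivity)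
  let J : Finset (R.ι × ℝ) := Finset.univ.biUnion fun i => (ht2 i).toFinset.image fun b => (i, b)
  have hJ : ∀ j, j ∈ J ↔ j.2 ∈ t j.1 := by
    rintro ⟨i, b⟩
    simp [J]
  obtain ⟨k, hk⟩ := exists_pow_lt_of_lt_one hw'0 (show (1 / 3 : ℝ) < 1 by norm_num)
  set M2 := k + M + (Finset.univ.sup fun i => (R.dg i).sup id) + 1 with hM2
  have hM2a : ∀ i, ∀ j ∈ R.dg i, j < M2 := by
    intro i j hj
    have a1 : j ≤ (R.dg i).sup id := Finset.le_sup (f := id) hj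
    have a2 : (R.dg i).sup id ≤ Finset.univ.sup fun i => (R.dg i).sup id :=
      Finset.le_sup (f := fun i => (R.dg i).sup id) (Finset.mem_univ i)
    omega
  have hpow : ∀ l, M2 ≤ l → (1 : ℝ) / 3 ^ l ≤ w' := by
    intro l hl
    have : (1 / 3 : ℝ) ^ l ≤ (1 / 3) ^ k :=
      pow_le_pow_of_le_one (by norm_num) (by norm_num) (by omega)
    rw [one_div_pow] at this
    linarith
  let τ : J → ℕ := fun j => (J.equivFin j : ℕ)
  let ch : J → Finset ℕ × ℝ := fun j => (insert (M2 + τ j) (R.dg j.1.1), j.1.2 - 3 * w' / 4)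
  have hnot : ∀ j : J, ∀ i, M2 + τ j ∉ R.dg i := fun j i h => by have := hM2a i _ h; omega
  have hch : ∀ j : J, ∃ θ, 0 ≤ θ ∧ θ ≤ w' ∧ fval (ch j).1 = θ + fval (R.dg j.1.1) := by
    intro j
    refine ⟨2 / 3 ^ (M2 + τ j + 1), by positivity, ?_, fval_insert (hnot j _)⟩
    have := hpow (M2 + τ j) (by omega)
    have e : (2 : ℝ) / 3 ^ (M2 + τ j + 1) = 2 / 3 * (1 / 3 ^ (M2 + τ j)) := by
      rw [pow_succ]; field_simp
    have : (0 : ℝ) ≤ 1 / 3 ^ (M2 + τ j) := by positivity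
    linarith
  refine ⟨Finset.univ.image ch, M2 + J.card, w', fun _ _ _ _ => ⟨by omega, hw'0, hw'1,
    hpow _ (by omega), ?_, ?_, ?_, ?_⟩⟩
  · intro p hp
    obtain ⟨j, _, rfl⟩ := Finset.mem_image.1 hp
    constructor
    · intro l hl
      rcases Finset.mem_insert.1 hl with rfl | hl
      · have : τ j < J.card := (J.equivFin j).2
        omega
      · exact ⟨hR _ _ hl, by have := hM2a _ _ hl; omega⟩
    · have := (ht1 _ ((hJ _).1 j.2)).2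
      simp only [ch]
      rw [abs_le]; constructor <;> linarith [this.1, this.2]
  · intro p hp q hq hpq
    obtain ⟨j, _, rfl⟩ := Finset.mem_image.1 hp
    obtain ⟨j', _, rfl⟩ := Finset.mem_image.1 hq
    have : M2 + τ j ∈ (ch j').1 := hpq ▸ Finset.mem_insert_self _ _
    rcases Finset.mem_insert.1 this with h | h
    · have h3 : J.equivFin j = J.equivFin j' := Fin.ext (by simpa [τ] using h)
      rw [J.equivFin.injective h3]
    · exact absurd h (hnot j _)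
  · refine le_trans (measure_mono ?_) (v1.trans (ENNReal.ofReal_le_ofReal (by linarith)))
    rintro ⟨x, y⟩ ⟨hx, hy, hz⟩
    refine ⟨hx, hy, ?_⟩
    rintro ⟨i, hi⟩
    obtain ⟨a0, a1⟩ := ha i
    have hx1 : 0 ≤ x := hx.1
    have hx2 : x ≤ 1 / 6 := hx.2
    have hy1 : 0 ≤ y := hy.1
    have hy2 : y ≤ w := hy.2
    have hb : y - fval (R.dg i) * x ∈ B' i := ⟨hi, by nlinarith, by nlinarith⟩
    obtain ⟨b, hb1, hb2⟩ := mem_iUnion₂.1 (ht3 i hb)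
    let j : J := ⟨(i, b), (hJ _).2 hb1⟩
    obtain ⟨θ, t0, t1, t2⟩ := hch j
    refine hz (ch j) (Finset.mem_image_of_mem _ (Finset.mem_univ j)) ?_
    rw [t2]
    rw [mem_ball, Real.dist_eq, abs_lt] at hb2
    change y - (θ + fval (R.dg i)) * x - (b - 3 * w' / 4) ∈ Icc 0 w'
    constructor <;> nlinarith [hb2.1, hb2.2]
  · refine le_trans (measure_mono ?_) hr.le
    rintro ⟨x, y⟩ ⟨hx, p, hp, hz⟩
    obtain ⟨j, _, rfl⟩ := Finset.mem_image.1 hp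
    obtain ⟨θ, t0, t1, t2⟩ := hch j
    rw [t2] at hz
    have hx1 : 1 / 3 ≤ x := hx.1
    have hx2 : x ≤ 4 / 3 := hx.2
    refine mem_cthickening_of_dist_le _ (x, fval (R.dg j.1.1) * x + j.1.2) _ _
      (mem_iUnion.2 ⟨j.1.1, (x, j.1.2), ⟨hx, ht1 _ ((hJ _).1 j.2)⟩, rfl⟩) ?_
    rw [Prod.dist_eq, dist_self, Real.dist_eq]
    change |y - (θ + fval (R.dg j.1.1)) * x - (j.1.2 - 3 * w' / 4)| ≤ 10 * w' at hz
    rw [abs_le] at hz
    refine max_le hr0.le (abs_le.2 ⟨?_, ?_⟩) <;> nlinarith [hz.1, hz.2]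

end Pool.Agent.Lib.helper16.KcC
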