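import Pool.Agent.Lib.helper16.KcC

namespace Pool.Agent.Lib.helper16.KcD
open MeasureTheory Set Metric Filter Pool.Agent.Lib.helper16.KcA Pool.Agent.Lib.helper16.KcC
open scoped ENNReal Topology

lemma shear (a b : ℝ) (S : Set (ℝ × ℝ)) :
    volume ((fun z : ℝ × ℝ => (z.1, z.2 - a * z.1 - b)) ⁻¹' S) ≤ volume S := by
  have h : MeasurePreserving (fun z : ℝ × ℝ => (id z.1, z.2 - a * z.1 - b))
      (volume.prod volume) (volume.prod volume) :=
    (MeasurePreserving.id volume).skew_product (g := fun x y : ℝ => y - a * x - b) (by fun_prop)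
      (ae_of_all _ fun x => by
        have : (fun y : ℝ => y - a * x - b) = fun y => y + (-(a * x) - b) := by ext y; ring
        rw [this, map_add_right_eq_self])
  have h2 := Measure.le_map_apply h.measurable.aemeasurable (μ := volume.prod volume) S
  rw [h.map_eq] at h2
  exact h2

lemma tail {f w : ℕ → ℝ} {C : ℝ} (hC : 0 ≤ C) (hw : ∀ j, w (j + 1) ≤ w j / 10) (hw0 : ∀ j, 0 < w j)
    (hf : ∀ j, |f j| ≤ C * w j) :
    Summable f ∧ ∀ s, |∑' j, f j - ∑ j ∈ Finset.range s, f j| ≤ 2 * C * w s := by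
  have h1 : ∀ s j, w (j + s) ≤ w s * (1 / 2) ^ j := by
    intro s j
    induction j with
    | zero => simp
    | succ j ih =>
      rw [show j + 1 + s = j + s + 1 by ring, pow_succ]
      have := hw (j + s)
      have := hw0 (j + s)
      linarith
  have h2 : ∀ s, HasSum (fun j => C * w s * (1 / 2 : ℝ) ^ j) (C * w s * 2) := fun s =>
    hasSum_geometric_two.mul_left _
  have h3 : ∀ s j, ‖f (j + s)‖ ≤ C * w s * (1 / 2 : ℝ) ^ j := fun s j =>
    (hf _).trans (by rw [mul_assoc]; exact mul_le_mul_of_nonneg_left (h1 s j) hC)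
  have hs : Summable f := Summable.of_norm_bounded (h2 0).summable (h3 0)
  refine ⟨hs, fun s => ?_⟩
  rw [← hs.sum_add_tsum_nat_add s, add_sub_cancel_left]
  refine (tsum_of_norm_bounded (h2 s) (h3 s)).trans (le_of_eq (by ring))

open Classical in
noncomputable def dgs (A : ℕ → Finset ℕ) : ℕ → Fin 3 := fun j => if ∃ s, j ∈ A s then 2 else 0

lemma dgs_ne (A : ℕ → Finset ℕ) (j : ℕ) : dgs A j ≠ 1 := by
  unfold dgs; split_ifs <;> decide

lemma dgs_sum {A : ℕ → Finset ℕ} {M : ℕ → ℕ} (hM : StrictMono M) (h0 : M 0 = 0)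
    (hA : ∀ s, ∀ j ∈ A s, M s ≤ j ∧ j < M (s + 1)) (hs : Summable fun s => fval (A s)) :
    ∑' s, fval (A s) = Real.ofDigits (dgs A) := by
  classical
  have h1 : ∀ S, ∑ s ∈ Finset.range S, fval (A s) =
      ∑ j ∈ Finset.range (M S), Real.ofDigitsTerm (dgs A) j := by
    intro S
    induction S with
    | zero => simp [h0]
    | succ S ih =>
      rw [Finset.sum_range_succ, ih, ← Finset.sum_range_add_sum_Ico _ (hM.monotone (Nat.le_succ S))]
      congr 1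
      have hsub : A S ⊆ Finset.Ico (M S) (M (S + 1)) := fun j hj => Finset.mem_Ico.2 (hA S j hj)
      rw [← Finset.sum_subset hsub]
      · refine Finset.sum_congr rfl fun j hj => ?_
        simp only [Real.ofDigitsTerm, dgs, if_pos (⟨S, hj⟩ : ∃ s, j ∈ A s)]
        simp [div_eq_mul_inv]
      · intro j hj hj'
        have hj := Finset.mem_Ico.1 hj
        have : ¬ ∃ s, j ∈ A s := by
          rintro ⟨s, hs⟩
          obtain ⟨a, b⟩ := hA s j hs
          have c1 : s < S + 1 := hM.lt_iff_lt.1 (by omega)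
          have c2 : S < s + 1 := hM.lt_iff_lt.1 (by omega)
          have : s = S := by omega
          exact hj' (this ▸ hs)
        simp [Real.ofDigitsTerm, dgs, if_neg this]
  have h2 := hs.hasSum.tendsto_sum_nat
  have h3 := ((Real.summable_ofDigitsTerm (digits := dgs A)).hasSum.tendsto_sum_nat).comp
    hM.tendsto_atTop
  simp only [h1] at h2
  exact tendsto_nhds_unique h2 h3

lemma dgs_inj {A A' : ℕ → Finset ℕ} {M : ℕ → ℕ} (hM : StrictMono M)
    (hA : ∀ s, ∀ j ∈ A s, M s ≤ j ∧ j < M (s + 1)) (hA' : ∀ s, ∀ j ∈ A' s, M s ≤ j ∧ j < M (s + 1))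
    (h : dgs A = dgs A') (s : ℕ) : A s ⊆ A' s := by
  intro j hj
  have h1 : dgs A' j = 2 := by rw [← h]; exact if_pos ⟨s, hj⟩
  have h2 : ∃ s, j ∈ A' s := by
    by_contra hn
    rw [dgs, if_neg hn] at h1
    exact absurd h1 (by decide)
  obtain ⟨s', hs'⟩ := h2
  obtain ⟨a, b⟩ := hA s j hj
  obtain ⟨c, d⟩ := hA' s' j hs'
  have c1 : s < s' + 1 := hM.lt_iff_lt.1 (by omega)
  have c2 : s' < s + 1 := hM.lt_iff_lt.1 (by omega)
  have : s' = s := by omega
  exact this ▸ hs'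

theorem stages : ∃ (I : ℕ → Finset (Finset ℕ × ℝ)) (M : ℕ → ℕ) (w : ℕ → ℝ) (N : ℕ → ℕ),
    M 0 = 0 ∧ w 0 = 1 ∧ N 0 = 1 ∧ ∀ s, N (s + 1) = N s * ((I s).card + 1) ∧ 0 < w s ∧
    1 / 3 ^ M s ≤ w s ∧ M s < M (s + 1) ∧ w (s + 1) ≤ w s / 10 ∧
    (∀ p ∈ I s, (∀ j ∈ p.1, M s ≤ j ∧ j < M (s + 1)) ∧ |p.2| ≤ 2 * w s) ∧
    (∀ p ∈ I s, ∀ q ∈ I s, p.1 = q.1 → p = q) ∧
    (N s : ℝ≥0∞) * volume (bad1 (I s) (w s) (w (s + 1))) ≤ ENNReal.ofReal (1 / 20 / 2 / 2 ^ s) ∧
    (N s : ℝ≥0∞) * volume (bad2 (I s) (w (s + 1))) ≤ ENNReal.ofReal (1 / 20 / 2 / 2 ^ s) := by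
  choose I M' w' H using block
  let ε : ℕ → ℕ → ℝ := fun s N => 1 / 20 / 2 / 2 ^ s / N
  let st : ℕ → ℕ × ℝ × ℕ := fun s => Nat.rec (0, 1, 1) (fun s x =>
    (M' x.1 x.2.1 (ε s x.2.2), w' x.1 x.2.1 (ε s x.2.2),
      x.2.2 * ((I x.1 x.2.1 (ε s x.2.2)).card + 1))) s
  have inv : ∀ s, 0 < (st s).2.1 ∧ (st s).2.1 ≤ 1 ∧ 1 / 3 ^ (st s).1 ≤ (st s).2.1 ∧ 0 < (st s).2.2 := by
    intro s
    induction s with
    | zero => simp [st]
    | succ s ih =>
      obtain ⟨a, b, c, d⟩ := ih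
      have hε : 0 < ε s (st s).2.2 := by
        have : (0 : ℝ) < (st s).2.2 := by exact_mod_cast d
        positivity
      obtain ⟨h1, h2, h3, h4, -⟩ := H _ _ _ a b c hε
      exact ⟨h2, h3.trans (by linarith), h4, Nat.mul_pos d (Nat.succ_pos _)⟩
  refine ⟨fun s => I (st s).1 (st s).2.1 (ε s (st s).2.2), fun s => (st s).1, fun s => (st s).2.1,
    fun s => (st s).2.2, rfl, rfl, rfl, fun s => ?_⟩
  obtain ⟨a, b, c, d⟩ := inv s
  have d' : (0 : ℝ) < (st s).2.2 := by exact_mod_cast d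
  have hε : 0 < ε s (st s).2.2 := by positivity
  obtain ⟨h1, h2, h3, h4, h5, h6, h7, h8⟩ := H _ _ _ a b c hε
  have e : ((st s).2.2 : ℝ≥0∞) * ENNReal.ofReal (ε s (st s).2.2) = ENNReal.ofReal (1 / 20 / 2 / 2 ^ s) := by
    rw [← ENNReal.ofReal_natCast, ← ENNReal.ofReal_mul d'.le]
    congr 1; simp only [ε]; field_simp
  exact ⟨rfl, a, c, h1, h3, h5, h6, e ▸ mul_le_mul_right h7 _, e ▸ mul_le_mul_right h8 _⟩

theorem main : ∃ (S : Set ℝ) (β : ℝ → ℝ), S ⊆ cantorSet ∧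
    volume {z : ℝ × ℝ | z.1 ∈ Icc (1 / 3 : ℝ) (4 / 3) ∧ ∃ s ∈ S, z.2 = s * z.1 + β s} = 0 ∧
    ∃ Z : Set (ℝ × ℝ), volume Z ≤ ENNReal.ofReal (1 / 20) ∧
      ∀ z ∈ Icc (0 : ℝ) (1 / 6) ×ˢ Icc (0 : ℝ) 1, z ∉ Z → ∃ s ∈ S, z.2 = s * z.1 + β s := by
  classical
  obtain ⟨I, M, w, N, M0, w0, N0, H⟩ := stages
  choose hN hw hMw hM hw' hI hinj hb1 hb2 using H
  have hMm : StrictMono M := strictMono_nat_of_lt_succ hM
  let W : Set (ℕ → Finset ℕ × ℝ) := {ω | ∀ s, ω s ∈ I s}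
  let a : (ℕ → Finset ℕ × ℝ) → ℝ := fun ω => ∑' s, fval (ω s).1
  let b : (ℕ → Finset ℕ × ℝ) → ℝ := fun ω => ∑' s, (ω s).2
  have ta : ∀ ω ∈ W, Summable (fun s => fval (ω s).1) ∧
      ∀ s, |a ω - ∑ j ∈ Finset.range s, fval (ω j).1| ≤ 2 * 1 * w s := fun ω hω =>
    tail zero_le_one hw' hw fun j => by
      rw [abs_of_nonneg (fval_nonneg _), one_mul]
      exact (fval_le fun l hl => ((hI j _ (hω j)).1 l hl).1).trans (hMw j)
  have tb : ∀ ω ∈ W, Summable (fun s => (ω s).2) ∧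
      ∀ s, |b ω - ∑ j ∈ Finset.range s, (ω j).2| ≤ 2 * 2 * w s := fun ω hω =>
    tail zero_le_two hw' hw fun j => (hI j _ (hω j)).2
  have adg : ∀ ω ∈ W, a ω = Real.ofDigits (dgs fun s => (ω s).1) := fun ω hω =>
    dgs_sum hMm M0 (fun s => (hI s _ (hω s)).1) (ta ω hω).1
  have ainj : InjOn a W := by
    intro ω hω ω' hω' h
    rw [adg ω hω, adg ω' hω'] at h
    have h1 := ofDigits_zero_two_sequence_unique (dgs_ne _) (dgs_ne _) h
    funext s
    exact hinj s _ (hω s) _ (hω' s) (Finset.Subset.antisymm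
      (dgs_inj hMm (fun s => (hI s _ (hω s)).1) (fun s => (hI s _ (hω' s)).1) h1 s)
      (dgs_inj hMm (fun s => (hI s _ (hω' s)).1) (fun s => (hI s _ (hω s)).1) h1.symm s))
  let β : ℝ → ℝ := fun s => b (Function.invFunOn a W s)
  have hβ : ∀ ω ∈ W, β (a ω) = b ω := fun ω hω => congrArg b (ainj.leftInvOn_invFunOn hω)
  let P : ℕ → Finset (ℝ × ℝ) := fun s => Nat.rec {(0, 0)} (fun s Q =>
    (Q ×ˢ I s).image fun u => (u.1.1 + fval u.2.1, u.1.2 + u.2.2)) s
  have Pc : ∀ s, (P s).card ≤ N s := by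
    intro s
    induction s with
    | zero => simp [P, N0]
    | succ s ih =>
      refine Finset.card_image_le.trans ?_
      rw [Finset.card_product, hN]
      exact Nat.mul_le_mul ih (Nat.le_succ _)
  have Pstep : ∀ s, ∀ u ∈ P s, ∀ p ∈ I s, (u.1 + fval p.1, u.2 + p.2) ∈ P (s + 1) :=
    fun s u hu p hp => Finset.mem_image.2 ⟨(u, p), Finset.mem_product.2 ⟨hu, hp⟩, rfl⟩
  have Pm : ∀ ω ∈ W, ∀ s, (∑ j ∈ Finset.range s, fval (ω j).1, ∑ j ∈ Finset.range s, (ω j).2) ∈ P s := by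
    intro ω hω s
    induction s with
    | zero => simp [P]
    | succ s ih =>
      rw [Finset.sum_range_succ, Finset.sum_range_succ]
      exact Pstep s _ ih _ (hω s)
  have un : ∀ s (T : Set (ℝ × ℝ)), volume (⋃ u ∈ P s,
      (fun z : ℝ × ℝ => (z.1, z.2 - u.1 * z.1 - u.2)) ⁻¹' T) ≤ N s * volume T := by
    intro s T
    refine (measure_biUnion_finset_le _ _).trans ?_
    refine (Finset.sum_le_sum fun u _ => shear u.1 u.2 T).trans ?_
    rw [Finset.sum_const, nsmul_eq_mul]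
    exact mul_le_mul_left (by exact_mod_cast Pc s) _
  refine ⟨a '' W, β, ?_, ?_, ⋃ s, ⋃ u ∈ P s, (fun z : ℝ × ℝ => (z.1, z.2 - u.1 * z.1 - u.2)) ⁻¹'
    bad1 (I s) (w s) (w (s + 1)), ?_, ?_⟩
  · rintro _ ⟨ω, hω, rfl⟩
    rw [adg ω hω]
    exact ofDigits_zero_two_sequence_mem_cantorSet (dgs_ne _)
  · have h1 : ∀ s : ℕ, volume {z : ℝ × ℝ | z.1 ∈ Icc (1 / 3 : ℝ) (4 / 3) ∧
        ∃ s ∈ a '' W, z.2 = s * z.1 + β s} ≤ ENNReal.ofReal (1 / 20 / 2 / 2 ^ s) := by
      intro s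
      refine le_trans (measure_mono ?_) ((un s _).trans (hb2 s))
      rintro ⟨x, y⟩ ⟨hx, _, ⟨ω, hω, rfl⟩, hy⟩
      refine mem_biUnion (Pm ω hω s) ⟨hx, ω s, hω s, ?_⟩
      rw [hβ ω hω] at hy
      have c1 := abs_le.1 ((ta ω hω).2 (s + 1))
      have c2 := abs_le.1 ((tb ω hω).2 (s + 1))
      rw [Finset.sum_range_succ] at c1 c2
      have hx1 : 1 / 3 ≤ x := hx.1
      have hx2 : x ≤ 4 / 3 := hx.2
      have := hw (s + 1)
      simp only at hy ⊢
      rw [hy, abs_le]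
      constructor <;> nlinarith [c1.1, c1.2, c2.1, c2.2]
    have h2 : Tendsto (fun s : ℕ => ENNReal.ofReal (1 / 20 / 2 / 2 ^ s)) atTop (𝓝 0) := by
      rw [← ENNReal.ofReal_zero]
      exact ENNReal.tendsto_ofReal (hasSum_geometric_two' (1 / 20)).summable.tendsto_atTop_zero
    exact le_antisymm (ge_of_tendsto' h2 h1) zero_le
  · refine (measure_iUnion_le _).trans ?_
    refine (ENNReal.tsum_le_tsum fun s => (un s _).trans (hb1 s)).trans ?_
    rw [← ENNReal.ofReal_tsum_of_nonneg (fun _ => by positivity)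
      (hasSum_geometric_two' (1 / 20)).summable, (hasSum_geometric_two' (1 / 20)).tsum_eq]
  · rintro ⟨x, y⟩ ⟨hx, hy⟩ hz
    simp only [mem_iUnion, not_exists] at hz
    have step : ∀ s (u : ℝ × ℝ), ∃ p, p ∈ I s ∧ (u ∈ P s → y - u.1 * x - u.2 ∈ Icc 0 (w s) →
        y - (u.1 + fval p.1) * x - (u.2 + p.2) ∈ Icc 0 (w (s + 1))) ∨
        ¬ (u ∈ P s ∧ y - u.1 * x - u.2 ∈ Icc 0 (w s)) := by
      intro s u
      rcases Classical.em (u ∈ P s ∧ y - u.1 * x - u.2 ∈ Icc 0 (w s)) with h | h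
      · by_contra hn
        push Not at hn
        refine hz s u h.1 ⟨hx, h.2, fun p hp hp2 => ?_⟩
        refine ((hn p).1 hp).2.2 ?_
        convert hp2 using 1
        simp only; ring
      · exact ⟨(∅, 0), Or.inr h⟩
    choose f hf using step
    let U : ℕ → ℝ × ℝ := fun s => Nat.rec (0, 0) (fun s u => (u.1 + fval (f s u).1, u.2 + (f s u).2)) s
    have hU : ∀ s, U s ∈ P s ∧ y - (U s).1 * x - (U s).2 ∈ Icc 0 (w s) := by
      intro s
      induction s with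
      | zero => exact ⟨by simp [U, P], by simpa [U, w0] using hy⟩
      | succ s ih =>
        rcases hf s (U s) with h | h
        · exact ⟨Pstep s _ ih.1 _ h.1, h.2 ih.1 ih.2⟩
        · exact absurd ih h
    let ω : ℕ → Finset ℕ × ℝ := fun s => f s (U s)
    have hω : ω ∈ W := fun s => by
      rcases hf s (U s) with h | h
      · exact h.1
      · exact absurd (hU s) h
    have hUs : ∀ s, U s = (∑ j ∈ Finset.range s, fval (ω j).1, ∑ j ∈ Finset.range s, (ω j).2) := by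
      intro s
      induction s with
      | zero => simp [U]
      | succ s ih =>
        rw [Finset.sum_range_succ, Finset.sum_range_succ]
        change ((U s).1 + fval (ω s).1, (U s).2 + (ω s).2) = _
        rw [ih]
    refine ⟨a ω, mem_image_of_mem _ hω, ?_⟩
    rw [hβ ω hω]
    have w1 : Tendsto w atTop (𝓝 0) :=
      (tail zero_le_one hw' hw (f := w) fun j => by rw [abs_of_pos (hw j), one_mul]).1.tendsto_atTop_zero
    have t1 : Tendsto (fun s => y - (U s).1 * x - (U s).2) atTop (𝓝 (y - a ω * x - b ω)) := by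
      simp only [hUs]
      exact (tendsto_const_nhds.sub ((ta ω hω).1.hasSum.tendsto_sum_nat.mul_const x)).sub
        (tb ω hω).1.hasSum.tendsto_sum_nat
    have t2 : Tendsto (fun s => y - (U s).1 * x - (U s).2) atTop (𝓝 0) :=
      squeeze_zero (fun s => (hU s).2.1) (fun s => (hU s).2.2) w1
    have := tendsto_nhds_unique t1 t2
    simp only
    linarith

end Pool.Agent.Lib.helper16.KcD
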