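import Mathlib

namespace Pool.Agent.Lib.helper16.KtA
open Finset

def Adm (E : Finset ℕ) : Prop := ∀ i ∈ E, E.card ≤ i + 1

def WB (f : ℕ → ℝ) (A : ℝ) : Prop :=
  ∀ (ι : Type) (s : Finset ι) (E : ι → Finset ℕ), (∀ k ∈ s, Adm (E k)) →
    (∀ k ∈ s, ∀ l ∈ s, k ≠ l → Disjoint (E k) (E l)) →
      ∑ k ∈ s, (∑ i ∈ E k, |f i|) ^ 2 ≤ A ^ 2

lemma Adm.sub {E F : Finset ℕ} (h : Adm E) (hF : F ⊆ E) : Adm F :=
  fun i hi => (card_le_card hF).trans (h i (hF hi))

lemma WB.of_le {f g : ℕ → ℝ} {A : ℝ} (h : WB f A) (hg : ∀ i, |g i| ≤ |f i|) : WB g A := by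
  intro ι s E h1 h2
  refine le_trans (sum_le_sum fun k _ => ?_) (h ι s E h1 h2)
  exact pow_le_pow_left₀ (sum_nonneg fun i _ => abs_nonneg _) (sum_le_sum fun i _ => hg i) 2

lemma WB.smul {f : ℕ → ℝ} {A : ℝ} (h : WB f A) (c : ℝ) : WB (fun i => c * f i) (c * A) := by
  intro ι s E h1 h2
  have := h ι s E h1 h2
  have e : ∀ k, (∑ i ∈ E k, |c * f i|) ^ 2 = c ^ 2 * (∑ i ∈ E k, |f i|) ^ 2 := by
    intro k
    simp only [abs_mul, ← mul_sum, mul_pow, sq_abs]
  simp only [e, ← mul_sum, mul_pow]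
  exact mul_le_mul_of_nonneg_left this (sq_nonneg c)

lemma WB.add {f g : ℕ → ℝ} {A B : ℝ} (hf : WB f A) (hg : WB g B) (hA : 0 ≤ A) (hB : 0 ≤ B) :
    WB (fun i => f i + g i) (A + B) := by
  intro ι s E h1 h2
  have a1 := hf ι s E h1 h2
  have a2 := hg ι s E h1 h2
  have a3 := sum_mul_sq_le_sq_mul_sq s (fun k => ∑ i ∈ E k, |f i|) (fun k => ∑ i ∈ E k, |g i|)
  have a4 : ∑ k ∈ s, (∑ i ∈ E k, |f i|) * (∑ i ∈ E k, |g i|) ≤ A * B := by
    refine (abs_le_of_sq_le_sq' ?_ (mul_nonneg hA hB)).2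
    rw [mul_pow]
    exact a3.trans (mul_le_mul a1 a2 (sum_nonneg fun _ _ => sq_nonneg _) (sq_nonneg _))
  have a5 : ∑ k ∈ s, (∑ i ∈ E k, |f i + g i|) ^ 2 ≤
      ∑ k ∈ s, ((∑ i ∈ E k, |f i|) ^ 2 + 2 * ((∑ i ∈ E k, |f i|) * (∑ i ∈ E k, |g i|)) +
        (∑ i ∈ E k, |g i|) ^ 2) := by
    refine sum_le_sum fun k _ => ?_
    have : ∑ i ∈ E k, |f i + g i| ≤ ∑ i ∈ E k, |f i| + ∑ i ∈ E k, |g i| := by
      rw [← sum_add_distrib]; exact sum_le_sum fun i _ => abs_add_le _ _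
    have := pow_le_pow_left₀ (sum_nonneg fun i _ => abs_nonneg _) this 2
    linarith [add_sq (∑ i ∈ E k, |f i|) (∑ i ∈ E k, |g i|)]
  rw [sum_add_distrib, sum_add_distrib, ← mul_sum] at a5
  nlinarith

lemma WB.adm {f : ℕ → ℝ} {A : ℝ} (h : WB f A) (hA : 0 ≤ A) {E : Finset ℕ} (hE : Adm E) :
    ∑ i ∈ E, |f i| ≤ A := by
  have := h Unit univ (fun _ => E) (fun _ _ => hE) (fun _ _ _ _ h => (h rfl).elim)
  exact (abs_le_of_sq_le_sq' (by simpa using this) hA).2

lemma WB.coord {f : ℕ → ℝ} {A : ℝ} (h : WB f A) (hA : 0 ≤ A) (i : ℕ) : |f i| ≤ A := by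
  simpa using h.adm hA (E := {i}) (by intro j _; simp)

lemma wb_single (j : ℕ) : WB (fun i => if i = j then 1 else 0) 1 := by
  classical
  intro ι s E _ h2
  have e : ∀ k, (∑ i ∈ E k, |if i = j then (1 : ℝ) else 0|) ^ 2 = if j ∈ E k then 1 else 0 := by
    intro k
    have : ∀ i, |if i = j then (1 : ℝ) else 0| = if i = j then 1 else 0 := by
      intro i; split_ifs <;> simp
    simp only [this, sum_ite_eq']
    split_ifs <;> simp
  simp only [e, sum_boole, one_pow]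
  have : (s.filter fun k => j ∈ E k).card ≤ 1 := by
    refine card_le_one.2 fun a ha b hb => ?_
    rw [mem_filter] at ha hb
    by_contra hne
    exact disjoint_left.1 (h2 a ha.1 b hb.1 hne) ha.2 hb.2
  exact_mod_cast this

lemma WB.cut {f : ℕ → ℝ} (h : WB f 1) (S : ℕ → Prop) [DecidablePred S] :
    WB (fun i => if S i then f i else 0) (3 / 4) ∨ WB (fun i => if S i then 0 else f i) (3 / 4) := by
  rw [or_iff_not_imp_left]
  intro hn ι s E h1 h2
  simp only [WB, not_forall, not_le] at hn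
  obtain ⟨κ, t, F, g1, g2, g3⟩ := hn
  have := h (ι ⊕ κ) (s.disjSum t)
    (Sum.elim (fun k => (E k).filter fun i => ¬ S i) fun k => (F k).filter S) ?_ ?_
  · rw [sum_disjSum] at this
    simp only [Sum.elim_inl, Sum.elim_inr, sum_filter] at this
    have e1 : ∀ i, |if S i then f i else 0| = if S i then |f i| else 0 := by
      intro i; split_ifs <;> simp
    have e2 : ∀ i, |if S i then 0 else f i| = if ¬ S i then |f i| else 0 := by
      intro i; by_cases h : S i <;> simp [h]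
    simp only [e1] at g3
    simp only [e2]
    nlinarith
  · rintro (k | k) hk
    · exact (h1 k (by simpa using hk)).sub (filter_subset _ _)
    · exact (g1 k (by simpa using hk)).sub (filter_subset _ _)
  · rintro (k | k) hk (l | l) hl hne
    · exact (h2 k (by simpa using hk) l (by simpa using hl) (by simpa using hne)).mono
        (filter_subset _ _) (filter_subset _ _)
    · exact disjoint_left.2 fun i h1 h2 => (mem_filter.1 h1).2 (mem_filter.1 h2).2
    · exact disjoint_left.2 fun i h1 h2 => (mem_filter.1 h2).2 (mem_filter.1 h1).2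
    · exact (g2 k (by simpa using hk) l (by simpa using hl) (by simpa using hne)).mono
        (filter_subset _ _) (filter_subset _ _)

lemma WB.two {f g : ℕ → ℝ} (hf : WB f 1) (hg : WB g 1) {M : ℕ} (hM : ∀ i, M ≤ i → f i = 0)
    {δ : ℝ} (hδ : 0 ≤ δ) (hg' : ∀ i, |g i| ≤ δ)
    (hs : M * (2 * (M * δ) + (M * δ) ^ 2) ≤ 1 / 4) : WB (fun i => f i + g i) (3 / 2) := by
  classical
  intro ι s E h1 h2
  set P : ι → Prop := fun k => ∃ i ∈ E k, i < M with hP
  rw [← sum_filter_add_sum_filter_not s P]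
  have b1 : ∑ k ∈ s.filter (fun k => ¬ P k), (∑ i ∈ E k, |f i + g i|) ^ 2 ≤ 1 := by
    have := hg ι (s.filter fun k => ¬ P k) E (fun k hk => h1 k (mem_filter.1 hk).1)
      fun k hk l hl => h2 k (mem_filter.1 hk).1 l (mem_filter.1 hl).1
    rw [one_pow] at this
    refine le_trans (le_of_eq (sum_congr rfl fun k hk => ?_)) this
    congr 1
    refine sum_congr rfl fun i hi => ?_
    have : f i = 0 := hM i (not_lt.1 fun h => (mem_filter.1 hk).2 ⟨i, hi, h⟩)
    rw [this, zero_add]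
  have c1 : (s.filter P).card ≤ M := by
    choose! φ hφ using fun k (hk : P k) => hk
    have := card_le_card_of_injOn (s := s.filter P) (t := range M) φ
      (fun k hk => by simpa using (hφ k (mem_filter.1 hk).2).2) (fun k hk l hl e => by
        by_contra hne
        have hk' := mem_filter.1 hk
        have hl' := mem_filter.1 hl
        exact disjoint_left.1 (h2 k hk'.1 l hl'.1 hne) (hφ k hk'.2).1 (e ▸ (hφ l hl'.2).1))
    simpa using this
  have b2 : ∑ k ∈ s.filter P, (∑ i ∈ E k, |f i + g i|) ^ 2 ≤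
      ∑ k ∈ s.filter P, ((∑ i ∈ E k, |f i|) ^ 2 + (2 * (M * δ) + (M * δ) ^ 2)) := by
    refine sum_le_sum fun k hk => ?_
    obtain ⟨hk1, i0, hi0, hi1⟩ := mem_filter.1 hk
    have c2 : ((E k).card : ℝ) ≤ M := by
      have := h1 k hk1 i0 hi0
      exact_mod_cast this.trans hi1
    have c3 : ∑ i ∈ E k, |g i| ≤ M * δ := by
      refine (sum_le_card_nsmul _ _ δ fun i _ => hg' i).trans ?_
      rw [nsmul_eq_mul]; exact mul_le_mul_of_nonneg_right c2 hδ
    have c4 := hf.adm zero_le_one (h1 k hk1)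
    have c5 : ∑ i ∈ E k, |f i + g i| ≤ ∑ i ∈ E k, |f i| + M * δ := by
      refine le_trans ?_ (add_le_add le_rfl c3)
      rw [← sum_add_distrib]; exact sum_le_sum fun i _ => abs_add_le _ _
    have c6 := pow_le_pow_left₀ (sum_nonneg fun i _ => abs_nonneg _) c5 2
    have c7 : 0 ≤ (M : ℝ) * δ := by positivity
    nlinarith
  have b3 := hf ι (s.filter P) E (fun k hk => h1 k (mem_filter.1 hk).1)
      fun k hk l hl => h2 k (mem_filter.1 hk).1 l (mem_filter.1 hl).1
  rw [sum_add_distrib, sum_const, nsmul_eq_mul] at b2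
  have c8 : ((s.filter P).card : ℝ) ≤ M := by exact_mod_cast c1
  have c9 : 0 ≤ 2 * (M * δ) + (M * δ) ^ 2 := by positivity
  have := mul_le_mul_of_nonneg_right c8 c9
  nlinarith

end Pool.Agent.Lib.helper16.KtA
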