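import Mathlib
import Pool.Agent.Lib.helper16.KtA

namespace Pool.Agent.Lib.helper16.KtB
open Finset Filter Topology KtA

noncomputable def pr (x : ℕ → ℝ) : (ℕ →₀ ℝ) →ₗ[ℝ] ℝ := Finsupp.linearCombination ℝ x

lemma pr_def (x : ℕ → ℝ) (f : ℕ →₀ ℝ) : pr x f = ∑ i ∈ f.support, f i * x i := rfl

def Bd (x : ℕ → ℝ) (C : ℝ) : Prop := ∀ f : ℕ →₀ ℝ, WB f 1 → |pr x f| ≤ C

lemma pr_add (x y : ℕ → ℝ) (f : ℕ →₀ ℝ) : pr (fun i => x i + y i) f = pr x f + pr y f := by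
  simp only [pr_def, mul_add, sum_add_distrib]

lemma pr_sub (x y : ℕ → ℝ) (f : ℕ →₀ ℝ) : pr (fun i => x i - y i) f = pr x f - pr y f := by
  simp only [pr_def, mul_sub, sum_sub_distrib]

lemma pr_filter (x : ℕ → ℝ) (S : ℕ → Prop) [DecidablePred S] (f : ℕ →₀ ℝ) :
    pr (fun i => if S i then x i else 0) f = pr x (f.filter S) := by
  rw [pr_def, pr_def, Finsupp.support_filter, sum_filter]
  refine sum_congr rfl fun i _ => ?_
  by_cases h : S i <;> simp [h]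

lemma wb_filter {f : ℕ →₀ ℝ} {A : ℝ} (h : WB f A) (S : ℕ → Prop) [DecidablePred S] :
    WB (f.filter S) A := h.of_le fun i => by
  rw [Finsupp.filter_apply]; split_ifs <;> simp

lemma Bd.mono {x : ℕ → ℝ} {C D : ℝ} (h : Bd x C) (hD : C ≤ D) : Bd x D :=
  fun f hf => (h f hf).trans hD

lemma Bd.add {x y : ℕ → ℝ} {C D : ℝ} (h : Bd x C) (h' : Bd y D) :
    Bd (fun i => x i + y i) (C + D) := fun f hf => by
  rw [pr_add]; exact (abs_add_le _ _).trans (add_le_add (h f hf) (h' f hf))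

lemma Bd.sub {x y : ℕ → ℝ} {C D : ℝ} (h : Bd x C) (h' : Bd y D) :
    Bd (fun i => x i - y i) (C + D) := fun f hf => by
  rw [pr_sub]; exact (abs_sub _ _).trans (add_le_add (h f hf) (h' f hf))

lemma Bd.res {x : ℕ → ℝ} {C : ℝ} (h : Bd x C) (S : ℕ → Prop) [DecidablePred S] :
    Bd (fun i => if S i then x i else 0) C := fun f hf => by
  rw [pr_filter]; exact h _ (wb_filter hf S)

lemma Bd.scale {x : ℕ → ℝ} {C A : ℝ} (h : Bd x C) {f : ℕ →₀ ℝ} (hf : WB f A) (hA : 0 < A) :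
    |pr x f| ≤ A * C := by
  have h1 : WB (A⁻¹ • f : ℕ →₀ ℝ) 1 := by
    have := hf.smul A⁻¹
    rw [inv_mul_cancel₀ hA.ne'] at this
    exact this.of_le fun i => by simp
  have := h _ h1
  rw [map_smul, smul_eq_mul, abs_mul, abs_of_pos (inv_pos.2 hA), inv_mul_le_iff₀ hA] at this
  exact this

lemma bd_of {x : ℕ → ℝ} {δ B : ℝ} (E : Finset ℕ) (h0 : ∀ i ∉ E, x i = 0) (h1 : ∀ i, |x i| ≤ δ)
    (hE : ∀ f : ℕ → ℝ, WB f 1 → ∑ i ∈ E, |f i| ≤ B) : Bd x (B * δ) := by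
  intro f hf
  have hδ : 0 ≤ δ := (abs_nonneg _).trans (h1 0)
  have e : pr x f = ∑ i ∈ E, f i * x i := by
    rw [pr_def, sum_subset (subset_union_left (s₂ := E))
      (fun i _ hi => by simp [Finsupp.notMem_support_iff.1 hi])]
    exact (sum_subset subset_union_right fun i _ hi => by simp [h0 i hi]).symm
  rw [e]
  refine (abs_sum_le_sum_abs _ _).trans (le_trans ?_ (mul_le_mul_of_nonneg_right (hE f hf) hδ))
  rw [sum_mul]
  exact sum_le_sum fun i _ => by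
    rw [abs_mul]; exact mul_le_mul_of_nonneg_left (h1 i) (abs_nonneg _)

lemma bd_adm {x : ℕ → ℝ} {δ : ℝ} {E : Finset ℕ} (hE : Adm E) (h0 : ∀ i ∉ E, x i = 0)
    (h1 : ∀ i, |x i| ≤ δ) : Bd x δ := by
  simpa using bd_of E h0 h1 fun f hf => hf.adm zero_le_one hE

lemma bd_small {x : ℕ → ℝ} {δ : ℝ} (hδ : 0 ≤ δ) {N : ℕ} (h1 : ∀ i < N, |x i| ≤ δ) :
    Bd (fun i => if i < N then x i else 0) (N * δ) := by
  refine bd_of (range N) (fun i hi => if_neg (by simpa using hi)) (fun i => ?_) fun f hf => ?_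
  · split_ifs with h
    · exact h1 i h
    · simpa using hδ
  · simpa using sum_le_card_nsmul (range N) _ 1 fun i _ => hf.coord zero_le_one i

lemma Bd.coord {x : ℕ → ℝ} {C : ℝ} (h : Bd x C) (i : ℕ) : |x i| ≤ C := by
  have := h (Finsupp.single i 1) ((wb_single i).of_le fun j => by
    rw [Finsupp.single_apply]; simp only [eq_comm]; exact le_rfl)
  simpa [pr] using this

lemma Bd.mix {u v : ℕ → ℝ} (hu : Bd u 1) (hv : Bd v 1) (S : ℕ → Prop) [DecidablePred S] :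
    Bd (fun i => (if S i then u i else 0) - (if ¬ S i then v i else 0)) (7 / 4) := by
  intro f hf
  rw [pr_sub, pr_filter, pr_filter]
  have a1 := hu _ (wb_filter hf S)
  have a2 := hv _ (wb_filter hf fun i => ¬ S i)
  refine (abs_sub _ _).trans ?_
  rcases hf.cut S with h | h
  · have := hu.scale (f := f.filter S) (h.of_le fun i => by rw [Finsupp.filter_apply]) (by norm_num)
    linarith
  · have := hv.scale (f := f.filter fun i => ¬ S i) (h.of_le fun i => by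
      rw [Finsupp.filter_apply]; by_cases h : S i <;> simp [h]) (by norm_num)
    linarith

def tl (N : ℕ) (x : ℕ → ℝ) : ℕ → ℝ := fun i => if N ≤ i then x i else 0

lemma big {x : ℕ → ℝ} {t : ℝ} (h : ∀ N, ¬ Bd (tl N x) t) (N : ℕ) :
    ∃ f : ℕ →₀ ℝ, WB f 1 ∧ (∀ i < N, f i = 0) ∧ t < pr x f := by
  have := h N
  simp only [Bd, not_forall, not_le] at this
  obtain ⟨f, hf, h1⟩ := this
  rw [show tl N x = fun i => if N ≤ i then x i else 0 from rfl, pr_filter] at h1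
  have h2 := wb_filter hf (N ≤ ·)
  have h3 : ∀ i < N, (f.filter (N ≤ ·)) i = 0 := fun i hi => by
    rw [Finsupp.filter_apply, if_neg hi.not_ge]
  rcases lt_abs.1 h1 with h4 | h4
  · exact ⟨_, h2, h3, h4⟩
  · exact ⟨-f.filter (N ≤ ·), h2.of_le fun i => by simp, fun i hi => by simp [h3 i hi],
      by rwa [map_neg]⟩

lemma bdd (f : ℕ →₀ ℝ) : ∃ M, ∀ i, M ≤ i → f i = 0 := by
  obtain ⟨M, hM⟩ := f.support.bddAbove
  refine ⟨M + 1, fun i hi => ?_⟩
  by_contra h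
  have := hM (Finsupp.mem_support_iff.2 h)
  omega

lemma many {x : ℕ → ℝ} {t : ℝ} (h : ∀ N, ¬ Bd (tl N x) t) (L : ℕ) :
    ∃ g : ℕ →₀ ℝ, WB g (L + 1) ∧ (∀ i, |g i| ≤ 1) ∧ (L + 1) * t < pr x g := by
  induction L with
  | zero =>
    obtain ⟨f, h1, -, h3⟩ := big h 0
    exact ⟨f, by simpa using h1, h1.coord zero_le_one, by simpa using h3⟩
  | succ L ih =>
    obtain ⟨g, g1, g2, g3⟩ := ih
    obtain ⟨M, hM⟩ := bdd g
    obtain ⟨f, h1, h2, h3⟩ := big h M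
    refine ⟨g + f, ?_, fun i => ?_, ?_⟩
    · have := g1.add h1 (by positivity) zero_le_one
      push_cast
      exact this
    · rcases lt_or_ge i M with hi | hi
      · simpa [h2 i hi] using g2 i
      · simpa [hM i hi] using h1.coord zero_le_one i
    · rw [map_add]; push_cast; linarith

lemma Bd.shrink {x : ℕ → ℝ} {C : ℝ} (h : Bd x C) : ∃ N, Bd (tl N x) (3 / 4 * C) := by
  by_contra hn
  push Not at hn
  obtain ⟨f, f1, -, f3⟩ := big hn 0
  obtain ⟨M, hM⟩ := bdd f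
  obtain ⟨L, hL⟩ : ∃ L : ℕ, (M : ℝ) * (2 * (M * (L + 1 : ℝ)⁻¹) + (M * (L + 1 : ℝ)⁻¹) ^ 2) ≤ 1 / 4 := by
    have h0 : Tendsto (fun L : ℕ => (L + 1 : ℝ)⁻¹) atTop (𝓝 0) := by
      simpa using tendsto_one_div_add_atTop_nhds_zero_nat (𝕜 := ℝ)
    have h1 : Tendsto (fun L : ℕ => (M : ℝ) * (2 * (M * (L + 1 : ℝ)⁻¹) + (M * (L + 1 : ℝ)⁻¹) ^ 2))
        atTop (𝓝 ((M : ℝ) * (2 * (M * 0) + (M * 0) ^ 2))) :=
      (((h0.const_mul _).const_mul _).add ((h0.const_mul _).pow 2)).const_mul _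
    exact (h1.eventually (ge_mem_nhds (by simp))).exists
  obtain ⟨g, g1, g2, g3⟩ := many hn L
  have hL0 : (0 : ℝ) < L + 1 := by positivity
  have k1 : WB (fun i => (L + 1 : ℝ)⁻¹ * g i) 1 := by
    have := g1.smul (L + 1 : ℝ)⁻¹
    rwa [inv_mul_cancel₀ hL0.ne'] at this
  have k2 := f1.two k1 hM (δ := (L + 1 : ℝ)⁻¹) (by positivity) (fun i => by
    rw [abs_mul, abs_of_pos (inv_pos.2 hL0)]
    exact mul_le_of_le_one_right (by positivity) (g2 i)) hL
  have k3 := h.scale (f := f + (L + 1 : ℝ)⁻¹ • g) (k2.of_le fun i => by simp) (by norm_num)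
  rw [map_add, map_smul, smul_eq_mul] at k3
  have k4 : 3 / 4 * C < (L + 1 : ℝ)⁻¹ * pr x g := by rwa [lt_inv_mul_iff₀ hL0]
  linarith [le_abs_self (pr x f + (L + 1 : ℝ)⁻¹ * pr x g)]

lemma Bd.tail {x : ℕ → ℝ} (h : Bd x 1) {ε : ℝ} (hε : 0 < ε) : ∃ N, Bd (tl N x) ε := by
  have h1 : ∀ n : ℕ, ∃ N, Bd (tl N x) ((3 / 4) ^ n) := by
    intro n
    induction n with
    | zero => exact ⟨0, by rw [pow_zero]; exact h.res (0 ≤ ·)⟩
    | succ n ih =>
      obtain ⟨N, hN⟩ := ih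
      obtain ⟨M, hM⟩ := hN.shrink
      refine ⟨max N M, ?_⟩
      have e : tl (max N M) x = tl M (tl N x) := by
        funext i; simp only [tl, max_le_iff]; by_cases N ≤ i <;> by_cases M ≤ i <;> simp [*]
      rw [e, pow_succ']; exact hM
  obtain ⟨n, hn⟩ := exists_pow_lt_of_lt_one hε (show (3 / 4 : ℝ) < 1 by norm_num)
  obtain ⟨N, hN⟩ := h1 n
  exact ⟨N, hN.mono hn.le⟩

lemma close {x : ℕ → ℕ → ℝ} {y : ℕ → ℝ} (h : Tendsto x atTop (𝓝 y)) (N : ℕ) :
    ∀ᶠ j in atTop, Bd (fun i => if i < N then x j i - y i else 0) (1 / 32) := by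
  have hδ : (0 : ℝ) < 1 / 32 / (N + 1) := by positivity
  have h1 : ∀ᶠ j in atTop, ∀ i ∈ range N, |x j i - y i| ≤ 1 / 32 / (N + 1) := by
    rw [eventually_all_finset]
    intro i _
    have := (Metric.tendsto_nhds.1 (tendsto_pi_nhds.1 h i)) _ hδ
    exact this.mono fun j hj => hj.le
  refine h1.mono fun j hj => (bd_small (x := fun i => x j i - y i) hδ.le
    fun i hi => hj i (mem_range.2 hi)).mono ?_
  rw [← mul_div_assoc, div_le_iff₀ (by positivity)]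
  linarith

theorem main (x : ℕ → ℕ → ℝ) (hx : ∀ j, Bd (x j) 1) :
    ∃ j l, j ≠ l ∧ Bd (fun i => x j i - x l i) (15 / 8) := by
  obtain ⟨y, -, φ, hφ, hy⟩ := (isCompact_univ_pi fun _ : ℕ => isCompact_Icc (a := (-1 : ℝ))
    (b := 1)).tendsto_subseq (x := x) fun j i _ => abs_le.1 ((hx j).coord i)
  have by1 : Bd y 1 := by
    intro f hf
    have : Tendsto (fun j => |pr (x (φ j)) f|) atTop (𝓝 |pr y f|) := by
      simp only [pr_def]
      exact (tendsto_finsetSum _ fun i _ => (tendsto_pi_nhds.1 hy i).const_mul _).abs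
    exact le_of_tendsto' this fun j => hx _ f hf
  obtain ⟨N, hN⟩ := by1.tail (ε := 1 / 32) (by norm_num)
  obtain ⟨j, hj⟩ := (close hy N).exists
  obtain ⟨M0, hM⟩ := (hx (φ j)).tail (ε := 1 / 32) (by norm_num)
  set M := max M0 N with hMd
  obtain ⟨l, hl, hjl⟩ := ((close hy M).and (eventually_gt_atTop j)).exists
  refine ⟨φ j, φ l, (hφ hjl).ne, ?_⟩
  have a1 := ((hx (φ j)).res (N ≤ ·)).mix (hx (φ l)) (· < M)
  have a2 := ((((a1.add hj).sub hl).sub (hN.res (· < M))).add (hM.res (M ≤ ·))).mono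
    (D := 15 / 8) (by norm_num)
  convert a2 using 2 with i
  simp only [tl, Function.comp]
  have m1 : M0 ≤ M := le_max_left _ _
  have m2 : N ≤ M := le_max_right _ _
  split_ifs <;> first | omega | ring1

end Pool.Agent.Lib.helper16.KtB
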