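import Mathlib
import Pool.Agent.Lib.helper16.KtB

namespace Pool.Agent.Lib.helper16.KtC
open Finset Filter Topology KtA KtB
open scoped ENNReal

abbrev W := {f : ℕ →₀ ℝ // WB f 1}
abbrev V (ι : Type) := lp (fun _ : ι => ℝ) ∞

noncomputable def u (i : ℕ) : W := ⟨Finsupp.single i 1, (wb_single i).of_le fun j => by
  rw [Finsupp.single_apply]; simp only [eq_comm]; exact le_rfl⟩

noncomputable def XS : Submodule ℝ (V W) where
  carrier := {φ | ∀ f : W, φ f = pr (fun i => φ (u i)) f.1}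
  add_mem' := by
    intro a b ha hb f
    simp only [lp.coeFn_add, Pi.add_apply]
    rw [pr_add, ha f, hb f]
  zero_mem' := by intro f; simp [pr_def]
  smul_mem' := by
    intro c a ha f
    simp only [lp.coeFn_smul, Pi.smul_apply, smul_eq_mul]
    rw [ha f, pr_def, pr_def, mul_sum]
    exact sum_congr rfl fun _ _ => by ring

lemma cev {ι : Type} (f : ι) : Continuous fun φ : V ι => φ f :=
  (continuous_apply f).comp lp.uniformContinuous_coe.continuous

lemma XS_closed : IsClosed (XS : Set (V W)) := by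
  have : (XS : Set (V W)) = ⋂ f : W, {φ | φ f = ∑ i ∈ f.1.support, f.1 i * φ (u i)} := by
    ext φ; simp only [Set.mem_iInter]; rfl
  rw [this]
  exact isClosed_iInter fun f => isClosed_eq (cev f)
    (continuous_finsetSum _ fun i _ => continuous_const.mul (cev _))

instance : CompleteSpace XS := XS_closed.completeSpace_coe

noncomputable def co (i : ℕ) : XS →ₗ[ℝ] ℝ where
  toFun φ := φ.1 (u i)
  map_add' _ _ := rfl
  map_smul' _ _ := rfl

lemma mkX {x : ℕ → ℝ} {C : ℝ} (h : Bd x C) : ∃ φ : XS, ∀ i, co i φ = x i := by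
  have e : ∀ i, pr x (u i).1 = x i := fun i => by simp [pr, u]
  refine ⟨⟨⟨fun f => pr x f.1, memℓp_infty ⟨C, ?_⟩⟩, fun f => ?_⟩, e⟩
  · rintro _ ⟨f, rfl⟩; exact h _ f.2
  · simp only [e]

lemma norm_le {φ : XS} {C : ℝ} (hC : 0 ≤ C) (h : Bd (fun i => co i φ) C) : ‖φ‖ ≤ C :=
  lp.norm_le_of_forall_le (f := φ.1) hC fun f => by rw [φ.2 f]; exact h _ f.2

lemma bd_norm (φ : XS) : Bd (fun i => co i φ) ‖φ‖ := fun f hf => by
  have := lp.norm_apply_le_norm ENNReal.top_ne_zero φ.1 ⟨f, hf⟩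
  rwa [φ.2] at this

theorem X1 (x : ℕ → XS) (hx : ∀ n, ‖x n‖ ≤ 1) : ∃ j l, j ≠ l ∧ ‖x j - x l‖ ≤ 15 / 8 := by
  obtain ⟨j, l, h1, h2⟩ := main (fun j i => co i (x j)) fun j => (bd_norm _).mono (hx j)
  exact ⟨j, l, h1, norm_le (by norm_num) (by simpa only [map_sub] using h2)⟩

lemma sum_ind {k : ℕ} (a : Fin k → ℝ) {n : Fin k → ℕ} (hn : Function.Injective n) (i : Fin k) :
    ∑ j, a j * (if n i = n j then 1 else 0) = a i := by
  simp [hn.eq_iff]

lemma sum_ind_le {k : ℕ} {a : Fin k → ℝ} {n : Fin k → ℕ} (hn : Function.Injective n) {t : ℝ}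
    (ht : 0 ≤ t) (h : ∀ i, |a i| ≤ t) (m : ℕ) : |∑ j, a j * (if m = n j then 1 else 0)| ≤ t := by
  by_cases hm : ∃ i, n i = m
  · obtain ⟨i, rfl⟩ := hm
    rw [sum_ind a hn]; exact h i
  · rw [sum_eq_zero fun j _ => by rw [if_neg fun e => hm ⟨j, e.symm⟩, mul_zero]]
    simpa using ht

theorem X2 : ∃ y : ℕ → XS, ∀ (k : ℕ) (a : Fin k → ℝ) (n : Fin k → ℕ), Function.Injective n →
    (∀ i, k ≤ n i + 1) → ∀ t, 0 ≤ t → (‖∑ i, a i • y (n i)‖ ≤ t ↔ ∀ i, |a i| ≤ t) := by
  have h : ∀ n : ℕ, Bd (fun i => if i = n then 1 else 0) 1 := fun n =>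
    bd_adm (E := {n}) (by intro j _; simp) (fun i hi => if_neg (by simpa using hi))
      fun i => by split_ifs <;> simp
  choose y hy using fun n => mkX (h n)
  refine ⟨y, fun k a n hn hk t ht => ?_⟩
  have e : ∀ m, co m (∑ i, a i • y (n i)) = ∑ j, a j * (if m = n j then 1 else 0) := by
    intro m; simp only [map_sum, map_smul, hy, smul_eq_mul]
  refine ⟨fun h i => ?_, fun h => norm_le ht ?_⟩
  · have := (bd_norm (∑ i, a i • y (n i))).coord (n i)
    rw [e, sum_ind a hn] at this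
    exact this.trans h
  · simp only [e]
    refine bd_adm (E := univ.image n) ?_ (fun m hm => ?_) (sum_ind_le hn ht h)
    · intro m hm
      obtain ⟨i, -, rfl⟩ := mem_image.1 hm
      exact card_image_le.trans (by simpa using hk i)
    · exact sum_eq_zero fun j _ => by
        rw [if_neg fun e => hm (mem_image.2 ⟨j, mem_univ _, e.symm⟩), mul_zero]

noncomputable def e0 (i : ℕ) : V ℕ := lp.single ∞ i 1

noncomputable def ZS : Submodule ℝ (V ℕ) := (Submodule.span ℝ (Set.range e0)).topologicalClosure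

instance : CompleteSpace ZS := (Submodule.isClosed_topologicalClosure _).completeSpace_coe

noncomputable def e (i : ℕ) : ZS :=
  ⟨e0 i, Submodule.le_topologicalClosure _ (Submodule.subset_span ⟨i, rfl⟩)⟩

lemma dense_e : Dense (Submodule.span ℝ (Set.range e) : Set ZS) := by
  rw [Subtype.dense_iff]
  have : Subtype.val '' (Submodule.span ℝ (Set.range e) : Set ZS) =
      (Submodule.span ℝ (Set.range e0) : Set (V ℕ)) := by
    have := Submodule.map_span ZS.subtype (Set.range e)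
    rw [← Set.range_comp] at this
    exact congrArg SetLike.coe this
  exact fun _ h => closure_mono this.ge h

noncomputable def cz (i : ℕ) : ZS →ₗ[ℝ] ℝ where
  toFun φ := φ.1 i
  map_add' _ _ := rfl
  map_smul' _ _ := rfl

lemma cz_e (m i : ℕ) : cz m (e i) = if m = i then 1 else 0 := by
  show lp.single (E := fun _ : ℕ => ℝ) ∞ i 1 m = _
  rw [lp.single_apply, Pi.single_apply]

lemma z_le {z : ZS} {t : ℝ} (ht : 0 ≤ t) : ‖z‖ ≤ t ↔ ∀ m, |cz m z| ≤ t :=
  ⟨fun h m => (lp.norm_apply_le_norm ENNReal.top_ne_zero z.1 m).trans h,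
    fun h => lp.norm_le_of_forall_le ht h⟩

theorem Z1 (k : ℕ) (a : Fin k → ℝ) (t : ℝ) (ht : 0 ≤ t) :
    ‖∑ i, a i • e i‖ ≤ t ↔ ∀ i, |a i| ≤ t := by
  rw [z_le ht]
  simp only [map_sum, map_smul, cz_e, smul_eq_mul]
  exact ⟨fun h i => by simpa only [sum_ind a Fin.val_injective] using h i,
    fun h => sum_ind_le Fin.val_injective ht h⟩

theorem Z2 : ∃ z : ℕ → ZS, (∀ n, ‖z n‖ ≤ 1) ∧
    ∀ n m, n ≠ m → 2 ≤ ‖z n - z m‖ ∧ 2 ≤ ‖z n + z m‖ := by
  have c : ∀ n m, cz m (∑ i ∈ range (n + 1), e i - e (n + 1)) =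
      if m ≤ n then 1 else if m = n + 1 then -1 else 0 := by
    intro n m
    simp only [map_sub, map_sum, cz_e, sum_ite_eq, mem_range]
    split_ifs <;> first | omega | simp
  refine ⟨fun n => ∑ i ∈ range (n + 1), e i - e (n + 1), fun n => ?_, fun n m h => ⟨?_, ?_⟩⟩
  · rw [z_le zero_le_one]
    intro m; rw [c]; split_ifs <;> simp
  · refine le_trans ?_ ((z_le (norm_nonneg _)).1 le_rfl (min n m + 1))
    rw [map_sub, c, c]
    split_ifs <;> first | omega | norm_num
  · refine le_trans ?_ ((z_le (norm_nonneg _)).1 le_rfl 0)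
    rw [map_add, c, c]; norm_num

end Pool.Agent.Lib.helper16.KtC
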