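import Mathlib

namespace Pool.Agent.Lib.helper16.Mad

open Set

variable {X : Type}

def Ag (k : ℕ) (x y : ℕ → ℕ) : Prop := ∀ i < k, y i = x i

def JJ (R : Set X) (S : X → ℕ → Set ℕ) (B : Set ℕ) : Prop :=
  ∃ (F : Finset X) (e : ℕ), (F : Set X) ⊆ R ∧ (B \ ⋃ a ∈ F, S a e).Finite

section
variable {R : Set X} {S : X → ℕ → Set ℕ}

lemma JJ.mono {B C : Set ℕ} (h : JJ R S C) (hB : B ⊆ C) : JJ R S B := by
  obtain ⟨F, e, h1, h2⟩ := h
  exact ⟨F, e, h1, h2.subset (diff_subset_diff_left hB)⟩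

lemma JJ.fin {B : Set ℕ} (h : B.Finite) : JJ R S B := ⟨∅, 0, by simp, by simpa using h⟩

lemma JJ.cover (F : Finset X) (e : ℕ) (h : (F : Set X) ⊆ R) : JJ R S (⋃ a ∈ F, S a e) :=
  ⟨F, e, h, by simp⟩

lemma JJ.union (hm : ∀ a, Monotone (S a)) {B C : Set ℕ} (hB : JJ R S B) (hC : JJ R S C) :
    JJ R S (B ∪ C) := by
  classical
  obtain ⟨F, e, h1, h2⟩ := hB
  obtain ⟨G, d, h3, h4⟩ := hC
  refine ⟨F ∪ G, max e d, by simp [h1, h3], (h2.union h4).subset ?_⟩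
  rintro w ⟨hw | hw, hn⟩
  · refine Or.inl ⟨hw, fun h => hn ?_⟩
    simp only [mem_iUnion] at h ⊢
    obtain ⟨a, ha, h⟩ := h
    exact ⟨a, by simp [ha], hm a (le_max_left _ _) h⟩
  · refine Or.inr ⟨hw, fun h => hn ?_⟩
    simp only [mem_iUnion] at h ⊢
    obtain ⟨a, ha, h⟩ := h
    exact ⟨a, by simp [ha], hm a (le_max_right _ _) h⟩

lemma JJ.diff (hm : ∀ a, Monotone (S a)) {B C : Set ℕ} (hB : ¬ JJ R S B) (hC : JJ R S C) :
    ¬ JJ R S (B \ C) := fun h => hB ((h.union hm hC).mono (by intro w; simp; tauto))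

lemma shrink (had : ∀ e, ∃ K, ∀ F : Finset X, (F : Set X) ⊆ R → K ≤ F.card → (⋂ a ∈ F, S a e).Finite)
    {Y : Set ℕ} (hY : Y.Infinite) (e : ℕ) : ∃ (Y' : Set ℕ) (F : Finset X), Y' ⊆ Y ∧ Y'.Infinite ∧
      (F : Set X) ⊆ R ∧ ∀ a ∈ R, a ∉ F → (Y' ∩ S a e).Finite := by
  classical
  obtain ⟨K, hK⟩ := had e
  by_contra hc
  push Not at hc
  have : ∀ m, ∃ F : Finset X, (F : Set X) ⊆ R ∧ F.card = m ∧ (Y ∩ ⋂ a ∈ F, S a e).Infinite := by
    intro m
    induction m with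
    | zero => exact ⟨∅, by simp, rfl, by simpa using hY⟩
    | succ m ih =>
      obtain ⟨F, h1, h2, h3⟩ := ih
      obtain ⟨a, ha, ha', h4⟩ := hc _ F inter_subset_left h3 h1
      refine ⟨insert a F, by simp [insert_subset_iff, ha, h1], by simp [ha', h2], ?_⟩
      rw [Finset.set_biInter_insert, inter_comm (S a e), ← inter_assoc]
      exact h4
  obtain ⟨F, h1, h2, h3⟩ := this K
  exact h3 ((hK F h1 h2.ge).subset inter_subset_right)

lemma pseudo {B : ℕ → Set ℕ} (hB : Antitone B) (h : ∀ k, (B k).Infinite) :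
    ∃ Z : Set ℕ, Z.Infinite ∧ Z ⊆ B 0 ∧ ∀ k, (Z \ B k).Finite := by
  choose z hz1 hz2 using fun k => (h k).exists_gt k
  refine ⟨range z, Set.infinite_of_forall_exists_gt (fun k => ⟨z k, ⟨k, rfl⟩, hz2 k⟩), ?_, fun k => ?_⟩
  · rintro _ ⟨k, rfl⟩
    exact hB (Nat.zero_le k) (hz1 k)
  · refine ((Set.finite_Iio k).image z).subset ?_
    rintro _ ⟨⟨j, rfl⟩, hj⟩
    refine ⟨j, ?_, rfl⟩
    by_contra hc
    exact hj (hB (not_lt.1 hc) (hz1 j))

lemma pplus (hm : ∀ a, Monotone (S a))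
    (had : ∀ e, ∃ K, ∀ F : Finset X, (F : Set X) ⊆ R → K ≤ F.card → (⋂ a ∈ F, S a e).Finite)
    {B : ℕ → Set ℕ} (hB : Antitone B) (h : ∀ k, ¬ JJ R S (B k)) :
    ∃ C : Set ℕ, ¬ JJ R S C ∧ ∀ k, (C \ B k).Finite := by
  classical
  have st : ∀ (j : ℕ) (D : {D : Finset X // (D : Set X) ⊆ R}),
      ∃ (Y : Set ℕ) (D' : {D : Finset X // (D : Set X) ⊆ R}), Y.Infinite ∧ Y ⊆ B j ∧
      (∀ k, (Y \ B k).Finite) ∧ D.1 ⊆ D'.1 ∧ (∀ a ∈ D.1, Y ∩ S a j = ∅) ∧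
      ∀ a ∈ R, a ∉ D'.1 → (Y ∩ S a j).Finite := by
    intro j D
    obtain ⟨Z, z1, z2, z3⟩ := pseudo (B := fun k => B (j + k) \ ⋃ a ∈ D.1, S a j)
      (fun k l hkl => diff_subset_diff_left (hB (by omega)))
      (fun k hf => JJ.diff hm (h (j + k)) (JJ.cover D.1 j D.2) (JJ.fin hf))
    obtain ⟨Y, F, y1, y2, y3, y4⟩ := shrink had z1 j
    refine ⟨Y, ⟨D.1 ∪ F, by simp [D.2, y3]⟩, y2, fun w hw => (z2 (y1 hw)).1, fun k => ?_,
      Finset.subset_union_left, fun a ha => ?_, fun a ha hn => y4 a ha (fun h => hn (by simp [h]))⟩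
    · refine (z3 k).subset ?_
      rintro w ⟨h1, h2⟩
      exact ⟨y1 h1, fun h3 => h2 (hB (by omega) h3.1)⟩
    · rw [eq_empty_iff_forall_notMem]
      rintro w ⟨h1, h2⟩
      exact (z2 (y1 h1)).2 (mem_biUnion ha h2)
  choose Y G h1 h2 h3 h4 h5 h6 using st
  let D : ℕ → {D : Finset X // (D : Set X) ⊆ R} := fun j => Nat.rec ⟨∅, by simp⟩ G j
  have Ds : ∀ j, D (j + 1) = G j (D j) := fun j => rfl
  have Dm : Monotone (fun j => (D j).1) := monotone_nat_of_le_succ (fun j => h4 j (D j))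
  refine ⟨⋃ j, Y j (D j), ?_, fun k => ?_⟩
  · rintro ⟨F, e, f1, f2⟩
    have b : ∀ a ∈ F, ∀ᶠ j in Filter.atTop, (Y j (D j) ∩ S a j).Finite := by
      intro a ha
      by_cases hc : ∃ i, a ∈ (D i).1
      · obtain ⟨i, hi⟩ := hc
        filter_upwards [Filter.eventually_ge_atTop i] with j hj
        rw [h5 j (D j) a (Dm hj hi)]
        exact finite_empty
      · exact Filter.Eventually.of_forall
          (fun j => h6 j (D j) a (f1 ha) (fun h => hc ⟨j + 1, h⟩))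
    obtain ⟨j, j1, j2⟩ := (((Filter.eventually_all_finset F).2 b).and
      (Filter.eventually_ge_atTop e)).exists
    refine h1 j (D j) ((f2.union (F.finite_toSet.biUnion j1)).subset (fun w hw => ?_))
    by_cases hc : w ∈ ⋃ a ∈ F, S a e
    · right
      simp only [mem_iUnion] at hc ⊢
      obtain ⟨a, ha, hc⟩ := hc
      exact ⟨a, ha, hw, hm a j2 hc⟩
    · exact Or.inl ⟨mem_iUnion.2 ⟨j, hw⟩, hc⟩
  · refine ((Set.finite_Iio k).biUnion (fun j _ => h3 j (D j) k)).subset ?_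
    rintro w ⟨hw, hn⟩
    obtain ⟨j, hj⟩ := mem_iUnion.1 hw
    refine mem_biUnion (x := j) ?_ ⟨hj, hn⟩
    by_contra hc
    exact hn (hB (not_lt.1 hc) (h2 j (D j) hj))

end

lemma stabilize {f : (ℕ → ℕ) → X} {S : X → ℕ → Set ℕ} (hm : ∀ a, Monotone (S a))
    (had : ∀ e, ∃ K, ∀ F : Finset X, (F : Set X) ⊆ range f → K ≤ F.card → (⋂ a ∈ F, S a e).Finite)
    (hp : ¬ JJ (range f) S univ) :
    ∃ C : Set ℕ, ¬ JJ (range f) S C ∧ ∀ x e k, (C ∩ S (f x) e).Infinite → ∀ B ⊆ C,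
      ¬ JJ (range f) S B → ∃ y, Ag k x y ∧ (B ∩ S (f y) e).Infinite := by
  obtain ⟨en, hen⟩ := exists_surjective_nat (List ℕ × ℕ)
  let T : List ℕ × ℕ → Set ℕ → Prop := fun s B =>
    ∃ y, PiNat.res y s.1.length = s.1 ∧ (B ∩ S (f y) s.2).Infinite
  have st : ∀ (j : ℕ) (B : {B : Set ℕ // ¬ JJ (range f) S B}),
      ∃ B' : {B : Set ℕ // ¬ JJ (range f) S B}, B'.1 ⊆ B.1 ∧
        (¬ T (en j) B'.1 ∨ ∀ C ⊆ B'.1, ¬ JJ (range f) S C → T (en j) C) := by
    intro j B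
    by_cases h : ∀ C ⊆ B.1, ¬ JJ (range f) S C → T (en j) C
    · exact ⟨B, subset_rfl, Or.inr h⟩
    · push Not at h
      obtain ⟨C, c1, c2, c3⟩ := h
      exact ⟨⟨C, c2⟩, c1, Or.inl c3⟩
  choose G g1 g2 using st
  let B : ℕ → {B : Set ℕ // ¬ JJ (range f) S B} := fun j => Nat.rec ⟨univ, hp⟩ G j
  obtain ⟨C, c1, c2⟩ := pplus hm had (B := fun j => (B j).1)
    (antitone_nat_of_succ_le (fun j => g1 j (B j))) (fun j => (B j).2)
  refine ⟨C, c1, fun x e k hx D hD hJ => ?_⟩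
  obtain ⟨j, hj⟩ := hen (PiNat.res x k, e)
  have hf : (C \ (G j (B j)).1).Finite := c2 (j + 1)
  rcases g2 j (B j) with h | h
  · exfalso
    apply h
    rw [hj]
    refine ⟨x, by simp, fun hfin => hx ((hf.union hfin).subset ?_)⟩
    rintro w ⟨h1, h2⟩
    by_cases h3 : w ∈ (G j (B j)).1
    · exact Or.inr ⟨h3, h2⟩
    · exact Or.inl ⟨h1, h3⟩
  · obtain ⟨y, y1, y2⟩ := h (D ∩ (G j (B j)).1) inter_subset_right (fun hJ' => hJ
      ((hJ'.union hm (JJ.fin hf)).mono (fun w hw => by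
        by_cases h3 : w ∈ (G j (B j)).1
        · exact Or.inl ⟨hw, h3⟩
        · exact Or.inr ⟨hD hw, h3⟩)))
    rw [hj] at y1 y2
    simp only [PiNat.res_length] at y1
    exact ⟨y, fun i hi => PiNat.res_eq_res.1 y1 hi,
      y2.mono (inter_subset_inter_left _ inter_subset_left)⟩

theorem no_mad {f : (ℕ → ℕ) → X} {S : X → ℕ → Set ℕ} (hm : ∀ a, Monotone (S a))
    (hloc : ∀ x w e, w ∈ S (f x) e → ∃ k, ∀ y, Ag k x y → w ∈ S (f y) e)
    (hsep : ∀ x y, f x ≠ f y → ∃ k, ∀ x' y', Ag k x x' → Ag k y y' → f x' ≠ f y')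
    (had : ∀ e, ∃ K, ∀ F : Finset X, (F : Set X) ⊆ range f → K ≤ F.card → (⋂ a ∈ F, S a e).Finite)
    (htall : ∀ Y : Set ℕ, Y.Infinite → ∃ x e, (Y ∩ S (f x) e).Infinite)
    (hp : ¬ JJ (range f) S univ) : False := by
  classical
  obtain ⟨C, c1, c2⟩ := stabilize hm had hp
  obtain ⟨x0, e, hx0⟩ := htall C (fun h => c1 (JJ.fin h))
  obtain ⟨K, hK⟩ := had e
  let W : Set (ℕ → ℕ) := {x | (C ∩ S (f x) e).Infinite}
  have hinf : (f '' W).Infinite := by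
    intro hfin
    obtain ⟨y, _, hy⟩ := c2 x0 e 0 hx0 (C \ ⋃ a ∈ hfin.toFinset, S a e) diff_subset
      (JJ.diff hm c1 (JJ.cover _ e (by simpa using image_subset_range f W)))
    obtain ⟨w, w1, w2⟩ := hy.nonempty
    exact w1.2 (mem_biUnion (x := f y) (by
      simpa using ⟨y, hy.mono (inter_subset_inter_left _ diff_subset), rfl⟩) w2)
  obtain ⟨F, F1, F2⟩ := hinf.exists_subset_card_eq K
  choose x hxW hxf using fun a : F => F1 a.2
  have s1 : ∀ a b : F, ∃ k, a ≠ b → ∀ x' y', Ag k (x a) x' → Ag k (x b) y' → f x' ≠ f y' := by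
    intro a b
    by_cases h : a = b
    · exact ⟨0, fun h' => absurd h h'⟩
    · obtain ⟨k, hk⟩ := hsep (x a) (x b) (by rw [hxf, hxf]; exact fun h' => h (Subtype.ext h'))
      exact ⟨k, fun _ => hk⟩
  choose kk hkk using s1
  obtain ⟨k0, hk0⟩ := (Set.finite_range (fun p : F × F => kk p.1 p.2)).bddAbove
  have st : ∀ (n : ℕ) (s : {x : F → ℕ → ℕ // ∀ a, x a ∈ W} × ℕ),
      ∃ (s' : {x : F → ℕ → ℕ // ∀ a, x a ∈ W} × ℕ) (w : ℕ), s.2 < s'.2 ∧ n < w ∧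
        (∀ a, Ag s.2 (s.1.1 a) (s'.1.1 a)) ∧ ∀ a z, Ag s'.2 (s'.1.1 a) z → w ∈ S (f z) e := by
    rintro n ⟨⟨x, hx⟩, k⟩
    let U : F → Set ℕ := fun a => {w | ∃ y ∈ W, Ag k (x a) y ∧ w ∈ S (f y) e}
    have u1 : ∀ a, JJ (range f) S (C \ U a) := by
      intro a
      by_contra hc
      obtain ⟨y, y1, y2⟩ := c2 (x a) e k (hx a) _ diff_subset hc
      obtain ⟨w, w1, w2⟩ := y2.nonempty
      exact w1.2 ⟨y, y2.mono (inter_subset_inter_left _ diff_subset), y1, w2⟩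
    have u2 : ∀ t : Finset F, JJ (range f) S (⋃ a ∈ t, C \ U a) := by
      intro t
      induction t using Finset.induction_on with
      | empty => exact JJ.fin (by simp)
      | insert a t _ ih => rw [Finset.set_biUnion_insert]; exact (u1 a).union hm ih
    have u3 : (C \ ⋃ a ∈ (Finset.univ : Finset F), C \ U a).Infinite :=
      fun h => JJ.diff hm c1 (u2 _) (JJ.fin h)
    obtain ⟨w, ⟨w1, w2⟩, w3⟩ := u3.exists_gt n
    have u4 : ∀ a, w ∈ U a := by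
      intro a
      by_contra hc
      exact w2 (mem_biUnion (x := a) (by simp) ⟨w1, hc⟩)
    choose y y1 y2 y3 using u4
    choose l hl using fun a => hloc (y a) w e (y3 a)
    obtain ⟨l0, hl0⟩ := (Set.finite_range l).bddAbove
    refine ⟨⟨⟨y, y1⟩, k + l0 + 1⟩, w, by simp, w3, y2, fun a z hz => hl a z (fun i hi => hz i ?_)⟩
    have := hl0 ⟨a, rfl⟩
    show i < k + l0 + 1
    omega
  choose G w g1 g2 g3 g4 using st
  let s : ℕ → {x : F → ℕ → ℕ // ∀ a, x a ∈ W} × ℕ := fun n => Nat.rec ⟨⟨x, hxW⟩, k0⟩ G n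
  have sm : StrictMono (fun n => (s n).2) := strictMono_nat_of_lt_succ (fun n => g1 n (s n))
  have sa : ∀ a n m, n ≤ m → Ag (s n).2 ((s n).1.1 a) ((s m).1.1 a) := by
    intro a n m h
    induction h with
    | refl => exact fun _ _ => rfl
    | @step m h ih => exact fun i hi => (g3 m (s m) a i (lt_of_lt_of_le hi (sm.monotone h))).trans (ih i hi)
  let z : F → ℕ → ℕ := fun a i => (s (i + 1)).1.1 a i
  have za : ∀ a n, Ag (s n).2 ((s n).1.1 a) (z a) := by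
    intro a n i hi
    have h1 := sa a n (max n (i + 1)) (le_max_left _ _) i hi
    have h2 := sa a (i + 1) (max n (i + 1)) (le_max_right _ _) i
      (lt_of_lt_of_le (Nat.lt_succ_self i) (sm.id_le (i + 1)))
    exact h2.symm.trans h1
  have zi : Function.Injective (fun a => f (z a)) := by
    intro a b hab
    by_contra hc
    have h0 : kk a b ≤ k0 := hk0 ⟨(a, b), rfl⟩
    exact hkk a b hc (z a) (z b) (fun i hi => za a 0 i (lt_of_lt_of_le hi h0))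
      (fun i hi => za b 0 i (lt_of_lt_of_le hi h0)) hab
  have hfin := hK (Finset.univ.image (fun a => f (z a))) (by simp [range_subset_iff])
    (by rw [Finset.card_image_of_injective _ zi]; simp [F2])
  refine Set.infinite_of_forall_exists_gt (fun n => ⟨w n (s n), ?_, g2 n (s n)⟩) hfin
  simp only [Finset.mem_image, Finset.mem_univ, true_and, mem_iInter]
  rintro _ ⟨a, rfl⟩
  exact g4 n (s n) a (z a) (za a (n + 1))

end Pool.Agent.Lib.helper16.Mad
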