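import Mathlib

set_option autoImplicit false
open Filter Topology

namespace Pool.Agent.Lib.helper16.ND

lemma tangent (f f1 f2 : ℝ → ℝ) (h1 : ∀ t, HasDerivAt f (f1 t) t) (h2 : ∀ t, HasDerivAt f1 (f2 t) t)
    (h3 : ∀ t, 0 ≤ f2 t) (a t : ℝ) : f a + f1 a * (t - a) ≤ f t := by
  have hm : Monotone f1 := monotone_of_deriv_nonneg (fun t => (h2 t).differentiableAt)
    (fun t => by rw [(h2 t).deriv]; exact h3 t)
  rcases lt_trichotomy a t with h | h | h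
  · obtain ⟨c, hc, hc2⟩ := exists_hasDerivAt_eq_slope f f1 h
      (fun x _ => (h1 x).continuousAt.continuousWithinAt) (fun x _ => h1 x)
    have := hm hc.1.le
    rw [hc2, le_div_iff₀ (by linarith)] at this
    linarith
  · subst h; simp
  · obtain ⟨c, hc, hc2⟩ := exists_hasDerivAt_eq_slope f f1 h
      (fun x _ => (h1 x).continuousAt.continuousWithinAt) (fun x _ => h1 x)
    have := hm hc.2.le
    rw [hc2, div_le_iff₀ (by linarith)] at this
    linarith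

lemma convex_ineq (f f1 f2 : ℝ → ℝ) (h1 : ∀ t, HasDerivAt f (f1 t) t)
    (h2 : ∀ t, HasDerivAt f1 (f2 t) t) (h3 : ∀ t, 0 ≤ f2 t) (a : ℝ) (ha0 : 0 ≤ a) (ha1 : a ≤ 1) :
    f a ≤ (1 - a) * f 0 + a * f 1 := by
  have e0 := tangent f f1 f2 h1 h2 h3 a 0
  have e1 := tangent f f1 f2 h1 h2 h3 a 1
  have := mul_le_mul_of_nonneg_left e0 (by linarith : 0 ≤ 1 - a)
  have := mul_le_mul_of_nonneg_left e1 ha0
  nlinarith

/-- value of the term -/
noncomputable def g0 (k : ℕ) (r u l : ℝ) : ℝ := (u ^ 2 / r) ^ (k + 2) * (u * l)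

noncomputable def q1 (r d u u1 : ℝ) : ℝ := (2 * u * u1 * r - u ^ 2 * d) / r ^ 2

noncomputable def q2 (r d C u u1 : ℝ) : ℝ :=
  2 * u1 ^ 2 / r - 4 * u * u1 * d / r ^ 2 - 2 * C * u ^ 2 / r ^ 2 + 2 * u ^ 2 * d ^ 2 / r ^ 3

noncomputable def g1 (k : ℕ) (r d u u1 l l1 : ℝ) : ℝ :=
  ((k : ℝ) + 2) * (u ^ 2 / r) ^ (k + 1) * q1 r d u u1 * (u * l)
    + (u ^ 2 / r) ^ (k + 2) * (u1 * l + u * l1)

noncomputable def g2 (k : ℕ) (r d C u u1 l l1 : ℝ) : ℝ :=
  ((k : ℝ) + 2) * ((k : ℝ) + 1) * (u ^ 2 / r) ^ k * q1 r d u u1 ^ 2 * (u * l)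
    + ((k : ℝ) + 2) * (u ^ 2 / r) ^ (k + 1) * q2 r d C u u1 * (u * l)
    + 2 * ((k : ℝ) + 2) * (u ^ 2 / r) ^ (k + 1) * q1 r d u u1 * (u1 * l + u * l1)
    + (u ^ 2 / r) ^ (k + 2) * (2 * u1 * l1)

section
variable (k : ℕ) (A B C u0 u1 l0 l1 : ℝ)

lemma hr (t : ℝ) : HasDerivAt (fun t : ℝ => A + 2 * B * t + C * t ^ 2) (2 * B + 2 * C * t) t := by
  have := ((hasDerivAt_id t).const_mul (2 * B)).const_add A |>.add
    ((hasDerivAt_pow 2 t).const_mul C)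
  refine HasDerivAt.congr_deriv this ?_
  simp; ring

lemma hd (t : ℝ) : HasDerivAt (fun t : ℝ => 2 * B + 2 * C * t) (2 * C) t := by
  have := ((hasDerivAt_id t).const_mul (2 * C)).const_add (2 * B)
  refine HasDerivAt.congr_deriv this ?_
  simp

lemma hu (t : ℝ) : HasDerivAt (fun t : ℝ => u0 + t * u1) u1 t := by
  have := ((hasDerivAt_id t).mul_const u1).const_add u0
  refine HasDerivAt.congr_deriv this ?_
  simp

lemma hq (t : ℝ) (h : A + 2 * B * t + C * t ^ 2 ≠ 0) :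
    HasDerivAt (fun t : ℝ => (u0 + t * u1) ^ 2 / (A + 2 * B * t + C * t ^ 2))
      (q1 (A + 2 * B * t + C * t ^ 2) (2 * B + 2 * C * t) (u0 + t * u1) u1) t := by
  have := ((hu u0 u1 t).pow 2).div (hr A B C t) h
  refine HasDerivAt.congr_deriv this ?_
  simp [q1]

lemma hq1 (t : ℝ) (h : A + 2 * B * t + C * t ^ 2 ≠ 0) :
    HasDerivAt (fun t : ℝ => q1 (A + 2 * B * t + C * t ^ 2) (2 * B + 2 * C * t) (u0 + t * u1) u1)
      (q2 (A + 2 * B * t + C * t ^ 2) (2 * B + 2 * C * t) C (u0 + t * u1) u1) t := by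
  have := ((((((hu u0 u1 t).const_mul 2).mul_const u1).mul (hr A B C t)).sub
    (((hu u0 u1 t).pow 2).mul (hd B C t))).div ((hr A B C t).pow 2) (pow_ne_zero 2 h))
  refine HasDerivAt.congr_deriv this ?_
  simp only [q2, Pi.pow_apply, Pi.mul_apply, Pi.sub_apply]
  generalize A + 2 * B * t + C * t ^ 2 = r at h ⊢
  generalize 2 * B + 2 * C * t = d
  generalize u0 + t * u1 = u
  field_simp
  norm_num
  ring

lemma hg0 (t : ℝ) (h : A + 2 * B * t + C * t ^ 2 ≠ 0) :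
    HasDerivAt (fun t : ℝ => g0 k (A + 2 * B * t + C * t ^ 2) (u0 + t * u1) (l0 + t * l1))
      (g1 k (A + 2 * B * t + C * t ^ 2) (2 * B + 2 * C * t) (u0 + t * u1) u1 (l0 + t * l1) l1) t := by
  have := ((hq A B C u0 u1 t h).pow (k + 2)).mul ((hu u0 u1 t).mul (hu l0 l1 t))
  refine HasDerivAt.congr_deriv this ?_
  simp [g1]

lemma hg1 (t : ℝ) (h : A + 2 * B * t + C * t ^ 2 ≠ 0) :
    HasDerivAt (fun t : ℝ =>
      g1 k (A + 2 * B * t + C * t ^ 2) (2 * B + 2 * C * t) (u0 + t * u1) u1 (l0 + t * l1) l1)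
      (g2 k (A + 2 * B * t + C * t ^ 2) (2 * B + 2 * C * t) C (u0 + t * u1) u1 (l0 + t * l1) l1) t := by
  have := ((((((hq A B C u0 u1 t h).pow (k + 1)).const_mul ((k : ℝ) + 2)).mul
    (hq1 A B C u0 u1 t h)).mul ((hu u0 u1 t).mul (hu l0 l1 t))).add
    (((hq A B C u0 u1 t h).pow (k + 2)).mul
      (((hu l0 l1 t).const_mul u1).add ((hu u0 u1 t).mul_const l1))))
  refine HasDerivAt.congr_deriv this ?_
  simp [g2]
  ring
end

lemma g2_bound (k : ℕ) (r d C u u1 l l1 : ℝ) (hr : 0 < r) (hu : u ^ 2 ≤ r) (hl : l ^ 2 ≤ r)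
    (hl1 : l1 ^ 2 ≤ C) (hd : d ^ 2 ≤ 4 * r * C) :
    |g2 k r d C u u1 l l1| ≤ 25 * ((k : ℝ) + 2) ^ 2 * (u1 ^ 2 + C * (u ^ 2 / r)) := by
  have hC : 0 ≤ C := le_trans (sq_nonneg _) hl1
  set q := u ^ 2 / r with hqd
  have hq0 : 0 ≤ q := by positivity
  have hq1' : q ≤ 1 := by rw [hqd, div_le_one hr]; exact hu
  have hqr : u ^ 2 = q * r := by rw [hqd]; field_simp
  set M := u1 ^ 2 + C * q with hM
  have hM0 : 0 ≤ M := by positivity
  have hw : |u * l| ≤ r := by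
    rw [abs_le]; constructor <;> nlinarith [sq_nonneg (u + l), sq_nonneg (u - l)]
  have hCq : 0 ≤ C * q := by positivity
  have e1 : q1 r d u u1 * r = 2 * u * u1 - q * d := by
    simp only [q1, hqd]; field_simp
  have hqd2 : q * d ^ 2 ≤ 4 * r * (C * q) := by nlinarith
  have b1 : q1 r d u u1 ^ 2 * r ≤ 8 * M := by
    have : (q1 r d u u1 * r) ^ 2 ≤ 8 * M * r := by
      rw [e1]
      have h1 : (2 * u * u1 - q * d) ^ 2 ≤ 8 * u ^ 2 * u1 ^ 2 + 2 * q * (q * d ^ 2) := by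
        nlinarith [sq_nonneg (2 * u * u1 + q * d)]
      have h2 : 8 * u ^ 2 * u1 ^ 2 ≤ 8 * r * u1 ^ 2 := by nlinarith [sq_nonneg u1]
      have h3 : 2 * q * (q * d ^ 2) ≤ 2 * (q * d ^ 2) := by
        have : 0 ≤ q * d ^ 2 := by positivity
        nlinarith
      nlinarith
    have h4 : (q1 r d u u1 ^ 2 * r) * r ≤ 8 * M * r := by nlinarith
    exact le_of_mul_le_mul_right h4 hr
  have e2 : q2 r d C u u1 * r = 2 * u1 ^ 2 - 4 * u1 * (u * d / r) - 2 * (C * q)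
      + 2 * (q * d ^ 2 / r) := by
    simp only [q2, hqd]; field_simp
  have hy : (u * d / r) ^ 2 = q * d ^ 2 / r := by
    rw [hqd]; field_simp
  have hy2 : q * d ^ 2 / r ≤ 4 * (C * q) := by
    rw [div_le_iff₀ hr]; nlinarith
  have hy3 : 0 ≤ q * d ^ 2 / r := by positivity
  have b2 : |q2 r d C u u1| * r ≤ 14 * M := by
    rw [← abs_of_pos hr, ← abs_mul, abs_of_pos hr, e2, abs_le]
    constructor
    · nlinarith [sq_nonneg (2 * u1 - u * d / r), sq_nonneg u1]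
    · nlinarith [sq_nonneg (2 * u1 + u * d / r), sq_nonneg u1]
  have b3 : (u1 * l + u * l1) ^ 2 ≤ 2 * M * r := by
    have h1 : (u1 * l + u * l1) ^ 2 ≤ 2 * (u1 ^ 2 * l ^ 2) + 2 * (u ^ 2 * l1 ^ 2) := by
      nlinarith [sq_nonneg (u1 * l - u * l1)]
    have h2 : u1 ^ 2 * l ^ 2 ≤ u1 ^ 2 * r := by gcongr
    have h3 : u ^ 2 * l1 ^ 2 ≤ u ^ 2 * C := by gcongr
    rw [hqr] at h3
    rw [hqr] at h1
    nlinarith
  have b4 : |q1 r d u u1 * (u1 * l + u * l1)| ≤ 4 * M := by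
    apply abs_le_of_sq_le_sq' _ (by positivity) |> abs_le.mpr
    have h1 : (q1 r d u u1 * (u1 * l + u * l1)) ^ 2 ≤ q1 r d u u1 ^ 2 * (2 * M * r) := by
      rw [mul_pow]; gcongr
    nlinarith
  have b5 : q * |2 * u1 * l1| ≤ M := by
    have : |q * (2 * u1 * l1)| ≤ M := by
      have h1 : (q * l1) ^ 2 ≤ C * q := by
        have : q * l1 ^ 2 ≤ C := by nlinarith [sq_nonneg l1]
        nlinarith
      rw [abs_le]; constructor <;> nlinarith [sq_nonneg (u1 + q * l1), sq_nonneg (u1 - q * l1)]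
    rwa [abs_mul, abs_of_nonneg hq0] at this
  have p1 : ∀ n : ℕ, 0 ≤ q ^ n ∧ q ^ n ≤ 1 := fun n => ⟨by positivity, pow_le_one₀ hq0 hq1'⟩
  have hk : (0 : ℝ) ≤ k := Nat.cast_nonneg k
  have t1 : |((k : ℝ) + 2) * ((k : ℝ) + 1) * q ^ k * q1 r d u u1 ^ 2 * (u * l)|
      ≤ ((k : ℝ) + 2) * ((k : ℝ) + 1) * (8 * M) := by
    rw [abs_mul, abs_of_nonneg (by have := (p1 k).1; positivity)]
    calc ((k : ℝ) + 2) * ((k : ℝ) + 1) * q ^ k * q1 r d u u1 ^ 2 * |u * l|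
        ≤ ((k : ℝ) + 2) * ((k : ℝ) + 1) * 1 * q1 r d u u1 ^ 2 * r := by
          gcongr; exact (p1 k).2
      _ = ((k : ℝ) + 2) * ((k : ℝ) + 1) * (q1 r d u u1 ^ 2 * r) := by ring
      _ ≤ _ := by gcongr
  have t2 : |((k : ℝ) + 2) * q ^ (k + 1) * q2 r d C u u1 * (u * l)| ≤ ((k : ℝ) + 2) * (14 * M) := by
    rw [abs_mul, abs_mul, abs_of_nonneg (by have := (p1 (k + 1)).1; positivity)]
    calc ((k : ℝ) + 2) * q ^ (k + 1) * |q2 r d C u u1| * |u * l|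
        ≤ ((k : ℝ) + 2) * 1 * |q2 r d C u u1| * r := by
          gcongr; exact (p1 _).2
      _ = ((k : ℝ) + 2) * (|q2 r d C u u1| * r) := by ring
      _ ≤ _ := by gcongr
  have t3 : |2 * ((k : ℝ) + 2) * q ^ (k + 1) * q1 r d u u1 * (u1 * l + u * l1)|
      ≤ 2 * ((k : ℝ) + 2) * (4 * M) := by
    rw [mul_assoc _ (q1 r d u u1), abs_mul, abs_of_nonneg (by have := (p1 (k + 1)).1; positivity)]
    calc 2 * ((k : ℝ) + 2) * q ^ (k + 1) * |q1 r d u u1 * (u1 * l + u * l1)|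
        ≤ 2 * ((k : ℝ) + 2) * 1 * (4 * M) := by
          gcongr; exact (p1 _).2
      _ = _ := by ring
  have t4 : |q ^ (k + 2) * (2 * u1 * l1)| ≤ M := by
    rw [abs_mul, abs_of_nonneg (p1 _).1]
    calc q ^ (k + 2) * |2 * u1 * l1| = q ^ (k + 1) * (q * |2 * u1 * l1|) := by ring
      _ ≤ 1 * M := by gcongr; exact (p1 _).2
      _ = M := one_mul _
  unfold g2
  rw [← hqd]
  refine le_trans (abs_add_le _ _) ?_
  refine le_trans (add_le_add_left (abs_add_le _ _) _) ?_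
  refine le_trans (add_le_add_left (add_le_add_left (abs_add_le _ _) _) _) ?_
  have : 0 ≤ (k : ℝ) * M := by positivity
  have : 0 ≤ (k : ℝ) * k * M := by positivity
  nlinarith

lemma ps_zero (b : ℕ → ℝ) (hb : Summable fun k => |b k|)
    (h : ∀ δ > 0, ∃ s : ℝ, 0 < s ∧ s < δ ∧ HasSum (fun k => b k * s ^ k) 0) : ∀ k, b k = 0 := by
  intro k
  induction k using Nat.strong_induction_on with
  | _ k ih =>
    by_contra hne
    have hpos : 0 < |b k| := abs_pos.mpr hne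
    set S := ∑' j, |b j| with hS
    have hS0 : 0 ≤ S := tsum_nonneg fun j => abs_nonneg _
    obtain ⟨s, hs0, hs1, hs⟩ := h (min 1 (|b k| / (S + 1))) (by positivity)
    have hs2 : s < 1 := lt_of_lt_of_le hs1 (min_le_left _ _)
    have hs3 : s * (S + 1) < |b k| := by
      have := lt_of_lt_of_le hs1 (min_le_right _ _)
      rwa [lt_div_iff₀ (by positivity)] at this
    have h1 := (hasSum_ite_sub_hasSum hs k)
    have h2 : ‖(0 : ℝ) - b k * s ^ k‖ ≤ S * s ^ (k + 1) := by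
      refine h1.norm_le_of_bounded (hb.hasSum.mul_right (s ^ (k + 1))) ?_
      intro j
      split_ifs with hj
      · simp; positivity
      · rcases lt_or_gt_of_ne hj with hj | hj
        · simp [ih j hj]
        · rw [Real.norm_eq_abs, abs_mul, abs_of_pos (pow_pos hs0 j)]
          have : s ^ j ≤ s ^ (k + 1) := pow_le_pow_of_le_one hs0.le hs2.le hj
          gcongr
    rw [zero_sub, norm_neg, Real.norm_eq_abs, abs_mul, abs_of_pos (pow_pos hs0 k), pow_succ] at h2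
    have : 0 < s ^ k := pow_pos hs0 k
    nlinarith

end Pool.Agent.Lib.helper16.ND
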