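import Pool.Agent.Lib.helper16.ND1

set_option autoImplicit false
open Filter Topology
open scoped RealInnerProductSpace

namespace Pool.Agent.Lib.helper16.ND

abbrev H (I : Type) : Type := lp (fun _ : I => ℝ) 2

variable {I : Type}

lemma hasSum_sq (x : H I) : HasSum (fun b => x b ^ 2) (‖x‖ ^ 2) := by
  have := lp.hasSum_inner (𝕜 := ℝ) x x
  rw [real_inner_self_eq_norm_sq] at this
  simpa [sq] using this

lemma hasSum_mul (x y : H I) : HasSum (fun b => x b * y b) ⟪x, y⟫ := by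
  have := lp.hasSum_inner (𝕜 := ℝ) x y
  simpa [mul_comm] using this

lemma sq_le (x : H I) (b : I) : x b ^ 2 ≤ ‖x‖ ^ 2 :=
  le_hasSum (hasSum_sq x) b fun _ _ => sq_nonneg _

lemma supp_countable (x : H I) : {b | x b ≠ 0}.Countable := by
  have := (hasSum_sq x).summable.countable_support
  refine this.mono fun b hb => ?_
  simpa using hb

structure Data (I : Type) where
  χ : ℕ × I → ℝ
  α : ℕ × I → I
  hχ : ∀ p, χ p ^ 2 ≤ 1

noncomputable def eps (k : ℕ) : ℝ := (1 / 2) ^ k / (100 * ((k : ℝ) + 2) ^ 2)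

lemma eps_pos (k : ℕ) : 0 < eps k := by unfold eps; positivity

lemma eps_mul (k : ℕ) : eps k * (25 * ((k : ℝ) + 2) ^ 2) = (1 / 2) ^ k / 4 := by
  unfold eps; field_simp; norm_num

lemma eps_le (k : ℕ) : eps k ≤ (1 / 2) ^ k / 4 := by
  rw [← eps_mul]
  have := eps_pos k
  have hk : (0 : ℝ) ≤ k := Nat.cast_nonneg k
  have : (1 : ℝ) ≤ 25 * ((k : ℝ) + 2) ^ 2 := by nlinarith
  nlinarith

lemma hasSum_half : HasSum (fun k : ℕ => ((1 : ℝ) / 2) ^ k / 4) (1 / 2) := by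
  have := hasSum_geometric_two.div_const 4
  norm_num at this ⊢
  exact this

lemma hasSum_prod (f : I → ℝ) (s : ℝ) (hf : HasSum f s) (h0 : ∀ b, 0 ≤ f b) :
    HasSum (fun p : ℕ × I => ((1 : ℝ) / 2) ^ p.1 / 4 * f p.2) (1 / 2 * s) :=
  hasSum_half.mul hf (hasSum_half.summable.mul_of_nonneg hf.summable
    (fun k => by positivity) h0)

variable (D : Data I)

def L (p : ℕ × I) (x : H I) : ℝ := D.χ p * x (D.α p)

lemma L_sq (p : ℕ × I) (x : H I) : L D p x ^ 2 ≤ ‖x‖ ^ 2 := by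
  unfold L
  rw [mul_pow]
  have := D.hχ p
  have := sq_le x (D.α p)
  nlinarith [sq_nonneg (x (D.α p))]

lemma L_line (p : ℕ × I) (x h : H I) (t : ℝ) : L D p (x + t • h) = L D p x + t * L D p h := by
  simp [L]; ring

noncomputable def term (x : H I) (p : ℕ × I) : ℝ := eps p.1 * g0 p.1 (‖x‖ ^ 2) (x p.2) (L D p x)

lemma g0_bound (k : ℕ) (r u l : ℝ) (hu : u ^ 2 ≤ r) (hl : l ^ 2 ≤ r) : |g0 k r u l| ≤ u ^ 2 := by
  rcases eq_or_lt_of_le (le_trans (sq_nonneg u) hu) with h | hr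
  · simp [g0, ← h]; positivity
  have hq0 : 0 ≤ u ^ 2 / r := by positivity
  have hq1 : u ^ 2 / r ≤ 1 := by rw [div_le_one hr]; exact hu
  have hw : |u * l| ≤ r := by
    rw [abs_le]; constructor <;> nlinarith [sq_nonneg (u + l), sq_nonneg (u - l)]
  unfold g0
  rw [abs_mul, abs_of_nonneg (pow_nonneg hq0 _)]
  calc (u ^ 2 / r) ^ (k + 2) * |u * l| = (u ^ 2 / r) ^ (k + 1) * (u ^ 2 / r * |u * l|) := by ring
    _ ≤ 1 * (u ^ 2 / r * r) := by gcongr; exact pow_le_one₀ hq0 hq1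
    _ = u ^ 2 := by field_simp

lemma term_bound (x : H I) (p : ℕ × I) : ‖term D x p‖ ≤ (1 / 2) ^ p.1 / 4 * x p.2 ^ 2 := by
  unfold term
  rw [Real.norm_eq_abs, abs_mul, abs_of_pos (eps_pos _)]
  exact mul_le_mul (eps_le _) (g0_bound _ _ _ _ (sq_le _ _) (L_sq D _ _)) (abs_nonneg _)
    (by positivity)

lemma term_summable (x : H I) : Summable (term D x) :=
  Summable.of_norm_bounded (hasSum_prod _ _ (hasSum_sq x) fun _ => sq_nonneg _).summable
    (term_bound D x)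

noncomputable def Q (x : H I) : ℝ := ‖x‖ ^ 2 + ∑' p, term D x p

lemma tsum_bound (x : H I) : |∑' p, term D x p| ≤ 1 / 2 * ‖x‖ ^ 2 :=
  (term_summable D x).hasSum.norm_le_of_bounded
    (hasSum_prod _ _ (hasSum_sq x) fun _ => sq_nonneg _) (term_bound D x)

lemma Q_ge (x : H I) : 1 / 2 * ‖x‖ ^ 2 ≤ Q D x := by
  have := abs_le.mp (tsum_bound D x); unfold Q; linarith

lemma Q_le (x : H I) : Q D x ≤ 2 * ‖x‖ ^ 2 := by
  have := abs_le.mp (tsum_bound D x); unfold Q; nlinarith [sq_nonneg ‖x‖]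

lemma Q_nonneg (x : H I) : 0 ≤ Q D x := le_trans (by positivity) (Q_ge D x)

lemma term_smul (c : ℝ) (x : H I) (p : ℕ × I) : term D (c • x) p = c ^ 2 * term D x p := by
  rcases eq_or_ne c 0 with rfl | hc
  · simp [term, g0]
  unfold term g0 L
  rw [norm_smul, mul_pow, Real.norm_eq_abs, sq_abs]
  simp only [lp.coeFn_smul, Pi.smul_apply, smul_eq_mul]
  rw [mul_pow c, mul_div_mul_left _ _ (pow_ne_zero 2 hc)]
  ring

lemma Q_smul (c : ℝ) (x : H I) : Q D (c • x) = c ^ 2 * Q D x := by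
  unfold Q
  simp only [term_smul]
  rw [tsum_mul_left, norm_smul, mul_pow, Real.norm_eq_abs, sq_abs]
  ring

lemma norm_line (x h : H I) (t : ℝ) :
    ‖x + t • h‖ ^ 2 = ‖x‖ ^ 2 + 2 * ⟪x, h⟫ * t + ‖h‖ ^ 2 * t ^ 2 := by
  rw [norm_add_sq_real, real_inner_smul_right, norm_smul, mul_pow, Real.norm_eq_abs, sq_abs]
  ring

lemma inner_line (x h : H I) (t : ℝ) :
    2 * ⟪x, h⟫ + 2 * ‖h‖ ^ 2 * t = 2 * ⟪x + t • h, h⟫ := by
  rw [inner_add_left, real_inner_smul_left, real_inner_self_eq_norm_sq]; ring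

noncomputable def T1 (x h : H I) (t : ℝ) (p : ℕ × I) : ℝ :=
  eps p.1 * g1 p.1 (‖x‖ ^ 2 + 2 * ⟪x, h⟫ * t + ‖h‖ ^ 2 * t ^ 2) (2 * ⟪x, h⟫ + 2 * ‖h‖ ^ 2 * t)
    (x p.2 + t * h p.2) (h p.2) (L D p x + t * L D p h) (L D p h)

noncomputable def T2 (x h : H I) (t : ℝ) (p : ℕ × I) : ℝ :=
  eps p.1 * g2 p.1 (‖x‖ ^ 2 + 2 * ⟪x, h⟫ * t + ‖h‖ ^ 2 * t ^ 2) (2 * ⟪x, h⟫ + 2 * ‖h‖ ^ 2 * t)
    (‖h‖ ^ 2) (x p.2 + t * h p.2) (h p.2) (L D p x + t * L D p h) (L D p h)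

lemma term_line (x h : H I) (t : ℝ) (p : ℕ × I) : term D (x + t • h) p =
    eps p.1 * g0 p.1 (‖x‖ ^ 2 + 2 * ⟪x, h⟫ * t + ‖h‖ ^ 2 * t ^ 2) (x p.2 + t * h p.2)
      (L D p x + t * L D p h) := by
  unfold term
  rw [norm_line, L_line]
  simp

section line
variable (x h : H I) (hne : ∀ t : ℝ, x + t • h ≠ 0)
include hne

lemma rho_pos (t : ℝ) : 0 < ‖x‖ ^ 2 + 2 * ⟪x, h⟫ * t + ‖h‖ ^ 2 * t ^ 2 := by
  rw [← norm_line]
  have := norm_pos_iff.mpr (hne t)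
  positivity

lemma dS0 (F : Finset (ℕ × I)) (t : ℝ) :
    HasDerivAt (fun t : ℝ => ∑ p ∈ F, term D (x + t • h) p) (∑ p ∈ F, T1 D x h t p) t := by
  apply HasDerivAt.fun_sum
  intro p _
  simp only [term_line]
  exact (hg0 _ _ _ _ _ _ _ _ t (rho_pos x h hne t).ne').const_mul _

lemma dS1 (F : Finset (ℕ × I)) (t : ℝ) :
    HasDerivAt (fun t : ℝ => ∑ p ∈ F, T1 D x h t p) (∑ p ∈ F, T2 D x h t p) t := by
  apply HasDerivAt.fun_sum
  intro p _
  exact (hg1 _ _ _ _ _ _ _ _ t (rho_pos x h hne t).ne').const_mul _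

lemma S2_bound (F : Finset (ℕ × I)) (t : ℝ) : |∑ p ∈ F, T2 D x h t p| ≤ ‖h‖ ^ 2 := by
  have hp := rho_pos x h hne t
  set y := x + t • h with hy
  have hr : ‖x‖ ^ 2 + 2 * ⟪x, h⟫ * t + ‖h‖ ^ 2 * t ^ 2 = ‖y‖ ^ 2 := (norm_line x h t).symm
  have hs : HasSum (fun b => h b ^ 2 + ‖h‖ ^ 2 * (y b ^ 2 / ‖y‖ ^ 2))
      (‖h‖ ^ 2 + ‖h‖ ^ 2 * (‖y‖ ^ 2 / ‖y‖ ^ 2)) :=
    (hasSum_sq h).add (((hasSum_sq y).div_const _).mul_left _)
  rw [div_self (by rw [← hr]; exact hp.ne')] at hs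
  have hs2 := hasSum_prod _ _ hs fun b => by positivity
  refine le_trans (Finset.abs_sum_le_sum_abs _ _) ?_
  refine le_trans (Finset.sum_le_sum fun p _ => ?_)
    (le_trans (sum_le_hasSum F (fun p _ => by positivity) hs2) (by linarith))
  unfold T2
  rw [abs_mul, abs_of_pos (eps_pos _), ← eps_mul, hr, inner_line, ← hy, ← L_line, ← hy,
    mul_assoc (eps p.1)]
  have e : x p.2 + t * h p.2 = y p.2 := by simp [hy]
  rw [e]
  refine mul_le_mul_of_nonneg_left ?_ (eps_pos _).le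
  refine g2_bound _ _ _ _ _ _ _ _ (by rw [← hr]; exact hp) (sq_le _ _) (L_sq D _ _) (L_sq D _ _) ?_
  have := abs_real_inner_le_norm y h
  have h2 : ⟪y, h⟫ ^ 2 ≤ (‖y‖ * ‖h‖) ^ 2 := by
    rw [← sq_abs]; gcongr
  nlinarith

lemma convex_line (a : ℝ) (ha0 : 0 ≤ a) (ha1 : a ≤ 1) :
    Q D (x + a • h) ≤ (1 - a) * Q D x + a * Q D (x + h) := by
  have key : ∀ F : Finset (ℕ × I), ‖x + a • h‖ ^ 2 + ∑ p ∈ F, term D (x + a • h) p ≤
      (1 - a) * (‖x‖ ^ 2 + ∑ p ∈ F, term D x p) + a * (‖x + h‖ ^ 2 + ∑ p ∈ F, term D (x + h) p) := by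
    intro F
    have := convex_ineq
      (fun t => (‖x‖ ^ 2 + 2 * ⟪x, h⟫ * t + ‖h‖ ^ 2 * t ^ 2) + ∑ p ∈ F, term D (x + t • h) p)
      (fun t => (2 * ⟪x, h⟫ + 2 * ‖h‖ ^ 2 * t) + ∑ p ∈ F, T1 D x h t p)
      (fun t => 2 * ‖h‖ ^ 2 + ∑ p ∈ F, T2 D x h t p)
      (fun t => (hr _ _ _ t).add (dS0 D x h hne F t))
      (fun t => (hd _ _ t).add (dS1 D x h hne F t))
      (fun t => by have := abs_le.mp (S2_bound D x h hne F t); nlinarith [sq_nonneg ‖h‖])
      a ha0 ha1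
    simp only [← norm_line] at this
    simpa using this
  have l1 := ((term_summable D (x + a • h)).hasSum).const_add (‖x + a • h‖ ^ 2)
  have l2 := (((term_summable D x).hasSum.const_add (‖x‖ ^ 2)).const_mul (1 - a)).add
    (((term_summable D (x + h)).hasSum.const_add (‖x + h‖ ^ 2)).const_mul a)
  exact le_of_tendsto_of_tendsto' l1 l2 key

lemma taylor_line (s : ℝ) (hs : HasSum (T1 D x h 0) s) (t : ℝ) :
    Q D (x + t • h) ≤ Q D x + t * (2 * ⟪x, h⟫ + s) + 2 * ‖h‖ ^ 2 * t ^ 2 := by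
  have key : ∀ F : Finset (ℕ × I), ∑ p ∈ F, term D (x + t • h) p ≤
      ∑ p ∈ F, term D x p + t * ∑ p ∈ F, T1 D x h 0 p + ‖h‖ ^ 2 * t ^ 2 := by
    intro F
    have := tangent
      (fun t => (0 + 2 * 0 * t + ‖h‖ ^ 2 * t ^ 2) - ∑ p ∈ F, term D (x + t • h) p)
      (fun t => (2 * 0 + 2 * ‖h‖ ^ 2 * t) - ∑ p ∈ F, T1 D x h t p)
      (fun t => 2 * ‖h‖ ^ 2 - ∑ p ∈ F, T2 D x h t p)
      (fun t => (hr _ _ _ t).sub (dS0 D x h hne F t))
      (fun t => (hd _ _ t).sub (dS1 D x h hne F t))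
      (fun t => by have := abs_le.mp (S2_bound D x h hne F t); nlinarith [sq_nonneg ‖h‖])
      0 t
    simp only [zero_smul, add_zero] at this
    linarith
  have l1 := (term_summable D (x + t • h)).hasSum
  have l2 := (Tendsto.add (term_summable D x).hasSum (Tendsto.const_mul t hs)).add_const (‖h‖ ^ 2 * t ^ 2)
  have := le_of_tendsto_of_tendsto' l1 l2 key
  unfold Q
  rw [norm_line]
  linarith

end line

lemma Q_convex (a b : H I) (ha : Q D a ≤ 1) (hb : Q D b ≤ 1) (s : ℝ) (h0 : 0 ≤ s) (h1 : s ≤ 1) :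
    Q D (a + s • (b - a)) ≤ 1 := by
  by_cases hne : ∀ t : ℝ, a + t • (b - a) ≠ 0
  · have := convex_line D a (b - a) hne s h0 h1
    rw [add_sub_cancel] at this
    nlinarith
  · push Not at hne
    obtain ⟨t, ht⟩ := hne
    set h := b - a with hh
    have ea : a = (-t) • h := by rw [neg_smul]; exact eq_neg_of_add_eq_zero_left ht
    have eb : b = (1 - t) • h := by
      have : b = a + h := by simp [hh]
      rw [this, ea, sub_smul, one_smul, neg_smul]; abel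
    have ec : a + s • h = (s - t) • h := by rw [ea, sub_smul, neg_smul]; abel
    rw [ec, Q_smul]
    rw [ea, Q_smul] at ha
    rw [eb, Q_smul] at hb
    have := Q_nonneg D h
    rcases le_total s t with hst | hst
    · have : (s - t) ^ 2 ≤ (-t) ^ 2 := by nlinarith
      nlinarith
    · have : (s - t) ^ 2 ≤ (1 - t) ^ 2 := by nlinarith
      nlinarith

noncomputable def N (x : H I) : ℝ := √(Q D x)

lemma N_smul (c : ℝ) (x : H I) : N D (c • x) = |c| * N D x := by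
  unfold N
  rw [Q_smul, Real.sqrt_mul (sq_nonneg c), Real.sqrt_sq_eq_abs]

lemma N_nonneg (x : H I) : 0 ≤ N D x := Real.sqrt_nonneg _

lemma N_sq (x : H I) : N D x ^ 2 = Q D x := Real.sq_sqrt (Q_nonneg D x)

lemma N_le (x : H I) : N D x ≤ 2 * ‖x‖ := by
  apply le_of_sq_le_sq _ (by positivity) |> fun h => h
  rw [N_sq]
  have := Q_le D x
  nlinarith [sq_nonneg ‖x‖]

lemma le_N (x : H I) : ‖x‖ ≤ 2 * N D x := by
  have := N_nonneg D x
  apply le_of_sq_le_sq _ (by positivity) |> fun h => h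
  rw [mul_pow, N_sq]
  have := Q_ge D x
  nlinarith [sq_nonneg ‖x‖]

lemma N_zero : N D 0 = 0 := by
  have := N_smul D 0 0
  simpa using this

lemma N_pos (x : H I) (hx : x ≠ 0) : 0 < N D x := by
  have := le_N D x
  have := norm_pos_iff.mpr hx
  linarith

lemma N_add (x y : H I) : N D (x + y) ≤ N D x + N D y := by
  rcases eq_or_ne x 0 with rfl | hx
  · simp [N_zero]
  rcases eq_or_ne y 0 with rfl | hy
  · simp [N_zero]
  have px := N_pos D x hx
  have py := N_pos D y hy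
  have ha : Q D ((N D x)⁻¹ • x) ≤ 1 := by
    rw [Q_smul, ← N_sq]; field_simp; rfl
  have hb : Q D ((N D y)⁻¹ • y) ≤ 1 := by
    rw [Q_smul, ← N_sq]; field_simp; rfl
  have := Q_convex D _ _ ha hb (N D y / (N D x + N D y)) (by positivity)
    (by rw [div_le_one (by positivity)]; linarith)
  have e : (N D x)⁻¹ • x + (N D y / (N D x + N D y)) • ((N D y)⁻¹ • y - (N D x)⁻¹ • x)
      = (N D x + N D y)⁻¹ • (x + y) := by
    rw [smul_sub, smul_smul, smul_smul, smul_add]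
    have e1 : N D y / (N D x + N D y) * (N D y)⁻¹ = (N D x + N D y)⁻¹ := by field_simp
    have e2 : N D y / (N D x + N D y) * (N D x)⁻¹ = (N D x)⁻¹ - (N D x + N D y)⁻¹ := by
      field_simp; ring
    rw [e1, e2, sub_smul]; abel
  rw [e, Q_smul, ← N_sq, ← mul_pow] at this
  have h2 : (N D x + N D y)⁻¹ * N D (x + y) ≤ 1 := by
    have := N_nonneg D (x + y)
    have h3 : 0 ≤ (N D x + N D y)⁻¹ * N D (x + y) := by positivity
    nlinarith
  rwa [inv_mul_le_iff₀ (by positivity), mul_one] at h2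

end Pool.Agent.Lib.helper16.ND
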