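import Pool.Agent.Lib.helper16.ND2

set_option autoImplicit false
open Filter Topology
open scoped RealInnerProductSpace

namespace Pool.Agent.Lib.helper16.ND

variable {I : Type} (D : Data I)

lemma inner_zero_of_disj (y z : H I) (hd : ∀ b, y b * z b = 0) : ⟪y, z⟫ = 0 := by
  have := hasSum_mul y z
  simp only [hd] at this
  exact this.unique hasSum_zero

noncomputable def V (y z : H I) (p : ℕ × I) : ℝ :=
  (y p.2 ^ 2 / ‖y‖ ^ 2) ^ (p.1 + 2) * (y p.2 * L D p z)

lemma yL_bound (y z : H I) (p : ℕ × I) : |y p.2 * L D p z| ≤ ‖y‖ ^ 2 + ‖z‖ ^ 2 := by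
  have := sq_le y p.2
  have := L_sq D p z
  rw [abs_le]
  constructor <;> nlinarith [sq_nonneg (y p.2 + L D p z), sq_nonneg (y p.2 - L D p z)]

lemma q_le_one (y : H I) (b : I) : y b ^ 2 / ‖y‖ ^ 2 ≤ 1 :=
  div_le_one_of_le₀ (sq_le y b) (by positivity)

lemma V_bound (y z : H I) (p : ℕ × I) :
    |V D y z p| ≤ y p.2 ^ 2 / ‖y‖ ^ 2 * (‖y‖ ^ 2 + ‖z‖ ^ 2) := by
  unfold V
  rw [abs_mul, abs_of_nonneg (by positivity)]
  calc (y p.2 ^ 2 / ‖y‖ ^ 2) ^ (p.1 + 2) * |y p.2 * L D p z|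
      = (y p.2 ^ 2 / ‖y‖ ^ 2) ^ (p.1 + 1) * (y p.2 ^ 2 / ‖y‖ ^ 2 * |y p.2 * L D p z|) := by ring
    _ ≤ 1 * (y p.2 ^ 2 / ‖y‖ ^ 2 * (‖y‖ ^ 2 + ‖z‖ ^ 2)) := by
        gcongr
        · exact pow_le_one₀ (by positivity) (q_le_one y _)
        · exact yL_bound D y z p
    _ = _ := one_mul _

lemma W_summable (y z : H I) : Summable fun p : ℕ × I => eps p.1 * V D y z p := by
  refine Summable.of_norm_bounded (hasSum_prod _ _
    (((hasSum_sq y).div_const (‖y‖ ^ 2)).mul_right (‖y‖ ^ 2 + ‖z‖ ^ 2))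
    fun _ => by positivity).summable fun p => ?_
  rw [Real.norm_eq_abs, abs_mul, abs_of_pos (eps_pos _)]
  exact mul_le_mul (eps_le _) (V_bound D y z p) (abs_nonneg _) (by positivity)

lemma orth (y z : H I) (hy : y ≠ 0) (hd : ∀ b, y b * z b = 0)
    (ho : ∀ t : ℝ, Q D y ≤ Q D (y + t • z)) :
    HasSum (fun p : ℕ × I => eps p.1 * V D y z p) 0 := by
  have hi := inner_zero_of_disj y z hd
  have hn := norm_pos_iff.mpr hy
  have hne : ∀ t : ℝ, y + t • z ≠ 0 := by
    intro t h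
    have := norm_line y z t
    rw [h, hi] at this
    simp only [norm_zero] at this
    nlinarith [sq_nonneg (‖z‖ * t), pow_pos hn 2]
  have e : T1 D y z 0 = fun p : ℕ × I => eps p.1 * V D y z p := by
    funext p
    unfold T1 V g1 q1
    rw [hi]
    rcases mul_eq_zero.mp (hd p.2) with h | h <;> simp [h]
  have hs := (W_summable D y z).hasSum
  set s := ∑' p : ℕ × I, eps p.1 * V D y z p
  have key : ∀ t : ℝ, 0 ≤ t * s + 2 * ‖z‖ ^ 2 * t ^ 2 := by
    intro t
    have := taylor_line D y z hne s (e ▸ hs) t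
    have := ho t
    rw [hi] at *
    linarith
  have : s = 0 := by
    by_contra hs0
    have h1 := key (-s / (2 * ‖z‖ ^ 2 + 1))
    have h2 : 0 < s ^ 2 := by positivity
    have h3 : -s / (2 * ‖z‖ ^ 2 + 1) * s + 2 * ‖z‖ ^ 2 * (-s / (2 * ‖z‖ ^ 2 + 1)) ^ 2
        = - s ^ 2 / (2 * ‖z‖ ^ 2 + 1) ^ 2 := by field_simp; ring
    rw [h3, neg_div] at h1
    have : 0 < s ^ 2 / (2 * ‖z‖ ^ 2 + 1) ^ 2 := by positivity
    linarith
  rwa [this] at hs

lemma rows_zero (y0 y z : H I) (hy0 : y0 ≠ 0) (hy : y ≠ 0) (h01 : ∀ b, y0 b * y b = 0)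
    (h0 : ∀ b, y0 b * z b = 0) (h1 : ∀ b, y b * z b = 0)
    (ho : ∀ s t : ℝ, Q D (y0 + s • y) ≤ Q D (y0 + s • y + t • z)) (k : ℕ) :
    HasSum (fun b => V D y z (k, b)) 0 := by
  have hi := inner_zero_of_disj y0 y h01
  have hn0 := norm_pos_iff.mpr hy0
  have hn := norm_pos_iff.mpr hy
  have hr : ∀ t : ℝ, ‖y0 + t • y‖ ^ 2 = ‖y0‖ ^ 2 + ‖y‖ ^ 2 * t ^ 2 := by
    intro t; rw [norm_line, hi]; ring
  have hz : ∀ t : ℝ, HasSum (fun p : ℕ × I => eps p.1 * V D (y0 + t • y) z p) 0 := by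
    intro t
    refine orth D _ z ?_ ?_ (ho t)
    · intro h
      have := hr t
      rw [h] at this
      simp only [norm_zero] at this
      nlinarith [sq_nonneg (‖y‖ * t), pow_pos hn0 2]
    · intro b
      have a0 := h0 b
      have a1 := h1 b
      simp only [lp.coeFn_add, lp.coeFn_smul, Pi.add_apply, Pi.smul_apply, smul_eq_mul]
      rw [add_mul, a0, mul_assoc, a1]; simp
  have hW := W_summable D y z
  have hb : ∀ k, HasSum (fun b => eps k * V D y z (k, b)) (∑' b, eps k * V D y z (k, b)) :=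
    fun k => (hW.prod_factor k).hasSum
  have hzero := ps_zero (fun k => ∑' b, eps k * V D y z (k, b)) hW.prod.abs (by
    intro δ hδ
    -- choose t
    obtain ⟨t, ht0, ht⟩ : ∃ t : ℝ, 0 < t ∧ ‖y‖ ^ 2 * t ^ 2 / (‖y0‖ ^ 2 + ‖y‖ ^ 2 * t ^ 2) < δ := by
      refine ⟨min 1 (δ * ‖y0‖ ^ 2 / ‖y‖ ^ 2), by positivity, ?_⟩
      set t := min 1 (δ * ‖y0‖ ^ 2 / ‖y‖ ^ 2)
      have ht0 : 0 < t := by positivity
      have ht1 : t ≤ 1 := min_le_left _ _
      have ht2 : t ≤ δ * ‖y0‖ ^ 2 / ‖y‖ ^ 2 := min_le_right _ _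
      rw [le_div_iff₀ (by positivity)] at ht2
      rw [div_lt_iff₀ (by positivity)]
      have : 0 < δ * (‖y‖ ^ 2 * t ^ 2) := by positivity
      have : ‖y‖ ^ 2 * t ^ 2 ≤ t * ‖y‖ ^ 2 := by
        have : 0 < ‖y‖ ^ 2 * t := by positivity
        nlinarith
      nlinarith
    set s := ‖y‖ ^ 2 * t ^ 2 / (‖y0‖ ^ 2 + ‖y‖ ^ 2 * t ^ 2) with hsd
    have hs0 : 0 < s := by positivity
    refine ⟨s, hs0, ht, ?_⟩
    have hdiff := ((hz t).sub (hz (-t))).div_const (2 * t * s ^ 2)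
    have e : (fun p : ℕ × I => (eps p.1 * V D (y0 + t • y) z p - eps p.1 * V D (y0 + -t • y) z p)
        / (2 * t * s ^ 2)) = fun p => eps p.1 * V D y z p * s ^ p.1 := by
      funext p
      unfold V
      rw [hr, hr]
      simp only [lp.coeFn_add, lp.coeFn_smul, Pi.add_apply, Pi.smul_apply, smul_eq_mul]
      rcases mul_eq_zero.mp (h01 p.2) with h | h
      · rw [h]
        have e1 : (0 + t * y p.2) ^ 2 / (‖y0‖ ^ 2 + ‖y‖ ^ 2 * t ^ 2) = s * (y p.2 ^ 2 / ‖y‖ ^ 2) := by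
          rw [hsd]; field_simp; ring
        have e2 : (0 + -t * y p.2) ^ 2 / (‖y0‖ ^ 2 + ‖y‖ ^ 2 * (-t) ^ 2)
            = s * (y p.2 ^ 2 / ‖y‖ ^ 2) := by
          rw [hsd]; field_simp; ring
        rw [e1, e2, mul_pow]
        generalize (y p.2 ^ 2 / ‖y‖ ^ 2) ^ (p.1 + 2) = c
        field_simp
        ring
      · simp [h]
    rw [e] at hdiff
    simp only [sub_self, zero_div] at hdiff
    exact hdiff.prod_fiberwise fun k => (hb k).mul_right (s ^ k))
  have := (hb k).div_const (eps k)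
  rw [hzero k, zero_div] at this
  have he := (eps_pos k).ne'
  simpa [he] using this

lemma coord_zero (y z : H I) (hrow : ∀ k, HasSum (fun b => V D y z (k, b)) 0) (b0 : I)
    (hb0 : y b0 ≠ 0) (a : I)
    (hsep : ∀ (F : Set I), F.Finite → ∀ n : ℕ, ∃ k ≥ n, D.χ (k, b0) = 1 ∧ D.α (k, b0) = a ∧
      ∀ b ∈ F, b ≠ b0 → D.χ (k, b) = 0) : z a = 0 := by
  classical
  have hy : y ≠ 0 := by rintro rfl; simp at hb0
  have hn := norm_pos_iff.mpr hy
  set q : I → ℝ := fun b => y b ^ 2 / ‖y‖ ^ 2 with hq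
  have hq0 : 0 < q b0 := by simp only [hq]; positivity
  have hqs : HasSum q 1 := by
    have := (hasSum_sq y).div_const (‖y‖ ^ 2)
    rwa [div_self (by positivity)] at this
  have hF : {b | q b0 / 2 ≤ q b}.Finite := by
    have := hqs.summable.tendsto_cofinite_zero.eventually (gt_mem_nhds (half_pos hq0))
    simpa [Filter.eventually_cofinite] using this
  set K := ‖y‖ ^ 2 + ‖z‖ ^ 2
  have key : ∀ n : ℕ, q b0 * |y b0 * z a| ≤ (1 / 2) ^ n * K := by
    intro n
    obtain ⟨k, hk, h1, h2, h3⟩ := hsep _ hF n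
    have hs := hasSum_ite_sub_hasSum (hrow k) b0
    have hb : ‖(0 : ℝ) - V D y z (k, b0)‖ ≤ (q b0 / 2) ^ (k + 1) * (1 * K) := by
      refine hs.norm_le_of_bounded ((hqs.mul_right K).mul_left _) fun b => ?_
      have hqb : 0 ≤ q b := by simp only [hq]; positivity
      split_ifs with hb
      · simp only [norm_zero]; positivity
      · by_cases hbF : q b0 / 2 ≤ q b
        · have := h3 b hbF hb
          simp only [V, L, this, zero_mul, mul_zero, norm_zero]; positivity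
        · push Not at hbF
          rw [Real.norm_eq_abs]
          unfold V
          rw [abs_mul, abs_of_nonneg (by positivity)]
          calc q b ^ (k + 2) * |y b * L D (k, b) z| = q b ^ (k + 1) * (q b * |y b * L D (k, b) z|) := by
                ring
            _ ≤ (q b0 / 2) ^ (k + 1) * (q b * K) := by
                gcongr
                exact yL_bound D y z (k, b)
    rw [zero_sub, norm_neg, Real.norm_eq_abs] at hb
    unfold V L at hb
    simp only [h1, h2, one_mul] at hb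
    rw [abs_mul, abs_of_nonneg (by positivity)] at hb
    have hb' : q b0 ^ (k + 1) * (q b0 * |y b0 * z a|) ≤ q b0 ^ (k + 1) * ((1 / 2) ^ (k + 1) * K) := by
      calc q b0 ^ (k + 1) * (q b0 * |y b0 * z a|) = q b0 ^ (k + 2) * |y b0 * z a| := by ring
        _ ≤ (q b0 / 2) ^ (k + 1) * K := hb
        _ = _ := by rw [div_eq_mul_one_div, mul_pow]; ring
    have h4 := le_of_mul_le_mul_left hb' (pow_pos hq0 _)
    refine le_trans h4 ?_
    have : ((1 : ℝ) / 2) ^ (k + 1) ≤ (1 / 2) ^ n :=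
      pow_le_pow_of_le_one (by norm_num) (by norm_num) (by omega)
    gcongr
  have lim : Tendsto (fun n : ℕ => ((1 : ℝ) / 2) ^ n * K) atTop (𝓝 (0 * K)) :=
    (tendsto_pow_atTop_nhds_zero_of_lt_one (by norm_num) (by norm_num)).mul_const K
  have := ge_of_tendsto' lim key
  have h5 : |y b0 * z a| ≤ 0 := by
    by_contra h
    push Not at h
    have := mul_pos hq0 h
    linarith
  have := abs_nonpos_iff.mp h5
  exact (mul_eq_zero.mp this).resolve_left hb0

end Pool.Agent.Lib.helper16.ND
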