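import Pool.Agent.Lib.helper16.ND3

set_option autoImplicit false
open Filter Topology
open scoped RealInnerProductSpace

namespace Pool.Agent.Lib.helper16.ND

variable {I : Type} (D : Data I)

def E (_D : Data I) : Type := H I

noncomputable instance : AddCommGroup (E D) := inferInstanceAs (AddCommGroup (H I))
noncomputable instance : Module ℝ (E D) := inferInstanceAs (Module ℝ (H I))

noncomputable def toH : E D ≃ₗ[ℝ] H I := LinearEquiv.refl ℝ (H I)

noncomputable def addNorm : AddGroupNorm (E D) where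
  toFun x := N D (toH D x)
  map_zero' := by simp [N_zero]
  add_le' x y := by rw [map_add]; exact N_add D _ _
  neg' x := by
    have := N_smul D (-1) (toH D x)
    simpa using this
  eq_zero_of_map_eq_zero' x hx := by
    by_contra h
    have := N_pos D (toH D x) (by simpa using h)
    linarith

noncomputable instance : NormedAddCommGroup (E D) := (addNorm D).toNormedAddCommGroup

lemma norm_E (x : E D) : ‖x‖ = N D (toH D x) := rfl

noncomputable instance : NormedSpace ℝ (E D) where
  norm_smul_le c x := by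
    rw [norm_E, norm_E, map_smul, N_smul, Real.norm_eq_abs]

noncomputable def eH : E D ≃L[ℝ] H I :=
  (toH D).toContinuousLinearEquivOfBounds 2 2 (fun x => by rw [norm_E]; exact le_N D _)
    (fun x => by rw [norm_E]; simpa using N_le D x)

lemma norm_E' (x : E D) : ‖x‖ = N D (eH D x) := rfl

instance : CompleteSpace (E D) :=
  (completeSpace_congr (e := (eH D).toEquiv) (eH D).isUniformEmbedding).mpr inferInstance

/-- coordinate cut -/
noncomputable def cutL (S : Set I) : H I →ₗ[ℝ] H I where
  toFun x := ⟨fun b => S.indicator x b, by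
    apply memℓp_gen
    have := (hasSum_sq x).summable
    refine Summable.of_nonneg_of_le (fun b => by positivity) (fun b => ?_) this
    by_cases hb : b ∈ S <;> simp [hb, sq_nonneg]⟩
  map_add' x y := by
    ext b
    by_cases hb : b ∈ S <;> simp [hb]
  map_smul' c x := by
    ext b
    by_cases hb : b ∈ S <;> simp [hb]

lemma cutL_apply (S : Set I) (x : H I) (b : I) : cutL S x b = S.indicator x b := rfl

noncomputable def cut (S : Set I) : H I →L[ℝ] H I :=
  (cutL S).mkContinuous 1 fun x => by
    rw [one_mul]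
    apply le_of_sq_le_sq _ (norm_nonneg _) |> fun h => h
    refine hasSum_le (fun b => ?_) (hasSum_sq _) (hasSum_sq x)
    rw [cutL_apply]
    by_cases hb : b ∈ S <;> simp [hb, sq_nonneg]

lemma cut_apply (S : Set I) (x : H I) (b : I) : cut S x b = S.indicator x b := rfl

lemma exists_dec_H (p : I → ℕ) (hp : Function.Surjective p) :
    ∃ v : ℕ → (H I →L[ℝ] H I), (∀ n, v n ≠ 0) ∧
      (∀ n m, (v n).comp (v m) = if n = m then v n else 0) ∧
      (∀ x : H I, Tendsto (fun N => ∑ n ∈ Finset.range N, v n x) atTop (𝓝 x)) := by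
  classical
  refine ⟨fun n => cut (p ⁻¹' {n}), ?_, ?_, ?_⟩
  · intro n h
    obtain ⟨b, hb⟩ := hp n
    have : cut (p ⁻¹' {n}) (lp.single 2 b (1 : ℝ)) b = 0 := by
      simp only at h
      rw [h]; simp
    rw [cut_apply] at this
    simp [hb] at this
  · intro n m
    ext x b
    split_ifs with h
    · subst h
      simp only [ContinuousLinearMap.comp_apply, cut_apply]
      by_cases hb : p b = n <;> simp [hb, cut_apply]
    · simp only [ContinuousLinearMap.comp_apply, cut_apply]
      by_cases hb : p b = n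
      · subst hb; simp [cut_apply, h]
      · simp [hb]
  · intro x
    rw [tendsto_iff_norm_sub_tendsto_zero]
    have e : ∀ N b, (∑ n ∈ Finset.range N, cut (p ⁻¹' {n}) x - x) b ^ 2
        = if p b < N then 0 else x b ^ 2 := by
      intro N b
      rw [lp.coeFn_sub, Pi.sub_apply, lp.coeFn_sum, Finset.sum_apply]
      simp only [cut_apply, Set.indicator_apply, Set.mem_preimage, Set.mem_singleton_iff]
      rw [Finset.sum_ite_eq]
      simp only [Finset.mem_range]
      split_ifs <;> simp
    have lim : Tendsto (fun N => ∑' b, (if p b < N then 0 else x b ^ 2)) atTop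
        (𝓝 (∑' _ : I, (0 : ℝ))) := by
      refine tendsto_tsum_of_dominated_convergence (hasSum_sq x).summable (fun b => ?_)
        (Eventually.of_forall fun N b => ?_)
      · refine tendsto_const_nhds.congr' ?_
        filter_upwards [eventually_gt_atTop (p b)] with N hN
        simp [hN]
      · split_ifs <;> simp [sq_nonneg]
    rw [tsum_zero] at lim
    have lim2 := lim.sqrt
    rw [Real.sqrt_zero] at lim2
    refine lim2.congr fun N => ?_
    simp only [← e]
    rw [(hasSum_sq _).tsum_eq, Real.sqrt_sq (norm_nonneg _)]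

lemma exists_dec (p : I → ℕ) (hp : Function.Surjective p) :
    ∃ v : ℕ → (E D →L[ℝ] E D), (∀ n, v n ≠ 0) ∧
      (∀ n m, (v n).comp (v m) = if n = m then v n else 0) ∧
      (∀ x : E D, Tendsto (fun N => ∑ n ∈ Finset.range N, v n x) atTop (𝓝 x)) := by
  obtain ⟨v, h1, h2, h3⟩ := exists_dec_H p hp
  refine ⟨fun n => ((eH D).symm : H I →L[ℝ] E D).comp ((v n).comp (eH D : E D →L[ℝ] H I)),
    ?_, ?_, ?_⟩
  · intro n h
    apply h1 n
    ext1 x
    have := congrArg (fun T : E D →L[ℝ] E D => eH D (T ((eH D).symm x))) h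
    simpa using this
  · intro n m
    ext1 x
    have := congrArg (fun T : H I →L[ℝ] H I => (eH D).symm (T (eH D x))) (h2 n m)
    split_ifs at this ⊢ <;> simpa using this
  · intro x
    have := ((eH D).symm.continuous.tendsto _).comp (h3 (eH D x))
    simpa [Function.comp_def] using this

lemma functional_countable (φ : H I →L[ℝ] ℝ) [DecidableEq I] :
    {b | φ (lp.single 2 b (1 : ℝ)) ≠ 0}.Countable := by
  obtain ⟨f, rfl⟩ := (InnerProductSpace.toDual ℝ (H I)).surjective φ
  refine (supp_countable f).mono fun b hb => ?_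
  simpa [lp.inner_single_right] using hb

lemma big_block [Uncountable I] (w : ℕ → (H I →L[ℝ] H I))
    (h3 : ∀ x : H I, Tendsto (fun N => ∑ n ∈ Finset.range N, w n x) atTop (𝓝 x)) :
    ∃ n, ∀ C : Set I, C.Countable → ∃ x, w n x ≠ 0 ∧ ∀ b ∈ C, w n x b = 0 := by
  classical
  by_contra h
  push Not at h
  choose C hC hx using h
  have hc : (⋃ n, ⋃ d ∈ C n, {b | ((innerSL ℝ (lp.single 2 d (1 : ℝ) : H I)).comp (w n))
      (lp.single 2 b (1 : ℝ)) ≠ 0}).Countable :=
    Set.countable_iUnion fun n => (hC n).biUnion fun d _ => functional_countable _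
  obtain ⟨b, hb⟩ : ∃ b, b ∉ (⋃ n, ⋃ d ∈ C n, {b | ((innerSL ℝ (lp.single 2 d (1 : ℝ) : H I)).comp (w n))
      (lp.single 2 b (1 : ℝ)) ≠ 0}) := by
    by_contra h
    push Not at h
    exact Set.not_countable_univ (hc.mono fun b _ => h b)
  simp only [Set.mem_iUnion, not_exists, Set.mem_setOf_eq, not_not] at hb
  have hz : ∀ n, w n (lp.single 2 b (1 : ℝ)) = 0 := by
    intro n
    by_contra h
    obtain ⟨d, hd, hd2⟩ := hx n _ h
    have := hb n d hd
    simp [lp.inner_single_left] at this
    exact hd2 this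
  have := h3 (lp.single 2 b (1 : ℝ))
  simp only [hz, Finset.sum_const_zero] at this
  have h0 := tendsto_nhds_unique this tendsto_const_nhds
  have := congrArg (fun x : H I => x b) h0
  simp at this

lemma no_normal [Uncountable I] (e : I → ℕ → I)
    (he : ∀ C : Set I, C.Countable → {b | ¬ C ⊆ Set.range (e b)}.Countable)
    (hsep : ∀ (b0 : I) (j : ℕ) (F : Set I), F.Finite → ∀ n : ℕ, ∃ k ≥ n, D.χ (k, b0) = 1 ∧
      D.α (k, b0) = e b0 j ∧ ∀ b ∈ F, b ≠ b0 → D.χ (k, b) = 0)
    (w : ℕ → (E D →L[ℝ] E D)) (h1 : ∀ n, w n ≠ 0)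
    (h2 : ∀ n m, (w n).comp (w m) = if n = m then w n else 0)
    (h3 : ∀ x : E D, Tendsto (fun N => ∑ n ∈ Finset.range N, w n x) atTop (𝓝 x))
    (h4 : ∀ n, ‖w n‖ = 1) : False := by
  obtain ⟨n, hn⟩ := big_block
    (fun n => (eH D : E D →L[ℝ] H I).comp ((w n).comp ((eH D).symm : H I →L[ℝ] E D))) (by
      intro x
      have := ((eH D).continuous.tendsto _).comp (h3 ((eH D).symm x))
      simpa [Function.comp_def] using this)
  obtain ⟨x, hx⟩ : ∃ x, w (n + 1) x ≠ 0 := by
    by_contra h
    push Not at h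
    exact h1 (n + 1) (ContinuousLinearMap.ext h)
  set z := eH D (w (n + 1) x) with hz
  have hz0 : z ≠ 0 := by simpa [hz] using hx
  have hCz := supp_countable z
  obtain ⟨x0, hx0, hx0'⟩ := hn _ hCz
  set y0 := eH D (w n ((eH D).symm x0)) with hy0
  have hy00 : y0 ≠ 0 := hx0
  obtain ⟨x1, hx1, hx1'⟩ := hn _ ((hCz.union (supp_countable y0)).union (he _ hCz))
  set y := eH D (w n ((eH D).symm x1)) with hy
  have hy1 : y ≠ 0 := hx1
  have a0 : ∀ b, y0 b * z b = 0 := fun b => by
    by_cases h : z b = 0
    · simp [h]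
    · have : y0 b = 0 := hx0' b h
      simp [this]
  have a1 : ∀ b, y b * z b = 0 := fun b => by
    by_cases h : z b = 0
    · simp [h]
    · have : y b = 0 := hx1' b (Or.inl (Or.inl h))
      simp [this]
  have a01 : ∀ b, y0 b * y b = 0 := fun b => by
    by_cases h : y0 b = 0
    · simp [h]
    · have : y b = 0 := hx1' b (Or.inl (Or.inr h))
      simp [this]
  have idem : ∀ u, w n (w n u) = w n u := fun u => by
    have := congrArg (fun T : E D →L[ℝ] E D => T u) (h2 n n)
    simpa using this
  have kill : w n (w (n + 1) x) = 0 := by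
    have := congrArg (fun T : E D →L[ℝ] E D => T x) (h2 n (n + 1))
    simpa using this
  have ho : ∀ s t : ℝ, Q D (y0 + s • y) ≤ Q D (y0 + s • y + t • z) := by
    intro s t
    have := (w n).le_opNorm (w n ((eH D).symm x0) + s • w n ((eH D).symm x1) + t • w (n + 1) x)
    rw [h4, one_mul, map_add, map_add, map_smul, map_smul, idem, idem, kill, smul_zero, add_zero,
      norm_E', norm_E'] at this
    simp only [map_add, map_smul] at this
    rw [← N_sq, ← N_sq]
    exact pow_le_pow_left₀ (N_nonneg D _) this 2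
  have hrow := rows_zero D y0 y z hy00 hy1 a01 a0 a1 ho
  obtain ⟨b0, hb0⟩ : ∃ b0, y b0 ≠ 0 := by
    by_contra h
    push Not at h
    exact hy1 (lp.ext (funext h))
  obtain ⟨a, ha⟩ : ∃ a, z a ≠ 0 := by
    by_contra h
    push Not at h
    exact hz0 (lp.ext (funext h))
  have hsub : {b | z b ≠ 0} ⊆ Set.range (e b0) := by
    by_contra h
    exact hb0 (hx1' b0 (Or.inr h))
  obtain ⟨j, hj⟩ := hsub ha
  exact ha (coord_zero D y z hrow b0 hb0 a (hj ▸ hsep b0 j))

end Pool.Agent.Lib.helper16.ND
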