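import Pool.Agent.Lib.helper16.ND4

set_option autoImplicit false
open Filter Topology Polynomial
open scoped RealInnerProductSpace

namespace Pool.Agent.Lib.helper16.ND

lemma interp (n : ℕ) : ∃ C : ℝ, 1 ≤ C ∧ ∀ P : ℝ[X], P.natDegree ≤ n → ∀ B : ℝ,
    (∀ t : ℝ, |t| ≤ 1 → |P.eval t| ≤ B) → ‖aeval Complex.I P‖ ≤ C * B := by
  let s := Finset.range (n + 1)
  let v : ℕ → ℝ := fun i => 1 / ((i : ℝ) + 1)
  have hv : Set.InjOn v s := by
    intro i _ j _ h
    simp only [v, one_div, inv_inj, add_left_inj, Nat.cast_inj] at h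
    exact h
  have hv1 : ∀ i, |v i| ≤ 1 := by
    intro i
    have : (0 : ℝ) ≤ i := Nat.cast_nonneg i
    rw [abs_of_nonneg (by positivity), div_le_one (by positivity)]
    linarith
  refine ⟨1 + ∑ i ∈ s, ‖aeval Complex.I (Lagrange.basis s v i)‖,
    le_add_of_nonneg_right (Finset.sum_nonneg fun _ _ => norm_nonneg _), fun P hP B hB => ?_⟩
  have hB0 : 0 ≤ B := le_trans (abs_nonneg _) (hB 0 (by simp))
  have hdeg : P.degree < s.card := by
    rw [Finset.card_range]
    exact lt_of_le_of_lt (degree_le_of_natDegree_le hP) (by exact_mod_cast Nat.lt_succ_self n)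
  have e := Lagrange.eq_interpolate hv hdeg
  rw [Lagrange.interpolate_apply] at e
  rw [e, map_sum, add_mul, Finset.sum_mul]
  refine le_trans (norm_sum_le _ _) (le_trans (Finset.sum_le_sum fun i _ => ?_)
    (le_add_of_nonneg_left (by linarith)))
  rw [map_mul, norm_mul, aeval_C, mul_comm]
  refine mul_le_mul_of_nonneg_left ?_ (norm_nonneg _)
  simpa using hB _ (hv1 i)

noncomputable def cst (k : ℕ) : ℝ := (interp (2 * k + 7)).choose

lemma cst_ge (k : ℕ) : 1 ≤ cst k := (interp (2 * k + 7)).choose_spec.1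

noncomputable def wt : ℕ → ℝ
  | 0 => 1
  | k + 1 => wt k * (eps k / (cst k * (k.factorial : ℝ)))

lemma eps_le_one (k : ℕ) : eps k ≤ 1 := by
  have := eps_le k
  have : ((1 : ℝ) / 2) ^ k ≤ 1 := pow_le_one₀ (by norm_num) (by norm_num)
  linarith

lemma wt_pos (k : ℕ) : 0 < wt k := by
  induction k with
  | zero => simp [wt]
  | succ k ih =>
    have := eps_pos k
    have := cst_ge k
    have : (0 : ℝ) < k.factorial := by exact_mod_cast k.factorial_pos
    unfold wt; positivity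

lemma wt_anti : Antitone wt := by
  refine antitone_nat_of_succ_le fun k => ?_
  have h1 := cst_ge k
  have h2 : (1 : ℝ) ≤ k.factorial := by exact_mod_cast k.factorial_pos
  have h3 : eps k / (cst k * (k.factorial : ℝ)) ≤ 1 := by
    rw [div_le_one (by positivity)]
    have := eps_le_one k
    nlinarith
  have := wt_pos k
  show wt k * _ ≤ wt k
  nlinarith

lemma wt_le_one (k : ℕ) : wt k ≤ 1 := wt_anti (Nat.zero_le k)

lemma extract (m : ℕ) (hm : 1 ≤ m) (hm3 : m ≤ 3) (p : ℕ → ℝ[X]) (hp : ∀ k, (p k).natDegree ≤ 2 * k + 7)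
    (p0 : ℝ[X]) (hp0 : p0.natDegree ≤ 1) (B : ℝ)
    (hb : ∀ k (t : ℝ), |t| ≤ 1 → eps k * |(p k).eval t / (1 + t ^ 2) ^ (k + m)| ≤ (1 / 2) ^ k * B)
    (hs : ∀ t : ℝ, |t| ≤ 1 →
      HasSum (fun k => eps k * wt k * ((p k).eval t / (1 + t ^ 2) ^ (k + m))) (-p0.eval t))
    (K : ℕ) : ‖aeval Complex.I (p K)‖ ≤ 2 ^ K / (K.factorial : ℝ) * (16 * B) := by
  have hB : 0 ≤ B := by
    have h1 := hb 0 0 (by simp)
    have h2 := mul_nonneg (eps_pos 0).le (abs_nonneg ((p 0).eval 0 / (1 + (0 : ℝ) ^ 2) ^ (0 + m)))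
    simpa using le_trans h2 h1
  set r : ℝ[X] := 1 + X ^ 2 with hr
  have hrd : r.natDegree ≤ 2 := by rw [hr]; compute_degree
  set P : ℝ[X] := p0 * r ^ (K + m) + ∑ k ∈ Finset.range (K + 1), C (eps k * wt k) * p k * r ^ (K - k)
    with hP
  have hdeg : P.natDegree ≤ 2 * K + 7 := by
    refine natDegree_add_le_of_degree_le ?_ (natDegree_sum_le_of_forall_le _ _ fun k hk => ?_)
    · refine le_trans natDegree_mul_le ?_
      have := natDegree_pow_le_of_le (K + m) hrd
      omega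
    · refine le_trans natDegree_mul_le ?_
      have h1 := natDegree_pow_le_of_le (K - k) hrd
      have h2 := le_trans (natDegree_C_mul_le (eps k * wt k) (p k)) (hp k)
      have := Finset.mem_range.mp hk
      omega
  have hI : aeval Complex.I r = 0 := by simp [hr]
  have hPI : aeval Complex.I P = ((eps K * wt K : ℝ) : ℂ) * aeval Complex.I (p K) := by
    rw [hP, map_add, map_mul, map_pow, hI, zero_pow (by omega), mul_zero, zero_add, map_sum,
      Finset.sum_range_succ, Finset.sum_eq_zero]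
    · simp
    · intro k hk
      have := Finset.mem_range.mp hk
      rw [map_mul, map_pow, hI, zero_pow (by omega), mul_zero]
  have hbound : ∀ t : ℝ, |t| ≤ 1 → |P.eval t| ≤ 2 ^ (K + 3) * (2 * wt (K + 1) * B) := by
    intro t ht
    have ht2 : t ^ 2 ≤ 1 := by rw [← sq_abs]; nlinarith [abs_nonneg t]
    have hρ : 0 < 1 + t ^ 2 := by positivity
    have h1 := (hasSum_nat_add_iff' (K + 1)).mpr (hs t ht)
    have h2 : ‖-p0.eval t - ∑ k ∈ Finset.range (K + 1),
        eps k * wt k * ((p k).eval t / (1 + t ^ 2) ^ (k + m))‖ ≤ 2 * (wt (K + 1) * B) := by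
      refine h1.norm_le_of_bounded (hasSum_geometric_two.mul_right _) fun j => ?_
      rw [Real.norm_eq_abs, abs_mul, abs_of_pos (mul_pos (eps_pos _) (wt_pos _))]
      have a1 := hb (j + (K + 1)) t ht
      have a2 : wt (j + (K + 1)) ≤ wt (K + 1) := wt_anti (by omega)
      have a3 : ((1 : ℝ) / 2) ^ (j + (K + 1)) ≤ (1 / 2) ^ j :=
        pow_le_pow_of_le_one (by norm_num) (by norm_num) (by omega)
      have a4 := wt_pos (j + (K + 1))
      calc eps (j + (K + 1)) * wt (j + (K + 1)) * |(p (j + (K + 1))).eval t / (1 + t ^ 2) ^ (j + (K + 1) + m)|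
          = wt (j + (K + 1)) * (eps (j + (K + 1)) *
            |(p (j + (K + 1))).eval t / (1 + t ^ 2) ^ (j + (K + 1) + m)|) := by ring
        _ ≤ wt (K + 1) * ((1 / 2) ^ j * B) := by
            refine mul_le_mul a2 (le_trans a1 ?_) ?_ (wt_pos _).le
            · gcongr
            · exact mul_nonneg (eps_pos _).le (abs_nonneg _)
        _ = _ := by ring
    have e : P.eval t = -((1 + t ^ 2) ^ (K + m) * (-p0.eval t - ∑ k ∈ Finset.range (K + 1),
        eps k * wt k * ((p k).eval t / (1 + t ^ 2) ^ (k + m)))) := by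
      rw [hP, eval_add, eval_finset_sum, mul_sub, Finset.mul_sum, neg_sub, sub_eq_add_neg, add_comm]
      congr 1
      · refine Finset.sum_congr rfl fun k hk => ?_
        have hk' := Finset.mem_range.mp hk
        have : K + m = (K - k) + (k + m) := by omega
        rw [this, pow_add]
        simp only [hr, eval_mul, eval_C, eval_pow, eval_add, eval_one, eval_X]
        field_simp
      · simp [hr]; ring
    rw [e, abs_neg, abs_mul, abs_of_pos (pow_pos hρ _)]
    have a5 : (1 + t ^ 2) ^ (K + m) ≤ 2 ^ (K + 3) :=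
      le_trans (pow_le_pow_left₀ hρ.le (by linarith : 1 + t ^ 2 ≤ 2) _)
        (pow_le_pow_right₀ (by norm_num) (by omega))
    rw [Real.norm_eq_abs] at h2
    calc _ ≤ 2 ^ (K + 3) * (2 * (wt (K + 1) * B)) := by gcongr
      _ = _ := by ring
  have fin := (interp (2 * K + 7)).choose_spec.2 P hdeg _ hbound
  change _ ≤ cst K * _ at fin
  rw [hPI, norm_mul, Complex.norm_real, Real.norm_eq_abs,
    abs_of_pos (mul_pos (eps_pos _) (wt_pos _))] at fin
  have e2 : cst K * (2 ^ (K + 3) * (2 * wt (K + 1) * B))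
      = eps K * wt K * (2 ^ K / (K.factorial : ℝ) * (16 * B)) := by
    have := cst_ge K
    have : (0 : ℝ) < K.factorial := by exact_mod_cast K.factorial_pos
    show cst K * (2 ^ (K + 3) * (2 * (wt K * (eps K / (cst K * (K.factorial : ℝ)))) * B)) = _
    field_simp
    ring
  rw [e2] at fin
  exact le_of_mul_le_mul_left fin (mul_pos (eps_pos _) (wt_pos _))

lemma g1_bound (k : ℕ) (r d C u u1 l l1 : ℝ) (hr : 0 < r) (hu : u ^ 2 ≤ r) (hl : l ^ 2 ≤ r)
    (hu1 : u1 ^ 2 ≤ C) (hl1 : l1 ^ 2 ≤ C) (hd : d ^ 2 ≤ 4 * r * C) :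
    eps k * |g1 k r d u u1 l l1| ≤ (1 / 2) ^ k * (r + C) := by
  have hC : 0 ≤ C := le_trans (sq_nonneg _) hl1
  set q := u ^ 2 / r with hqd
  have hq0 : 0 ≤ q := by positivity
  have hq1' : q ≤ 1 := by rw [hqd, div_le_one hr]; exact hu
  have hw : |u * l| ≤ r := by
    rw [abs_le]; constructor <;> nlinarith [sq_nonneg (u + l), sq_nonneg (u - l)]
  have e1 : q1 r d u u1 * r = 2 * u * u1 - q * d := by
    simp only [q1, hqd]; field_simp
  have hd' : |d| ≤ r + C := abs_le_of_sq_le_sq' (by nlinarith [sq_nonneg (r - C)]) (by positivity)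
    |> abs_le.mpr
  have b1 : |q1 r d u u1| * r ≤ 2 * (r + C) := by
    rw [← abs_of_pos hr, ← abs_mul, abs_of_pos hr, e1]
    have h1 : |2 * u * u1| ≤ r + C := by
      rw [abs_le]; constructor <;> nlinarith [sq_nonneg (u + u1), sq_nonneg (u - u1)]
    have h2 : |q * d| ≤ r + C := by
      rw [abs_mul, abs_of_nonneg hq0]
      nlinarith [abs_nonneg d]
    have := abs_sub (2 * u * u1) (q * d)
    linarith
  have b2 : |u1 * l + u * l1| ≤ r + C := by
    rw [abs_le]
    constructor <;> nlinarith [sq_nonneg (u + l1), sq_nonneg (u - l1), sq_nonneg (u1 + l), sq_nonneg (u1 - l)]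
  have p1 : ∀ n : ℕ, 0 ≤ q ^ n ∧ q ^ n ≤ 1 := fun n => ⟨by positivity, pow_le_one₀ hq0 hq1'⟩
  have hk : (0 : ℝ) ≤ k := Nat.cast_nonneg k
  have t1 : |((k : ℝ) + 2) * q ^ (k + 1) * q1 r d u u1 * (u * l)| ≤ ((k : ℝ) + 2) * (2 * (r + C)) := by
    rw [abs_mul, abs_mul, abs_of_nonneg (by have := (p1 (k + 1)).1; positivity)]
    calc ((k : ℝ) + 2) * q ^ (k + 1) * |q1 r d u u1| * |u * l|
        ≤ ((k : ℝ) + 2) * 1 * |q1 r d u u1| * r := by
          gcongr; exact (p1 _).2
      _ = ((k : ℝ) + 2) * (|q1 r d u u1| * r) := by ring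
      _ ≤ _ := by gcongr
  have t2 : |q ^ (k + 2) * (u1 * l + u * l1)| ≤ 1 * (r + C) := by
    rw [abs_mul, abs_of_nonneg (p1 _).1]
    gcongr; exact (p1 _).2
  have t3 : |g1 k r d u u1 l l1| ≤ 25 * ((k : ℝ) + 2) ^ 2 * (r + C) := by
    unfold g1
    rw [← hqd]
    refine le_trans (abs_add_le _ _) ?_
    have : 0 ≤ (k : ℝ) * (r + C) := by positivity
    have : 0 ≤ (k : ℝ) * k * (r + C) := by positivity
    nlinarith
  calc eps k * |g1 k r d u u1 l l1| ≤ eps k * (25 * ((k : ℝ) + 2) ^ 2 * (r + C)) :=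
        mul_le_mul_of_nonneg_left t3 (eps_pos k).le
    _ = (1 / 2) ^ k / 4 * (r + C) := by rw [← mul_assoc, eps_mul]
    _ ≤ _ := by
        have : 0 ≤ ((1 : ℝ) / 2) ^ k * (r + C) := by positivity
        nlinarith

lemma small_zero (c : ℝ) (hc : 0 < c) (a B : ℝ)
    (h : ∀ n : ℕ, ∃ k ≥ n, c ^ k * a ≤ 2 ^ k / (k.factorial : ℝ) * B) : a ≤ 0 := by
  have lim := (FloorSemiring.tendsto_pow_div_factorial_atTop (2 / c)).mul_const B
  rw [zero_mul] at lim
  by_contra ha
  push Not at ha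
  obtain ⟨n, hn⟩ := eventually_atTop.mp (lim.eventually (gt_mem_nhds ha))
  obtain ⟨k, hk, h1⟩ := h n
  have h2 := hn k hk
  have h3 : (2 / c) ^ k / (k.factorial : ℝ) * B = (2 ^ k / (k.factorial : ℝ) * B) / c ^ k := by
    rw [div_pow]; field_simp
  rw [h3, div_lt_iff₀ (pow_pos hc k)] at h2
  linarith

end Pool.Agent.Lib.helper16.ND
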