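import Pool.Agent.Lib.helper16.ND5

set_option autoImplicit false
open Pool.Agent.Lib.helper16.ND Filter Topology Polynomial
open scoped RealInnerProductSpace

namespace Pool.Agent.Lib.helper16.NDB

def be (k : ℕ) : ℕ := (Nat.unpair (Nat.unpair k).1).2
def al (k : ℕ) : ℕ := (Nat.unpair (Nat.unpair k).1).1 + be k

lemma be_le (k : ℕ) : be k ≤ al k := Nat.le_add_left _ _

lemma visit (a b n : ℕ) (h : b ≤ a) : ∃ k ≥ n, al k = a ∧ be k = b :=
  ⟨Nat.pair (Nat.pair (a - b) b) n, Nat.right_le_pair _ _, by simp [al, be]; omega, by simp [be]⟩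

noncomputable def D : Data ℕ where
  χ p := if p.2 = be p.1 then wt p.1 else 0
  α p := al p.1
  hχ p := by
    have := wt_pos p.1
    have := wt_le_one p.1
    split_ifs
    · nlinarith
    · norm_num

lemma cs (y x : H ℕ) : (2 * ⟪y, x⟫) ^ 2 ≤ 4 * ‖y‖ ^ 2 * ‖x‖ ^ 2 := by
  have := abs_real_inner_le_norm y x
  have h2 : ⟪y, x⟫ ^ 2 ≤ (‖y‖ * ‖x‖) ^ 2 := by
    rw [← sq_abs]; gcongr
  nlinarith

noncomputable def tm (y x : H ℕ) (k : ℕ) : ℝ := eps k * wt k *
      g1 k (‖y‖ ^ 2) (2 * ⟪y, x⟫) (y (be k)) (x (be k)) (y (al k)) (x (al k))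

lemma tm_bound (y x : H ℕ) (hy : y ≠ 0) (k : ℕ) :
    ‖tm y x k‖ ≤ (1 / 2) ^ k * (‖y‖ ^ 2 + ‖x‖ ^ 2) := by
  have hn := norm_pos_iff.mpr hy
  have := g1_bound k _ _ _ _ _ _ _ (pow_pos hn 2) (sq_le y (be k)) (sq_le y (al k))
    (sq_le x (be k)) (sq_le x (al k)) (cs y x)
  have h1 := wt_pos k
  have h2 := wt_le_one k
  rw [tm, Real.norm_eq_abs, abs_mul, abs_of_pos (mul_pos (eps_pos k) h1), mul_right_comm]
  exact le_trans (mul_le_of_le_one_right (mul_nonneg (eps_pos k).le (abs_nonneg _)) h2) this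

lemma tm_summable (y x : H ℕ) (hy : y ≠ 0) : Summable (tm y x) :=
  Summable.of_norm_bounded (hasSum_geometric_two.mul_right (‖y‖ ^ 2 + ‖x‖ ^ 2)).summable
    (tm_bound y x hy)

lemma T1_sum (y x : H ℕ) (hy : y ≠ 0) : HasSum (T1 D y x 0) (∑' k, tm y x k) := by
  have hinj : Function.Injective (fun k : ℕ => (k, be k)) := fun a b h => (Prod.ext_iff.mp h).1
  rw [← hinj.hasSum_iff]
  · convert (tm_summable y x hy).hasSum using 1
    funext k
    simp only [Function.comp, T1, L, D, g1, tm, if_true]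
    ring_nf
  · rintro ⟨k, b⟩ hp
    have : b ≠ be k := fun h => hp ⟨k, by simp [h]⟩
    simp [T1, L, D, g1, this]

lemma deriv_zero (y x : H ℕ) (hy : y ≠ 0) (ho : ∀ s : ℝ, Q D y ≤ Q D (y + s • x)) :
    HasSum (fun k => eps k * wt k *
      g1 k (‖y‖ ^ 2) (2 * ⟪y, x⟫) (y (be k)) (x (be k)) (y (al k)) (x (al k))) (-(2 * ⟪y, x⟫)) := by
  have hn := norm_pos_iff.mpr hy
  have hne : ∀ t : ℝ, y + t • x ≠ 0 := by
    intro t h
    have h1 := ho t
    have h2 := Q_le D (y + t • x)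
    have h3 := Q_ge D y
    rw [h] at h1 h2
    simp only [norm_zero] at h2
    nlinarith [pow_pos hn 2]
  have key : ∀ t : ℝ, 0 ≤ t * (2 * ⟪y, x⟫ + ∑' k, tm y x k) + 2 * ‖x‖ ^ 2 * t ^ 2 := by
    intro t
    have := taylor_line D y x hne _ (T1_sum y x hy) t
    have := ho t
    linarith
  set s := 2 * ⟪y, x⟫ + ∑' k, tm y x k with hs
  have : s = 0 := by
    by_contra hs0
    have h1 := key (-s / (2 * ‖x‖ ^ 2 + 1))
    have h2 : 0 < s ^ 2 := by positivity
    have h3 : -s / (2 * ‖x‖ ^ 2 + 1) * s + 2 * ‖x‖ ^ 2 * (-s / (2 * ‖x‖ ^ 2 + 1)) ^ 2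
        = - s ^ 2 / (2 * ‖x‖ ^ 2 + 1) ^ 2 := by field_simp; ring
    rw [h3, neg_div] at h1
    have : 0 < s ^ 2 / (2 * ‖x‖ ^ 2 + 1) ^ 2 := by positivity
    linarith
  have e : -(2 * ⟪y, x⟫) = ∑' k, tm y x k := by linarith
  rw [e]
  exact (tm_summable y x hy).hasSum

noncomputable def lin (a b : ℝ) : ℝ[X] := C a + C b * X

lemma lin_deg (a b : ℝ) : (lin a b).natDegree ≤ 1 := by unfold lin; compute_degree

lemma lin_eval (a b t : ℝ) : (lin a b).eval t = a + t * b := by simp [lin]; ring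

lemma lin_I (a b : ℝ) : aeval Complex.I (lin a b) = (a : ℂ) + b * Complex.I := by simp [lin]

noncomputable def p3 (k : ℕ) (U L d : ℝ[X]) (u1 l1 : ℝ) : ℝ[X] :=
  C ((k : ℝ) + 2) * U ^ (2 * k + 2) * (C (2 * u1) * U * (1 + X ^ 2) - U ^ 2 * d) * (U * L)
    + U ^ (2 * k + 4) * (C u1 * L + U * C l1) * (1 + X ^ 2)

noncomputable def p2 (k : ℕ) (U L : ℝ[X]) (u1 l1 : ℝ) : ℝ[X] :=
  U ^ (2 * k + 4) * (C ((2 * k + 5) * u1) * L + U * C l1)

lemma p3_deg (k : ℕ) (a b c e f g u1 l1 : ℝ) :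
    (p3 k (lin a b) (lin c e) (lin f g) u1 l1).natDegree ≤ 2 * k + 7 := by
  have hU := lin_deg a b
  have hL := lin_deg c e
  have hd := lin_deg f g
  have hr : (1 + X ^ 2 : ℝ[X]).natDegree ≤ 2 := by compute_degree
  have h1 := natDegree_pow_le_of_le (2 * k + 2) hU
  have h2 := natDegree_pow_le_of_le (2 * k + 4) hU
  have h3 := natDegree_pow_le_of_le 2 hU
  have a1 : (C ((k : ℝ) + 2) * lin a b ^ (2 * k + 2)).natDegree ≤ 2 * k + 2 :=
    le_trans (natDegree_C_mul_le _ _) (by omega)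
  have a2 : (C (2 * u1) * lin a b * (1 + X ^ 2) - lin a b ^ 2 * lin f g).natDegree ≤ 3 := by
    refine le_trans (natDegree_sub_le _ _) (max_le ?_ ?_)
    · refine le_trans natDegree_mul_le ?_
      have := natDegree_C_mul_le (2 * u1) (lin a b)
      omega
    · refine le_trans natDegree_mul_le ?_
      omega
  have a3 : (lin a b * lin c e).natDegree ≤ 2 := le_trans natDegree_mul_le (by omega)
  have a4 : (C u1 * lin c e + lin a b * C l1).natDegree ≤ 1 :=
    natDegree_add_le_of_degree_le (le_trans (natDegree_C_mul_le _ _) hL)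
      (le_trans (natDegree_mul_C_le _ _) hU)
  unfold p3
  refine natDegree_add_le_of_degree_le ?_ ?_
  · refine le_trans natDegree_mul_le ?_
    have := le_trans natDegree_mul_le (add_le_add a1 a2)
    omega
  · refine le_trans natDegree_mul_le ?_
    have := le_trans natDegree_mul_le (add_le_add h2 a4)
    omega

lemma p2_deg (k : ℕ) (a b c e u1 l1 : ℝ) :
    (p2 k (lin a b) (lin c e) u1 l1).natDegree ≤ 2 * k + 7 := by
  have hU := lin_deg a b
  have hL := lin_deg c e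
  have h2 := natDegree_pow_le_of_le (2 * k + 4) hU
  have a4 : (C ((2 * k + 5) * u1) * lin c e + lin a b * C l1).natDegree ≤ 1 :=
    natDegree_add_le_of_degree_le (le_trans (natDegree_C_mul_le _ _) hL)
      (le_trans (natDegree_mul_C_le _ _) hU)
  unfold p2
  have := le_trans natDegree_mul_le (add_le_add h2 a4)
  omega

lemma p3_eval (k : ℕ) (U L d : ℝ[X]) (u1 l1 t : ℝ) :
    (p3 k U L d u1 l1).eval t / (1 + t ^ 2) ^ (k + 3)
      = g1 k (1 + t ^ 2) (d.eval t) (U.eval t) u1 (L.eval t) l1 := by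
  have : (1 + t ^ 2) ≠ 0 := by positivity
  simp only [p3, g1, q1, eval_add, eval_mul, eval_C, eval_pow, eval_sub, eval_one, eval_X, div_pow]
  generalize 1 + t ^ 2 = r at this ⊢
  field_simp
  ring

lemma p2_eval (k : ℕ) (U L : ℝ[X]) (u1 l1 t : ℝ) :
    (p2 k U L u1 l1).eval t / (1 + t ^ 2) ^ (k + 2)
      = g1 k (1 + t ^ 2) 0 (U.eval t) u1 (L.eval t) l1 := by
  have : (1 + t ^ 2) ≠ 0 := by positivity
  simp only [p2, g1, q1, eval_add, eval_mul, eval_C, eval_pow, div_pow]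
  generalize 1 + t ^ 2 = r at this ⊢
  field_simp
  ring

lemma p3_I (k : ℕ) (U L d : ℝ[X]) (u1 l1 : ℝ) : aeval Complex.I (p3 k U L d u1 l1)
    = -(((k : ℝ) + 2 : ℝ) : ℂ) * (((aeval Complex.I U) ^ 2) ^ k *
      ((aeval Complex.I U) ^ 5 * aeval Complex.I L * aeval Complex.I d)) := by
  simp only [p3, map_add, map_mul, map_sub, map_pow, aeval_C, aeval_X, map_one,
    Complex.I_sq, Complex.coe_algebraMap]
  push_cast
  ring

lemma p2_I (k : ℕ) (U L : ℝ[X]) (u1 l1 : ℝ) : aeval Complex.I (p2 k U L u1 l1)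
    = ((aeval Complex.I U) ^ 2) ^ k * ((aeval Complex.I U) ^ 4 *
      ((((2 * k + 5) * u1 : ℝ) : ℂ) * aeval Complex.I L + aeval Complex.I U * l1)) := by
  simp only [p2, map_add, map_mul, map_pow, aeval_C, Complex.coe_algebraMap]
  push_cast
  ring

lemma no_strong (u v x : H ℕ) (hu : ‖u‖ = 1) (hv : ‖v‖ = 1) (huv : ⟪u, v⟫ = 0)
    (ho : ∀ t s : ℝ, Q D (u + t • v) ≤ Q D (u + t • v + s • x)) (b : ℕ) (hb0 : u b ≠ 0)
    (a : ℕ) (hab : b ≤ a) : x a = 0 := by
  have hr : ∀ t : ℝ, ‖u + t • v‖ ^ 2 = 1 + t ^ 2 := by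
    intro t; rw [norm_line, hu, hv, huv]; ring
  have hne : ∀ t : ℝ, u + t • v ≠ 0 := by
    intro t h
    have := hr t
    rw [h] at this
    simp only [norm_zero] at this
    nlinarith [sq_nonneg t]
  have hco : ∀ (t : ℝ) (b : ℕ), (u + t • v) b = (lin (u b) (v b)).eval t := by
    intro t b; rw [lin_eval]; simp
  have hd : ∀ t : ℝ, 2 * ⟪u + t • v, x⟫ = (lin (2 * ⟪u, x⟫) (2 * ⟪v, x⟫)).eval t := by
    intro t; rw [lin_eval, inner_add_left, real_inner_smul_left]; ring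
  have hb : ∀ k (t : ℝ), |t| ≤ 1 → eps k * |g1 k (‖u + t • v‖ ^ 2) (2 * ⟪u + t • v, x⟫)
      ((u + t • v) (be k)) (x (be k)) ((u + t • v) (al k)) (x (al k))| ≤ (1 / 2) ^ k * (2 + ‖x‖ ^ 2) := by
    intro k t ht
    have ht2 : t ^ 2 ≤ 1 := by rw [← sq_abs]; nlinarith [abs_nonneg t]
    refine le_trans (g1_bound k _ _ _ _ _ _ _ (pow_pos (norm_pos_iff.mpr (hne t)) 2) (sq_le _ (be k))
      (sq_le _ (al k)) (sq_le x (be k)) (sq_le x (al k)) (cs _ x)) ?_
    rw [hr]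
    gcongr
    linarith
  have hs := fun t => deriv_zero _ x (hne t) (ho t)
  set W : ℕ → ℂ := fun a => (u a : ℂ) + v a * Complex.I with hW
  have hWb : W b ≠ 0 := fun h => hb0 (by simpa [hW] using congrArg Complex.re h)
  have hc : 0 < ‖W b‖ := norm_pos_iff.mpr hWb
  have e1 := extract 3 (by norm_num) le_rfl
    (fun k => p3 k (lin (u (be k)) (v (be k))) (lin (u (al k)) (v (al k)))
      (lin (2 * ⟪u, x⟫) (2 * ⟪v, x⟫)) (x (be k)) (x (al k)))
    (fun k => p3_deg _ _ _ _ _ _ _ _ _) (lin (2 * ⟪u, x⟫) (2 * ⟪v, x⟫)) (lin_deg _ _) (2 + ‖x‖ ^ 2)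
    (fun k t ht => by simpa only [p3_eval, hco, hd, hr] using hb k t ht)
    (fun t _ => by simpa only [p3_eval, hco, hd, hr] using hs t)
  set ξ : ℂ := ((2 * ⟪u, x⟫ : ℝ) : ℂ) + ((2 * ⟪v, x⟫ : ℝ) : ℂ) * Complex.I with hξ
  have s1 : ‖W b‖ ^ 6 * ‖ξ‖ ≤ 0 := by
    refine small_zero (‖W b‖ ^ 2) (by positivity) _ (16 * (2 + ‖x‖ ^ 2)) fun n => ?_
    obtain ⟨k, hk, ha, hb'⟩ := visit b b n le_rfl
    refine ⟨k, hk, le_trans ?_ (e1 k)⟩
    have : aeval Complex.I (p3 k (lin (u (be k)) (v (be k))) (lin (u (al k)) (v (al k)))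
        (lin (2 * ⟪u, x⟫) (2 * ⟪v, x⟫)) (x (be k)) (x (al k)))
        = -(((k : ℝ) + 2 : ℝ) : ℂ) * ((W b ^ 2) ^ k * (W b ^ 6 * ξ)) := by
      rw [p3_I, lin_I, lin_I, lin_I, ha, hb']
      change _ * ((W b ^ 2) ^ k * (W b ^ 5 * W b * ξ)) = _
      ring
    rw [this, norm_mul, norm_neg, Complex.norm_real, norm_mul, norm_mul, norm_pow, norm_pow, norm_pow,
      Real.norm_eq_abs, abs_of_nonneg (by positivity)]
    have hk0 : (0 : ℝ) ≤ k := Nat.cast_nonneg k
    exact le_mul_of_one_le_left (by positivity) (by linarith)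
  have hξ0 : ξ = 0 := by
    have : 0 < ‖W b‖ ^ 6 := by positivity
    have h2 : ‖ξ‖ ≤ 0 := by nlinarith [norm_nonneg ξ]
    exact norm_le_zero_iff.mp h2
  have hux : ⟪u, x⟫ = 0 := by simpa [hξ] using congrArg Complex.re hξ0
  have hvx : ⟪v, x⟫ = 0 := by simpa [hξ] using congrArg Complex.im hξ0
  have hd0 : ∀ t : ℝ, 2 * ⟪u + t • v, x⟫ = 0 := by
    intro t; rw [hd, lin_eval, hux, hvx]; ring
  have e2 := extract 2 (by norm_num) (by norm_num)
    (fun k => p2 k (lin (u (be k)) (v (be k))) (lin (u (al k)) (v (al k))) (x (be k)) (x (al k)))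
    (fun k => p2_deg _ _ _ _ _ _ _) 0 (by simp) (2 + ‖x‖ ^ 2)
    (fun k t ht => by simpa only [p2_eval, hco, hd0, hr] using hb k t ht)
    (fun t _ => by simpa only [p2_eval, hco, hd0, hr, eval_zero] using hs t)
  have ev : ∀ k, aeval Complex.I (p2 k (lin (u (be k)) (v (be k))) (lin (u (al k)) (v (al k)))
      (x (be k)) (x (al k))) = (W (be k) ^ 2) ^ k * (W (be k) ^ 4 *
        ((((2 * k + 5) * x (be k) : ℝ) : ℂ) * W (al k) + W (be k) * x (al k))) := by
    intro k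
    rw [p2_I, lin_I, lin_I]
  have s2 : ‖W b‖ ^ 5 * |x b| ≤ 0 := by
    refine small_zero (‖W b‖ ^ 2) (by positivity) _ (16 * (2 + ‖x‖ ^ 2)) fun n => ?_
    obtain ⟨k, hk, ha, hb'⟩ := visit b b n le_rfl
    refine ⟨k, hk, le_trans ?_ (e2 k)⟩
    rw [ev, ha, hb']
    have : (W b ^ 2) ^ k * (W b ^ 4 * ((((2 * k + 5) * x b : ℝ) : ℂ) * W b + W b * x b))
        = ((2 * k + 6 : ℝ) : ℂ) * ((W b ^ 2) ^ k * (W b ^ 5 * x b)) := by
      push_cast; ring
    rw [this, norm_mul, Complex.norm_real, norm_mul, norm_mul, norm_pow, norm_pow, norm_pow,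
      Complex.norm_real, Real.norm_eq_abs, Real.norm_eq_abs,
      abs_of_nonneg (by positivity : (0 : ℝ) ≤ 2 * k + 6)]
    have hk0 : (0 : ℝ) ≤ k := Nat.cast_nonneg k
    exact le_mul_of_one_le_left (by positivity) (by linarith)
  have hxb : x b = 0 := by
    have : 0 < ‖W b‖ ^ 5 := by positivity
    have h2 : |x b| ≤ 0 := by nlinarith [abs_nonneg (x b)]
    exact abs_nonpos_iff.mp h2
  have s3 : ‖W b‖ ^ 5 * |x a| ≤ 0 := by
    refine small_zero (‖W b‖ ^ 2) (by positivity) _ (16 * (2 + ‖x‖ ^ 2)) fun n => ?_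
    obtain ⟨k, hk, ha, hb'⟩ := visit a b n hab
    refine ⟨k, hk, le_trans ?_ (e2 k)⟩
    rw [ev, ha, hb', hxb]
    have : (W b ^ 2) ^ k * (W b ^ 4 * ((((2 * k + 5) * 0 : ℝ) : ℂ) * W a + W b * x a))
        = (W b ^ 2) ^ k * (W b ^ 5 * x a) := by
      push_cast; ring
    rw [this, norm_mul, norm_mul, norm_pow, norm_pow, norm_pow,
      Complex.norm_real, Real.norm_eq_abs]
  have : 0 < ‖W b‖ ^ 5 := by positivity
  have h2 : |x a| ≤ 0 := by nlinarith [abs_nonneg (x a)]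
  exact abs_nonpos_iff.mp h2

lemma onb (G : Submodule ℝ (H ℕ)) (hG : 2 ≤ Module.rank ℝ G) :
    ∃ u ∈ G, ∃ v ∈ G, ‖u‖ = 1 ∧ ‖v‖ = 1 ∧ ⟪u, v⟫ = 0 := by
  obtain ⟨w, hw⟩ := (Module.le_rank_iff (n := 2)).mp (by exact_mod_cast hG)
  have hw' := hw.map' G.subtype G.ker_subtype
  have := InnerProductSpace.gramSchmidtNormed_orthonormal hw'
  have hm : ∀ i, InnerProductSpace.gramSchmidtNormed ℝ (G.subtype ∘ w) i ∈ G := by
    intro i
    refine G.smul_mem _ ?_
    have := InnerProductSpace.gramSchmidt_mem_span ℝ (G.subtype ∘ w) (le_refl i)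
    refine Submodule.span_le.mpr ?_ this
    rintro _ ⟨j, _, rfl⟩
    exact (w j).2
  exact ⟨_, hm 0, _, hm 1, this.1 0, this.1 1, this.2 (by decide)⟩

lemma inf_dim : ¬ FiniteDimensional ℝ (E D) := by
  intro h
  have : FiniteDimensional ℝ (H ℕ) := (toH D).finiteDimensional
  have h1 : Orthonormal ℝ (fun i : ℕ => (lp.single 2 i (1 : ℝ) : H ℕ)) := by
    rw [orthonormal_iff_ite]
    intro i j
    rw [lp.inner_single_left]
    by_cases hij : i = j <;> simp [lp.single_apply, Pi.single_apply, hij]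
  have := h1.linearIndependent.finite
  exact _root_.not_finite ℕ

lemma strong_fin (G : Submodule ℝ (E D)) (hG : 2 ≤ Module.rank ℝ G) :
    ∃ b : ℕ, ∀ x : E D, (∀ g ∈ G, ∀ s : ℝ, ‖g‖ ≤ ‖g + s • x‖) → ∀ a, b ≤ a → toH D x a = 0 := by
  obtain ⟨u, hu, v, hv, h1, h2, h3⟩ := onb (G.map (toH D).toLinearMap)
    (by rw [LinearEquiv.rank_map_eq]; exact hG)
  obtain ⟨b, hb0⟩ : ∃ b, u b ≠ 0 := by
    by_contra h
    push Not at h
    have : u = 0 := lp.ext (funext h)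
    rw [this] at h1
    simp at h1
  obtain ⟨u, hu, rfl⟩ := hu
  obtain ⟨v, hv, rfl⟩ := hv
  refine ⟨b, fun x ho => no_strong _ _ (toH D x) h1 h2 h3 (fun t s => ?_) b hb0⟩
  have := ho (u + t • v) (G.add_mem hu (G.smul_mem t hv)) s
  rw [norm_E, norm_E] at this
  simp only [map_add, map_smul] at this
  rw [← N_sq, ← N_sq]
  exact pow_le_pow_left₀ (N_nonneg D _) this 2

noncomputable def ev (j : ℕ) : E D →L[ℝ] ℝ :=
  (innerSL ℝ (lp.single 2 j (1 : ℝ) : H ℕ)).comp (eH D : E D →L[ℝ] H ℕ)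

lemma ev_apply (j : ℕ) (x : E D) : ev j x = toH D x j := by
  simp [ev, lp.inner_single_left]
  rfl

lemma ext_ev (x : E D) (h : ∀ j, ev j x = 0) : x = 0 := by
  have : toH D x = 0 := lp.ext (funext fun j => by rw [← ev_apply]; exact h j)
  simpa using this

/-- there is no finite rank norm one projection of rank at least two -/
lemma no_proj (u : E D →L[ℝ] E D) (hfin : FiniteDimensional ℝ (LinearMap.range (u : E D →ₗ[ℝ] E D)))
    (hidem : ∀ x, u (u x) = u x) (hn : ‖u‖ ≤ 1)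
    (hr : 2 ≤ Module.rank ℝ (LinearMap.range (u : E D →ₗ[ℝ] E D))) : False := by
  obtain ⟨b, hb⟩ := strong_fin _ hr
  let T : E D →ₗ[ℝ] (LinearMap.range (u : E D →ₗ[ℝ] E D)) × (Fin b → ℝ) :=
    (u : E D →ₗ[ℝ] E D).rangeRestrict.prod (LinearMap.pi fun a => (ev a : E D →ₗ[ℝ] ℝ))
  refine inf_dim (Module.Finite.of_injective T ?_)
  rw [injective_iff_map_eq_zero]
  intro x hx
  have h1 : u x = 0 := congrArg (fun p => (p.1 : E D)) hx
  have h2 : ∀ a : Fin b, ev a x = 0 := fun a => congrFun (congrArg Prod.snd hx) a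
  refine ext_ev x fun j => ?_
  by_cases hj : j < b
  · exact h2 ⟨j, hj⟩
  · rw [ev_apply]
    refine hb x ?_ j (not_lt.mp hj)
    rintro _ ⟨y, rfl⟩ s
    have := u.le_opNorm (u y + s • x)
    rw [map_add, map_smul, hidem, h1, smul_zero, add_zero] at this
    exact le_trans this (mul_le_of_le_one_left (norm_nonneg _) hn)

lemma tangent_line {I : Type} (D : Data I) (x h : H I) (hne : ∀ t : ℝ, x + t • h ≠ 0) (s : ℝ)
    (hs : HasSum (T1 D x h 0) s) : Q D x + (2 * ⟪x, h⟫ + s) ≤ Q D (x + h) := by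
  have key : ∀ F : Finset (ℕ × I), (‖x‖ ^ 2 + ∑ p ∈ F, term D x p) +
      (2 * ⟪x, h⟫ + ∑ p ∈ F, T1 D x h 0 p) ≤ ‖x + h‖ ^ 2 + ∑ p ∈ F, term D (x + h) p := by
    intro F
    have := tangent
      (fun t => (‖x‖ ^ 2 + 2 * ⟪x, h⟫ * t + ‖h‖ ^ 2 * t ^ 2) + ∑ p ∈ F, term D (x + t • h) p)
      (fun t => (2 * ⟪x, h⟫ + 2 * ‖h‖ ^ 2 * t) + ∑ p ∈ F, T1 D x h t p)
      (fun t => 2 * ‖h‖ ^ 2 + ∑ p ∈ F, T2 D x h t p)
      (fun t => (hr _ _ _ t).add (dS0 D x h hne F t))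
      (fun t => (hd _ _ t).add (dS1 D x h hne F t))
      (fun t => by have := abs_le.mp (S2_bound D x h hne F t); nlinarith [sq_nonneg ‖h‖])
      0 1
    simp only [← norm_line] at this
    simpa using this
  have l1 := Tendsto.add (((term_summable D x).hasSum).const_add (‖x‖ ^ 2))
    (Tendsto.const_add (2 * ⟪x, h⟫) hs)
  have l2 := ((term_summable D (x + h)).hasSum).const_add (‖x + h‖ ^ 2)
  exact le_of_tendsto_of_tendsto' l1 l2 key

lemma cut_Q (K : ℕ) (S : Set ℕ) (hS : ∀ k < K, be k ∈ S → al k ∈ S) (x : H ℕ) :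
    Q D (cut S x) ≤ (1 + 4 * (1 / 2) ^ K) * Q D x := by
  have hQ := Q_nonneg D x
  set y := cut S x with hy
  by_cases hy0 : y = 0
  · have := Q_le D y
    rw [hy0] at this ⊢
    simp only [norm_zero] at this
    have : 0 ≤ (1 + 4 * (1 / 2) ^ K) * Q D x := by positivity
    nlinarith
  set z := x - y with hz
  have hyS : ∀ j, j ∉ S → y j = 0 := fun j hj => by simp [hy, cut_apply, hj]
  have hzS : ∀ j, j ∈ S → z j = 0 := fun j hj => by simp [hz, hy, cut_apply, hj]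
  have hi : ⟪y, z⟫ = 0 := inner_zero_of_disj y z fun j => by
    by_cases hj : j ∈ S
    · simp [hzS j hj]
    · simp [hyS j hj]
  have hn := norm_pos_iff.mpr hy0
  have hne : ∀ t : ℝ, y + t • z ≠ 0 := by
    intro t h
    have := norm_line y z t
    rw [h, hi] at this
    simp only [norm_zero] at this
    nlinarith [sq_nonneg (‖z‖ * t), pow_pos hn 2]
  have h1 := tangent_line D y z hne _ (T1_sum y z hy0)
  have hxyz : y + z = x := by simp [hz]
  have hnx : ‖y‖ ^ 2 + ‖z‖ ^ 2 = ‖x‖ ^ 2 := by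
    rw [← hxyz, norm_add_sq_real, hi]; ring
  have h0 : ∑ k ∈ Finset.range K, tm y z k = 0 := by
    refine Finset.sum_eq_zero fun k hk => ?_
    by_cases hb : be k ∈ S
    · simp [tm, g1, q1, hi, hzS _ hb, hzS _ (hS k (Finset.mem_range.mp hk) hb)]
    · simp [tm, g1, hyS _ hb]
  have h2 := (hasSum_nat_add_iff' K).mpr (tm_summable y z hy0).hasSum
  rw [h0, sub_zero] at h2
  have h3 : ‖∑' k, tm y z k‖ ≤ 2 * ((1 / 2) ^ K * ‖x‖ ^ 2) := by
    refine h2.norm_le_of_bounded (hasSum_geometric_two.mul_right _) fun k => ?_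
    refine le_trans (tm_bound y z hy0 _) (le_of_eq ?_)
    rw [hnx, pow_add]; ring
  rw [hxyz, hi] at h1
  have h4 := (abs_le.mp h3).1
  have h5 := Q_ge D x
  have h6 : ((1 : ℝ) / 2) ^ K * ‖x‖ ^ 2 ≤ (1 / 2) ^ K * (2 * Q D x) :=
    mul_le_mul_of_nonneg_left (by linarith) (by positivity)
  nlinarith

noncomputable def cutE (S : Set ℕ) : E D →L[ℝ] E D :=
  ((eH D).symm : H ℕ →L[ℝ] E D).comp ((cut S).comp (eH D : E D →L[ℝ] H ℕ))

lemma ev_cutE (S : Set ℕ) (x : E D) (j : ℕ) : ev j (cutE S x) = S.indicator (fun j => ev j x) j := by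
  simp only [ev_apply]
  rfl

lemma cutE_norm (K : ℕ) (S : Set ℕ) (hS : ∀ k < K, be k ∈ S → al k ∈ S) :
    ‖cutE S‖ ≤ 1 + 4 * (1 / 2) ^ K := by
  refine ContinuousLinearMap.opNorm_le_bound _ (by positivity) fun x => ?_
  have h1 := cut_Q K S hS (toH D x)
  refine le_of_sq_le_sq ?_ (by positivity) |> fun h => h
  rw [mul_pow, norm_E, norm_E, N_sq, N_sq]
  refine le_trans h1 (mul_le_mul_of_nonneg_right ?_ (Q_nonneg D _))
  have : (0 : ℝ) ≤ 4 * (1 / 2) ^ K := by positivity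
  nlinarith

lemma cut_tendsto {I : Type} (p : I → ℕ) (x : H I) :
    Tendsto (fun n => cut {j | p j < n} x) atTop (𝓝 x) := by
  rw [tendsto_iff_norm_sub_tendsto_zero]
  have e : ∀ N b, (cut {j | p j < N} x - x) b ^ 2 = if p b < N then 0 else x b ^ 2 := by
    intro N b
    rw [lp.coeFn_sub, Pi.sub_apply, cut_apply]
    split_ifs with h <;> simp [h]
  have lim : Tendsto (fun N => ∑' b, (if p b < N then 0 else x b ^ 2)) atTop
      (𝓝 (∑' _ : I, (0 : ℝ))) := by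
    refine tendsto_tsum_of_dominated_convergence (hasSum_sq x).summable (fun b => ?_)
      (Eventually.of_forall fun N b => ?_)
    · refine tendsto_const_nhds.congr' ?_
      filter_upwards [eventually_gt_atTop (p b)] with N hN
      simp [hN]
    · split_ifs <;> simp [sq_nonneg]
  rw [tsum_zero] at lim
  have lim2 := lim.sqrt
  rw [Real.sqrt_zero] at lim2
  refine lim2.congr fun N => ?_
  simp only [← e]
  rw [(hasSum_sq _).tsum_eq, Real.sqrt_sq (norm_nonneg _)]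

lemma cutE_tendsto (p : ℕ → ℕ) (x : E D) :
    Tendsto (fun n => cutE {j | p j < n} x) atTop (𝓝 x) := by
  have := ((eH D).symm.continuous.tendsto _).comp (cut_tendsto p (eH D x))
  simpa [Function.comp_def, cutE] using this

def rev (M i : ℕ) : ℕ := if i < M then M - 1 - i else i

lemma rev_rev (M i : ℕ) : rev M (rev M i) = i := by
  unfold rev; split_ifs <;> omega

noncomputable def bas (M i : ℕ) : E D := (toH D).symm (lp.single 2 (rev M i) (1 : ℝ))

lemma ev_bas (M i j : ℕ) : ev j (bas M i) = if rev M j = i then 1 else 0 := by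
  rw [ev_apply, bas, LinearEquiv.apply_symm_apply, lp.single_apply, Pi.single_apply]
  congr 1
  exact propext ⟨fun h => by rw [h, rev_rev], fun h => by rw [← h, rev_rev]⟩

lemma ev_sum (M n : ℕ) (a : ℕ → ℝ) (j : ℕ) :
    ev j (∑ i ∈ Finset.range n, a i • bas M i) = if rev M j < n then a (rev M j) else 0 := by
  simp [ev_bas]

lemma ext_ev' (x y : E D) (h : ∀ j, ev j x = ev j y) : x = y :=
  sub_eq_zero.mp (ext_ev _ fun j => by rw [map_sub, h, sub_self])

lemma cutE_eq (M n : ℕ) (x : E D) :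
    cutE {j | rev M j < n} x = ∑ i ∈ Finset.range n, ev (rev M i) x • bas M i :=
  ext_ev' _ _ fun j => by
    rw [ev_sum, ev_cutE, rev_rev, Set.indicator_apply]
    rfl

lemma cutE_fin (M n : ℕ) :
    FiniteDimensional ℝ (LinearMap.range (cutE {j | rev M j < n} : E D →ₗ[ℝ] E D)) := by
  have : FiniteDimensional ℝ (Submodule.span ℝ (bas M '' Set.Iio n)) :=
    FiniteDimensional.span_of_finite ℝ ((Set.finite_Iio n).image _)
  refine Submodule.finiteDimensional_of_le (S₂ := Submodule.span ℝ (bas M '' Set.Iio n)) ?_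
  rintro _ ⟨x, rfl⟩
  change cutE _ x ∈ _
  rw [cutE_eq]
  exact Submodule.sum_mem _ fun i hi => Submodule.smul_mem _ _
    (Submodule.subset_span ⟨i, Finset.mem_range.mp hi, rfl⟩)

lemma cutE_comp (p : ℕ → ℕ) (n m : ℕ) :
    (cutE {j | p j < n}).comp (cutE {j | p j < m}) = cutE {j | p j < min n m} := by
  ext1 x
  refine ext_ev' _ _ fun j => ?_
  simp only [ContinuousLinearMap.comp_apply, ev_cutE, Set.indicator_apply, Set.mem_ofPred_eq,
    lt_min_iff]
  by_cases h1 : p j < n <;> by_cases h2 : p j < m <;> simp [h1, h2]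

lemma good (δ : ℝ) (hδ : 0 < δ) : ∃ M, ∀ n, ‖cutE {j | rev M j < n}‖ ≤ 1 + δ := by
  obtain ⟨K, hK⟩ := exists_pow_lt_of_lt_one (by positivity : 0 < δ / 4) (by norm_num : (1 : ℝ) / 2 < 1)
  refine ⟨(Finset.range K).sup al + 1, fun n => le_trans (cutE_norm K _ fun k hk h => ?_) (by linarith)⟩
  have h1 : al k ≤ (Finset.range K).sup al := Finset.le_sup (Finset.mem_range.mpr hk)
  have h2 := be_le k
  simp only [Set.mem_ofPred_eq, rev] at h ⊢
  rw [if_pos (by omega)] at h ⊢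
  omega

lemma rank_two (u : E D →L[ℝ] E D) (h0 : ‖u (bas 0 0) - bas 0 0‖ ≤ 1 / 8)
    (h1 : ‖u (bas 0 1) - bas 0 1‖ ≤ 1 / 8) :
    2 ≤ Module.rank ℝ (LinearMap.range (u : E D →ₗ[ℝ] E D)) := by
  have hev : ∀ j (x : E D), |ev j x| ≤ 2 * ‖x‖ := fun j x => by
    rw [ev_apply]
    exact le_trans (lp.norm_apply_le_norm (by norm_num) (toH D x) j) (le_N D _)
  have key : LinearIndependent ℝ ![(⟨u (bas 0 0), ⟨_, rfl⟩⟩ : LinearMap.range (u : E D →ₗ[ℝ] E D)),
      ⟨u (bas 0 1), ⟨_, rfl⟩⟩] := by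
    rw [LinearIndependent.pair_iff]
    intro s t hst
    have h : s • u (bas 0 0) + t • u (bas 0 1) = 0 := congrArg Subtype.val hst
    have a0 := congrArg (ev 0) h
    have a1 := congrArg (ev 1) h
    simp only [map_add, map_smul, smul_eq_mul, map_zero] at a0 a1
    have b00 := abs_le.mp (hev 0 (u (bas 0 0) - bas 0 0))
    have b01 := abs_le.mp (hev 0 (u (bas 0 1) - bas 0 1))
    have b10 := abs_le.mp (hev 1 (u (bas 0 0) - bas 0 0))
    have b11 := abs_le.mp (hev 1 (u (bas 0 1) - bas 0 1))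
    simp only [map_sub, ev_bas, rev] at b00 b01 b10 b11
    norm_num at b00 b01 b10 b11
    set p := ev 0 (u (bas 0 0))
    set q := ev 0 (u (bas 0 1))
    set r := ev 1 (u (bas 0 0))
    set w := ev 1 (u (bas 0 1))
    have hdet : 0 < p * w - q * r := by nlinarith
    constructor
    · have : s * (p * w - q * r) = 0 := by linear_combination w * a0 - q * a1
      exact (mul_eq_zero.mp this).resolve_right hdet.ne'
    · have : t * (p * w - q * r) = 0 := by linear_combination p * a1 - r * a0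
      exact (mul_eq_zero.mp this).resolve_right hdet.ne'
  exact_mod_cast (Module.le_rank_iff (n := 2)).mpr ⟨_, key⟩

end Pool.Agent.Lib.helper16.NDB
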