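import Mathlib
set_option autoImplicit false
open Filter Topology Finset

namespace Pool.Agent.Lib.helper16.NullT

def B : ℕ → ℕ
  | 0 => 1
  | j + 1 => 3 * (j + 1) * B j

lemma B_pos (j : ℕ) : 0 < B j := by
  induction j with
  | zero => simp [B]
  | succ j ih => simp only [B]; positivity

lemma lt_B (j : ℕ) : j < B j := by
  induction j with
  | zero => simp [B]
  | succ j ih => simp only [B]; nlinarith

lemma B_dvd {j k : ℕ} (h : j ≤ k) : B j ∣ B k := by
  induction k, h using Nat.le_induction with
  | base => exact dvd_rfl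
  | succ k _ ih => simp only [B]; exact Dvd.dvd.mul_left ih _

lemma B3_dvd {j k : ℕ} (h : j < k) : B j * 3 ∣ B k := by
  refine dvd_trans ?_ (B_dvd (show j + 1 ≤ k from h))
  simp only [B]; exact ⟨j + 1, by ring⟩

def d (j w : ℕ) : ℕ := (w / B j) % 3

lemma d_add_mul (j w c : ℕ) : d j (w + B j * 3 * c) = d j w := by
  unfold d
  rw [mul_assoc, Nat.add_mul_div_left _ _ (B_pos j), Nat.add_mul_mod_self_left]

lemma div_eq_of_lt {b w q : ℕ} (hb : 0 < b) (h : w % b + q < b) : (w + q) / b = w / b := by
  have := Nat.div_add_mod w b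
  rw [show w + q = (w % b + q) + b * (w / b) by omega, Nat.add_mul_div_left _ _ hb,
    Nat.div_eq_of_lt h, zero_add]

lemma d_eq_of_div {k j a b : ℕ} (h : k ≤ j) (e : a / B k = b / B k) : d j a = d j b := by
  obtain ⟨c, hc⟩ := B_dvd h
  unfold d
  rw [hc, ← Nat.div_div_eq_div_mul, ← Nat.div_div_eq_div_mul, e]

def phi : ℕ → ℕ → ℕ → Bool
  | 0, _, _ => false
  | L + 1, a, b => if d L a = d L b then phi L a b else decide (d L a = (d L b + 2) % 3)

lemma phi_congr (L a a' b : ℕ) (h : ∀ j, d j a = d j a') : phi L a b = phi L a' b := by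
  induction L with
  | zero => rfl
  | succ L ih => simp only [phi, h L, ih]

lemma phi_stab {L L' a b : ℕ} (h : L ≤ L') (e : ∀ j, L ≤ j → d j a = d j b) :
    phi L' a b = phi L a b := by
  induction L', h using Nat.le_induction with
  | base => rfl
  | succ k hk ih => simp only [phi, e k hk, if_true, ih]

lemma d_big {j a : ℕ} (h : a ≤ j) : d j a = 0 := by
  unfold d; rw [Nat.div_eq_of_lt (lt_of_le_of_lt h (lt_B j))]

def psi (a b : ℕ) : Bool := phi (a + b) a b

lemma psi_eq {L a b : ℕ} (e : ∀ j, L ≤ j → d j a = d j b) : psi a b = phi L a b := by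
  have h1 : phi (L + (a + b)) a b = phi (a + b) a b :=
    phi_stab (by omega) fun j hj => by rw [d_big (by omega), d_big (by omega)]
  have h2 : phi (L + (a + b)) a b = phi L a b := phi_stab (by omega) e
  rw [psi, ← h1, h2]

lemma psi_eq' {L a b : ℕ} (h : a + b ≤ L) : psi a b = phi L a b :=
  psi_eq fun j hj => by rw [d_big (by omega), d_big (by omega)]

lemma psi_congr {a a' b : ℕ} (h : ∀ j, d j a = d j a') : psi a b = psi a' b := by
  rw [psi_eq' (L := a + a' + b) (by omega), psi_eq' (L := a + a' + b) (by omega)]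
  exact phi_congr _ _ _ _ h

/-- patterns -/
lemma pat (u : ℕ → ℕ) (L : ℕ) : ∀ T : Finset ℕ, ∃ S : Finset (Finset ℕ),
    (S.card : ℤ) ≤ (if T.card = 0 then 1 else 5 * T.card - 3) ∧ ∅ ∈ S ∧ T ∈ S ∧
      ∀ v, T.filter (fun t => phi L (u t) v = true) ∈ S := by
  induction L with
  | zero =>
    intro T
    refine ⟨{∅, T}, ?_, by simp, by simp, fun v => by simp [phi]⟩
    split_ifs with h
    · rw [card_eq_zero] at h; subst h; simp
    · have := card_le_two (a := (∅ : Finset ℕ)) (b := T)
      omega
  | succ L ih =>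
    intro T
    let U : ℕ → Finset ℕ := fun e => T.filter (fun t => d L (u t) = e)
    let V : ℕ → Finset ℕ := fun e => T.filter (fun t => d L (u t) = (e + 2) % 3)
    have key : ∀ v, T.filter (fun t => phi (L + 1) (u t) v = true) =
        (U (d L v)).filter (fun t => phi L (u t) v = true) ∪ V (d L v) := by
      intro v
      ext t
      simp only [U, V, phi, mem_filter, mem_union]
      have h3 : d L v < 3 := Nat.mod_lt _ (by norm_num)
      by_cases h : d L (u t) = d L v
      · simp only [h, if_true]
        have : ¬ d L v = (d L v + 2) % 3 := by omega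
        tauto
      · simp only [h, if_false, decide_eq_true_eq]; tauto
    choose S hS1 hS2 hS3 hS4 using ih
    by_cases hone : ∃ e, ∀ t ∈ T, d L (u t) = e
    · obtain ⟨e, he⟩ := hone
      refine ⟨S T, hS1 T, hS2 T, hS3 T, fun v => ?_⟩
      rw [key]
      by_cases h : d L v = e
      · have h3 : d L v < 3 := Nat.mod_lt _ (by norm_num)
        have e1 : U (d L v) = T := filter_true_of_mem fun t ht => by rw [he t ht, h]
        have e2 : V (d L v) = ∅ := filter_false_of_mem fun t ht => by rw [he t ht]; omega
        rw [e1, e2, union_empty]; exact hS4 T v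
      · have e1 : U (d L v) = ∅ := filter_false_of_mem fun t ht => by rw [he t ht]; omega
        rw [e1, filter_empty, empty_union]
        by_cases h' : e = (d L v + 2) % 3
        · have e2 : V (d L v) = T := filter_true_of_mem fun t ht => by rw [he t ht, h']
          rw [e2]; exact hS3 T
        · have e2 : V (d L v) = ∅ := filter_false_of_mem fun t ht => by rw [he t ht]; exact h'
          rw [e2]; exact hS2 T
    · let W : ℕ → Finset (Finset ℕ) := fun e => (S (U e)).image (fun s => s ∪ V e)
      refine ⟨{∅, T} ∪ (W 0 ∪ W 1 ∪ W 2), ?_, by simp, by simp, fun v => ?_⟩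
      · have c0 : ∀ e, ((W e).card : ℤ) ≤ (if (U e).card = 0 then 1 else 5 * (U e).card - 3) :=
          fun e => le_trans (by exact_mod_cast card_image_le) (hS1 (U e))
        have c1 := card_union_le ({∅, T} : Finset (Finset ℕ)) (W 0 ∪ W 1 ∪ W 2)
        have c2 := card_union_le (W 0 ∪ W 1) (W 2)
        have c3 := card_union_le (W 0) (W 1)
        have c4 := card_le_two (a := (∅ : Finset ℕ)) (b := T)
        have c5 : (U 0).card + (U 1).card + (U 2).card = T.card := by
          simp only [U, card_filter, ← sum_add_distrib]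
          rw [card_eq_sum_ones]
          refine sum_congr rfl fun t _ => ?_
          have h3 : d L (u t) < 3 := Nat.mod_lt _ (by norm_num)
          split_ifs <;> omega
        have c6 : ∀ e, (U e).card ≠ T.card := fun e h => by
          refine hone ⟨e, fun t ht => ?_⟩
          have : U e = T := eq_of_subset_of_card_le (filter_subset _ _) h.ge
          rw [← this] at ht
          exact (mem_filter.1 ht).2
        have a0 := c0 0; have a1 := c0 1; have a2 := c0 2
        have b0 := c6 0; have b1 := c6 1; have b2 := c6 2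
        split_ifs at a0 a1 a2 ⊢ <;> omega
      · rw [key]
        have h3 : d L v < 3 := Nat.mod_lt _ (by norm_num)
        have : (U (d L v)).filter (fun t => phi L (u t) v = true) ∪ V (d L v) ∈ W (d L v) :=
          mem_image_of_mem _ (hS4 _ v)
        simp only [mem_union]
        interval_cases (d L v) <;> tauto

/-- greedy sampling -/
lemma greedy {ι : Type} (I : Finset ι) (y : ℕ → ι → ℝ) (n : ℕ) (hn : 0 < n) (l : ℝ)
    (hl0 : 0 ≤ l) (hl : l ≤ 1) (hy : ∀ w i, |y w i| ≤ 1)
    (h0 : ∀ i ∈ I, ∑ w ∈ range n, y w i = 0) (M : ℕ) :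
    ∃ ω : ℕ → ℕ, ∑ i ∈ I, Real.exp (l * ∑ k ∈ range M, y (ω k) i) ≤
      I.card * Real.exp (l ^ 2 * M) := by
  induction M with
  | zero => exact ⟨fun _ => 0, by simp⟩
  | succ M ih =>
    obtain ⟨ω, hω⟩ := ih
    set S : ι → ℝ := fun i => l * ∑ k ∈ range M, y (ω k) i with hS
    have h1 : ∑ w ∈ range n, ∑ i ∈ I, Real.exp (S i + l * y w i) ≤
        ∑ _w ∈ range n, (I.card * Real.exp (l ^ 2 * (M + 1 : ℕ))) := by
      rw [sum_comm]
      have h2 : ∀ i ∈ I, ∑ w ∈ range n, Real.exp (S i + l * y w i) ≤
          n * Real.exp (l ^ 2) * Real.exp (S i) := by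
        intro i hi
        have h3 : ∀ w ∈ range n, Real.exp (S i + l * y w i) ≤
            Real.exp (S i) * (Real.exp (l ^ 2) + l * y w i) := by
          intro w _
          rw [Real.exp_add]
          refine mul_le_mul_of_nonneg_left ?_ (Real.exp_pos _).le
          have a1 : |l * y w i| ≤ l := by
            rw [abs_mul, abs_of_nonneg hl0]; nlinarith [hy w i, abs_nonneg (y w i)]
          have a2 := Real.abs_exp_sub_one_sub_id_le (a1.trans hl)
          have a3 : (l * y w i) ^ 2 ≤ l ^ 2 := by
            rw [← sq_abs]; exact pow_le_pow_left₀ (abs_nonneg _) a1 2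
          have a4 := Real.add_one_le_exp (l ^ 2)
          have a5 := le_abs_self (Real.exp (l * y w i) - 1 - l * y w i)
          linarith
        refine (sum_le_sum h3).trans (le_of_eq ?_)
        rw [← mul_sum, sum_add_distrib, ← mul_sum, h0 i hi]
        simp; ring
      refine (sum_le_sum h2).trans ?_
      rw [← mul_sum, sum_const, card_range, nsmul_eq_mul]
      have : Real.exp (l ^ 2 * (M + 1 : ℕ)) = Real.exp (l ^ 2) * Real.exp (l ^ 2 * M) := by
        rw [← Real.exp_add]; push_cast; ring_nf
      rw [this]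
      have := mul_le_mul_of_nonneg_left hω (show 0 ≤ n * Real.exp (l ^ 2) by positivity)
      linarith
    obtain ⟨w, -, hw⟩ := exists_le_of_sum_le (nonempty_range_iff.2 hn.ne') h1
    refine ⟨Function.update ω M w, le_trans (le_of_eq ?_) hw⟩
    refine sum_congr rfl fun i _ => ?_
    rw [sum_range_succ, Function.update_self, mul_add]
    congr 3
    refine sum_congr rfl fun k hk => ?_
    rw [Function.update_of_ne (mem_range.1 hk).ne]

end Pool.Agent.Lib.helper16.NullT
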