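import Mathlib
import Pool.Agent.Lib.helper16.NullA
set_option autoImplicit false
open Filter Topology Finset

namespace Pool.Agent.Lib.helper16.NullT

noncomputable def avg (g : ℕ → Bool) (n : ℕ) : ℝ := (∑ w ∈ range n, if g w then (1 : ℝ) else 0) / n

lemma avg_mem (g : ℕ → Bool) (n : ℕ) : avg g n ∈ Set.Icc (0 : ℝ) 1 := by
  unfold avg
  refine ⟨div_nonneg (sum_nonneg fun w _ => by split_ifs <;> norm_num) (Nat.cast_nonneg _), ?_⟩
  refine div_le_one_of_le₀ ?_ (Nat.cast_nonneg _)
  refine (sum_le_sum (g := fun _ => (1 : ℝ)) fun w _ => by split_ifs <;> norm_num).trans ?_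
  simp

lemma ex_mean (g : ℕ → Bool) : ∃ p ∈ Set.Icc (0 : ℝ) 1,
    Tendsto (avg g) (hyperfilter ℕ) (𝓝 p) := by
  have := isCompact_Icc.ultrafilter_le_nhds ((hyperfilter ℕ).map (avg g))
    (le_principal_iff.2 (mem_map.2 (Eventually.of_forall (avg_mem g))))
  exact this

noncomputable def mean (g : ℕ → Bool) : ℝ := (ex_mean g).choose

lemma mean_mem (g : ℕ → Bool) : mean g ∈ Set.Icc (0 : ℝ) 1 := (ex_mean g).choose_spec.1
lemma mean_tend (g : ℕ → Bool) : Tendsto (avg g) (hyperfilter ℕ) (𝓝 (mean g)) :=
  (ex_mean g).choose_spec.2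

lemma hyp_le : (hyperfilter ℕ : Filter ℕ) ≤ atTop := by
  rw [← Nat.cofinite_eq_atTop]; exact hyperfilter_le_cofinite

lemma mean_le (g h : ℕ → Bool) (s C : ℝ)
    (H : ∀ n : ℕ, (∑ w ∈ range n, if g w then (1 : ℝ) else 0) ≤
      (∑ w ∈ range n, if h w then (1 : ℝ) else 0) + s * n + C) : mean g ≤ mean h + s := by
  have t1 : Tendsto (fun n : ℕ => avg h n + s + C / n) (hyperfilter ℕ) (𝓝 (mean h + s + 0)) :=
    ((mean_tend h).add tendsto_const_nhds).add
      ((tendsto_const_div_atTop_nhds_zero_nat C).mono_left hyp_le)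
  rw [add_zero] at t1
  refine le_of_tendsto_of_tendsto (mean_tend g) t1 ?_
  filter_upwards [hyp_le (eventually_gt_atTop 0)] with n hn
  have hn' : (0 : ℝ) < n := by exact_mod_cast hn
  unfold avg
  rw [div_le_iff₀ hn']
  have := H n
  field_simp
  linarith

lemma mean_shift (g : ℕ → Bool) (c : ℕ) : mean (fun w => g (w + c)) = mean g := by
  have key : ∀ n : ℕ, (∑ w ∈ range n, if g (w + c) then (1 : ℝ) else 0) +
      (∑ w ∈ range c, if g w then (1 : ℝ) else 0) =
      (∑ w ∈ range n, if g w then (1 : ℝ) else 0) +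
      (∑ w ∈ range c, if g (n + w) then (1 : ℝ) else 0) := by
    intro n
    rw [← sum_range_add (fun w => if g w then (1 : ℝ) else 0) n c, add_comm n c,
      sum_range_add, add_comm]
    simp only [add_comm c]
  have b : ∀ k : ℕ → Bool, 0 ≤ (∑ w ∈ range c, if k w then (1 : ℝ) else 0) ∧
      (∑ w ∈ range c, if k w then (1 : ℝ) else 0) ≤ c := fun k =>
    ⟨sum_nonneg fun w _ => by split_ifs <;> norm_num,
      (sum_le_sum (g := fun _ => (1 : ℝ)) fun w _ => by split_ifs <;> norm_num).trans (by simp)⟩
  apply le_antisymm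
  · have := mean_le (fun w => g (w + c)) g 0 c fun n => by
      have := key n; have := b g; have := b (fun w => g (n + w)); linarith
    linarith
  · have := mean_le g (fun w => g (w + c)) 0 c fun n => by
      have := key n; have := b g; have := b (fun w => g (n + w)); linarith
    linarith

lemma bad_count (b q n : ℕ) (hb : 0 < b) :
    (∑ w ∈ range n, if b ≤ w % b + q then (1 : ℝ) else 0) ≤ q / b * n + q := by
  have h1 : ((range n).filter (fun w => b ≤ w % b + q)).card ≤
      (range q ×ˢ range (n / b + 1)).card := by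
    refine card_le_card_of_injOn (fun w => (w % b + q - b, w / b)) ?_ ?_
    · intro w hw
      simp only [coe_filter, mem_range, Set.mem_ofPred_eq] at hw
      have := Nat.mod_lt w hb
      have := Nat.div_le_div_right (c := b) hw.1.le
      simp only [coe_product, coe_range, Set.mem_prod, Set.mem_Iio]
      omega
    · intro w hw w' hw' e
      simp only [coe_filter, mem_range, Set.mem_ofPred_eq, Prod.mk.injEq] at hw hw' e
      have h1 := Nat.div_add_mod w b
      have h2 := Nat.div_add_mod w' b
      rw [e.2] at h1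
      omega
  rw [card_product, card_range, card_range] at h1
  rw [sum_boole]
  have h2 : (((range n).filter (fun w => b ≤ w % b + q)).card : ℝ) ≤ q * ((n / b : ℕ) + 1) := by
    exact_mod_cast h1
  have h3 : ((n / b : ℕ) : ℝ) ≤ n / b := Nat.cast_div_le
  have h4 : (q : ℝ) * ((n / b : ℕ) + 1) ≤ q * (n / b + 1) := by gcongr
  refine (h2.trans h4).trans (le_of_eq ?_)
  ring

lemma mean_close (g h : ℕ → Bool) (b q b' q' : ℕ) (hb : 0 < b) (hb' : 0 < b')
    (H : ∀ w, w % b + q < b → w % b' + q' < b' → g w = h w) :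
    |mean g - mean h| ≤ q / b + q' / b' := by
  have key : ∀ g h : ℕ → Bool, (∀ w, w % b + q < b → w % b' + q' < b' → g w = h w) →
      mean g ≤ mean h + (q / b + q' / b') := by
    intro g h H
    refine mean_le g h _ (q + q') fun n => ?_
    have h1 := bad_count b q n hb
    have h2 := bad_count b' q' n hb'
    have h3 : (∑ w ∈ range n, if g w then (1 : ℝ) else 0) ≤
        ∑ w ∈ range n, ((if h w then (1 : ℝ) else 0) + (if b ≤ w % b + q then (1 : ℝ) else 0)
          + (if b' ≤ w % b' + q' then (1 : ℝ) else 0)) := by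
      refine sum_le_sum fun w _ => ?_
      by_cases c1 : b ≤ w % b + q
      · simp only [c1, if_true]; split_ifs <;> norm_num
      by_cases c2 : b' ≤ w % b' + q'
      · simp only [c2, if_true]; split_ifs <;> norm_num
      rw [H w (by omega) (by omega)]
      simp [c1, c2]
    rw [sum_add_distrib, sum_add_distrib] at h3
    linarith
  have a := key g h H
  have a' := key h g fun w h1 h2 => (H w h1 h2).symm
  rw [abs_le]; constructor <;> linarith

lemma mean_const (c : Bool) : mean (fun _ => c) = if c then 1 else 0 := by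
  refine tendsto_nhds_unique (mean_tend _) (tendsto_const_nhds.congr' ?_)
  filter_upwards [hyp_le (eventually_gt_atTop 0)] with n hn
  have hn' : (n : ℝ) ≠ 0 := by exact_mod_cast hn.ne'
  unfold avg
  cases c <;> simp [hn']

noncomputable def f (m : ℕ) : ℝ := mean (fun w => psi (w + m) w)

lemma f_mem (m : ℕ) : f m ∈ Set.Icc (0 : ℝ) 1 := mean_mem _

lemma f_shift (m t M : ℕ) (h : m ≤ M) :
    f (m + t) = mean (fun w => psi (w + M + t) (w + (M - m))) := by
  unfold f
  rw [← mean_shift _ (M - m)]
  congr 1; ext w; congr 1; omega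

lemma f_rigid (k m : ℕ) : |f (m + B k * 3) - f m| ≤ 1 / (k + 1) := by
  have h1 : f (m + B k * 3) = mean (fun w => psi (w + B k * 3) (w - m)) := by
    unfold f; rw [← mean_shift (fun w => psi (w + B k * 3) (w - m)) m]
    congr 1; ext w; congr 1 <;> omega
  have h2 : f m = mean (fun w => psi w (w - m)) := by
    unfold f; rw [← mean_shift (fun w => psi w (w - m)) m]
    congr 1; ext w; congr 1; omega
  rw [h1, h2]
  refine (mean_close _ _ (B (k + 1)) (B k * 3) 1 0 (B_pos _) one_pos fun w hw _ => ?_).trans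
    (le_of_eq ?_)
  · refine psi_congr fun j => ?_
    rcases lt_trichotomy j k with h | h | h
    · obtain ⟨c, hc⟩ := B3_dvd h
      rw [hc, mul_assoc _ c, d_add_mul]
    · subst h
      have := d_add_mul j w 1
      rwa [mul_one] at this
    · exact d_eq_of_div (show k + 1 ≤ j from h) (div_eq_of_lt (B_pos _) hw)
  · have := B_pos k
    simp only [B]; push_cast; field_simp; ring

lemma f_near (k a m : ℕ) (ha : a = 1 ∨ a = 2) :
    |f (B k * a + m) - (if a = 2 then 1 else 0)| ≤ m / B k + ((B k * a + m : ℕ) : ℝ) / B (k + 1) := by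
  have h2 : (if a = 2 then (1 : ℝ) else 0) = mean (fun _ => decide (a = 2)) := by
    rw [mean_const]; simp
  rw [h2]
  refine mean_close _ _ (B k) m (B (k + 1)) _ (B_pos _) (B_pos _) fun w hw hw' => ?_
  rw [psi_eq (L := k + 1) fun j hj => d_eq_of_div hj (div_eq_of_lt (B_pos _) hw')]
  have e : d k (w + (B k * a + m)) = (d k w + a) % 3 := by
    unfold d
    rw [show w + (B k * a + m) = (w + m) + B k * a by ring, Nat.add_mul_div_left _ _ (B_pos k),
      div_eq_of_lt (B_pos k) hw]
    omega
  have h3 : d k w < 3 := Nat.mod_lt _ (by norm_num)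
  simp only [phi, e]
  rw [if_neg (by omega)]
  simp only [decide_eq_decide]
  omega

end Pool.Agent.Lib.helper16.NullT
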