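import Mathlib
import Pool.Agent.Lib.helper16.NullB
set_option autoImplicit false
open Filter Topology Finset

namespace Pool.Agent.Lib.helper16.NullT

lemma count (η : ℝ) (hη : 0 < η) (hη1 : η ≤ 1) (T G : Finset ℕ) (M : ℕ) (hM : 0 < M)
    (hK : (4 * T.card : ℝ) ≤ Real.exp ((η / 16) ^ 2 * M))
    (hG : ∀ m ∈ G, ∀ m' ∈ G, m ≠ m' → ∃ t ∈ T, η ≤ |f (m + t) - f (m' + t)|) :
    G.card ≤ 2 * (5 * T.card + 1) ^ M := by
  classical
  by_cases hT : T = ∅
  · have : G.card ≤ 1 := card_le_one.2 fun a ha b hb => by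
      by_contra h
      obtain ⟨t, ht, -⟩ := hG a ha b hb h
      simp [hT] at ht
    have := Nat.one_le_pow M (5 * T.card + 1) (by omega)
    omega
  have hTc : (0 : ℝ) < T.card := by exact_mod_cast card_pos.2 (nonempty_iff_ne_empty.2 hT)
  set N := G.sup id with hN
  let z : ℕ → ℕ → ℕ → Bool := fun m t w => psi (w + N + t) (w + (N - m))
  have hev : ∀ᶠ n in (hyperfilter ℕ : Filter ℕ), ∀ m ∈ G, ∀ t ∈ T,
      |avg (z m t) n - f (m + t)| < η / 8 := by
    rw [eventually_all_finset]; intro m hm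
    rw [eventually_all_finset]; intro t _
    rw [f_shift m t N (le_sup (f := id) hm)]
    have := Metric.tendsto_nhds.1 (mean_tend (z m t)) (η / 8) (by positivity)
    simpa only [Real.dist_eq] using this
  obtain ⟨n, hn, hn0⟩ := (hev.and (hyp_le (eventually_gt_atTop 0))).exists
  have hn' : (n : ℝ) ≠ 0 := by exact_mod_cast hn0.ne'
  let y0 : ℕ → ℕ → ℕ → ℝ := fun m t w => (if z m t w then 1 else 0) - avg (z m t) n
  let y : ℕ → ℕ × ℕ × Bool → ℝ := fun w i => if i.2.2 then y0 i.1 i.2.1 w else - y0 i.1 i.2.1 w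
  have hy0 : ∀ m t w, |y0 m t w| ≤ 1 := fun m t w => by
    have := avg_mem (z m t) n
    simp only [y0, abs_le]
    split_ifs <;> constructor <;> linarith [this.1, this.2]
  have hs0 : ∀ m t, ∑ w ∈ range n, y0 m t w = 0 := fun m t => by
    simp only [y0, sum_sub_distrib, sum_const, card_range, nsmul_eq_mul, avg]
    field_simp; ring
  set l := η / 16 with hl
  have hl0 : 0 < l := by positivity
  obtain ⟨ω, hω⟩ := greedy (G ×ˢ (T ×ˢ (univ : Finset Bool))) y n hn0 l hl0.le
    (by rw [hl]; linarith)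
    (fun w i => by simp only [y]; split_ifs; exacts [hy0 _ _ _, by rw [abs_neg]; exact hy0 _ _ _])
    (fun i _ => by
      simp only [y]; split_ifs
      · exact hs0 _ _
      · rw [sum_neg_distrib, hs0, neg_zero]) M
  rw [sum_product] at hω
  set E := Real.exp (l ^ 2 * M) with hE
  have hE0 : 0 < E := Real.exp_pos _
  let Φ : ℕ → ℝ := fun m => ∑ i ∈ T ×ˢ (univ : Finset Bool),
    Real.exp (l * ∑ k ∈ range M, y (ω k) (m, i))
  have hΦ : ∑ m ∈ G, Φ m ≤ G.card * (T.card * 2) * E := by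
    refine hω.trans (le_of_eq ?_)
    simp [card_product]
  let G' := G.filter (fun m => Φ m ≤ 4 * T.card * E)
  have hG' : G.card ≤ 2 * G'.card := by
    have h1 := card_filter_add_card_filter_not (s := G) (fun m => Φ m ≤ 4 * T.card * E)
    have h2 : ((G.filter (fun m => ¬ Φ m ≤ 4 * T.card * E)).card : ℝ) * (4 * T.card * E) ≤
        ∑ m ∈ G, Φ m := by
      rw [← nsmul_eq_mul, ← sum_const]
      refine (sum_le_sum fun m hm => (not_le.1 (mem_filter.1 hm).2).le).trans ?_
      exact sum_le_sum_of_subset_of_nonneg (filter_subset _ _) fun m _ _ =>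
        sum_nonneg fun i _ => (Real.exp_pos _).le
    have h3 : ((G.filter (fun m => ¬ Φ m ≤ 4 * T.card * E)).card : ℝ) * 2 ≤ G.card := by
      have h4 := h2.trans hΦ
      have h5 : 0 < T.card * 2 * E := by positivity
      nlinarith
    have h4 : (G.filter (fun m => ¬ Φ m ≤ 4 * T.card * E)).card * 2 ≤ G.card := by
      exact_mod_cast h3
    simp only [G']; omega
  have hb : ∀ m ∈ G', ∀ t ∈ T, |∑ k ∈ range M, y0 m t (ω k)| ≤ η / 8 * M := by
    intro m hm t ht
    have h1 : ∀ s : Bool, l * ∑ k ∈ range M, y (ω k) (m, t, s) ≤ l * (η / 8 * M) := by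
      intro s
      have h2 : Real.exp (l * ∑ k ∈ range M, y (ω k) (m, t, s)) ≤ Φ m :=
        single_le_sum (f := fun i => Real.exp (l * ∑ k ∈ range M, y (ω k) (m, i)))
          (fun i _ => (Real.exp_pos _).le) (mem_product.2 ⟨ht, mem_univ s⟩)
      have h3 := (mem_filter.1 hm).2
      have h4 : 4 * T.card * E ≤ E * E := by gcongr
      rw [hE, ← Real.exp_add] at h4
      have h5 := Real.exp_le_exp.1 ((h2.trans h3).trans h4)
      refine h5.trans (le_of_eq ?_)
      rw [hl]; ring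
    have a := le_of_mul_le_mul_left (h1 true) hl0
    have b := le_of_mul_le_mul_left (h1 false) hl0
    simp only [y, if_true, Bool.false_eq_true, if_false, sum_neg_distrib] at a b
    rw [abs_le]; constructor <;> linarith
  choose S hS1 _ _ hS4 using fun k : Fin M =>
    pat (fun t => ω k + N + t) (2 * (ω k + N) + T.sup id) T
  have hinj : G'.card ≤ (Fintype.piFinset S).card := by
    refine card_le_card_of_injOn (fun m (k : Fin M) => T.filter (fun t => z m t (ω k) = true))
      ?_ ?_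
    · intro m hm
      simp only [mem_coe, Fintype.mem_piFinset]
      intro k
      convert hS4 k (ω k + (N - m)) using 1
      refine filter_congr fun t ht => ?_
      have : t ≤ T.sup id := le_sup (f := id) ht
      simp only [z]
      rw [psi_eq' (L := 2 * (ω k + N) + T.sup id) (by omega)]
    · intro m hm m' hm' e
      by_contra hne
      have hm1 := mem_coe.1 hm
      have hm1' := mem_coe.1 hm'
      obtain ⟨t, ht, hη'⟩ := hG m (mem_filter.1 hm1).1 m' (mem_filter.1 hm1').1 hne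
      have h1 : ∀ k ∈ range M, z m t (ω k) = z m' t (ω k) := by
        intro k hk
        have h2 := congrFun e ⟨k, mem_range.1 hk⟩
        have h3 := congrArg (fun s => t ∈ s) h2
        simp only [mem_filter, ht, true_and, eq_iff_iff] at h3
        exact Bool.eq_iff_iff.2 h3
      have a := hb m hm1 t ht
      have b := hb m' hm1' t ht
      simp only [y0, sum_sub_distrib, sum_const, card_range, nsmul_eq_mul] at a b
      rw [sum_congr rfl fun k hk => by rw [h1 k hk]] at a
      have c := hn m (mem_filter.1 hm1).1 t ht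
      have c' := hn m' (mem_filter.1 hm1').1 t ht
      have hM' : (0 : ℝ) < M := by exact_mod_cast hM
      have e1 : |avg (z m t) n - avg (z m' t) n| ≤ η / 4 := by
        rw [abs_le] at a b ⊢
        constructor <;> nlinarith [a.1, a.2, b.1, b.2]
      rw [abs_lt] at c c'
      rw [abs_le] at e1
      rcases le_abs'.1 hη' with h | h <;> linarith [c.1, c.2, c'.1, c'.2, e1.1, e1.2]
  rw [Fintype.card_piFinset] at hinj
  have : ∏ k : Fin M, (S k).card ≤ (5 * T.card + 1) ^ M := by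
    refine (prod_le_pow_card _ _ (5 * T.card + 1) fun k _ => ?_).trans (by simp)
    have := hS1 k
    split_ifs at this <;> omega
  omega

lemma ev_exp (r : ℕ) (c : ℝ) (hc : 0 < c) :
    ∀ᶠ n : ℕ in atTop, 0 < n.sqrt ∧ (10 * (r * n) + 2 : ℝ) ≤ Real.exp (c * n.sqrt) := by
  obtain ⟨S, hS⟩ := exists_nat_ge (6 * (40 * r + 2) / c ^ 3)
  filter_upwards [eventually_ge_atTop ((S + 1) * (S + 1))] with n hn
  have h1 : S + 1 ≤ n.sqrt := Nat.le_sqrt.2 hn
  have h2 : n < (n.sqrt + 1) * (n.sqrt + 1) := Nat.lt_succ_sqrt n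
  refine ⟨by omega, ?_⟩
  set s := n.sqrt
  have h1' : (S : ℝ) + 1 ≤ s := by exact_mod_cast h1
  have hS0 : (0 : ℝ) ≤ S := Nat.cast_nonneg _
  have h2' : (n : ℝ) ≤ (s + 1) * (s + 1) := by exact_mod_cast h2.le
  have h3 := Real.pow_div_factorial_le_exp (c * s) (by positivity) 3
  refine le_trans ?_ h3
  rw [div_le_iff₀ (by positivity)] at hS
  have hr : (0 : ℝ) ≤ r := Nat.cast_nonneg _
  have h4 : (n : ℝ) ≤ 4 * s ^ 2 := by nlinarith
  have h5 : (10 * (r * n) + 2 : ℝ) ≤ (40 * r + 2) * s ^ 2 := by nlinarith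
  have h6 : 6 * (40 * r + 2 : ℝ) ≤ s * c ^ 3 := by nlinarith [pow_pos hc 3]
  have : (Nat.factorial 3 : ℝ) = 6 := by norm_num [Nat.factorial]
  rw [this, le_div_iff₀ (by norm_num)]
  nlinarith [sq_nonneg (s : ℝ)]

lemma null (η δ : ℝ) (hη : 0 < η) (hδ : 0 < δ) (r : ℕ) : ∀ᶠ n : ℕ in atTop,
    ∀ T G : Finset ℕ, T.card ≤ r * n →
      (∀ m ∈ G, ∀ m' ∈ G, m ≠ m' → ∃ t ∈ T, η ≤ |f (m + t) - f (m' + t)|) →
      (G.card : ℝ) ≤ Real.exp (δ * n) := by
  have hη' : 0 < min η 1 := lt_min hη one_pos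
  filter_upwards [ev_exp r δ hδ, ev_exp r ((min η 1 / 16) ^ 2) (by positivity)] with n h1 h2
  intro T G hT hG
  have hT' : (T.card : ℝ) ≤ r * n := by exact_mod_cast hT
  have h0 : (0 : ℝ) ≤ T.card := Nat.cast_nonneg _
  have h3 := count (min η 1) hη' (min_le_right _ _) T G n.sqrt h1.1
    (le_trans (by linarith) h2.2) fun m hm m' hm' hne => by
      obtain ⟨t, ht, h⟩ := hG m hm m' hm' hne
      exact ⟨t, ht, (min_le_left _ _).trans h⟩
  have h4 : (G.card : ℝ) ≤ 2 * (5 * T.card + 1) ^ n.sqrt := by exact_mod_cast h3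
  have h5 : (2 : ℝ) ≤ 2 ^ n.sqrt := le_self_pow₀ (by norm_num) h1.1.ne'
  calc (G.card : ℝ) ≤ 2 ^ n.sqrt * (5 * T.card + 1) ^ n.sqrt := h4.trans (by gcongr)
    _ = (2 * (5 * T.card + 1)) ^ n.sqrt := by rw [mul_pow]
    _ ≤ (Real.exp (δ * n.sqrt)) ^ n.sqrt := by
        gcongr; exact le_trans (by linarith) h1.2
    _ = Real.exp (δ * (n.sqrt * n.sqrt : ℕ)) := by
        rw [← Real.exp_nat_mul]; push_cast; ring_nf
    _ ≤ Real.exp (δ * n) := by
        gcongr; exact_mod_cast Nat.sqrt_le n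

end Pool.Agent.Lib.helper16.NullT
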