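import Mathlib

namespace Pool.Agent.Lib.helper16.PpA
open Finset Filter Topology

abbrev Ci := AddCircle (1 : ℝ)

/-- number of ordered pairs of distinct indices in `S` whose points are closer than `t` -/
noncomputable def pc (z : ℕ → Ci) (S : Finset ℕ) (t : ℝ) : ℕ :=
  (S.offDiag.filter fun p => dist (z p.1) (z p.2) < t).card

lemma pc_mono (z : ℕ → Ci) {S S' : Finset ℕ} {t t' : ℝ} (hS : S ⊆ S') (ht : t ≤ t') :
    pc z S t ≤ pc z S' t' := by
  refine card_le_card fun p hp => ?_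
  simp only [mem_filter, mem_offDiag] at hp ⊢
  exact ⟨⟨hS hp.1.1, hS hp.1.2.1, hp.1.2.2⟩, hp.2.trans_le ht⟩

lemma kb (z : ℕ → Ci) (S : Finset ℕ) (t : ℝ) (c : Ci) :
    ((S.filter fun l => dist c (z l) < t).card : ℝ) ^ 2 ≤ pc z S (2 * t) + S.card := by
  set T := S.filter fun l => dist c (z l) < t with hT
  have h1 : T.offDiag.card ≤ pc z S (2 * t) := by
    refine card_le_card fun p hp => ?_
    simp only [hT, mem_filter, mem_offDiag] at hp ⊢
    refine ⟨⟨hp.1.1, hp.2.1.1, hp.2.2⟩, ?_⟩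
    have := dist_triangle_left (z p.1) (z p.2) c
    linarith [hp.1.2, hp.2.1.2]
  have h2 : T.card ≤ S.card := card_filter_le _ _
  rw [offDiag_card] at h1
  have h3 : T.card * T.card ≤ pc z S (2 * t) + S.card := by omega
  have h4 : ((T.card * T.card : ℕ) : ℝ) ≤ ((pc z S (2 * t) + S.card : ℕ) : ℝ) := by exact_mod_cast h3
  push_cast at h4
  nlinarith

lemma pert (x y : ℕ → Ci) (S E : Finset ℕ) (t η K : ℝ)
    (h : ∀ n ∈ S, n ∉ E → dist (x n) (y n) ≤ η)
    (hK : ∀ c, ((S.filter fun l => dist c (y l) < t + η).card : ℝ) ≤ K) :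
    (pc x S t : ℝ) ≤ pc y S (t + 2 * η) + 2 * E.card * (K + E.card) := by
  set B : Finset (ℕ × ℕ) := E.biUnion fun k =>
    (E ∪ S.filter fun l => dist (x k) (y l) < t + η).image fun l => (k, l) with hB
  have hb : (B.card : ℝ) ≤ E.card * (K + E.card) := by
    have h1 : B.card ≤ ∑ k ∈ E, (E.card + (S.filter fun l => dist (x k) (y l) < t + η).card) :=
      card_biUnion_le.trans (sum_le_sum fun k _ => card_image_le.trans (card_union_le _ _))
    have h2 : (B.card : ℝ) ≤ ∑ k ∈ E,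
        ((E.card : ℝ) + (S.filter fun l => dist (x k) (y l) < t + η).card) := by exact_mod_cast h1
    refine h2.trans ?_
    calc _ ≤ ∑ _k ∈ E, (K + E.card) := sum_le_sum fun k _ => by linarith [hK (x k)]
      _ = _ := by simp [mul_add]
  have mem : ∀ k l, k ∈ E → l ∈ S → dist (x k) (x l) < t → (k, l) ∈ B := by
    intro k l hk hl hd
    simp only [hB, mem_biUnion, mem_image, mem_union, mem_filter]
    refine ⟨k, hk, l, ?_, rfl⟩
    by_cases hlE : l ∈ E
    · exact Or.inl hlE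
    · refine Or.inr ⟨hl, ?_⟩
      have := dist_triangle (x k) (x l) (y l)
      linarith [h l hl hlE]
  have hsub : (S.offDiag.filter fun p => dist (x p.1) (x p.2) < t) ⊆
      (S.offDiag.filter fun p => dist (y p.1) (y p.2) < t + 2 * η) ∪ (B ∪ B.image Prod.swap) := by
    rintro ⟨k, l⟩ hp
    simp only [mem_filter, mem_offDiag] at hp
    obtain ⟨⟨hk, hl, hne⟩, hd⟩ := hp
    rw [mem_union, mem_union]
    by_cases hkE : k ∈ E
    · exact Or.inr (Or.inl (mem k l hkE hl hd))
    by_cases hlE : l ∈ E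
    · exact Or.inr (Or.inr (mem_image.2 ⟨(l, k), mem l k hlE hk (by rwa [dist_comm]), rfl⟩))
    left
    simp only [mem_filter, mem_offDiag]
    refine ⟨⟨hk, hl, hne⟩, ?_⟩
    have h1 := dist_triangle4 (y k) (x k) (x l) (y l)
    have h2 := h k hk hkE
    rw [dist_comm] at h2
    linarith [h l hl hlE]
  have h3 : pc x S t ≤ pc y S (t + 2 * η) + (B.card + B.card) :=
    (card_le_card hsub).trans ((card_union_le _ _).trans (Nat.add_le_add_left
      ((card_union_le _ _).trans (Nat.add_le_add_left card_image_le _)) _))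
  have h4 : (pc x S t : ℝ) ≤ pc y S (t + 2 * η) + (B.card + B.card) := by exact_mod_cast h3
  linarith

def Bd (z : ℕ → Ci) : Prop :=
  ∀ s : ℝ, ∃ C : ℝ, 0 ≤ C ∧ ∀ᶠ N : ℕ in atTop, (pc z (range N) (s / N) : ℝ) ≤ C * N

lemma up {x y : ℕ → Ci} (h : ∀ n, dist (x n) (y n) ≤ 1 / ((n : ℝ) + 1) ^ 3) (hy : Bd y)
    {s q ε : ℝ} (hq : s < q) (hε : 0 < ε) :
    ∀ᶠ N : ℕ in atTop, (pc x (range N) (s / N) : ℝ) ≤ pc y (range N) (q / N) + ε * N := by
  obtain ⟨C, hC, hN⟩ := hy (2 * q)
  set δ := (q - s) / 2 with hδ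
  have hδ0 : 0 < δ := by rw [hδ]; linarith
  set l := ε / (3 * (C + 1)) with hl
  have hl0 : 0 < l := by positivity
  set e := min (l * ε / 3) (ε / 6) with he
  have he0 : 0 < e := by positivity
  filter_upwards [hN, eventually_gt_atTop 0,
    tendsto_natCast_atTop_atTop.eventually_gt_atTop (1 / (δ ^ 2 * e ^ 3))] with N h1 h2 h3
  have hN0 : (0 : ℝ) < N := by exact_mod_cast h2
  set E := (range N).filter fun n : ℕ => δ / N < 1 / ((n : ℝ) + 1) ^ 3 with hE
  have r3 : δ * (E.card : ℝ) ^ 3 ≤ N := by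
    by_contra hc
    push Not at hc
    have hsub : E ⊆ range (E.card - 1) := by
      intro n hn
      have h4 := (mem_filter.1 hn).2
      rw [div_lt_div_iff₀ hN0 (by positivity)] at h4
      have h5 : ((n : ℝ) + 1) ^ 3 < (E.card : ℝ) ^ 3 := by nlinarith
      have h6 : (n : ℝ) + 1 < E.card := lt_of_pow_lt_pow_left₀ 3 (by positivity) h5
      have h7 : n + 1 < E.card := by exact_mod_cast h6
      exact mem_range.2 (by omega)
    have h8 := card_le_card hsub
    rw [card_range] at h8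
    have h9 : E.card = 0 := by omega
    rw [h9] at hc
    simp at hc
    linarith
  have r2 : (E.card : ℝ) ^ 2 ≤ e * N := by
    by_contra hc
    push Not at hc
    have h4 : (e * N) ^ 3 ≤ ((E.card : ℝ) ^ 2) ^ 3 := pow_le_pow_left₀ (by positivity) hc.le 3
    have h5 : (δ * (E.card : ℝ) ^ 3) ^ 2 ≤ (N : ℝ) ^ 2 := pow_le_pow_left₀ (by positivity) r3 2
    rw [div_lt_iff₀ (by positivity)] at h3
    have h6 : δ ^ 2 * (e * N) ^ 3 ≤ (N : ℝ) ^ 2 := by
      calc _ ≤ δ ^ 2 * ((E.card : ℝ) ^ 2) ^ 3 := by gcongr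
        _ = (δ * (E.card : ℝ) ^ 3) ^ 2 := by ring
        _ ≤ _ := h5
    have h7 : (N : ℝ) ^ 2 * 1 < (N : ℝ) ^ 2 * (N * (δ ^ 2 * e ^ 3)) := by gcongr
    nlinarith
  set K := √((C + 1) * N) with hK
  have hK2 : K ^ 2 = (C + 1) * N := Real.sq_sqrt (by positivity)
  have key := pert x y (range N) E (s / N) (δ / N) K (fun n hn hnE => by
      have : ¬ δ / N < 1 / ((n : ℝ) + 1) ^ 3 := fun h' => hnE (mem_filter.2 ⟨hn, h'⟩)
      exact (h n).trans (not_lt.1 this)) (fun c => by
      apply Real.le_sqrt_of_sq_le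
      refine (kb y (range N) _ c).trans ?_
      have h4 : pc y (range N) (2 * (s / N + δ / N)) ≤ pc y (range N) (2 * q / N) :=
        pc_mono y le_rfl (by
          rw [← add_div, ← mul_div_assoc]
          gcongr
          rw [hδ]; linarith)
      have h5 : (pc y (range N) (2 * (s / N + δ / N)) : ℝ) ≤ pc y (range N) (2 * q / N) := by
        exact_mod_cast h4
      rw [card_range]; linarith)
  have e1 : s / N + 2 * (δ / N) = q / N := by rw [hδ]; field_simp; ring
  rw [e1] at key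
  have a1 : e ≤ l * ε / 3 := min_le_left _ _
  have a2 : e ≤ ε / 6 := min_le_right _ _
  have a3 : l * (C + 1) = ε / 3 := by rw [hl]; field_simp
  have a4 : l * (2 * E.card * K) ≤ l * (2 * ε / 3 * N) := by
    have b1 : 0 ≤ ((E.card : ℝ) - l * K) ^ 2 := sq_nonneg _
    have b2 : l ^ 2 * K ^ 2 = l * (ε / 3) * N := by rw [hK2, ← a3]; ring
    have b3 : e * N ≤ l * ε / 3 * N := by gcongr
    nlinarith
  have a5 := le_of_mul_le_mul_left a4 hl0
  have a6 : e * N ≤ ε / 6 * N := by gcongr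
  nlinarith

def Lim (z : ℕ → Ci) (s : ℝ) : Prop :=
  Tendsto (fun N : ℕ => (pc z (range N) (s / N) : ℝ) / N) atTop (𝓝 (2 * s))

theorem pert_ppc {x y : ℕ → Ci} (h : ∀ n, dist (x n) (y n) ≤ 1 / ((n : ℝ) + 1) ^ 3)
    (hy : ∀ q : ℚ, 0 < q → Lim y q) (s : ℝ) (hs : 0 < s) : Lim x s := by
  have by' : Bd y := by
    intro t
    obtain ⟨q, hq⟩ := exists_rat_gt (max t 0)
    have hq0 : (0 : ℝ) < q := (le_max_right _ _).trans_lt hq
    refine ⟨2 * q + 1, by positivity, ?_⟩
    filter_upwards [(hy q (by exact_mod_cast hq0)).eventually (gt_mem_nhds (lt_add_one _)),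
      eventually_gt_atTop 0] with N h1 h2
    have hN0 : (0 : ℝ) < N := by exact_mod_cast h2
    rw [div_lt_iff₀ hN0] at h1
    have h4 : pc y (range N) (t / N) ≤ pc y (range N) (q / N) :=
      pc_mono y le_rfl (by gcongr; exact (le_max_left _ _).trans hq.le)
    have h5 : (pc y (range N) (t / N) : ℝ) ≤ pc y (range N) (q / N) := by exact_mod_cast h4
    linarith
  have bx : Bd x := by
    intro t
    obtain ⟨C, hC, h1⟩ := by' (t + 1)
    refine ⟨C + 1, by positivity, ?_⟩
    filter_upwards [h1, up h by' (lt_add_one t) one_pos] with N h2 h3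
    linarith
  refine tendsto_order.2 ⟨fun a ha => ?_, fun a ha => ?_⟩
  · obtain ⟨q, hq1, hq2⟩ := exists_rat_btwn (show max (a / 2) 0 < s from max_lt (by linarith) hs)
    have hq0 : (0 : ℝ) < q := (le_max_right _ _).trans_lt hq1
    have hq3 : a / 2 < q := (le_max_left _ _).trans_lt hq1
    filter_upwards [(hy q (by exact_mod_cast hq0)).eventually
      (lt_mem_nhds (show q + a / 2 < 2 * (q : ℝ) by linarith)), eventually_gt_atTop 0,
      up (x := y) (y := x) (fun n => by rw [dist_comm]; exact h n) bx hq2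
        (show 0 < q - a / 2 by linarith)] with N h1 h2 h3
    have hN0 : (0 : ℝ) < N := by exact_mod_cast h2
    rw [lt_div_iff₀ hN0] at h1 ⊢
    linarith
  · obtain ⟨q, hq1, hq2⟩ := exists_rat_btwn (show s < a / 2 by linarith)
    have hq0 : (0 : ℝ) < q := hs.trans hq1
    filter_upwards [(hy q (by exact_mod_cast hq0)).eventually
      (gt_mem_nhds (show 2 * (q : ℝ) < q + a / 2 by linarith)), eventually_gt_atTop 0,
      up h by' hq1 (show 0 < a / 2 - q by linarith)] with N h1 h2 h3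
    have hN0 : (0 : ℝ) < N := by exact_mod_cast h2
    rw [div_lt_iff₀ hN0] at h1 ⊢
    linarith

end Pool.Agent.Lib.helper16.PpA
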