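import Mathlib
import Pool.Agent.Lib.helper16.PpA

namespace Pool.Agent.Lib.helper16.PpB
open Finset Filter Topology MeasureTheory ProbabilityTheory Metric
open Pool.Agent.Lib.helper16.PpA

instance : IsProbabilityMeasure (volume : Measure Ci) := ⟨by simp⟩

open Classical in
lemma cbc {Ω ι : Type} [MeasurableSpace Ω] (μ : Measure Ω) [IsProbabilityMeasure μ]
    (I : ℕ → Finset ι) (A : ℕ → ι → Set Ω) (hA : ∀ m i, MeasurableSet (A m i))
    (hind : ∀ m, ∀ i ∈ I m, ∀ j ∈ I m, i ≠ j →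
      μ.real (A m i ∩ A m j) = μ.real (A m i) * μ.real (A m j))
    (C : ℝ) (hC : ∀ m, ∑ i ∈ I m, μ.real (A m i) ≤ C * ((m : ℝ) + 1) ^ 2) :
    ∀ᵐ ω ∂μ, Tendsto (fun m : ℕ => ((((I m).filter fun i => ω ∈ A m i).card : ℝ) -
      ∑ i ∈ I m, μ.real (A m i)) / ((m : ℝ) + 1) ^ 2) atTop (𝓝 0) := by
  set X : ℕ → ι → Ω → ℝ := fun m i => (A m i).indicator fun _ => 1 with hX
  have hL : ∀ m i, MemLp (X m i) 2 μ := fun m i =>
    memLp_indicator_const 2 (hA m i) 1 (Or.inr (measure_ne_top _ _))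
  have hE : ∀ m i, μ[X m i] = μ.real (A m i) := fun m i => by
    simp only [hX]; rw [integral_indicator_const _ (hA m i)]; simp
  have hcov : ∀ m i j, cov[X m i, X m j; μ] =
      μ.real (A m i ∩ A m j) - μ.real (A m i) * μ.real (A m j) := by
    intro m i j
    rw [covariance_eq_sub (hL m i) (hL m j), hE, hE]
    have : X m i * X m j = (A m i ∩ A m j).indicator fun _ => 1 := by
      ext ω; by_cases h1 : ω ∈ A m i <;> by_cases h2 : ω ∈ A m j <;> simp [hX, h1, h2]
    rw [this, integral_indicator_const _ ((hA m i).inter (hA m j))]; simp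
  have hV : ∀ m, Var[∑ i ∈ I m, X m i; μ] ≤ C * ((m : ℝ) + 1) ^ 2 := by
    intro m
    rw [variance_sum' fun i _ => hL m i]
    refine le_trans (sum_le_sum fun i hi => ?_) (hC m)
    rw [sum_eq_single_of_mem i hi fun j hj hne => by rw [hcov, hind m i hi j hj hne.symm, sub_self],
      hcov, Set.inter_self]
    nlinarith [mul_self_nonneg (μ.real (A m i))]
  have hS : ∀ m, μ[∑ i ∈ I m, X m i] = ∑ i ∈ I m, μ.real (A m i) := by
    intro m
    simp only [Finset.sum_apply]
    rw [integral_finsetSum _ fun i _ => (hL m i).integrable one_le_two]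
    exact sum_congr rfl fun i _ => hE m i
  have hc : ∀ m ω, (∑ i ∈ I m, X m i) ω = (((I m).filter fun i => ω ∈ A m i).card : ℝ) := by
    intro m ω
    simp only [Finset.sum_apply, hX, Set.indicator_apply]
    rw [sum_boole]
  have hC0 : 0 ≤ C := by
    have := (sum_nonneg fun i _ => measureReal_nonneg).trans (hC 0)
    simpa using this
  have main : ∀ j : ℕ, ∀ᵐ ω ∂μ, ∀ᶠ m : ℕ in atTop, ω ∉ {ω | 1 / ((j : ℝ) + 1) * ((m : ℝ) + 1) ^ 2 ≤
      |(∑ i ∈ I m, X m i) ω - μ[∑ i ∈ I m, X m i]|} := by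
    intro j
    apply ae_eventually_notMem
    have hs : Summable fun m : ℕ => C * ((j : ℝ) + 1) ^ 2 * (1 / ((m + 1 : ℕ) : ℝ) ^ 2) :=
      ((summable_nat_add_iff 1).2 (Real.summable_one_div_nat_pow.2 one_lt_two)).mul_left _
    refine ne_top_of_le_ne_top (hs.tsum_ofReal_ne_top) (ENNReal.tsum_le_tsum fun m => ?_)
    refine (meas_ge_le_variance_div_sq (memLp_finsetSum' _ fun i _ => hL m i)
      (by positivity)).trans (ENNReal.ofReal_le_ofReal ?_)
    rw [div_le_iff₀ (by positivity)]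
    refine (hV m).trans (le_of_eq ?_)
    push_cast
    field_simp
  filter_upwards [ae_all_iff.2 main] with ω hω
  refine Metric.tendsto_nhds.2 fun ε hε => ?_
  obtain ⟨j, hj⟩ := exists_nat_one_div_lt hε
  filter_upwards [hω j] with m hm
  simp only [Set.mem_ofPred_eq, not_le] at hm
  rw [hc, hS] at hm
  rw [Real.dist_eq, sub_zero, abs_div, abs_of_pos (show 0 < ((m : ℝ) + 1) ^ 2 by positivity),
    div_lt_iff₀ (by positivity)]
  refine hm.trans_le ?_
  gcongr

abbrev Om := ℕ → Ci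

noncomputable def mu : Measure Om := Measure.infinitePi fun _ => volume

instance : IsProbabilityMeasure mu := by unfold mu; infer_instance

lemma ind : iIndepFun (fun (i : ℕ) (ω : Om) => ω i) mu :=
  iIndepFun_infinitePi (X := fun _ ω => ω) (fun _ => measurable_id)

lemma law (c : ℕ) : mu.map (fun ω => ω c) = volume := Measure.infinitePi_map_eval _ c

noncomputable def vb (t : ℝ) : ℝ := (volume : Measure Ci).real (ball 0 t)

lemma vb_eq {t : ℝ} (h : 0 ≤ t) : vb t = min 1 (2 * t) := by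
  rw [vb, ← measureReal_congr AddCircle.closedBall_ae_eq_ball, measureReal_def,
    AddCircle.volume_closedBall, ENNReal.toReal_ofReal (by positivity)]

lemma vb_le {t : ℝ} (h : 0 ≤ t) : vb t ≤ 2 * t := by rw [vb_eq h]; exact min_le_right _ _

lemma three {c o k l : ℕ} (h1 : c ≠ o) (h2 : c ≠ k) (h3 : c ≠ l) (t t' : ℝ) :
    mu.real ({ω | dist (ω c) (ω o) < t} ∩ {ω | dist (ω k) (ω l) < t'}) =
      vb t * mu.real {ω | dist (ω k) (ω l) < t'} := by
  set V : Om → Ci × Ci × Ci := fun ω => (ω o, ω k, ω l) with hV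
  have mV : Measurable V := by fun_prop
  have hi : IndepFun (fun ω : Om => ω c) V mu := by
    have := iIndepFun.indepFun_finset {c} {o, k, l} (by simp [h1, h2, h3]) ind
      (fun i => measurable_pi_apply i)
    have m1 : Measurable fun f : ({c} : Finset ℕ) → Ci => f ⟨c, by simp⟩ := measurable_pi_apply _
    have m2 : Measurable fun f : ({o, k, l} : Finset ℕ) → Ci =>
        (f ⟨o, by simp⟩, f ⟨k, by simp⟩, f ⟨l, by simp⟩) := by fun_prop
    exact this.comp m1 m2
  set T : Set (Ci × Ci × Ci) := {v | dist v.2.1 v.2.2 < t'} with hT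
  have mT : MeasurableSet T := (isOpen_lt (by fun_prop) (by fun_prop)).measurableSet
  set W : Set (Ci × (Ci × Ci × Ci)) := {p | dist p.1 p.2.1 < t} ∩ Prod.snd ⁻¹' T with hW
  have mW : MeasurableSet W :=
    (measurableSet_lt (measurable_fst.dist measurable_snd.fst) measurable_const).inter
      (mT.preimage measurable_snd)
  have e1 : mu ({ω | dist (ω c) (ω o) < t} ∩ {ω | dist (ω k) (ω l) < t'}) =
      mu.map (fun ω => (ω c, V ω)) W := by
    rw [Measure.map_apply (by fun_prop) mW]; rfl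
  have e2 : mu {ω | dist (ω k) (ω l) < t'} = mu.map V T := by
    rw [Measure.map_apply mV mT]; rfl
  haveI : IsProbabilityMeasure (mu.map V) := Measure.isProbabilityMeasure_map mV.aemeasurable
  rw [measureReal_def, measureReal_def, vb, measureReal_def, ← ENNReal.toReal_mul, e1, e2,
    hi.map_prod_eq_prod_map_map (measurable_pi_apply c).aemeasurable mV.aemeasurable, law,
    Measure.prod_apply_symm mW, ← lintegral_indicator_const mT]
  congr 1
  refine lintegral_congr fun v => ?_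
  by_cases hv : v ∈ T
  · rw [Set.indicator_of_mem hv, ← Measure.addHaar_ball_center volume v.1 t]
    congr 1
    ext u; simp [hW, hv]
  · rw [Set.indicator_of_notMem hv]
    have : (fun u => (u, v)) ⁻¹' W = ∅ := by ext u; simp [hW, hv]
    rw [this, measure_empty]

lemma one {c o : ℕ} (h1 : c ≠ o) (t : ℝ) : mu.real {ω | dist (ω c) (ω o) < t} = vb t := by
  have := three h1 h1 h1 t 1
  simpa using this

lemma pair {p q : ℕ × ℕ} (hp : p.1 < p.2) (hq : q.1 < q.2) (h : p ≠ q) (t : ℝ) :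
    mu.real ({ω | dist (ω p.1) (ω p.2) < t} ∩ {ω | dist (ω q.1) (ω q.2) < t}) =
      mu.real {ω | dist (ω p.1) (ω p.2) < t} * mu.real {ω | dist (ω q.1) (ω q.2) < t} := by
  obtain ⟨a, b⟩ := p
  obtain ⟨c, d⟩ := q
  simp only [ne_eq, Prod.mk.injEq] at hp hq h ⊢
  rw [one hp.ne]
  by_cases h1 : a ≠ c ∧ a ≠ d
  · exact three hp.ne h1.1 h1.2 t t
  by_cases h2 : b ≠ c ∧ b ≠ d
  · simp_rw [dist_comm (_ : Ci) ((_ : Om) b)]
    exact three hp.ne' h2.1 h2.2 t t
  omega

lemma pc_two (z : ℕ → Ci) (S : Finset ℕ) (t : ℝ) :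
    pc z S t = 2 * (((S ×ˢ S).filter fun p => p.1 < p.2).filter
      fun p => dist (z p.1) (z p.2) < t).card := by
  set J := ((S ×ˢ S).filter fun p => p.1 < p.2).filter
      fun p => dist (z p.1) (z p.2) < t with hJ
  have e : (S.offDiag.filter fun p => dist (z p.1) (z p.2) < t) = J ∪ J.image Prod.swap := by
    ext ⟨k, l⟩
    simp only [hJ, mem_filter, mem_offDiag, mem_union, mem_image, mem_product, Set.mem_ofPred_eq,
      Prod.exists, Prod.swap_prod_mk, Prod.mk.injEq]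
    constructor
    · rintro ⟨⟨h1, h2, h3⟩, h4⟩
      rcases lt_or_gt_of_ne h3 with h | h
      · exact Or.inl ⟨⟨⟨h1, h2⟩, h⟩, h4⟩
      · exact Or.inr ⟨l, k, ⟨⟨⟨h2, h1⟩, h⟩, by rwa [dist_comm]⟩, rfl, rfl⟩
    · rintro (⟨⟨⟨h1, h2⟩, h⟩, h4⟩ | ⟨a, b, ⟨⟨⟨h1, h2⟩, h⟩, h4⟩, rfl, rfl⟩)
      · exact ⟨⟨h1, h2, h.ne⟩, h4⟩
      · exact ⟨⟨h2, h1, h.ne'⟩, by rwa [dist_comm]⟩
  rw [pc, e, card_union_of_disjoint, card_image_of_injective _ Prod.swap_injective, two_mul]
  rw [disjoint_left]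
  rintro ⟨k, l⟩ h1 h2
  simp only [hJ, mem_filter, mem_image, Prod.exists, Prod.swap_prod_mk, Prod.mk.injEq] at h1 h2
  obtain ⟨a, b, h3, rfl, rfl⟩ := h2
  have := h1.1.2
  have := h3.1.2
  omega

lemma card_lt (S : Finset ℕ) :
    2 * (((S ×ˢ S).filter fun p => p.1 < p.2).card : ℝ) = (S.card : ℝ) ^ 2 - S.card := by
  have h := pc_two (fun _ => 0) S 1
  simp only [pc, dist_self, zero_lt_one, filter_true, Set.mem_ofPred_eq, offDiag_card] at h
  have h2 : S.card ≤ S.card * S.card := Nat.le_mul_self _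
  have h3 : ((S.card * S.card - S.card : ℕ) : ℝ) =
    ((2 * ((S ×ˢ S).filter fun p => p.1 < p.2).card : ℕ) : ℝ) := by rw [h]
  rw [Nat.cast_sub h2] at h3
  push_cast at h3
  linarith

lemma ratio (u v : ℕ) : Tendsto (fun m : ℕ => (((m : ℝ) + u) / (m + v)) ^ 2) atTop (𝓝 1) := by
  have := (tendsto_add_mul_div_add_mul_atTop_nhds (u : ℝ) v 1 (one_ne_zero)).pow 2
  simpa [add_comm] using this

lemma inv0 (v : ℕ) : Tendsto (fun m : ℕ => 1 / ((m : ℝ) + v) ^ 2) atTop (𝓝 0) :=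
  tendsto_const_nhds.div_atTop ((tendsto_pow_atTop two_ne_zero).comp
    (tendsto_atTop_add_const_right _ _ tendsto_natCast_atTop_atTop))

lemma sqb (s : ℝ) (hs : 0 ≤ s) (m v : ℕ) :
    ((m : ℝ) + 1) ^ 2 * (s / ((m : ℝ) + v) ^ 2) ≤ 4 * s := by
  rcases Nat.eq_zero_or_pos (m + v) with h | h
  · have : (m : ℝ) + v = 0 := by exact_mod_cast h
    rw [this]; simp; positivity
  · have h1 : (1 : ℝ) ≤ m + v := by exact_mod_cast h
    have h2 : (0 : ℝ) ≤ v := by positivity
    rw [← mul_div_assoc, div_le_iff₀ (by positivity)]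
    have : ((m : ℝ) + 1) ^ 2 ≤ (2 * (m + v)) ^ 2 := pow_le_pow_left₀ (by positivity) (by linarith) 2
    nlinarith

lemma free (S : ℕ → Finset ℕ) (hS : ∀ m, ((S m).card : ℝ) ≤ ((m : ℝ) + 1) ^ 2)
    (hl : Tendsto (fun m : ℕ => ((S m).card : ℝ) / ((m : ℝ) + 1) ^ 2) atTop (𝓝 1))
    (s : ℝ) (hs : 0 < s) (v : ℕ) :
    ∀ᵐ ω ∂mu, Tendsto (fun m : ℕ => (pc ω (S m) (s / ((m : ℝ) + v) ^ 2) : ℝ) / ((m : ℝ) + 1) ^ 2)
      atTop (𝓝 (2 * s)) := by
  have hsum : ∀ m : ℕ, ∑ p ∈ ((S m ×ˢ S m).filter fun p => p.1 < p.2),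
      mu.real {ω | dist (ω p.1) (ω p.2) < s / ((m : ℝ) + v) ^ 2} =
      (((S m).card : ℝ) ^ 2 - (S m).card) / 2 * vb (s / ((m : ℝ) + v) ^ 2) := by
    intro m
    rw [sum_congr rfl fun p hp => one (mem_filter.1 hp).2.ne _, sum_const, nsmul_eq_mul,
      ← card_lt]
    ring
  have h := cbc mu (fun m => (S m ×ˢ S m).filter fun p => p.1 < p.2)
    (fun m p => {ω | dist (ω p.1) (ω p.2) < s / ((m : ℝ) + v) ^ 2})
    (fun m p => (isOpen_lt (by fun_prop) (by fun_prop)).measurableSet)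
    (fun m p hp q hq hne => by
      rw [mem_filter] at hp hq
      exact pair hp.2 hq.2 hne _) (4 * s) (by
      intro m
      rw [hsum]
      have h1 := vb_le (show 0 ≤ s / ((m : ℝ) + v) ^ 2 by positivity)
      have h2 := sqb s hs.le m v
      have h3 : ((S m).card : ℝ) ^ 2 ≤ (((m : ℝ) + 1) ^ 2) ^ 2 :=
        pow_le_pow_left₀ (by positivity) (hS m) 2
      have h4 : (0 : ℝ) ≤ vb (s / ((m : ℝ) + v) ^ 2) := measureReal_nonneg
      have h5 : (0 : ℝ) ≤ (S m).card := by positivity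
      calc _ ≤ (((m : ℝ) + 1) ^ 2) ^ 2 / 2 * vb (s / ((m : ℝ) + v) ^ 2) := by gcongr; linarith
        _ ≤ (((m : ℝ) + 1) ^ 2) ^ 2 / 2 * (2 * (s / ((m : ℝ) + v) ^ 2)) := by gcongr
        _ = (((m : ℝ) + 1) ^ 2 * (s / ((m : ℝ) + v) ^ 2)) * ((m : ℝ) + 1) ^ 2 := by ring
        _ ≤ _ := by gcongr)
  filter_upwards [h] with ω hω
  have l1 := (((hl.pow 2).sub (hl.mul (inv0 1))).mul (ratio 1 v)).const_mul (2 * s)
  have l2 := (hω.const_mul 2).add l1
  simp only [one_pow, mul_zero, sub_zero, mul_one, zero_add] at l2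
  refine l2.congr' ?_
  filter_upwards [((inv0 v).const_mul s).eventually (gt_mem_nhds (show s * 0 < 1 / 2 by norm_num)),
    eventually_gt_atTop 0] with m hm hm0
  have h0 : (0 : ℝ) < m := by exact_mod_cast hm0
  rw [mul_one_div] at hm
  rw [hsum, vb_eq (by positivity), min_eq_right (by linarith), pc_two]
  rw [filter_congr_decidable]
  generalize (((S m ×ˢ S m).filter fun p => p.1 < p.2).filter
      fun p => dist (ω p.1) (ω p.2) < s / ((m : ℝ) + v) ^ 2).card = c
  push_cast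
  field_simp
  ring

open Classical in
lemma cross (G : ℕ → Finset ℕ) (z : ℕ → Ci)
    (hl : Tendsto (fun m : ℕ => ((G m).card : ℝ) / ((m : ℝ) + 1) ^ 2) atTop (𝓝 0))
    (s : ℝ) (hs : 0 < s) :
    ∀ᵐ ω ∂mu, Tendsto (fun m : ℕ => (((range ((m + 1) ^ 2)).filter fun k =>
      ω k ∈ ⋃ l ∈ G m, ball (z l) (s / (m : ℝ) ^ 2)).card : ℝ) / ((m : ℝ) + 1) ^ 2) atTop (𝓝 0) := by
  set D : ℕ → Set Ci := fun m => ⋃ l ∈ G m, ball (z l) (s / (m : ℝ) ^ 2) with hD
  have mD : ∀ m, MeasurableSet (D m) := fun m =>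
    (isOpen_biUnion fun _ _ => isOpen_ball).measurableSet
  have h1 : ∀ m k, mu.real ((fun ω : Om => ω k) ⁻¹' D m) = volume.real (D m) := by
    intro m k
    rw [← law k, map_measureReal_apply (measurable_pi_apply k) (mD m)]
  have hsum : ∀ m : ℕ, ∑ k ∈ range ((m + 1) ^ 2), mu.real ((fun ω : Om => ω k) ⁻¹' D m) =
      ((m : ℝ) + 1) ^ 2 * volume.real (D m) := by
    intro m
    simp [h1]
  have h := cbc mu (fun m => range ((m + 1) ^ 2)) (fun m k => (fun ω : Om => ω k) ⁻¹' D m)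
    (fun m k => (mD m).preimage (measurable_pi_apply k))
    (fun m k _ l _ hne => by
      rw [measureReal_def, (ind.indepFun hne).measure_inter_preimage_eq_mul _ _ (mD m) (mD m),
        ENNReal.toReal_mul]; rfl) 1 (by
      intro m
      rw [hsum, one_mul]
      exact mul_le_of_le_one_right (by positivity) measureReal_le_one)
  have l1 : Tendsto (fun m => volume.real (D m)) atTop (𝓝 0) := by
    have l2 := (hl.mul (ratio 1 0)).const_mul (2 * s)
    simp only [zero_mul, mul_zero] at l2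
    refine squeeze_zero' (Eventually.of_forall fun _ => measureReal_nonneg) ?_ l2
    filter_upwards [eventually_gt_atTop 0] with m hm0
    have h0 : (0 : ℝ) < m := by exact_mod_cast hm0
    refine (measureReal_biUnion_finset_le _ _).trans ?_
    calc _ ≤ ∑ _l ∈ G m, 2 * (s / (m : ℝ) ^ 2) := sum_le_sum fun l _ => by
          rw [measureReal_def, Measure.addHaar_ball_center]
          exact vb_le (by positivity)
      _ = _ := by
          rw [sum_const, nsmul_eq_mul]; push_cast; field_simp; ring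
  filter_upwards [h] with ω hω
  have l3 := hω.add l1
  rw [add_zero] at l3
  refine l3.congr fun m => ?_
  rw [hsum]
  field_simp
  simp only [Set.mem_preimage]
  ring

end Pool.Agent.Lib.helper16.PpB
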