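import Mathlib
import Pool.Agent.Lib.helper16.PpB

namespace Pool.Agent.Lib.helper16.PpC
open Finset Filter Topology MeasureTheory Metric
open Pool.Agent.Lib.helper16.PpA Pool.Agent.Lib.helper16.PpB

lemma split (B : ℕ → Prop) [DecidablePred B] (z ω : ℕ → Ci) (N : ℕ) (t : ℝ) (ht : 0 ≤ t)
    (T : Finset ℕ)
    (hsep : ∀ k l, B k → B l → k < N → l < N → k ≠ l → 2 * t ≤ dist (z k) (z l))
    (hT : ∀ k l, k < N → l < N → B l → dist (ω k) (z l) < t → k ∈ T) :
    pc (fun n => if B n then z n else ω n) (range N) t ≤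
      pc ω ((range N).filter fun n => ¬ B n) t + 2 * T.card := by
  set J : Finset (ℕ × ℕ) := (range N ×ˢ range N).filter
    fun p => B p.2 ∧ dist (ω p.1) (z p.2) < t with hJ
  have h1 : J.card ≤ T.card := by
    refine card_le_card_of_injOn Prod.fst (fun p hp => ?_) ?_
    · simp only [hJ, coe_filter, mem_product, mem_range, Set.mem_ofPred_eq] at hp
      exact hT _ _ hp.1.1 hp.1.2 hp.2.1 hp.2.2
    · rintro ⟨a, b⟩ hp ⟨c, d⟩ hq h
      simp only [hJ, coe_filter, mem_product, mem_range, Set.mem_ofPred_eq] at hp hq h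
      subst h
      by_contra hne
      have hbd : b ≠ d := fun h => hne (by rw [h])
      have := hsep b d hp.2.1 hq.2.1 hp.1.2 hq.1.2 hbd
      have := dist_triangle_left (z b) (z d) (ω a)
      linarith [hp.2.2, hq.2.2]
  have hsub : ((range N).offDiag.filter fun p => dist (if B p.1 then z p.1 else ω p.1)
      (if B p.2 then z p.2 else ω p.2) < t) ⊆ (((range N).filter fun n => ¬ B n).offDiag.filter
        fun p => dist (ω p.1) (ω p.2) < t) ∪ (J ∪ J.image Prod.swap) := by
    rintro ⟨k, l⟩ hp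
    simp only [mem_filter, mem_offDiag, mem_range] at hp
    obtain ⟨⟨hk, hl, hne⟩, hd⟩ := hp
    rw [mem_union, mem_union]
    by_cases h2 : B k <;> by_cases h3 : B l <;> simp only [h2, h3, if_true, if_false] at hd
    · have := hsep k l h2 h3 hk hl hne
      linarith
    · exact Or.inr (Or.inr (mem_image.2 ⟨(l, k), by
        simp only [hJ, mem_filter, mem_product, mem_range]
        exact ⟨⟨hl, hk⟩, h2, by rwa [dist_comm]⟩, rfl⟩))
    · exact Or.inr (Or.inl (by
        simp only [hJ, mem_filter, mem_product, mem_range]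
        exact ⟨⟨hk, hl⟩, h3, hd⟩))
    · left
      simp only [mem_filter, mem_offDiag, mem_range]
      exact ⟨⟨⟨hk, h2⟩, ⟨hl, h3⟩, hne⟩, hd⟩
  have h4 := (card_le_card hsub).trans ((card_union_le _ _).trans (Nat.add_le_add_left
      ((card_union_le _ _).trans (Nat.add_le_add_left card_image_le _)) _))
  unfold pc
  beta_reduce
  omega

open Classical in
theorem exists_ppc (B : ℕ → Prop) [DecidablePred B] (z : ℕ → Ci)
    (hd : Tendsto (fun N : ℕ => (((range N).filter B).card : ℝ) / N) atTop (𝓝 0))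
    (hsep : ∀ s : ℝ, ∀ᶠ N : ℕ in atTop,
      ∀ k l, B k → B l → k < N → l < N → k ≠ l → s / N ≤ dist (z k) (z l)) :
    ∃ y : ℕ → Ci, (∀ n, B n → y n = z n) ∧ ∀ q : ℚ, 0 < q → Lim y q := by
  have tsq : ∀ u : ℕ, Tendsto (fun m : ℕ => (m + u) ^ 2) atTop atTop := fun u =>
    (tendsto_pow_atTop two_ne_zero).comp (tendsto_add_atTop_nat u)
  have hg : ∀ u : ℕ, Tendsto (fun m : ℕ => (((range ((m + u) ^ 2)).filter B).card : ℝ) /
      ((m : ℝ) + 1) ^ 2) atTop (𝓝 0) := by
    intro u
    have := (hd.comp (tsq u)).mul (ratio u 1)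
    rw [zero_mul] at this
    refine this.congr' ?_
    filter_upwards [eventually_gt_atTop 0] with m hm
    have h0 : (0 : ℝ) < m := by exact_mod_cast hm
    simp only [Function.comp]
    push_cast
    field_simp
  have hf : ∀ u : ℕ, Tendsto (fun m : ℕ => (((range ((m + u) ^ 2)).filter fun n => ¬ B n).card : ℝ) /
      ((m : ℝ) + 1) ^ 2) atTop (𝓝 1) := by
    intro u
    have := (ratio u 1).sub (hg u)
    rw [sub_zero] at this
    refine this.congr fun m => ?_
    have h1 := card_filter_add_card_filter_not (s := range ((m + u) ^ 2)) B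
    rw [card_range] at h1
    have h2 : ((((range ((m + u) ^ 2)).filter B).card : ℝ) +
      (((range ((m + u) ^ 2)).filter fun n => ¬ B n).card : ℝ)) = ((m : ℝ) + u) ^ 2 := by
      exact_mod_cast h1
    rw [div_pow, ← h2]
    push_cast
    ring
  have hb : ∀ u : ℕ, u ≤ 1 → ∀ m : ℕ, (((range ((m + u) ^ 2)).filter fun n => ¬ B n).card : ℝ) ≤
      ((m : ℝ) + 1) ^ 2 := by
    intro u hu m
    have : ((range ((m + u) ^ 2)).filter fun n => ¬ B n).card ≤ (m + 1) ^ 2 :=
      (card_filter_le _ _).trans (by rw [card_range]; gcongr)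
    exact_mod_cast this
  have all := ae_all_iff.2 fun q : {q : ℚ // 0 < q} =>
    (free _ (hb 1 le_rfl) (hf 1) q (by exact_mod_cast q.2) 0).and
      ((free _ (hb 0 zero_le_one) (hf 0) q (by exact_mod_cast q.2) 1).and
        (cross _ z (hg 1) q (by exact_mod_cast q.2)))
  obtain ⟨ω, hω⟩ := all.exists
  refine ⟨fun n => if B n then z n else ω n, fun n hn => by simp [hn], fun q hq => ?_⟩
  obtain ⟨h1, h2, h3⟩ := hω ⟨q, hq⟩
  have hq0 : (0 : ℝ) < q := by exact_mod_cast hq
  have tr : Tendsto Nat.sqrt atTop atTop :=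
    tendsto_atTop_atTop.2 fun b => ⟨b * b, fun a ha => Nat.le_sqrt.2 ha⟩
  have hu := ((h1.add (h3.const_mul 2)).mul (ratio 1 0)).comp tr
  simp only [mul_zero, add_zero, mul_one] at hu
  refine tendsto_of_tendsto_of_tendsto_of_le_of_le' (h2.comp tr) hu ?_ ?_
  · filter_upwards [eventually_gt_atTop 0] with N hN
    have hN0 : (0 : ℝ) < N := by exact_mod_cast hN
    have a1 : N.sqrt ^ 2 ≤ N := Nat.sqrt_le' N
    have a2 : (N : ℝ) ≤ ((N.sqrt : ℝ) + 1) ^ 2 := by exact_mod_cast (Nat.lt_succ_sqrt' N).le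
    simp only [Function.comp]
    have a3 : pc ω ((range ((N.sqrt + 0) ^ 2)).filter fun n => ¬ B n)
        (q / ((N.sqrt : ℝ) + (1 : ℕ)) ^ 2) ≤
        pc (fun n => if B n then z n else ω n) (range N) (q / N) := by
      refine card_le_card fun p hp => ?_
      simp only [mem_filter, mem_offDiag, mem_range, add_zero] at hp ⊢
      obtain ⟨⟨⟨b1, b2⟩, ⟨b3, b4⟩, b5⟩, b6⟩ := hp
      refine ⟨⟨by omega, by omega, b5⟩, ?_⟩
      rw [if_neg b2, if_neg b4]
      refine b6.trans_le ?_
      push_cast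
      gcongr
    gcongr
  · filter_upwards [eventually_gt_atTop 0, hsep (2 * q)] with N hN hs
    have hN0 : (0 : ℝ) < N := by exact_mod_cast hN
    have a0 : (0 : ℝ) < N.sqrt := by exact_mod_cast Nat.sqrt_pos.2 hN
    have a1 : (N.sqrt : ℝ) ^ 2 ≤ N := by exact_mod_cast Nat.sqrt_le' N
    have a2 : N < (N.sqrt + 1) ^ 2 := Nat.lt_succ_sqrt' N
    have a4 : (q : ℝ) / N ≤ q / (N.sqrt : ℝ) ^ 2 := by gcongr
    simp only [Function.comp]
    generalize hT : ((range ((N.sqrt + 1) ^ 2)).filter fun k => ω k ∈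
      ⋃ l ∈ (range ((N.sqrt + 1) ^ 2)).filter B, ball (z l) (q / (N.sqrt : ℝ) ^ 2)) = T
    have a3 := split B z ω N (q / N) (by positivity) T (by simpa [mul_div_assoc] using hs) (by
      intro k l hk hl hB hkl
      rw [← hT]
      simp only [mem_filter, mem_range, Set.mem_iUnion, mem_ball]
      exact ⟨by omega, l, ⟨by omega, hB⟩, hkl.trans_le a4⟩)
    have a5 := pc_mono ω (t := q / N) (t' := q / ((N.sqrt : ℝ) + (0 : ℕ)) ^ 2)
      (filter_subset_filter (fun n => ¬ B n) (range_subset_range.2 a2.le)) (by simpa using a4)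
    have a6 : (pc (fun n => if B n then z n else ω n) (range N) (q / N) : ℝ) ≤
        pc ω ((range ((N.sqrt + 1) ^ 2)).filter fun n => ¬ B n)
          (q / ((N.sqrt : ℝ) + (0 : ℕ)) ^ 2) + 2 * T.card := by
      exact_mod_cast a3.trans (Nat.add_le_add_right a5 _)
    calc _ ≤ ((pc ω ((range ((N.sqrt + 1) ^ 2)).filter fun n => ¬ B n)
          (q / ((N.sqrt : ℝ) + (0 : ℕ)) ^ 2) : ℝ) + 2 * T.card) / (N.sqrt : ℝ) ^ 2 := by gcongr
      _ = _ := by
        generalize pc ω _ _ = c
        push_cast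
        field_simp
        ring

end Pool.Agent.Lib.helper16.PpC
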