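import Mathlib
import Pool.Agent.Lib.helper16.PpA

namespace Pool.Agent.Lib.helper16.PpD
open Finset Filter Topology MeasureTheory
open Pool.Agent.Lib.helper16.PpA

lemma bc2 (W c V : ℕ → ℕ) (S : ℕ → Finset ℤ) (hW : ∀ k, 0 < W k)
    (hrec : ∀ k, W (k + 1) = W k * (c k * V k)) (hS : ∀ k, S k ⊆ Ico 0 (V k : ℤ))
    (hdiv : Tendsto (fun n => ∑ k ∈ range n, ((S k).card : ℝ) / V k) atTop atTop) :
    ∀ᵐ α : ℝ, ∃ᶠ k in atTop, ⌊(W (k + 1) : ℝ) * α⌋ % V k ∈ S k := by
  set s : ℕ → ℝ := fun n => ∑ k ∈ range n, ((S k).card : ℝ) / V k with hs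
  have key : ∀ (m : ℕ) (i : ℤ), volume {α : ℝ | ⌊(W m : ℝ) * α⌋ = i ∧
      ∀ k, m ≤ k → ⌊(W (k + 1) : ℝ) * α⌋ % V k ∉ S k} = 0 := by
    intro m i
    set Z := {α : ℝ | ⌊(W m : ℝ) * α⌋ = i ∧ ∀ k, m ≤ k → ⌊(W (k + 1) : ℝ) * α⌋ % V k ∉ S k} with hZ
    have h1 : ∀ n, m ≤ n → ∃ T : Finset ℤ, (T.card : ℝ) ≤ W n * Real.exp (s m - s n) ∧
        ∀ α ∈ Z, ⌊(W n : ℝ) * α⌋ ∈ T := by
      intro n hn
      induction n, hn using Nat.le_induction with
      | base =>
        refine ⟨{i}, ?_, fun α hα => by simp [hα.1]⟩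
        have : (1 : ℝ) ≤ W m := by exact_mod_cast hW m
        simpa using this
      | succ n hn ih =>
        obtain ⟨T, hT, hm⟩ := ih
        have hp := hW (n + 1)
        rw [hrec] at hp
        have hc : 0 < c n := Nat.pos_of_mul_pos_right (Nat.pos_of_mul_pos_left hp)
        have hV : 0 < V n := Nat.pos_of_mul_pos_left (Nat.pos_of_mul_pos_left hp)
        have hV' : (0 : ℝ) < V n := by exact_mod_cast hV
        refine ⟨(T ×ˢ (Ico (0 : ℤ) (c n) ×ˢ (Ico (0 : ℤ) (V n) \ S n))).image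
          fun p => p.1 * (c n * V n) + (p.2.1 * V n + p.2.2), ?_, fun α hα => ?_⟩
        · have a1 := card_image_le (s := T ×ˢ (Ico (0 : ℤ) (c n) ×ˢ (Ico (0 : ℤ) (V n) \ S n)))
            (f := fun p => p.1 * (c n * V n : ℤ) + (p.2.1 * V n + p.2.2))
          have a2 := card_le_card (hS n)
          rw [card_product, card_product, card_sdiff_of_subset (hS n)] at a1
          simp only [Int.card_Ico, sub_zero, Int.toNat_natCast] at a1 a2
          have a3 := (Nat.cast_le (α := ℝ)).2 a1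
          rw [Nat.cast_mul, Nat.cast_mul, Nat.cast_sub a2] at a3
          refine a3.trans ?_
          have a4 : (V n : ℝ) - (S n).card ≤ V n * Real.exp (-(((S n).card : ℝ) / V n)) := by
            have := Real.add_one_le_exp (-(((S n).card : ℝ) / V n))
            calc _ = V n * (-(((S n).card : ℝ) / V n) + 1) := by field_simp; ring
              _ ≤ _ := by gcongr
          have a5 : s m - s (n + 1) = (s m - s n) + -(((S n).card : ℝ) / V n) := by
            simp only [hs, sum_range_succ]; ring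
          have a6 : (0 : ℝ) ≤ (V n : ℝ) - (S n).card := by
            rw [sub_nonneg]; exact_mod_cast a2
          rw [a5, Real.exp_add, hrec]
          push_cast
          calc _ ≤ (W n * Real.exp (s m - s n)) *
                (c n * (V n * Real.exp (-(((S n).card : ℝ) / V n)))) := by gcongr
            _ = _ := by ring
        · set x := ⌊(W (n + 1) : ℝ) * α⌋ with hx
          have b1 : x / ((c n * V n : ℕ) : ℤ) = ⌊(W n : ℝ) * α⌋ := by
            rw [hx, ← Int.floor_div_natCast, hrec]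
            congr 1
            have : (c n : ℝ) ≠ 0 := by exact_mod_cast hc.ne'
            push_cast
            field_simp
          have hV'' : (0 : ℤ) < V n := by exact_mod_cast hV
          have hR : (0 : ℤ) < c n * V n := by exact_mod_cast Nat.mul_pos hc hV
          push_cast at b1
          refine mem_image.2 ⟨(x / (c n * V n), (x % (c n * V n)) / V n, x % V n), ?_, ?_⟩
          · simp only [mem_product, mem_Ico, Finset.mem_sdiff]
            refine ⟨b1 ▸ hm α hα, ⟨Int.ediv_nonneg (Int.emod_nonneg _ hR.ne') hV''.le,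
              Int.ediv_lt_of_lt_mul hV'' (Int.emod_lt_of_pos _ hR)⟩,
              ⟨Int.emod_nonneg _ hV''.ne', Int.emod_lt_of_pos _ hV''⟩, hα.2 n hn⟩
          · have b2 := Int.ediv_mul_add_emod x (c n * V n)
            have b3 := Int.ediv_mul_add_emod (x % (c n * V n)) (V n)
            rw [Int.emod_emod_of_dvd _ (dvd_mul_left _ _)] at b3
            simp only
            linarith
    have h2 : ∀ n, m ≤ n → volume Z ≤ ENNReal.ofReal (Real.exp (s m - s n)) := by
      intro n hn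
      obtain ⟨T, hT, hm⟩ := h1 n hn
      have hW' : (0 : ℝ) < W n := by exact_mod_cast hW n
      have hsub : Z ⊆ ⋃ j ∈ T, Set.Icc ((j : ℝ) / W n) ((j + 1) / W n) := by
        intro α hα
        simp only [Set.mem_iUnion]
        refine ⟨_, hm α hα, ?_, ?_⟩
        · rw [div_le_iff₀' hW']; exact Int.floor_le _
        · rw [le_div_iff₀' hW']; exact (Int.lt_floor_add_one _).le
      refine (measure_mono hsub).trans ((measure_biUnion_finset_le _ _).trans ?_)
      have e : ∀ j : ℤ, volume (Set.Icc ((j : ℝ) / W n) ((j + 1) / W n)) =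
          ENNReal.ofReal (1 / W n) := fun j => by
        rw [Real.volume_Icc]; congr 1; ring
      simp_rw [e]
      rw [← ENNReal.ofReal_sum_of_nonneg fun _ _ => by positivity]
      refine ENNReal.ofReal_le_ofReal ?_
      rw [sum_const, nsmul_eq_mul, mul_one_div, div_le_iff₀' hW']
      exact hT
    have h3 : Tendsto (fun n => ENNReal.ofReal (Real.exp (s m - s n))) atTop (𝓝 0) := by
      rw [← ENNReal.ofReal_zero]
      exact ENNReal.tendsto_ofReal (Real.tendsto_exp_atBot.comp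
        (tendsto_atBot_add_const_left _ _ (tendsto_neg_atTop_atBot.comp hdiv)))
    exact le_antisymm (ge_of_tendsto h3 (eventually_atTop.2 ⟨m, h2⟩)) zero_le
  rw [ae_iff]
  refine measure_mono_null (fun α hα => ?_)
    (measure_iUnion_null fun m => measure_iUnion_null fun i => key m i)
  simp only [Set.mem_ofPred_eq, not_frequently, eventually_atTop] at hα
  obtain ⟨m, hm⟩ := hα
  simp only [Set.mem_iUnion, Set.mem_ofPred_eq]
  exact ⟨m, _, rfl, hm⟩

def cop (R : ℕ) : Finset (ℕ × ℕ) := (Icc 1 R ×ˢ Icc 1 R).filter fun p => Nat.Coprime p.1 p.2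

lemma cop_card (R : ℕ) : (R : ℝ) ^ 2 ≤ 3 * (cop R).card := by
  have h1 : ∀ n : ℕ, ∑ j ∈ range n, 1 / ((j : ℝ) + 2) ^ 2 ≤ 2 / 3 - 1 / ((n : ℝ) + 3 / 2) := by
    intro n
    induction n with
    | zero => norm_num
    | succ n ih =>
      rw [sum_range_succ]
      have : 1 / ((n : ℝ) + 2) ^ 2 ≤ 1 / (n + 3 / 2) - 1 / (((n + 1 : ℕ) : ℝ) + 3 / 2) := by
        push_cast
        rw [div_sub_div _ _ (by positivity) (by positivity), div_le_div_iff₀ (by positivity)
          (by positivity)]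
        nlinarith
      linarith
  have hsub : Icc 1 R ×ˢ Icc 1 R ⊆ cop R ∪ (range R).biUnion fun j =>
      (Icc 1 (R / (j + 2)) ×ˢ Icc 1 (R / (j + 2))).image fun p => ((j + 2) * p.1, (j + 2) * p.2) := by
    rintro ⟨a, b⟩ hp
    rw [mem_union]
    by_cases h : Nat.Coprime a b
    · exact Or.inl (mem_filter.2 ⟨hp, h⟩)
    right
    simp only [mem_product, mem_Icc] at hp
    have g0 : 0 < Nat.gcd a b := Nat.gcd_pos_of_pos_left _ hp.1.1
    have g1 : Nat.gcd a b ≠ 1 := h
    have g2 : Nat.gcd a b ≤ a := Nat.gcd_le_left _ hp.1.1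
    have g3 : Nat.gcd a b ≤ b := Nat.gcd_le_right _ hp.2.1
    have e : Nat.gcd a b - 2 + 2 = Nat.gcd a b := by omega
    simp only [mem_biUnion, mem_image, mem_product, mem_Icc, mem_range]
    refine ⟨Nat.gcd a b - 2, by omega, (a / Nat.gcd a b, b / Nat.gcd a b), ?_, ?_⟩
    · rw [e]
      exact ⟨⟨Nat.div_pos g2 g0, Nat.div_le_div_right hp.1.2⟩,
        Nat.div_pos g3 g0, Nat.div_le_div_right hp.2.2⟩
    · rw [e, Nat.mul_div_cancel' (Nat.gcd_dvd_left _ _), Nat.mul_div_cancel' (Nat.gcd_dvd_right _ _)]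
  have h2 := (card_le_card hsub).trans ((card_union_le _ _).trans (Nat.add_le_add_left
    (card_biUnion_le.trans (sum_le_sum fun _ _ => card_image_le)) _))
  simp only [card_product, Nat.card_Icc, Nat.add_sub_cancel] at h2
  have h3 := (Nat.cast_le (α := ℝ)).2 h2
  rw [Nat.cast_add, Nat.cast_sum, Nat.cast_mul] at h3
  have h4 : ∑ j ∈ range R, ((R / (j + 2) * (R / (j + 2)) : ℕ) : ℝ) ≤
      ∑ j ∈ range R, (R : ℝ) ^ 2 * (1 / ((j : ℝ) + 2) ^ 2) := sum_le_sum fun j _ => by
    have : ((R / (j + 2) : ℕ) : ℝ) ≤ R / ((j : ℝ) + 2) := by exact_mod_cast Nat.cast_div_le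
    rw [Nat.cast_mul, mul_one_div, ← div_pow, sq]
    gcongr
  rw [← mul_sum] at h4
  have h5 : (0 : ℝ) ≤ 1 / (R + 3 / 2) := by positivity
  have h6 : (R : ℝ) ^ 2 * ∑ j ∈ range R, 1 / ((j : ℝ) + 2) ^ 2 ≤ R ^ 2 * (2 / 3) := by
    gcongr; linarith [h1 R]
  nlinarith

lemma inj_aux {V a q a' q' : ℕ} (hq : 0 < q) (h : V * a / q = V * a' / q') (hV : q * q' ≤ V)
    (hq' : 0 < q') : a * q' ≤ a' * q := by
  have h1 : V * a < (V * a / q + 1) * q := by
    have := Nat.lt_div_mul_add (a := V * a) hq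
    linarith
  have h2 : V * a' / q' * q' ≤ V * a' := Nat.div_mul_le_self _ _
  rw [h] at h1
  generalize V * a' / q' = i at h1 h2
  by_contra hc
  have h3 : a' * q + 1 ≤ a * q' := by omega
  have h4 : V * (a' * q + 1) ≤ V * (a * q') := Nat.mul_le_mul_left _ h3
  have h5 : V * a * q' < (i + 1) * q * q' := Nat.mul_lt_mul_of_pos_right h1 hq'
  have h6 : i * q' * q ≤ V * a' * q := Nat.mul_le_mul_right _ h2
  nlinarith

lemma many (x : ℕ → Ci) (N H L q : ℕ) (β t : ℝ) (r : ℤ) (hq : 0 < q) (hL : q * L ≤ H)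
    (hx : ∀ j < 2 * H, x (N + j) = x N + ((j * β : ℝ) : Ci)) (ht : L * |q * β - r| < t) :
    H * L ≤ pc x (range (N + 2 * H)) t := by
  have : (range H ×ˢ Icc 1 L).card = H * L := by simp
  rw [← this]
  refine card_le_card_of_injOn (fun p => (N + (p.1 + q * p.2), N + p.1)) ?_ ?_
  · rintro ⟨j, l⟩ hp
    simp only [coe_product, coe_range, coe_Icc, Set.mem_prod, Set.mem_Iio, Set.mem_Icc] at hp
    have h1 : q * l ≤ H := (Nat.mul_le_mul_left _ hp.2.2).trans hL
    have h2 : 0 < q * l := Nat.mul_pos hq hp.2.1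
    simp only [coe_filter, mem_offDiag, mem_range, Set.mem_ofPred_eq]
    refine ⟨⟨by omega, by omega, by omega⟩, ?_⟩
    rw [hx _ (by omega), hx _ (by omega), dist_add_left, dist_eq_norm, ← AddCircle.coe_sub]
    have e : ((((j + q * l : ℕ) : ℝ) * β - j * β : ℝ) : Ci) = ((l * (q * β - r) : ℝ) : Ci) := by
      rw [eq_comm, ← sub_eq_zero, ← AddCircle.coe_sub, AddCircle.coe_eq_zero_iff]
      exact ⟨-(l * r), by push_cast; simp; ring⟩
    rw [e]
    refine (QuotientAddGroup.norm_mk_le_norm).trans_lt (lt_of_le_of_lt ?_ ht)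
    rw [Real.norm_eq_abs, abs_mul, Nat.abs_cast]
    gcongr
    exact hp.2.2
  · rintro ⟨j, l⟩ _ ⟨j', l'⟩ _ h
    simp only [Prod.mk.injEq, add_right_inj] at h
    obtain ⟨h1, rfl⟩ := h
    rw [Nat.eq_of_mul_eq_mul_left hq (Nat.add_left_cancel h1)]

lemma stage (e H : ℕ) (hH : 12 * (e + 1) ≤ H) : ∃ (V : ℕ) (S : Finset ℤ), 0 < V ∧
    S ⊆ Ico 0 (V : ℤ) ∧ 1 / (1728 * ((e : ℝ) + 1) ^ 3) ≤ (S.card : ℝ) / V ∧
    ∀ β : ℝ, ⌊(V : ℝ) * β⌋ % V ∈ S → ∀ x : ℕ → Ci,
      (∀ j < 2 * H, x (e * (2 * H) + j) = x (e * (2 * H)) + ((j * β : ℝ) : Ci)) →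
      3 * (e * (2 * H) + 2 * H) ≤
        pc x (range (e * (2 * H) + 2 * H)) (1 / ((e * (2 * H) + 2 * H : ℕ) : ℝ)) := by
  set L := 6 * (e + 1) with hL
  set R := H / (2 * L) with hR
  set N := e * (2 * H) + 2 * H with hN
  have L0 : 0 < L := by omega
  have R0 : 0 < R := Nat.div_pos (by omega) (by omega)
  have R1 : R * (2 * L) ≤ H := Nat.div_mul_le_self _ _
  have R2 : H < R * (2 * L) + 2 * L := Nat.lt_div_mul_add (by omega)
  have N0 : H ≤ N := by omega
  have H0 : 0 < H := by omega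
  set V := N * L * (2 * R) with hV
  have V0 : 0 < V := Nat.mul_pos (Nat.mul_pos (by omega) L0) (by omega)
  have V1 : 2 * R * (2 * R) ≤ V := Nat.mul_le_mul_right _ (by nlinarith)
  have mc : ∀ p ∈ cop R, 1 ≤ p.1 ∧ p.1 ≤ R ∧ 1 ≤ p.2 ∧ p.2 ≤ R ∧ Nat.Coprime p.1 p.2 := by
    intro p hp
    simp only [cop, mem_filter, mem_product, mem_Icc] at hp
    tauto
  refine ⟨V, (cop R).image fun p => ((V * p.1 / (p.1 + p.2) : ℕ) : ℤ), V0, ?_, ?_, ?_⟩
  · intro i hi
    obtain ⟨p, hp, rfl⟩ := mem_image.1 hi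
    obtain ⟨h1, h2, h3, h4, h5⟩ := mc p hp
    refine mem_Ico.2 ⟨by positivity, ?_⟩
    exact_mod_cast Nat.div_lt_of_lt_mul (by nlinarith)
  · rw [card_image_of_injOn]
    · have h1 := cop_card R
      have h2 : (V : ℝ) = (e + 1) * (2 * H) * (6 * (e + 1)) * (2 * R) := by
        simp only [hV, hN, hL]; push_cast; ring
      have h3 : (H : ℝ) ≤ 24 * (e + 1) * R := by
        have : H ≤ 24 * (e + 1) * R := by nlinarith
        exact_mod_cast this
      have h4 : (0 : ℝ) < R := by exact_mod_cast R0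
      rw [div_le_div_iff₀ (by positivity) (by exact_mod_cast V0), h2]
      calc _ = 24 * ((e : ℝ) + 1) ^ 2 * R * H := by ring
        _ ≤ 24 * ((e : ℝ) + 1) ^ 2 * R * (24 * (e + 1) * R) := by gcongr
        _ = (R : ℝ) ^ 2 * (576 * (e + 1) ^ 3) := by ring
        _ ≤ (3 * (cop R).card) * (576 * (e + 1) ^ 3) := by gcongr
        _ = _ := by ring
    · rintro ⟨a, b⟩ hp ⟨a', b'⟩ hq h
      obtain ⟨h1, h2, h3, h4, h5⟩ := mc _ hp
      obtain ⟨k1, k2, k3, k4, k5⟩ := mc _ hq
      simp only [Nat.cast_inj] at h h1 h2 h3 h4 h5 k1 k2 k3 k4 k5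
      have m1 := inj_aux (by omega) h ((Nat.mul_le_mul (by omega) (by omega)).trans V1) (by omega)
      have m2 := inj_aux (by omega) h.symm ((Nat.mul_le_mul (by omega) (by omega)).trans V1)
        (by omega)
      have m3 : a * b' = a' * b := by nlinarith
      have m4 : a = a' := Nat.dvd_antisymm (h5.dvd_of_dvd_mul_right ⟨b', m3.symm⟩)
        (k5.dvd_of_dvd_mul_right ⟨b, m3⟩)
      subst m4
      rw [Nat.eq_of_mul_eq_mul_left h1 m3]
  · intro β hβ x hx
    obtain ⟨⟨a, b⟩, hp, hi⟩ := mem_image.1 hβ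
    obtain ⟨h1, h2, h3, h4, -⟩ := mc _ hp
    simp only at h1 h2 h3 h4 hi
    set q := a + b with hq
    have q0 : 0 < q := by omega
    have e3 : 3 * N = H * L := by simp only [hN, hL]; ring
    rw [e3]
    refine many x _ H L q β _ (q * (⌊(V : ℝ) * β⌋ / V) + a) q0 (by nlinarith) hx ?_
    set i := V * a / q with hi'
    have i1 : ((i * q : ℕ) : ℝ) ≤ ((V * a : ℕ) : ℝ) := by exact_mod_cast Nat.div_mul_le_self _ _
    have i2 : ((V * a : ℕ) : ℝ) < ((i * q + q : ℕ) : ℝ) := by exact_mod_cast Nat.lt_div_mul_add q0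
    have i3 := Int.ediv_mul_add_emod ⌊(V : ℝ) * β⌋ V
    rw [← hi] at i3
    generalize ⌊(V : ℝ) * β⌋ / V = m at i3
    have i4 : ((m * V + i : ℤ) : ℝ) ≤ V * β := by rw [i3]; exact Int.floor_le _
    have i5 : V * β < ((m * V + i : ℤ) : ℝ) + 1 := by rw [i3]; exact Int.lt_floor_add_one _
    push_cast at i1 i2 i4 i5
    have q1 : (0 : ℝ) < q := by exact_mod_cast q0
    have q2 : (q : ℝ) ≤ 2 * R := by exact_mod_cast (show q ≤ 2 * R by omega)
    have V2 : (0 : ℝ) < V := by exact_mod_cast V0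
    have V3 : (V : ℝ) = N * L * (2 * R) := by simp only [hV]; push_cast; ring
    have N1 : (0 : ℝ) < N := by exact_mod_cast H0.trans_le N0
    have L1 : (0 : ℝ) < L := by exact_mod_cast L0
    have j1 : V * |q * β - ((q * m + a : ℤ) : ℝ)| < q := by
      rw [← abs_of_pos V2, ← abs_mul, abs_lt]
      push_cast
      constructor <;> nlinarith
    rw [lt_div_iff₀ N1]
    have j2 : (2 * R : ℝ) * (L * |q * β - ((q * m + a : ℤ) : ℝ)| * N) < 2 * R * 1 := by
      rw [V3] at j1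
      linarith
    exact lt_of_mul_lt_mul_left j2 (by positivity)

end Pool.Agent.Lib.helper16.PpD
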