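import Mathlib
import Pool.Agent.Lib.helper16.PpC
import Pool.Agent.Lib.helper16.PpD

namespace Pool.Agent.Lib.helper16.PpF
open Finset Filter Topology MeasureTheory
open Pool.Agent.Lib.helper16.PpA Pool.Agent.Lib.helper16.PpC Pool.Agent.Lib.helper16.PpD

/-- slowly growing block parameter -/
structure Par where
  ee : ℕ → ℕ
  pos : ∀ k, 0 < ee k
  mono : Monotone ee
  le : ∀ k, ee k ≤ k.sqrt.sqrt + 1
  top : Tendsto ee atTop atTop

variable (P : Par)

def HH (k : ℕ) : ℕ := 2 ^ (k + 6)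
def NN (k : ℕ) : ℕ := P.ee k * (2 * HH k)

lemma HH_pos (k : ℕ) : 0 < HH k := by unfold HH; positivity
lemma NN_ge (k : ℕ) : 2 * HH k ≤ NN P k := Nat.le_mul_of_pos_left _ (P.pos k)

lemma hH (k : ℕ) : 12 * (P.ee k + 1) ≤ HH k := by
  have h1 : k.sqrt.sqrt ≤ k := (Nat.sqrt_le_self _).trans (Nat.sqrt_le_self _)
  have h2 : k < 2 ^ k := Nat.lt_two_pow_self
  have := P.le k
  unfold HH
  rw [pow_add]
  omega

lemma step (k : ℕ) : NN P k + 2 * HH k ≤ NN P (k + 1) := by
  have h1 := NN_ge P k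
  have h2 : HH (k + 1) = 2 * HH k := by unfold HH; ring
  have h3 : P.ee k * (2 * HH (k + 1)) ≤ NN P (k + 1) := Nat.mul_le_mul_right _ (P.mono k.le_succ)
  have h4 : P.ee k * (2 * HH (k + 1)) = 2 * NN P k := by rw [h2, NN]; ring
  omega

lemma NN_mono : StrictMono (NN P) := strictMono_nat_of_lt_succ fun k => by
  have := step P k; have := HH_pos k; omega

lemma uniq {n k k' : ℕ} (h : NN P k ≤ n ∧ n < NN P k + 2 * HH k)
    (h' : NN P k' ≤ n ∧ n < NN P k' + 2 * HH k') : k = k' := by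
  rcases lt_trichotomy k k' with c | c | c
  · have := (NN_mono P).monotone (Nat.succ_le_of_lt c); have := step P k; simp only [Nat.succ_eq_add_one] at *; omega
  · exact c
  · have := (NN_mono P).monotone (Nat.succ_le_of_lt c); have := step P k'; simp only [Nat.succ_eq_add_one] at *; omega

lemma loc (E : ℝ) : ∀ᶠ N : ℕ in atTop, ∃ k, E ≤ P.ee k ∧ NN P k ≤ N ∧ N < NN P (k + 1) := by
  obtain ⟨b, hb⟩ := exists_nat_ge E
  obtain ⟨c, hc⟩ := eventually_atTop.1 (P.top.eventually_ge_atTop b)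
  refine eventually_atTop.2 ⟨NN P c, fun N hN => ?_⟩
  have hex : ∃ k, N < NN P (k + 1) := ⟨N, (Nat.lt_succ_self N).trans_le ((NN_mono P).id_le _)⟩
  have h1 := Nat.find_spec hex
  have h2 : c ≤ Nat.find hex := by
    have := (NN_mono P).lt_iff_lt.1 (hN.trans_lt h1)
    omega
  refine ⟨Nat.find hex, hb.trans ?_, ?_, h1⟩
  · exact_mod_cast hc _ h2
  · rcases Nat.eq_zero_or_pos (Nat.find hex) with h | h
    · exact ((NN_mono P).monotone (by omega)).trans hN
    · have := Nat.find_min hex (show Nat.find hex - 1 < Nat.find hex by omega)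
      rw [Nat.sub_add_cancel h] at this
      omega

def Bl (n : ℕ) : Prop := ∃ k, NN P k ≤ n ∧ n < NN P k + 2 * HH k

open Classical in
noncomputable def zz (n : ℕ) : Ci :=
  if h : (Bl P) n then (((2 * (n - NN P h.choose) + 1 : ℕ) / (4 * HH h.choose) : ℝ) : Ci) else 0

lemma zz_eq {k j : ℕ} (hj : j < 2 * HH k) :
    (zz P) (NN P k + j) = (((2 * j + 1 : ℕ) / (4 * HH k) : ℝ) : Ci) := by
  have h : (Bl P) (NN P k + j) := ⟨k, by omega, by omega⟩
  have e : h.choose = k := uniq P h.choose_spec ⟨by omega, by omega⟩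
  rw [zz, dif_pos h, e, Nat.add_sub_cancel_left]

open Classical in
lemma dens : Tendsto (fun N : ℕ => (((range N).filter (Bl P)).card : ℝ) / N) atTop (𝓝 0) := by
  have hs : ∀ k, ∑ i ∈ range (k + 1), 2 * HH i ≤ 4 * HH k := by
    intro k
    induction k with
    | zero => simp [HH]
    | succ k ih =>
      have h2 : HH (k + 1) = 2 * HH k := by unfold HH; ring
      rw [sum_range_succ]; omega
  refine tendsto_order.2 ⟨fun a ha => Eventually.of_forall fun N => ha.trans_le (by positivity),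
    fun a ha => ?_⟩
  filter_upwards [loc P (3 / a)] with N ⟨k, h1, h2, h3⟩
  have hsub : (range N).filter (Bl P) ⊆ (range (k + 1)).biUnion fun i => Ico (NN P i) (NN P i + 2 * HH i) := by
    intro n hn
    obtain ⟨hn, i, h4, h5⟩ := mem_filter.1 hn
    rw [mem_range] at hn
    exact mem_biUnion.2 ⟨i, mem_range.2 ((NN_mono P).lt_iff_lt.1 (by omega)), mem_Ico.2 ⟨h4, h5⟩⟩
  have h6 := (card_le_card hsub).trans card_biUnion_le
  simp only [Nat.card_Ico, Nat.add_sub_cancel_left] at h6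
  have h7 : (((range N).filter (Bl P)).card : ℝ) ≤ 4 * HH k := by exact_mod_cast h6.trans (hs k)
  have h8 : (P.ee k : ℝ) * (2 * HH k) ≤ N := by exact_mod_cast h2
  have h9 : (0 : ℝ) < HH k := by exact_mod_cast HH_pos k
  have h10 : (0 : ℝ) < P.ee k := by exact_mod_cast P.pos k
  rw [div_le_iff₀ ha] at h1
  rw [div_lt_iff₀ (by nlinarith)]
  nlinarith

lemma grid {D u v : ℕ} (hu : u < D) (hv : v < D) (h : u ≠ v) :
    1 / (D : ℝ) ≤ dist (((u : ℝ) / D : ℝ) : Ci) (((v : ℝ) / D : ℝ) : Ci) := by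
  have D0 : (0 : ℝ) < D := by exact_mod_cast (show 0 < D by omega)
  rw [dist_eq_norm, ← AddCircle.coe_sub, UnitAddCircle.norm_eq]
  generalize round ((u : ℝ) / D - v / D) = r
  have e : (u : ℝ) / D - v / D - r = ((u - v - D * r : ℤ) : ℝ) / D := by push_cast; field_simp
  rw [e, abs_div, abs_of_pos D0]
  gcongr
  have : (u : ℤ) - v - D * r ≠ 0 := by
    intro h0
    rcases lt_trichotomy r 0 with c | c | c
    · nlinarith
    · subst c; omega
    · nlinarith
  exact_mod_cast Int.one_le_abs this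

lemma odd_ne {j j' a b : ℕ} (h : a < b) : (2 * j + 1) * 2 ^ a ≠ (2 * j' + 1) * 2 ^ b := by
  obtain ⟨c, rfl⟩ := Nat.exists_eq_add_of_lt h
  intro h1
  have h2 : (2 * j + 1) * 2 ^ a = (2 * ((2 * j' + 1) * 2 ^ c)) * 2 ^ a := by rw [h1]; ring
  have := Nat.eq_of_mul_eq_mul_right (by positivity) h2
  omega

lemma sep (s : ℝ) : ∀ᶠ N : ℕ in atTop,
    ∀ k l, (Bl P) k → (Bl P) l → k < N → l < N → k ≠ l → s / N ≤ dist ((zz P) k) ((zz P) l) := by
  filter_upwards [loc P (2 * s)] with N ⟨k, h1, h2, h3⟩ n n' ⟨i, a1, a2⟩ ⟨i', b1, b2⟩ hn hn' hne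
  have key : ∀ i j, i ≤ k → j < 2 * HH i → (2 * j + 1) * 2 ^ (k - i) < 4 * HH k ∧
      (zz P) (NN P i + j) = ((((2 * j + 1) * 2 ^ (k - i) : ℕ) / (4 * HH k : ℕ) : ℝ) : Ci) := by
    intro i j hi hj
    have e : HH k = HH i * 2 ^ (k - i) := by
      unfold HH; rw [← pow_add]; congr 1; omega
    have h0 : (0 : ℝ) < HH i := by exact_mod_cast HH_pos i
    refine ⟨?_, ?_⟩
    · rw [e, ← mul_assoc]
      exact Nat.mul_lt_mul_of_pos_right (by omega) (by positivity)
    · rw [zz_eq P hj, e]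
      congr 1
      push_cast
      field_simp
  obtain ⟨j, rfl⟩ := Nat.exists_eq_add_of_le a1
  obtain ⟨j', rfl⟩ := Nat.exists_eq_add_of_le b1
  have c1 : i ≤ k := Nat.lt_succ_iff.1 ((NN_mono P).lt_iff_lt.1 (show NN P i < NN P (k + 1) by omega))
  have c2 : i' ≤ k := Nat.lt_succ_iff.1 ((NN_mono P).lt_iff_lt.1 (show NN P i' < NN P (k + 1) by omega))
  obtain ⟨d1, d2⟩ := key i j c1 (by omega)
  obtain ⟨d3, d4⟩ := key i' j' c2 (by omega)
  rw [d2, d4]
  refine le_trans ?_ (grid d1 d3 ?_)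
  · have h8 : (P.ee k : ℝ) * (2 * HH k) ≤ N := by exact_mod_cast h2
    have h9 : (0 : ℝ) < HH k := by exact_mod_cast HH_pos k
    have h10 : (0 : ℝ) < P.ee k := by exact_mod_cast P.pos k
    push_cast
    rw [div_le_div_iff₀ (by nlinarith) (by positivity)]
    nlinarith
  · rcases lt_trichotomy i i' with c | c | c
    · exact (odd_ne (by omega)).symm
    · subst c
      intro h
      have := Nat.eq_of_mul_eq_mul_right (by positivity) h
      omega
    · exact odd_ne (by omega)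

lemma approx {γ : ℝ} (h : Irrational γ) (A : ℕ) (y : Ci) {η : ℝ} (hη : 0 < η) :
    ∃ a : ℕ, A < a ∧ dist ((a * γ : ℝ) : Ci) y < η := by
  have h1 : DenseRange (· • γ : ℤ → AddCircle (1 : ℝ)) :=
    AddCircle.denseRange_zsmul_coe_iff.2 (by simpa using h)
  have h2 : MapClusterPt y atTop (· • (γ : Ci) : ℕ → Ci) :=
    ((mapClusterPt_atTop_nsmul_tfae y (γ : Ci)).out 0 3).2 (h1 y)
  obtain ⟨a, h3, h4⟩ := ((mapClusterPt_iff_frequently.1 h2 _ (Metric.ball_mem_nhds y hη)).and_eventually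
    (eventually_gt_atTop A)).exists
  refine ⟨a, h4, ?_⟩
  rw [← nsmul_eq_mul, AddCircle.coe_nsmul]
  exact h3

theorem main {γ : ℝ} (hγ : Irrational γ) : ∃ a : ℕ → ℕ, StrictMono a ∧ (∀ n, 0 < a n) ∧
    (∀ k, ∃ d, ∀ j < 2 * HH k, a (NN P k + j) = a (NN P k) + j * d) ∧
    (∀ᵐ α : ℝ, ¬ Lim (fun n => ((a n * α : ℝ) : Ci)) 1) ∧
    ∀ s, 0 < s → Lim (fun n => ((a n * γ : ℝ) : Ci)) s := by
  classical
  obtain ⟨y, hy1, hy2⟩ := exists_ppc (Bl P) (zz P) (dens P) (sep P)
  choose V S hV hS hp hhit using fun k => stage (P.ee k) (HH k) (hH P k)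
  set θ : ℕ → ℝ := fun n => 1 / (2 * (2 * (n : ℝ) + 1) ^ 3) with hθ
  have θ0 : ∀ n, 0 < θ n := fun n => by simp only [hθ]; positivity
  have H0 : ∀ k, (0 : ℝ) < HH k := fun k => by exact_mod_cast HH_pos k
  have hc : ∀ w k : ℕ, ∃ c : ℕ, 0 < w → 0 < c ∧
      dist (((w * c : ℕ) * γ : ℝ) : Ci) ((1 / (2 * HH k) : ℝ) : Ci) < θ (NN P k) / (2 * HH k) := by
    intro w k
    by_cases hw : 0 < w
    · obtain ⟨c, h1, h2⟩ := approx (hγ.natCast_mul hw.ne') 0 ((1 / (2 * HH k) : ℝ) : Ci)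
        (show 0 < θ (NN P k) / (2 * HH k) by have := θ0 (NN P k); have := H0 k; positivity)
      refine ⟨c, fun _ => ⟨h1, ?_⟩⟩
      rwa [Nat.cast_mul, mul_comm (w : ℝ), mul_assoc]
    · exact ⟨0, fun h => absurd h hw⟩
  choose cf hcf using hc
  set W : ℕ → ℕ := fun k => Nat.rec 1 (fun k w => w * (cf w k * V k)) k with hW
  have Wr : ∀ k, W (k + 1) = W k * (cf (W k) k * V k) := fun k => rfl
  have W0 : ∀ k, 0 < W k := by
    intro k
    induction k with
    | zero => exact one_pos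
    | succ k ih => rw [Wr]; exact Nat.mul_pos ih (Nat.mul_pos (hcf _ k ih).1 (hV k))
  set d : ℕ → ℕ := fun k => W k * cf (W k) k with hd
  have d0 : ∀ k, 0 < d k := fun k => Nat.mul_pos (W0 k) (hcf _ k (W0 k)).1
  choose af haf1 haf2 using fun A n => approx hγ A (y n) (θ0 n)
  set a : ℕ → ℕ := fun n => Nat.rec (af 0 0) (fun n A =>
    if h : ∃ k, NN P k ≤ n ∧ n + 1 < NN P k + 2 * HH k then A + d h.choose else af A (n + 1)) n with ha
  have ar : ∀ n, a (n + 1) = if h : ∃ k, NN P k ≤ n ∧ n + 1 < NN P k + 2 * HH k then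
    a n + d h.choose else af (a n) (n + 1) := fun n => rfl
  have am : StrictMono a := strictMono_nat_of_lt_succ fun n => by
    rw [ar]; split_ifs with h
    · exact Nat.lt_add_of_pos_right (d0 _)
    · exact haf1 _ _
  have ab : ∀ k j, j < 2 * HH k → a (NN P k + j) = a (NN P k) + j * d k := by
    intro k j hj
    induction j with
    | zero => simp
    | succ j ih =>
      have h : ∃ k', NN P k' ≤ NN P k + j ∧ NN P k + j + 1 < NN P k' + 2 * HH k' := ⟨k, by omega, by omega⟩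
      have e : h.choose = k := uniq P (n := NN P k + j) ⟨h.choose_spec.1, by
        have := h.choose_spec.2; omega⟩ ⟨by omega, by omega⟩
      rw [← add_assoc, ar, dif_pos h, e, ih (by omega)]; ring
  have ax : ∀ (α : ℝ) k j, j < 2 * HH k → ((a (NN P k + j) * α : ℝ) : Ci) =
      ((a (NN P k) * α : ℝ) : Ci) + ((j * (d k * α) : ℝ) : Ci) := by
    intro α k j hj
    rw [ab k j hj, ← AddCircle.coe_add]
    congr 1
    push_cast; ring
  have fresh : ∀ n, (∀ k, ¬ (NN P k < n ∧ n < NN P k + 2 * HH k)) →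
      dist ((a n * γ : ℝ) : Ci) (y n) < θ n := by
    intro n hn
    cases n with
    | zero => exact haf2 0 0
    | succ n =>
      rw [ar, dif_neg fun ⟨k, h1, h2⟩ => hn k ⟨by omega, h2⟩]
      exact haf2 _ _
  refine ⟨a, am, fun n => (haf1 0 0).trans_le (am.monotone (Nat.zero_le n)),
    fun k => ⟨d k, ab k⟩, ?_,
    pert_ppc (fun n => ?_) hy2⟩
  · have hdiv : Tendsto (fun n => ∑ k ∈ range n, ((S k).card : ℝ) / V k) atTop atTop := by
      refine tendsto_atTop_mono (fun n => ?_)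
        (Real.tendsto_sum_range_one_div_nat_succ_atTop.const_mul_atTop
          (show (0 : ℝ) < 1 / (1728 * 27) by norm_num))
      rw [mul_sum]
      refine sum_le_sum fun k _ => le_trans ?_ (hp k)
      have h1 : (P.ee k + 1) ^ 3 ≤ 27 * (k + 1) := by
        have h2 := Nat.sqrt_le k
        have h3 := Nat.sqrt_le k.sqrt
        refine (Nat.pow_le_pow_left (Nat.add_le_add_right (P.le k) 1) 3).trans ?_
        generalize k.sqrt.sqrt = s at *
        rcases Nat.eq_zero_or_pos s with h | h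
        · subst h; omega
        · have h4 : s * s * (s * s) ≤ k := (Nat.mul_le_mul h3 h3).trans h2
          calc _ ≤ (3 * s) ^ 3 := Nat.pow_le_pow_left (by omega) 3
            _ ≤ (3 * s) ^ 3 * s := Nat.le_mul_of_pos_right _ h
            _ = 27 * (s * s * (s * s)) := by ring
            _ ≤ _ := by omega
      have h5 : ((P.ee k : ℝ) + 1) ^ 3 ≤ 27 * (k + 1) := by exact_mod_cast h1
      rw [div_mul_div_comm, one_mul]
      exact one_div_le_one_div_of_le (by positivity) (by linarith)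
    filter_upwards [bc2 W (fun k => cf (W k) k) V S W0 Wr hS hdiv] with α hα hl
    have h1 : Tendsto (fun k => NN P k + 2 * HH k) atTop atTop :=
      tendsto_atTop_mono (fun k => Nat.le_add_right _ _) (NN_mono P).tendsto_atTop
    obtain ⟨k, h2, h3⟩ := (hα.and_eventually ((hl.comp h1).eventually
      (gt_mem_nhds (show (2 : ℝ) * 1 < 3 by norm_num)))).exists
    have e : (W (k + 1) : ℝ) * α = V k * (d k * α) := by
      rw [Wr]; simp only [hd]; push_cast; ring
    rw [e] at h2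
    have h4 := (Nat.cast_le (α := ℝ)).2 (hhit k _ h2 (fun n => ((a n * α : ℝ) : Ci)) (ax α k))
    have h5 : (0 : ℝ) < (NN P k + 2 * HH k : ℕ) := by
      exact_mod_cast Nat.add_pos_right _ (Nat.mul_pos two_pos (HH_pos k))
    simp only [Function.comp] at h3
    rw [div_lt_iff₀ h5] at h3
    rw [Nat.cast_mul] at h4
    exact absurd h3 (not_lt.2 h4)
  · by_cases hn : ∃ k, NN P k < n ∧ n < NN P k + 2 * HH k
    · obtain ⟨k, h1, h2⟩ := hn
      obtain ⟨j, rfl⟩ := Nat.exists_eq_add_of_le h1.le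
      have hj : j < 2 * HH k := by omega
      have f := fresh (NN P k) fun k' h => by
        have := uniq P (n := NN P k) (k := k) ⟨le_rfl, by omega⟩ ⟨h.1.le, h.2⟩
        subst this
        omega
      have y0 : y (NN P k) = (((2 * 0 + 1 : ℕ) / (4 * HH k) : ℝ) : Ci) := by
        rw [hy1 _ ⟨k, le_rfl, by omega⟩, ← zz_eq P (by omega), add_zero]
      have y1 : y (NN P k + j) = y (NN P k) + ((j * (1 / (2 * HH k)) : ℝ) : Ci) := by
        rw [hy1 _ ⟨k, by omega, by omega⟩, zz_eq P hj, y0, ← AddCircle.coe_add]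
        congr 1
        have := H0 k
        push_cast; field_simp; ring
      rw [ax γ k j hj, y1]
      refine (dist_add_add_le _ _ _ _).trans ?_
      have g1 : dist ((j * (d k * γ) : ℝ) : Ci) ((j * (1 / (2 * HH k)) : ℝ) : Ci) ≤ θ (NN P k) := by
        rw [← nsmul_eq_mul j, ← nsmul_eq_mul j, AddCircle.coe_nsmul, AddCircle.coe_nsmul, dist_eq_norm,
          ← nsmul_sub]
        refine norm_nsmul_le.trans ?_
        rw [← dist_eq_norm]
        have g2 := (hcf (W k) k (W0 k)).2.le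
        have g3 : (j : ℝ) ≤ 2 * HH k := by exact_mod_cast hj.le
        have := H0 k
        calc _ ≤ 2 * HH k * (θ (NN P k) / (2 * HH k)) := by gcongr
          _ = _ := by field_simp
      have g4 : ((NN P k + j : ℕ) : ℝ) + 1 ≤ 2 * NN P k + 1 := by
        have := NN_ge P k
        exact_mod_cast (show NN P k + j + 1 ≤ 2 * NN P k + 1 by omega)
      have g5 : 1 / (2 * (NN P k : ℝ) + 1) ^ 3 ≤ 1 / (((NN P k + j : ℕ) : ℝ) + 1) ^ 3 := by gcongr
      have g6 : θ (NN P k) + θ (NN P k) = 1 / (2 * (NN P k : ℝ) + 1) ^ 3 := by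
        simp only [hθ]; field_simp; ring
      linarith
    · refine (fresh n fun k h => hn ⟨k, h⟩).le.trans ?_
      refine one_div_le_one_div_of_le (by positivity) ?_
      have : ((n : ℝ) + 1) ^ 3 ≤ (2 * n + 1) ^ 3 := by
        gcongr
        have : (0 : ℝ) ≤ n := by positivity
        linarith
      have : 0 ≤ (2 * (n : ℝ) + 1) ^ 3 := by positivity
      linarith

lemma exists_par (ψ : ℕ → ℝ) (hψ : Tendsto ψ atTop atTop) : ∃ P : Par, ∀ᶠ N : ℕ in atTop,
    ∃ k, NN P k + 2 * HH k ≤ N ∧ (N : ℝ) ^ 3 / ψ N ≤ (HH k : ℝ) ^ 3 := by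
  classical
  set Q : ℕ → ℕ → Prop := fun k m => ∀ N, k ≤ N + 1 → 64 * ((m : ℝ) + 2) ^ 3 ≤ ψ N with hQ
  have ev : ∀ m, ∀ᶠ k in atTop, Q k m := by
    intro m
    obtain ⟨T, hT⟩ := eventually_atTop.1 (hψ.eventually_ge_atTop (64 * ((m : ℝ) + 2) ^ 3))
    exact eventually_atTop.2 ⟨T + 1, fun k hk N hN => hT N (by omega)⟩
  let P : Par :=
    { ee := fun k => Nat.findGreatest (Q k) k.sqrt.sqrt + 1
      pos := fun _ => Nat.succ_pos _
      mono := fun k k' h => Nat.succ_le_succ (Nat.findGreatest_mono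
        (fun m hm N hN => hm N (h.trans hN)) (Nat.sqrt_le_sqrt (Nat.sqrt_le_sqrt h)))
      le := fun _ => Nat.succ_le_succ (Nat.findGreatest_le _)
      top := tendsto_atTop.2 fun b => by
        filter_upwards [ev b, eventually_ge_atTop (b * b * (b * b))] with k h1 h2
        exact (Nat.le_findGreatest (Nat.le_sqrt.2 (Nat.le_sqrt.2 h2)) h1).trans (Nat.le_succ _) }
  refine ⟨P, ?_⟩
  obtain ⟨c, hc⟩ := eventually_atTop.1 (ev 0)
  refine eventually_atTop.2 ⟨NN P c + 2 * HH c, fun N hN => ?_⟩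
  have hex : ∃ k, N < NN P (k + 1) + 2 * HH (k + 1) :=
    ⟨N, (Nat.lt_succ_self N).trans_le (((NN_mono P).id_le _).trans (Nat.le_add_right _ _))⟩
  have h1 := Nat.find_spec hex
  set k := Nat.find hex with hk
  have h2 : c ≤ k + 1 := by
    have := step P (k + 1)
    have := (NN_mono P).lt_iff_lt.1 (show NN P c < NN P (k + 1 + 1) by omega)
    omega
  have h3 : NN P k + 2 * HH k ≤ N := by
    rcases Nat.eq_zero_or_pos k with h | h
    · have h4 : NN P k ≤ NN P c := (NN_mono P).monotone (by omega)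
      have h5 : HH k ≤ HH c := Nat.pow_le_pow_right two_pos (by omega)
      omega
    · have := Nat.find_min hex (show k - 1 < Nat.find hex by omega)
      rw [Nat.sub_add_cancel h] at this
      omega
  refine ⟨k, h3, ?_⟩
  have h4 : Q (k + 1) (Nat.findGreatest (Q (k + 1)) (k + 1).sqrt.sqrt) :=
    Nat.findGreatest_spec (Nat.zero_le _) (hc _ h2)
  have h5 := h4 N (by have := (NN_mono P).id_le k; simp only [id] at this; omega)
  have h6 : NN P (k + 1) + 2 * HH (k + 1) =
      4 * (Nat.findGreatest (Q (k + 1)) (k + 1).sqrt.sqrt + 2) * HH k := by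
    simp only [NN, P, HH]; ring
  rw [h6] at h1
  generalize Nat.findGreatest (Q (k + 1)) (k + 1).sqrt.sqrt = g at h1 h5
  have h7 : (N : ℝ) ≤ 4 * (g + 2) * HH k := by exact_mod_cast h1.le
  rw [div_le_iff₀ (lt_of_lt_of_le (by positivity) h5)]
  calc (N : ℝ) ^ 3 ≤ (4 * (g + 2) * HH k) ^ 3 := by gcongr
    _ = (HH k : ℝ) ^ 3 * (64 * ((g : ℝ) + 2) ^ 3) := by ring
    _ ≤ _ := by gcongr

end Pool.Agent.Lib.helper16.PpF
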