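import Pool.Agent.Lib.helper16.Gf2

namespace Pool.Agent.Lib.helper16.QMat

open Pool.Agent.Lib.helper16.Gf2

def PR : ℕ → ℕ
  | 0 => 3762092779976869209057189254386670436425950478475460608
  | 1 => 9345278383534204800372812335452748277495264732883451905
  | 2 => 7524185559953738418114378508773340872851900956950921216
  | 3 => 11634589112756972378106184560649138327639962017830273026
  | 4 => 3090646206296777080013272562900697970715960771663617356
  | 5 => 13558824555990691018540529975456327749331080737323024030
  | 6 => 13100774987893443825341242868037044117259565639761500629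
  | 7 => 1561734271553903718113150087459624836602789077912
  | _ => 0

def slot (r j : ℕ) : ℕ := Nat.land (Nat.shiftRight r (Nat.mul 23 j)) 8388607

noncomputable def mF (a b : ℕ) : ℕ := mm 16192235 22 23 a b

noncomputable def leafI (c p : ℕ) : ℕ :=
  cond (Nat.beq c 0) p (cond (Nat.ble c 8388607) (mF p c) 0)

noncomputable def leafO (r p : ℕ) : ℕ := allx (slot r) leafI 8 0 p

theorem chk0 : mF (allx PR leafO 6 0 1) 6387007 = 1 := by decide +kernel

theorem chk1 : mF (allx PR leafO 6 (PR 6) 1) 6283657 = 1 := by decide +kernel

theorem chk2 : mF (allx PR leafO 6 (PR 7) 1) 2750899 = 1 := by decide +kernel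

theorem chk3 : mF (allx PR leafO 6 (PR 7 ^^^ PR 6) 1) 4619611 = 1 := by decide +kernel

end Pool.Agent.Lib.helper16.QMat
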