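import Pool.Agent.Lib.helper16.QMatR

namespace Pool.Agent.Lib.helper16.QMat

open Pool.Agent.Lib.helper16.Gf2

variable {K : Type} [Field K]

def dt {S : Type} [CommRing S] (z w : S × S) : S := z.1 * w.2 - z.2 * w.1

def Gm (c : ℕ → K × K) (u : ℕ) : K × K := sel c u.testBit

def xm (A : List ℕ) (u : ℕ) : ℕ := xl (fun i => A.getD i 0) u.testBit 8 0

def State (x : K) (c : ℕ → K × K) (j : ℕ) (A B : List ℕ) : Prop :=
  ev x (A.getD 0 0) ≠ 0 ∧ ∀ i < j, ev x (A.getD 0 0) * (c i).1 = ev x (A.getD i 0) ∧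
    ev x (A.getD 0 0) * (c i).2 = ev x (B.getD i 0)

lemma rep (h2 : (2 : K) = 0) {x : K} {c : ℕ → K × K} {j : ℕ} {A B : List ℕ}
    (h : State x c j A B) {u : ℕ} (hu : u < 2 ^ j) :
    ev x (A.getD 0 0) * (Gm c u).1 = ev x (xm A u) ∧
    ev x (A.getD 0 0) * (Gm c u).2 = ev x (xm B u) := by
  unfold xm Gm sel
  rw [xl_spec (ev x) (ev_xor h2 x), xl_spec (ev x) (ev_xor h2 x), ev_zero, zero_add, zero_add,
    Prod.fst_sum, Prod.snd_sum, Finset.mul_sum, Finset.mul_sum]
  have key : ∀ i, u.testBit i = true → i < j := by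
    intro i hi
    by_contra hc
    have := Nat.testBit_lt_two_pow (lt_of_lt_of_le hu (Nat.pow_le_pow_right (by norm_num)
      (not_lt.1 hc)))
    rw [this] at hi
    exact Bool.false_ne_true hi
  constructor <;> apply Finset.sum_congr rfl <;> intro i _ <;> cases hi : u.testBit i
  · simp
  · simpa using (h.2 i (key i hi)).1
  · simp
  · simpa using (h.2 i (key i hi)).2

noncomputable def dm (A B : List ℕ) (u v : ℕ) : ℕ := cl (xm A u) (xm B v) ^^^ cl (xm B u) (xm A v)

lemma rep_dt (h2 : (2 : K) = 0) {x : K} {c : ℕ → K × K} {j : ℕ} {A B : List ℕ}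
    (h : State x c j A B) {u v : ℕ} (hu : u < 2 ^ j) (hv : v < 2 ^ j) :
    ev x (dm A B u v) = ev x (A.getD 0 0) ^ 2 * dt (Gm c u) (Gm c v) := by
  obtain ⟨a1, a2⟩ := rep h2 h hu
  obtain ⟨b1, b2⟩ := rep h2 h hv
  rw [dm, ev_xor h2, cl_spec h2, cl_spec h2, ← a1, ← a2, ← b1, ← b2, dt]
  linear_combination (ev x (A.getD 0 0) ^ 2 * (Gm c u).2 * (Gm c v).1) * h2

def StepOK (j : ℕ) (A B A' B' : List ℕ) (g u v u' v' : ℕ) : Prop :=
  0 < j ∧ u < 2 ^ j ∧ v < 2 ^ j ∧ u' < 2 ^ j ∧ v' < 2 ^ j ∧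
  (∀ i < j, cl g (A'.getD i 0) = cl (A.getD i 0) (dm A B v v') ∧
    cl g (B'.getD i 0) = cl (B.getD i 0) (dm A B v v')) ∧
  cl g (A'.getD j 0) = cl (xm A v) (dm A B u' v') ^^^ cl (xm A v') (dm A B u v) ∧
  cl g (B'.getD j 0) = cl (xm B v) (dm A B u' v') ^^^ cl (xm B v') (dm A B u v)

lemma step (h2 : (2 : K) = 0) {x : K} {c : ℕ → K × K} {j : ℕ} {A B A' B' : List ℕ}
    (h : State x c j A B) {g u v u' v' : ℕ} (ok : StepOK j A B A' B' g u v u' v')
    (z1 : dt (c j + Gm c u) (Gm c v) = 0) (z2 : dt (c j + Gm c u') (Gm c v') = 0)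
    (nz : dt (Gm c v) (Gm c v') ≠ 0) : State x c (j + 1) A' B' := by
  obtain ⟨hj, hu, hv, hu', hv', ho, hA, hB⟩ := ok
  have eD := rep_dt h2 h hv hv'
  have e1 := rep_dt h2 h hu' hv'
  have e2 := rep_dt h2 h hu hv
  obtain ⟨v1, v2⟩ := rep h2 h hv
  obtain ⟨w1, w2⟩ := rep h2 h hv'
  have h0 := congrArg (ev x) (ho 0 hj).1
  rw [cl_spec h2, cl_spec h2, eD] at h0
  have hd := h.1
  have hne : ev x g * ev x (A'.getD 0 0) ≠ 0 := by
    rw [h0]; exact mul_ne_zero hd (mul_ne_zero (pow_ne_zero 2 hd) nz)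
  have hg : ev x g ≠ 0 := left_ne_zero_of_mul hne
  refine ⟨right_ne_zero_of_mul hne, fun i hi => ?_⟩
  rcases Nat.lt_succ_iff_lt_or_eq.1 hi with hi | rfl
  · have a1 := congrArg (ev x) (ho i hi).1
    have a2 := congrArg (ev x) (ho i hi).2
    rw [cl_spec h2, cl_spec h2, eD] at a1 a2
    obtain ⟨b1, b2⟩ := h.2 i hi
    constructor <;> apply mul_left_cancel₀ hg
    · rw [← mul_assoc, h0, a1, ← b1]; ring
    · rw [← mul_assoc, h0, a2, ← b2]; ring
  · have a1 := congrArg (ev x) hA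
    have a2 := congrArg (ev x) hB
    rw [cl_spec h2, ev_xor h2, cl_spec h2, cl_spec h2, e1, e2] at a1 a2
    simp only [dt, Prod.fst_add, Prod.snd_add] at z1 z2 a1 a2 h0
    constructor <;> apply mul_left_cancel₀ hg
    · rw [← mul_assoc, h0, a1, ← v1, ← w1]
      set d := ev x (A.getD 0 0)
      linear_combination (d ^ 3 * (Gm c v).1) * z2 - (d ^ 3 * (Gm c v').1) * z1 -
        (d ^ 3 * (Gm c v).1 * ((Gm c u').1 * (Gm c v').2 - (Gm c u').2 * (Gm c v').1)) * h2
    · rw [← mul_assoc, h0, a2, ← v2, ← w2]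
      set d := ev x (A.getD 0 0)
      linear_combination (d ^ 3 * (Gm c v).2) * z2 - (d ^ 3 * (Gm c v').2) * z1 -
        (d ^ 3 * (Gm c v).2 * ((Gm c u').1 * (Gm c v').2 - (Gm c u').2 * (Gm c v').1)) * h2

lemma Gm_top (c : ℕ → K × K) (j u w : ℕ) (hj : j < 8) (hu : u.testBit j = false)
    (hw : w.testBit j = true) (h : ∀ i < 8, i ≠ j → w.testBit i = u.testBit i) :
    Gm c w = c j + Gm c u := by
  unfold Gm sel
  rw [← Finset.add_sum_erase _ _ (Finset.mem_range.2 hj),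
    ← Finset.add_sum_erase _ _ (Finset.mem_range.2 hj), hu, hw]
  simp only [if_true, Bool.false_eq_true, if_false, zero_add]
  congr 1
  apply Finset.sum_congr rfl
  intro i hi
  rw [h i (Finset.mem_range.1 (Finset.mem_of_mem_erase hi)) (Finset.ne_of_mem_erase hi)]

def detN (s t : ℕ) : ℕ := xl (slot (xl PR s.testBit 8 0)) t.testBit 8 0

noncomputable def frob : ℕ → ℕ
  | 0 => 2
  | k + 1 => force (frob k) (fun r => mF r r)

lemma frob_le : ∀ k < 23, frob k ≤ 8388607 := by decide +kernel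

lemma frob_spec (h2 : (2 : K) = 0) (x : K) (hf : ev x 16192235 = 0) :
    ∀ k ≤ 23, ev x (frob k) = x ^ 2 ^ k := by
  intro k
  induction k with
  | zero => intro _; simp [frob, ev_two]
  | succ k ih =>
    intro hk
    rw [frob, force_eq, mF_spec h2 x hf _ _ (frob_le k (by omega)), ih (by omega), pow_succ 2 k,
      pow_mul, sq]

theorem no_rep (h2 : (2 : K) = 0) (hK : ∀ y : K, y ^ 2 ^ 23 = y) (c : ℕ → K × K)
    (c0 : c 0 = (1, 0)) (c1 : c 1 = (0, 1))
    (Z : ∀ s t, detN s t = 0 → dt (Gm c s) (Gm c t) = 0)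
    (N : ∀ s t i, i ≤ 8388607 → mF (detN s t) i = 1 → dt (Gm c s) (Gm c t) ≠ 0) : False := by
  have T : ∀ j u w t, j < 8 ∧ u.testBit j = false ∧ w.testBit j = true ∧
      (∀ i < 8, i ≠ j → w.testBit i = u.testBit i) ∧ detN w t = 0 →
      dt (c j + Gm c u) (Gm c t) = 0 := by
    rintro j u w t ⟨a, b, d, e, f⟩
    rw [← Gm_top c j u w a b d e]
    exact Z w t f
  have G0 : Gm c 0 = 0 := by simp [Gm, sel]
  have G1 : Gm c 1 = c 0 := by
    rw [Gm_top c 0 0 1 (by decide) (by decide) (by decide) (by decide), G0, add_zero]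
  have hc2 : (c 2).2 = 0 := by
    have := T 2 0 4 1 (by decide +kernel)
    rw [G0, G1, c0] at this
    simpa [dt] using this
  have s3 : State (c 2).1 c 3 [1, 0, 2] [0, 1, 0] := by
    refine ⟨by simp [ev_one], fun i hi => ?_⟩
    interval_cases i <;> simp [ev_one, ev_zero, ev_two, c0, c1, hc2]
  have s4 : State (c 2).1 c 4 [1, 0, 2, 5] [0, 1, 0, 2] :=
    step h2 s3 (g := 1) (u := 2) (v := 7) (u' := 1) (v' := 6)
      (by unfold StepOK; decide +kernel) (T 3 2 10 7 (by decide +kernel))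
      (T 3 1 9 6 (by decide +kernel)) (N 7 6 1 (by norm_num) (by decide +kernel))
  have s5 : State (c 2).1 c 5 [7, 0, 14, 27, 27] [0, 7, 0, 14, 15] :=
    step h2 s4 (g := 1) (u := 0) (v := 14) (u' := 15) (v' := 12)
      (by unfold StepOK; decide +kernel) (T 4 0 16 14 (by decide +kernel))
      (T 4 15 31 12 (by decide +kernel)) (N 14 12 2612558 (by norm_num) (by decide +kernel))
  have s6 : State (c 2).1 c 6 [121, 0, 242, 413, 413, 353] [0, 121, 0, 242, 225, 150] :=
    step h2 s5 (g := 7) (u := 16) (v := 17) (u' := 22) (v' := 3)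
      (by unfold StepOK; decide +kernel) (T 5 16 48 17 (by decide +kernel))
      (T 5 22 54 3 (by decide +kernel)) (N 17 3 3767529 (by norm_num) (by decide +kernel))
  have s7 : State (c 2).1 c 7 [14419, 0, 28838, 55583, 55583, 44603, 30608]
      [0, 14419, 0, 28838, 30907, 18282, 632] :=
    step h2 s6 (g := 121) (u := 45) (v := 41) (u' := 6) (v' := 52)
      (by unfold StepOK; decide +kernel) (T 6 45 109 41 (by decide +kernel))
      (T 6 6 70 52 (by decide +kernel)) (N 41 52 712001 (by norm_num) (by decide +kernel))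
  have s8 : State (c 2).1 c 8
      [10313847, 0, 20627694, 48816555, 48816555, 63082623, 19523664, 142088198]
      [0, 10313847, 0, 20627694, 17326335, 25538994, 897496, 92882816] :=
    step h2 s7 (g := 37354) (u := 92) (v := 90) (u' := 86) (v' := 82)
      (by unfold StepOK; decide +kernel) (T 7 92 220 90 (by decide +kernel))
      (T 7 86 214 82 (by decide +kernel)) (N 90 82 2472519 (by norm_num) (by decide +kernel))
  have f1 := rep_dt h2 s8 (u := 193) (v := 199) (by norm_num) (by norm_num)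
  rw [Z 193 199 (by decide +kernel), mul_zero] at f1
  have f2 : dm [10313847, 0, 20627694, 48816555, 48816555, 63082623, 19523664, 142088198]
      [0, 10313847, 0, 20627694, 17326335, 25538994, 897496, 92882816] 193 199 =
      cl 16192235 64102725 := by decide +kernel
  have f3 : cl 10313847 10313847 = cl 64102725 3317777 := by decide +kernel
  have f4 := congrArg (ev (c 2).1) f3
  rw [cl_spec h2, cl_spec h2] at f4
  have f5 : ev (c 2).1 10313847 ≠ 0 := s8.1
  have f6 : ev (c 2).1 64102725 ≠ 0 := left_ne_zero_of_mul (f4 ▸ mul_ne_zero f5 f5)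
  rw [f2, cl_spec h2] at f1
  have hf : ev (c 2).1 16192235 = 0 := (mul_eq_zero.1 f1).resolve_right f6
  have g1 : mF (frob 23 ^^^ 2) 2517850 = 1 := by decide +kernel
  have g2 := mF_spec h2 (c 2).1 hf (frob 23 ^^^ 2) 2517850 (by norm_num)
  rw [g1, ev_one, ev_xor h2, frob_spec h2 _ hf 23 le_rfl, hK, ev_two] at g2
  have g3 : (c 2).1 + (c 2).1 = 0 := by linear_combination (c 2).1 * h2
  rw [g3, zero_mul] at g2
  exact one_ne_zero g2

end Pool.Agent.Lib.helper16.QMat
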