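import Pool.Agent.Lib.helper16.QMatK

namespace Pool.Agent.Lib.helper16.QMat

open Pool.Agent.Lib.helper16.Gf2 Module

section Ann
variable {F R : Type} [Field F] [CommRing R] [Algebra F R]

/-- the vectors orthogonal to all elements of `T`. -/
def Ann (F : Type) {R : Type} [Field F] [CommRing R] [Algebra F R] (T : Set (R × R)) :
    Submodule F (R × R) where
  carrier := {y | ∀ z ∈ T, y.1 * z.1 + y.2 * z.2 = 0}
  add_mem' := by
    intro a b ha hb z hz
    have h1 := ha z hz
    have h2 := hb z hz
    simp only [Prod.fst_add, Prod.snd_add]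
    linear_combination h1 + h2
  zero_mem' := by intro z _; simp
  smul_mem' := by
    intro c a ha z hz
    have h1 := ha z hz
    rw [Prod.smul_fst, Prod.smul_snd, Algebra.smul_def, Algebra.smul_def]
    linear_combination (algebraMap F R c) * h1

lemma mem_Ann {T : Set (R × R)} {y : R × R} :
    y ∈ Ann F T ↔ ∀ z ∈ T, y.1 * z.1 + y.2 * z.2 = 0 := Iff.rfl

lemma Ann_top {T : Set (R × R)} (h : ∀ z ∈ T, z = 0) : Ann F T = ⊤ := by
  rw [eq_top_iff]
  intro y _ z hz
  simp [h z hz]

lemma Ann_bot {T : Set (R × R)} {z w : R × R} (hz : z ∈ T) (hw : w ∈ T) (h : IsUnit (dt z w)) :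
    Ann F T = ⊥ := by
  rw [eq_bot_iff]
  intro y hy
  have h1 := hy z hz
  have h2 := hy w hw
  rw [Submodule.mem_bot]
  ext
  · apply h.mul_right_eq_zero.1
    unfold dt
    linear_combination w.2 * h1 - z.2 * h2
  · apply h.mul_right_eq_zero.1
    unfold dt
    linear_combination z.1 * h2 - w.1 * h1

lemma Ann_line {T : Set (R × R)} {z : R × R} (hz : z ∈ T) (hu : IsUnit z.1 ∨ IsUnit z.2)
    (h : ∀ w ∈ T, dt z w = 0) : finrank F (Ann F T) = finrank F R := by
  let L : R →ₗ[F] R × R := LinearMap.prod (LinearMap.mulRight F z.2) (-LinearMap.mulRight F z.1)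
  have hL : ∀ r, L r = (r * z.2, -(r * z.1)) := fun r => rfl
  have hi : Function.Injective L := by
    rw [injective_iff_map_eq_zero]
    intro r hr
    rw [hL, Prod.mk_eq_zero, neg_eq_zero] at hr
    rcases hu with hu | hu
    · exact hu.mul_left_eq_zero.1 hr.2
    · exact hu.mul_left_eq_zero.1 hr.1
  have e : Ann F T = LinearMap.range L := by
    ext y
    constructor
    · intro hy
      have h1 := hy z hz
      rcases hu with hu | hu
      · obtain ⟨i, hi⟩ := hu.exists_right_inv
        refine ⟨-(y.2 * i), ?_⟩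
        rw [hL]
        ext
        · show -(y.2 * i) * z.2 = y.1
          linear_combination (-i) * h1 + y.1 * hi
        · show -(-(y.2 * i) * z.1) = y.2
          linear_combination y.2 * hi
      · obtain ⟨i, hi⟩ := hu.exists_right_inv
        refine ⟨y.1 * i, ?_⟩
        rw [hL]
        ext
        · show y.1 * i * z.2 = y.1
          linear_combination y.1 * hi
        · show -(y.1 * i * z.1) = y.2
          linear_combination (-i) * h1 + y.2 * hi
    · rintro ⟨r, rfl⟩ w hw
      have h1 := h w hw
      rw [hL]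
      unfold dt at h1
      show r * z.2 * w.1 + -(r * z.1) * w.2 = 0
      linear_combination (-r) * h1
  rw [e, LinearMap.finrank_range_of_inj hi]

end Ann

section Code
variable {F R : Type} [Field F] [CommRing R] [Algebra F R] {m n : ℕ}

/-- the encoder. -/
noncomputable def enc (b : Basis (Fin m) F R) (g : Fin n → R × R) :
    (R × R) →ₗ[F] (Fin n → Fin m → F) :=
  LinearMap.pi fun i => b.equivFun.toLinearMap ∘ₗ
    (LinearMap.mulRight F (g i).1 ∘ₗ LinearMap.fst F R R +
      LinearMap.mulRight F (g i).2 ∘ₗ LinearMap.snd F R R)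

lemma enc_apply (b : Basis (Fin m) F R) (g : Fin n → R × R) (y : R × R) (i : Fin n) :
    enc b g y i = b.equivFun (y.1 * (g i).1 + y.2 * (g i).2) := rfl

/-- the shortening subspace. -/
abbrev Sh (m : ℕ) (W : Submodule F (Fin n → F)) : Submodule F (Fin n → Fin m → F) :=
  ⨅ j : Fin m, Submodule.comap
    (LinearMap.pi (fun i : Fin n =>
      LinearMap.comp (LinearMap.proj j : (Fin m → F) →ₗ[F] F)
        (LinearMap.proj i : (Fin n → Fin m → F) →ₗ[F] (Fin m → F)))) W

lemma short (b : Basis (Fin m) F R) (g : Fin n → R × R) (hi : Function.Injective (enc b g))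
    (W : Submodule F (Fin n → F)) (T : Set (Fin n → F))
    (hW : ∀ w, w ∈ W ↔ ∀ t ∈ T, ∑ i, t i * w i = 0) :
    finrank F ↥(LinearMap.range (enc b g) ⊓ Sh m W) =
      finrank F (Ann F ((fun t => ∑ i, t i • g i) '' T)) := by
  rw [← Submodule.map_comap_eq,
    ← (Submodule.equivMapOfInjective _ hi _).finrank_eq]
  have e : Submodule.comap (enc b g) (Sh m W) = Ann F ((fun t => ∑ i, t i • g i) '' T) := by
    ext y
    simp only [Sh, Submodule.mem_comap, Submodule.mem_iInf, mem_Ann, Set.forall_mem_image, hW]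
    rw [forall_comm]
    apply forall_congr'
    intro t
    rw [forall_comm]
    apply forall_congr'
    intro _
    have e1 : y.1 * (∑ i, t i • g i).1 + y.2 * (∑ i, t i • g i).2 =
        ∑ i, t i • (y.1 * (g i).1 + y.2 * (g i).2) := by
      simp [Prod.fst_sum, Prod.snd_sum, Finset.mul_sum, Finset.sum_add_distrib]
    rw [e1, ← b.equivFun.map_eq_zero_iff, map_sum, funext_iff]
    apply forall_congr'
    intro j
    simp [enc_apply, mul_add]
  rw [e]

lemma perp_perp (W : Submodule F (Fin n → F)) (w : Fin n → F) :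
    w ∈ W ↔ ∀ t ∈ {t : Fin n → F | ∀ w ∈ W, ∑ i, t i * w i = 0}, ∑ i, t i * w i = 0 := by
  constructor
  · intro hw t ht
    exact ht w hw
  · intro h
    rw [← Subspace.forall_mem_dualAnnihilator_apply_eq_zero_iff]
    intro φ hφ
    have e : ∀ u : Fin n → F, φ u = ∑ i, φ (Pi.single i 1) * u i := by
      intro u
      rw [LinearMap.pi_apply_eq_sum_univ]
      apply Finset.sum_congr rfl
      intro i _
      rw [smul_eq_mul, mul_comm]
      congr 2
      funext j
      simp [Pi.single_apply, eq_comm]
    rw [e]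
    apply h
    intro u hu
    rw [← e]
    exact (Submodule.mem_dualAnnihilator φ).1 hφ u hu

lemma mem_perp (V : Submodule F (Fin n → F)) (w : Fin n → F) :
    w ∈ (⨅ (v : Fin n → F) (_ : v ∈ V), LinearMap.ker
      (∑ i : Fin n, v i • (LinearMap.proj i : (Fin n → F) →ₗ[F] F))) ↔
      ∀ t ∈ (V : Set (Fin n → F)), ∑ i, t i * w i = 0 := by
  simp [Submodule.mem_iInf, LinearMap.sum_apply]

end Code

section Pair
variable {K M : Type} [Field K] [AddCommGroup M] [Module K M]

lemma pair_two {x y : M} (h : LinearIndependent K ![x, y]) (z w : K × K) :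
    finrank K (Submodule.span K {z.1 • x + z.2 • y, w.1 • x + w.2 • y}) = 2 ↔ dt z w ≠ 0 := by
  have e : ∀ a b : M, finrank K (Submodule.span K {a, b}) = 2 ↔ LinearIndependent K ![a, b] := by
    intro a b
    rw [linearIndependent_iff_card_eq_finrank_span, Set.finrank, Matrix.range_cons_cons_empty]
    simp [eq_comm]
  rw [e]
  constructor
  · intro h1 h2
    unfold dt at h2
    have h3 := LinearIndependent.pair_iff.1 h1
    obtain ⟨a1, a2⟩ := h3 w.2 (-z.2) (by
      have : w.2 • (z.1 • x + z.2 • y) + -z.2 • (w.1 • x + w.2 • y)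
        = (z.1 * w.2 - z.2 * w.1) • x := by module
      rw [this, h2, zero_smul])
    obtain ⟨a3, a4⟩ := h3 w.1 (-z.1) (by
      have : w.1 • (z.1 • x + z.2 • y) + -z.1 • (w.1 • x + w.2 • y)
        = (-(z.1 * w.2 - z.2 * w.1)) • y := by module
      rw [this, h2, neg_zero, zero_smul])
    have := (h3 0 1 (by simp [a1, a3])).2
    exact one_ne_zero this
  · intro h1
    rw [LinearIndependent.pair_iff]
    intro s t hst
    obtain ⟨a1, a2⟩ := LinearIndependent.pair_iff.1 h (s * z.1 + t * w.1) (s * z.2 + t * w.2)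
      (by rw [← hst]; module)
    unfold dt at h1
    constructor
    · apply (mul_eq_zero.1 _).resolve_right h1
      linear_combination w.2 * a1 - w.1 * a2
    · apply (mul_eq_zero.1 _).resolve_right h1
      linear_combination z.1 * a2 - z.2 * a1

end Pair

end Pool.Agent.Lib.helper16.QMat
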