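import Pool.Agent.Lib.helper16.QMatChk

namespace Pool.Agent.Lib.helper16.QMat

open Pool.Agent.Lib.helper16.Gf2

section
variable {S : Type} [CommRing S]

lemma mF_spec (h2 : (2 : S) = 0) (x : S) (hf : ev x 16192235 = 0) (a b : ℕ) (hb : b ≤ 8388607) :
    ev x (mF a b) = ev x a * ev x b :=
  mm_spec h2 x hf (by omega)

lemma leafI_spec (h2 : (2 : S) = 0) (x : S) (hf : ev x 16192235 = 0) (c p : ℕ)
    (h : IsUnit (ev x (leafI c p))) : IsUnit (ev x p) ∧ (ev x c = 0 ∨ IsUnit (ev x c)) := by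
  unfold leafI at h
  by_cases h0 : c = 0
  · subst h0
    exact ⟨h, Or.inl (ev_zero x)⟩
  · have e : Nat.beq c 0 = false := by
      cases hb : Nat.beq c 0
      · rfl
      · exact absurd (Nat.eq_of_beq_eq_true hb) h0
    rw [e] at h
    by_cases h1 : c ≤ 8388607
    · rw [Nat.ble_eq_true_of_le h1] at h
      change IsUnit (ev x (mF p c)) at h
      rw [mF_spec h2 x hf _ _ h1, IsUnit.mul_iff] at h
      exact ⟨h.1, Or.inr h.2⟩
    · have e2 : Nat.ble c 8388607 = false := by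
        cases hb : Nat.ble c 8388607
        · rfl
        · exact absurd (Nat.le_of_ble_eq_true hb) h1
      rw [e2] at h
      change IsUnit (ev x 0) at h
      rw [ev_zero, isUnit_zero_iff] at h
      have := subsingleton_of_zero_eq_one h
      exact ⟨isUnit_of_subsingleton _, Or.inr (isUnit_of_subsingleton _)⟩

def QO (x : S) (r : ℕ) : Prop :=
  ∀ t, ev x (xl (slot r) t 8 0) = 0 ∨ IsUnit (ev x (xl (slot r) t 8 0))

lemma leafO_spec (h2 : (2 : S) = 0) (x : S) (hf : ev x 16192235 = 0) (r p : ℕ)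
    (h : IsUnit (ev x (leafO r p))) : IsUnit (ev x p) ∧ QO x r :=
  allx_spec (slot r) leafI (fun n => IsUnit (ev x n)) (fun c => ev x c = 0 ∨ IsUnit (ev x c))
    (leafI_spec h2 x hf) 8 0 p h

lemma chunk (h2 : (2 : S) = 0) (x : S) (hf : ev x 16192235 = 0) (c i : ℕ) (hi : i ≤ 8388607)
    (h : mF (allx PR leafO 6 c 1) i = 1) (t : ℕ → Bool) : QO x (xl PR t 6 c) := by
  have h1 := mF_spec h2 x hf (allx PR leafO 6 c 1) i hi
  rw [h, ev_one] at h1
  have h3 : IsUnit (ev x (allx PR leafO 6 c 1)) := IsUnit.of_mul_eq_one _ h1.symm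
  exact (allx_spec PR leafO (fun n => IsUnit (ev x n)) (QO x) (leafO_spec h2 x hf) 6 c 1 h3).2 t

lemma allQ (h2 : (2 : S) = 0) (x : S) (hf : ev x 16192235 = 0) (t : ℕ → Bool) :
    QO x (xl PR t 8 0) := by
  rw [xl, xl]
  cases t 7 <;> cases t 6
  · exact chunk h2 x hf _ _ (by norm_num) chk0 t
  · simpa using chunk h2 x hf _ _ (by norm_num) chk1 t
  · simpa using chunk h2 x hf _ _ (by norm_num) chk2 t
  · simpa using chunk h2 x hf _ _ (by norm_num) chk3 t

def PP : ℕ → ℕ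
  | 0 => 1 | 1 => 0 | 2 => 2 | 3 => 5 | 4 => 5 | 5 => 3613652 | 6 => 3980358 | 7 => 3197149
  | _ => 0

def QQ : ℕ → ℕ
  | 0 => 0 | 1 => 1 | 2 => 0 | 3 => 2 | 4 => 2612556 | 5 => 1113758 | 6 => 1415637
  | 7 => 1287064 | _ => 0

lemma pl_chk : ∀ i < 8, ∀ j < 8, slot (PR i) j = mF (PP i) (QQ j) ^^^ mF (QQ i) (PP j) ∧
    QQ j ≤ 8388607 ∧ PP j ≤ 8388607 := by decide +kernel

lemma slot_xor (a b j : ℕ) : slot (a ^^^ b) j = slot a j ^^^ slot b j := by
  show ((a ^^^ b) >>> (23 * j)) &&& 8388607 = ((a >>> (23 * j)) &&& 8388607) ^^^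
    ((b >>> (23 * j)) &&& 8388607)
  rw [Nat.shiftRight_xor_distrib, Nat.and_xor_distrib_right]

/-- sum of the selected values. -/
def sel {M : Type} [AddCommMonoid M] (c : ℕ → M) (t : ℕ → Bool) : M :=
  ∑ i ∈ Finset.range 8, if t i then c i else 0

lemma det_eq (h2 : (2 : S) = 0) (x : S) (hf : ev x 16192235 = 0) (s t : ℕ → Bool) :
    ev x (xl (slot (xl PR s 8 0)) t 8 0) =
      sel (fun i => ev x (PP i)) s * sel (fun i => ev x (QQ i)) t -
      sel (fun i => ev x (QQ i)) s * sel (fun i => ev x (PP i)) t := by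
  rw [xl_spec (ev x) (ev_xor h2 x), ev_zero, zero_add]
  have h1 : ∀ j ∈ Finset.range 8, ev x (slot (xl PR s 8 0) j) =
      sel (fun i => ev x (PP i)) s * ev x (QQ j) - sel (fun i => ev x (QQ i)) s * ev x (PP j) := by
    intro j hj
    rw [xl_spec (fun n => ev x (slot n j)) (fun a b => by rw [slot_xor, ev_xor h2])]
    have e0 : slot 0 j = 0 := by simp [slot, Nat.land]
    rw [e0, ev_zero, zero_add, sel, sel, Finset.sum_mul, Finset.sum_mul, ← Finset.sum_sub_distrib]
    apply Finset.sum_congr rfl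
    intro i hi
    obtain ⟨e1, e2, e3⟩ := pl_chk i (Finset.mem_range.1 hi) j (Finset.mem_range.1 hj)
    cases s i
    · simp
    · simp only [if_true]
      rw [e1, ev_xor h2, mF_spec h2 x hf _ _ e2, mF_spec h2 x hf _ _ e3]
      linear_combination (ev x (QQ i) * ev x (PP j)) * h2
  rw [Finset.sum_congr rfl (fun j hj => by rw [h1 j hj])]
  conv_rhs => rw [sel.eq_def _ t, sel.eq_def _ t, Finset.mul_sum, Finset.mul_sum,
    ← Finset.sum_sub_distrib]
  apply Finset.sum_congr rfl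
  intro j _
  cases t j <;> simp

end

end Pool.Agent.Lib.helper16.QMat
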