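import Pool.Agent.Lib.helper16.QfA

namespace Pool.Agent.Lib.helper16.Qf

theorem c0 : allR 14 0 = true := by decide +kernel
theorem c1 : allR 14 1 = true := by decide +kernel
theorem c2 : allR 14 2 = true := by decide +kernel
theorem c3 : allR 14 3 = true := by decide +kernel
theorem c4 : allR 14 4 = true := by decide +kernel
theorem c5 : allR 14 5 = true := by decide +kernel
theorem c6 : allR 14 6 = true := by decide +kernel

end Pool.Agent.Lib.helper16.Qf
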