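import Pool.Agent.Lib.helper16.QfA

namespace Pool.Agent.Lib.helper16.Qf

theorem c7 : allR 14 7 = true := by decide +kernel
theorem c8 : allR 14 8 = true := by decide +kernel
theorem c9 : allR 14 9 = true := by decide +kernel
theorem c10 : allR 14 10 = true := by decide +kernel
theorem c11 : allR 14 11 = true := by decide +kernel
theorem c12 : allR 14 12 = true := by decide +kernel
theorem c13 : allR 14 13 = true := by decide +kernel
theorem c14 : allR 14 14 = true := by decide +kernel

end Pool.Agent.Lib.helper16.Qf
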