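import Pool.Agent.Lib.helper16.QfA

namespace Pool.Agent.Lib.helper16.Qf

theorem c15 : allR 14 15 = true := by decide +kernel
theorem c16 : allR 14 16 = true := by decide +kernel
theorem c17 : allR 14 17 = true := by decide +kernel
theorem c18 : allR 14 18 = true := by decide +kernel
theorem c19 : allR 14 19 = true := by decide +kernel
theorem c20 : allR 14 20 = true := by decide +kernel
theorem c21 : allR 14 21 = true := by decide +kernel
theorem c22 : allR 14 22 = true := by decide +kernel
theorem c23 : allR 14 23 = true := by decide +kernel
theorem c24 : allR 14 24 = true := by decide +kernel

end Pool.Agent.Lib.helper16.Qf
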