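import Pool.Agent.Lib.helper16.QfA

namespace Pool.Agent.Lib.helper16.Qf

theorem c25 : allR 14 25 = true := by decide +kernel
theorem c26 : allR 14 26 = true := by decide +kernel
theorem c27 : allR 14 27 = true := by decide +kernel
theorem c28 : allR 14 28 = true := by decide +kernel
theorem c29 : allR 14 29 = true := by decide +kernel
theorem c30 : allR 14 30 = true := by decide +kernel
theorem c31 : allR 14 31 = true := by decide +kernel
theorem c32 : allR 14 32 = true := by decide +kernel
theorem c33 : allR 14 33 = true := by decide +kernel

end Pool.Agent.Lib.helper16.Qf
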