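import Mathlib

set_option autoImplicit false
open Filter Topology Set

namespace Pool.Agent.Lib.helper16.Rho

variable {I : Type} [LinearOrder I] [WellFoundedLT I]

omit [WellFoundedLT I] in
lemma exists_en (hc : ∀ b : I, (Iio b).Countable) :
    ∃ en : I → ℕ → I, ∀ b a, a < b → (∀ n, en b n < b) ∧ ∃ n, en b n = a := by
  have : ∀ b : I, ∃ f : ℕ → I, ∀ a, a < b → (∀ n, f n < b) ∧ ∃ n, f n = a := by
    intro b
    by_cases h : (Iio b).Nonempty
    · obtain ⟨f, hf⟩ := (hc b).exists_eq_range h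
      refine ⟨f, fun a ha => ⟨fun n => ?_, ?_⟩⟩
      · have : f n ∈ Iio b := hf ▸ mem_range_self n
        exact this
      · have : a ∈ range f := hf ▸ ha
        exact this
    · exact ⟨fun _ => b, fun a ha => absurd ⟨a, ha⟩ h⟩
  choose en h using this
  exact ⟨en, h⟩

lemma exists_rho (hc : ∀ b : I, (Iio b).Countable) : ∃ ρ : I → I → ℕ,
    (∀ b n, {a | a < b ∧ ρ b a ≤ n}.Finite) ∧
    (∀ b c, c ≤ b → {a | a < c ∧ ρ b a ≠ ρ c a}.Finite) := by
  classical
  obtain ⟨en, hen⟩ := exists_en hc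
  let nn : I → I → ℕ := fun b a => sInf {n | a ≤ en b n}
  have hnn : ∀ b a, a < b → a ≤ en b (nn b a) := by
    intro b a h
    obtain ⟨n, hn⟩ := (hen b a h).2
    exact Nat.sInf_mem (s := {n | a ≤ en b n}) ⟨n, hn.ge⟩
  let F : (b : I) → ((y : I) → y < b → I → ℕ) → I → ℕ := fun b ih a =>
    if h : en b (nn b a) < b then max (nn b a) (ih _ h a) else 0
  let ρ : I → I → ℕ := WellFoundedLT.fix F
  have hρ : ∀ b a, a < b → ρ b a = max (nn b a) (ρ (en b (nn b a)) a) := by
    intro b a h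
    have : ρ b = F b fun y _ => ρ y := WellFoundedLT.fix_eq F b
    rw [this]
    simp only [F]
    rw [dif_pos ((hen b a h).1 _)]
  have fin : ∀ b n, {a | a < b ∧ ρ b a ≤ n}.Finite := by
    intro b
    induction b using WellFoundedLT.induction with
    | ind b ih =>
      intro n
      by_cases h : ∃ a, a < b
      · obtain ⟨a0, ha0⟩ := h
        have hlt := (hen b a0 ha0).1
        refine ((finite_Iic n).biUnion fun i _ =>
          (ih (en b i) (hlt i) n).insert (en b i)).subset fun a ha => ?_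
        obtain ⟨h1, h2⟩ := ha
        rw [hρ b a h1, max_le_iff] at h2
        refine mem_biUnion (x := nn b a) h2.1 ?_
        rcases (hnn b a h1).eq_or_lt with h3 | h3
        · exact Or.inl h3
        · exact Or.inr ⟨h3, h2.2⟩
      · exact finite_empty.subset fun a ha => h ⟨a, ha.1⟩
  refine ⟨ρ, fin, fun b => ?_⟩
  induction b using WellFoundedLT.induction with
  | ind b ih =>
    intro c hcb
    rcases hcb.eq_or_lt with rfl | hcb
    · exact finite_empty.subset fun a ha => ha.2 rfl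
    have hlt := (hen b c hcb).1
    have sym : ∀ x, x < b → {a | a < x ∧ a < c ∧ ρ x a ≠ ρ c a}.Finite := by
      intro x hx
      rcases le_total x c with h | h
      · exact (ih c hcb x h).subset fun a ha => ⟨ha.1, fun e => ha.2.2 e.symm⟩
      · exact (ih x hx c h).subset fun a ha => ⟨ha.2.1, ha.2.2⟩
    refine ((finite_Iic (nn b c)).biUnion fun i _ =>
      ((fin (en b i) i).union (sym (en b i) (hlt i))).insert (en b i)).subset fun a ha => ?_
    obtain ⟨h1, h2⟩ := ha
    have hab := h1.trans hcb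
    have hle : nn b a ≤ nn b c := Nat.sInf_le (s := {n | a ≤ en b n}) (h1.le.trans (hnn b c hcb))
    refine mem_biUnion (x := nn b a) hle ?_
    rcases (hnn b a hab).eq_or_lt with h3 | h3
    · exact Or.inl h3
    · right
      by_cases h4 : ρ (en b (nn b a)) a ≤ nn b a
      · exact Or.inl ⟨h3, h4⟩
      · refine Or.inr ⟨h3, h1, ?_⟩
        rw [hρ b a hab, max_eq_right (not_le.mp h4).le] at h2
        exact h2

theorem exists_coh (hc : ∀ b : I, (Iio b).Countable) : ∃ e : I → I → ℕ,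
    (∀ b, InjOn (e b) (Iio b)) ∧
    ∀ c, ∃ κ : I → ℕ, ∀ b b', c ≤ b → c ≤ b' → κ b = κ b' → ∀ a, a < c → e b a = e b' a := by
  obtain ⟨ρ, fin, coh⟩ := exists_rho hc
  refine ⟨fun b a => Nat.pair (ρ b a) {x | x < a ∧ ρ b x ≤ ρ b a}.ncard, fun b => ?_, fun c => ?_⟩
  · have key : ∀ a a', a < b → a' < a → ρ b a = ρ b a' →
        {x | x < a' ∧ ρ b x ≤ ρ b a'}.ncard < {x | x < a ∧ ρ b x ≤ ρ b a}.ncard := by
      intro a a' ha h e
      refine ncard_lt_ncard ⟨fun x hx => ⟨hx.1.trans h, e ▸ hx.2⟩, fun hs => ?_⟩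
        ((fin b (ρ b a)).subset fun x hx => ⟨hx.1.trans ha, hx.2⟩)
      exact lt_irrefl _ (hs (⟨h, e.ge⟩ : a' ∈ {x | x < a ∧ ρ b x ≤ ρ b a})).1
    intro a ha a' ha' h
    simp only [Nat.pair_eq_pair] at h
    rcases lt_trichotomy a a' with h1 | h1 | h1
    · exact absurd h.2 (key a' a ha' h1 h.1.symm).ne
    · exact h1
    · exact absurd h.2.symm (key a a' ha h1 h.1).ne
  · obtain ⟨f, hf⟩ := countable_iff_exists_injOn.mp
      (countable_ofPred_finite_subset ((hc c).prod countable_univ (β := ℕ)))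
    let code : I → Set (I × ℕ) := fun b => (fun a => (a, ρ b a)) '' {a | a < c ∧ ρ b a ≠ ρ c a}
    have hcode : ∀ b, c ≤ b → code b ∈ {t : Set (I × ℕ) | t.Finite ∧ t ⊆ Iio c ×ˢ univ} := by
      intro b hb
      refine ⟨(coh b c hb).image _, ?_⟩
      rintro _ ⟨a, ha, rfl⟩
      exact ⟨ha.1, trivial⟩
    refine ⟨fun b => f (code b), fun b b' hb hb' h => ?_⟩
    have e := hf (hcode b hb) (hcode b' hb') h
    have agree : ∀ a, a < c → ρ b a = ρ b' a := by
      intro a ha
      by_cases h1 : ρ b a = ρ c a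
      · by_cases h2 : ρ b' a = ρ c a
        · rw [h1, h2]
        · have : (a, ρ b' a) ∈ code b := e ▸ ⟨a, ⟨ha, h2⟩, rfl⟩
          obtain ⟨x, _, hx⟩ := this
          simp only [Prod.mk.injEq] at hx
          rw [← hx.2, hx.1]
      · have : (a, ρ b a) ∈ code b' := e ▸ ⟨a, ⟨ha, h1⟩, rfl⟩
        obtain ⟨x, _, hx⟩ := this
        simp only [Prod.mk.injEq] at hx
        rw [← hx.2, hx.1]
    intro a ha
    have : {x | x < a ∧ ρ b x ≤ ρ b a} = {x | x < a ∧ ρ b' x ≤ ρ b' a} := by
      ext x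
      simp only [mem_ofPred_eq]
      refine and_congr_right fun hx => ?_
      rw [agree a ha, agree x (hx.trans ha)]
    simp only
    rw [this, agree a ha]

end Pool.Agent.Lib.helper16.Rho
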