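import Mathlib
set_option autoImplicit false
open Finset

namespace Pool.Agent.Lib.helper16.Rig

def C (g : ℕ → Bool) (i : ℕ) : ℕ := ∑ t ∈ range i, if g t then 1 else 0

lemma C_succ (g : ℕ → Bool) (i : ℕ) : C g (i + 1) = C g i + if g i then 1 else 0 :=
  sum_range_succ _ _

lemma C_mono (g : ℕ → Bool) {i j : ℕ} (h : i ≤ j) : C g i ≤ C g j :=
  sum_le_sum_of_subset (range_mono h)

def Good (K : ℕ) (g : ℕ → Bool) : Prop :=
  ∀ k < K, ∀ i, (i % 3 ^ (k + 1) = 3 ^ k → g i = true) ∧ (i % 3 ^ (k + 1) = 2 * 3 ^ k → g i = false)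

variable {K : ℕ} {g : ℕ → Bool}

lemma g_one (h : Good K g) (hK : 0 < K) {i : ℕ} (hi : i % 3 = 1) : g i = true :=
  (h 0 hK i).1 (by simpa using hi)

lemma C_three (h : Good K g) (hK : 0 < K) (i : ℕ) : C g i + 1 ≤ C g (i + 3) := by
  rw [C_succ g (i + 2), C_succ g (i + 1), C_succ g i]
  have : i % 3 = 1 ∨ (i + 1) % 3 = 1 ∨ (i + 2) % 3 = 1 := by omega
  rcases this with e | e | e <;> simp only [g_one h hK e, if_true] <;> omega

lemma C_three' (h : Good K g) (hK : 0 < K) (i n : ℕ) : C g i + n ≤ C g (i + 3 * n) := by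
  induction n with
  | zero => simp
  | succ n ih => have := C_three h hK (i + 3 * n); rw [show i + 3 * (n + 1) = i + 3 * n + 3 by ring]; omega

lemma low_digit (M i : ℕ) (hi : ¬ 3 ^ M ∣ i) :
    ∃ k < M, i % 3 ^ (k + 1) = 3 ^ k ∨ i % 3 ^ (k + 1) = 2 * 3 ^ k := by
  induction M with
  | zero => simp at hi
  | succ M ih =>
    by_cases h : 3 ^ M ∣ i
    · obtain ⟨c, rfl⟩ := h
      refine ⟨M, by omega, ?_⟩
      rw [pow_succ, Nat.mul_mod_mul_left]
      have : c % 3 ≠ 0 := fun e => hi (by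
        rw [pow_succ]; exact Nat.mul_dvd_mul_left _ (Nat.dvd_of_mod_eq_zero e))
      have : c % 3 = 1 ∨ c % 3 = 2 := by omega
      rcases this with e | e <;> rw [e] <;> simp [mul_comm]
    · obtain ⟨k, hk, e⟩ := ih h
      exact ⟨k, by omega, e⟩

lemma g_per (h : Good K g) {M : ℕ} (hM : M ≤ K) {i : ℕ} (hi : ¬ 3 ^ M ∣ i) (s : ℕ) :
    g (i + 3 ^ M * s) = g i := by
  obtain ⟨k, hk, e⟩ := low_digit M i hi
  have : (i + 3 ^ M * s) % 3 ^ (k + 1) = i % 3 ^ (k + 1) := by
    obtain ⟨c, hc⟩ := pow_dvd_pow 3 (show k + 1 ≤ M from hk)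
    rw [hc, mul_assoc, Nat.add_mul_mod_self_left]
  rcases e with e | e
  · rw [(h k (by omega) i).1 e, (h k (by omega) _).1 (this.trans e)]
  · rw [(h k (by omega) i).2 e, (h k (by omega) _).2 (this.trans e)]

lemma near (h : Good K g) (hK : 0 < K) {a b : ℕ} (ha : g a = true) (hab : a < b) :
    C g a + 1 ≤ C g b ∧ (C g b ≤ C g a + 1 → b ≤ a + 3) := by
  have h1 := C_succ g a
  rw [ha, if_pos rfl] at h1
  have h2 := C_mono g (show a + 1 ≤ b from hab)
  refine ⟨by omega, fun h3 => ?_⟩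
  by_contra hc
  have h4 := C_mono g (show a + 1 + 3 ≤ b by omega)
  have := C_three h hK (a + 1)
  omega

def Bad (P : ℕ → Bool) (m q : ℕ) : ℕ := ∑ t ∈ range (3 ^ m), if P (3 ^ m * q + t) then 1 else 0

lemma Bad_succ (P : ℕ → Bool) (m q : ℕ) :
    Bad P (m + 1) q = Bad P m (3 * q) + Bad P m (3 * q + 1) + Bad P m (3 * q + 2) := by
  unfold Bad
  rw [show 3 ^ (m + 1) = 3 ^ m + 3 ^ m + 3 ^ m by ring, sum_range_add, sum_range_add]
  congr 1
  · congr 1 <;> refine sum_congr rfl fun t _ => ?_ <;> congr 3 <;> ring_nf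
  · refine sum_congr rfl fun t _ => ?_; congr 3; ring_nf

lemma Bad_ge (P : ℕ → Bool) (m q : ℕ) (h : ∀ t < 3 ^ (m + 1), t % 3 = 1 → P (3 ^ (m + 1) * q + t)) :
    3 ^ m ≤ Bad P (m + 1) q := by
  unfold Bad
  rw [sum_boole, Nat.cast_id]
  conv_lhs => rw [← card_range (3 ^ m)]
  refine card_le_card_of_injOn (fun u => 3 * u + 1) ?_ fun u _ v _ e => by simpa using e
  intro u hu
  simp only [coe_range, Set.mem_Iio, coe_filter, mem_range, Set.mem_ofPred_eq] at hu ⊢
  have : 3 * u + 1 < 3 ^ (m + 1) := by rw [pow_succ]; omega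
  exact ⟨this, h _ this (by omega)⟩

lemma topdown (P : ℕ → Bool) (m : ℕ) : ∀ q, (∀ i, i / 3 ^ (m + 1) = q → i % 3 = 1 →
    ∃ m' ≤ m, 3 ^ (m' + 1) ≤ 9 * Bad P (m' + 1) (i / 3 ^ (m' + 1))) →
    3 ^ (m + 1) ≤ 9 * Bad P (m + 1) q := by
  induction m with
  | zero =>
    intro q h
    obtain ⟨m', hm, e⟩ := h (3 * q + 1) (by simp; omega) (by omega)
    obtain rfl : m' = 0 := by omega
    rwa [show (3 * q + 1) / 3 ^ (0 + 1) = q by simp; omega] at e
  | succ m ih =>
    intro q h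
    by_contra hc
    have key : ∀ e < 3, 3 ^ (m + 1) ≤ 9 * Bad P (m + 1) (3 * q + e) := fun e he =>
      ih _ fun i hi hi3 => by
        have h1 : i / 3 ^ (m + 1 + 1) = q := by
          rw [pow_succ, ← Nat.div_div_eq_div_mul, hi]; omega
        obtain ⟨m', hm, e'⟩ := h i h1 hi3
        refine ⟨m', ?_, e'⟩
        by_contra hm'
        obtain rfl : m' = m + 1 := by omega
        exact hc (h1 ▸ e')
    have a0 := key 0 (by norm_num); have a1 := key 1 (by norm_num); have a2 := key 2 (by norm_num)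
    rw [Bad_succ, pow_succ] at hc
    rw [add_zero] at a0
    omega

theorem core (h : Good (K + 1) g) (n : ℕ) (hn : 0 < n) (hnK : 3 * n < 3 ^ (K + 1)) (R : ℕ → ℕ)
    (hR : ∀ i, g i = true → C g (i + R i) = C g i + n ∧ g (i + R i) = true) :
    3 ^ (K + 1) ≤ 9 * Bad (fun i => g i && !decide (9 ∣ R i)) (K + 1) 0 := by
  have hK : 0 < K + 1 := by omega
  refine topdown _ K 0 fun i _ hi3 => ?_
  have gi := g_one h hK hi3
  by_cases h9 : 9 ∣ R i
  swap
  · refine ⟨0, by omega, ?_⟩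
    have := Bad_ge (fun i => g i && !decide (9 ∣ R i)) 0 (i / 3 ^ (0 + 1)) fun t ht ht' => by
      have : 3 ^ (0 + 1) * (i / 3 ^ (0 + 1)) + t = i := by simp at ht ⊢; omega
      rw [this]; simp [gi, h9]
    omega
  obtain ⟨hR1, hR2⟩ := hR i gi
  have hR0 : R i ≠ 0 := fun e => by rw [e] at hR1; simp at hR1; omega
  have hR3 : R i ≤ 3 * n := by
    by_contra hc
    have a := C_mono g (show i + 1 + 3 * n ≤ i + R i by omega)
    have b := C_three' h hK (i + 1) n
    have c := C_succ g i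
    rw [gi, if_pos rfl] at c
    omega
  obtain ⟨M, s, hs, e⟩ := Nat.exists_eq_pow_mul_and_not_dvd hR0 3 (by norm_num)
  have hM2 : 2 ≤ M := by
    by_contra hc
    have : M = 0 ∨ M = 1 := by omega
    rcases this with rfl | rfl <;> omega
  have hMK : M < K + 1 := by
    have hs0 : 0 < s := Nat.pos_of_ne_zero fun e0 => hs (by simp [e0])
    have : 3 ^ M ≤ 3 ^ M * s := Nat.le_mul_of_pos_right _ hs0
    exact (Nat.pow_lt_pow_iff_right (by norm_num : 1 < 3)).1 (by omega)
  obtain ⟨M, rfl⟩ : ∃ M', M = M' + 1 := ⟨M - 1, by omega⟩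
  set H := 3 ^ (M + 1) with hH
  have H0 : 0 < H := by positivity
  have H3 : 3 ∣ H := dvd_pow_self 3 (by omega)
  have H9 : 9 ∣ H * s := e ▸ h9
  let D : ℕ → ℤ := fun j => (C g (j + H * s) : ℤ) - C g j
  have hD : ∀ j, D (j + 1) = D j + ((if g (j + H * s) then 1 else 0) - (if g j then 1 else 0)) := by
    intro j
    simp only [D]
    rw [show j + 1 + H * s = j + H * s + 1 by ring, C_succ, C_succ]
    push_cast; ring
  have nd : ∀ q t, 0 < t → t < H → ¬ H ∣ H * q + t := fun q t h0 h1 hd =>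
    absurd (Nat.le_of_dvd h0 ((Nat.dvd_add_right (dvd_mul_right H q)).1 hd)) (by omega)
  have hc : ∀ q t, 1 ≤ t → t ≤ H → D (H * q + t) = D (H * q + 1) := by
    intro q t h1
    induction t, h1 using Nat.le_induction with
    | base => intro; rfl
    | succ t ht ih =>
      intro h2
      rw [← add_assoc, hD, g_per h hMK.le (nd q t (by omega) (by omega)), ih (by omega)]
      simp
  have hN : ∀ q, D (H * (q + 1) + 1) = D (H * q + 1) +
      ((if g (H * (q + 1 + s)) then 1 else 0) - (if g (H * (q + 1)) then 1 else 0)) := by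
    intro q
    rw [hD, ← hc q H H0 le_rfl, mul_add H q 1, mul_one]
    congr 4; ring
  have gT : ∀ c, c % 3 = 1 → g (H * c) = true := fun c hc3 =>
    (h (M + 1) hMK _).1 (by rw [pow_succ, ← hH, Nat.mul_mod_mul_left, hc3, mul_one])
  have gF : ∀ c, c % 3 = 2 → g (H * c) = false := fun c hc3 =>
    (h (M + 1) hMK _).2 (by rw [pow_succ, ← hH, Nat.mul_mod_mul_left, hc3, mul_comm])
  set q := i / 3 ^ (M + 1 + 1) with hq
  have hi : D (H * (i / H) + 1) = n := by
    have e1 := Nat.div_add_mod i H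
    have e2 : i % H % 3 = 1 := by rw [Nat.mod_mod_of_dvd _ H3, hi3]
    rw [← hc (i / H) (i % H) (by omega) (Nat.mod_lt _ H0).le, e1]
    simp only [D]
    rw [← e, hR1]; push_cast; ring
  have hiq : i / H / 3 = q := by rw [hq, pow_succ, Nat.div_div_eq_div_mul]
  have ex : ∃ e < 3, D (H * (3 * q + e) + 1) = n + 1 ∨ D (H * (3 * q + e) + 1) = n - 1 := by
    have n1 := hN (3 * q)
    have n2 := hN (3 * q + 1)
    rw [gT (3 * q + 1) (by omega)] at n1
    rw [gF (3 * q + 1 + 1) (by omega)] at n2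
    by_contra hcon
    push Not at hcon
    have c0 := hcon 0 (by norm_num); have c1 := hcon 1 (by norm_num); have c2 := hcon 2 (by norm_num)
    rw [add_zero] at c0
    rw [show 3 * q + 1 + 1 = 3 * q + 2 from rfl] at n2
    have hs3 : s % 3 = 1 ∨ s % 3 = 2 := by omega
    have hi' : i / H = 3 * q ∨ i / H = 3 * q + 1 ∨ i / H = 3 * q + 2 := by omega
    rcases hs3 with s3 | s3
    · rw [gF (3 * q + 1 + s) (by omega)] at n1
      simp only [if_true, Bool.false_eq_true, if_false] at n1 n2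
      rcases hi' with e' | e' | e' <;> rw [e'] at hi <;> split_ifs at n2 <;> omega
    · rw [gT (3 * q + 2 + s) (by omega)] at n2
      simp only [if_true, Bool.false_eq_true, if_false] at n1 n2
      rcases hi' with e' | e' | e' <;> rw [e'] at hi <;> split_ifs at n1 <;> omega
  obtain ⟨e', he', hd⟩ := ex
  refine ⟨M + 1, by omega, ?_⟩
  have hb := Bad_ge (fun i => g i && !decide (9 ∣ R i)) M (3 * q + e') fun t ht ht' => by
    rw [← hH] at ht ⊢
    rw [← hc _ t (by omega) ht.le] at hd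
    set j := H * (3 * q + e') + t with hj
    have j3 : j % 3 = 1 := by
      obtain ⟨c, hc⟩ := H3
      rw [hj, hc, mul_assoc]; omega
    have gj := g_one h hK j3
    have gj' : g (j + H * s) = true := by rw [g_per h hMK.le (nd _ t (by omega) ht), gj]
    obtain ⟨r1, r2⟩ := hR j gj
    simp only [gj, Bool.true_and, Bool.not_eq_true', decide_eq_false_iff_not]
    intro h9'
    simp only [D] at hd
    rcases lt_trichotomy (j + H * s) (j + R j) with l | l | l
    · have := near h hK gj' l; omega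
    · rw [l] at hd; omega
    · have := near h hK r2 l; omega
  rw [← hq, Bad_succ]
  have : e' = 0 ∨ e' = 1 ∨ e' = 2 := by omega
  have e3 : 3 ^ (M + 1 + 1) = 9 * 3 ^ M := by ring
  rcases this with rfl | rfl | rfl
  · rw [add_zero] at hb; omega
  · omega
  · omega

end Pool.Agent.Lib.helper16.Rig
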