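import Mathlib

set_option autoImplicit false

namespace Pool.Agent.Lib.H16Sat
open Finset

theorem determ {m n k : ℕ} (f : Fin m → Fin k → Fin n) (σ : Fin m → Fin k → Bool) (t : ℕ)
    (H1 : ∀ T : Finset (Fin m), T.card = t → ¬ ∀ i ∈ T, ∀ j, σ i j = true →
      ∃ i' ∈ T, ∃ j', σ i' j' = false ∧ f i j = f i' j')
    (H2 : ∀ T : Finset (Fin m), T.card ≤ t → T.card ≤ (T.biUnion (fun i => univ.image (f i))).card) :
    ∃ a : Fin n → Bool, ∀ i, ∃ j, a (f i j) = σ i j := by
  classical
  let good : Finset (Fin m) → Prop := fun T => ∀ i ∈ T, ∀ j, σ i j = true →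
      ∃ i' ∈ T, ∃ j', σ i' j' = false ∧ f i j = f i' j'
  obtain ⟨T, hT, hmax⟩ := exists_max_image
    (univ.filter (fun T : Finset (Fin m) => good T ∧ T.card ≤ t)) card ⟨∅, by simp [good]⟩
  simp only [mem_filter, mem_univ, true_and] at hT hmax
  have hlt : T.card < t := lt_of_le_of_ne hT.2 (fun e => H1 T e hT.1)
  have hout : ∀ i ∉ T, ∃ j, σ i j = true ∧ ∀ i' ∈ T, ∀ j', f i j ≠ f i' j' := by
    intro i hi
    by_contra hne
    push Not at hne
    have hg : good (insert i T) := by
      intro i1 hi1 j hj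
      rcases mem_insert.1 hi1 with rfl | hi1
      · obtain ⟨i', hi', j', e⟩ := hne j hj
        by_cases hs : σ i' j' = true
        · obtain ⟨i2, hi2, j2, h1, h2⟩ := hT.1 i' hi' j' hs
          exact ⟨i2, mem_insert_of_mem hi2, j2, h1, e.trans h2⟩
        · exact ⟨i', mem_insert_of_mem hi', j', by simpa using hs, e⟩
      · obtain ⟨i2, hi2, j2, h1, h2⟩ := hT.1 i1 hi1 j hj
        exact ⟨i2, mem_insert_of_mem hi2, j2, h1, h2⟩
    have := hmax _ ⟨hg, by rw [card_insert_of_notMem hi]; omega⟩
    rw [card_insert_of_notMem hi] at this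
    omega
  obtain ⟨φ, hφ, hφ2⟩ := (Finset.all_card_le_biUnion_card_iff_exists_injective
    (fun i : T => univ.image (f i))).1 (by
      intro s
      have h1 := H2 (s.image Subtype.val) (by
        refine le_trans (card_le_card ?_) hT.2
        intro x hx
        obtain ⟨y, _, rfl⟩ := mem_image.1 hx
        exact y.2)
      rw [card_image_of_injective _ Subtype.val_injective, image_biUnion] at h1
      exact h1)
  have : ∀ i : T, ∃ j, f i j = φ i := fun i => by simpa using hφ2 i
  choose J hJ using this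
  refine ⟨fun v => if h : ∃ i : T, φ i = v then σ h.choose (J h.choose) else true, fun i => ?_⟩
  by_cases hi : i ∈ T
  · refine ⟨J ⟨i, hi⟩, ?_⟩
    have h : ∃ i' : T, φ i' = f i (J ⟨i, hi⟩) := ⟨⟨i, hi⟩, (hJ ⟨i, hi⟩).symm⟩
    have e : h.choose = ⟨i, hi⟩ := hφ (h.choose_spec.trans (hJ ⟨i, hi⟩))
    simp only [dif_pos h]
    rw [e]
  · obtain ⟨j, h1, h2⟩ := hout i hi
    refine ⟨j, ?_⟩
    have h : ¬ ∃ i' : T, φ i' = f i j := by
      rintro ⟨i', e⟩
      exact h2 i' i'.2 (J i') (by rw [hJ, e])
    simp only [dif_neg h, h1]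

theorem count_in {I : Type*} [Fintype I] [DecidableEq I] {n : ℕ} (P : Finset I)
    (U : Finset (Fin n)) :
    (univ.filter (fun g : I → Fin n => ∀ x ∈ P, g x ∈ U)).card =
      U.card ^ P.card * n ^ (Fintype.card I - P.card) := by
  have : univ.filter (fun g : I → Fin n => ∀ x ∈ P, g x ∈ U) =
      Fintype.piFinset (fun x => if x ∈ P then U else univ) := by
    ext g
    simp only [mem_filter, mem_univ, true_and, Fintype.mem_piFinset]
    apply forall_congr'
    intro x
    split_ifs with h <;> simp [h]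
  rw [this, Fintype.card_piFinset]
  simp only [apply_ite card, card_univ, Fintype.card_fin]
  rw [prod_ite, prod_const, prod_const, filter_mem_eq_inter, univ_inter]
  congr 2
  rw [filter_not, filter_mem_eq_inter, univ_inter, card_sdiff_of_subset (subset_univ _), card_univ]

theorem count_rel {I : Type*} [Fintype I] [DecidableEq I] {n : ℕ} (hn : 0 < n) (P Q : Finset I)
    (hPQ : Disjoint P Q) :
    (univ.filter (fun g : I → Fin n => ∀ x ∈ P, ∃ y ∈ Q, g x = g y)).card ≤
      Q.card ^ P.card * n ^ (Fintype.card I - P.card) := by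
  classical
  let d : Fin n := ⟨0, hn⟩
  let ρ : (I → Fin n) → (I → Fin n) := fun g x => if x ∈ P then d else g x
  refine le_trans (card_le_mul_card_image (f := ρ) _ (Q.card ^ P.card) ?_) ?_
  · intro g0 _
    refine le_trans (card_le_card (t := Fintype.piFinset
      (fun x => if x ∈ P then Q.image g0 else {g0 x})) ?_) ?_
    · intro g hg
      simp only [mem_filter, mem_univ, true_and] at hg
      obtain ⟨h1, rfl⟩ := hg
      rw [Fintype.mem_piFinset]
      intro x
      split_ifs with h
      · obtain ⟨y, hy, e⟩ := h1 x h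
        refine mem_image.2 ⟨y, hy, ?_⟩
        have : y ∉ P := fun hp => disjoint_left.1 hPQ hp hy
        simp [ρ, this, e]
      · simp [ρ, h]
    · rw [Fintype.card_piFinset]
      simp only [apply_ite card, card_singleton]
      rw [prod_ite, prod_const, prod_const, filter_mem_eq_inter, univ_inter, one_pow, mul_one]
      exact Nat.pow_le_pow_left card_image_le _
  · apply Nat.mul_le_mul_left
    have := count_in P ({d} : Finset (Fin n))
    rw [card_singleton, one_pow, one_mul] at this
    rw [← this]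
    apply card_le_card
    intro g hg
    obtain ⟨g', _, rfl⟩ := mem_image.1 hg
    simp only [mem_filter, mem_univ, true_and]
    intro x hx
    simp [ρ, hx]

theorem choose_le (m s : ℕ) (hs : 0 < s) : (m.choose s : ℝ) ≤ (3 * m / s) ^ s := by
  have h1 : (m.choose s : ℝ) ≤ (m : ℝ) ^ s / s.factorial := Nat.choose_le_pow_div s m
  have h2 : (s : ℝ) ^ s / s.factorial ≤ Real.exp s := Real.pow_div_factorial_le_exp _ (by positivity) s
  have h3 : Real.exp s ≤ 3 ^ s := by
    rw [← mul_one (s : ℝ), Real.exp_nat_mul]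
    exact pow_le_pow_left₀ (by positivity) (Real.exp_one_lt_d9.le.trans (by norm_num)) s
  have hs' : (0 : ℝ) < s := by exact_mod_cast hs
  have hf : (0 : ℝ) < s.factorial := by exact_mod_cast s.factorial_pos
  refine h1.trans ?_
  rw [div_pow, mul_pow, div_le_div_iff₀ hf (by positivity)]
  have h4 : (s : ℝ) ^ s ≤ 3 ^ s * s.factorial := by
    rw [div_le_iff₀ hf] at h2
    exact h2.trans (by gcongr)
  calc (m : ℝ) ^ s * s ^ s ≤ m ^ s * (3 ^ s * s.factorial) := by gcongr
    _ = _ := by ring

end Pool.Agent.Lib.H16Sat
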