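import Pool.Agent.Lib.helper16.Sat1

set_option autoImplicit false

namespace Pool.Agent.Lib.H16Sat
open Finset

def pos {k : ℕ} (s : Fin k → Bool) : ℕ := #{j | s j = true}
def selb {k : ℕ} (p : (Fin k → Bool) × (Fin k → Bool)) : Bool := decide (pos p.1 < pos p.2)
def sels {k : ℕ} (p : (Fin k → Bool) × (Fin k → Bool)) : Fin k → Bool :=
  if selb p then p.2 else p.1

theorem pos_sels {k : ℕ} (p : (Fin k → Bool) × (Fin k → Bool)) :
    pos p.1 + pos p.2 ≤ 2 * pos (sels p) := by
  unfold sels selb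
  by_cases h : pos p.1 < pos p.2
  · simp [h]; omega
  · simp [h]; omega

abbrev Om (m n k : ℕ) := (Fin m → (Fin k → Bool) × (Fin k → Bool)) × (Fin m × Bool × Fin k → Fin n)

def Sat {m n k : ℕ} (ω : Om m n k) : Prop :=
  ∃ a : Fin n → Bool, ∀ i, ∃ j, a (ω.2 (i, selb (ω.1 i), j)) = sels (ω.1 i) j

theorem card_prod_filter {A B : Type*} [Fintype A] [Fintype B] (p : A × B → Prop)
    [DecidablePred p] : (univ.filter p).card = ∑ a, (univ.filter (fun b => p (a, b))).card := by
  simp only [card_filter]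
  rw [Fintype.sum_prod_type]

theorem sum_pos (k : ℕ) : ∑ s : Fin k → Bool, (1 / 8 : ℝ) ^ pos s = (9 / 8) ^ k := by
  have : ∀ s : Fin k → Bool, (1 / 8 : ℝ) ^ pos s = ∏ j, if s j = true then (1 / 8 : ℝ) else 1 := by
    intro s
    rw [prod_ite, prod_const, prod_const_one, mul_one]; rfl
  simp only [this]
  have h := Finset.prod_univ_sum (fun _ : Fin k => (univ : Finset Bool))
    (fun _ b => if b = true then (1 / 8 : ℝ) else 1)
  rw [Fintype.piFinset_univ] at h
  rw [← h]
  simp
  norm_num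

theorem card_sel {m k : ℕ} (T : Finset (Fin m)) (b : Fin m → Bool) (q : Fin m → Fin k → Prop)
    [∀ i, DecidablePred (q i)] :
    (univ.filter (fun x : Fin m × Bool × Fin k => x.1 ∈ T ∧ x.2.1 = b x.1 ∧ q x.1 x.2.2)).card =
      ∑ i ∈ T, #{j | q i j} := by
  rw [card_prod_filter, ← sum_subset (subset_univ T)]
  · apply sum_congr rfl
    intro i hi
    rw [card_prod_filter, sum_eq_single (b i)]
    · simp [hi]
    · intro c _ hc; simp [hc]
    · simp
  · intro i _ hi
    simp [hi]

theorem card_Om (m n k : ℕ) : (Fintype.card (Om m n k) : ℝ) =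
    ((2 : ℝ) ^ k * 2 ^ k) ^ m * n ^ Fintype.card (Fin m × Bool × Fin k) := by
  simp only [Fintype.card_prod, Fintype.card_fun, Fintype.card_fin, Fintype.card_bool]
  push_cast
  ring

open Classical in
theorem E1count {m n k : ℕ} (hn : 0 < n) (T : Finset (Fin m)) (h : 64 * k * T.card ≤ n) :
    ((univ.filter (fun ω : Om m n k => ∀ i ∈ T, ∀ j, sels (ω.1 i) j = true →
      ∃ i' ∈ T, ∃ j', sels (ω.1 i') j' = false ∧
        ω.2 (i, selb (ω.1 i), j) = ω.2 (i', selb (ω.1 i'), j'))).card : ℝ) ≤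
      (81 / 256) ^ (k * T.card) * Fintype.card (Om m n k) := by
  rw [card_prod_filter, card_Om]
  push_cast
  set N := Fintype.card (Fin m × Bool × Fin k) with hN
  have key : ∀ σ : Fin m → (Fin k → Bool) × (Fin k → Bool),
      ((univ.filter (fun g : Fin m × Bool × Fin k → Fin n => ∀ i ∈ T, ∀ j, sels (σ i) j = true →
        ∃ i' ∈ T, ∃ j', sels (σ i') j' = false ∧
          g (i, selb (σ i), j) = g (i', selb (σ i'), j'))).card : ℝ) ≤
        (∏ i, if i ∈ T then (1 / 8 : ℝ) ^ pos (σ i).1 * (1 / 8) ^ pos (σ i).2 else 1) * n ^ N := by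
    intro σ
    set P := univ.filter (fun x : Fin m × Bool × Fin k =>
      x.1 ∈ T ∧ x.2.1 = selb (σ x.1) ∧ sels (σ x.1) x.2.2 = true) with hP
    set Q := univ.filter (fun x : Fin m × Bool × Fin k =>
      x.1 ∈ T ∧ x.2.1 = selb (σ x.1) ∧ sels (σ x.1) x.2.2 = false) with hQ
    have hd : Disjoint P Q := by
      rw [disjoint_left]
      intro x hx hx'
      simp only [hP, hQ, mem_filter] at hx hx'
      have := hx.2.2.2.symm.trans hx'.2.2.2
      simp at this
    have h1 := count_rel hn P Q hd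
    have h2 : (univ.filter (fun g : Fin m × Bool × Fin k → Fin n => ∀ i ∈ T, ∀ j,
        sels (σ i) j = true → ∃ i' ∈ T, ∃ j', sels (σ i') j' = false ∧
          g (i, selb (σ i), j) = g (i', selb (σ i'), j'))).card ≤
        (univ.filter (fun g : Fin m × Bool × Fin k → Fin n => ∀ x ∈ P, ∃ y ∈ Q, g x = g y)).card := by
      apply card_le_card
      intro g hg
      simp only [mem_filter, mem_univ, true_and] at hg ⊢
      rintro ⟨i, b, j⟩ hx
      simp only [hP, mem_filter, mem_univ, true_and] at hx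
      obtain ⟨a1, rfl, a3⟩ := hx
      obtain ⟨i', hi', j', e1, e2⟩ := hg i a1 j a3
      exact ⟨(i', selb (σ i'), j'), by simp [hQ, hi', e1], e2⟩
    have cP : P.card = ∑ i ∈ T, pos (sels (σ i)) :=
      card_sel T (fun i => selb (σ i)) (fun i j => sels (σ i) j = true)
    have cQ : Q.card ≤ k * T.card := by
      rw [hQ, card_sel T (fun i => selb (σ i)) (fun i j => sels (σ i) j = false), mul_comm]
      exact sum_le_card_nsmul _ _ k (fun i _ => (card_le_univ _).trans (by simp))
    have cPN : P.card ≤ N := card_le_univ _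
    have h3 : ((Q.card ^ P.card * n ^ (N - P.card) : ℕ) : ℝ) ≤ (1 / 64) ^ P.card * n ^ N := by
      push_cast
      have : (Q.card : ℝ) ≤ 1 / 64 * n := by
        have : (64 * Q.card : ℕ) ≤ n := by nlinarith
        have : (64 * Q.card : ℝ) ≤ n := by exact_mod_cast this
        linarith
      calc (Q.card : ℝ) ^ P.card * n ^ (N - P.card) ≤ (1 / 64 * n) ^ P.card * n ^ (N - P.card) := by
            gcongr
        _ = (1 / 64) ^ P.card * n ^ N := by
            rw [mul_pow, mul_assoc, ← pow_add, Nat.add_sub_cancel' cPN]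
    have h4 : (1 / 64 : ℝ) ^ P.card ≤
        ∏ i, if i ∈ T then (1 / 8 : ℝ) ^ pos (σ i).1 * (1 / 8) ^ pos (σ i).2 else 1 := by
      rw [prod_ite, prod_const_one, mul_one, filter_mem_eq_inter, univ_inter, cP, ← prod_pow_eq_pow_sum]
      apply prod_le_prod (fun _ _ => by positivity)
      intro i _
      rw [← pow_add, show (1 / 64 : ℝ) = (1 / 8) ^ 2 by norm_num, ← pow_mul]
      exact pow_le_pow_of_le_one (by norm_num) (by norm_num) (pos_sels _)
    calc _ ≤ ((Q.card ^ P.card * n ^ (N - P.card) : ℕ) : ℝ) := by exact_mod_cast h2.trans h1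
      _ ≤ _ := h3
      _ ≤ _ := by gcongr
  refine (sum_le_sum (fun σ _ => key σ)).trans ?_
  rw [← sum_mul, ← mul_assoc]
  gcongr
  have h := Finset.prod_univ_sum
    (fun _ : Fin m => (univ : Finset ((Fin k → Bool) × (Fin k → Bool))))
    (fun i p => if i ∈ T then (1 / 8 : ℝ) ^ pos p.1 * (1 / 8) ^ pos p.2 else 1)
  rw [Fintype.piFinset_univ] at h
  rw [← h]
  have e : ∀ i : Fin m, ∑ p : (Fin k → Bool) × (Fin k → Bool),
      (if i ∈ T then (1 / 8 : ℝ) ^ pos p.1 * (1 / 8) ^ pos p.2 else 1) =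
      (if i ∈ T then (81 / 256 : ℝ) ^ k else 1) * (2 ^ k * 2 ^ k) := by
    intro i
    split_ifs
    · rw [Fintype.sum_prod_type]
      dsimp only
      rw [← sum_mul_sum, sum_pos, ← mul_pow, ← mul_pow, ← mul_pow]
      norm_num
    · simp
  simp only [e]
  rw [prod_mul_distrib, prod_ite, prod_const_one, mul_one, filter_mem_eq_inter, univ_inter,
    prod_const, prod_const, ← pow_mul, card_univ, Fintype.card_fin]

open Classical in
theorem E2count {m n k : ℕ} (hn : 0 < n) (T : Finset (Fin m)) (U : Finset (Fin n)) :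
    ((univ.filter (fun ω : Om m n k => ∀ i ∈ T, ∀ j, ω.2 (i, selb (ω.1 i), j) ∈ U)).card : ℝ) ≤
      (U.card / n) ^ (k * T.card) * Fintype.card (Om m n k) := by
  rw [card_prod_filter, card_Om]
  push_cast
  set N := Fintype.card (Fin m × Bool × Fin k) with hN
  have hn' : (0 : ℝ) < n := by exact_mod_cast hn
  have key : ∀ σ : Fin m → (Fin k → Bool) × (Fin k → Bool),
      ((univ.filter (fun g : Fin m × Bool × Fin k → Fin n => ∀ i ∈ T, ∀ j,
          g (i, selb (σ i), j) ∈ U)).card : ℝ) = (U.card / n) ^ (k * T.card) * n ^ N := by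
    intro σ
    set P := univ.filter (fun x : Fin m × Bool × Fin k =>
      x.1 ∈ T ∧ x.2.1 = selb (σ x.1) ∧ True) with hP
    have cP : P.card = k * T.card := by
      rw [hP, card_sel T (fun i => selb (σ i)) (fun _ _ => True)]
      simp [mul_comm]
    have cPN : P.card ≤ N := card_le_univ _
    have h1 := count_in P U
    have h2 : (univ.filter (fun g : Fin m × Bool × Fin k → Fin n => ∀ i ∈ T, ∀ j,
          g (i, selb (σ i), j) ∈ U)) =
        (univ.filter (fun g : Fin m × Bool × Fin k → Fin n => ∀ x ∈ P, g x ∈ U)) := by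
      ext g
      simp only [mem_filter, mem_univ, true_and, hP]
      constructor
      · rintro hg ⟨i, b, j⟩ ⟨a1, a2, -⟩
        dsimp only at a1 a2
        subst a2
        exact hg i a1 j
      · intro hg i hi j
        exact hg (i, selb (σ i), j) ⟨hi, rfl, trivial⟩
    rw [h2, h1, ← cP]
    push_cast
    rw [div_pow, ← hN]
    have : (n : ℝ) ^ N = n ^ P.card * n ^ (N - P.card) := by
      rw [← pow_add, Nat.add_sub_cancel' cPN]
    rw [this]
    field_simp
  simp only [key, sum_const, card_univ, nsmul_eq_mul]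
  simp only [Fintype.card_prod, Fintype.card_fun, Fintype.card_fin, Fintype.card_bool]
  push_cast
  apply le_of_eq
  ring

end Pool.Agent.Lib.H16Sat
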