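import Pool.Agent.Lib.helper16.Sat2

set_option autoImplicit false

namespace Pool.Agent.Lib.H16Sat
open Finset

theorem num1 (k : ℕ) (hk : 26 ≤ k) : (768 * k * (81 / 128) ^ k : ℝ) ≤ 1 / 2 := by
  induction k, hk using Nat.le_induction with
  | base => norm_num
  | succ k hk ih =>
    have hk' : (26 : ℝ) ≤ k := by exact_mod_cast hk
    push_cast
    rw [pow_succ]
    have : (0 : ℝ) < (81 / 128) ^ k := by positivity
    nlinarith

theorem num2 (k : ℕ) (hk : 26 ≤ k) : (9 * 2 ^ (k + 1) * (1 / 64) ^ (k - 4) : ℝ) ≤ 1 / 4 := by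
  obtain ⟨j, rfl⟩ : ∃ j, k = j + 26 := ⟨k - 26, by omega⟩
  rw [show j + 26 - 4 = j + 22 by omega, show j + 26 + 1 = j + 27 by omega, pow_add, pow_add]
  have : (2 : ℝ) ^ j * (1 / 64) ^ j ≤ 1 := by
    rw [← mul_pow]; exact pow_le_one₀ (by norm_num) (by norm_num)
  have h2 : (0 : ℝ) ≤ 2 ^ j * (1 / 64) ^ j := by positivity
  nlinarith

theorem term1 {m n k : ℕ} (hk : 26 ≤ k) (hn : 128 * k ≤ n) (hm : m ≤ 2 ^ (k + 1) * n) :
    (m.choose (n / (64 * k)) : ℝ) * (81 / 256) ^ (k * (n / (64 * k))) ≤ (1 / 2) ^ (n / (64 * k)) := by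
  set t := n / (64 * k) with ht
  have h1 : n < 64 * k * (t + 1) := Nat.lt_mul_div_succ n (by omega)
  have ht2 : 2 ≤ t := by
    rw [ht, Nat.le_div_iff_mul_le (by omega)]; omega
  have h2 : n ≤ 128 * k * t := by nlinarith
  have ht' : (0 : ℝ) < t := by exact_mod_cast (by omega : 0 < t)
  have h3 : (3 * m / t : ℝ) ≤ 768 * k * 2 ^ k := by
    rw [div_le_iff₀ ht']
    have a : (m : ℝ) ≤ 2 ^ (k + 1) * n := by exact_mod_cast hm
    have b : (n : ℝ) ≤ 128 * k * t := by exact_mod_cast h2
    calc (3 * m : ℝ) ≤ 3 * (2 ^ (k + 1) * (128 * k * t)) := by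
          gcongr; exact a.trans (by gcongr)
      _ = _ := by ring
  calc _ ≤ (768 * k * 2 ^ k : ℝ) ^ t * (81 / 256) ^ (k * t) := by
        gcongr
        exact (choose_le m t (by omega)).trans (by gcongr)
    _ = (768 * k * (81 / 128) ^ k : ℝ) ^ t := by
        rw [pow_mul, ← mul_pow, mul_assoc (768 * k : ℝ), ← mul_pow]; norm_num
    _ ≤ _ := by gcongr; exact num1 k hk

theorem term2 {m n k s : ℕ} (hk : 26 ≤ k) (hn : 0 < n) (hm : m ≤ 2 ^ (k + 1) * n) (hs : 0 < s)
    (hsn : 64 * s ≤ n) :
    (m.choose s : ℝ) * (n.choose s * (s / n) ^ (k * s)) ≤ 1 / n ^ 2 := by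
  have hn' : (0 : ℝ) < n := by exact_mod_cast hn
  have hs' : (0 : ℝ) < s := by exact_mod_cast hs
  set x : ℝ := s / n with hx
  have hx0 : 0 < x := by positivity
  have hx1 : x ≤ 1 / 64 := by
    rw [hx, div_le_div_iff₀ hn' (by norm_num)]
    have : (64 * s : ℝ) ≤ n := by exact_mod_cast hsn
    linarith
  have a : (m : ℝ) ≤ 2 ^ (k + 1) * n := by exact_mod_cast hm
  have h1 : (3 * m / s : ℝ) * ((3 * n / s) * x ^ k) ≤ 1 / 4 * x ^ 2 := by
    have e : x ^ k = x ^ 2 * x ^ 2 * x ^ (k - 4) := by
      rw [← pow_add, ← pow_add]; congr 1; omega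
    calc (3 * m / s : ℝ) * ((3 * n / s) * x ^ k)
        ≤ (3 * (2 ^ (k + 1) * n) / s) * ((3 * n / s) * x ^ k) := by gcongr
      _ = 9 * 2 ^ (k + 1) * x ^ (k - 4) * x ^ 2 := by
          rw [e, hx]; field_simp; norm_num
      _ ≤ 9 * 2 ^ (k + 1) * (1 / 64) ^ (k - 4) * x ^ 2 := by gcongr
      _ ≤ _ := by gcongr; exact num2 k hk
  have h2 : (s : ℝ) ≤ 2 ^ s := by exact_mod_cast (Nat.lt_two_pow_self).le
  calc _ ≤ (3 * m / s : ℝ) ^ s * ((3 * n / s) ^ s * x ^ (k * s)) := by
        gcongr
        · exact choose_le m s hs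
        · exact choose_le n s hs
    _ = ((3 * m / s : ℝ) * ((3 * n / s) * x ^ k)) ^ s := by
        rw [mul_pow, mul_pow, pow_mul]
    _ ≤ (1 / 4 * x ^ 2) ^ s := by gcongr
    _ = (1 / 4) ^ s * (x ^ 2) ^ s := mul_pow _ _ _
    _ ≤ (1 / 4) ^ s * x ^ 2 := by
        gcongr
        exact pow_le_of_le_one (by positivity) (by nlinarith) hs.ne'
    _ = ((1 / 2) ^ s * s) ^ 2 / n ^ 2 := by
        rw [hx, mul_pow, ← pow_mul, mul_comm s 2, pow_mul]; field_simp; norm_num
    _ ≤ 1 / n ^ 2 := by
        gcongr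
        apply pow_le_one₀ (by positivity)
        rw [one_div, inv_pow, inv_mul_le_iff₀ (by positivity)]
        linarith

open Classical in
theorem fail_bound {m n k : ℕ} (hk : 26 ≤ k) (hn : 128 * k ≤ n) (hm : m ≤ 2 ^ (k + 1) * n) :
    ((univ.filter (fun ω : Om m n k => ¬ Sat ω)).card : ℝ) ≤
      ((1 / 2) ^ (n / (64 * k)) + 1 / n) * Fintype.card (Om m n k) := by
  have hn0 : 0 < n := by omega
  have hn' : (0 : ℝ) < n := by exact_mod_cast hn0
  set t := n / (64 * k) with ht
  have htn : 64 * k * t ≤ n := Nat.mul_div_le n _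
  have htn2 : 64 * t ≤ n := by nlinarith
  let A : Finset (Fin m) → Finset (Om m n k) := fun T =>
    univ.filter (fun ω : Om m n k => ∀ i ∈ T, ∀ j, sels (ω.1 i) j = true →
      ∃ i' ∈ T, ∃ j', sels (ω.1 i') j' = false ∧
        ω.2 (i, selb (ω.1 i), j) = ω.2 (i', selb (ω.1 i'), j'))
  let B : Finset (Fin m) → Finset (Fin n) → Finset (Om m n k) := fun T U =>
    univ.filter (fun ω : Om m n k => ∀ i ∈ T, ∀ j, ω.2 (i, selb (ω.1 i), j) ∈ U)
  have hsub : univ.filter (fun ω : Om m n k => ¬ Sat ω) ⊆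
      (powersetCard t univ).biUnion A ∪ (Icc 1 t).biUnion (fun s =>
        (powersetCard s univ).biUnion (fun T => (powersetCard s univ).biUnion (fun U => B T U))) := by
    intro ω hω
    simp only [mem_filter, mem_univ, true_and] at hω
    by_contra hne
    rw [mem_union, not_or] at hne
    apply hω
    apply determ (fun i j => ω.2 (i, selb (ω.1 i), j)) (fun i => sels (ω.1 i)) t
    · intro T hT h
      exact hne.1 (mem_biUnion.2 ⟨T, by simp [mem_powersetCard, hT], by simpa [A] using h⟩)
    · intro T hT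
      by_contra hlt
      push Not at hlt
      obtain ⟨U, hU, hU2⟩ := exists_superset_card_eq hlt.le (by simp; omega)
      refine hne.2 (mem_biUnion.2 ⟨T.card, mem_Icc.2 ⟨by omega, hT⟩, mem_biUnion.2 ⟨T, by simp,
        mem_biUnion.2 ⟨U, by simp [mem_powersetCard, hU2], ?_⟩⟩⟩)
      simp only [B, mem_filter, mem_univ, true_and]
      intro i hi j
      exact hU (mem_biUnion.2 ⟨i, hi, mem_image_of_mem _ (mem_univ j)⟩)
  set C : ℝ := (Fintype.card (Om m n k) : ℝ) with hC
  have hC0 : 0 ≤ C := by positivity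
  have b1 : (((powersetCard t univ).biUnion A).card : ℝ) ≤ (1 / 2) ^ t * C := by
    calc (((powersetCard t univ).biUnion A).card : ℝ) ≤ ∑ T ∈ powersetCard t univ, ((A T).card : ℝ) := by
          exact_mod_cast card_biUnion_le
      _ ≤ ∑ T ∈ powersetCard t (univ : Finset (Fin m)), (81 / 256) ^ (k * t) * C := by
          apply sum_le_sum
          intro T hT
          have hc : T.card = t := (mem_powersetCard.1 hT).2
          have := E1count (k := k) hn0 T (by rw [hc]; exact htn)
          rwa [hc] at this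
      _ = (m.choose t * (81 / 256) ^ (k * t)) * C := by
          simp [card_powersetCard, mul_assoc]
      _ ≤ _ := by gcongr; exact term1 hk hn hm
  have b2 : (((Icc 1 t).biUnion (fun s => (powersetCard s univ).biUnion
      (fun T => (powersetCard s univ).biUnion (fun U => B T U)))).card : ℝ) ≤ 1 / n * C := by
    have c1 : ∀ s ∈ Icc 1 t, (((powersetCard s univ).biUnion
        (fun T => (powersetCard s univ).biUnion (fun U => B T U))).card : ℝ) ≤ 1 / n ^ 2 * C := by
      intro s hs
      rw [mem_Icc] at hs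
      calc _ ≤ ∑ T ∈ powersetCard s (univ : Finset (Fin m)),
            (((powersetCard s univ).biUnion (fun U => B T U)).card : ℝ) := by
            exact_mod_cast card_biUnion_le
        _ ≤ ∑ T ∈ powersetCard s (univ : Finset (Fin m)),
            ∑ U ∈ powersetCard s (univ : Finset (Fin n)), ((s : ℝ) / n) ^ (k * s) * C := by
            apply sum_le_sum
            intro T hT
            have hc : T.card = s := (mem_powersetCard.1 hT).2
            calc _ ≤ ∑ U ∈ powersetCard s (univ : Finset (Fin n)), ((B T U).card : ℝ) := by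
                  exact_mod_cast card_biUnion_le
              _ ≤ _ := by
                  apply sum_le_sum
                  intro U hU
                  have hc2 : U.card = s := (mem_powersetCard.1 hU).2
                  have := E2count (k := k) hn0 T U
                  rwa [hc, hc2] at this
        _ = (m.choose s * (n.choose s * ((s : ℝ) / n) ^ (k * s))) * C := by
            simp [card_powersetCard, mul_assoc]
        _ ≤ _ := by gcongr; exact term2 hk hn0 hm (by omega) (by omega)
    calc _ ≤ ∑ s ∈ Icc 1 t, (((powersetCard s univ).biUnion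
          (fun T => (powersetCard s univ).biUnion (fun U => B T U))).card : ℝ) := by
          exact_mod_cast card_biUnion_le
      _ ≤ ∑ s ∈ Icc 1 t, 1 / (n : ℝ) ^ 2 * C := sum_le_sum c1
      _ = t * (1 / (n : ℝ) ^ 2 * C) := by simp
      _ ≤ n * (1 / (n : ℝ) ^ 2 * C) := by
          gcongr; exact_mod_cast (by omega : t ≤ n)
      _ = _ := by field_simp
  calc _ ≤ (((powersetCard t univ).biUnion A).card : ℝ) + (((Icc 1 t).biUnion (fun s =>
        (powersetCard s univ).biUnion
        (fun T => (powersetCard s univ).biUnion (fun U => B T U)))).card : ℝ) := by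
        exact_mod_cast (card_le_card hsub).trans (card_union_le _ _)
    _ ≤ _ := by linarith

end Pool.Agent.Lib.H16Sat
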