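import Pool.Agent.Lib.helper16.SimData

set_option autoImplicit false

namespace Pool.Agent.Lib.H16Sim

def idx (a b : Fin 6) : ℕ :=
  if a.val < b.val then b.val * (b.val - 1) / 2 + a.val else a.val * (a.val - 1) / 2 + b.val

def triN : List (ℕ × ℕ × ℕ) :=
  tri.map (fun t => (idx t.1 t.2.1, idx t.2.1 t.2.2, idx t.1 t.2.2))

def sixN : List (ℕ × ℕ × ℕ × ℕ) :=
  six.map (fun t => (idx t.1 t.2.1, idx t.1 t.2.2.1, idx t.1 t.2.2.2.1, idx t.2.2.2.2.1 t.2.2.2.2.2))

def badB (x : ℕ) : Bool :=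
  triN.any (fun t => x.testBit t.1 && (x.testBit t.2.1 && x.testBit t.2.2)) ||
  sixN.any (fun t => x.testBit t.1 && (x.testBit t.2.1 && (x.testBit t.2.2.1 && x.testBit t.2.2.2)))

def pat (i : ℕ) : ℕ := [0xaaaaaaaaaaaaaaaaaaaaaaaaaaaaaaaaaaaaaaaaaaaaaaaaaaaaaaaaaaaaaaaaaaaaaaaaaaaaaaaaaaaaaaaaaaaaaaaaaaaaaaaaaaaaaaaaaaaaaaaaaaaaaaaa,
  0xcccccccccccccccccccccccccccccccccccccccccccccccccccccccccccccccccccccccccccccccccccccccccccccccccccccccccccccccccccccccccccccccc,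
  0xf0f0f0f0f0f0f0f0f0f0f0f0f0f0f0f0f0f0f0f0f0f0f0f0f0f0f0f0f0f0f0f0f0f0f0f0f0f0f0f0f0f0f0f0f0f0f0f0f0f0f0f0f0f0f0f0f0f0f0f0f0f0f0f0,
  0xff00ff00ff00ff00ff00ff00ff00ff00ff00ff00ff00ff00ff00ff00ff00ff00ff00ff00ff00ff00ff00ff00ff00ff00ff00ff00ff00ff00ff00ff00ff00ff00,
  0xffff0000ffff0000ffff0000ffff0000ffff0000ffff0000ffff0000ffff0000ffff0000ffff0000ffff0000ffff0000ffff0000ffff0000ffff0000ffff0000,
  0xffffffff00000000ffffffff00000000ffffffff00000000ffffffff00000000ffffffff00000000ffffffff00000000ffffffff00000000ffffffff00000000,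
  0xffffffffffffffff0000000000000000ffffffffffffffff0000000000000000ffffffffffffffff0000000000000000ffffffffffffffff0000000000000000,
  0xffffffffffffffffffffffffffffffff00000000000000000000000000000000ffffffffffffffffffffffffffffffff00000000000000000000000000000000,
  0xffffffffffffffffffffffffffffffffffffffffffffffffffffffffffffffff0000000000000000000000000000000000000000000000000000000000000000].getD i 0

theorem pat_spec : ∀ i < 9, ∀ r < 512, (pat i).testBit r = r.testBit i := by decide +kernel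

def V (q i : ℕ) : ℕ := if i < 9 then pat i else if q.testBit (i - 9) then 2 ^ 512 - 1 else 0

theorem V_spec (q i r : ℕ) (hr : r < 512) : (V q i).testBit r = (2 ^ 9 * q + r).testBit i := by
  rw [Nat.testBit_two_pow_mul_add q (by omega : r < 2 ^ 9)]
  unfold V
  split_ifs with h1 h2
  · exact pat_spec i h1 r hr
  · rw [h2, Nat.testBit_two_pow_sub_one]; simpa using hr
  · simp at h2; simp [h2]

def comp3 (q : ℕ) (l : List (ℕ × ℕ × ℕ)) : ℕ :=
  l.foldr (fun t acc => (V q t.1 &&& (V q t.2.1 &&& V q t.2.2)) ||| acc) 0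

def comp4 (q : ℕ) (l : List (ℕ × ℕ × ℕ × ℕ)) : ℕ :=
  l.foldr (fun t acc => (V q t.1 &&& (V q t.2.1 &&& (V q t.2.2.1 &&& V q t.2.2.2))) ||| acc) 0

theorem comp3_spec (q r : ℕ) (hr : r < 512) (l : List (ℕ × ℕ × ℕ)) :
    (comp3 q l).testBit r = l.any (fun t => (2 ^ 9 * q + r).testBit t.1 &&
      ((2 ^ 9 * q + r).testBit t.2.1 && (2 ^ 9 * q + r).testBit t.2.2)) := by
  induction l with
  | nil => simp [comp3]
  | cons t l ih =>
    unfold comp3 at ih ⊢
    rw [List.foldr_cons, List.any_cons, Nat.testBit_or, ih, Nat.testBit_and, Nat.testBit_and,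
      V_spec _ _ _ hr, V_spec _ _ _ hr, V_spec _ _ _ hr]

theorem comp4_spec (q r : ℕ) (hr : r < 512) (l : List (ℕ × ℕ × ℕ × ℕ)) :
    (comp4 q l).testBit r = l.any (fun t => (2 ^ 9 * q + r).testBit t.1 &&
      ((2 ^ 9 * q + r).testBit t.2.1 && ((2 ^ 9 * q + r).testBit t.2.2.1 &&
        (2 ^ 9 * q + r).testBit t.2.2.2))) := by
  induction l with
  | nil => simp [comp4]
  | cons t l ih =>
    unfold comp4 at ih ⊢
    rw [List.foldr_cons, List.any_cons, Nat.testBit_or, ih, Nat.testBit_and, Nat.testBit_and,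
      Nat.testBit_and, V_spec _ _ _ hr, V_spec _ _ _ hr, V_spec _ _ _ hr, V_spec _ _ _ hr]

theorem tab_check : ∀ q < 64, (tabT >>> (512 * q)) % 2 ^ 512 = comp3 q triN ||| comp4 q sixN := by
  decide +kernel

def look (x : ℕ) : Bool := tabT.testBit x

theorem look_eq (x : ℕ) (hx : x < 2 ^ 15) : look x = badB x := by
  have hr : x % 512 < 512 := Nat.mod_lt _ (by norm_num)
  have e : 2 ^ 9 * (x / 512) + x % 512 = x := by omega
  have e2 : look x = ((tabT >>> (512 * (x / 512))) % 2 ^ 512).testBit (x % 512) := by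
    rw [Nat.testBit_mod_two_pow, Nat.testBit_shiftRight]
    have : 512 * (x / 512) + x % 512 = x := by omega
    rw [this]
    simp [hr, look]
  unfold badB
  rw [e2, tab_check _ (by omega), Nat.testBit_or, comp3_spec _ _ hr, comp4_spec _ _ hr, e]

def tb (x n : ℕ) : Bool := Nat.beq (Nat.land (Nat.shiftRight x n) 1) 1

theorem tb_eq (x n : ℕ) : tb x n = x.testBit n := by
  unfold tb Nat.testBit
  have : Nat.land (Nat.shiftRight x n) 1 = 1 &&& (x >>> n) := by
    rw [Nat.and_comm]; rfl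
  rw [this, Nat.one_and_eq_mod_two]
  rcases Nat.mod_two_eq_zero_or_one (x >>> n) with h | h <;> rw [h] <;> rfl

noncomputable def force (n : ℕ) (g : ℕ → ℕ) : ℕ :=
  Nat.rec (motive := fun _ => ℕ) (g 0) (fun k _ => g (Nat.succ k)) n

theorem force_eq (n : ℕ) (g : ℕ → ℕ) : force n g = g n := by
  cases n <;> rfl

noncomputable def step (g : ℕ → ℕ → ℕ) (U B : ℕ) (j k : ℕ) : ℕ :=
  Nat.rec (motive := fun _ => ℕ) 0 (fun k' _ =>
    Bool.rec (motive := fun _ => ℕ)
      (force (Nat.lor B (Nat.shiftLeft 1 j)) (fun B' =>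
        Bool.rec (motive := fun _ => ℕ) (g B' (Nat.succ k')) (Nat.succ k') (tb tabT B')))
      (Nat.succ k') (tb U j)) k

noncomputable def loop (h : ℕ → ℕ → ℕ) (k : ℕ) : ℕ :=
  h 14 (h 13 (h 12 (h 11 (h 10 (h 9 (h 8 (h 7 (h 6 (h 5 (h 4 (h 3 (h 2 (h 1 (h 0 k))))))))))))))

noncomputable def body (S : ℕ) (g : ℕ → ℕ → ℕ → ℕ) (R B k : ℕ) : ℕ :=
  force (Nat.land (Nat.shiftRight S (Nat.mul 4 k)) 15) (fun e =>
    force (Nat.lor R (Nat.shiftLeft 1 e)) (fun R' => force (Nat.lor R' B) (fun U =>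
      Bool.rec (motive := fun _ => ℕ) 0 (loop (step (g R') U B) (Nat.succ k))
        (Nat.ble e 14 && (!tb (Nat.lor R B) e && (!tb tabT R' && !Nat.beq U 32767))))))

noncomputable def go (S : ℕ) (f : ℕ) : ℕ → ℕ → ℕ → ℕ :=
  Nat.rec (motive := fun _ => ℕ → ℕ → ℕ → ℕ) (fun _ _ _ => 0) (fun _ g => body S g) f

theorem go_check1 : go strS1 7 1 (2 ^ 1) 1 = 2396 := by decide +kernel

theorem go_check2 : go strS2 7 1 (2 ^ 2) 1 = 2396 := by decide +kernel

theorem go_check3 : go strS3 7 1 (2 ^ 3) 1 = 2396 := by decide +kernel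

theorem go_check4 : go strS4 7 1 (2 ^ 4) 1 = 2396 := by decide +kernel

theorem go_check5 : go strS5 7 1 (2 ^ 5) 1 = 2692 := by decide +kernel

theorem go_check6 : go strS6 7 1 (2 ^ 6) 1 = 2396 := by decide +kernel

theorem go_check7 : go strS7 7 1 (2 ^ 7) 1 = 2396 := by decide +kernel

theorem go_check8 : go strS8 7 1 (2 ^ 8) 1 = 2692 := by decide +kernel

theorem go_check9 : go strS9 7 1 (2 ^ 9) 1 = 2692 := by decide +kernel

theorem go_check10 : go strS10 7 1 (2 ^ 10) 1 = 2396 := by decide +kernel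

theorem go_check11 : go strS11 7 1 (2 ^ 11) 1 = 2396 := by decide +kernel

theorem go_check12 : go strS12 7 1 (2 ^ 12) 1 = 2692 := by decide +kernel

theorem go_check13 : go strS13 7 1 (2 ^ 13) 1 = 2692 := by decide +kernel

theorem go_check14 : go strS14 7 1 (2 ^ 14) 1 = 2692 := by decide +kernel

end Pool.Agent.Lib.H16Sim
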