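import Mathlib
set_option autoImplicit false
open MeasureTheory Real Complex Set
open scoped ComplexConjugate FourierTransform SchwartzMap InnerProductSpace

namespace Pool.Agent.Lib.helper16.Til

lemma hs_cg {ι : Type} {f g : ι → ℂ} {a b : ℂ} (h : HasSum f a) (h1 : g = f) (h2 : b = a) :
    HasSum g b := h1 ▸ h2 ▸ h

lemma hd_cg {F : Type} [NormedAddCommGroup F] [NormedSpace ℝ F] {f g : ℝ → F} {a b : F} {x : ℝ}
    (h : HasDerivAt f a x) (h1 : g = f) (h2 : b = a) : HasDerivAt g b x := h1 ▸ h2 ▸ h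

noncomputable def E (y : ℝ) : ℂ := Complex.exp (↑(-2 * π * y) * I)

lemma E_add (x y : ℝ) : E (x + y) = E x * E y := by
  unfold E; rw [← Complex.exp_add]; congr 1; push_cast; ring

lemma E_conj (x : ℝ) : conj (E x) = E (-x) := by
  unfold E; rw [← Complex.exp_conj]; congr 1
  simp only [map_mul, conj_ofReal, conj_I]; push_cast; ring

lemma E_norm (x : ℝ) : ‖E x‖ = 1 := Complex.norm_exp_ofReal_mul_I _

lemma E_cont : Continuous E := by unfold E; fun_prop

noncomputable def hat (a : ℝ → ℂ) (y : ℝ) : ℂ := ∫ ξ, E (ξ * y) * a ξ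

lemma coeff (X : ℝ → ℂ) (hX : ∀ ξ, 1 / 2 ≤ |ξ| → X ξ = 0) (m : ℤ) :
    fourierCoeff (T := 1) (AddCircle.liftIoc 1 (-1 / 2) X) m = hat X m := by
  rw [fourierCoeff_eq_intervalIntegral _ _ (-1 / 2), hat]
  rw [intervalIntegral.integral_of_le (by norm_num), one_div_one, one_smul]
  rw [← setIntegral_eq_integral_of_forall_compl_eq_zero (s := Ioc (-1 / 2 : ℝ) (-1 / 2 + 1))
    (f := fun ξ => E (ξ * m) * X ξ)]
  · refine setIntegral_congr_fun measurableSet_Ioc fun x hx => ?_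
    simp only [AddCircle.liftIoc_coe_apply hx, fourier_coe_apply, E, smul_eq_mul]
    congr 2; push_cast; ring
  · intro x hx
    rw [hX, mul_zero]
    simp only [mem_Ioc, not_and_or, not_lt, not_le] at hx
    rcases hx with h | h
    · rw [abs_of_neg (by linarith)]; linarith
    · rw [abs_of_pos (by linarith)]; linarith

lemma par (X Y : ℝ → ℂ) (cX : Continuous X) (cY : Continuous Y)
    (hX : ∀ ξ, 1 / 2 ≤ |ξ| → X ξ = 0) (hY : ∀ ξ, 1 / 2 ≤ |ξ| → Y ξ = 0) :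
    HasSum (fun m : ℤ => hat Y m * conj (hat X m)) (∫ ξ, Y ξ * conj (X ξ)) := by
  have L : ∀ Z : ℝ → ℂ, Continuous Z →
      MemLp (AddCircle.liftIoc 1 (-1 / 2) Z) 2 AddCircle.haarAddCircle := fun Z cZ => by
    refine (MemLp.memLp_liftIoc ?_).haarAddCircle
    obtain ⟨C, hC⟩ := (isCompact_Icc (a := (-1 / 2 : ℝ)) (b := -1 / 2 + 1)).exists_bound_of_continuousOn
      cZ.continuousOn
    exact MemLp.of_bound cZ.aestronglyMeasurable C
      ((ae_restrict_mem measurableSet_Ioc).mono fun x hx => hC x (Ioc_subset_Icc_self hx))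
  have h := (fourierBasis (T := 1)).hasSum_inner_mul_inner (L X cX).toLp (L Y cY).toLp
  refine hs_cg h ?_ ?_
  · ext m
    rw [← inner_conj_symm (_ : Lp ℂ 2 _) (fourierBasis m), ← HilbertBasis.repr_apply_apply, ← HilbertBasis.repr_apply_apply,
      fourierBasis_repr, fourierBasis_repr, fourierCoeff_congr_ae (L X cX).coeFn_toLp,
      fourierCoeff_congr_ae (L Y cY).coeFn_toLp, coeff X hX, coeff Y hY, mul_comm]
  · rw [L2.inner_def]
    have : ∫ a : AddCircle (1 : ℝ), ⟪(MemLp.toLp _ (L X cX)) a, (MemLp.toLp _ (L Y cY)) a⟫_ℂ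
        ∂AddCircle.haarAddCircle =
        ∫ a, AddCircle.liftIoc 1 (-1 / 2) (fun ξ => Y ξ * conj (X ξ)) a ∂AddCircle.haarAddCircle := by
      refine integral_congr_ae ?_
      filter_upwards [(L X cX).coeFn_toLp, (L Y cY).coeFn_toLp] with a h1 h2
      rw [h1, h2]; rfl
    rw [this]
    have h0 := coeff (fun ξ => Y ξ * conj (X ξ)) (fun ξ h => by rw [hY ξ h, zero_mul]) 0
    simp only [fourierCoeff, neg_zero, fourier_zero, one_smul, hat, Int.cast_zero, mul_zero, E,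
      ofReal_zero, zero_mul, Complex.exp_zero, one_mul] at h0
    exact h0.symm

lemma samp (a b : ℝ → ℂ) (ca : Continuous a) (cb : Continuous b)
    (ha : ∀ ξ, 1 / 2 ≤ |ξ| → a ξ = 0) (hb : ∀ ξ, 1 / 2 ≤ |ξ| → b ξ = 0) (x t : ℝ) :
    HasSum (fun m : ℤ => hat a (m - t) * hat b (x - m)) (hat (fun ξ => a ξ * b ξ) (x - t)) := by
  have := par (fun ξ => conj (E (ξ * x) * b ξ)) (fun ξ => E (-(ξ * t)) * a ξ)
    (continuous_conj.comp ((E_cont.comp (by fun_prop)).mul cb))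
    ((E_cont.comp (by fun_prop)).mul ca) (fun ξ h => by simp [hb ξ h]) (fun ξ h => by simp [ha ξ h])
  refine hs_cg this ?_ ?_
  · ext m
    unfold hat
    rw [← integral_conj]
    congr 2 <;> ext ξ
    · rw [← mul_assoc, ← E_add]; congr 2; ring
    · rw [map_mul, conj_conj, E_conj, ← mul_assoc, ← E_add]; congr 2; ring
  · unfold hat
    congr 1; ext ξ
    rw [conj_conj, show ξ * (x - t) = -(ξ * t) + ξ * x by ring, E_add]; ring

lemma hat_conj (a : ℝ → ℂ) (ha : ∀ ξ, conj (a ξ) = a ξ) (y : ℝ) : conj (hat a y) = hat a (-y) := by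
  unfold hat
  rw [← integral_conj]
  congr 1; ext ξ
  rw [map_mul, ha, E_conj, mul_neg]

lemma hat_neg (a : ℝ → ℂ) (y : ℝ) : hat a (-y) = hat (fun ξ => a (-ξ)) y := by
  unfold hat
  rw [← integral_neg_eq_self]
  congr 1; ext ξ
  rw [neg_mul_neg]

lemma hat_scale (a : ℝ → ℂ) (c δ : ℝ) (hδ : 0 < δ) (y : ℝ) :
    hat (fun ξ => a ((ξ - c) / δ)) y = δ * (hat a (δ * y) * E (c * y)) := by
  unfold hat
  rw [← integral_add_right_eq_self _ c]
  have := Measure.integral_comp_div (fun ζ => E (ζ * (δ * y)) * a ζ * E (c * y)) δ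
  rw [abs_of_pos hδ, real_smul] at this
  rw [← integral_mul_const, ← this]
  congr 1; ext ξ
  beta_reduce
  rw [add_sub_cancel_right, add_mul, E_add, show ξ / δ * (δ * y) = ξ * y by field_simp]
  ring

noncomputable def ψ : ContDiffBump (0 : ℝ) := ⟨1 / 2, 1, by norm_num, by norm_num⟩

noncomputable def Ψ : 𝓢(ℝ, ℂ) :=
  HasCompactSupport.toSchwartzMap (f := fun x => (ψ x : ℂ))
    (ψ.hasCompactSupport.comp_left ofReal_zero) (ofRealCLM.contDiff.comp ψ.contDiff)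

noncomputable def Φ : 𝓢(ℝ, ℂ) := 𝓕 Ψ

lemma Φ_eq (y : ℝ) : hat (fun x => (ψ x : ℂ)) y = Φ y := by
  rw [Φ, SchwartzMap.fourier_coe, fourier_real_eq_integral_exp_smul, hat]
  congr 1; ext ξ
  simp only [E, smul_eq_mul, mul_assoc]; rfl

lemma Φ_zero : Φ 0 ≠ 0 := by
  rw [← Φ_eq, hat]
  simp only [mul_zero, E, ofReal_zero, zero_mul, Complex.exp_zero, one_mul]
  rw [integral_complex_ofReal]
  exact_mod_cast (ψ.integral_pos (μ := volume)).ne'

lemma sbound (P : 𝓢(ℝ, ℂ)) : ∃ A : ℝ, 0 < A ∧ ∀ y, ‖P y‖ ≤ A / (1 + y ^ 2) := by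
  obtain ⟨A, hA, h⟩ := P.decay 0 0
  obtain ⟨B, hB, h'⟩ := P.decay 2 0
  refine ⟨A + B, by positivity, fun y => ?_⟩
  have a := h y; have b := h' y
  simp only [norm_iteratedFDeriv_zero, pow_zero, one_mul, Real.norm_eq_abs, sq_abs] at a b
  rw [le_div_iff₀ (by positivity)]; nlinarith

noncomputable def w (ε y : ℝ) : ℝ := ε / (1 + (ε * y) ^ 2)

lemma E_deriv (y : ℝ) : HasDerivAt (fun y => E (1 / 4 * y)) (-((π / 2 : ℝ) * I) * E (1 / 4 * y)) y := by
  unfold E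
  have h1 : HasDerivAt (fun y : ℝ => ((-2 * π * (1 / 4 * y) : ℝ) : ℂ) * I) (((-2 * π * (1 / 4 * 1) : ℝ) : ℂ) * I) y :=
    (((hasDerivAt_id y).const_mul (1 / 4)).const_mul (-2 * π)).ofReal_comp.mul_const I
  refine hd_cg h1.cexp rfl ?_
  push_cast; ring

noncomputable def TP (P : 𝓢(ℝ, ℂ)) (ε y : ℝ) : ℂ := P (ε * y) * E (1 / 4 * y)

lemma TP_deriv (P : 𝓢(ℝ, ℂ)) (ε y : ℝ) : HasDerivAt (TP P ε)
    (ε * TP (SchwartzMap.derivCLM ℝ ℂ P) ε y - (π / 2 : ℝ) * I * TP P ε y) y := by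
  have h1 : HasDerivAt (fun y => P (ε * y)) (ε • deriv P (ε * y)) y := by
    have := (P.hasDerivAt (ε * y)).scomp y ((hasDerivAt_id y).const_mul ε)
    simpa [Function.comp_def] using this
  refine hd_cg (h1.mul (E_deriv y)) rfl ?_
  simp only [TP, SchwartzMap.derivCLM_apply, real_smul]; ring

theorem pack : ∃ A : ℝ, 0 < A ∧ ∀ ε : ℝ, 0 < ε → ε ≤ 1 / 8 →
    ∃ (k u e k2 : ℝ → ℝ) (f : ℝ → ℂ) (c : ℂ),
      (∀ y, HasDerivAt k (u y + e y) y) ∧ (∀ y, HasDerivAt (fun y => u y + e y) (k2 y) y) ∧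
      (∀ y, |k y| ≤ A * w ε y) ∧ (∀ y, |u y| ≤ A * w ε y) ∧ (∀ y, |e y| ≤ A * ε * w ε y) ∧
      (∀ y, |k2 y| ≤ A * w ε y) ∧ (∀ y, k (-y) = - k y) ∧ (∀ y, ‖f y‖ ≤ A * w ε y) ∧
      Continuous f ∧ f 0 ≠ 0 ∧ c ≠ 0 ∧
      (∀ x t : ℝ, HasSum (fun m : ℤ => (k (m - t) : ℂ) * f (x - m)) (c * f (x - t))) ∧
      (∀ x t : ℝ, HasSum (fun m : ℤ => (u (m - t) : ℂ) * f (x - m)) (f (x - t))) := by
  set Φ1 := SchwartzMap.derivCLM ℝ ℂ Φ
  set Φ2 := SchwartzMap.derivCLM ℝ ℂ Φ1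
  obtain ⟨A0, hA0, h0⟩ := sbound Φ
  obtain ⟨A1, hA1, h1⟩ := sbound Φ1
  obtain ⟨A2, hA2, h2⟩ := sbound Φ2
  set A := A0 + A1 + A2
  refine ⟨20 * A, by positivity, fun ε hε hε1 => ?_⟩
  set θ : ℝ := π / 2 with hθ
  have θ1 : 1 ≤ θ := by have := pi_gt_three; linarith
  have θ2 : θ ≤ 2 := by have := pi_lt_four; linarith
  have bT : ∀ (P : 𝓢(ℝ, ℂ)) (B : ℝ), B ≤ A → (∀ y, ‖P y‖ ≤ B / (1 + y ^ 2)) → ∀ y,
      ε * ‖TP P ε y‖ ≤ A * w ε y := fun P B hB h y => by
    rw [TP, norm_mul, E_norm, mul_one, w, ← mul_div_assoc, mul_comm A, mul_div_assoc]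
    gcongr
    exact (h _).trans (by gcongr)
  have b0 := bT Φ A0 (by simp only [A]; linarith) h0
  have b1 := bT Φ1 A1 (by simp only [A]; linarith) h1
  have b2 := bT Φ2 A2 (by simp only [A]; linarith) h2
  have w0 : ∀ y, 0 ≤ A * w ε y := fun y => by unfold w; positivity
  let c0 : ℂ := (2 * ε / θ : ℝ) * I
  have nc : ‖c0‖ ≤ 2 * ε := by
    simp only [c0, norm_mul, norm_I, mul_one, norm_real, Real.norm_eq_abs]
    rw [abs_of_pos (by positivity), div_le_iff₀ (by linarith)]; nlinarith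
  have nθ : ‖(θ : ℂ) * I‖ ≤ 2 := by
    simp only [norm_mul, norm_I, mul_one, norm_real, Real.norm_eq_abs]
    rwa [abs_of_pos (by linarith)]
  have nε : ‖(ε : ℂ)‖ ≤ 1 := by rw [norm_real, Real.norm_eq_abs, abs_of_pos hε]; linarith
  let a : ℝ → ℂ := fun ξ => (ψ ((ξ - 1 / 4) / ε) : ℂ)
  let b : ℝ → ℂ := fun ξ => (ψ ((ξ - 1 / 4) / (ε / 2)) : ℂ)
  have ha : ∀ y, hat a y = ε * TP Φ ε y := fun y => by
    rw [hat_scale (fun x => (ψ x : ℂ)) _ _ hε, Φ_eq, TP]
  have hb : ∀ y, hat b y = (ε / 2 : ℝ) * TP Φ (ε / 2) y := fun y => by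
    rw [hat_scale (fun x => (ψ x : ℂ)) _ _ (by positivity), Φ_eq, TP]
  have ψ0 : ∀ δ ξ : ℝ, 0 < δ → δ ≤ |ξ - 1 / 4| → (ψ ((ξ - 1 / 4) / δ) : ℂ) = 0 := fun δ ξ hδ h => by
    rw [ψ.zero_of_le_dist, ofReal_zero]
    rw [Real.dist_eq, sub_zero, abs_div, abs_of_pos hδ, le_div_iff₀ hδ]
    simpa [ψ] using h
  have ca : Continuous a := continuous_ofReal.comp (ψ.continuous.comp (by fun_prop))
  have cb : Continuous b := continuous_ofReal.comp (ψ.continuous.comp (by fun_prop))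
  have sa : ∀ ξ, 1 / 2 ≤ |ξ| → a ξ = 0 := fun ξ h => ψ0 _ _ hε (by
    rcases le_abs'.1 h with h | h <;> rw [le_abs'] <;> [left; right] <;> linarith)
  have sb : ∀ ξ, 1 / 2 ≤ |ξ| → b ξ = 0 := fun ξ h => ψ0 _ _ (by positivity) (by
    rcases le_abs'.1 h with h | h <;> rw [le_abs'] <;> [left; right] <;> linarith)
  have ab : (fun ξ => a ξ * b ξ) = b := funext fun ξ => by
    by_cases h : ε / 2 ≤ |ξ - 1 / 4|
    · have : b ξ = 0 := ψ0 _ _ (by positivity) h
      rw [this, mul_zero]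
    · have : a ξ = 1 := by
        simp only [a]
        rw [ψ.one_of_mem_closedBall, ofReal_one]
        rw [mem_closedBall_zero_iff, Real.norm_eq_abs, abs_div, abs_of_pos hε, div_le_iff₀ hε]
        simp only [ψ]; linarith
      rw [this, one_mul]
  have ab' : (fun ξ => a (-ξ) * b ξ) = fun _ => 0 := funext fun ξ => by
    by_cases h : 0 ≤ ξ
    · have : a (-ξ) = 0 := ψ0 _ _ hε (by rw [le_abs']; left; linarith)
      rw [this, zero_mul]
    · have : b ξ = 0 := ψ0 _ _ (by positivity) (by rw [le_abs']; left; linarith)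
      rw [this, mul_zero]
  have ra : ∀ ξ, conj (a ξ) = a ξ := fun ξ => conj_ofReal _
  have S1 : ∀ x t : ℝ, HasSum (fun m : ℤ => hat a (m - t) * hat b (x - m)) (hat b (x - t)) :=
    fun x t => by have := samp a b ca cb sa sb x t; rwa [ab] at this
  have S2 : ∀ x t : ℝ, HasSum (fun m : ℤ => conj (hat a (m - t)) * hat b (x - m)) 0 :=
    fun x t => by
      have := samp (fun ξ => a (-ξ)) b (ca.comp continuous_neg) cb
        (fun ξ h => sa _ (by rwa [abs_neg])) sb x t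
      rw [ab'] at this
      simp only [hat_conj a ra, hat_neg]
      simpa [hat] using this
  have θ0 : (θ : ℂ) ≠ 0 := by exact_mod_cast (by linarith : θ ≠ 0)
  have hu : ∀ y, c0 * -(θ * I * TP Φ ε y) = 2 * hat a y := fun y => by
    rw [ha]; simp only [c0]; push_cast; field_simp; ring_nf; simp
  refine ⟨fun y => (c0 * TP Φ ε y).re, fun y => (c0 * -(θ * I * TP Φ ε y)).re,
    fun y => (c0 * (ε * TP Φ1 ε y)).re,
    fun y => (c0 * (ε * (ε * TP Φ2 ε y - θ * I * TP Φ1 ε y) -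
      θ * I * (ε * TP Φ1 ε y - θ * I * TP Φ ε y))).re, hat b, I / θ, fun y => ?_, fun y => ?_,
    fun y => ?_, fun y => ?_, fun y => ?_, fun y => ?_, fun y => ?_, fun y => ?_, ?_, ?_, ?_,
    fun x t => ?_, fun x t => ?_⟩
  · have := reCLM.hasFDerivAt.comp_hasDerivAt y ((TP_deriv Φ ε y).const_mul c0)
    refine hd_cg this rfl ?_
    rw [reCLM_apply, ← add_re]; congr 1; ring
  · have := reCLM.hasFDerivAt.comp_hasDerivAt y
      ((((TP_deriv Φ1 ε y).const_mul (ε : ℂ)).sub ((TP_deriv Φ ε y).const_mul (θ * I))).const_mul c0)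
    refine hd_cg this ?_ rfl
    ext y
    simp only [Function.comp, reCLM_apply, ← add_re, Pi.sub_apply]; congr 1; ring
  · refine (abs_re_le_norm _).trans ?_
    rw [norm_mul]
    have := b0 y; have := w0 y
    nlinarith [norm_nonneg (TP Φ ε y)]
  · refine (abs_re_le_norm _).trans ?_
    rw [hu, ha, norm_mul, norm_mul, norm_real, Real.norm_eq_abs, abs_of_pos hε]
    have := b0 y; have := w0 y
    simp only [Complex.norm_ofNat]; linarith
  · refine (abs_re_le_norm _).trans ?_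
    rw [norm_mul, norm_mul (ε : ℂ), norm_real, Real.norm_eq_abs, abs_of_pos hε]
    have := b1 y; have := w0 y
    have h3 : ‖c0‖ * (ε * ‖TP Φ1 ε y‖) ≤ (2 * ε) * (A * w ε y) := by gcongr
    nlinarith
  · refine (abs_re_le_norm _).trans ?_
    rw [norm_mul]
    have key : ∀ p q : ℂ, ‖ε * p - θ * I * q‖ ≤ ‖p‖ + 2 * ‖q‖ := fun p q => by
      refine (norm_sub_le _ _).trans ?_
      rw [norm_mul, norm_mul (θ * I : ℂ)]
      have := norm_nonneg p; have := norm_nonneg q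
      nlinarith
    have k1 := key (ε * TP Φ2 ε y - θ * I * TP Φ1 ε y) (ε * TP Φ1 ε y - θ * I * TP Φ ε y)
    have k2 := key (TP Φ2 ε y) (TP Φ1 ε y)
    have k3 := key (TP Φ1 ε y) (TP Φ ε y)
    have h3 := mul_le_mul nc (k1.trans (show _ ≤ ‖TP Φ2 ε y‖ + 4 * ‖TP Φ1 ε y‖ + 4 * ‖TP Φ ε y‖ by
      linarith)) (norm_nonneg _) (by positivity)
    have := b0 y; have := b1 y; have := b2 y; have := w0 y
    linarith
  · have e1 : ∀ y, c0 * TP Φ ε y = (2 / θ : ℝ) * I * hat a y := fun y => by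
      rw [ha]; simp only [c0]; push_cast; ring
    simp only [e1, ← hat_conj a ra]
    simp
  · rw [hb, norm_mul, norm_real, Real.norm_eq_abs, abs_of_pos (by positivity), TP, norm_mul, E_norm,
      mul_one]
    have h3 := h0 (ε / 2 * y)
    have h4 : A0 / (1 + (ε / 2 * y) ^ 2) ≤ 4 * A / (1 + (ε * y) ^ 2) := by
      rw [div_le_div_iff₀ (by positivity) (by positivity)]
      have : A0 ≤ A := by simp only [A]; linarith
      nlinarith [sq_nonneg (ε * y)]
    have h5 : 4 * A / (1 + (ε * y) ^ 2) * ε = 4 * (A * w ε y) := by unfold w; ring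
    have := w0 y
    nlinarith
  · rw [funext hb]
    exact continuous_const.mul ((Φ.continuous.comp (by fun_prop)).mul (E_cont.comp (by fun_prop)))
  · rw [hb, TP]
    refine mul_ne_zero (by exact_mod_cast (by positivity)) (mul_ne_zero (by simpa using Φ_zero) ?_)
    exact Complex.exp_ne_zero _
  · exact div_ne_zero I_ne_zero θ0
  · refine hs_cg (((S1 x t).sub (S2 x t)).mul_left (I / θ)) ?_ ?_
    · ext m
      rw [re_eq_add_conj, ha]
      simp only [c0, map_mul, conj_ofReal, conj_I]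
      push_cast; field_simp; ring
    · rw [sub_zero]
  · refine hs_cg ((S1 x t).add (S2 x t)) ?_ ?_
    · ext m
      beta_reduce
      rw [hu, re_eq_add_conj, map_mul, conj_ofNat]; ring
    · rw [add_zero]

end Pool.Agent.Lib.helper16.Til
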