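import Mathlib

namespace Pool.Agent.Lib.helper16.WhA
open Filter Topology

noncomputable abbrev L := lp (fun _ : ℚ => ℂ) 1

lemma summ (f : L) : Summable fun t => ‖f t‖ := by simpa using f.2.summable

lemma nrm (f : L) : ‖f‖ = ∑' t, ‖f t‖ := by simp [lp.norm_eq_tsum_rpow]

lemma mk (φ : ℚ → ℂ) (h : Summable fun t => ‖φ t‖) : ∃ f : L, ∀ t, f t = φ t :=
  ⟨⟨φ, memℓp_gen (by simpa using h)⟩, fun _ => rfl⟩

lemma dom (φ : ℚ → ℂ) (g : L) (h : ∀ t, ‖φ t‖ ≤ ‖g t‖) : ∃ f : L, (∀ t, f t = φ t) ∧ ‖f‖ ≤ ‖g‖ := by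
  obtain ⟨f, hf⟩ := mk φ ((summ g).of_nonneg_of_le (fun _ => norm_nonneg _) h)
  refine ⟨f, hf, ?_⟩
  rw [nrm, nrm]
  exact (summ f).tsum_le_tsum (fun t => by rw [hf]; exact h t) (summ g)

noncomputable def dl (t : ℚ) : L := lp.single 1 t (1 : ℂ)

lemma dl_apply (s t : ℚ) : dl s t = if t = s then 1 else 0 := by
  simp [dl, lp.single_apply, Pi.single_apply]

lemma dl_norm (t : ℚ) : ‖dl t‖ = 1 := by rw [dl, lp.norm_single one_pos, norm_one]

section
variable {E : Type} [NormedAddCommGroup E] [NormedSpace ℂ E] [CompleteSpace E]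

lemma lift_s {x : ℚ → E} {C : ℝ} (hx : ∀ t, ‖x t‖ ≤ C) (f : L) :
    Summable fun t => ‖f t • x t‖ :=
  ((summ f).mul_right C).of_nonneg_of_le (fun _ => norm_nonneg _) fun t => by
    rw [norm_smul]; gcongr; exact hx t

lemma lift_n {x : ℚ → E} {C : ℝ} (hx : ∀ t, ‖x t‖ ≤ C) (f : L) :
    ‖∑' t, f t • x t‖ ≤ C * ‖f‖ := by
  refine (norm_tsum_le_tsum_norm (lift_s hx f)).trans ?_
  rw [nrm, mul_comm, ← tsum_mul_right]
  exact (lift_s hx f).tsum_le_tsum (fun t => by rw [norm_smul]; gcongr; exact hx t)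
    ((summ f).mul_right C)

noncomputable def lift (x : ℚ → E) (C : ℝ) (hx : ∀ t, ‖x t‖ ≤ C) : L →L[ℂ] E :=
  LinearMap.mkContinuous
    { toFun := fun f => ∑' t, f t • x t
      map_add' := fun f g => by
        rw [← (lift_s hx f).of_norm.tsum_add (lift_s hx g).of_norm]
        simp [add_smul]
      map_smul' := fun c f => by
        rw [RingHom.id_apply, ← (lift_s hx f).of_norm.tsum_const_smul c]
        simp [mul_smul] } C (lift_n hx)

lemma lift_apply (x : ℚ → E) (C : ℝ) (hx : ∀ t, ‖x t‖ ≤ C) (f : L) :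
    lift x C hx f = ∑' t, f t • x t := rfl

lemma lift_dl (x : ℚ → E) (C : ℝ) (hx : ∀ t, ‖x t‖ ≤ C) (s : ℚ) : lift x C hx (dl s) = x s := by
  rw [lift_apply, tsum_eq_single s fun t ht => by simp [dl_apply, ht]]
  simp [dl_apply]

omit [CompleteSpace E] in
lemma ext2 (A B : L →L[ℂ] E) (h : ∀ t, A (dl t) = B (dl t)) (f : L) : A f = B f := by
  have : A = B := lp.ext_continuousLinearMap (by simp) fun i => by
    ext; simpa [dl] using h i
  rw [this]

end

noncomputable def ev (t : ℚ) : L →L[ℂ] ℂ := lp.evalCLM ℂ (fun _ : ℚ => ℂ) 1 t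

lemma ev_apply (t : ℚ) (f : L) : ev t f = f t := rfl

noncomputable def sh (s : ℚ) : L →L[ℂ] L := lift (fun t => dl (s + t)) 1 fun _ => (dl_norm _).le

lemma sh_norm (s : ℚ) : ‖sh s‖ ≤ 1 :=
  ContinuousLinearMap.opNorm_le_bound _ one_pos.le (lift_n fun _ => (dl_norm _).le)

noncomputable def M : L →L[ℂ] L →L[ℂ] L := lift sh 1 sh_norm

lemma M_dl (s : ℚ) : M (dl s) = sh s := lift_dl _ _ _ _
lemma sh_dl (s t : ℚ) : sh s (dl t) = dl (s + t) := lift_dl _ _ _ _

lemma sh_apply (s t : ℚ) (g : L) : sh s g t = g (t - s) :=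
  ext2 ((ev t).comp (sh s)) (ev (t - s)) (fun u => by
    simp only [ContinuousLinearMap.comp_apply, sh_dl, ev_apply, dl_apply, sub_eq_iff_eq_add']) g

lemma M_comm (f g : L) : M f g = M g f :=
  ext2 (M.flip g) (M g) (fun s => ext2 (M (dl s)) (M.flip (dl s)) (fun t => by
    simp [M_dl, sh_dl, add_comm]) g) f

lemma M_assoc (f g h : L) : M (M f g) h = M f (M g h) :=
  ext2 ((M.flip h).comp (M.flip g)) (M.flip (M g h)) (fun s =>
    ext2 ((M.flip h).comp (M (dl s))) ((M (dl s)).comp (M.flip h)) (fun t =>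
      ext2 (M (M (dl s) (dl t))) ((M (dl s)).comp (M (dl t))) (fun u => by
        simp [M_dl, sh_dl, add_assoc]) h) g) f

lemma M_one (f : L) : M (dl 0) f = f :=
  ext2 (M (dl 0)) (ContinuousLinearMap.id ℂ L) (fun t => by simp [M_dl, sh_dl]) f

noncomputable instance : CommRing L :=
  { (inferInstance : AddCommGroup L) with
    mul := fun f g => M f g
    one := dl 0
    mul_assoc := M_assoc
    one_mul := M_one
    mul_one := fun f => (M_comm _ _).trans (M_one f)
    left_distrib := fun f g h => map_add (M f) g h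
    right_distrib := fun f g h => DFunLike.congr_fun (map_add M f g) h
    zero_mul := fun f => DFunLike.congr_fun (map_zero M) f
    mul_zero := fun f => map_zero (M f)
    mul_comm := M_comm }

lemma mul_def (f g : L) : f * g = M f g := rfl
lemma one_def : (1 : L) = dl 0 := rfl

noncomputable instance : NormedCommRing L :=
  { (inferInstance : NormedAddCommGroup L), (inferInstance : CommRing L) with
    norm_mul_le := fun f g => ((M f).le_opNorm g).trans (by
      have : ‖M f‖ ≤ 1 * ‖f‖ := lift_n sh_norm f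
      gcongr; simpa using this) }

instance : NormOneClass L := ⟨dl_norm 0⟩

noncomputable instance : Algebra ℂ L := Algebra.ofModule
  (fun c f g => DFunLike.congr_fun (map_smul M c f) g) (fun c f g => map_smul (M f) c g)

lemma dl_mul (s t : ℚ) : dl s * dl t = dl (s + t) := by rw [mul_def, M_dl, sh_dl]

lemma mul_apply (f g : L) (t : ℚ) : (f * g) t = ∑' s, f s * g (t - s) := by
  have := ((ev t).comp (ContinuousLinearMap.apply ℂ L g)).map_tsum (lift_s sh_norm f).of_norm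
  simp only [ContinuousLinearMap.comp_apply, ContinuousLinearMap.apply_apply, ev_apply,
    map_smul, sh_apply, smul_eq_mul] at this
  exact this

lemma sp_mul {f g : L} {t : ℚ} (h : ∀ s, f s = 0 ∨ g (t - s) = 0) : (f * g) t = 0 := by
  rw [mul_apply]
  simp [fun s => mul_eq_zero.2 (h s)]

def Ge (a : ℚ) (f : L) : Prop := ∀ t < a, f t = 0

lemma Ge.mul {a b : ℚ} {f g : L} (hf : Ge a f) (hg : Ge b g) : Ge (a + b) (f * g) :=
  fun t ht => sp_mul fun s => by
    rcases lt_or_ge s a with h | h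
    · exact Or.inl (hf s h)
    · exact Or.inr (hg _ (by linarith))

lemma Ge.mul0 {f g : L} (hf : Ge 0 f) (hg : Ge 0 g) : Ge 0 (f * g) := by
  simpa using hf.mul hg

lemma ge_dl (a : ℚ) : Ge a (dl a) := fun t ht => by simp [dl_apply, ht.ne]

open Classical in
noncomputable def pr (A : Set ℚ) : L →L[ℂ] L :=
  lift (fun t => if t ∈ A then dl t else 0) 1 fun t => by split_ifs <;> simp [dl_norm]

open Classical in
lemma pr_apply (A : Set ℚ) (f : L) (t : ℚ) : pr A f t = if t ∈ A then f t else 0 := by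
  have := ext2 ((ev t).comp (pr A)) (if t ∈ A then ev t else 0) (fun u => by
    simp only [ContinuousLinearMap.comp_apply, pr, lift_dl, ev_apply]
    by_cases h : t = u
    · subst h; split_ifs <;> simp [ev_apply]
    · split_ifs <;> simp [ev_apply, dl_apply, h]) f
  rw [ContinuousLinearMap.comp_apply, ev_apply] at this
  rw [this]; split_ifs <;> simp [ev_apply]

lemma pr_norm (A : Set ℚ) (f : L) : ‖pr A f‖ ≤ ‖f‖ := by
  obtain ⟨g, h1, h2⟩ := dom (pr A f) f fun t => by rw [pr_apply]; split_ifs <;> simp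
  rwa [show pr A f = g from lp.ext (funext fun t => (h1 t).symm)]

lemma fix (A : Set ℚ) {x : L} (hx : ‖x‖ < 1) : ∃ q : L, q = 1 - pr A (x * q) := by
  have h : ‖-(pr A).comp (M x)‖ < 1 := by
    rw [norm_neg]
    refine lt_of_le_of_lt (ContinuousLinearMap.opNorm_le_bound _ (norm_nonneg x) fun g => ?_) hx
    exact (pr_norm _ _).trans (norm_mul_le x g)
  have := DFunLike.congr_fun (Units.oneSub _ h).mul_inv 1
  refine ⟨(Units.oneSub _ h).inv 1, eq_sub_of_add_eq ?_⟩
  simpa [mul_def] using this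

def Tw (σ : ℝ) (f f' : L) : Prop := ∀ t, f' t = (Real.exp (-σ * t) : ℂ) * f t

lemma Tw.mul {σ : ℝ} {f f' g g' : L} (hf : Tw σ f f') (hg : Tw σ g g') :
    Tw σ (f * g) (f' * g') := fun t => by
  rw [mul_apply, mul_apply, ← tsum_mul_left]
  refine tsum_congr fun s => ?_
  rw [hf, hg, show -σ * (t : ℝ) = -σ * s + -σ * ((t - s : ℚ) : ℝ) by push_cast; ring, Real.exp_add]
  push_cast; ring

lemma Tw.zero {σ : ℝ} {f f' : L} (hf : Tw σ f f') (t : ℚ) : f' t = 0 ↔ f t = 0 := by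
  rw [hf]; simp

lemma Tw.inj {σ : ℝ} {f g f' : L} (hf : Tw σ f f') (hg : Tw σ g f') : f = g := by
  ext t
  exact mul_left_cancel₀ (by simp) ((hf t).symm.trans (hg t))

lemma Tw.fn {σ : ℝ} {f f' f'' : L} (hf : Tw σ f f') (hg : Tw σ f f'') : f' = f'' := by
  ext t; rw [hf, hg]

lemma tw_dl (σ : ℝ) (r : ℚ) : Tw σ (dl r) ((Real.exp (-σ * r) : ℂ) • dl r) := fun t => by
  rw [lp.coeFn_smul, Pi.smul_apply, dl_apply]
  split_ifs with h <;> simp [h]

lemma tw_one (σ : ℝ) : Tw σ 1 1 := by simpa [one_def] using tw_dl σ 0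

lemma Tw.add {σ : ℝ} {f f' g g' : L} (hf : Tw σ f f') (hg : Tw σ g g') :
    Tw σ (f + g) (f' + g') := fun t => by
  simp only [lp.coeFn_add, Pi.add_apply, hf t, hg t]; ring

lemma Tw.smul {σ : ℝ} {f f' : L} (hf : Tw σ f f') (c : ℂ) : Tw σ (c • f) (c • f') := fun t => by
  simp only [lp.coeFn_smul, Pi.smul_apply, hf t, smul_eq_mul]; ring

/-- change of twist on elements supported in `t ≤ 0` -/
lemma retw {σ σ' : ℝ} (h : σ' ≤ σ) {n' : L} (hn : ∀ t, 0 < t → n' t = 0) :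
    ∃ n : L, (∀ t, n t = (Real.exp ((σ - σ') * t) : ℂ) * n' t) ∧ ‖n‖ ≤ ‖n'‖ :=
  dom _ n' fun t => by
    rcases lt_or_ge 0 t with h1 | h1
    · simp [hn t h1]
    · rw [norm_mul, Complex.norm_real, Real.norm_eq_abs, abs_of_pos (Real.exp_pos _)]
      refine mul_le_of_le_one_left (norm_nonneg _) (Real.exp_le_one_iff.2 ?_)
      exact mul_nonpos_of_nonneg_of_nonpos (by linarith) (by exact_mod_cast h1)

lemma untw {σ : ℝ} (h : 0 ≤ σ) {n' : L} (hn : ∀ t, 0 < t → n' t = 0) :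
    ∃ n : L, Tw σ n n' ∧ ‖n‖ ≤ ‖n'‖ := by
  obtain ⟨n, h1, h2⟩ := retw h hn
  refine ⟨n, fun t => ?_, h2⟩
  rw [h1, ← mul_assoc, ← Complex.ofReal_mul, ← Real.exp_add]
  simp

lemma tw_ge {σ : ℝ} (h : 0 ≤ σ) {f : L} (hf : Ge 0 f) : ∃ f', Tw σ f f' ∧ ‖f'‖ ≤ ‖f‖ :=
  dom _ f fun t => by
    rcases lt_or_ge t 0 with h1 | h1
    · simp [hf t h1]
    · rw [norm_mul, Complex.norm_real, Real.norm_eq_abs, abs_of_pos (Real.exp_pos _)]
      refine mul_le_of_le_one_left (norm_nonneg _) (Real.exp_le_one_iff.2 ?_)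
      exact mul_nonpos_of_nonpos_of_nonneg (by linarith) (by exact_mod_cast h1)

end Pool.Agent.Lib.helper16.WhA
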