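import Mathlib
import Pool.Agent.Lib.helper16.WhA

namespace Pool.Agent.Lib.helper16.WhB
open Filter Topology Pool.Agent.Lib.helper16.WhA

lemma sub_ap (f g : L) (t : ℚ) : (f - g) t = f t - g t := by rw [lp.coeFn_sub]; rfl
lemma add_ap (f g : L) (t : ℚ) : (f + g) t = f t + g t := by rw [lp.coeFn_add]; rfl
lemma smul_ap (c : ℂ) (f : L) (t : ℚ) : (c • f) t = c * f t := by rw [lp.coeFn_smul]; rfl

lemma fix' (A : Set ℚ) (h0 : 0 ∈ A) {x : L} (hx : ‖x‖ < 1) :
    ∃ q : L, q = 1 - pr A (x * q) ∧ (∀ t ∉ A, q t = 0) ∧ ‖q‖ ≤ 1 + ‖x‖ * ‖q‖ := by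
  obtain ⟨q, hq⟩ := fix A hx
  refine ⟨q, hq, fun t ht => ?_, ?_⟩
  · rw [hq, sub_ap, pr_apply, if_neg ht, one_def, dl_apply, if_neg fun h : t = 0 => ht (h ▸ h0), sub_zero]
  · calc ‖q‖ = ‖1 - pr A (x * q)‖ := by rw [← hq]
      _ ≤ ‖(1 : L)‖ + ‖pr A (x * q)‖ := norm_sub_le _ _
      _ ≤ _ := by rw [norm_one]; gcongr; exact (pr_norm _ _).trans (norm_mul_le _ _)

lemma inv_in (A : Set ℚ) (h0 : 0 ∈ A) (hA : ∀ s ∈ A, ∀ u ∈ A, s + u ∈ A) {y : L} (hy : ‖y‖ < 1)
    (hs : ∀ t ∉ A, y t = 0) :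
    ∃ q : L, (1 + y) * q = 1 ∧ (∀ t ∉ A, q t = 0) ∧ ‖q‖ ≤ 1 + ‖y‖ * ‖q‖ := by
  obtain ⟨q, h1, h2, h3⟩ := fix' A h0 hy
  refine ⟨q, ?_, h2, h3⟩
  have : pr A (y * q) = y * q := by
    ext t
    rw [pr_apply]
    split_ifs with ht
    · rfl
    · refine (sp_mul fun s => ?_).symm
      by_contra hc
      push Not at hc
      have h4 := hA s (by_contra fun h => hc.1 (hs s h)) (t - s) (by_contra fun h => hc.2 (h2 _ h))
      rw [add_sub_cancel] at h4
      exact ht h4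
  rw [this] at h1
  linear_combination h1

lemma wh {F F' : L} {σ ε η : ℝ} (r : ℚ) (hσ : 0 ≤ σ) (hε : 0 < ε) (hη : η ≤ 1 / 4)
    (hF : Tw σ F F')
    (hD : Real.exp (σ * r) * ‖F' - (ε : ℂ) • (Real.exp (-σ * r) : ℂ) • dl r‖ ≤ η * ε) :
    ∃ a b E : L, a * b = 1 ∧ ‖a - 1‖ ≤ 2 * η ∧ ‖b - 1‖ ≤ 2 * η ∧ F = E * dl r * a ∧ Ge 0 E ∧
      (∃ a', Tw σ a a') ∧ (∀ σ' ≤ σ, ∃ b', Tw σ' b b') ∧
      ∀ V V', Tw σ V V' → Ge 0 (E * V) → Ge 0 V := by
  have e0 : (ε : ℂ) ≠ 0 := by exact_mod_cast hε.ne'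
  have dd : dl (-r) * dl r = 1 := by rw [dl_mul, neg_add_cancel, one_def]
  set X : L := (ε : ℂ)⁻¹ • ((Real.exp (-σ * (-r : ℚ)) : ℂ) • dl (-r) * F') with hX
  have tX : Tw σ ((ε : ℂ)⁻¹ • (dl (-r) * F)) X := ((tw_dl σ (-r)).mul hF).smul _
  set x := X - 1 with hx
  have x1 : ‖x‖ ≤ η := by
    have : x = (ε : ℂ)⁻¹ • ((Real.exp (σ * r) : ℂ) • (dl (-r) *
        (F' - (ε : ℂ) • (Real.exp (-σ * r) : ℂ) • dl r))) := by
      rw [mul_sub, mul_smul_comm, mul_smul_comm, dd, smul_sub, smul_sub, smul_smul, smul_smul,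
        smul_smul, hx, hX, smul_mul_assoc, smul_smul, smul_smul]
      congr 2
      · push_cast; ring_nf
      · rw [← Complex.ofReal_inv, ← Complex.ofReal_mul, ← Complex.ofReal_mul, ← Complex.ofReal_mul,
          mul_right_comm _ ε, mul_assoc ε⁻¹, ← Real.exp_add]
        simp [e0]
    rw [this, norm_smul, norm_smul, norm_inv, Complex.norm_real, Complex.norm_real,
      Real.norm_eq_abs, Real.norm_eq_abs, abs_of_pos hε, abs_of_pos (Real.exp_pos _),
      inv_mul_le_iff₀ hε, mul_comm ε]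
    refine le_trans ?_ hD
    gcongr
    exact (norm_mul_le _ _).trans (by rw [dl_norm, one_mul])
  have η0 : 0 ≤ η := (norm_nonneg _).trans x1
  obtain ⟨q, q1, q2, q3⟩ := fix' (Set.Ici 0) Set.self_mem_Ici (show ‖x‖ < 1 by linarith)
  have q4 : ‖q‖ ≤ 4 / 3 := by nlinarith [norm_nonneg q]
  have q5 : ‖x * q‖ ≤ 4 / 3 * η := (norm_mul_le _ _).trans (by nlinarith [norm_nonneg q])
  set n' := pr (Set.Iio 0) (x * q) with hn'
  have n1 : ‖n'‖ ≤ 4 / 3 * η := (pr_norm _ _).trans q5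
  have n2 : ∀ t, 0 < t → n' t = 0 := fun t ht => by
    rw [hn', pr_apply, if_neg (by simpa using ht.le)]
  have n3 : X * q = 1 + n' := by
    have : pr (Set.Ici 0) (x * q) + n' = x * q := by
      ext t
      rw [add_ap, hn', pr_apply, pr_apply]
      rcases lt_or_ge t 0 with h | h
      · simp [h, not_le.2 h]
      · simp [not_lt.2 h, show 0 ≤ t from h]
    linear_combination q1 - this - q * hx
  obtain ⟨b', b1, b2, b3⟩ := inv_in (Set.Iic 0) Set.self_mem_Iic 
    (fun s hs u hu => Set.mem_Iic.2 (add_nonpos (Set.mem_Iic.1 hs) (Set.mem_Iic.1 hu)))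
    (show ‖n'‖ < 1 by linarith) fun t ht => n2 t (by simpa using ht)
  have b4 : ‖b'‖ ≤ 3 / 2 := by nlinarith [norm_nonneg b']
  have b5 : ‖b' - 1‖ ≤ 2 * η := by
    rw [show b' - 1 = -(n' * b') by linear_combination b1, norm_neg]
    exact (norm_mul_le _ _).trans (by nlinarith [norm_nonneg b'])
  obtain ⟨e', e1, e2, -⟩ := inv_in (Set.Ici 0) Set.self_mem_Ici 
    (fun s hs u hu => Set.mem_Ici.2 (add_nonneg (Set.mem_Ici.1 hs) (Set.mem_Ici.1 hu)))
    (y := q - 1) (by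
      rw [show q - 1 = -pr (Set.Ici 0) (x * q) by linear_combination q1, norm_neg]
      linarith [pr_norm (Set.Ici 0) (x * q)]) fun t ht => by
      rw [sub_ap, q2 t ht, one_def, dl_apply, if_neg fun h => ht (by simp [h]), sub_zero]
  rw [add_sub_cancel] at e1
  obtain ⟨n, t1, t2⟩ := untw hσ n2
  obtain ⟨m, t3, t4⟩ := untw hσ (n' := b' - 1) fun t ht => by
    rw [sub_ap, b2 t (by simpa using ht), one_def, dl_apply, if_neg ht.ne', sub_zero]
  have ta := (tw_one σ).add t1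
  have tb := (tw_one σ).add t3
  rw [add_sub_cancel] at tb
  have ab : (1 + n) * (1 + m) = 1 := (ta.mul tb).inj (by rw [b1]; exact tw_one σ)
  have tE : Tw σ (F * dl (-r) * (1 + m)) ((ε : ℂ) • e') := by
    have := (tX.mul tb).smul ε
    rwa [smul_mul_assoc, smul_smul, mul_inv_cancel₀ e0, one_smul, mul_comm (dl _),
      show X * b' = e' by linear_combination (-X * b') * e1 + (b' * e') * n3 + e' * b1] at this
  have ge' : Ge 0 e' := fun t ht => e2 t (by simpa using ht)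
  refine ⟨1 + n, 1 + m, F * dl (-r) * (1 + m), ab, by rw [add_sub_cancel_left]; linarith,
    by rw [add_sub_cancel_left]; linarith,
    by linear_combination (-F * (1 + n) * (1 + m)) * dd - F * ab,
    fun t ht => (tE.zero t).1 (by rw [smul_ap, ge' t ht, mul_zero]), ⟨_, ta⟩, fun σ' h => ?_,
    fun V V' h1 h2 t ht => (h1.zero t).1 ?_⟩
  · obtain ⟨c, c1, -⟩ := retw h (n' := b') fun t ht => b2 t (by simpa using ht)
    refine ⟨c, fun t => ?_⟩
    rw [c1, tb t, ← mul_assoc, ← Complex.ofReal_mul, ← Real.exp_add]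
    congr 3; ring
  · have h3 : Ge 0 (q * ((ε : ℂ) • e' * V')) := Ge.mul0 (fun t ht => q2 t (by simpa using ht))
      fun t ht => ((tE.mul h1).zero t).2 (h2 t ht)
    have h4 := h3 t ht
    rw [smul_mul_assoc, mul_smul_comm, ← mul_assoc, e1, one_mul, smul_ap] at h4
    exact (mul_eq_zero.1 h4).resolve_left e0

def Pos (f : L) : Prop := ∀ t ≤ 0, f t = 0

lemma fac {F : L} (F' : ℕ → L) (σ ε η : ℕ → ℝ) (x : ℕ → ℚ) (hx : ∀ k, 0 < x k)
    (hσ : ∀ k, 0 ≤ σ k) (hm : ∀ k, σ k ≤ σ (k + 1)) (hε : ∀ k, 0 < ε k) (hη : ∀ k, η k ≤ 1 / 4)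
    (hs : Summable η) (hF : ∀ k, Tw (σ k) F (F' k))
    (hD : ∀ k, Real.exp (σ k * (x k + x (k + 1) : ℚ)) * ‖F' k - (ε k : ℂ) •
      (Real.exp (-σ k * (x k + x (k + 1) : ℚ)) : ℂ) • dl (x k + x (k + 1))‖ ≤ η k * ε k) :
    ∃ g h : L, Pos g ∧ Pos h ∧ F = g * h := by
  choose a b E ab ha hb hE gE ta tb can using
    fun k => wh (x k + x (k + 1)) (hσ k) (hε k) (hη k) (hF k) (hD k)
  have η0 : ∀ k, 0 ≤ η k := fun k => by linarith [norm_nonneg (a k - 1), ha k]
  have gV : ∀ k, Ge 0 (dl (x k - x (k + 2)) * (a k * b (k + 1))) := by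
    intro k
    obtain ⟨a', h1⟩ := ta k
    obtain ⟨b', h2⟩ := tb (k + 1) _ (hm k)
    refine can k _ _ ((tw_dl _ _).mul (h1.mul h2)) ?_
    have d1 : dl (x k + x (k + 1)) * dl (-(x (k + 1) + x (k + 1 + 1))) = dl (x k - x (k + 2)) := by
      rw [dl_mul]; congr 1; ring
    have d2 : dl (x (k + 1) + x (k + 1 + 1)) * dl (-(x (k + 1) + x (k + 1 + 1))) = 1 := by
      rw [dl_mul, add_neg_cancel, one_def]
    have : E k * (dl (x k - x (k + 2)) * (a k * b (k + 1))) = E (k + 1) := by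
      linear_combination (dl (-(x (k + 1) + x (k + 1 + 1))) * b (k + 1)) * (hE (k + 1) - hE k)
        - (E k * a k * b (k + 1)) * d1 + (E (k + 1) * a (k + 1) * b (k + 1)) * d2
        + E (k + 1) * ab (k + 1)
    rw [this]; exact gE _
  have chain : ∀ i : ℕ, ∃ p : L, Pos (dl (x i) * p) ∧ Tendsto (fun J => ∏ j ∈ Finset.range J,
      (a (i + 2 * j) * b (i + 2 * j + 1))) atTop (𝓝 p) := by
    intro i
    have s1 : Summable fun j => η (i + 2 * j) := hs.comp_injective fun j j' h => by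
      simpa using h
    have s2 : Summable fun j => η (i + 2 * j + 1) := hs.comp_injective fun j j' h => by
      simpa using h
    have s3 : Summable fun j => ‖a (i + 2 * j) * b (i + 2 * j + 1) - 1‖ := by
      refine ((s1.mul_left 2).add (s2.mul_left 3)).of_nonneg_of_le (fun _ => norm_nonneg _)
        fun j => ?_
      generalize i + 2 * j = k
      have h1 : ‖a k‖ ≤ 3 / 2 := by
        have := norm_add_le (a k - 1) 1
        rw [sub_add_cancel, norm_one] at this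
        linarith [ha k, hη k]
      rw [show a k * b (k + 1) - 1 = (a k - 1) + a k * (b (k + 1) - 1) by ring]
      refine (norm_add_le _ _).trans (add_le_add (ha k) ((norm_mul_le _ _).trans ?_))
      nlinarith [hb (k + 1), η0 (k + 1), norm_nonneg (b (k + 1) - 1)]
    have h2 := (multipliable_one_add_of_summable s3).hasProd.tendsto_prod_nat
    simp only [add_sub_cancel] at h2
    refine ⟨_, fun t ht => ?_, h2⟩
    have h3 : ∀ J, Ge (x (i + 2 * J)) (dl (x i) * ∏ j ∈ Finset.range J,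
        (a (i + 2 * j) * b (i + 2 * j + 1))) := by
      intro J
      induction J with
      | zero => simpa using ge_dl (x i)
      | succ J ih =>
        have h4 := (ih.mul (gV (i + 2 * J))).mul (ge_dl (x (i + 2 * J + 2) - x (i + 2 * J)))
        rw [mul_assoc, mul_right_comm (dl (_ - _)), dl_mul, sub_add_sub_cancel, sub_self,
          ← one_def, one_mul, add_zero, add_sub_cancel] at h4
        rw [Finset.prod_range_succ, ← mul_assoc]
        exact h4
    have h5 := (((ev t).comp (M (dl (x i)))).continuous.tendsto _).comp h2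
    refine tendsto_nhds_unique h5 (tendsto_const_nhds.congr fun J => ?_)
    exact (h3 J t (ht.trans_lt (hx _))).symm
  obtain ⟨p0, h1, h2⟩ := chain 0
  obtain ⟨p1, h3, h4⟩ := chain 1
  have h5 : ∀ J, (∏ j ∈ Finset.range J, (a (0 + 2 * j) * b (0 + 2 * j + 1))) *
      ∏ j ∈ Finset.range J, (a (1 + 2 * j) * b (1 + 2 * j + 1)) = a 0 * b (2 * J) := by
    intro J
    induction J with
    | zero => simp [ab 0]
    | succ J ih =>
      rw [Finset.prod_range_succ, Finset.prod_range_succ, mul_mul_mul_comm, ih, zero_add,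
        add_comm 1 (2 * J), show 2 * (J + 1) = 2 * J + 1 + 1 by ring]
      linear_combination (a 0 * b (2 * J + 1 + 1) * a (2 * J + 1) * b (2 * J + 1)) * ab (2 * J)
        + (a 0 * b (2 * J + 1 + 1)) * ab (2 * J + 1)
  have h6 : Tendsto (fun J => a 0 * b (2 * J)) atTop (𝓝 (a 0 * 1)) := by
    refine Tendsto.const_mul _ (tendsto_iff_norm_sub_tendsto_zero.2 ?_)
    refine squeeze_zero (fun _ => norm_nonneg _) (fun J => hb (2 * J)) ?_
    simpa using ((hs.comp_injective (i := fun J => 2 * J) fun j j' h => by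
      simpa using h).tendsto_atTop_zero).const_mul 2
  have h7 : p0 * p1 = a 0 * 1 := tendsto_nhds_unique (h2.mul h4) (h6.congr fun J => (h5 J).symm)
  refine ⟨dl (x 0) * p0, E 0 * (dl (x 1) * p1), h1, fun t ht => sp_mul fun s => ?_, ?_⟩
  · rcases lt_or_ge s 0 with h | h
    · exact Or.inl (gE 0 s h)
    · exact Or.inr (h3 _ (by linarith))
  · linear_combination hE 0 - (E 0 * dl (x 0) * dl (x 1)) * h7 - (E 0 * a 0) * dl_mul (x 0) (x 1)

end Pool.Agent.Lib.helper16.WhB
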