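import Mathlib
import Pool.Agent.Lib.helper16.WhB

namespace Pool.Agent.Lib.helper16.WhC
open Filter Topology Pool.Agent.Lib.helper16.WhA Pool.Agent.Lib.helper16.WhB

lemma dct {ι : Type} {l : Filter ι} (F : ι → L) (g : L) (h1 : ∀ i t, ‖F i t‖ ≤ ‖g t‖)
    (h2 : ∀ t, Tendsto (fun i => ‖F i t‖) l (𝓝 0)) : Tendsto (fun i => ‖F i‖) l (𝓝 0) := by
  have := tendsto_tsum_of_dominated_convergence (summ g) h2
    (Eventually.of_forall fun i t => by rw [norm_norm]; exact h1 i t)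
  simpa [nrm] using this

lemma Pos.ge {f : L} (h : Pos f) : Ge 0 f := fun t ht => h t ht.le

lemma tw_small {f : L} (hf : Pos f) {δ : ℝ} (hδ : 0 < δ) :
    ∀ᶠ σ : ℝ in atTop, ∀ f', Tw σ f f' → ‖f'‖ ≤ δ := by
  choose F hF _ using fun σ : ℝ => tw_ge (le_max_right σ 0) (Pos.ge hf)
  have e : ∀ σ t, ‖F σ t‖ = Real.exp (-max σ 0 * t) * ‖f t‖ := fun σ t => by
    rw [hF σ t, norm_mul, Complex.norm_real, Real.norm_eq_abs, abs_of_pos (Real.exp_pos _)]
  have := dct (l := atTop) F f (fun σ t => ?_) fun t => ?_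
  · filter_upwards [this.eventually (ge_mem_nhds hδ), eventually_ge_atTop 0] with σ h1 h2 f' h3
    have h4 := hF σ
    rw [max_eq_left h2] at h4
    rwa [h3.fn h4]
  · rcases le_or_gt t 0 with h | h
    · simp [e, hf t h]
    · rw [e]
      refine mul_le_of_le_one_left (norm_nonneg _) (Real.exp_le_one_iff.2 ?_)
      exact mul_nonpos_of_nonpos_of_nonneg (by simp) (by exact_mod_cast h.le)
  · rcases le_or_gt t 0 with h | h
    · simp [e, hf t h]
    · simp only [e]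
      have h1 : Tendsto (fun σ : ℝ => -max σ 0 * (t : ℝ)) atTop atBot :=
        (tendsto_neg_atTop_atBot.comp (tendsto_atTop_mono (fun σ => le_max_left σ 0)
          tendsto_id)).atBot_mul_const (by exact_mod_cast h)
      simpa using (Real.tendsto_exp_atBot.comp h1).mul_const ‖f t‖

noncomputable def ser (w : ℕ → ℝ) (r : ℕ → ℚ) : L := ∑' j, (w j : ℂ) • dl (r j)

lemma ser_n {w : ℕ → ℝ} (h0 : ∀ j, 0 ≤ w j) (r : ℕ → ℚ) (j : ℕ) :
    ‖(w j : ℂ) • dl (r j)‖ = w j := by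
  rw [norm_smul, dl_norm, mul_one, Complex.norm_real, Real.norm_eq_abs, abs_of_nonneg (h0 j)]

lemma ser_s {w : ℕ → ℝ} (h0 : ∀ j, 0 ≤ w j) (h1 : ∀ j, w j ≤ (1 / 2) ^ j) (r : ℕ → ℚ) :
    Summable fun j => (w j : ℂ) • dl (r j) :=
  Summable.of_norm_bounded summable_geometric_two fun j => by rw [ser_n h0]; exact h1 j

lemma ser_ap {w : ℕ → ℝ} (h0 : ∀ j, 0 ≤ w j) (h1 : ∀ j, w j ≤ (1 / 2) ^ j) (r : ℕ → ℚ) (t : ℚ) :
    ser w r t = ∑' j, (w j : ℂ) * dl (r j) t := by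
  have := (ev t).map_tsum (ser_s h0 h1 r)
  simp only [map_smul, ev_apply, smul_eq_mul] at this
  exact this

lemma ser_pos {w : ℕ → ℝ} (h0 : ∀ j, 0 ≤ w j) (h1 : ∀ j, w j ≤ (1 / 2) ^ j) {r : ℕ → ℚ}
    (hr : ∀ j, 0 < r j) : Pos (ser w r) := fun t ht => by
  rw [ser_ap h0 h1]
  simp [dl_apply, fun j => (ht.trans_lt (hr j)).ne]

lemma ser_le {w : ℕ → ℝ} (h0 : ∀ j, 0 ≤ w j) (h1 : ∀ j, w j ≤ (1 / 2) ^ j) (r : ℕ → ℚ) :
    ‖ser w r‖ ≤ 2 :=
  tsum_of_norm_bounded hasSum_geometric_two fun j => by rw [ser_n h0]; exact h1 j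

lemma ser_tw {w : ℕ → ℝ} (h0 : ∀ j, 0 ≤ w j) (h1 : ∀ j, w j ≤ (1 / 2) ^ j) {r : ℕ → ℚ}
    (hr : ∀ j, 0 < r j) {σ : ℝ} (hσ : 0 ≤ σ) (k : ℕ) {δ : ℝ} (hδ : 0 ≤ δ)
    (h : ∀ j ≠ k, w j * Real.exp (-σ * r j) ≤ δ * (1 / 2) ^ j) :
    ∃ G, Tw σ (ser w r) G ∧
      ‖G - (w k : ℂ) • (Real.exp (-σ * r k) : ℂ) • dl (r k)‖ ≤ δ * 2 := by
  have h2 : ∀ j, 0 ≤ w j * Real.exp (-σ * r j) := fun j => mul_nonneg (h0 j) (Real.exp_pos _).le
  have h3 : ∀ j, w j * Real.exp (-σ * r j) ≤ (1 / 2) ^ j := fun j =>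
    (mul_le_of_le_one_right (h0 j) (Real.exp_le_one_iff.2
      (mul_nonpos_of_nonpos_of_nonneg (by linarith) (by exact_mod_cast (hr j).le)))).trans (h1 j)
  refine ⟨ser (fun j => w j * Real.exp (-σ * r j)) r, fun t => ?_, ?_⟩
  · rw [ser_ap h0 h1, ser_ap h2 h3, ← tsum_mul_left]
    refine tsum_congr fun j => ?_
    rw [dl_apply]
    split_ifs with h4
    · subst h4; push_cast; ring
    · simp
  · rw [ser, (ser_s h2 h3 r).tsum_eq_add_tsum_ite k, smul_smul, ← Complex.ofReal_mul,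
      add_sub_cancel_left]
    refine tsum_of_norm_bounded (hasSum_geometric_two.mul_left δ) fun j => ?_
    split_ifs with h4
    · rw [norm_zero]; positivity
    · rw [ser_n h2]; exact h j h4

noncomputable def aa (k : ℕ) : ℝ := (1 / 2) ^ (k + 4) ^ 2
noncomputable def de (k : ℕ) : ℝ := aa k * (1 / 2) ^ (k + 7)

lemma aa_pos (k : ℕ) : 0 < aa k := by unfold aa; positivity
lemma de_pos (k : ℕ) : 0 < de k := by unfold de aa; positivity
lemma aa_le (k : ℕ) : aa k ≤ (1 / 2) ^ k :=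
  pow_le_pow_of_le_one (by norm_num) (by norm_num) (by nlinarith)
lemma aa_lt {j k : ℕ} (h : k < j) : aa j ≤ de k * (1 / 2) ^ j := by
  unfold de aa
  rw [← pow_add, ← pow_add]
  exact pow_le_pow_of_le_one (by norm_num) (by norm_num) (by nlinarith)

lemma aa_exp {j k : ℕ} {w y : ℝ} (hw : w ≤ aa j) (hy : y ≤ 0)
    (h : j < k → w = 0 ∨ Real.exp y ≤ de k) (hne : j ≠ k) (h0 : 0 ≤ w) :
    w * Real.exp y ≤ de k * (1 / 2) ^ j := by
  rcases lt_or_gt_of_ne hne with c | c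
  · rcases h c with h | h
    · rw [h, zero_mul]; have := de_pos k; positivity
    · rw [mul_comm]; exact mul_le_mul h (hw.trans (aa_le j)) h0 (de_pos k).le
  · exact (mul_le_of_le_one_right h0 (Real.exp_le_one_iff.2 hy)).trans (hw.trans (aa_lt c))

theorem two {f : L} (hf : Pos f) :
    ∃ g h g' h' : L, Pos g ∧ Pos h ∧ Pos g' ∧ Pos h' ∧ f = g * h + g' * h' := by
  have st : ∀ (k : ℕ) (p : ℝ × {x : ℚ // 0 < x}), ∃ p' : ℝ × {x : ℚ // 0 < x}, p.1 ≤ p'.1 ∧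
      0 ≤ p'.1 ∧ p'.2.1 ≤ p.2.1 ∧ p'.1 * (2 * p'.2.1) ≤ 1 ∧ Real.exp (-p'.1 * p.2.1) ≤ de k ∧
      ∀ f', Tw p'.1 f f' → ‖f'‖ ≤ de k := by
    rintro k ⟨σ, x, hx⟩
    have h1 : Tendsto (fun s : ℝ => Real.exp (-s * (x : ℝ))) atTop (𝓝 0) :=
      Real.tendsto_exp_atBot.comp (tendsto_neg_atTop_atBot.atBot_mul_const (by exact_mod_cast hx))
    obtain ⟨s, ⟨h2, h3⟩, h4, h5⟩ := (((eventually_ge_atTop σ).and (eventually_gt_atTop 0)).and
      ((h1.eventually (ge_mem_nhds (de_pos k))).and (tw_small hf (de_pos k)))).exists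
    obtain ⟨y, h6, h7⟩ := exists_rat_btwn (show 0 < min (x : ℝ) (1 / (2 * s)) from
      lt_min (by exact_mod_cast hx) (by positivity))
    rw [lt_min_iff, lt_div_iff₀ (by positivity)] at h7
    exact ⟨(s, ⟨y, by exact_mod_cast h6⟩), h2, h3.le, by exact_mod_cast h7.1.le,
      by simp only; linarith [h7.2], h4, h5⟩
  choose nx h1 h2 h3 h4 h5 h6 using st
  set s : ℕ → ℝ × {x : ℚ // 0 < x} := fun k => Nat.rec (0, ⟨1, one_pos⟩) nx k with hs
  have sr : ∀ k, s (k + 1) = nx k (s k) := fun k => rfl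
  set σ : ℕ → ℝ := fun k => (s (k + 1)).1 with hσ
  set x : ℕ → ℚ := fun k => (s (k + 1)).2.1 with hx
  have x0 : ∀ k, 0 < x k := fun k => (s (k + 1)).2.2
  have xa : Antitone fun k => (s k).2.1 := antitone_nat_of_succ_le fun k => h3 k (s k)
  have r0 : ∀ k, 0 < x k + x (k + 1) := fun k => add_pos (x0 _) (x0 _)
  have σ0 : ∀ k, 0 ≤ σ k := fun k => h2 k (s k)
  have hu := ser_pos (fun k => (aa_pos k).le) aa_le r0
  choose U hU1 hU2 using fun k => ser_tw (fun k => (aa_pos k).le) aa_le r0 (σ0 k) k (de_pos k).le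
    fun j hj => aa_exp le_rfl
      (mul_nonpos_of_nonpos_of_nonneg (by linarith [σ0 k]) (by exact_mod_cast (r0 j).le))
      (fun c => Or.inr ((Real.exp_le_exp.2 (by
        have a1 : ((s k).2.1 : ℝ) ≤ (x j + x (j + 1) : ℚ) := by
          exact_mod_cast (xa (Nat.succ_le_of_lt c)).trans (le_add_of_nonneg_right (x0 _).le)
        have := σ0 k
        change -σ k * _ ≤ -σ k * _
        nlinarith)).trans (h5 k (s k)))) hj (aa_pos j).le
  have key : ∀ {F : L} (F' : ℕ → L), (∀ k, Tw (σ k) F (F' k)) → (∀ k, ‖F' k - (aa k : ℂ) •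
      (Real.exp (-σ k * (x k + x (k + 1) : ℚ)) : ℂ) • dl (x k + x (k + 1))‖ ≤ de k * 3) →
      ∃ g h : L, Pos g ∧ Pos h ∧ F = g * h := by
    intro F F' a1 a2
    refine fac F' σ aa (fun k => (1 / 2) ^ k / 4) x x0 σ0 (fun k => h1 _ _) aa_pos (fun k => ?_)
      (summable_geometric_two.div_const 4) a1 fun k => ?_
    · gcongr; exact pow_le_one₀ (by norm_num) (by norm_num)
    · have b1 : ((x k + x (k + 1) : ℚ) : ℝ) ≤ 2 * x k := by
        have : x (k + 1) ≤ x k := xa (Nat.le_succ _)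
        exact_mod_cast (show x k + x (k + 1) ≤ 2 * x k by linarith)
      have b2 : Real.exp (σ k * (x k + x (k + 1) : ℚ)) ≤ 3 :=
        (Real.exp_le_exp.2 ((mul_le_mul_of_nonneg_left b1 (σ0 k)).trans (h4 k (s k)))).trans
          (by linarith [Real.exp_one_lt_d9])
      have b3 : (1 / 2) ^ k / 4 * aa k = 32 * de k := by unfold de; ring
      rw [b3]
      nlinarith [a2 k, de_pos k, norm_nonneg (F' k - (aa k : ℂ) •
        (Real.exp (-σ k * (x k + x (k + 1) : ℚ)) : ℂ) • dl (x k + x (k + 1)))]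
  choose F' hF' _ using fun k => tw_ge (σ0 k) (Pos.ge hf)
  obtain ⟨g, h, a1, a2, a3⟩ := key (fun k => F' k + U k) (fun k => (hF' k).add (hU1 k)) fun k => by
    rw [add_sub_assoc]
    exact (norm_add_le _ _).trans (by linarith [h6 k (s k) _ (hF' k), hU2 k])
  obtain ⟨g', h', b1, b2, b3⟩ := key U hU1 fun k => by linarith [hU2 k, de_pos k]
  refine ⟨g, h, -g', h', a1, a2, fun t ht => by rw [lp.coeFn_neg, Pi.neg_apply, b1 t ht, neg_zero],
    b2, by linear_combination a3 - b3⟩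

end Pool.Agent.Lib.helper16.WhC
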