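import Mathlib
import Pool.Agent.Lib.helper16.WhC

namespace Pool.Agent.Lib.helper16.WhD
open Filter Topology Pool.Agent.Lib.helper16.WhA Pool.Agent.Lib.helper16.WhB
open Pool.Agent.Lib.helper16.WhC

lemma dl_mul_ap (s t : ℚ) (g : L) : (dl s * g) t = g (t - s) := by rw [mul_def, M_dl, sh_apply]

lemma unit {G : L} {c : ℝ} (s : ℚ) (hc : 0 < c) (h : ‖G - (c : ℂ) • dl s‖ ≤ c / 2) :
    ∃ J : L, G * J = 1 ∧ ‖J‖ ≤ 2 / c := by
  have e0 : (c : ℂ) ≠ 0 := by exact_mod_cast hc.ne'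
  have dd : dl (-s) * dl s = 1 := by rw [dl_mul, neg_add_cancel, one_def]
  have nn : ∀ y : L, ‖(c : ℂ)⁻¹ • (dl (-s) * y)‖ ≤ c⁻¹ * ‖y‖ := fun y => by
    rw [norm_smul, norm_inv, Complex.norm_real, Real.norm_eq_abs, abs_of_pos hc]
    gcongr
    exact (norm_mul_le _ _).trans (by rw [dl_norm, one_mul])
  have h1 : ‖(c : ℂ)⁻¹ • (dl (-s) * (G - (c : ℂ) • dl s))‖ ≤ 1 / 2 :=
    (nn _).trans (by rw [inv_mul_le_iff₀ hc]; linarith)
  obtain ⟨q, q1, -, q3⟩ := inv_in Set.univ trivial (fun _ _ _ _ => trivial)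
    (h1.trans_lt (by norm_num)) fun t ht => absurd trivial ht
  refine ⟨(c : ℂ)⁻¹ • (dl (-s) * q), ?_, (nn _).trans ?_⟩
  · rw [mul_sub, mul_smul_comm, dd, smul_sub, smul_smul, inv_mul_cancel₀ e0, one_smul,
      add_sub_cancel, smul_mul_assoc] at q1
    rw [mul_smul_comm, ← q1, mul_left_comm, mul_assoc]
  · rw [div_eq_inv_mul]
    gcongr
    nlinarith [norm_nonneg q]

lemma lam_bd {g : L} (hg : Pos g) (z y : ℚ) :
    ‖(if 0 < y then (Real.exp (y ^ 2 - z ^ 2) : ℂ) * g (z - y) else 0)‖ ≤ ‖g‖ := by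
  split_ifs with h
  · rcases le_or_gt (z - y) 0 with h1 | h1
    · simp [hg _ h1]
    · rw [norm_mul, Complex.norm_real, Real.norm_eq_abs, abs_of_pos (Real.exp_pos _)]
      refine (mul_le_of_le_one_left (norm_nonneg _) (Real.exp_le_one_iff.2 ?_)).trans
        (lp.norm_apply_le_norm one_ne_zero g _)
      have h2 : y ^ 2 - z ^ 2 ≤ 0 := by nlinarith
      exact_mod_cast h2
  · simp

noncomputable def lam {g : L} (hg : Pos g) (z : ℚ) : L →L[ℂ] ℂ := lift _ _ (lam_bd hg z)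

lemma atom {g g' J : L} (hg : Pos g) {t : ℚ} (ht : 0 < t) (h1 : Tw (2 * t) g g') (h2 : g' * J = 1) :
    ∃ h e : L, Pos h ∧ Pos e ∧ ‖h‖ ≤ ‖J‖ ∧ ‖e‖ ≤ ‖J‖ * ‖g‖ ∧
      ∀ z, 0 < z → lam hg z h + (Real.exp (-z ^ 2) : ℂ) * e z = dl t z := by
  have nJ : ‖dl t * J‖ ≤ ‖J‖ := (norm_mul_le _ _).trans (by rw [dl_norm, one_mul])
  have t0 : (0 : ℝ) < t := by exact_mod_cast ht
  have bd : ∀ (p : Prop) [Decidable p] (u : ℝ) (y : ℚ), (p → u ≤ 0) →
      ‖if p then (Real.exp u : ℂ) * (dl t * J) y else 0‖ ≤ ‖(dl t * J) y‖ := by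
    intro p _ u y hu
    split_ifs with h
    · rw [norm_mul, Complex.norm_real, Real.norm_eq_abs, abs_of_pos (Real.exp_pos _)]
      exact mul_le_of_le_one_left (norm_nonneg _) (Real.exp_le_one_iff.2 (hu h))
    · simp
  obtain ⟨h, a1, a2⟩ := dom (fun y => if 0 < y then (Real.exp (-(y - t) ^ 2) : ℂ) * (dl t * J) y
    else 0) (dl t * J) fun y => bd _ _ _ fun _ => by nlinarith [sq_nonneg ((y : ℝ) - t)]
  obtain ⟨K, b1, b2⟩ := dom (fun y => if ¬ 0 < y then (Real.exp (2 * t * y - t ^ 2) : ℂ) *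
    (dl t * J) y else 0) (dl t * J) fun y => bd _ _ _ fun hy => by
      have : (y : ℝ) ≤ 0 := by exact_mod_cast not_lt.1 hy
      nlinarith
  refine ⟨h, pr (Set.Ioi 0) (K * g), fun y hy => by rw [a1, if_neg hy.not_gt],
    fun y hy => by rw [pr_apply, if_neg (by simpa using hy)], a2.trans nJ,
    (pr_norm _ _).trans ((norm_mul_le _ _).trans (by gcongr; exact b2.trans nJ)), fun z hz => ?_⟩
  have c1 : (Real.exp (-(z - t) ^ 2) : ℂ) * (dl t * J * g') z = dl t z := by
    rw [mul_assoc, mul_comm J, h2, mul_one, dl_apply]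
    split_ifs with h3 <;> simp [h3]
  have s2 : Summable fun y => (Real.exp (-z ^ 2) : ℂ) * (K y * g (z - y)) :=
    (lift_s (x := fun y => g (z - y)) (fun y => lp.norm_apply_le_norm one_ne_zero g _)
      K).of_norm.mul_left _
  rw [pr_apply, if_pos (by simpa using hz), lam, lift_apply, mul_apply, ← tsum_mul_left,
    ← (lift_s (lam_bd hg z) h).of_norm.tsum_add s2, ← c1, mul_apply, ← tsum_mul_left]
  refine tsum_congr fun y => ?_
  rw [a1, b1, h1 (z - y)]
  have e1 : (Real.exp (-(z - t) ^ 2) : ℂ) * (Real.exp (-(2 * t) * (z - y : ℚ)) : ℂ) =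
      (Real.exp (-(y - t) ^ 2) : ℂ) * (Real.exp (y ^ 2 - z ^ 2) : ℂ) := by
    rw [← Complex.ofReal_mul, ← Complex.ofReal_mul, ← Real.exp_add, ← Real.exp_add]
    congr 2; push_cast; ring
  have e2 : (Real.exp (-(z - t) ^ 2) : ℂ) * (Real.exp (-(2 * t) * (z - y : ℚ)) : ℂ) =
      (Real.exp (-z ^ 2) : ℂ) * (Real.exp (2 * t * y - t ^ 2) : ℂ) := by
    rw [← Complex.ofReal_mul, ← Complex.ofReal_mul, ← Real.exp_add, ← Real.exp_add]
    congr 2; push_cast; ring
  by_cases hy : 0 < y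
  · simp only [hy, if_true, not_true, if_false, smul_eq_mul]
    linear_combination (-(dl t * J) y * g (z - y)) * e1
  · simp only [hy, if_false, not_false_iff, if_true, smul_eq_mul]
    linear_combination (-(dl t * J) y * g (z - y)) * e2

theorem weighted (f : L) : ∃ g h g' h' e : L, Pos g ∧ Pos h ∧ Pos g' ∧ Pos h' ∧ Pos e ∧
    ∀ z : ℚ, 0 < z → (Real.exp (z ^ 2) : ℂ) * f z =
      (∑' y : ℚ, (Real.exp (y ^ 2) : ℂ) * h y * g (z - y)) +
      (∑' y : ℚ, (Real.exp (y ^ 2) : ℂ) * h' y * g' (z - y)) + e z := by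
  have tl : Tendsto (fun n : ℕ => ‖pr (Set.Ici (n : ℚ)) f‖) atTop (𝓝 0) := by
    refine dct _ f (fun n t => by rw [pr_apply]; split_ifs <;> simp) fun t => ?_
    refine tendsto_const_nhds.congr' ?_
    filter_upwards [tendsto_natCast_atTop_atTop.eventually_gt_atTop t] with n hn
    rw [pr_apply, if_neg (by simpa using hn), norm_zero]
  choose N hN using fun k => eventually_atTop.1 (tl.eventually (ge_mem_nhds
    (show 0 < aa k * (1 / 2) ^ k by have := aa_pos k; positivity)))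
  have hc : ∀ k, ∃ c : ℕ, Real.exp (-c) ≤ de k := fun k =>
    ((Real.tendsto_exp_neg_atTop_nhds_zero.comp tendsto_natCast_atTop_atTop).eventually
      (ge_mem_nhds (de_pos k))).exists
  choose c hc using hc
  obtain ⟨T, Tz, Tr⟩ : ∃ T : ℕ → ℕ, T 0 = 0 ∧
      ∀ k, T (k + 1) = N (k + 1) + c (k + 1) * T k + T k + 1 :=
    ⟨fun k => Nat.rec 0 (fun k n => N (k + 1) + c (k + 1) * n + n + 1) k, rfl, fun _ => rfl⟩
  have Tm : StrictMono T := strictMono_nat_of_lt_succ fun k => by rw [Tr]; omega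
  have T0 : ∀ k, (0 : ℚ) < T (k + 1) := fun k => by rw [Tr]; positivity
  have hex : ∀ t : ℚ, ∃ k, t < T (k + 1) := fun t => by
    obtain ⟨n, hn⟩ := exists_nat_gt t
    exact ⟨n, hn.trans_le (by exact_mod_cast (Nat.le_succ n).trans (Tm.id_le _))⟩
  have hκ : ∀ t : ℚ, ∃ k, t < T (k + 1) ∧ (0 < t → (T k : ℚ) ≤ t) := fun t => by
    refine ⟨_, Nat.find_spec (hex t), fun ht => ?_⟩
    rcases Nat.eq_zero_or_pos (Nat.find (hex t)) with h | h
    · rw [h, Tz]; exact_mod_cast ht.le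
    · have := Nat.find_min (hex t) (show Nat.find (hex t) - 1 < Nat.find (hex t) by omega)
      rw [Nat.sub_add_cancel h] at this
      exact not_lt.1 this
  choose κ κ1 κ2 using hκ
  set w : ℕ → ℕ → ℝ := fun p j => if j % 2 = p then aa j else 0 with hw
  have w0 : ∀ p j, 0 ≤ w p j := fun p j => by
    simp only [hw]; split_ifs; exacts [(aa_pos j).le, le_rfl]
  have w1 : ∀ p j, w p j ≤ aa j := fun p j => by
    simp only [hw]; split_ifs; exacts [le_rfl, (aa_pos j).le]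
  have w2 := fun p j => (w1 p j).trans (aa_le j)
  set r : ℕ → ℚ := fun j => 1 / T (j + 1) with hr
  have r0 : ∀ j, 0 < r j := fun j => one_div_pos.2 (T0 j)
  have gp : ∀ p, Pos (ser (w p) r) := fun p => ser_pos (w0 p) (w2 p) r0
  have at1 : ∀ t : ℚ, ∃ h e : L, Pos h ∧ Pos e ∧ ‖h‖ ≤ 18 ∧ ‖e‖ ≤ 36 ∧ ∀ z : ℚ, 0 < z →
      lam (gp (κ t % 2)) z h + (Real.exp (-z ^ 2) : ℂ) * e z = (aa (κ z) : ℂ) * dl t z := by
    intro t
    rcases le_or_gt t 0 with ht | ht
    · refine ⟨0, 0, fun _ _ => rfl, fun _ _ => rfl, by simp, by simp, fun z hz => ?_⟩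
      simp [dl_apply, (ht.trans_lt hz).ne']
    have t0 : (0 : ℝ) < t := by exact_mod_cast ht
    set k := κ t with hk
    obtain ⟨G, a1, a2⟩ := ser_tw (w0 (k % 2)) (w2 _) r0 (show 0 ≤ 2 * (t : ℝ) by positivity) k
      (de_pos k).le fun j hj => aa_exp (w1 _ j)
        (mul_nonpos_of_nonpos_of_nonneg (by linarith) (by exact_mod_cast (r0 j).le))
        (fun hjk => by
          by_cases h : j % 2 = k % 2
          · right
            refine (Real.exp_le_exp.2 ?_).trans (hc k)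
            obtain ⟨m, hm⟩ : ∃ m, k = m + 1 := ⟨k - 1, by omega⟩
            have b1 : c k * T (j + 1) ≤ T k := by
              have := Nat.mul_le_mul_left (c k) (Tm.monotone (show j + 1 ≤ m by omega))
              rw [hm] at this ⊢
              rw [Tr m]; omega
            have b2 : (c k : ℚ) ≤ 2 * t * r j := by
              simp only [hr]
              rw [mul_one_div, le_div_iff₀ (T0 j)]
              have b3 : ((c k * T (j + 1) : ℕ) : ℚ) ≤ T k := by exact_mod_cast b1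
              push_cast at b3
              linarith [κ2 t ht]
            have b4 : (c k : ℝ) ≤ 2 * t * r j := by exact_mod_cast b2
            linarith
          · left; simp only [hw]; rw [if_neg h]) hj (w0 _ j)
    have c1 : 1 / 9 ≤ Real.exp (-(2 * t) * r k) := by
      have b2 : t * r k ≤ 1 := by
        simp only [hr]
        rw [mul_one_div, div_le_one (T0 k)]; exact (κ1 t).le
      have b3 : (t : ℝ) * r k ≤ 1 := by exact_mod_cast b2
      refine le_trans ?_ (Real.exp_le_exp.2 (show -(1 + 1) ≤ _ by linarith))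
      rw [Real.exp_neg, Real.exp_add, one_div]
      gcongr
      nlinarith [Real.exp_one_lt_d9, Real.exp_pos 1]
    have ak := aa_pos k
    rw [show w (k % 2) k = aa k by simp [hw], smul_smul, ← Complex.ofReal_mul] at a2
    obtain ⟨J, j1, j2⟩ := unit (r k) (by positivity) (a2.trans (by
      have : (1 / 2 : ℝ) ^ (k + 7) ≤ (1 / 2) ^ 7 :=
        pow_le_pow_of_le_one (by norm_num) (by norm_num) (by omega)
      unfold de
      nlinarith))
    have j3 : aa k * ‖J‖ ≤ 18 := by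
      rw [le_div_iff₀ (by positivity)] at j2
      nlinarith [mul_nonneg (norm_nonneg J) ak.le]
    obtain ⟨h, e, d1, d2, d3, d4, d5⟩ := atom (gp _) ht a1 j1
    have ns : ∀ y : L, ‖(aa k : ℂ) • y‖ = aa k * ‖y‖ := fun y => by
      rw [norm_smul, Complex.norm_real, Real.norm_eq_abs, abs_of_pos ak]
    refine ⟨(aa k : ℂ) • h, (aa k : ℂ) • e, fun y hy => by rw [smul_ap, d1 y hy, mul_zero],
      fun y hy => by rw [smul_ap, d2 y hy, mul_zero], by rw [ns]; nlinarith, ?_, fun z hz => ?_⟩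
    · have := ser_le (w0 (k % 2)) (w2 _) r
      rw [ns]
      calc _ ≤ aa k * (‖J‖ * 2) := by gcongr; exact d4.trans (by gcongr)
        _ ≤ _ := by linarith
    · rw [map_smul, smul_ap, smul_eq_mul, mul_left_comm, ← mul_add, d5 z hz, dl_apply]
      split_ifs with h3 <;> simp [h3, hk]
  choose H E H0 E0 H1 E1 hHE using at1
  have sm : Summable fun p : ℕ × ℚ => ‖pr (Set.Ici (T p.1 : ℚ)) f p.2‖ / aa p.1 := by
    refine (summable_prod_of_nonneg fun p => by have := aa_pos p.1; positivity).2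
      ⟨fun k => (summ (pr (Set.Ici (T k : ℚ)) f)).div_const (aa k), (summable_nat_add_iff 1).1 ?_⟩
    refine ((summable_nat_add_iff 1).2 summable_geometric_two).of_nonneg_of_le
      (fun k => tsum_nonneg fun t => by have := aa_pos (k + 1); positivity) fun k => ?_
    simp only
    rw [tsum_div_const, ← nrm, div_le_iff₀' (aa_pos _)]
    exact hN _ _ (by rw [Tr]; omega)
  obtain ⟨φ, hφ⟩ := mk (fun t => pr (Set.Ici (T (κ t) : ℚ)) f t / aa (κ t)) (by
    refine (sm.comp_injective (i := fun t => (κ t, t)) fun _ _ h => (Prod.mk.inj h).2).congr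
      fun t => ?_
    simp only [Function.comp]
    rw [norm_div, Complex.norm_real, Real.norm_eq_abs, abs_of_pos (aa_pos _)])
  have Hb : ∀ p t, ‖if κ t % 2 = p then H t else 0‖ ≤ 18 := fun p t => by
    split_ifs; exacts [H1 t, by simp]
  have lp0 : ∀ (x : ℚ → L) (C : ℝ) (hx : ∀ t, ‖x t‖ ≤ C), (∀ t, Pos (x t)) →
      Pos (lift x C hx φ) := fun x C hx h y hy =>
    ext2 ((ev y).comp (lift x C hx)) 0 (fun t => by simp [lift_dl, ev_apply, h t y hy]) φ
  have Hp : ∀ p, Pos (lift _ _ (Hb p) φ) := fun p => lp0 _ _ _ fun t => by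
    split_ifs; exacts [H0 t, fun _ _ => rfl]
  refine ⟨_, _, _, _, _, gp 0, Hp 0, gp 1, Hp 1, lp0 _ _ E1 E0, fun z hz => ?_⟩
  have key := ext2 ((lam (gp 0) z).comp (lift _ _ (Hb 0)) + (lam (gp 1) z).comp (lift _ _ (Hb 1))
    + (Real.exp (-z ^ 2) : ℂ) • (ev z).comp (lift _ _ E1)) ((aa (κ z) : ℂ) • ev z) (fun t => by
      have := hHE t z hz
      simp only [ContinuousLinearMap.add_apply, ContinuousLinearMap.comp_apply, lift_dl,
        ContinuousLinearMap.smul_apply, ev_apply, smul_eq_mul]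
      rcases Nat.mod_two_eq_zero_or_one (κ t) with h | h
      · simp only [h] at this ⊢
        simpa using this
      · simp only [h] at this ⊢
        simpa using this) φ
  simp only [ContinuousLinearMap.add_apply, ContinuousLinearMap.comp_apply,
    ContinuousLinearMap.smul_apply, ev_apply, smul_eq_mul] at key
  have a0 : (aa (κ z) : ℂ) ≠ 0 := by exact_mod_cast (aa_pos _).ne'
  rw [hφ, pr_apply, if_pos (Set.mem_Ici.2 (κ2 z hz)), mul_div_cancel₀ _ a0] at key
  have cv : ∀ {g h : L} (hg : Pos g), Pos h → (Real.exp (z ^ 2) : ℂ) * lam hg z h =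
      ∑' y : ℚ, (Real.exp (y ^ 2) : ℂ) * h y * g (z - y) := by
    intro g h hg hh
    rw [lam, lift_apply, ← tsum_mul_left]
    refine tsum_congr fun y => ?_
    split_ifs with hy
    · rw [Real.exp_sub]
      have : (Real.exp (z ^ 2) : ℂ) ≠ 0 := by simp
      push_cast at this ⊢
      rw [smul_eq_mul]
      field_simp
    · simp [hh y (not_lt.1 hy)]
  rw [← cv (gp 0) (Hp 0), ← cv (gp 1) (Hp 1), ← key, mul_add, mul_add, ← mul_assoc,
    ← Complex.ofReal_mul, ← Real.exp_add]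
  simp

end Pool.Agent.Lib.helper16.WhD
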